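import Pool.Agent.Lib.MP_d79f69_nt.Iface

/-!
Cahen-Mellin formula with a contour shift and the first moment lower bound.
-/

open MeasureTheory Complex Filter Topology Set

namespace Pool.Agent.CubH

universe u

theorem cmIntExp {δ : ℝ} (hδ : 0 < δ) : Integrable (fun t : ℝ => Real.exp (-δ * |t|)) := by
  rw [← integrableOn_univ, ← Set.Iic_union_Ioi (a := (0 : ℝ))]
  refine IntegrableOn.union ?_ ?_
  · refine (integrableOn_exp_mul_Iic hδ 0).congr_fun (fun t ht => ?_) measurableSet_Iic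
    have ht' : t ≤ 0 := ht
    simp only [abs_of_nonpos ht']
    congr 1; ring
  · refine (integrableOn_exp_mul_Ioi (a := -δ) (by linarith) 0).congr_fun (fun t ht => ?_)
      measurableSet_Ioi
    have ht' : 0 < t := ht
    simp only [abs_of_pos ht']

theorem cmInt {E : Type} [NormedAddCommGroup E] {f : ℝ → E} (hf : Continuous f) {C δ : ℝ}
    (hδ : 0 < δ) (hb : ∀ t, ‖f t‖ ≤ C * Real.exp (-δ * |t|)) [SecondCountableTopologyEither ℝ E] :
    Integrable f :=
  Integrable.mono' ((cmIntExp hδ).const_mul C) hf.aestronglyMeasurable (ae_of_all _ hb)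

theorem cmCont {f : ℂ → ℂ} {a b σ : ℝ} (hf : DifferentiableOn ℂ f {s | s.re ∈ uIcc a b})
    (hσ : σ ∈ uIcc a b) : Continuous (fun t : ℝ => f (σ + t * I)) := by
  refine hf.continuousOn.comp_continuous (by fun_prop) (fun t => ?_)
  simpa using hσ

theorem cmShift (f : ℂ → ℂ) (a b C δ : ℝ) (hδ : 0 < δ)
    (hf : DifferentiableOn ℂ f {s | s.re ∈ uIcc a b})
    (hb : ∀ σ ∈ uIcc a b, ∀ t : ℝ, ‖f (σ + t * I)‖ ≤ C * Real.exp (-δ * |t|)) :
    ∫ t : ℝ, f (a + t * I) = ∫ t : ℝ, f (b + t * I) := by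
  have ia : Integrable (fun t : ℝ => f (a + t * I)) :=
    cmInt (cmCont hf left_mem_uIcc) hδ (hb a left_mem_uIcc)
  have ib : Integrable (fun t : ℝ => f (b + t * I)) :=
    cmInt (cmCont hf right_mem_uIcc) hδ (hb b right_mem_uIcc)
  have ta := intervalIntegral_tendsto_integral ia tendsto_neg_atTop_atBot tendsto_id
  have tb := intervalIntegral_tendsto_integral ib tendsto_neg_atTop_atBot tendsto_id
  have hz : Tendsto (fun T : ℝ => C * Real.exp (-δ * |T|) * |b - a|) atTop (𝓝 0) := by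
    have h1 : Tendsto (fun T : ℝ => -δ * |T|) atTop atBot :=
      Tendsto.const_mul_atTop_of_neg (by linarith) tendsto_abs_atTop_atTop
    have h2 := ((Real.tendsto_exp_atBot.comp h1).const_mul C).mul_const |b - a|
    simpa using h2
  have hh : ∀ T : ℝ, ‖∫ x : ℝ in a..b, f (x + T * I)‖ ≤ C * Real.exp (-δ * |T|) * |b - a| :=
    fun T => intervalIntegral.norm_integral_le_of_norm_le_const
      (fun x hx => hb x (uIoc_subset_uIcc hx) T)
  have h1 : Tendsto (fun T : ℝ => ∫ x : ℝ in a..b, f (x + T * I)) atTop (𝓝 0) :=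
    squeeze_zero_norm hh hz
  have h2 : Tendsto (fun T : ℝ => ∫ x : ℝ in a..b, f (x + ((-T : ℝ) : ℂ) * I)) atTop (𝓝 0) := by
    refine squeeze_zero_norm (fun T => ?_) hz
    simpa using hh (-T)
  have key : ∀ T : ℝ, (∫ x : ℝ in a..b, f (x + ((-T : ℝ) : ℂ) * I)) -
      (∫ x : ℝ in a..b, f (x + T * I)) + I • (∫ y : ℝ in (-T)..(id T), f (b + y * I)) -
      I • (∫ y : ℝ in (-T)..(id T), f (a + y * I)) = 0 := by
    intro T
    have := integral_boundary_rect_eq_zero_of_differentiableOn f ⟨a, -T⟩ ⟨b, T⟩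
      (hf.mono (fun s hs => hs.1))
    simpa using this
  have lim := ((h2.sub h1).add (tb.const_smul I)).sub (ta.const_smul I)
  simp only [key] at lim
  have := tendsto_nhds_unique lim tendsto_const_nhds
  simp only [sub_self, zero_add, smul_eq_mul] at this
  have h3 : I * ((∫ t : ℝ, f (a + t * I)) - ∫ t : ℝ, f (b + t * I)) = 0 := by
    linear_combination -this
  rcases mul_eq_zero.mp h3 with h | h
  · exact absurd h I_ne_zero
  · exact sub_eq_zero.mp h

theorem cmPow (k : ℕ) {δ : ℝ} (hδ : 0 < δ) :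
    ∃ M : ℝ, 0 < M ∧ ∀ t : ℝ, (1 + |t|) ^ k ≤ M * Real.exp (δ * |t|) := by
  refine ⟨k.factorial / δ ^ k * Real.exp δ, by positivity, fun t => ?_⟩
  have h := Real.pow_div_factorial_le_exp (x := δ * (1 + |t|)) (by positivity) k
  rw [mul_pow, div_le_iff₀ (by positivity), mul_add, mul_one, Real.exp_add] at h
  rw [div_mul_eq_mul_div, div_mul_eq_mul_div, le_div_iff₀ (by positivity)]
  nlinarith [h]

theorem cmMel (f : ℝ → ℂ) (s : ℂ) :
    mellin f s = ∫ x : ℝ, cexp (s * x) * f (Real.exp x) := by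
  have h1 : Real.exp '' univ = Ioi 0 := by rw [image_univ, Real.range_exp]
  rw [mellin, ← h1, integral_image_eq_integral_abs_deriv_smul MeasurableSet.univ
    (fun x _ => (Real.hasDerivAt_exp x).hasDerivWithinAt) Real.exp_injective.injOn,
    Measure.restrict_univ]
  refine integral_congr_ae (ae_of_all _ fun x => ?_)
  have h2 : ((Real.exp x : ℝ) : ℂ) ^ (s - 1) = cexp (x * (s - 1)) := by
    rw [cpow_def_of_ne_zero (by exact_mod_cast (Real.exp_pos x).ne'),
      ← ofReal_log (Real.exp_pos x).le, Real.log_exp]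
  simp only [abs_of_pos (Real.exp_pos x), smul_eq_mul, real_smul]
  rw [h2, ofReal_exp, ← mul_assoc, ← Complex.exp_add]
  congr 2; ring

theorem cmE {a b κ : ℝ} (ha : 0 < a) (hab : a ≤ b) (hκ : 0 < κ) :
    ∃ M : ℝ, 0 < M ∧ ∀ σ : ℝ, a ≤ σ → σ ≤ b → ∀ κ' : ℝ, κ ≤ κ' → ∀ x : ℝ,
      Real.exp (σ * x - κ' * Real.exp x) ≤ M * Real.exp (-a * |x|) := by
  refine ⟨Real.exp |(a + b) * Real.log (κ / (a + b))|, Real.exp_pos _, fun σ h1 h2 κ' hκ' x => ?_⟩
  rw [← Real.exp_add]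
  apply Real.exp_le_exp.mpr
  have hx := Real.exp_pos x
  have h0 : κ * Real.exp x ≤ κ' * Real.exp x := by gcongr
  rcases le_total x 0 with hx0 | hx0
  · rw [abs_of_nonpos hx0]
    have := abs_nonneg ((a + b) * Real.log (κ / (a + b)))
    nlinarith [mul_pos hκ hx]
  · rw [abs_of_nonneg hx0]
    have hab' : 0 < a + b := by linarith
    have h3 := Real.add_one_le_exp (x + Real.log (κ / (a + b)))
    rw [Real.exp_add, Real.exp_log (by positivity)] at h3
    have h4 : (a + b) * (x + Real.log (κ / (a + b)) + 1) ≤ κ * Real.exp x := by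
      calc _ ≤ (a + b) * (Real.exp x * (κ / (a + b))) := by gcongr
        _ = _ := by field_simp
    have := neg_abs_le ((a + b) * Real.log (κ / (a + b)))
    nlinarith

theorem cmNorm (w : ℂ) (x θ : ℝ) :
    ‖cexp (w * (x + θ * I) - cexp (x + θ * I))‖ =
      Real.exp (-w.im * θ) * Real.exp (w.re * x - Real.cos θ * Real.exp x) := by
  rw [Complex.norm_exp, ← Real.exp_add]
  congr 1
  simp [Complex.exp_re]
  ring

theorem cmGam (w : ℂ) (hw : 0 < w.re) (φ : ℝ) (hφ : |φ| < Real.pi / 2) :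
    Gamma w = ∫ x : ℝ, cexp (w * (x + φ * I) - cexp (x + φ * I)) := by
  have hc : 0 < Real.cos |φ| :=
    Real.cos_pos_of_mem_Ioo ⟨by linarith [abs_nonneg φ, Real.pi_pos], hφ⟩
  obtain ⟨M, hM, hE⟩ := cmE hw le_rfl hc
  have h := cmShift (fun s => cexp (w * (-I * s) - cexp (-I * s))) 0 (-φ)
    (Real.exp (‖w‖ * |φ|) * M) w.re hw (by fun_prop) (fun σ hσ t => by
      have e1 : -I * (σ + t * I) = t + ((-σ : ℝ) : ℂ) * I := by
        push_cast; linear_combination (-t) * I_mul_I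
      have hσ' : |σ| ≤ |φ| := by
        have := abs_sub_left_of_mem_uIcc hσ
        simpa using this
      simp only [e1, cmNorm]
      rw [mul_assoc]
      refine mul_le_mul (Real.exp_le_exp.mpr ?_) (hE _ le_rfl le_rfl _ ?_ t)
        (Real.exp_pos _).le (Real.exp_pos _).le
      · calc -w.im * -σ ≤ |w.im| * |σ| := by
              rw [← abs_mul, neg_mul_neg]; exact le_abs_self _
          _ ≤ _ := mul_le_mul (abs_im_le_norm w) hσ' (abs_nonneg _) (norm_nonneg _)
      · rw [Real.cos_neg, ← Real.cos_abs σ]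
        exact Real.cos_le_cos_of_nonneg_of_le_pi (abs_nonneg _) (by linarith [Real.pi_pos]) hσ')
  have e2 : ∀ t : ℝ, -I * (((0 : ℝ) : ℂ) + t * I) = t := by
    intro t; push_cast; linear_combination (-t) * I_mul_I
  have e3 : ∀ t : ℝ, -I * (((-φ : ℝ) : ℂ) + t * I) = t + φ * I := by
    intro t; push_cast; linear_combination (-t) * I_mul_I
  simp only [e2, e3] at h
  rw [← h, Gamma_eq_integral hw, GammaIntegral_eq_mellin, cmMel]
  refine integral_congr_ae (ae_of_all _ fun x => ?_)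
  simp only [ofReal_exp, ofReal_neg]
  rw [← Complex.exp_add, sub_eq_add_neg]

theorem cmGamB {a b φ : ℝ} (ha : 0 < a) (hab : a ≤ b) (h0 : 0 ≤ φ) (hφ : φ < Real.pi / 2) :
    ∃ M : ℝ, 0 < M ∧ ∀ w : ℂ, a ≤ w.re → w.re ≤ b →
      ‖Gamma w‖ ≤ M * Real.exp (-φ * |w.im|) := by
  have hc : 0 < Real.cos φ := Real.cos_pos_of_mem_Ioo ⟨by linarith [Real.pi_pos], hφ⟩
  obtain ⟨M, hM, hE⟩ := cmE ha hab hc
  have hI : 0 ≤ ∫ x : ℝ, M * Real.exp (-a * |x|) :=
    integral_nonneg (fun x => by positivity)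
  refine ⟨(∫ x : ℝ, M * Real.exp (-a * |x|)) + 1, by linarith, fun w h1 h2 => ?_⟩
  obtain ⟨θ, hθ, hθ'⟩ : ∃ θ : ℝ, |θ| = φ ∧ -w.im * θ = -φ * |w.im| := by
    rcases le_total 0 w.im with h | h
    · exact ⟨φ, abs_of_nonneg h0, by rw [abs_of_nonneg h]; ring⟩
    · exact ⟨-φ, by rw [abs_neg, abs_of_nonneg h0], by rw [abs_of_nonpos h]; ring⟩
  rw [cmGam w (by linarith) θ (by rw [hθ]; exact hφ)]
  calc _ ≤ ∫ x : ℝ, Real.exp (-φ * |w.im|) * (M * Real.exp (-a * |x|)) := by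
        refine norm_integral_le_of_norm_le (((cmIntExp ha).const_mul M).const_mul _)
          (ae_of_all _ fun x => ?_)
        rw [cmNorm, hθ', ← Real.cos_abs θ, hθ]
        exact mul_le_mul_of_nonneg_left (hE _ h1 h2 _ le_rfl x) (Real.exp_pos _).le
    _ ≤ _ := by
        rw [integral_const_mul]
        nlinarith [Real.exp_pos (-φ * |w.im|)]

theorem cmGamC {f : ℝ → ℂ} (hf : Continuous f) (h : ∀ t, 0 < (f t).re) :
    Continuous (fun t => Gamma (f t)) := by
  refine continuous_iff_continuousAt.mpr (fun t => ?_)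
  refine ContinuousAt.comp (g := Gamma) (continuousAt_Gamma _ (fun m hm => ?_)) hf.continuousAt
  have h1 := h t
  rw [hm] at h1
  simp only [neg_re, natCast_re] at h1
  linarith [Nat.cast_nonneg (α := ℝ) m]

theorem cmCM {c : ℝ} (hc : 0 < c) (x φ : ℝ) (hφ : |φ| < Real.pi / 2) :
    ∫ u : ℝ, Gamma (c + u * I) * cexp (-((c + u * I) * (x + φ * I))) =
      2 * Real.pi * cexp (-cexp (x + φ * I)) := by
  have hcos : 0 < Real.cos φ := Real.cos_pos_of_mem_Ioo (abs_lt.mp hφ)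
  set f : ℝ → ℂ := fun y => cexp (-(y * cexp (φ * I))) with hf
  have hfc : Continuous f := by rw [hf]; fun_prop
  have hm : ∀ w : ℂ, 0 < w.re → mellin f w = Gamma w * cexp (-(w * (φ * I))) := by
    intro w hw
    rw [cmMel, cmGam w hw φ hφ, ← integral_mul_const]
    refine integral_congr_ae (ae_of_all _ fun t => ?_)
    simp only [hf, ofReal_exp]
    rw [← Complex.exp_add, ← Complex.exp_add, ← Complex.exp_add]
    congr 1; ring
  have h1 : MellinConvergent f c := by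
    have hi := integrableOn_rpow_mul_exp_neg_mul_rpow (p := 1) (s := c - 1) (b := Real.cos φ)
      (by linarith) one_pos hcos
    refine Integrable.mono' hi ?_ ?_
    · refine ContinuousOn.aestronglyMeasurable ?_ measurableSet_Ioi
      refine ContinuousOn.smul (f := fun t : ℝ => (t : ℂ) ^ ((c : ℂ) - 1)) (g := f)
        (fun t ht => ?_) hfc.continuousOn
      exact (continuousAt_ofReal_cpow_const t _ (Or.inr (ne_of_gt ht))).continuousWithinAt
    · refine (ae_restrict_iff' measurableSet_Ioi).mpr (ae_of_all _ fun t ht => ?_)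
      have ht' : 0 < t := ht
      rw [norm_smul, norm_cpow_eq_rpow_re_of_pos ht', Complex.norm_exp, Real.rpow_one]
      simp [Complex.exp_re, mul_comm]
  have h2 : VerticalIntegrable (mellin f) c := by
    obtain ⟨M, hM, hB⟩ := cmGamB (a := c) (b := c) (φ := (|φ| + Real.pi / 2) / 2) hc le_rfl
      (by positivity) (by linarith)
    have e : (fun y : ℝ => mellin f (c + y * I)) =
        fun y : ℝ => Gamma (c + y * I) * cexp (-((c + y * I) * (φ * I))) :=
      funext fun y => hm _ (by simpa using hc)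
    unfold VerticalIntegrable
    rw [e]
    refine cmInt (C := M) (δ := (Real.pi / 2 - |φ|) / 2)
      ((cmGamC (by fun_prop) (fun t => by simpa using hc)).mul (by fun_prop)) (by linarith)
      (fun t => ?_)
    have h3 := hB (c + t * I) (by simp) (by simp)
    have h4 : ‖cexp (-((c + t * I) * (φ * I)))‖ ≤ Real.exp (|φ| * |t|) := by
      rw [Complex.norm_exp, ← abs_mul]
      apply Real.exp_le_exp.mpr
      refine le_trans (le_of_eq ?_) (le_abs_self _)
      simp [mul_comm]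
    rw [norm_mul]
    refine (mul_le_mul h3 h4 (norm_nonneg _) (by positivity)).trans (le_of_eq ?_)
    rw [mul_assoc, ← Real.exp_add]
    congr 2
    simp only [add_im, ofReal_im, mul_im, ofReal_re, I_im, I_re, mul_one, mul_zero, add_zero,
      zero_add]
    ring
  have h3 := mellinInv_mellin_eq c f (Real.exp_pos x) h1 h2 hfc.continuousAt
  rw [mellinInv] at h3
  have e1 : ∀ y : ℝ, ((Real.exp x : ℝ) : ℂ) ^ (-(c + y * I)) • mellin f (c + y * I) =
      Gamma (c + y * I) * cexp (-((c + y * I) * (x + φ * I))) := by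
    intro y
    rw [hm _ (by simpa using hc), cpow_def_of_ne_zero (by exact_mod_cast (Real.exp_pos x).ne'),
      ← ofReal_log (Real.exp_pos x).le, Real.log_exp, smul_eq_mul, mul_left_comm,
      ← Complex.exp_add]
    congr 2; ring
  simp only [e1] at h3
  have e2 : f (Real.exp x) = cexp (-cexp (x + φ * I)) := by
    simp only [hf, ofReal_exp, Complex.exp_add]
  rw [← e2, ← h3, real_smul]
  generalize (∫ u : ℝ, Gamma (c + u * I) * cexp (-((c + u * I) * (x + φ * I)))) = Z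
  have : (Real.pi : ℂ) ≠ 0 := by exact_mod_cast Real.pi_pos.ne'
  push_cast
  field_simp

/-- the Cahen-Mellin kernel -/
noncomputable def cmK (x φ : ℝ) (s : ℂ) : ℂ :=
  Gamma (3 * s / 2 - 1 / 4) * cexp (-((3 * s / 2 - 1 / 4) * (x + φ * I)))

theorem cmKB (x φ : ℝ) (hφ : |φ| < Real.pi / 2) : ∃ M δ : ℝ, 0 < M ∧ 0 < δ ∧
    ∀ σ : ℝ, 1 / 2 ≤ σ → σ ≤ 2 → ∀ t : ℝ, ‖cmK x φ (σ + t * I)‖ ≤ M * Real.exp (-δ * |t|) := by
  obtain ⟨M, hM, hB⟩ := cmGamB (a := 1 / 2) (b := 3) (φ := (|φ| + Real.pi / 2) / 2)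
    (by norm_num) (by norm_num) (by positivity) (by linarith)
  refine ⟨M * Real.exp (3 * |x|), 3 / 4 * (Real.pi / 2 - |φ|), by positivity, by linarith,
    fun σ h1 h2 t => ?_⟩
  have e : 3 * ((σ : ℂ) + t * I) / 2 - 1 / 4 =
      ((3 * σ / 2 - 1 / 4 : ℝ) : ℂ) + ((3 / 2 * t : ℝ) : ℂ) * I := by push_cast; ring
  unfold cmK
  rw [e]
  have hc1 : 1 / 2 ≤ 3 * σ / 2 - 1 / 4 := by linarith
  have hc2 : 3 * σ / 2 - 1 / 4 ≤ 3 := by linarith
  have hu : |3 / 2 * t| = 3 / 2 * |t| := by rw [abs_mul]; norm_num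
  generalize 3 * σ / 2 - 1 / 4 = c at hc1 hc2
  generalize 3 / 2 * t = v at hu
  have h3 := hB (c + v * I) (by simpa using hc1) (by simpa using hc2)
  have h4 : ‖cexp (-((c + v * I) * (x + φ * I)))‖ ≤ Real.exp (3 * |x| + |φ| * |v|) := by
    rw [Complex.norm_exp]
    apply Real.exp_le_exp.mpr
    have e2 : (-(((c : ℂ) + v * I) * (x + φ * I))).re = -(c * x) + φ * v := by
      simp [mul_comm]; ring
    rw [e2]
    have h5 : φ * v ≤ |φ| * |v| := by rw [← abs_mul]; exact le_abs_self _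
    have h6 : -(c * x) ≤ 3 * |x| := by
      have := neg_abs_le x
      have := abs_nonneg x
      nlinarith
    linarith
  rw [norm_mul]
  refine (mul_le_mul h3 h4 (norm_nonneg _) (by positivity)).trans (le_of_eq ?_)
  rw [mul_assoc, mul_assoc, ← Real.exp_add, ← Real.exp_add]
  congr 2
  simp only [add_im, ofReal_im, mul_im, ofReal_re, I_im, I_re, mul_one, mul_zero, add_zero,
    zero_add, hu]
  ring

theorem cmKD (x φ : ℝ) : DifferentiableOn ℂ (cmK x φ) {s | s.re ∈ uIcc (1 / 2 : ℝ) 2} := by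
  intro s hs
  have hs' : 1 / 2 ≤ s.re := by
    have h : s.re ∈ uIcc (1 / 2 : ℝ) 2 := hs
    rw [uIcc_of_le (by norm_num)] at h
    exact h.1
  refine DifferentiableAt.differentiableWithinAt ?_
  unfold cmK
  refine DifferentiableAt.mul ?_ (by fun_prop)
  refine DifferentiableAt.comp (g := Gamma) s (differentiableAt_Gamma _ (fun m hm => ?_))
    (by fun_prop)
  have h1 := congrArg Complex.re hm
  simp at h1
  linarith [Nat.cast_nonneg (α := ℝ) m]

theorem cmKI (x φ : ℝ) (hφ : |φ| < Real.pi / 2) :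
    ∫ t : ℝ, cmK x φ (((2 : ℝ) : ℂ) + t * I) = 4 * Real.pi / 3 * cexp (-cexp (x + φ * I)) := by
  have h := cmCM (c := 11 / 4) (by norm_num) x φ hφ
  have h2 := Measure.integral_comp_mul_left (fun u : ℝ => Gamma (((11 / 4 : ℝ) : ℂ) + u * I) *
    cexp (-((((11 / 4 : ℝ) : ℂ) + u * I) * (x + φ * I)))) (3 / 2)
  rw [h] at h2
  have e : ∀ t : ℝ, 3 * (((2 : ℝ) : ℂ) + t * I) / 2 - 1 / 4 =
      ((11 / 4 : ℝ) : ℂ) + ((3 / 2 * t : ℝ) : ℂ) * I := by intro t; push_cast; ring
  unfold cmK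
  simp only [e]
  rw [h2, real_smul, abs_of_pos (by norm_num)]
  push_cast
  ring

theorem cmKN {N : ℝ} (hN : 0 < N) (x φ : ℝ) (s : ℂ) :
    (N : ℂ) ^ (-s) * cmK x φ s =
      ((N ^ (-(1 : ℝ) / 6) : ℝ) : ℂ) * cmK (x + 2 / 3 * Real.log N) φ s := by
  unfold cmK
  rw [cpow_def_of_ne_zero (by exact_mod_cast hN.ne'), ← ofReal_log hN.le,
    Real.rpow_def_of_pos hN, ofReal_exp, mul_left_comm, mul_left_comm (cexp _),
    ← Complex.exp_add, ← Complex.exp_add]
  congr 2
  push_cast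
  ring

theorem cmPoly {L : ℂ → ℂ} (hL : Poly L) {δ : ℝ} (hδ : 0 < δ) : ∃ C : ℝ, 0 < C ∧
    ∀ σ t : ℝ, 1 / 2 ≤ σ → ‖L (σ + t * I)‖ ≤ C * Real.exp (δ * |t|) := by
  obtain ⟨C, k, h⟩ := hL
  obtain ⟨M, hM, hB⟩ := cmPow k hδ
  refine ⟨(|C| + 1) * M, by positivity, fun σ t hσ => ?_⟩
  have h1 := h (σ + t * I) (by simpa using hσ)
  simp only [add_im, ofReal_im, mul_im, ofReal_re, I_im, I_re, mul_one, mul_zero, add_zero,
    zero_add] at h1
  rw [mul_assoc]
  exact h1.trans (mul_le_mul (by linarith [le_abs_self C]) (hB t) (by positivity) (by positivity))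

theorem sCM (h : SSt) : SCM.{u} := by
  intro J Nn χ L hN hχ hsum hL hP hD k0 ε hk hε hε1
  have hφ : |Real.pi / 2 - ε| < Real.pi / 2 := by
    rw [abs_lt]; constructor <;> linarith [Real.pi_gt_three]
  obtain ⟨M, δ, hM, hδ, hK⟩ := cmKB (Real.log k0) _ hφ
  obtain ⟨C, hC, hLB⟩ := cmPoly hP (half_pos hδ)
  set K := cmK (Real.log k0) (Real.pi / 2 - ε) with hKdef
  have hKd : DifferentiableOn ℂ K {s | s.re ∈ uIcc (1 / 2 : ℝ) 2} := cmKD _ _
  have hd : DifferentiableOn ℂ (fun s => L s * K s) {s | s.re ∈ uIcc (1 / 2 : ℝ) 2} :=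
    hL.differentiableOn.mul hKd
  have hb : ∀ σ ∈ uIcc (1 / 2 : ℝ) 2, ∀ t : ℝ,
      ‖L (σ + t * I) * K (σ + t * I)‖ ≤ C * M * Real.exp (-(δ / 2) * |t|) := by
    intro σ hσ t
    rw [uIcc_of_le (by norm_num)] at hσ
    rw [norm_mul]
    refine (mul_le_mul (hLB σ t hσ.1) (hK σ hσ.1 hσ.2 t) (norm_nonneg _) (by positivity)).trans
      (le_of_eq ?_)
    rw [mul_mul_mul_comm, ← Real.exp_add]
    congr 2; ring
  have e0 : (fun t : ℝ => L (1 / 2 + t * I) * Gamma (1 / 2 + 3 * t / 2 * I) *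
      cexp (-((1 / 2 + 3 * t / 2 * I) * (Real.log k0 + I * (Real.pi / 2 - ε))))) =
      fun t : ℝ => L (((1 / 2 : ℝ) : ℂ) + t * I) * K (((1 / 2 : ℝ) : ℂ) + t * I) := by
    funext t
    have e1 : 3 * (((1 / 2 : ℝ) : ℂ) + t * I) / 2 - 1 / 4 = 1 / 2 + 3 * t / 2 * I := by
      push_cast; ring
    simp only [hKdef, cmK, e1]
    rw [mul_assoc, mul_comm I]
    push_cast
    rfl
  rw [e0]
  refine ⟨cmInt (cmCont hd left_mem_uIcc) (half_pos hδ) (hb _ left_mem_uIcc), ?_⟩
  rw [cmShift (fun s => L s * K s) (1 / 2) 2 _ _ (half_pos hδ) hd hb]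
  have hN0 : ∀ j, 0 < Nn j := fun j => lt_of_lt_of_le one_pos (hN j)
  have hs2 := hsum 2 (by norm_num)
  have : Countable J := by
    have h1 := hs2.countable_support
    have h2 : Function.support (fun j => Nn j ^ (-(2 : ℝ))) = univ :=
      eq_univ_of_forall fun j => (Real.rpow_pos_of_pos (hN0 j) _).ne'
    rw [h2] at h1
    exact countable_univ_iff.mp h1
  have hKi : Integrable (fun t : ℝ => K (((2 : ℝ) : ℂ) + t * I)) :=
    cmInt (cmCont hKd right_mem_uIcc) hδ (hK 2 (by norm_num) le_rfl)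
  set F : J → ℝ → ℂ := fun j t =>
    χ j * (Nn j : ℂ) ^ (-(((2 : ℝ) : ℂ) + t * I)) * K (((2 : ℝ) : ℂ) + t * I) with hF
  have hFn : ∀ j t, ‖F j t‖ ≤ Nn j ^ (-(2 : ℝ)) * ‖K (((2 : ℝ) : ℂ) + t * I)‖ := by
    intro j t
    simp only [hF]
    rw [norm_mul, norm_mul, norm_cpow_eq_rpow_re_of_pos (hN0 j)]
    have e : (-(((2 : ℝ) : ℂ) + t * I)).re = -2 := by simp
    rw [e]
    have := Real.rpow_pos_of_pos (hN0 j) (-2)
    have := hχ j
    gcongr
    nlinarith
  have hFi : ∀ j, Integrable (F j) := by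
    intro j
    refine Integrable.mono' (hKi.norm.const_mul _) (Continuous.aestronglyMeasurable ?_)
      (ae_of_all _ (hFn j))
    refine Continuous.mul (continuous_const.mul ?_) (cmCont hKd right_mem_uIcc)
    exact Continuous.const_cpow (by fun_prop) (Or.inl (by exact_mod_cast (hN0 j).ne'))
  have hFs : Summable (fun j => ∫ t, ‖F j t‖) := by
    refine Summable.of_nonneg_of_le (fun j => integral_nonneg fun t => norm_nonneg _)
      (fun j => ?_) (hs2.mul_right (∫ t : ℝ, ‖K (((2 : ℝ) : ℂ) + t * I)‖))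
    rw [← integral_const_mul]
    exact integral_mono (hFi j).norm (hKi.norm.const_mul _) (hFn j)
  have e2 : (fun t : ℝ => L (((2 : ℝ) : ℂ) + t * I) * K (((2 : ℝ) : ℂ) + t * I)) =
      fun t => ∑' j, F j t := by
    funext t
    rw [hD _ (by simp), DS, ← tsum_mul_right]
  rw [e2, ← integral_tsum_of_summable_integral_norm hFi hFs, TS, ← tsum_mul_left]
  refine tsum_congr fun j => ?_
  simp only [hF, hKdef, mul_assoc, cmKN (hN0 j)]
  rw [integral_const_mul, integral_const_mul, cmKI _ _ hφ]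
  have e3 : cexp (((Real.log k0 + 2 / 3 * Real.log (Nn j) : ℝ) : ℂ) +
      ((Real.pi / 2 - ε : ℝ) : ℂ) * I) =
      k0 * (cexp (I * (Real.pi / 2 - ε)) * ((Nn j ^ ((2 : ℝ) / 3) : ℝ) : ℂ)) := by
    rw [Complex.exp_add, ← ofReal_exp, Real.exp_add, Real.exp_log hk,
      Real.rpow_def_of_pos (hN0 j), mul_comm (Real.log (Nn j)), mul_comm I]
    push_cast
    ring
  rw [e3]
  ring

/-- the Gaussian kernel -/
noncomputable def cmG (b τ : ℝ) (s : ℂ) : ℂ := cexp (b * (s - τ * I) ^ 2)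

theorem cmGn (b τ σ t : ℝ) :
    ‖cmG b τ (σ + t * I)‖ = Real.exp (b * σ ^ 2) * Real.exp (-b * (t - τ) ^ 2) := by
  have e : (b : ℂ) * (σ + t * I - τ * I) ^ 2 =
      ((b * σ ^ 2 + -b * (t - τ) ^ 2 : ℝ) : ℂ) + ((2 * b * σ * (t - τ) : ℝ) : ℂ) * I := by
    push_cast
    linear_combination (b * (t - τ) ^ 2 : ℂ) * I_mul_I
  unfold cmG
  rw [e, Complex.norm_exp, ← Real.exp_add]
  congr 1
  simp only [add_re, ofReal_re, mul_re, I_re, I_im, ofReal_im, mul_zero, mul_one, sub_zero,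
    add_zero]

theorem cmQ {b : ℝ} (hb : 0 < b) (v : ℝ) : -b * v ^ 2 ≤ 9 / (4 * b) - 3 * |v| := by
  have h : b * (|v| - 3 / (2 * b)) ^ 2 = b * v ^ 2 - 3 * |v| + 9 / (4 * b) := by
    rw [← sq_abs v]; field_simp; ring
  have : 0 ≤ b * (|v| - 3 / (2 * b)) ^ 2 := by positivity
  linarith

theorem cmGb {L : ℂ → ℂ} {a c b C : ℝ} (τ : ℝ) (hb : 0 < b) (hC : 0 ≤ C)
    (hL : ∀ σ ∈ uIcc a c, ∀ t : ℝ, ‖L (σ + t * I)‖ ≤ C * Real.exp (1 * |t|)) :
    ∀ σ ∈ uIcc a c, ∀ t : ℝ, ‖L (σ + t * I) * cmG b τ (σ + t * I)‖ ≤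
      C * Real.exp (b * (a ^ 2 + c ^ 2) + 9 / (4 * b) + 2 * |τ|) * Real.exp (-1 * |t|) := by
  intro σ hσ t
  rw [norm_mul, cmGn]
  refine (mul_le_mul_of_nonneg_right (hL σ hσ t) (by positivity)).trans ?_
  rw [mul_assoc, mul_assoc, ← Real.exp_add, ← Real.exp_add, ← Real.exp_add]
  refine mul_le_mul_of_nonneg_left (Real.exp_le_exp.mpr ?_) hC
  have h1 : σ ^ 2 ≤ a ^ 2 + c ^ 2 := by
    rcases mem_uIcc.mp hσ with h | h <;> rcases le_total 0 σ with h' | h' <;> nlinarith [h.1, h.2]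
  have h2 := cmQ hb (t - τ)
  have h3 : |t| ≤ |t - τ| + |τ| := by
    have := abs_add_le (t - τ) τ
    simpa using this
  have h4 := mul_le_mul_of_nonneg_left h1 hb.le
  linarith [abs_nonneg (t - τ)]

theorem cmGd (b τ : ℝ) : Differentiable ℂ (cmG b τ) := by
  unfold cmG; fun_prop

theorem cmLow {L : ℂ → ℂ} (hL : Differentiable ℂ L) (hP : Poly L) {U : ℝ} (hU : 2 ≤ U)
    (h1 : ∀ s : ℂ, s.re = U → ‖L s - 1‖ ≤ 1 / 10) : ∃ b c : ℝ, 0 < b ∧ 0 < c ∧ ∀ τ : ℝ,
      Integrable (fun t : ℝ => ‖L (((1 / 2 : ℝ) : ℂ) + t * I)‖ * Real.exp (-b * (t - τ) ^ 2)) ∧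
      c ≤ ∫ t : ℝ, ‖L (((1 / 2 : ℝ) : ℂ) + t * I)‖ * Real.exp (-b * (t - τ) ^ 2) := by
  obtain ⟨b, hb, hbU⟩ : ∃ b : ℝ, 0 < b ∧ b * U ^ 2 = 1 :=
    ⟨1 / U ^ 2, by positivity, by field_simp⟩
  obtain ⟨C, hC, hLB⟩ := cmPoly hP one_pos
  have hG : 0 < √(Real.pi / b) := by have := Real.pi_pos; positivity
  refine ⟨b, 7 / 10 * √(Real.pi / b) / Real.exp (b * (1 / 2) ^ 2), hb, by positivity, fun τ => ?_⟩
  have hg : ∫ t : ℝ, Real.exp (-b * (t - τ) ^ 2) = √(Real.pi / b) := by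
    rw [integral_sub_right_eq_self (fun t : ℝ => Real.exp (-b * t ^ 2)) τ, integral_gaussian]
  have hgi : Integrable (fun t : ℝ => Real.exp (-b * (t - τ) ^ 2)) :=
    (integrable_exp_neg_mul_sq hb).comp_sub_right τ
  have hb1 := cmGb (L := L) (a := 1 / 2) (c := U) τ hb hC.le (fun σ hσ t => hLB σ t (by
    rw [uIcc_of_le (by linarith)] at hσ; exact hσ.1))
  have hb2 := cmGb (L := fun _ => 1) (a := 0) (c := U) τ hb zero_le_one (fun σ _ t => by
    simpa using abs_nonneg t)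
  have d1 : DifferentiableOn ℂ (fun s => L s * cmG b τ s) {s | s.re ∈ uIcc (1 / 2 : ℝ) U} :=
    (hL.mul (cmGd b τ)).differentiableOn
  have d2 : DifferentiableOn ℂ (fun s => 1 * cmG b τ s) {s | s.re ∈ uIcc (0 : ℝ) U} :=
    ((cmGd b τ).const_mul 1).differentiableOn
  have s1 := cmShift _ _ _ _ _ one_pos d1 hb1
  have s2 := cmShift _ _ _ _ _ one_pos d2 hb2
  have i0 := cmInt (cmCont d1 left_mem_uIcc) one_pos (hb1 _ left_mem_uIcc)
  have i1 := cmInt (cmCont d1 right_mem_uIcc) one_pos (hb1 _ right_mem_uIcc)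
  have i2 := cmInt (cmCont d2 right_mem_uIcc) one_pos (hb2 _ right_mem_uIcc)
  have e0 : (fun t : ℝ => ‖L (((1 / 2 : ℝ) : ℂ) + t * I)‖ * Real.exp (-b * (t - τ) ^ 2)) =
      fun t : ℝ => ‖L (((1 / 2 : ℝ) : ℂ) + t * I) * cmG b τ (((1 / 2 : ℝ) : ℂ) + t * I)‖ /
        Real.exp (b * (1 / 2) ^ 2) := by
    funext t
    rw [norm_mul, cmGn]
    field_simp
  rw [e0]
  refine ⟨i0.norm.div_const _, ?_⟩
  rw [integral_div]
  refine div_le_div_of_nonneg_right (le_trans ?_ (norm_integral_le_integral_norm _))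
    (Real.exp_pos _).le
  have e1 : ∫ t : ℝ, 1 * cmG b τ (((0 : ℝ) : ℂ) + t * I) = ((√(Real.pi / b) : ℝ) : ℂ) := by
    rw [← hg, ← integral_complex_ofReal]
    refine integral_congr_ae (ae_of_all _ fun t => ?_)
    simp only [cmG, one_mul, ofReal_exp]
    congr 1
    push_cast
    linear_combination (b * (t - τ) ^ 2 : ℂ) * I_mul_I
  have e2 : ‖(∫ t : ℝ, L (U + t * I) * cmG b τ (U + t * I)) -
      ∫ t : ℝ, 1 * cmG b τ (U + t * I)‖ ≤ 3 / 10 * √(Real.pi / b) := by
    rw [← integral_sub i1 i2, ← hg, ← integral_const_mul]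
    refine norm_integral_le_of_norm_le (hgi.const_mul _) (ae_of_all _ fun t => ?_)
    rw [← sub_mul, norm_mul, cmGn, hbU, ← mul_assoc]
    refine mul_le_mul_of_nonneg_right ?_ (Real.exp_pos _).le
    have h2 := h1 (U + t * I) (by simp)
    have h3 := Real.exp_one_lt_d9
    nlinarith [Real.exp_pos 1, norm_nonneg (L (U + t * I) - 1)]
  rw [← s1, ← s2, e1] at e2
  have e3 := norm_sub_norm_le ((√(Real.pi / b) : ℝ) : ℂ)
    (∫ t : ℝ, L (((1 / 2 : ℝ) : ℂ) + t * I) * cmG b τ (((1 / 2 : ℝ) : ℂ) + t * I))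
  rw [norm_sub_rev, norm_real, Real.norm_of_nonneg hG.le] at e3
  linarith

theorem cmStep (v : ℝ) :
    Real.exp (-|v|) ≤ 8 * (1 / (1 + Real.exp v) - 1 / (1 + Real.exp (v + 1))) := by
  have hy := Real.exp_pos v
  have h2 : 2 * Real.exp v ≤ Real.exp (v + 1) := by
    rw [Real.exp_add]
    nlinarith [Real.add_one_le_exp 1]
  have h3 : 1 / (1 + Real.exp (v + 1)) ≤ 1 / (1 + 2 * Real.exp v) :=
    one_div_le_one_div_of_le (by positivity) (by linarith)
  have h4 : 1 / (1 + Real.exp v) - 1 / (1 + 2 * Real.exp v) =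
      Real.exp v / ((1 + Real.exp v) * (1 + 2 * Real.exp v)) := by field_simp; ring
  have h5 : Real.exp (-|v|) ≤ 8 * (Real.exp v / ((1 + Real.exp v) * (1 + 2 * Real.exp v))) := by
    rw [← mul_div_assoc, le_div_iff₀ (by positivity)]
    rcases le_total v 0 with h | h
    · rw [abs_of_nonpos h, neg_neg]
      have := Real.exp_le_one_iff.mpr h
      have h6 : (1 + Real.exp v) * (1 + 2 * Real.exp v) ≤ 8 := by nlinarith
      nlinarith
    · rw [abs_of_nonneg h, Real.exp_neg, inv_mul_le_iff₀ hy]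
      have := Real.one_le_exp h
      nlinarith
  linarith

theorem cmSum (x : ℝ) (N : ℕ) : ∑ n ∈ Finset.range N, Real.exp (-|x + n|) ≤ 8 := by
  have h : ∑ n ∈ Finset.range N, Real.exp (-|x + n|) ≤
      8 * (1 / (1 + Real.exp x) - 1 / (1 + Real.exp (x + N))) := by
    induction N with
    | zero => simp
    | succ N ih =>
      rw [Finset.sum_range_succ, Nat.cast_succ, ← add_assoc]
      linarith [cmStep (x + N)]
  have h1 : 1 / (1 + Real.exp x) ≤ 1 := by
    rw [div_le_one (by positivity)]; linarith [Real.exp_pos x]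
  have h2 : 0 ≤ 1 / (1 + Real.exp (x + N)) := by positivity
  linarith

theorem cmKer {b : ℝ} (hb : 0 < b) (T t ε : ℝ) (h0 : 0 < ε) (h2 : ε ≤ 2) (N : ℕ) :
    ∑ n ∈ Finset.range N, Real.exp (-ε * (T + n)) * Real.exp (-b * (t - (T + n)) ^ 2) ≤
      8 * Real.exp (9 / (4 * b)) *
        (if T < t then Real.exp (-ε * t) else Real.exp (2 * |T| - 2 * |t - T|)) := by
  have key : ∀ n : ℕ, Real.exp (-ε * (T + n)) * Real.exp (-b * (t - (T + n)) ^ 2) ≤
      Real.exp (-|T - t + n|) * (Real.exp (9 / (4 * b)) *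
        (if T < t then Real.exp (-ε * t) else Real.exp (2 * |T| - 2 * |t - T|))) := by
    intro n
    have h3 := cmQ hb (t - (T + n))
    have h4 : |t - (T + n)| = |T - t + n| := by rw [← abs_neg]; congr 1; ring
    rw [h4] at h3
    have hn : (0 : ℝ) ≤ n := Nat.cast_nonneg n
    split_ifs with ht <;> simp only [← Real.exp_add] <;> apply Real.exp_le_exp.mpr
    · have h5 := neg_abs_le (T - t + n)
      have h6 := abs_nonneg (T - t + n)
      nlinarith
    · have h5 : |t - T| ≤ |T - t + n| := by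
        rw [abs_of_nonpos (by linarith), abs_of_nonneg (by linarith)]; linarith
      have h6 := neg_abs_le T
      have h7 := abs_nonneg T
      nlinarith [mul_nonneg h0.le hn]
  refine (Finset.sum_le_sum fun n _ => key n).trans ?_
  rw [← Finset.sum_mul, mul_assoc]
  refine mul_le_mul_of_nonneg_right (cmSum _ N) ?_
  split_ifs <;> positivity

theorem sLB : SLB := by
  rintro L hL hP ⟨U, hU, h1⟩ T
  obtain ⟨b, c, hb, hc, hlow⟩ := cmLow hL hP hU h1
  have e : ∀ t : ℝ, (1 / 2 : ℂ) + t * I = ((1 / 2 : ℝ) : ℂ) + t * I := by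
    intro t; push_cast; rfl
  simp only [e]
  set f : ℝ → ℝ := fun t => ‖L (((1 / 2 : ℝ) : ℂ) + t * I)‖ with hf
  have hfc : Continuous f := (hL.continuous.comp (by fun_prop)).norm
  have hf0 : ∀ t, 0 ≤ f t := fun t => norm_nonneg _
  have j1 : Integrable (fun t => f t * Real.exp (2 * |T| - 2 * |t - T|)) := by
    obtain ⟨C, hC, hLB⟩ := cmPoly hP one_pos
    refine cmInt (C := C * Real.exp (4 * |T|)) (by fun_prop) one_pos (fun t => ?_)
    rw [Real.norm_of_nonneg (mul_nonneg (hf0 t) (Real.exp_pos _).le)]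
    refine (mul_le_mul_of_nonneg_right (hLB _ t le_rfl) (Real.exp_pos _).le).trans ?_
    rw [mul_assoc, mul_assoc, ← Real.exp_add, ← Real.exp_add]
    refine mul_le_mul_of_nonneg_left (Real.exp_le_exp.mpr ?_) hC.le
    have h3 : |t| ≤ |t - T| + |T| := by
      have := abs_add_le (t - T) T
      simpa using this
    linarith
  have hM : 0 < 8 * Real.exp (9 / (4 * b)) := by positivity
  refine ⟨c * Real.exp (-2 * |T| - 1) / (8 * Real.exp (9 / (4 * b))),
    ∫ t, f t * Real.exp (2 * |T| - 2 * |t - T|), by positivity, fun ε h0 h2 => ?_⟩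
  have j2 : IntegrableOn (fun t => f t * Real.exp (-ε * t)) (Ioi T) := by
    obtain ⟨C, hC, hLB⟩ := cmPoly hP (half_pos h0)
    refine Integrable.mono' (((cmIntExp (half_pos h0)).const_mul
      (C * Real.exp (2 * ε * |T|))).integrableOn) (Continuous.aestronglyMeasurable (by fun_prop))
      ((ae_restrict_iff' measurableSet_Ioi).mpr (ae_of_all _ fun t ht => ?_))
    have ht' : T < t := ht
    rw [Real.norm_of_nonneg (mul_nonneg (hf0 t) (Real.exp_pos _).le)]
    refine (mul_le_mul_of_nonneg_right (hLB _ t le_rfl) (Real.exp_pos _).le).trans ?_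
    rw [mul_assoc, mul_assoc, ← Real.exp_add, ← Real.exp_add]
    refine mul_le_mul_of_nonneg_left (Real.exp_le_exp.mpr ?_) hC.le
    have h3 : |t| - t ≤ 2 * |T| := by
      rcases le_total 0 t with h | h
      · rw [abs_of_nonneg h]; linarith [abs_nonneg T]
      · rw [abs_of_nonpos h]; linarith [neg_abs_le T]
    nlinarith
  have j3 := (integrable_indicator_iff measurableSet_Ioi).mpr j2
  set N := ⌈1 / ε⌉₊ with hN
  have k1 : ∑ n ∈ Finset.range N, Real.exp (-ε * (T + n)) *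
      ∫ t, f t * Real.exp (-b * (t - (T + n)) ^ 2) ≤ 8 * Real.exp (9 / (4 * b)) *
      ((∫ t in Ioi T, f t * Real.exp (-ε * t)) +
        ∫ t, f t * Real.exp (2 * |T| - 2 * |t - T|)) := by
    have ii : ∀ n ∈ Finset.range N, Integrable (fun t => Real.exp (-ε * (T + (n : ℕ))) *
        (f t * Real.exp (-b * (t - (T + n)) ^ 2))) := fun n _ => (hlow (T + n)).1.const_mul _
    simp only [← integral_const_mul]
    rw [← integral_finsetSum _ ii, ← integral_indicator measurableSet_Ioi, ← integral_add j3 j1,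
      ← integral_const_mul]
    refine integral_mono (integrable_finsetSum _ ii) ((j3.add j1).const_mul _) (fun t => ?_)
    have k2 := mul_le_mul_of_nonneg_left (cmKer hb T t ε h0 h2 N) (hf0 t)
    rw [Finset.mul_sum] at k2
    simp only [mul_left_comm (f t)] at k2
    refine k2.trans (mul_le_mul_of_nonneg_left ?_ hM.le)
    have p1 := mul_nonneg (hf0 t) (Real.exp_pos (2 * |T| - 2 * |t - T|)).le
    by_cases ht : T < t
    · rw [if_pos ht, indicator_of_mem (show t ∈ Ioi T from ht)]; linarith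
    · rw [if_neg ht, indicator_of_notMem (show t ∉ Ioi T from ht)]; linarith
  have k3 : (N : ℝ) * (Real.exp (-2 * |T| - 1) * c) ≤ ∑ n ∈ Finset.range N,
      Real.exp (-ε * (T + n)) * ∫ t, f t * Real.exp (-b * (t - (T + n)) ^ 2) := by
    have := Finset.card_nsmul_le_sum (Finset.range N) (fun n : ℕ => Real.exp (-ε * (T + n)) *
      ∫ t, f t * Real.exp (-b * (t - (T + n)) ^ 2)) (Real.exp (-2 * |T| - 1) * c) (fun n hn => by
        refine mul_le_mul (Real.exp_le_exp.mpr ?_) (hlow (T + n)).2 hc.le (Real.exp_pos _).le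
        have h3 : (n : ℝ) < 1 / ε := Nat.lt_ceil.mp (Finset.mem_range.mp hn)
        rw [lt_div_iff₀ h0] at h3
        have h4 := le_abs_self T
        have h5 := abs_nonneg T
        nlinarith)
    simpa using this
  have k4 : 1 / ε * (Real.exp (-2 * |T| - 1) * c) ≤ N * (Real.exp (-2 * |T| - 1) * c) :=
    mul_le_mul_of_nonneg_right (Nat.le_ceil _) (by positivity)
  rw [sub_le_iff_le_add, div_right_comm, div_le_iff₀ hM]
  calc c * Real.exp (-2 * |T| - 1) / ε = 1 / ε * (Real.exp (-2 * |T| - 1) * c) := by ring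
    _ ≤ _ := by linarith

end Pool.Agent.CubH
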