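import Pool.Agent.Lib.MP_d79f69_nt.Iface

/-!
Covering of the resonant directions in a cap.
-/

open Matrix

namespace Pool.Agent.CubH

/-- Local expansions of a function `G` with gradient `(f, g)` and Hessian `(a, b; b, d)`. -/
structure CapLoc (K H : ℝ) (D : ℝ × ℝ → Prop) (f g G a b d : ℝ × ℝ → ℝ) : Prop where
  tf : ∀ θ s, D θ → ‖s‖ ≤ 1 / K →
    |f (θ + s) - f θ - (a θ * s.1 + b θ * s.2)| ≤ K * H * ‖s‖ ^ 2
  tg : ∀ θ s, D θ → ‖s‖ ≤ 1 / K →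
    |g (θ + s) - g θ - (b θ * s.1 + d θ * s.2)| ≤ K * H * ‖s‖ ^ 2
  tG : ∀ θ s, D θ → ‖s‖ ≤ 1 / K → |G (θ + s) - G θ - (f θ * s.1 + g θ * s.2) -
    (a θ * s.1 ^ 2 + 2 * b θ * s.1 * s.2 + d θ * s.2 ^ 2) / 2| ≤ K * H * ‖s‖ ^ 3
  ba : ∀ θ, D θ → |a θ| ≤ K * H
  bb : ∀ θ, D θ → |b θ| ≤ K * H
  bd : ∀ θ, D θ → |d θ| ≤ K * H
  det : ∀ θ, D θ → H ^ 2 ≤ K * |a θ * d θ - b θ ^ 2|

lemma cap_lin {a b x y M t : ℝ} (ha : |a| ≤ M) (hb : |b| ≤ M) (hx : |x| ≤ t) (hy : |y| ≤ t) :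
    |a * x + b * y| ≤ 2 * M * t := by
  have h0 := (abs_nonneg a).trans ha
  have h1 := mul_le_mul ha hx (abs_nonneg _) h0
  have h2 := mul_le_mul hb hy (abs_nonneg _) h0
  have h3 := abs_add_le (a * x) (b * y)
  rw [abs_mul, abs_mul] at h3
  linarith

lemma cap_cramer {K H a b d x y E : ℝ} (hK : 0 < K) (hH : 0 < H) (ha : |a| ≤ K * H)
    (hb : |b| ≤ K * H) (hd : |d| ≤ K * H) (hdet : H ^ 2 ≤ K * |a * d - b ^ 2|)
    (h1 : |a * x + b * y| ≤ E) (h2 : |b * x + d * y| ≤ E) : H * max |x| |y| ≤ 2 * K ^ 2 * E := by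
  have key : ∀ z : ℝ, |a * d - b ^ 2| * |z| ≤ 2 * (K * H) * E → H * |z| ≤ 2 * K ^ 2 * E :=
    fun z hz => by
      refine le_of_mul_le_mul_left ?_ hH
      have h3 := mul_le_mul_of_nonneg_right hdet (abs_nonneg z)
      have h4 := mul_le_mul_of_nonneg_left hz hK.le
      linarith
  have h3 := cap_lin hd (b := -b) (by rwa [abs_neg]) h1 h2
  have h4 := cap_lin (a := -b) (by rwa [abs_neg]) ha h1 h2
  rw [show d * (a * x + b * y) + -b * (b * x + d * y) = (a * d - b ^ 2) * x by ring, abs_mul] at h3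
  rw [show -b * (a * x + b * y) + a * (b * x + d * y) = (a * d - b ^ 2) * y by ring, abs_mul] at h4
  rcases max_cases |x| |y| with h | h <;> rw [h.1]
  exacts [key x h3, key y h4]

lemma cap_inv {K H x Δ : ℝ} (hK : 0 < K) (hH : 0 < H) (hx : |x| ≤ K * H) (hΔ : H ^ 2 ≤ K * |Δ|) :
    |x / Δ| ≤ K ^ 2 / H := by
  have h0 : 0 < |Δ| := (mul_pos_iff_of_pos_left hK).1 ((pow_pos hH 2).trans_le hΔ)
  rw [abs_div, div_le_div_iff₀ h0 hH]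
  have h1 := mul_le_mul_of_nonneg_right hx hH.le
  have h2 := mul_le_mul_of_nonneg_left hΔ hK.le
  linarith

variable {K H L δ C : ℝ} {D : ℝ × ℝ → Prop} {f g G a b d : ℝ × ℝ → ℝ}

lemma CapLoc.close (h : CapLoc K H D f g G a b d) (hK : 1 ≤ K) (hH : 0 < H) (hL : 0 < L)
    {θ θ' : ℝ × ℝ} (hθ : D θ) (hs : ‖θ' - θ‖ ≤ 1 / (4 * K ^ 3)) (h1 : |f θ' - f θ| ≤ 2 / L)
    (h2 : |g θ' - g θ| ≤ 2 / L) : ‖θ' - θ‖ ≤ 8 * K ^ 2 / (H * L) := by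
  obtain ⟨s, rfl⟩ : ∃ s, θ' = θ + s := ⟨θ' - θ, by abel⟩
  rw [add_sub_cancel_left] at hs ⊢
  have hK0 : 0 < K := by linarith
  have h3 : ‖s‖ ≤ 1 / K := hs.trans (one_div_le_one_div_of_le hK0 (by
    have := le_self_pow₀ hK three_ne_zero
    linarith))
  have h4 := abs_le.1 (h.tf θ s hθ h3)
  have h5 := abs_le.1 (h.tg θ s hθ h3)
  have h6 := abs_le.1 h1
  have h7 := abs_le.1 h2
  have h8 := cap_cramer (x := s.1) (y := s.2) (E := 2 / L + K * H * ‖s‖ ^ 2) hK0 hH (h.ba θ hθ)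
    (h.bb θ hθ) (h.bd θ hθ) (h.det θ hθ) (abs_le.2 ⟨by linarith, by linarith⟩)
    (abs_le.2 ⟨by linarith, by linarith⟩)
  rw [show max |s.1| |s.2| = ‖s‖ from rfl] at h8
  rw [le_div_iff₀ (by positivity)] at hs
  have h9 := mul_le_mul_of_nonneg_left hs (mul_nonneg hH.le (norm_nonneg s))
  have h10 : H * ‖s‖ ≤ 8 * K ^ 2 / L := by
    have : 8 * K ^ 2 / L = 2 * (2 * K ^ 2 * (2 / L)) := by ring
    linarith
  rw [le_div_iff₀ hL] at h10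
  rw [le_div_iff₀ (mul_pos hH hL)]
  linarith

lemma cap_id {a b d x y e₁ e₂ Δ : ℝ} (hΔ : Δ = a * d - b ^ 2) (h0 : Δ ≠ 0) :
    (-d / Δ * (a * x + b * y + e₁) ^ 2 + 2 * (b / Δ) * (a * x + b * y + e₁) * (b * x + d * y + e₂) +
      -a / Δ * (b * x + d * y + e₂) ^ 2) / 2 =
    (a * x ^ 2 + 2 * b * x * y + d * y ^ 2) / 2 -
      ((a * x + b * y + e₁) * x + (b * x + d * y + e₂) * y) +
      (-d / Δ * e₁ ^ 2 + 2 * (b / Δ) * e₁ * e₂ + -a / Δ * e₂ ^ 2) / 2 := by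
  field_simp
  rw [hΔ]
  ring

lemma cap_quad {p q r x y M : ℝ} (hp : |p| ≤ M) (hq : |q| ≤ M) (hr : |r| ≤ M) (hx : |x| ≤ 2)
    (hy : |y| ≤ 2) : |(p * x ^ 2 + 2 * q * x * y + r * y ^ 2) / 2| ≤ 8 * M := by
  have h1 := cap_lin (cap_lin hp hq hx hy) (cap_lin hq hr hx hy) hx hy
  rw [show (p * x + q * y) * x + (q * x + r * y) * y = p * x ^ 2 + 2 * q * x * y + r * y ^ 2 by
    ring] at h1
  rw [abs_div, abs_two]
  linarith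

lemma CapLoc.adm (h : CapLoc K H D f g G a b d) (hK : 1 ≤ K) {u : ℝ} (hu : 1 ≤ u)
    (hH : H = u ^ 2) (hL : 1 ≤ L) (hC : 3 * K ≤ C) {θ₀ θ : ℝ × ℝ} (h0 : D θ₀)
    (hs : ‖θ - θ₀‖ ≤ 1 / (C * u)) {m₀ m₁ m₂ Δ : ℝ} (hΔ : Δ = a θ₀ * d θ₀ - b θ₀ ^ 2)
    (h1 : |f θ - m₀| ≤ 1 / L) (h2 : |g θ - m₁| ≤ 1 / L)
    (h3 : |G θ - (m₀ * θ.1 + m₁ * θ.2 + m₂)| ≤ δ / u) :
    |m₀ - f θ₀| ≤ 2 * u ∧ |m₁ - g θ₀| ≤ 2 * u ∧
      |(-d θ₀ / Δ * (m₀ - f θ₀) ^ 2 + 2 * (b θ₀ / Δ) * (m₀ - f θ₀) * (m₁ - g θ₀) +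
        -a θ₀ / Δ * (m₁ - g θ₀) ^ 2) / 2 + G θ₀ - (m₀ * θ₀.1 + m₁ * θ₀.2) - m₂| ≤
        (δ + 1 + 8 * K ^ 2) / u := by
  obtain ⟨s, rfl⟩ : ∃ s, θ = θ₀ + s := ⟨θ - θ₀, by abel⟩
  rw [add_sub_cancel_left] at hs
  have hK0 : 0 < K := by linarith
  have hu0 : 0 < u := by linarith
  have hH0 : 0 < H := by rw [hH]; positivity
  have hn := norm_nonneg s
  have a1 : 3 * K * (u * ‖s‖) ≤ 1 := by
    rw [le_div_iff₀ (mul_pos (by linarith) hu0)] at hs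
    have := mul_le_mul_of_nonneg_right hC (mul_nonneg hu0.le hn)
    linarith
  have a2 : ‖s‖ ≤ u * ‖s‖ := le_mul_of_one_le_left hn hu
  have a3 : u * ‖s‖ ≤ K * (u * ‖s‖) := le_mul_of_one_le_left (hn.trans a2) hK
  have a4 : ‖s‖ ≤ 1 / K := by
    rw [le_div_iff₀' hK0]
    have := mul_le_mul_of_nonneg_left a2 hK0.le
    linarith
  have a5 : K * H * ‖s‖ ^ 2 ≤ 1 / 9 := by
    have := mul_le_mul (show K * (u * ‖s‖) ≤ 1 / 3 by linarith) (show u * ‖s‖ ≤ 1 / 3 by linarith)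
      (hn.trans a2) (by norm_num)
    rw [hH]
    linarith
  have a6 : K * H * ‖s‖ ^ 3 ≤ 1 / u := by
    rw [le_div_iff₀ hu0]
    have := mul_le_mul a5 (show u * ‖s‖ ≤ 1 by linarith) (hn.trans a2) (by norm_num)
    linarith
  have a7 : 2 * (K * H) * ‖s‖ ≤ 2 / 3 * u := by
    have := mul_le_mul_of_nonneg_left a1 hu0.le
    rw [hH]
    linarith
  have a8 : 1 / L ≤ 1 := (div_le_one (by linarith)).2 hL
  have b1 := abs_le.1 ((h.tf θ₀ s h0 a4).trans a5)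
  have b2 := abs_le.1 ((h.tg θ₀ s h0 a4).trans a5)
  have b3 := abs_le.1 ((h.tG θ₀ s h0 a4).trans a6)
  have b4 := abs_le.1 ((cap_lin (h.ba _ h0) (h.bb _ h0) (norm_fst_le s) (norm_snd_le s)).trans a7)
  have b5 := abs_le.1 ((cap_lin (h.bb _ h0) (h.bd _ h0) (norm_fst_le s) (norm_snd_le s)).trans a7)
  have b6 := abs_le.1 (h1.trans a8)
  have b7 := abs_le.1 (h2.trans a8)
  have b8 := abs_le.1 h3
  have hd : H ^ 2 ≤ K * |Δ| := hΔ ▸ h.det _ h0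
  have hΔ0 : Δ ≠ 0 := by
    rintro rfl
    have := pow_pos hH0 2
    simp at hd
    linarith
  obtain ⟨e₁, he₁⟩ : ∃ e, m₀ - f θ₀ = a θ₀ * s.1 + b θ₀ * s.2 + e := ⟨_, (add_sub_cancel _ _).symm⟩
  obtain ⟨e₂, he₂⟩ : ∃ e, m₁ - g θ₀ = b θ₀ * s.1 + d θ₀ * s.2 + e := ⟨_, (add_sub_cancel _ _).symm⟩
  have c1 := cap_quad (cap_inv hK0 hH0 (x := -d θ₀) (by rw [abs_neg]; exact h.bd _ h0) hd)
    (cap_inv hK0 hH0 (h.bb _ h0) hd)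
    (cap_inv hK0 hH0 (x := -a θ₀) (by rw [abs_neg]; exact h.ba _ h0) hd)
    (x := e₁) (y := e₂) (abs_le.2 ⟨by linarith, by linarith⟩) (abs_le.2 ⟨by linarith, by linarith⟩)
  have c2 : 8 * (K ^ 2 / H) ≤ 8 * K ^ 2 / u := by
    rw [mul_div_assoc, hH]
    gcongr
    exact le_self_pow₀ hu two_ne_zero
  have c3 := abs_le.1 (c1.trans c2)
  have c4 := cap_id (x := s.1) (y := s.2) (e₁ := e₁) (e₂ := e₂) hΔ hΔ0
  rw [← he₁, ← he₂] at c4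
  rw [Prod.fst_add, Prod.snd_add] at b8
  refine ⟨abs_le.2 ⟨by linarith only [b1.1, b4.1, b6.2, hu], by linarith only [b1.2, b4.2, b6.1, hu]⟩,
    abs_le.2 ⟨by linarith only [b2.1, b5.1, b7.2, hu], by linarith only [b2.2, b5.2, b7.1, hu]⟩, ?_⟩
  rw [c4, add_div (δ + 1), add_div δ, abs_le]
  exact ⟨by linarith only [b3.2, b8.1, c3.1], by linarith only [b3.1, b8.2, c3.2]⟩

lemma cap_main (h3 : SQ) {K C0 : ℝ} (hK : 1 ≤ K) (hC0 : 1 ≤ C0) : ∃ C : ℝ, 1 ≤ C ∧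
    ∀ (H L : ℝ) (D : ℝ × ℝ → Prop) (f g G a b d : ℝ × ℝ → ℝ) (θ₀ : ℝ × ℝ),
      CapLoc K H D f g G a b d → 1 ≤ H → 1 ≤ L → D θ₀ →
      ∃ P : Finset (ℝ × ℝ), (P.card : ℝ) ≤ C * √H * (1 + Real.log H) ^ 2 ∧
        ∀ θ : ℝ × ℝ, D θ → ‖θ - θ₀‖ ≤ 1 / (C * √H) →
          (∃ m : Z3, |f θ - m 0| ≤ 1 / L ∧ |g θ - m 1| ≤ 1 / L ∧
            |G θ - (m 0 * θ.1 + m 1 * θ.2 + m 2)| ≤ C0 / √H) →
          ∃ z ∈ P, ‖θ - z‖ ≤ C / (H * L) := by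
  classical
  have hK2 : K ≤ K ^ 2 := le_self_pow₀ hK two_ne_zero
  have hK3 : K ^ 2 ≤ K ^ 3 := pow_le_pow_right₀ hK (by norm_num)
  obtain ⟨C1, hC1, hQ⟩ := h3 (C0 + 1 + 8 * K ^ 2) (by linarith)
  refine ⟨8 * K ^ 3 + C1, by linarith, fun H L D f g G a b d θ₀ h hH hL h0 => ?_⟩
  have hH0 : 0 < H := by linarith
  have hK0 : 0 < K := by linarith
  have hu : 1 ≤ √H := Real.one_le_sqrt.2 hH
  have hu2 : H = √H ^ 2 := (Real.sq_sqrt hH0.le).symm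
  let S : Set (ℤ × ℤ) := {p | ∃ θ, D θ ∧ ‖θ - θ₀‖ ≤ 1 / ((8 * K ^ 3 + C1) * √H) ∧
    |f θ - p.1| ≤ 1 / L ∧ |g θ - p.2| ≤ 1 / L ∧
    ∃ n : ℤ, |G θ - (p.1 * θ.1 + p.2 * θ.2 + n)| ≤ C0 / √H}
  have hS : ∀ P : Finset (ℤ × ℤ), ↑P ⊆ S → (P.card : ℝ) ≤ C1 * √H * (1 + Real.log √H) ^ 2 := by
    intro P hP
    obtain ⟨Δ, hΔ⟩ : ∃ Δ, Δ = a θ₀ * d θ₀ - b θ₀ ^ 2 := ⟨_, rfl⟩
    have hd : H ^ 2 ≤ K * |Δ| := hΔ ▸ h.det _ h0
    have hΔ0 : Δ ≠ 0 := by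
      rintro rfl
      have := pow_pos hH0 2
      simp at hd
      linarith
    have e : K ^ 2 / H ≤ (C0 + 1 + 8 * K ^ 2) / √H ^ 2 := by
      rw [← hu2]
      exact div_le_div_of_nonneg_right (by linarith) hH0.le
    refine hQ √H (-d θ₀ / Δ) (b θ₀ / Δ) (-a θ₀ / Δ)
      (-(-d θ₀ / Δ * f θ₀ + b θ₀ / Δ * g θ₀) - θ₀.1)
      (-(b θ₀ / Δ * f θ₀ + -a θ₀ / Δ * g θ₀) - θ₀.2)
      ((-d θ₀ / Δ * f θ₀ ^ 2 + 2 * (b θ₀ / Δ) * f θ₀ * g θ₀ + -a θ₀ / Δ * g θ₀ ^ 2) / 2 + G θ₀)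
      (f θ₀) (g θ₀) hu
      ((cap_inv hK0 hH0 (by rw [abs_neg]; exact h.bd _ h0) hd).trans e)
      ((cap_inv hK0 hH0 (h.bb _ h0) hd).trans e)
      ((cap_inv hK0 hH0 (by rw [abs_neg]; exact h.ba _ h0) hd).trans e) (fun x y => ?_) P
      fun p hp => ?_
    · rw [← hu2]
      obtain ⟨v, hv⟩ : ∃ v, v = -d θ₀ / Δ * x + b θ₀ / Δ * y := ⟨_, rfl⟩
      obtain ⟨w, hw⟩ : ∃ w, w = b θ₀ / Δ * x + -a θ₀ / Δ * y := ⟨_, rfl⟩
      rw [← hv, ← hw]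
      have e1 := cap_lin (h.ba _ h0) (h.bb _ h0) (le_max_left |v| |w|) (le_max_right _ _)
      have e2 := cap_lin (h.bb _ h0) (h.bd _ h0) (le_max_left |v| |w|) (le_max_right _ _)
      rw [show a θ₀ * v + b θ₀ * w = -x by rw [hv, hw]; field_simp; rw [hΔ]; ring, abs_neg] at e1
      rw [show b θ₀ * v + d θ₀ * w = -y by rw [hv, hw]; field_simp; rw [hΔ]; ring, abs_neg] at e2
      refine (max_le e1 e2).trans (mul_le_mul_of_nonneg_right ?_ (le_max_of_le_left (abs_nonneg _)))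
      rw [← mul_assoc]
      exact mul_le_mul_of_nonneg_right (by linarith) hH0.le
    · obtain ⟨θ, -, p1, p2, p3, n, p4⟩ := hP hp
      obtain ⟨q1, q2, q3⟩ := h.adm hK hu hu2 hL (by linarith) h0 p1 hΔ p2 p3 p4
      have e1 : 2 * √H ≤ (C0 + 1 + 8 * K ^ 2) * √H :=
        mul_le_mul_of_nonneg_right (by linarith) (by linarith)
      refine ⟨q1.trans e1, q2.trans e1, n, le_of_eq_of_le ?_ q3⟩
      congr 1
      ring
  have hfin : S.Finite := by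
    by_contra hn
    obtain ⟨n, hn'⟩ := exists_nat_gt (C1 * √H * (1 + Real.log √H) ^ 2)
    obtain ⟨P, h1, h2⟩ := Set.Infinite.exists_subset_card_eq hn n
    have := hS P h1
    rw [h2] at this
    linarith
  have hch : ∀ p : ℤ × ℤ, ∃ θ, p ∈ S → D θ ∧ ‖θ - θ₀‖ ≤ 1 / ((8 * K ^ 3 + C1) * √H) ∧
      |f θ - p.1| ≤ 1 / L ∧ |g θ - p.2| ≤ 1 / L := fun p => by
    by_cases hp : p ∈ S
    · obtain ⟨θ, p1, p2, p3, p4, -⟩ := hp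
      exact ⟨θ, fun _ => ⟨p1, p2, p3, p4⟩⟩
    · exact ⟨0, fun e => absurd e hp⟩
  choose z hz using hch
  refine ⟨hfin.toFinset.image z, ?_, fun θ h1 h2 ⟨m, m1, m2, m3⟩ => ?_⟩
  · refine (Nat.cast_le.2 Finset.card_image_le).trans ((hS _ hfin.coe_toFinset.le).trans ?_)
    have e1 := Real.log_nonneg hu
    have e2 : Real.log √H ≤ Real.log H := by
      rw [Real.log_sqrt hH0.le]
      linarith [Real.log_nonneg hH]
    gcongr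
    linarith
  · have hp : (m 0, m 1) ∈ S := ⟨θ, h1, h2, m1, m2, m 2, m3⟩
    obtain ⟨z1, z2, z3, z4⟩ := hz _ hp
    refine ⟨_, Finset.mem_image_of_mem z (hfin.mem_toFinset.2 hp), ?_⟩
    have e1 : 1 / ((8 * K ^ 3 + C1) * √H) ≤ 1 / (8 * K ^ 3) :=
      one_div_le_one_div_of_le (by linarith)
        (le_trans (by linarith) (le_mul_of_one_le_right (by linarith) hu))
    have e2 := norm_sub_le_norm_sub_add_norm_sub θ θ₀ (z (m 0, m 1))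
    rw [norm_sub_rev θ₀] at e2
    have e3 : 1 / (4 * K ^ 3) = 1 / (8 * K ^ 3) + 1 / (8 * K ^ 3) := by ring
    have e4 : 2 / L = 1 / L + 1 / L := by ring
    have e5 := abs_sub_le (f θ) (m 0) (f (z (m 0, m 1)))
    have e6 := abs_sub_le (g θ) (m 1) (g (z (m 0, m 1)))
    rw [abs_sub_comm (m 0 : ℝ)] at e5
    rw [abs_sub_comm (m 1 : ℝ)] at e6
    refine (h.close (L := L) hK hH0 (by linarith) z1 (by linarith) (by linarith) (by linarith)).trans ?_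
    exact div_le_div_of_nonneg_right (by linarith) (by positivity)

lemma cap_hv (B : M3) (s : ℝ × ℝ) : hv B s = s.1 • hv B (1, 0) + s.2 • hv B (0, 1) := by
  ext i
  simp only [hv, mulVec, dotProduct, Fin.sum_univ_three, Pi.add_apply, Pi.smul_apply, smul_eq_mul,
    cons_val_zero, cons_val_one, cons_val]
  ring

lemma cap_pp (B : M3) (θ s : ℝ × ℝ) : pp B (θ + s) = pp B θ + hv B s := by
  ext i
  simp only [pp, hv, mulVec, dotProduct, Fin.sum_univ_three, Pi.add_apply, cons_val_zero,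
    cons_val_one, cons_val, Prod.fst_add, Prod.snd_add]
  ring

lemma cap_G1 (p a u w : V3) (x y : ℝ) :
    G1 p a (x • u + y • w) = x * G1 p a u + y * G1 p a w := by
  simp only [G1, t1, sm, d2, Pi.div_apply, Pi.add_apply, Pi.smul_apply, smul_eq_mul]
  ring

lemma cap_G2 (p a v u w : V3) (x y : ℝ) :
    G2 p a v (x • u + y • w) = x * G2 p a v u + y * G2 p a v w := by
  simp only [G2, t2, sm, d2, d3, Pi.div_apply, Pi.add_apply, Pi.smul_apply, smul_eq_mul]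
  ring

lemma cap_G2_symm (p a v w : V3) : G2 p a v w = G2 p a w v := by
  simp only [G2, t2, sm, d2, d3]
  ring

lemma cap_loc (h1 : STr) (h2 : SGe) {Q c : ℝ} (hQ : 1 ≤ Q) (hc : c ≠ 0) : ∃ K : ℝ, 1 ≤ K ∧
    ∀ B : M3, NearI Q B → ∀ h : ℝ × ℝ, CapLoc K ‖h‖ (fun θ => Dr (2 * Q) (pp B θ)) (gA B c h)
      (gB B c h) (GG B c h) (fun θ => AA B c h θ (1, 0) (1, 0))
      (fun θ => AA B c h θ (1, 0) (0, 1)) fun θ => AA B c h θ (0, 1) (0, 1) := by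
  obtain ⟨C, hC, hT⟩ := h1 (2 * Q) (by linarith)
  obtain ⟨C', hC', hG⟩ := h2 Q c hQ hc
  have h0 : 0 ≤ |c| * C := by positivity
  refine ⟨16 * (|c| * C) + 16 * Q + C', by linarith, fun B hB h => ?_⟩
  obtain ⟨K, hK⟩ : ∃ K, K = 16 * (|c| * C) + 16 * Q + C' := ⟨_, rfl⟩
  rw [← hK]
  obtain ⟨g1, -, g2⟩ := hG B hB
  have n1 : ‖hv B (1, 0)‖ ≤ 2 := by simpa using g1 (1, 0)
  have n2 : ‖hv B (0, 1)‖ ≤ 2 := by simpa using g1 (0, 1)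
  have n3 : ∀ s : ℝ × ℝ, ‖s‖ ≤ 1 / K → ‖hv B s‖ ≤ 1 / (4 * (2 * Q)) := fun s hs => by
    have e1 : 1 / K ≤ 1 / (16 * Q) := one_div_le_one_div_of_le (by linarith) (by linarith)
    have e2 : 1 / (4 * (2 * Q)) = 2 * (1 / (16 * Q)) := by ring
    linarith [g1 s]
  have hh := g1 h
  have key : ∀ x y t : ℝ, 0 ≤ t → |x| ≤ y → y ≤ C * (16 * t) → |c * x| ≤ K * t :=
    fun x y t ht e1 e2 => by
      rw [abs_mul]
      have e3 := mul_le_mul_of_nonneg_left (e1.trans e2) (abs_nonneg c)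
      have e4 := mul_le_mul_of_nonneg_right (show 16 * (|c| * C) ≤ K by linarith) ht
      linarith
  have t1 : ∀ (θ s : ℝ × ℝ) (w : V3), ‖w‖ ≤ 2 → Dr (2 * Q) (pp B θ) → ‖s‖ ≤ 1 / K →
      |c * (G1 (pp B θ + hv B s) (hv B h) w - G1 (pp B θ) (hv B h) w -
        G2 (pp B θ) (hv B h) w (hv B s))| ≤ K * ‖h‖ * ‖s‖ ^ 2 := fun θ s w hw hθ hs => by
    rw [mul_assoc]
    refine key _ _ _ (by positivity) ((hT _ hθ _ _ w).2 (n3 s hs)).2 ?_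
    have := g1 s
    calc C * ‖hv B h‖ * ‖w‖ * ‖hv B s‖ ^ 2 ≤ C * (2 * ‖h‖) * 2 * (2 * ‖s‖) ^ 2 := by gcongr
      _ = _ := by ring
  have t2 : ∀ (θ : ℝ × ℝ) (v w : V3), ‖v‖ ≤ 2 → ‖w‖ ≤ 2 → Dr (2 * Q) (pp B θ) →
      |c * G2 (pp B θ) (hv B h) v w| ≤ K * ‖h‖ := fun θ v w hv' hw hθ => by
    refine key _ _ _ (norm_nonneg _) (hT _ hθ _ w v).1.2.2 ?_
    calc C * ‖hv B h‖ * ‖v‖ * ‖w‖ ≤ C * (2 * ‖h‖) * 2 * 2 := by gcongr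
      _ ≤ _ := by nlinarith [mul_nonneg hC.le (norm_nonneg h)]
  refine ⟨fun θ s hθ hs => le_of_eq_of_le ?_ (t1 θ s _ n1 hθ hs),
    fun θ s hθ hs => le_of_eq_of_le ?_ (t1 θ s _ n2 hθ hs), fun θ s hθ hs => ?_,
    fun θ hθ => t2 θ _ _ n1 n1 hθ, fun θ hθ => t2 θ _ _ n1 n2 hθ, fun θ hθ => t2 θ _ _ n2 n2 hθ,
    fun θ hθ => (g2 h θ hθ).2.2.2.2.2.trans
      (mul_le_mul_of_nonneg_right (by linarith) (abs_nonneg _))⟩
  · have e := cap_G2 (pp B θ) (hv B h) (hv B (1, 0)) (hv B (1, 0)) (hv B (0, 1)) s.1 s.2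
    rw [← cap_hv] at e
    rw [e, gA, gA, AA, AA, cap_pp]
    congr 1
    ring
  · have e := cap_G2 (pp B θ) (hv B h) (hv B (0, 1)) (hv B (1, 0)) (hv B (0, 1)) s.1 s.2
    rw [← cap_hv, cap_G2_symm _ _ (hv B (0, 1)) (hv B (1, 0))] at e
    rw [e, gB, gB, AA, AA, cap_pp]
    congr 1
    ring
  · have e1 := cap_G1 (pp B θ) (hv B h) (hv B (1, 0)) (hv B (0, 1)) s.1 s.2
    have e2 := cap_G2 (pp B θ) (hv B h) (hv B s) (hv B (1, 0)) (hv B (0, 1)) s.1 s.2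
    have e3 := cap_G2 (pp B θ) (hv B h) (hv B (1, 0)) (hv B (1, 0)) (hv B (0, 1)) s.1 s.2
    have e4 := cap_G2 (pp B θ) (hv B h) (hv B (0, 1)) (hv B (1, 0)) (hv B (0, 1)) s.1 s.2
    rw [← cap_hv] at e1 e2 e3 e4
    rw [cap_G2_symm _ _ (hv B (0, 1)) (hv B (1, 0))] at e4
    rw [cap_G2_symm _ _ (hv B s) (hv B (1, 0)), cap_G2_symm _ _ (hv B s) (hv B (0, 1)), e3,
      e4] at e2
    have e5 := key _ _ (‖h‖ * ‖s‖ ^ 3) (by positivity)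
      ((hT _ hθ (hv B h) (hv B s) 0).2 (n3 s hs)).1 (by
        have := g1 s
        calc C * ‖hv B h‖ * ‖hv B s‖ ^ 3 ≤ C * (2 * ‖h‖) * (2 * ‖s‖) ^ 3 := by gcongr
          _ = _ := by ring)
    rw [mul_assoc K]
    refine le_of_eq_of_le ?_ e5
    rw [e1, e2, GG, GG, gA, gB, AA, AA, AA, cap_pp]
    congr 1
    ring

theorem sR1 (h1 : STr) (h2 : SGe) (h3 : SQ) : SR1 := by
  intro Q c C0 hQ hc hC0
  obtain ⟨K, hK, hL⟩ := cap_loc h1 h2 hQ hc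
  obtain ⟨C, hC, H⟩ := cap_main h3 hK hC0
  refine ⟨C, hC, fun B hB H' L0 h θ₀ e h4 h5 h6 => ?_⟩
  subst e
  exact H _ L0 _ _ _ _ _ _ _ θ₀ (hL B hB h) h4 h5 h6

end Pool.Agent.CubH
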