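import Pool.Agent.Lib.MP_d79f69_nt.CoreA

/-!
The core exponential sum bound from the bounds for the differenced sums.
-/

open Matrix MeasureTheory

namespace Pool.Agent.CubH

theorem core_norm_ee (x : ℝ) : ‖ee x‖ = 1 := by
  unfold ee
  have : 2 * (Real.pi : ℂ) * Complex.I * x = ((2 * Real.pi * x : ℝ) : ℂ) * Complex.I := by
    push_cast; ring
  rw [this, Complex.norm_exp_ofReal_mul_I]

theorem core_near {Q : ℝ} (hQ : 1 ≤ Q) {B : M3} (hB : NearI Q B) {y : V3} {Y : ℝ}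
    (h : ∀ i, |(B *ᵥ y) i| ≤ Y) (i : Fin 3) : |y i| ≤ 2 * Y := by
  have hY : 0 ≤ Y := (abs_nonneg _).trans (h 0)
  have he : 1 / (64 * Q ^ 2) ≤ 1 / 64 := by
    apply one_div_le_one_div_of_le (by norm_num); nlinarith
  have hy : ∀ j, |y j| ≤ ‖y‖ := fun j => norm_le_pi_norm y j
  have hm : 0 ≤ ‖y‖ := norm_nonneg y
  have key : ∀ j, |y j| ≤ Y + 3 / 64 * ‖y‖ := by
    intro j
    have e : y j = (B *ᵥ y) j - ∑ k, (B j k - if j = k then 1 else 0) * y k := by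
      simp [Matrix.mulVec, dotProduct, sub_mul, Finset.sum_sub_distrib]
    have b : |∑ k, (B j k - if j = k then 1 else 0) * y k| ≤ 3 / 64 * ‖y‖ := by
      refine (Finset.abs_sum_le_sum_abs _ _).trans ?_
      calc ∑ k, |(B j k - if j = k then 1 else 0) * y k| ≤ ∑ _k : Fin 3, 1 / 64 * ‖y‖ := by
            refine Finset.sum_le_sum fun k _ => ?_
            rw [abs_mul]
            exact mul_le_mul ((hB j k).trans he) (hy k) (abs_nonneg _) (by norm_num)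
        _ = 3 / 64 * ‖y‖ := by simp; ring
    rw [e]
    exact (abs_sub _ _).trans (add_le_add (h j) b)
  have : ‖y‖ ≤ Y + 3 / 64 * ‖y‖ := (pi_norm_le_iff_of_nonneg (by positivity)).mpr key
  linarith [hy i]

theorem core_harm (K : ℕ) :
    ∑ k ∈ Finset.Icc (-(K : ℤ)) K, 1 / max 1 |(k : ℝ)| = 1 + 2 * (harmonic K : ℝ) := by
  induction K with
  | zero => simp
  | succ K ih =>
    have e : Finset.Icc (-((K + 1 : ℕ) : ℤ)) ((K + 1 : ℕ) : ℤ) =
        insert ((K : ℤ) + 1) (insert (-((K : ℤ) + 1)) (Finset.Icc (-(K : ℤ)) K)) := by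
      ext k; simp only [Finset.mem_Icc, Finset.mem_insert]; omega
    have hK : (0 : ℝ) ≤ K := Nat.cast_nonneg K
    rw [e, Finset.sum_insert (by simp only [Finset.mem_Icc, Finset.mem_insert]; omega),
      Finset.sum_insert (by simp only [Finset.mem_Icc]; omega), ih, harmonic_succ]
    push_cast
    rw [abs_neg, abs_of_nonneg (by linarith : (0 : ℝ) ≤ K + 1), max_eq_right (by linarith)]
    ring

theorem core_harm_le {K : ℕ} {u : ℝ} (hu : 1 ≤ u) (hK1 : 1 ≤ K) (hK : (K : ℝ) ≤ u ^ 160) :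
    ∑ k ∈ Finset.Icc (-(K : ℤ)) K, 1 / max 1 |(k : ℝ)| ≤ 323 * u := by
  rw [core_harm]
  have h1 := harmonic_le_one_add_log K
  have h2 : Real.log K ≤ Real.log (u ^ 160) :=
    Real.log_le_log (by exact_mod_cast hK1) hK
  rw [Real.log_pow] at h2
  have h3 := Real.log_le_sub_one_of_pos (by linarith : 0 < u)
  push_cast at h2
  linarith

theorem core_num {u s : ℝ} (hu : 2 ≤ u) (hs1 : 1 ≤ s) (hs : s ≤ u ^ 80) :
    (u ^ 2 ≤ u ^ 139 / s ∧ u ^ 2 ≤ u ^ 419 / (u ^ 140 + s ^ 3) ∧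
    s ^ 2 * u ^ 2 * (u ^ 139 / s) ^ 2 ≤ u ^ 280 ∧
    (s ^ 2) ^ 3 * u ^ 2 * (u ^ 419 / (u ^ 140 + s ^ 3)) ^ 2 ≤ (u ^ 280) ^ 3 ∧
    (s ^ 2) ^ 5 ≤ (u ^ 280) ^ 3 ∧ (s ^ 2) ^ 3 * u * (u ^ 139 / s) ≤ (u ^ 280) ^ 2 ∧
    u ^ 2 * (u ^ 139 / s) ≤ u ^ 280 ∧ u * s ^ 2 ≤ u ^ 280 ∧
    u * (u ^ 419 / (u ^ 140 + s ^ 3)) ≤ u ^ 280) ∧
    (u * (s ^ 2) ^ 3 ≤ (u ^ 280) ^ 2 ∧ (s ^ 2) ^ 3 * s ≤ (u ^ 280) ^ 2 ∧
    s ≤ u ^ 419 / (u ^ 140 + s ^ 3) / u ∧ u ≤ u ^ 419 / (u ^ 140 + s ^ 3) / u ∧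
    u ≤ u ^ 139 / s / u) := by
  have h1 : 1 ≤ u := by linarith
  have u0 : 0 < u := by linarith
  have s0 : 0 < s := by linarith
  have pw : ∀ {a b : ℕ}, a ≤ b → u ^ a ≤ u ^ b := fun h => pow_le_pow_right₀ h1 h
  have sp : ∀ k : ℕ, s ^ k ≤ u ^ (80 * k) := fun k => by
    rw [pow_mul]; exact pow_le_pow_left₀ s0.le hs k
  have d0 : 0 < u ^ 140 + s ^ 3 := by positivity
  have d1 : u ^ 140 + s ^ 3 ≤ u ^ 241 := by
    calc u ^ 140 + s ^ 3 ≤ u ^ 240 + u ^ 240 := add_le_add (pw (by norm_num)) (sp 3)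
      _ = 2 * u ^ 240 := by ring
      _ ≤ u * u ^ 240 := mul_le_mul_of_nonneg_right hu (by positivity)
      _ = u ^ 241 := by ring
  have hM : u ^ 178 ≤ u ^ 419 / (u ^ 140 + s ^ 3) := by
    rw [le_div_iff₀ d0]
    calc u ^ 178 * (u ^ 140 + s ^ 3) ≤ u ^ 178 * u ^ 241 :=
          mul_le_mul_of_nonneg_left d1 (by positivity)
      _ = u ^ 419 := by ring
  have hM0 : u ^ 177 ≤ u ^ 419 / (u ^ 140 + s ^ 3) / u := by
    rw [le_div_iff₀ u0]
    calc u ^ 177 * u = u ^ 178 := by ring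
      _ ≤ _ := hM
  have hL : u ^ 59 ≤ u ^ 139 / s := by
    rw [le_div_iff₀ s0]
    calc u ^ 59 * s ≤ u ^ 59 * u ^ 80 := mul_le_mul_of_nonneg_left hs (by positivity)
      _ = u ^ 139 := by ring
  have hL' : u ^ 139 / s ≤ u ^ 139 := div_le_self (by positivity) hs1
  have hM1 : u ^ 419 / (u ^ 140 + s ^ 3) ≤ u ^ 419 / s ^ 3 :=
    div_le_div_of_nonneg_left (by positivity) (by positivity) (by linarith [pow_pos u0 140])
  have hM2 : u ^ 419 / (u ^ 140 + s ^ 3) ≤ u ^ 419 / u ^ 140 :=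
    div_le_div_of_nonneg_left (by positivity) (by positivity) (by linarith [pow_pos s0 3])
  refine ⟨⟨(pw (by norm_num)).trans hL, (pw (by norm_num)).trans hM, ?_, ?_, ?_, ?_, ?_, ?_, ?_⟩,
    ?_, ?_, ?_, ?_, ?_⟩
  · apply le_of_eq; field_simp
  · calc (s ^ 2) ^ 3 * u ^ 2 * (u ^ 419 / (u ^ 140 + s ^ 3)) ^ 2
        ≤ (s ^ 2) ^ 3 * u ^ 2 * (u ^ 419 / s ^ 3) ^ 2 := by gcongr
      _ = (u ^ 280) ^ 3 := by field_simp
  · calc (s ^ 2) ^ 5 = s ^ 10 := by ring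
      _ ≤ u ^ (80 * 10) := sp 10
      _ ≤ u ^ 840 := pw (by norm_num)
      _ = (u ^ 280) ^ 3 := by ring
  · calc (s ^ 2) ^ 3 * u * (u ^ 139 / s) = s ^ 5 * u ^ 140 := by field_simp
      _ ≤ u ^ (80 * 5) * u ^ 140 := mul_le_mul_of_nonneg_right (sp 5) (by positivity)
      _ = u ^ 540 := by ring
      _ ≤ u ^ 560 := pw (by norm_num)
      _ = (u ^ 280) ^ 2 := by ring
  · calc u ^ 2 * (u ^ 139 / s) ≤ u ^ 2 * u ^ 139 := mul_le_mul_of_nonneg_left hL' (by positivity)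
      _ = u ^ 141 := by ring
      _ ≤ u ^ 280 := pw (by norm_num)
  · calc u * s ^ 2 ≤ u * u ^ (80 * 2) := mul_le_mul_of_nonneg_left (sp 2) u0.le
      _ = u ^ 161 := by ring
      _ ≤ u ^ 280 := pw (by norm_num)
  · calc u * (u ^ 419 / (u ^ 140 + s ^ 3)) ≤ u * (u ^ 419 / u ^ 140) :=
          mul_le_mul_of_nonneg_left hM2 u0.le
      _ = u ^ 280 := by field_simp
  · calc u * (s ^ 2) ^ 3 = u * s ^ 6 := by ring
      _ ≤ u * u ^ (80 * 6) := mul_le_mul_of_nonneg_left (sp 6) u0.le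
      _ = u ^ 481 := by ring
      _ ≤ u ^ 560 := pw (by norm_num)
      _ = (u ^ 280) ^ 2 := by ring
  · calc (s ^ 2) ^ 3 * s = s ^ 7 := by ring
      _ ≤ u ^ (80 * 7) := sp 7
      _ = (u ^ 280) ^ 2 := by ring
  · exact hs.trans ((pw (by norm_num)).trans hM0)
  · calc u = u ^ 1 := (pow_one u).symm
      _ ≤ u ^ 177 := pw (by norm_num)
      _ ≤ _ := hM0
  · rw [le_div_iff₀ u0]
    calc u * u = u ^ 2 := by ring
      _ ≤ u ^ 59 := pw (by norm_num)
      _ ≤ _ := hL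

theorem core_vol {u s C D P b : ℝ} (hu : 2 ≤ u) (hs1 : 1 ≤ s) (hs : s ≤ u ^ 80) (hC : 0 ≤ C)
    (hD : 1 ≤ D) (hP : 0 < P) (h1 : P ≤ (s ^ 2) ^ 2) (h2 : P ≤ s ^ 2 * u ^ 140)
    (hb : b = 0 ∨ (b = s * u ^ 280 ∧ P ≤ D * u ^ 280)) :
    (u ^ 280) ^ 2 * (C * (1 + Real.log (s ^ 2)) ^ 3 * s / ((s ^ 2) ^ 2 * (u ^ 139 / s / u) ^ 2) *
      (b + (u ^ 280) ^ 3 / (u ^ 419 / (u ^ 140 + s ^ 3) / u * (s ^ 2) ^ 2))) ≤
      C * 161 ^ 3 * (D + 2) * u ^ 849 / P := by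
  have hu1 : 1 ≤ u := by linarith
  have u0 : 0 < u := by linarith
  have s0 : 0 < s := by linarith
  have pw : ∀ {a b : ℕ}, a ≤ b → u ^ a ≤ u ^ b := fun h => pow_le_pow_right₀ hu1 h
  have l0 : 0 ≤ Real.log (s ^ 2) := Real.log_nonneg (by nlinarith)
  have l1 : 1 + Real.log (s ^ 2) ≤ 161 * u := by
    have a : Real.log (s ^ 2) ≤ Real.log ((u ^ 80) ^ 2) :=
      Real.log_le_log (by positivity) (pow_le_pow_left₀ s0.le hs 2)
    rw [← pow_mul, Real.log_pow u (80 * 2)] at a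
    have b := Real.log_le_sub_one_of_pos u0
    push_cast at a
    linarith
  have l3 : (1 + Real.log (s ^ 2)) ^ 3 ≤ (161 * u) ^ 3 := pow_le_pow_left₀ (by linarith) l1 3
  have e : (u ^ 280) ^ 2 *
      (C * (1 + Real.log (s ^ 2)) ^ 3 * s / ((s ^ 2) ^ 2 * (u ^ 139 / s / u) ^ 2) *
      (b + (u ^ 280) ^ 3 / (u ^ 419 / (u ^ 140 + s ^ 3) / u * (s ^ 2) ^ 2))) =
      C * (1 + Real.log (s ^ 2)) ^ 3 * (u ^ 284 * b / s + u ^ 846 / s ^ 5 + u ^ 706 / s ^ 2) := by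
    field_simp
    ring
  have t1 : u ^ 284 * b / s ≤ D * u ^ 846 / P := by
    rcases hb with rfl | ⟨rfl, hb⟩
    · simp only [mul_zero, zero_div]; positivity
    · rw [le_div_iff₀ hP]
      calc u ^ 284 * (s * u ^ 280) / s * P = u ^ 564 * P := by field_simp
        _ ≤ u ^ 564 * (D * u ^ 280) := mul_le_mul_of_nonneg_left hb (by positivity)
        _ = D * u ^ 844 := by ring
        _ ≤ D * u ^ 846 := mul_le_mul_of_nonneg_left (pw (by norm_num)) (by linarith)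
  have t2 : u ^ 846 / s ^ 5 ≤ u ^ 846 / P := by
    apply div_le_div_of_nonneg_left (by positivity) hP
    calc P ≤ (s ^ 2) ^ 2 := h1
      _ = s ^ 4 := by ring
      _ ≤ s ^ 5 := pow_le_pow_right₀ hs1 (by norm_num)
  have t3 : u ^ 706 / s ^ 2 ≤ u ^ 846 / P := by
    rw [div_le_div_iff₀ (by positivity) hP]
    calc u ^ 706 * P ≤ u ^ 706 * (s ^ 2 * u ^ 140) := mul_le_mul_of_nonneg_left h2 (by positivity)
      _ = u ^ 846 * s ^ 2 := by ring
  have t0 : 0 ≤ u ^ 284 * b / s := by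
    rcases hb with rfl | ⟨rfl, -⟩
    · simp
    · positivity
  rw [e]
  calc C * (1 + Real.log (s ^ 2)) ^ 3 * (u ^ 284 * b / s + u ^ 846 / s ^ 5 + u ^ 706 / s ^ 2)
      ≤ C * (161 * u) ^ 3 * (D * u ^ 846 / P + u ^ 846 / P + u ^ 846 / P) := by
        exact mul_le_mul (mul_le_mul_of_nonneg_left l3 hC) (add_le_add (add_le_add t1 t2) t3)
          (add_nonneg (add_nonneg t0 (by positivity)) (by positivity)) (by positivity)
    _ = C * 161 ^ 3 * (D + 2) * u ^ 849 / P := by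
        have hw : u ^ 849 = u ^ 3 * u ^ 846 := by ring
        rw [hw]
        generalize u ^ 846 = w
        field_simp
        ring

theorem core_supp {N : ℕ} {R X A c : ℝ} {B : M3} {W : V3 → ℂ} {a : V3} (hR : 1 ≤ R) (hX : 1 ≤ X)
    (hB : NearI (4 * R ^ 2) B) (hW : Wt N R X A W) :
    (∀ n, ‖FF B c W a n‖ ≤ A) ∧ ∀ n, FF B c W a n ≠ 0 → ∀ i, |n i - (-a) i| ≤ 2 * (R * X) := by
  refine ⟨fun n => ?_, fun n hn i => ?_⟩
  · unfold FF
    rw [norm_mul, core_norm_ee, mul_one]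
    have := hW.2 0 (Nat.zero_le N) (B *ᵥ (zr n + a)) 0 (by simp; positivity)
    simpa using this
  · have h0 : W (B *ᵥ (zr n + a)) ≠ 0 := fun e => hn (by unfold FF; rw [e, zero_mul])
    have := core_near (by nlinarith) hB (y := zr n + a) (Y := R * X) (fun j => by
      have h1 := hW.1 _ h0 j
      have h2 : 0 ≤ X / R := by positivity
      rw [abs_of_nonneg (h2.trans h1.1)]
      exact h1.2) i
    simpa [zr] using this

theorem core_one (h2 : SH) (h3 : SR) (R c : ℝ) (hR : 1 ≤ R) (hc : c ≠ 0) : ∃ C : ℝ, 2 ≤ C ∧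
    ∀ B : M3, NearI (4 * R ^ 2) B → ∀ (u A : ℝ) (W : V3 → ℂ) (a : V3) (h : ℤ × ℤ), C ≤ u →
      Wt 1680 R (u ^ 280) A W → |(h.1 : ℝ)| ≤ u ^ 160 → |(h.2 : ℝ)| ≤ u ^ 140 →
      ‖∑' n : Z3, FF B c W a (n + ![h.1, h.2, 0]) * (starRingEnd ℂ) (FF B c W a n)‖ ≤
        C * A ^ 2 * u ^ 849 * (1 / max 1 |(h.1 : ℝ)| * (1 / max 1 |(h.2 : ℝ)|)) := by
  classical
  have hQ : 1 ≤ 4 * R ^ 2 := by nlinarith
  obtain ⟨C2, hC2, H2⟩ := h2 1680 R c hR
  obtain ⟨C3, hC3, H3⟩ := h3 (4 * R ^ 2) c hQ hc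
  set D : ℝ := 1 + 128 * (4 * R ^ 2) ^ 2 with hD
  have hD1 : 1 ≤ D := by rw [hD]; linarith [sq_nonneg (4 * R ^ 2)]
  set K : ℝ := C2 * (1 + C3 * 161 ^ 3 * (D + 2)) with hK
  have hK0 : 0 ≤ K := by positivity
  have hR3 : 0 ≤ 1000 * R ^ 3 := by positivity
  refine ⟨2 + C2 + C3 + K + 1000 * R ^ 3, by linarith, fun B hB u A W a h hu hW a1 a2 => ?_⟩
  have hu2 : 2 ≤ u := by linarith
  have hu1 : 1 ≤ u := by linarith
  have u0 : 0 < u := by linarith
  have pw : ∀ {a b : ℕ}, a ≤ b → u ^ a ≤ u ^ b := fun h => pow_le_pow_right₀ hu1 h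
  have hX : 1 ≤ u ^ 280 := one_le_pow₀ hu1
  obtain ⟨hA, hs⟩ := core_supp (c := c) (a := a) hR hX hB hW
  have hA0 : 0 ≤ A := (norm_nonneg _).trans (hA 0)
  by_cases h0 : h = 0
  · subst h0
    have hT : 1 ≤ 2 * (R * u ^ 280) := by nlinarith
    have e0 : (![(0 : ℤ × ℤ).1, (0 : ℤ × ℤ).2, 0] : Z3) = 0 := by
      funext i; fin_cases i <;> rfl
    rw [e0]
    have := core_trivial (F := fun n => FF B c W a (n + 0) * (starRingEnd ℂ) (FF B c W a n))
      (x := -a) (A := A ^ 2) hT (fun n => by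
        rw [norm_mul, Complex.norm_conj, sq]
        exact mul_le_mul (hA _) (hA _) (norm_nonneg _) hA0)
      (fun n hn => hs n fun e => hn (by simp only [e, map_zero, mul_zero]))
    refine this.trans ?_
    simp only [Prod.fst_zero, Prod.snd_zero, Int.cast_zero, abs_zero, zero_le_one, max_eq_left,
      div_one, mul_one]
    calc 125 * (2 * (R * u ^ 280)) ^ 3 * A ^ 2 = 1000 * R ^ 3 * A ^ 2 * u ^ 840 := by ring
      _ ≤ (2 + C2 + C3 + K + 1000 * R ^ 3) * A ^ 2 * u ^ 849 :=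
          mul_le_mul (mul_le_mul_of_nonneg_right (by linarith) (sq_nonneg A)) (pw (by norm_num))
            (by positivity) (by positivity)
  · set H : ℝ := ‖((h.1 : ℝ), (h.2 : ℝ))‖ with hH
    have hHm : H = max |(h.1 : ℝ)| |(h.2 : ℝ)| := by rw [hH, Prod.norm_def]; rfl
    have hH1 : 1 ≤ H := by
      rw [hHm, le_max_iff]
      by_contra hn
      push Not at hn
      have b1 : |h.1| < 1 := by exact_mod_cast hn.1
      have b2 : |h.2| < 1 := by exact_mod_cast hn.2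
      exact h0 (Prod.ext (Int.abs_lt_one_iff.mp b1) (Int.abs_lt_one_iff.mp b2))
    have hHu : H ≤ u ^ 160 := by rw [hHm]; exact max_le a1 (a2.trans (pw (by norm_num)))
    set s : ℝ := √H with hs'
    have hss : H = s ^ 2 := (Real.sq_sqrt (by linarith)).symm
    have hs1 : 1 ≤ s := Real.one_le_sqrt.mpr hH1
    have hsu : s ≤ u ^ 80 := by
      rw [hs', Real.sqrt_le_left (by positivity), ← pow_mul]; exact hHu
    obtain ⟨⟨n1, n2, n3, n4, n5, n6, n7, n8, n9⟩, m1, m2, m3, m4, m5⟩ := core_num hu2 hs1 hsu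
    rw [← hss] at n3 n4 n5 n6 n8 m1 m2
    have c3 : C3 ≤ u := by linarith
    have r := H3 B hB (u ^ 280) H (u ^ 139 / s / u) (u ^ 419 / (u ^ 140 + s ^ 3) / u)
      ((h.1 : ℝ), (h.2 : ℝ)) hH.symm hH1 hX
      ((mul_le_mul_of_nonneg_right c3 (by positivity)).trans m1) m2 m3 (c3.trans m4) (c3.trans m5)
    have l0 : 0 ≤ Real.log H := Real.log_nonneg hH1
    have q := H2 B hB (u ^ 280) H u (u ^ 139 / s) (u ^ 419 / (u ^ 140 + s ^ 3)) A _ W a h hH.symm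
      hH1 (by linarith) n1 n2 n3 n4 n5 n6 n7 n8 n9 hW (by
        refine mul_nonneg (by positivity) (add_nonneg ?_ (by positivity))
        split_ifs
        · exact le_rfl
        · positivity) r
    refine q.trans ?_
    set p1 : ℝ := max 1 |(h.1 : ℝ)| with hp1
    set p2 : ℝ := max 1 |(h.2 : ℝ)| with hp2
    have p10 : 0 < p1 := lt_of_lt_of_le one_pos (le_max_left _ _)
    have p20 : 0 < p2 := lt_of_lt_of_le one_pos (le_max_left _ _)
    have p1H : p1 ≤ H := max_le hH1 (by rw [hHm]; exact le_max_left _ _)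
    have p2H : p2 ≤ H := max_le hH1 (by rw [hHm]; exact le_max_right _ _)
    have p2u : p2 ≤ u ^ 140 := max_le (one_le_pow₀ hu1) a2
    have hP : 0 < p1 * p2 := mul_pos p10 p20
    have v := core_vol (C := C3) (D := D) (P := p1 * p2)
      (b := if Good (4 * R ^ 2) ((h.1 : ℝ), (h.2 : ℝ)) then 0 else s * u ^ 280) hu2 hs1 hsu
      (by linarith) hD1 hP
      (by rw [← hss, sq]; exact mul_le_mul p1H p2H p20.le (by linarith))
      (by rw [← hss]; exact mul_le_mul p1H p2u p20.le (by linarith))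
      (by
        split_ifs with hg
        · exact Or.inl rfl
        · refine Or.inr ⟨rfl, ?_⟩
          unfold Good at hg
          push Not at hg
          have g1 : p1 ≤ D * u ^ 140 := by
            have g2 : 128 * (4 * R ^ 2) ^ 2 * |(h.2 : ℝ)| ≤ 128 * (4 * R ^ 2) ^ 2 * u ^ 140 :=
              mul_le_mul_of_nonneg_left a2 (by positivity)
            have g3 : 1 ≤ u ^ 140 := one_le_pow₀ hu1
            have g4 : 0 ≤ 128 * (4 * R ^ 2) ^ 2 * u ^ 140 := by positivity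
            rw [hD, add_mul, one_mul]
            exact max_le (by linarith) (by linarith [hg.le])
          calc p1 * p2 ≤ D * u ^ 140 * u ^ 140 := mul_le_mul g1 p2u p20.le (by positivity)
            _ = D * u ^ 280 := by ring)
    rw [← hss] at v
    have w1 : (u ^ 280) ^ 6 / u ^ 1680 ≤ u ^ 849 / (p1 * p2) := by
      rw [← pow_mul, div_self (by positivity), le_div_iff₀ hP, one_mul]
      calc p1 * p2 ≤ u ^ 160 * u ^ 140 := mul_le_mul (p1H.trans hHu) p2u p20.le (by positivity)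
        _ = u ^ 300 := by ring
        _ ≤ u ^ 849 := pw (by norm_num)
    calc _ ≤ C2 * A ^ 2 * (u ^ 849 / (p1 * p2) + C3 * 161 ^ 3 * (D + 2) * u ^ 849 / (p1 * p2)) :=
          mul_le_mul_of_nonneg_left (add_le_add w1 v) (by positivity)
      _ = K * A ^ 2 * u ^ 849 * (1 / p1 * (1 / p2)) := by
          rw [hK]
          generalize u ^ 849 = w
          field_simp
      _ ≤ _ := by
          apply mul_le_mul_of_nonneg_right _ (by positivity)
          apply mul_le_mul_of_nonneg_right _ (by positivity)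
          exact mul_le_mul_of_nonneg_right (by linarith) (sq_nonneg A)

theorem sE0 (h1 : SA) (h2 : SH) (h3 : SR) : SE0 := by
  refine ⟨1 / 70, by norm_num, 1680, fun R c hR hc => ?_⟩
  obtain ⟨C, hC, H⟩ := core_one h2 h3 R c hR hc
  set K : ℝ := 4000 * R ^ 3 * C * 323 ^ 2 with hK
  have hK1 : 1 ≤ K := by
    have : 1 ≤ R ^ 3 := one_le_pow₀ hR
    rw [hK]; nlinarith
  have hC0 : 0 ≤ 1000 * R ^ 3 * C ^ 840 := by positivity
  refine ⟨K + 1000 * R ^ 3 * C ^ 840, by linarith, fun B hB X A W a hX hW => ?_⟩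
  obtain ⟨u, hu1, rfl⟩ : ∃ u : ℝ, 1 ≤ u ∧ X = u ^ 280 :=
    ⟨X ^ (((280 : ℕ) : ℝ)⁻¹), Real.one_le_rpow hX (by positivity),
      (Real.rpow_inv_natCast_pow (by linarith) (by norm_num)).symm⟩
  have u0 : 0 < u := by linarith
  have pw : ∀ {a b : ℕ}, a ≤ b → u ^ a ≤ u ^ b := fun h => pow_le_pow_right₀ hu1 h
  have eX : (u ^ 280) ^ ((5 : ℝ) / 2 - 1 / 70) = u ^ 696 := by
    rw [← Real.rpow_natCast u 280, ← Real.rpow_mul u0.le, ← Real.rpow_natCast u 696]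
    norm_num
  rw [eX]
  obtain ⟨hA, hs⟩ := core_supp (c := c) (a := a) hR hX hB hW
  have hA0 : 0 ≤ A := (norm_nonneg _).trans (hA 0)
  have hT : u ^ 280 ≤ 2 * (R * u ^ 280) := by nlinarith
  have h696 : 1 ≤ u ^ 696 := one_le_pow₀ hu1
  rcases le_total u C with hu | hu
  · refine (core_trivial (hX.trans hT) hA hs).trans ?_
    calc 125 * (2 * (R * u ^ 280)) ^ 3 * A = 1000 * R ^ 3 * u ^ 840 * A * 1 := by ring
      _ ≤ (K + 1000 * R ^ 3 * C ^ 840) * A * u ^ 696 := by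
          apply mul_le_mul (mul_le_mul_of_nonneg_right _ hA0) h696 zero_le_one (by positivity)
          have : 1000 * R ^ 3 * u ^ 840 ≤ 1000 * R ^ 3 * C ^ 840 :=
            mul_le_mul_of_nonneg_left (pow_le_pow_left₀ u0.le hu 840) (by positivity)
          linarith
  · have fl : ∀ y : ℝ, 1 ≤ y → ∃ n : ℕ, 1 ≤ n ∧ (n : ℝ) ≤ y ∧ y ≤ 2 * n := fun y hy => by
      have a1 : 1 ≤ ⌊y⌋₊ := Nat.le_floor (by simpa using hy)
      have a2 : (1 : ℝ) ≤ ⌊y⌋₊ := by exact_mod_cast a1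
      exact ⟨⌊y⌋₊, a1, Nat.floor_le (by linarith), by linarith [Nat.lt_floor_add_one y]⟩
    obtain ⟨H0, g0, f0, k0⟩ := fl (u ^ 160) (one_le_pow₀ hu1)
    obtain ⟨H1, g1, f1, k1⟩ := fl (u ^ 140) (one_le_pow₀ hu1)
    have g0' : (0 : ℝ) < H0 := by exact_mod_cast g0
    have g1' : (0 : ℝ) < H1 := by exact_mod_cast g1
    have w := h1 (FF B c W a) (-a) _ H0 H1 g0 g1 (f0.trans ((pw (by norm_num)).trans hT))
      (f1.trans ((pw (by norm_num)).trans hT)) hs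
    have s1 : ∑ h ∈ Finset.Icc (-(H0 : ℤ)) H0 ×ˢ Finset.Icc (-(H1 : ℤ)) H1,
        ‖∑' n : Z3, FF B c W a (n + ![h.1, h.2, 0]) * (starRingEnd ℂ) (FF B c W a n)‖ ≤
        C * A ^ 2 * u ^ 849 * (323 * u * (323 * u)) := by
      calc _ ≤ ∑ h ∈ Finset.Icc (-(H0 : ℤ)) H0 ×ˢ Finset.Icc (-(H1 : ℤ)) H1,
            C * A ^ 2 * u ^ 849 * (1 / max 1 |(h.1 : ℝ)| * (1 / max 1 |(h.2 : ℝ)|)) := by
            refine Finset.sum_le_sum fun h hh => ?_
            rw [Finset.mem_product, Finset.mem_Icc, Finset.mem_Icc] at hh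
            have b1 : |h.1| ≤ (H0 : ℤ) := abs_le.mpr hh.1
            have b2 : |h.2| ≤ (H1 : ℤ) := abs_le.mpr hh.2
            have b1' : |(h.1 : ℝ)| ≤ (H0 : ℝ) := by exact_mod_cast b1
            have b2' : |(h.2 : ℝ)| ≤ (H1 : ℝ) := by exact_mod_cast b2
            exact H B hB u A W a h hu hW (b1'.trans f0) (b2'.trans f1)
        _ = C * A ^ 2 * u ^ 849 * ((∑ k ∈ Finset.Icc (-(H0 : ℤ)) H0, 1 / max 1 |(k : ℝ)|) *
            ∑ k ∈ Finset.Icc (-(H1 : ℤ)) H1, 1 / max 1 |(k : ℝ)|) := by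
            rw [← Finset.mul_sum, Finset.sum_mul_sum, Finset.sum_product]
        _ ≤ _ := by
            apply mul_le_mul_of_nonneg_left _ (by positivity)
            exact mul_le_mul (core_harm_le hu1 g0 f0)
              (core_harm_le hu1 g1 (f1.trans (pw (by norm_num))))
              (Finset.sum_nonneg fun _ _ => by positivity) (by positivity)
    have s2 : 125 * (2 * (R * u ^ 280)) ^ 3 / ((H0 : ℝ) * H1) ≤ 4000 * R ^ 3 * u ^ 540 := by
      rw [div_le_iff₀ (by positivity)]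
      calc 125 * (2 * (R * u ^ 280)) ^ 3 = 1000 * R ^ 3 * u ^ 540 * (u ^ 160 * u ^ 140) := by ring
        _ ≤ 1000 * R ^ 3 * u ^ 540 * (2 * H0 * (2 * H1)) :=
            mul_le_mul_of_nonneg_left (mul_le_mul k0 k1 (by positivity) (by positivity))
              (by positivity)
        _ = 4000 * R ^ 3 * u ^ 540 * (H0 * H1) := by ring
    have s3 : ‖∑' n, FF B c W a n‖ ^ 2 ≤ (K * A * u ^ 696) ^ 2 := by
      calc _ ≤ 4000 * R ^ 3 * u ^ 540 * (C * A ^ 2 * u ^ 849 * (323 * u * (323 * u))) :=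
            w.trans (mul_le_mul s2 s1 (Finset.sum_nonneg fun _ _ => norm_nonneg _) (by positivity))
        _ = K * (A ^ 2 * u ^ 1391) := by rw [hK]; ring
        _ ≤ K ^ 2 * (A ^ 2 * u ^ 1392) :=
            mul_le_mul (by nlinarith) (mul_le_mul_of_nonneg_left (pw (by norm_num)) (sq_nonneg A))
              (by positivity) (by positivity)
        _ = (K * A * u ^ 696) ^ 2 := by ring
    refine (le_of_sq_le_sq s3 (by positivity)).trans ?_
    apply mul_le_mul_of_nonneg_right _ (by positivity)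
    exact mul_le_mul_of_nonneg_right (by linarith) hA0

end Pool.Agent.CubH
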