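import Pool.Agent.Lib.MP_d79f69_nt.Iface

/-!
Finite differences: products, holomorphic functions, restriction to lines, summation by parts.
-/

namespace Pool.Agent.CubH

theorem dif1_comp {M M' : Type} [AddCommMonoid M] [AddCommMonoid M'] (h : M) (h' : M')
    (φ : M → M') (hφ : ∀ y, φ (y + h) = φ y + h') (k : ℕ) :
    ∀ f : M' → ℂ, (fwdDiff h)^[k] (fun y => f (φ y)) = fun y => (fwdDiff h')^[k] f (φ y) := by
  induction k with
  | zero => intro f; rfl
  | succ k ih =>
    intro f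
    rw [Function.iterate_succ_apply, Function.iterate_succ_apply]
    have e : fwdDiff h (fun y => f (φ y)) = fun y => fwdDiff h' f (φ y) := by
      funext y
      simp only [fwdDiff, hφ]
    rw [e, ih]

theorem dif1_mono {N : ℕ} {A ρ : ℝ} {s : ℕ → ℂ} (h : Dd (N + 1) A ρ s) : Dd N A ρ s :=
  fun k j hkj => h k j (by omega)

theorem dif1_shift {N : ℕ} {A ρ : ℝ} {s : ℕ → ℂ} (h : Dd (N + 1) A ρ s) :
    Dd N A ρ (fun j => s (j + 1)) := by
  intro k j hkj
  rw [fwdDiff_iter_comp_add]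
  exact h k (j + 1) (by omega)

theorem dif1_diff {N : ℕ} {A ρ : ℝ} {s : ℕ → ℂ} (h : Dd (N + 1) A ρ s) :
    Dd N (A / ρ) ρ (fwdDiff 1 s) := by
  intro k j hkj
  have := h (k + 1) j (by omega)
  rw [Function.iterate_succ_apply] at this
  rw [div_div, ← pow_succ']
  exact this

theorem dif1_prod (ρ : ℝ) (k : ℕ) : ∀ (N : ℕ) (A A' : ℝ) (s t : ℕ → ℂ),
    Dd N A ρ s → Dd N A' ρ t → ∀ j, k + j ≤ N →
    ‖(fwdDiff 1)^[k] (fun j => s j * t j) j‖ ≤ 2 ^ k * A * A' / ρ ^ k := by
  induction k with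
  | zero =>
    intro N A A' s t hs ht j hj
    have h1 := hs 0 j hj
    have h2 := ht 0 j hj
    simp only [Function.iterate_zero, id_eq, pow_zero, div_one, one_mul] at h1 h2 ⊢
    rw [norm_mul]
    exact mul_le_mul h1 h2 (norm_nonneg _) ((norm_nonneg _).trans h1)
  | succ k ih =>
    intro N A A' s t hs ht j hj
    obtain ⟨N, rfl⟩ : ∃ N', N = N' + 1 := ⟨N - 1, by omega⟩
    rw [Function.iterate_succ_apply]
    have e : fwdDiff 1 (fun j => s j * t j) =
        (fun j => fwdDiff 1 s j * t (j + 1)) + fun j => s j * fwdDiff 1 t j := by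
      funext y
      simp only [fwdDiff, Pi.add_apply]
      ring
    rw [e, fwdDiff_iter_add, Pi.add_apply]
    have h1 := ih N (A / ρ) A' _ _ (dif1_diff hs) (dif1_shift ht) j (by omega)
    have h2 := ih N A (A' / ρ) _ _ (dif1_mono hs) (dif1_diff ht) j (by omega)
    refine (norm_add_le _ _).trans ((add_le_add h1 h2).trans (le_of_eq ?_))
    rw [pow_succ, pow_succ, ← div_div]
    ring

theorem sB1 : SB1 := by
  intro N A A' ρ s t hρ hs ht k j hkj
  refine (dif1_prod ρ k N A A' s t hs ht j hkj).trans ?_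
  have h1 := hs 0 0 (by omega)
  have h2 := ht 0 0 (by omega)
  simp only [Function.iterate_zero, id_eq, pow_zero, div_one] at h1 h2
  have hA : 0 ≤ A := (norm_nonneg _).trans h1
  have hA' : 0 ≤ A' := (norm_nonneg _).trans h2
  have h3 : (2 : ℝ) ^ k ≤ 2 ^ N := pow_le_pow_right₀ (by norm_num) (by omega)
  have h4 : 0 < ρ ^ k := pow_pos hρ k
  gcongr

theorem dif1_step (r δ A : ℝ) (hδ : 1 ≤ δ) (E : ℂ → ℂ)
    (hE : DifferentiableOn ℂ E (Metric.ball 0 r)) (hA : ∀ t ∈ Metric.ball (0 : ℂ) r, ‖E t‖ ≤ A) :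
    DifferentiableOn ℂ (fwdDiff 1 E) (Metric.ball 0 (r - 2 * δ)) ∧
      ∀ t ∈ Metric.ball (0 : ℂ) (r - 2 * δ), ‖fwdDiff 1 E t‖ ≤ A / δ := by
  have hm : ∀ t ∈ Metric.ball (0 : ℂ) (r - 2 * δ), t ∈ Metric.ball (0 : ℂ) (r - δ) ∧
      t + 1 ∈ Metric.ball (0 : ℂ) (r - δ) := by
    intro t ht
    rw [mem_ball_zero_iff] at ht
    refine ⟨mem_ball_zero_iff.2 (by linarith), mem_ball_zero_iff.2 ?_⟩
    have := norm_add_le t 1
    rw [norm_one] at this
    linarith
  have hd : ∀ w ∈ Metric.ball (0 : ℂ) (r - δ), DifferentiableAt ℂ E w := by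
    intro w hw
    rw [mem_ball_zero_iff] at hw
    exact hE.differentiableAt (Metric.isOpen_ball.mem_nhds (mem_ball_zero_iff.2 (by linarith)))
  have hb : ∀ w ∈ Metric.ball (0 : ℂ) (r - δ), ‖deriv E w‖ ≤ A / δ := by
    intro w hw
    rw [mem_ball_zero_iff] at hw
    have hsub : Metric.closedBall w δ ⊆ Metric.ball 0 r := by
      intro u hu
      rw [mem_closedBall_iff_norm] at hu
      rw [mem_ball_zero_iff]
      have := norm_add_le (u - w) w
      rw [sub_add_cancel] at this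
      linarith
    refine Complex.norm_deriv_le_of_forall_mem_sphere_norm_le (by linarith) ?_ ?_
    · exact hE.diffContOnCl_ball hsub
    · intro z hz
      exact hA z (hsub (Metric.sphere_subset_closedBall hz))
  constructor
  · intro t ht
    have h1 : DifferentiableAt ℂ (fun z : ℂ => E (z + 1)) t :=
      (hd _ (hm t ht).2).comp t (by fun_prop)
    exact (h1.sub (hd _ (hm t ht).1)).differentiableWithinAt
  · intro t ht
    have := (convex_ball (0 : ℂ) (r - δ)).norm_image_sub_le_of_norm_deriv_le hd hb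
      (hm t ht).1 (hm t ht).2
    simpa [fwdDiff] using this

theorem dif1_hol (δ : ℝ) (hδ : 1 ≤ δ) (k : ℕ) : ∀ (r A : ℝ) (E : ℂ → ℂ),
    DifferentiableOn ℂ E (Metric.ball 0 r) → (∀ t ∈ Metric.ball (0 : ℂ) r, ‖E t‖ ≤ A) →
    ∀ t ∈ Metric.ball (0 : ℂ) (r - 2 * k * δ), ‖(fwdDiff 1)^[k] E t‖ ≤ A / δ ^ k := by
  induction k with
  | zero =>
    intro r A E _ hA t ht
    simpa using hA t (by simpa using ht)
  | succ k ih =>
    intro r A E hE hA t ht
    obtain ⟨h1, h2⟩ := dif1_step r δ A hδ E hE hA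
    rw [Function.iterate_succ_apply, pow_succ', ← div_div]
    refine ih (r - 2 * δ) (A / δ) _ h1 h2 t ?_
    have e : r - 2 * δ - 2 * k * δ = r - 2 * ((k + 1 : ℕ) : ℝ) * δ := by push_cast; ring
    rw [e]
    exact ht

theorem sB2 : SB2 := by
  intro N
  have hN : (0 : ℝ) ≤ N := Nat.cast_nonneg N
  have hK : (1 : ℝ) ≤ 4 * (N + 1) := by linarith
  refine ⟨(4 * (N + 1)) ^ (N + 1), one_le_pow₀ hK, ?_⟩
  intro A ρ E hρ hE hA k j hkj
  have hρ1 : 4 * ((N : ℝ) + 1) ≤ ρ := (le_self_pow₀ hK (by omega)).trans hρ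
  have hρ0 : 0 < ρ := by linarith
  have hδ : 1 ≤ ρ / (4 * (N + 1)) := (one_le_div (by linarith)).2 hρ1
  have hA0 : 0 ≤ A := (norm_nonneg _).trans (hA 0 (Metric.mem_ball_self hρ0))
  have e := dif1_comp (1 : ℕ) (1 : ℂ) (fun n : ℕ => (n : ℂ)) (fun y => by push_cast; ring) k E
  rw [e]
  have hk : (k : ℝ) ≤ N := by exact_mod_cast (by omega : k ≤ N)
  have hj : (j : ℝ) ≤ N := by exact_mod_cast (by omega : j ≤ N)
  have hmem : (j : ℂ) ∈ Metric.ball (0 : ℂ) (ρ - 2 * k * (ρ / (4 * (N + 1)))) := by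
    rw [mem_ball_zero_iff, Complex.norm_natCast]
    have h1 : 2 * k * (ρ / (4 * (N + 1))) ≤ ρ / 2 := by
      rw [← mul_div_assoc, div_le_div_iff₀ (by linarith) (by norm_num)]
      nlinarith
    linarith
  refine (dif1_hol _ hδ k ρ A E hE hA j hmem).trans ?_
  rw [div_pow, div_div_eq_mul_div, mul_comm A]
  have h3 : (4 * ((N : ℝ) + 1)) ^ k ≤ (4 * (N + 1)) ^ (N + 1) := pow_le_pow_right₀ hK (by omega)
  have h4 : 0 < ρ ^ k := pow_pos hρ0 k
  gcongr

theorem sB3 : SB3 := by
  constructor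
  · intro W x v k j
    have e := dif1_comp (1 : ℕ) v (fun n : ℕ => x + (n : ℝ) • v)
      (fun y => by push_cast; rw [add_smul, one_smul, add_assoc]) k W
    rw [e]
  · intro W x v k
    have e := dif1_comp (1 : ℕ) v (fun n : ℕ => x + (n : ℤ) • v)
      (fun y => by push_cast; rw [add_smul, one_smul, add_assoc]) k W
    rw [e]
    simp

theorem dif1_ee_norm (x : ℝ) : ‖ee x‖ = 1 := by
  have e : ee x = Complex.exp (((2 * Real.pi * x : ℝ) : ℂ) * Complex.I) := by
    unfold ee
    congr 1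
    push_cast
    ring
  rw [e, Complex.norm_exp_ofReal_mul_I]

theorem dif1_ee_add (x y : ℝ) : ee (x + y) = ee x * ee y := by
  unfold ee
  rw [← Complex.exp_add]
  congr 1
  push_cast
  ring

theorem dif1_fin_shift (F : Z3 → ℂ) (hF : (Function.support F).Finite) (b : Z3) :
    (Function.support (fun n => F (n + b))).Finite := by
  refine (hF.preimage (f := fun n => n + b) (add_left_injective b).injOn).subset ?_
  intro n hn
  exact hn

theorem dif1_fin_diff (F : Z3 → ℂ) (hF : (Function.support F).Finite) (b : Z3) :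
    (Function.support (fwdDiff b F)).Finite := by
  refine ((dif1_fin_shift F hF b).union hF).subset ?_
  intro n hn
  by_contra h
  simp only [Set.mem_union, Function.mem_support, not_or, not_not] at h
  exact hn (by simp [fwdDiff, h.1, h.2])

theorem dif1_summable (F G : Z3 → ℂ) (hF : (Function.support F).Finite) :
    Summable (fun n => F n * G n) := by
  refine summable_of_hasFiniteSupport (hF.subset ?_)
  intro n hn h
  exact hn (by simp [h])

theorem dif1_parts (F : Z3 → ℂ) (hF : (Function.support F).Finite) (b : Z3) (ξ : V3) (d : ℝ) :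
    ‖∑' n : Z3, fwdDiff b F n * ee (∑ i, ξ i * n i + d)‖ =
      ‖ee (∑ i, ξ i * b i) - 1‖ * ‖∑' n : Z3, F n * ee (∑ i, ξ i * n i + d)‖ := by
  have h1 : ∑' n : Z3, F n * ee (∑ i, ξ i * n i + d) =
      ee (∑ i, ξ i * b i) * ∑' n : Z3, F (n + b) * ee (∑ i, ξ i * n i + d) := by
    rw [← (Equiv.addRight b).tsum_eq, ← tsum_mul_left]
    refine tsum_congr fun n => ?_
    have e : (∑ i, ξ i * ((n + b) i : ℤ) + d : ℝ) = ∑ i, ξ i * b i + (∑ i, ξ i * n i + d) := by
      simp only [Pi.add_apply, Int.cast_add, mul_add, Finset.sum_add_distrib]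
      ring
    simp only [Equiv.coe_addRight]
    rw [e, dif1_ee_add]
    ring
  have h2 : ∑' n : Z3, fwdDiff b F n * ee (∑ i, ξ i * n i + d) =
      ∑' n : Z3, F (n + b) * ee (∑ i, ξ i * n i + d) -
        ∑' n : Z3, F n * ee (∑ i, ξ i * n i + d) := by
    rw [← (dif1_summable _ _ (dif1_fin_shift F hF b)).tsum_sub (dif1_summable _ _ hF)]
    refine tsum_congr fun n => ?_
    simp only [fwdDiff]
    ring
  rw [h2, h1, norm_mul, dif1_ee_norm, one_mul, ← norm_mul, ← norm_neg]
  congr 1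
  ring

theorem sB5 : SB5 := by
  intro F hF b ξ d N
  induction N generalizing F with
  | zero =>
    rw [pow_zero, one_mul]
    have hs : Summable (fun n : Z3 => ‖F n * ee (∑ i, ξ i * n i + d)‖) :=
      (dif1_summable _ _ hF).norm
    refine (norm_tsum_le_tsum_norm hs).trans (le_of_eq (tsum_congr fun n => ?_))
    rw [norm_mul, dif1_ee_norm, mul_one]
    rfl
  | succ N ih =>
    have h := ih (fwdDiff b F) (dif1_fin_diff F hF b)
    rw [dif1_parts F hF b ξ d, ← mul_assoc, ← pow_succ] at h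
    simpa only [Function.iterate_succ_apply] using h

end Pool.Agent.CubH
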