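import Pool.Agent.Lib.MP_d79f69_nt.Iface

/-!
Finite differences of smooth weights, a Gaussian sum, transference and a monotone sum.
-/

open Matrix MeasureTheory

namespace Pool.Agent.CubH

/-! ### differences of smooth functions -/

private theorem dif2_deriv {E : Type} [NormedAddCommGroup E] [NormedSpace ℝ E] (v : V3) (k : ℕ) :
    ∀ (F : V3 → E) (F' : V3 → V3 →L[ℝ] E), (∀ y, HasFDerivAt F (F' y) y) →
      ∀ y, HasFDerivAt ((fwdDiff v)^[k] F) ((fwdDiff v)^[k] F' y) y := by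
  induction k with
  | zero => intro F F' h y; exact h y
  | succ k ih =>
    intro F F' h y
    rw [Function.iterate_succ_apply, Function.iterate_succ_apply]
    refine ih _ _ (fun z => ?_) y
    have h1 : HasFDerivAt (fun x => F (x + v)) (F' (z + v)) z := by
      have h2 := (h (z + v)).comp z ((hasFDerivAt_id z).add_const v)
      rw [ContinuousLinearMap.comp_id] at h2
      exact h2
    exact h1.sub (h z)

private theorem dif2_bound (k : ℕ) :
    ∀ (E : Type) [NormedAddCommGroup E] [NormedSpace ℝ E] (F : V3 → E),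
      ContDiff ℝ (⊤ : ℕ∞) F → HasCompactSupport F →
      ∃ A : ℝ, 0 ≤ A ∧ ∀ x v : V3, ‖(fwdDiff v)^[k] F x‖ ≤ A * ‖v‖ ^ k := by
  induction k with
  | zero =>
    intro E _ _ F hF hc
    obtain ⟨A, hA⟩ := hF.continuous.bounded_above_of_compact_support hc
    refine ⟨A, (norm_nonneg _).trans (hA 0), fun x v => ?_⟩
    simpa using hA x
  | succ k ih =>
    intro E _ _ F hF hc
    obtain ⟨hd, hF'⟩ := contDiff_infty_iff_fderiv.1 hF
    obtain ⟨A, hA0, hA⟩ := ih (V3 →L[ℝ] E) (fderiv ℝ F) hF' (hc.fderiv ℝ)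
    refine ⟨A, hA0, fun x v => ?_⟩
    have h1 := dif2_deriv v k F (fderiv ℝ F) fun y => (hd y).hasFDerivAt
    have h2 := (convex_univ (𝕜 := ℝ) (E := V3)).norm_image_sub_le_of_norm_hasFDerivWithin_le
      (f := (fwdDiff v)^[k] F) (f' := fun y => (fwdDiff v)^[k] (fderiv ℝ F) y)
      (fun y _ => (h1 y).hasFDerivWithinAt) (fun y _ => hA y v) (Set.mem_univ x)
      (Set.mem_univ (x + v))
    rw [Function.iterate_succ_apply', pow_succ, ← mul_assoc]
    rw [add_sub_cancel_left] at h2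
    exact h2

theorem sB4 : SB4 := by
  intro W hW hc N
  choose A hA0 hA using fun k => dif2_bound k ℂ W hW hc
  have hs : 0 ≤ ∑ k ∈ Finset.range (N + 1), A k := Finset.sum_nonneg fun k _ => hA0 k
  refine ⟨∑ k ∈ Finset.range (N + 1), A k + 1, by linarith, fun k hk x v => ?_⟩
  refine (hA k x v).trans (mul_le_mul_of_nonneg_right ?_ (by positivity))
  have := Finset.single_le_sum (f := A) (fun k _ => hA0 k)
    (Finset.mem_range.2 (Nat.lt_succ_of_le hk))
  linarith

/-! ### a Gaussian sum -/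

private theorem dif2_geom {r : ℝ} (h0 : 0 ≤ r) (h1 : r < 1) (s : Finset ℤ) (j : ℤ → ℕ)
    (hj : Set.InjOn j s) : ∑ n ∈ s, r ^ j n ≤ (1 - r)⁻¹ := by
  rw [← Finset.sum_image (f := fun m => r ^ m) hj, ← tsum_geometric_of_lt_one h0 h1]
  exact (summable_geometric_of_lt_one h0 h1).sum_le_tsum _ fun _ _ => by positivity

theorem sB6 : SB6 := by
  intro T x s hT
  obtain ⟨r, hr⟩ : ∃ r : ℝ, r = Real.exp (-(1 / T)) := ⟨_, rfl⟩
  have hu : 0 < 1 / T := by positivity
  have hr0 : 0 ≤ r := by rw [hr]; positivity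
  have hr1 : r < 1 := by rw [hr]; exact Real.exp_lt_one_iff.2 (by linarith)
  have hrT : (1 - r)⁻¹ ≤ 1 + T := by
    have h1 : r * (1 / T + 1) ≤ 1 := by
      have h2 := Real.add_one_le_exp (1 / T)
      have h3 : r * Real.exp (1 / T) = 1 := by rw [hr, ← Real.exp_add]; simp
      nlinarith
    have h4 : r * (1 + T) ≤ T := by
      have h5 : r * (1 + T) = T * (r * (1 / T + 1)) := by field_simp
      rw [h5]
      nlinarith
    rw [inv_le_iff_one_le_mul₀ (by linarith)]
    nlinarith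
  have key : ∀ (y : ℝ) (m : ℕ), (m : ℝ) ≤ |y| →
      Real.exp (-Real.pi * (y / T) ^ 2) ≤ 2 * r ^ m := by
    intro y m hm
    have e1 : 2 * r ^ m = Real.exp (Real.log 2 + m * (-(1 / T))) := by
      rw [Real.exp_add, Real.exp_log (by norm_num), Real.exp_nat_mul, hr]
    rw [e1]
    apply Real.exp_le_exp.2
    have h1 : (m : ℝ) * (1 / T) ≤ |y / T| := by
      rw [abs_div, abs_of_pos hT, mul_one_div]
      exact div_le_div_of_nonneg_right hm hT.le
    have h2 := Real.log_two_gt_d9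
    have h3 := Real.pi_gt_three
    have h4 : |y / T| ^ 2 = (y / T) ^ 2 := sq_abs _
    nlinarith [sq_nonneg (|y / T| - 1 / 6), sq_nonneg (y / T)]
  have hf1 := Int.floor_le x
  have hf2 := Int.lt_floor_add_one x
  rw [← Finset.sum_filter_add_sum_filter_not s (fun n => 0 ≤ n + ⌊x⌋)]
  have b1 : ∑ n ∈ s.filter (fun n => 0 ≤ n + ⌊x⌋), Real.exp (-Real.pi * ((n + x) / T) ^ 2) ≤
      2 * (1 - r)⁻¹ := by
    refine le_trans (Finset.sum_le_sum (g := fun n => 2 * r ^ (n + ⌊x⌋).toNat) fun n hn => ?_) ?_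
    · have hn' := (Finset.mem_filter.1 hn).2
      apply key
      have e : (((n + ⌊x⌋).toNat : ℕ) : ℝ) = n + ⌊x⌋ := by
        have : (((n + ⌊x⌋).toNat : ℕ) : ℤ) = n + ⌊x⌋ := Int.toNat_of_nonneg hn'
        exact_mod_cast this
      rw [e]
      exact le_trans (by linarith) (le_abs_self _)
    · rw [← Finset.mul_sum]
      refine mul_le_mul_of_nonneg_left (dif2_geom hr0 hr1 _ _ fun a ha b hb hab => ?_) (by norm_num)
      have ha' := (Finset.mem_filter.1 ha).2
      have hb' := (Finset.mem_filter.1 hb).2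
      omega
  have b2 : ∑ n ∈ s.filter (fun n => ¬ 0 ≤ n + ⌊x⌋), Real.exp (-Real.pi * ((n + x) / T) ^ 2) ≤
      2 * (1 - r)⁻¹ := by
    refine le_trans
      (Finset.sum_le_sum (g := fun n => 2 * r ^ (-(n + ⌊x⌋) - 1).toNat) fun n hn => ?_) ?_
    · have hn' := (Finset.mem_filter.1 hn).2
      apply key
      have e : (((-(n + ⌊x⌋) - 1).toNat : ℕ) : ℝ) = -(n + ⌊x⌋) - 1 := by
        have : (((-(n + ⌊x⌋) - 1).toNat : ℕ) : ℤ) = -(n + ⌊x⌋) - 1 :=
          Int.toNat_of_nonneg (by omega)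
        exact_mod_cast this
      rw [e]
      exact le_trans (by linarith) (neg_le_abs _)
    · rw [← Finset.mul_sum]
      refine mul_le_mul_of_nonneg_left (dif2_geom hr0 hr1 _ _ fun a ha b hb hab => ?_) (by norm_num)
      have ha' := (Finset.mem_filter.1 ha).2
      have hb' := (Finset.mem_filter.1 hb).2
      omega
  linarith

/-! ### transference -/

private theorem dif2_near {x : ℝ} (h : ‖ee x - 1‖ < 1 / 2) : ∃ m : ℤ, |x - m| < 1 / 8 := by
  refine ⟨round x, ?_⟩
  have hy := abs_sub_round x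
  obtain ⟨y, hyd⟩ : ∃ y : ℝ, y = x - round x := ⟨_, rfl⟩
  rw [← hyd] at hy ⊢
  have e : ee x = Complex.exp (Complex.I * ((2 * Real.pi * y : ℝ) : ℂ)) := by
    have e1 : (2 * Real.pi * Complex.I * x : ℂ) =
        Complex.I * ((2 * Real.pi * y : ℝ) : ℂ) + (round x : ℤ) * (2 * Real.pi * Complex.I) := by
      rw [hyd]; push_cast; ring
    rw [ee, e1, Complex.exp_add, Complex.exp_int_mul_two_pi_mul_I, mul_one]
  rw [e, Complex.norm_exp_I_mul_ofReal_sub_one, Real.norm_eq_abs, abs_mul,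
    show 2 * Real.pi * y / 2 = Real.pi * y by ring, abs_of_pos (show (0 : ℝ) < 2 by norm_num)] at h
  have hp := Real.pi_pos
  have h1 : |Real.pi * y| ≤ Real.pi / 2 := by
    rw [abs_mul, abs_of_pos hp]
    nlinarith
  have h2 := Real.mul_abs_le_abs_sin h1
  have h3 : 2 / Real.pi * |Real.pi * y| = 2 * |y| := by
    rw [abs_mul, abs_of_pos hp]; field_simp
  linarith

private theorem dif2_zero {y d : ℝ} {m : ℤ} (hd : d ≤ 1 / 4) (hy : |y| ≤ 1 / 2)
    (h : |y - m| < d) : |y| < d := by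
  have h1 : |(m : ℝ)| < 1 := by
    rw [abs_lt] at h ⊢
    rw [abs_le] at hy
    constructor <;> linarith [h.1, h.2, hy.1, hy.2]
  have h2 : m = 0 := by
    have : |m| < 1 := by exact_mod_cast h1
    exact Int.abs_lt_one_iff.1 this
  simpa [h2] using h

private theorem dif2_chain {u d M : ℝ} (hd : d ≤ 1 / 4) (hM : 1 ≤ M)
    (h : ∀ j : ℕ, 1 ≤ j → (j : ℝ) ≤ M → ∃ m : ℤ, |j * u - m| < d) :
    |u - round u| < d ∧ |u - round u| ≤ 1 / M := by
  have hw := abs_sub_round u
  obtain ⟨w, hwd⟩ : ∃ w : ℝ, w = u - round u := ⟨_, rfl⟩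
  rw [← hwd] at hw ⊢
  have h' : ∀ j : ℕ, 1 ≤ j → (j : ℝ) ≤ M → ∃ m : ℤ, |j * w - m| < d := by
    intro j h1 h2
    obtain ⟨m, hm⟩ := h j h1 h2
    refine ⟨m - j * round u, ?_⟩
    have e : j * w - ((m - j * round u : ℤ) : ℝ) = j * u - m := by
      rw [hwd]; push_cast; ring
    rwa [e]
  have h1 : |w| < d := by
    obtain ⟨m, hm⟩ := h' 1 le_rfl (by simpa using hM)
    rw [Nat.cast_one, one_mul] at hm
    exact dif2_zero hd hw hm
  have h2 : ∀ j : ℕ, (j : ℝ) ≤ M → |j * w| < d := by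
    intro j
    induction j with
    | zero =>
      intro _
      have := abs_nonneg w
      simp only [Nat.cast_zero, zero_mul, abs_zero]
      linarith
    | succ j ih =>
      intro hj
      have hj' : (j : ℝ) ≤ M := by push_cast at hj; linarith
      obtain ⟨m, hm⟩ := h' (j + 1) (by omega) hj
      refine dif2_zero hd ?_ hm
      have e : ((j + 1 : ℕ) : ℝ) * w = j * w + w := by push_cast; ring
      rw [e]
      have := abs_add_le (j * w) w
      linarith [ih hj']
  refine ⟨h1, ?_⟩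
  have hM0 : 0 ≤ M := by linarith
  have h3 := h2 ⌊M⌋₊ (Nat.floor_le hM0)
  have h4 := Nat.lt_floor_add_one M
  rw [abs_mul, Nat.abs_cast] at h3
  rw [le_div_iff₀ (by linarith)]
  nlinarith [abs_nonneg w]

theorem sC : SC := by
  intro ξ θ L0 M0 hL hM
  by_contra hcon
  rw [not_or] at hcon
  obtain ⟨hb, hm⟩ := hcon
  apply hm
  have hb' : ∀ b : Z3, |(b 2 : ℝ)| ≤ M0 → |b 0 - θ.1 * b 2| ≤ L0 → |b 1 - θ.2 * b 2| ≤ L0 →
      ∃ m : ℤ, |ξ 0 * b 0 + ξ 1 * b 1 + ξ 2 * b 2 - m| < 1 / 8 := by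
    intro b h1 h2 h3
    have h4 : ‖ee (∑ i, ξ i * b i) - 1‖ < 1 / 2 := by
      by_contra h5
      exact hb ⟨b, h1, h2, h3, not_lt.1 h5⟩
    rw [Fin.sum_univ_three] at h4
    exact dif2_near h4
  have c0 := dif2_chain (u := ξ 0) (d := 1 / 8) (by norm_num) hL fun j _ hj => by
    obtain ⟨m, hm⟩ := hb' ![j, 0, 0] (by simp; linarith) (by simpa using hj) (by simp; linarith)
    refine ⟨m, ?_⟩
    simpa [mul_comm] using hm
  have c1 := dif2_chain (u := ξ 1) (d := 1 / 8) (by norm_num) hL fun j _ hj => by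
    obtain ⟨m, hm⟩ := hb' ![0, j, 0] (by simp; linarith) (by simp; linarith) (by simpa using hj)
    refine ⟨m, ?_⟩
    simpa [mul_comm] using hm
  obtain ⟨w0, hw0⟩ : ∃ w : ℝ, w = ξ 0 - round (ξ 0) := ⟨_, rfl⟩
  obtain ⟨w1, hw1⟩ : ∃ w : ℝ, w = ξ 1 - round (ξ 1) := ⟨_, rfl⟩
  have c2 := dif2_chain (u := w0 * θ.1 + w1 * θ.2 + ξ 2) (d := 1 / 4) le_rfl hM fun j _ hj => by
    have r1 := abs_sub_round (θ.1 * j)
    have r2 := abs_sub_round (θ.2 * j)
    obtain ⟨p, hp⟩ : ∃ p : ℤ, p = round (θ.1 * j) := ⟨_, rfl⟩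
    obtain ⟨q, hq⟩ : ∃ q : ℤ, q = round (θ.2 * j) := ⟨_, rfl⟩
    rw [← hp] at r1
    rw [← hq] at r2
    obtain ⟨m, hm⟩ := hb' ![p, q, j] (by simpa using hj)
      (by
        have : |(p : ℝ) - θ.1 * j| ≤ L0 := by rw [abs_sub_comm]; linarith
        simpa using this)
      (by
        have : |(q : ℝ) - θ.2 * j| ≤ L0 := by rw [abs_sub_comm]; linarith
        simpa using this)
    have hm' : |ξ 0 * p + ξ 1 * q + ξ 2 * j - m| < 1 / 8 := by simpa using hm
    refine ⟨m - round (ξ 0) * p - round (ξ 1) * q, ?_⟩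
    have e : j * (w0 * θ.1 + w1 * θ.2 + ξ 2) - ((m - round (ξ 0) * p - round (ξ 1) * q : ℤ) : ℝ) =
        (ξ 0 * p + ξ 1 * q + ξ 2 * j - m) + (w0 * (θ.1 * j - p) + w1 * (θ.2 * j - q)) := by
      rw [hw0, hw1]; push_cast; ring
    rw [e]
    have a0 : |w0 * (θ.1 * j - p)| ≤ 1 / 8 * (1 / 2) := by
      rw [abs_mul, hw0]
      exact mul_le_mul c0.1.le r1 (abs_nonneg _) (by norm_num)
    have a1 : |w1 * (θ.2 * j - q)| ≤ 1 / 8 * (1 / 2) := by
      rw [abs_mul, hw1]
      exact mul_le_mul c1.1.le r2 (abs_nonneg _) (by norm_num)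
    have t1 := abs_add_le (ξ 0 * p + ξ 1 * q + ξ 2 * j - m)
      (w0 * (θ.1 * j - p) + w1 * (θ.2 * j - q))
    have t2 := abs_add_le (w0 * (θ.1 * j - p)) (w1 * (θ.2 * j - q))
    linarith
  refine ⟨![round (ξ 0), round (ξ 1), round (w0 * θ.1 + w1 * θ.2 + ξ 2)], c0.2, c1.2, ?_⟩
  have e : (ξ 0 - round (ξ 0)) * θ.1 + (ξ 1 - round (ξ 1)) * θ.2 +
      (ξ 2 - round (w0 * θ.1 + w1 * θ.2 + ξ 2)) =
      w0 * θ.1 + w1 * θ.2 + ξ 2 - round (w0 * θ.1 + w1 * θ.2 + ξ 2) := by
    rw [← hw0, ← hw1]; ring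
  have c3 := c2.2
  rw [← e] at c3
  exact c3

/-! ### a monotone sum -/

private theorem dif2_harm (s : Finset ℤ) (J : ℕ) (w : ℤ → ℝ) {c : ℝ} (hc : 0 ≤ c) (f : ℤ → ℤ)
    (hf : Set.InjOn f s) (h1 : ∀ i ∈ s, 1 ≤ f i ∧ f i ≤ 2 * J + 1)
    (hw : ∀ i ∈ s, w i ≤ c / f i) : ∑ i ∈ s, w i ≤ c * (1 + Real.log (2 * J + 1)) := by
  have hinj : Set.InjOn (fun i => (f i).toNat) s := by
    intro a ha b hb hab
    have := h1 a ha
    have := h1 b hb
    simp only at hab
    exact hf ha hb (by omega)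
  have h2 : ∑ i ∈ s, w i ≤ ∑ i ∈ s, c * (((f i).toNat : ℕ) : ℝ)⁻¹ := by
    refine Finset.sum_le_sum fun i hi => ?_
    have e : (((f i).toNat : ℕ) : ℝ) = f i := by
      have : (((f i).toNat : ℕ) : ℤ) = f i := Int.toNat_of_nonneg (by have := h1 i hi; omega)
      exact_mod_cast this
    rw [e, ← div_eq_mul_inv]
    exact hw i hi
  refine h2.trans ?_
  rw [← Finset.mul_sum, ← Finset.sum_image (f := fun m : ℕ => (m : ℝ)⁻¹) hinj]
  refine mul_le_mul_of_nonneg_left ?_ hc
  have h3 := harmonic_le_one_add_log (2 * J + 1)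
  rw [harmonic_eq_sum_Icc] at h3
  push_cast at h3
  refine le_trans (Finset.sum_le_sum_of_subset_of_nonneg ?_ fun _ _ _ => by positivity) h3
  intro m hm
  obtain ⟨i, hi, rfl⟩ := Finset.mem_image.1 hm
  have := h1 i hi
  rw [Finset.mem_Icc]
  omega

theorem sS : SS := by
  intro I J K w d T X Y hd hT hX hY hJ hK hwX hwY
  have hK' : ∀ i ∈ I, ∀ i' ∈ I, i ≤ i' → d * (i' - i) ≤ K i - K i' := by
    intro i hi i' hi' h
    rcases h.eq_or_lt with rfl | h
    · simp
    · exact hK i hi i' hi' h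
  have hTd : d ≤ T * d := by nlinarith
  have hlog : 0 ≤ 1 + Real.log (2 * J + 1) := by
    have : (0 : ℝ) ≤ J := Nat.cast_nonneg J
    have := Real.log_nonneg (show (1 : ℝ) ≤ 2 * J + 1 by linarith)
    linarith
  have hc : 0 ≤ Y / d := by positivity
  have b0 : ∑ i ∈ I.filter (fun i => |K i| < T * d), w i ≤ (2 * T + 1) * X := by
    rcases (I.filter (fun i => |K i| < T * d)).eq_empty_or_nonempty with h | h
    · rw [h, Finset.sum_empty]; positivity
    obtain ⟨a, ha, hamin⟩ := Finset.exists_min_image _ id h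
    obtain ⟨b, hb, hbmax⟩ := Finset.exists_max_image _ id h
    have hsub : I.filter (fun i => |K i| < T * d) ⊆ Finset.Icc a b :=
      fun i hi => Finset.mem_Icc.2 ⟨hamin i hi, hbmax i hi⟩
    have hab : a ≤ b := hamin b hb
    have hcard : ((I.filter (fun i => |K i| < T * d)).card : ℝ) ≤ 2 * T + 1 := by
      have h1 := Finset.card_le_card hsub
      rw [Int.card_Icc] at h1
      have h2 : ((I.filter (fun i => |K i| < T * d)).card : ℤ) ≤ b + 1 - a := by omega
      have h3 : ((I.filter (fun i => |K i| < T * d)).card : ℝ) ≤ b + 1 - a := by exact_mod_cast h2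
      rw [Finset.mem_filter, abs_lt] at ha hb
      have h4 := hK' a ha.1 b hb.1 hab
      have h5 : d * (b - a) ≤ d * (2 * T) := by linarith [ha.2.2, hb.2.1]
      have h6 := le_of_mul_le_mul_left h5 hd
      linarith
    refine le_trans (Finset.sum_le_card_nsmul _ _ X fun i hi => hwX i (Finset.mem_filter.1 hi).1) ?_
    rw [nsmul_eq_mul]
    exact mul_le_mul_of_nonneg_right hcard hX
  have hdiv : ∀ i ∈ I, T * d ≤ |K i| → ∀ z : ℝ, 1 ≤ z → d * z ≤ |K i| → w i ≤ Y / d / z := by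
    intro i hi h1 z hz h2
    refine (hwY i hi h1).trans ?_
    rw [div_div]
    exact div_le_div_of_nonneg_left hY (by positivity) h2
  have b1 : ∑ i ∈ (I.filter (fun i => ¬ |K i| < T * d)).filter (fun i => 0 ≤ K i), w i ≤
      Y / d * (1 + Real.log (2 * J + 1)) := by
    rcases ((I.filter (fun i => ¬ |K i| < T * d)).filter (fun i => 0 ≤ K i)).eq_empty_or_nonempty
      with h | h
    · rw [h, Finset.sum_empty]; positivity
    obtain ⟨b, hb, hbmax⟩ := Finset.exists_max_image _ id h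
    have hb' := hb
    rw [Finset.mem_filter, Finset.mem_filter, not_lt] at hb'
    refine dif2_harm _ J w hc (fun i => 1 + b - i) (fun x _ y _ hxy => ?_) (fun i hi => ?_)
      fun i hi => ?_
    · simp only at hxy
      omega
    · have h1 : i ≤ b := hbmax i hi
      rw [Finset.mem_filter, Finset.mem_filter] at hi
      have h2 := abs_le.1 (hJ i hi.1.1)
      have h3 := abs_le.1 (hJ b hb'.1.1)
      omega
    · have h1 : i ≤ b := hbmax i hi
      have h1' : (i : ℝ) ≤ b := by exact_mod_cast h1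
      rw [Finset.mem_filter, Finset.mem_filter, not_lt] at hi
      push_cast
      refine hdiv i hi.1.1 hi.1.2 _ (by linarith) ?_
      have h2 := hK' i hi.1.1 b hb'.1.1 h1
      have h3 := hb'.1.2
      rw [abs_of_nonneg hb'.2] at h3
      rw [abs_of_nonneg hi.2]
      linarith
  have b2 : ∑ i ∈ (I.filter (fun i => ¬ |K i| < T * d)).filter (fun i => ¬ 0 ≤ K i), w i ≤
      Y / d * (1 + Real.log (2 * J + 1)) := by
    rcases ((I.filter (fun i => ¬ |K i| < T * d)).filter (fun i => ¬ 0 ≤ K i)).eq_empty_or_nonempty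
      with h | h
    · rw [h, Finset.sum_empty]; positivity
    obtain ⟨a, ha, hamin⟩ := Finset.exists_min_image _ id h
    have ha' := ha
    rw [Finset.mem_filter, Finset.mem_filter, not_lt, not_le] at ha'
    refine dif2_harm _ J w hc (fun i => 1 + i - a) (fun x _ y _ hxy => ?_) (fun i hi => ?_)
      fun i hi => ?_
    · simp only at hxy
      omega
    · have h1 : a ≤ i := hamin i hi
      rw [Finset.mem_filter, Finset.mem_filter] at hi
      have h2 := abs_le.1 (hJ i hi.1.1)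
      have h3 := abs_le.1 (hJ a ha'.1.1)
      omega
    · have h1 : a ≤ i := hamin i hi
      have h1' : (a : ℝ) ≤ i := by exact_mod_cast h1
      rw [Finset.mem_filter, Finset.mem_filter, not_lt, not_le] at hi
      push_cast
      refine hdiv i hi.1.1 hi.1.2 _ (by linarith) ?_
      have h2 := hK' a ha'.1.1 i hi.1.1 h1
      have h3 := ha'.1.2
      rw [abs_of_neg ha'.2] at h3
      rw [abs_of_neg hi.2]
      linarith
  rw [← Finset.sum_filter_add_sum_filter_not I (fun i => |K i| < T * d),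
    ← Finset.sum_filter_add_sum_filter_not (I.filter (fun i => ¬ |K i| < T * d))
      (fun i => 0 ≤ K i)]
  linarith

end Pool.Agent.CubH
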