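import Pool.Agent.Lib.MP_d79f69_nt.Iface

/-!
Linearisation of the differenced phase in a complex box.
-/

open Matrix

namespace Pool.Agent.CubH

private theorem exp_G0 (p a : C3) (z : ℂ) : G0c p (z • a) = z * G0c p a := by
  simp only [G0c, t0, sm, Pi.div_apply, Pi.smul_apply, smul_eq_mul]
  ring

private theorem exp_G1 (p a u w : C3) (z s t : ℂ) :
    G1c p a (z • (s • u + t • w)) = z * (s * G1c p a u + t * G1c p a w) := by
  simp only [G1c, t1, sm, d2, Pi.div_apply, Pi.smul_apply, Pi.add_apply, smul_eq_mul]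
  ring

private theorem exp_G2 (p a : C3) (z : ℂ) :
    G2c p (z • a) (z • a) (z • a) = z ^ 3 * G2c p a a a := by
  simp only [G2c, t2, sm, d2, d3, Pi.div_apply, Pi.smul_apply, smul_eq_mul]
  ring

private theorem exp_hv {Q : ℝ} (hQ : 1 ≤ Q) {B : M3} (hB : NearI Q B) (s : ℝ × ℝ) :
    ‖cv (hv B s)‖ ≤ 2 * ‖s‖ := by
  have he : 1 / (64 * Q ^ 2) ≤ 1 / 64 :=
    one_div_le_one_div_of_le (by norm_num) (by nlinarith)
  have n0 := norm_nonneg s
  have s1 : |s.1| ≤ ‖s‖ := norm_fst_le s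
  have s2 : |s.2| ≤ ‖s‖ := norm_snd_le s
  refine (pi_norm_le_iff_of_nonneg (by positivity)).mpr fun i => ?_
  have e : hv B s i = B i 0 * s.1 + B i 1 * s.2 := by
    simp [hv, Matrix.mulVec, dotProduct, Fin.sum_univ_three]
  have b : |B i 0| + |B i 1| ≤ 2 := by
    have a0 := (hB i 0).trans he
    have a1 := (hB i 1).trans he
    have c0 := abs_add_le (B i 0 - if i = 0 then 1 else 0) (if i = 0 then 1 else 0)
    have c1 := abs_add_le (B i 1 - if i = 1 then 1 else 0) (if i = 1 then 1 else 0)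
    rw [sub_add_cancel] at c0 c1
    fin_cases i <;> simp at a0 a1 c0 c1 ⊢ <;> linarith
  rw [cv, Complex.norm_real, Real.norm_eq_abs, e]
  refine (abs_add_le _ _).trans ?_
  rw [abs_mul, abs_mul]
  have m1 := mul_le_mul_of_nonneg_left s1 (abs_nonneg (B i 0))
  have m2 := mul_le_mul_of_nonneg_left s2 (abs_nonneg (B i 1))
  nlinarith

private theorem exp_BY (B : M3) (θ : ℝ × ℝ) (Y : C3) :
    B.map (↑) *ᵥ Y = Y 2 • cv (pp B θ) + ((Y 0 - Y 2 * θ.1) • cv (hv B (1, 0)) +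
      (Y 1 - Y 2 * θ.2) • cv (hv B (0, 1))) := by
  ext i
  simp [cv, pp, hv, Matrix.mulVec, dotProduct, Fin.sum_univ_three]
  ring

private theorem exp_e1 {T Q X H n x : ℝ} (hT : 0 ≤ T) (hX : 0 ≤ X) (hn : 0 < n) (hx0 : 0 ≤ x)
    (hXn : X ≤ 2 * Q * n) (h : H ^ 5 ≤ X ^ 3) (hx : x ≤ H / n) :
    n ^ 2 * (T * x ^ 5) ≤ T * (8 * Q ^ 3) := by
  have a1 : x ^ 5 ≤ (H / n) ^ 5 := pow_le_pow_left₀ hx0 hx 5
  have a2 : X ^ 3 ≤ (2 * Q * n) ^ 3 := pow_le_pow_left₀ hX hXn 3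
  have a3 : n ^ 2 * (H / n) ^ 5 ≤ 8 * Q ^ 3 := by
    have : n ^ 2 * (H / n) ^ 5 = H ^ 5 / n ^ 3 := by field_simp
    rw [this, div_le_iff₀ (by positivity)]
    nlinarith
  have a4 : n ^ 2 * x ^ 5 ≤ 8 * Q ^ 3 :=
    (mul_le_mul_of_nonneg_left a1 (by positivity)).trans a3
  nlinarith [mul_le_mul_of_nonneg_left a4 hT]

private theorem exp_e2 {T Q K X H n u a x : ℝ} (hT : 0 ≤ T) (hH : 0 ≤ H) (hn : 0 < n)
    (hx0 : 0 ≤ x) (hXn : X ≤ 2 * Q * n) (h : H * u ^ 2 ≤ X) (ha : a ≤ 2 * H)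
    (hx : x ≤ 4 * K * u / n) : n * (T * a * x ^ 2) ≤ T * (64 * K ^ 2 * Q) := by
  have a1 : x ^ 2 ≤ (4 * K * u / n) ^ 2 := pow_le_pow_left₀ hx0 hx 2
  have a2 : a * x ^ 2 ≤ 2 * H * (4 * K * u / n) ^ 2 :=
    mul_le_mul ha a1 (by positivity) (by positivity)
  have a3 : n * (2 * H * (4 * K * u / n) ^ 2) ≤ 64 * K ^ 2 * Q := by
    have : n * (2 * H * (4 * K * u / n) ^ 2) = 32 * K ^ 2 * (H * u ^ 2) / n := by
      field_simp
      ring
    rw [this, div_le_iff₀ hn]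
    nlinarith [mul_le_mul_of_nonneg_left (h.trans hXn) (sq_nonneg K)]
  have a4 : n * (a * x ^ 2) ≤ 64 * K ^ 2 * Q :=
    (mul_le_mul_of_nonneg_left a2 hn.le).trans a3
  nlinarith [mul_le_mul_of_nonneg_left a4 hT]

private theorem exp_e3 {T Q K X H n u a x : ℝ} (hT : 0 ≤ T) (hK : 0 ≤ K) (hX : 0 ≤ X)
    (hn : 0 < n) (ha0 : 0 ≤ a) (hx0 : 0 ≤ x) (hXn : X ≤ 2 * Q * n) (h : H ^ 3 * u ≤ X ^ 2)
    (ha : a ≤ 2 * H) (hx : x ≤ 4 * K * u / n) :
    T * a ^ 3 * x / (24 * n) ≤ T * (6 * K * Q ^ 2) := by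
  have hH : 0 ≤ H := by linarith
  have a1 : a ^ 3 ≤ (2 * H) ^ 3 := pow_le_pow_left₀ ha0 ha 3
  have a2 : a ^ 3 * x ≤ (2 * H) ^ 3 * (4 * K * u / n) :=
    mul_le_mul a1 hx hx0 (by positivity)
  have a5 : X ^ 2 ≤ (2 * Q * n) ^ 2 := pow_le_pow_left₀ hX hXn 2
  have a3 : (2 * H) ^ 3 * (4 * K * u / n) ≤ 6 * K * Q ^ 2 * (24 * n) := by
    have : (2 * H) ^ 3 * (4 * K * u / n) = 32 * K * (H ^ 3 * u) / n := by
      field_simp
      ring
    rw [this, div_le_iff₀ hn]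
    have b1 := mul_le_mul_of_nonneg_left (h.trans a5) hK
    have b2 : 0 ≤ K * (Q * n) ^ 2 := by positivity
    nlinarith
  rw [div_le_iff₀ (by positivity)]
  nlinarith [mul_le_mul_of_nonneg_left (a2.trans a3) hT]

private theorem exp_e4 {T Q K X H n r u a x : ℝ} (hT : 0 ≤ T) (hX : 0 ≤ X)
    (hn : 0 < n) (hr : 0 < r) (ha0 : 0 ≤ a) (hx0 : 0 ≤ x) (hXn : X ≤ 2 * Q * n)
    (hXr : X ≤ Q * r) (h : H ^ 3 * u ^ 2 ≤ X ^ 3) (ha : a ≤ 2 * H) (hx : x ≤ K * u) :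
    T * a * a * a * x ^ 2 / (24 * n * r ^ 2) ≤ T * (K ^ 2 * Q ^ 3) := by
  have hH : 0 ≤ H := by linarith
  have a1 : a ^ 3 ≤ (2 * H) ^ 3 := pow_le_pow_left₀ ha0 ha 3
  have a0 : x ^ 2 ≤ (K * u) ^ 2 := pow_le_pow_left₀ hx0 hx 2
  have a2 : a ^ 3 * x ^ 2 ≤ (2 * H) ^ 3 * (K * u) ^ 2 :=
    mul_le_mul a1 a0 (by positivity) (by positivity)
  have a5 : X ^ 2 ≤ (Q * r) ^ 2 := pow_le_pow_left₀ hX hXr 2
  have a6 : X * X ^ 2 ≤ 2 * Q * n * (Q * r) ^ 2 :=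
    mul_le_mul hXn a5 (by positivity) (hX.trans hXn)
  have a7 : H ^ 3 * u ^ 2 ≤ 2 * Q * n * (Q * r) ^ 2 := by nlinarith
  have a3 : (2 * H) ^ 3 * (K * u) ^ 2 ≤ K ^ 2 * Q ^ 3 * (24 * n * r ^ 2) := by
    have b1 := mul_le_mul_of_nonneg_left a7 (sq_nonneg K)
    have b2 : 0 ≤ K ^ 2 * (H ^ 3 * u ^ 2) := by positivity
    nlinarith
  rw [div_le_iff₀ (by positivity)]
  nlinarith [mul_le_mul_of_nonneg_left (a2.trans a3) hT]

private theorem exp_num {Q K X H ρ L n : ℝ} (hQ : 1 ≤ Q) (hK : 1 ≤ K) (hH : 1 ≤ H) (hL : 0 < L)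
    (hn : 0 < n) (hρ : 64 * K * Q ^ 2 ≤ ρ) (i5 : ρ ^ 2 * L ≤ X) (i6 : ρ * H ≤ X)
    (hXn : X ≤ 2 * Q * n) :
    4 * K * (ρ * L) / n ≤ 1 / (4 * (2 * Q)) ∧ H / n ≤ 1 / (4 * (2 * Q)) ∧
      4 * K * (ρ * L) + H < X / (2 * Q) * (1 / Q) := by
  have hQ0 : 0 < Q := by linarith
  have hC0 : 1 ≤ 64 * K * Q ^ 2 := by nlinarith
  have hρ0 : 0 < ρ := by linarith
  have k1 : 64 * K * Q ^ 2 * (ρ * L) ≤ X := by
    have := mul_le_mul_of_nonneg_right hρ (mul_pos hρ0 hL).le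
    nlinarith
  have k2 : 64 * Q ^ 2 * H ≤ X := by
    have b1 : 64 * Q ^ 2 ≤ ρ := by nlinarith
    nlinarith
  have k3 : 0 < Q ^ 2 * H := by positivity
  refine ⟨?_, ?_, ?_⟩
  · rw [div_le_div_iff₀ hn (by positivity)]
    refine le_of_mul_le_mul_left ?_ (show 0 < 2 * Q by positivity)
    linarith
  · rw [div_le_div_iff₀ hn (by positivity)]
    refine le_of_mul_le_mul_left ?_ (show 0 < 2 * Q by positivity)
    linarith
  · rw [div_mul_div_comm, lt_div_iff₀ (by positivity)]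
    linarith

theorem sEx (h1 : SBa) (h2 : STc) : SEx := by
  intro Q c K hQ hK
  obtain ⟨T, hT, hTc⟩ := h2 (2 * Q) (by linarith)
  have hQ0 : 0 < Q := by linarith
  have hC0 : 1 ≤ 64 * K * Q ^ 2 := by nlinarith
  have hC1 : 0 ≤ |c| * (T * (8 * Q ^ 3) + T * (64 * K ^ 2 * Q) + T * (6 * K * Q ^ 2) +
      T * (K ^ 2 * Q ^ 3)) := by positivity
  refine ⟨64 * K * Q ^ 2 + |c| * (T * (8 * Q ^ 3) + T * (64 * K ^ 2 * Q) + T * (6 * K * Q ^ 2) +
    T * (K ^ 2 * Q ^ 3)), by linarith, ?_⟩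
  intro B hB X H ρ L M r h θ hh hH hρ hL hM i1 i2 i3 i4 i5 i6 hD hr1 hr2 Y y1 y2 y3 y4 y5
  have hρ1 : 64 * K * Q ^ 2 ≤ ρ := by linarith
  have hρ0 : 0 < ρ := by linarith
  have hX : 0 < X := lt_of_lt_of_le (by positivity) i6
  have hre : 0 < (Y 2).re := lt_of_lt_of_le (by positivity) y1
  have hy0 : Y 2 ≠ 0 := fun e => by simp [e] at hre
  have hn : 0 < ‖Y 2‖ := norm_pos_iff.mpr hy0
  have hXn : X ≤ 2 * Q * ‖Y 2‖ := by
    have := y1.trans (Complex.re_le_norm _)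
    rw [div_le_iff₀ (by positivity)] at this
    linarith
  have hr0 : 0 < r := lt_of_lt_of_le (by positivity) hr1
  have hXr : X ≤ Q * r := by
    rw [div_le_iff₀ hQ0] at hr1
    linarith
  rw [exp_BY B θ Y]
  obtain ⟨hb0, hb1, hb2, hb3⟩ := h1.1 (pp B θ) (hv B h) (hv B (1, 0)) (hv B h)
    fun i => lt_of_lt_of_le (by positivity) (hD i).1
  have hb2' := (h1.1 (pp B θ) (hv B h) (hv B (0, 1)) (hv B h)
    fun i => lt_of_lt_of_le (by positivity) (hD i).1).2.2.1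
  have hb3' := (h1.1 (pp B θ) (hv B h) (hv B h) (hv B h)
    fun i => lt_of_lt_of_le (by positivity) (hD i).1).2.2.2
  have ha : ‖cv (hv B h)‖ ≤ 2 * H := hh ▸ exp_hv hQ hB h
  have he0 : ‖cv (hv B (1, 0))‖ ≤ 2 := by simpa using exp_hv hQ hB (1, 0)
  have he1 : ‖cv (hv B (0, 1))‖ ≤ 2 := by simpa using exp_hv hQ hB (0, 1)
  simp only [GG, kap, gA, gB]
  push_cast
  rw [← hb1, ← hb2, ← hb2', ← hb3']
  generalize Y 0 - Y 2 * θ.1 = s0 at *
  generalize Y 1 - Y 2 * θ.2 = s1 at *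
  generalize Y 2 = y at *
  generalize cv (hv B h) = a at *
  generalize cv (hv B (1, 0)) = e0 at *
  generalize cv (hv B (0, 1)) = e1 at *
  have hpr : ∀ i, (cv (pp B θ) i).im = 0 ∧ 1 / Q ≤ (cv (pp B θ) i).re ∧ ‖cv (pp B θ) i‖ ≤ Q := by
    intro i
    refine ⟨by simp [cv], by simpa [cv] using (hD i).1, ?_⟩
    rw [cv, Complex.norm_real, Real.norm_eq_abs,
      abs_of_pos (lt_of_lt_of_le (by positivity) (hD i).1)]
    exact (hD i).2
  generalize cv (pp B θ) = pc at *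
  have hw : ‖s0 • e0 + s1 • e1‖ ≤ 4 * K * (ρ * L) := by
    refine (norm_add_le _ _).trans ?_
    rw [norm_smul, norm_smul]
    have m0 := mul_le_mul y4 he0 (norm_nonneg _) (by positivity)
    have m1 := mul_le_mul y5 he1 (norm_nonneg _) (by positivity)
    linarith
  have hδ : ‖y⁻¹ • (s0 • e0 + s1 • e1)‖ ≤ 4 * K * (ρ * L) / ‖y‖ := by
    rw [norm_smul, norm_inv, inv_mul_eq_div]
    exact div_le_div_of_nonneg_right hw hn.le
  have hv' : ‖(2 * y)⁻¹ • a‖ ≤ H / ‖y‖ := by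
    rw [norm_smul, norm_inv, inv_mul_eq_div, norm_mul, Complex.norm_ofNat, div_le_div_iff₀
      (by positivity) hn]
    linarith [mul_le_mul_of_nonneg_right ha hn.le]
  obtain ⟨k1, k2, b6⟩ := exp_num hQ hK hH hL hn hρ1 i5 i6 hXn
  have hδ1 := hδ.trans k1
  have hv1 := hv'.trans k2
  have q1 : 1 / (4 * (2 * Q)) = 1 / Q / 8 := by field_simp; norm_num
  have q2 : 1 / (2 * Q) = 1 / Q / 2 := by field_simp
  have q3 : 1 / Q ≤ Q := ((div_le_one hQ0).mpr hQ).trans hQ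
  have q4 : 0 < 1 / Q := by positivity
  have hre' : ∀ (u : C3) (i : Fin 3), |(u i).re| ≤ ‖u‖ := fun u i =>
    (Complex.abs_re_le_norm _).trans (norm_le_pi_norm u i)
  have hDpc : Dc (2 * Q) pc := fun i => ⟨by linarith [(hpr i).2.1], by linarith [(hpr i).2.2]⟩
  have hDp : Dc (2 * Q) (pc + y⁻¹ • (s0 • e0 + s1 • e1)) := by
    intro i
    have b1 := abs_le.mp (hre' (y⁻¹ • (s0 • e0 + s1 • e1)) i)
    have b2 := norm_le_pi_norm (y⁻¹ • (s0 • e0 + s1 • e1)) i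
    have b3 := norm_add_le (pc i) ((y⁻¹ • (s0 • e0 + s1 • e1)) i)
    rw [Pi.add_apply, Complex.add_re]
    exact ⟨by linarith [(hpr i).2.1, b1.1], by linarith [(hpr i).2.2]⟩
  refine ⟨fun i => ?_, ?_⟩
  · have b1 := abs_le.mp (hre' (s0 • e0 + s1 • e1) i)
    have b2 := abs_le.mp (hre' ((1 / 2 : ℂ) • a) i)
    have b3 : ‖(1 / 2 : ℂ) • a‖ ≤ H := by
      rw [norm_smul]
      norm_num
      linarith
    have b4 : ((y • pc) i).re = y.re * (pc i).re := by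
      rw [Pi.smul_apply, smul_eq_mul, Complex.mul_re, (hpr i).1, mul_zero, sub_zero]
    have b5 : X / (2 * Q) * (1 / Q) ≤ y.re * (pc i).re :=
      mul_le_mul y1 (hpr i).2.1 q4.le hre.le
    simp only [Pi.add_apply (y • pc + (s0 • e0 + s1 • e1)), Pi.sub_apply, Pi.add_apply (y • pc),
      Complex.add_re, Complex.sub_re, b4]
    constructor <;> linarith [b1.1, b2.1, b2.2]
  · have f1 : y • pc + (s0 • e0 + s1 • e1) + (1 / 2 : ℂ) • a =
        y • (pc + y⁻¹ • (s0 • e0 + s1 • e1) + (2 * y)⁻¹ • a) := by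
      ext i
      simp only [Pi.add_apply, Pi.smul_apply, smul_eq_mul]
      field_simp
    have f2 : y • pc + (s0 • e0 + s1 • e1) - (1 / 2 : ℂ) • a =
        y • (pc + y⁻¹ • (s0 • e0 + s1 • e1) - (2 * y)⁻¹ • a) := by
      ext i
      simp only [Pi.add_apply, Pi.sub_apply, Pi.smul_apply, smul_eq_mul]
      field_simp
    have g1 := ((hTc _ hDp a ((2 * y)⁻¹ • a) a).2 hv1).2.1
    have g2 := ((hTc _ hDpc a _ a).2 hδ1).2.2.1
    have g3 := ((hTc _ hDpc a _ a).2 hδ1).2.2.2.2.2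
    have g4 := (hTc _ hDpc a a a).1.2.2.2
    rw [exp_G0, exp_G2] at g1
    rw [exp_G1] at g2
    rw [f1, f2, h1.2.1 y _ hre fun i => ?_, h1.2.1 y _ hre fun i => ?_]
    · generalize pc + y⁻¹ • (s0 • e0 + s1 • e1) = p at *
      have hr : (r : ℂ) ≠ 0 := by exact_mod_cast hr0.ne'
      have e : c * (y ^ 2 * phc (p + (2 * y)⁻¹ • a) - y ^ 2 * phc (p - (2 * y)⁻¹ • a)) -
          (y * (c * G0c pc a - c * G2c pc a a a / (24 * r ^ 2)) + c * G1c pc a e0 * s0 +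
            c * G1c pc a e1 * s1) - c * G2c pc a a a / (12 * r) =
          c * (y ^ 2 * (phc (p + (2 * y)⁻¹ • a) - phc (p - (2 * y)⁻¹ • a) -
              2 * ((2 * y)⁻¹ * G0c p a) - (2 * y)⁻¹ ^ 3 * G2c p a a a / 3) +
            y * (G0c p a - G0c pc a - y⁻¹ * (s0 * G1c pc a e0 + s1 * G1c pc a e1)) +
            (G2c p a a a - G2c pc a a a) / (24 * y) +
            G2c pc a a a * (y - r) ^ 2 / (24 * y * r ^ 2)) := by
        field_simp
        ring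
      rw [e, norm_mul, Complex.norm_real, Real.norm_eq_abs]
      refine le_trans (mul_le_mul_of_nonneg_left ?_ (abs_nonneg c)) (le_add_of_nonneg_left
        (by linarith))
      refine norm_add_le_of_le (norm_add_le_of_le (norm_add_le_of_le ?_ ?_) ?_) ?_
      · rw [norm_mul, norm_pow]
        exact (mul_le_mul_of_nonneg_left g1 (by positivity)).trans
          (exp_e1 hT.le hX.le hn (norm_nonneg _) hXn i3 hv')
      · rw [norm_mul]
        exact (mul_le_mul_of_nonneg_left g2 hn.le).trans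
          (exp_e2 hT.le (by linarith) hn (norm_nonneg _) hXn (by linarith) ha hδ)
      · rw [norm_div, norm_mul, Complex.norm_ofNat]
        exact (div_le_div_of_nonneg_right g3 (by positivity)).trans
          (exp_e3 hT.le (by linarith) hX.le hn (norm_nonneg _) (norm_nonneg _) hXn
            (by linarith) ha hδ)
      · rw [norm_div, norm_mul, norm_mul, norm_mul, norm_pow, norm_pow, Complex.norm_ofNat,
          Complex.norm_real, Real.norm_eq_abs, abs_of_pos hr0]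
        exact (div_le_div_of_nonneg_right (mul_le_mul_of_nonneg_right g4 (by positivity))
          (by positivity)).trans
          (exp_e4 (u := ρ * M) hT.le hX.le hn hr0 (norm_nonneg _) (norm_nonneg _) hXn hXr
            (by linarith) ha (by linarith))
    · have b1 := abs_le.mp (hre' ((2 * y)⁻¹ • a) i)
      rw [Pi.sub_apply, Complex.sub_re]
      linarith [(hDp i).1, b1.2]
    · have b1 := abs_le.mp (hre' ((2 * y)⁻¹ • a) i)
      rw [Pi.add_apply, Complex.add_re]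
      linarith [(hDp i).1, b1.1]

end Pool.Agent.CubH
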