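import Pool.Agent.Lib.MP_d79f69_nt.Iface

/-!
Geometry of the phase for a matrix close to the identity.
-/

open Matrix

namespace Pool.Agent.CubH

/-- product of the centred coordinates -/
noncomputable def geC (u : V3) : ℝ := (u 0 - sm u / 3) * (u 1 - sm u / 3) * (u 2 - sm u / 3)

/-- sum of squares of the centred coordinates -/
noncomputable def geN (u : V3) : ℝ :=
  (u 0 - sm u / 3) ^ 2 + (u 1 - sm u / 3) ^ 2 + (u 2 - sm u / 3) ^ 2

/-- logarithmic form of the derivative of `KK` -/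
noncomputable def geD (u v : V3) : ℝ :=
  2 * sm v * geC u + ((d2 u v / 3 - u 0 * v 0) * (u 1 - sm u / 3) * (u 2 - sm u / 3) +
    (d2 u v / 3 - u 1 * v 1) * (u 0 - sm u / 3) * (u 2 - sm u / 3) +
    (d2 u v / 3 - u 2 * v 2) * (u 0 - sm u / 3) * (u 1 - sm u / 3))

theorem geKK (p a : V3) : KK p a = (p 0 * p 1 * p 2) ^ 2 * geC (a / p) := rfl

theorem geDeriv (p a b : V3) (s : ℝ) (h : ∀ i, (p + s • b) i ≠ 0) :
    HasDerivAt (fun t : ℝ => KK (p + t • b) a)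
      (((p + s • b) 0 * (p + s • b) 1 * (p + s • b) 2) ^ 2 *
        geD (a / (p + s • b)) (b / (p + s • b))) s := by
  have hq0 : ∀ i, HasDerivAt (fun t : ℝ => (p + t • b) i) (b i) s := fun i => by
    simpa using ((hasDerivAt_id s).mul_const (b i)).const_add (p i)
  have hq : ∀ i, HasDerivAt (fun t : ℝ => (p + t • b) i)
      ((p + s • b) i * (b / (p + s • b)) i) s := fun i => by
    rw [Pi.div_apply, mul_div_cancel₀ _ (h i)]
    exact hq0 i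
  have hu : ∀ i, HasDerivAt (fun t : ℝ => (a / (p + t • b)) i)
      (-((a / (p + s • b)) i * (b / (p + s • b)) i)) s := fun i => by
    have h1 := (hasDerivAt_const s (a i)).fun_div (hq0 i) (h i)
    refine h1.congr_deriv ?_
    have h2 := h i
    simp only [Pi.div_apply]
    field_simp
    ring
  have hs := (((hu 0).fun_add (hu 1)).fun_add (hu 2)).div_const 3
  have h1 := ((((hq 0).fun_mul (hq 1)).fun_mul (hq 2)).fun_pow 2).fun_mul
    ((((hu 0).fun_sub hs).fun_mul ((hu 1).fun_sub hs)).fun_mul ((hu 2).fun_sub hs))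
  refine h1.congr_deriv ?_
  generalize a / (p + s • b) = u
  generalize b / (p + s • b) = v
  generalize p + s • b = q
  simp only [geD, geC, sm, d2]
  push_cast
  ring

theorem gePos {P : ℝ} (hP : 1 ≤ P) {p : V3} (h : Dr P p) (i : Fin 3) : 0 < p i :=
  lt_of_lt_of_le (by positivity) (h i).1

theorem geMV {P : ℝ} (hP : 1 ≤ P) (p a b : V3) (h : Dr P p) (h' : Dr P (p + b)) :
    ∃ q, Dr P q ∧ KK (p + b) a - KK p a = (q 0 * q 1 * q 2) ^ 2 * geD (a / q) (b / q) := by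
  have h1 : ∀ s ∈ Set.Icc (0 : ℝ) 1, Dr P (p + s • b) := fun s hs i => by
    have h2 := h i
    have h3 := h' i
    simp only [Pi.add_apply, Pi.smul_apply, smul_eq_mul] at h3 ⊢
    constructor
    · nlinarith [mul_nonneg hs.1 (sub_nonneg.2 h3.1), mul_nonneg (sub_nonneg.2 hs.2) (sub_nonneg.2 h2.1)]
    · nlinarith [mul_nonneg hs.1 (sub_nonneg.2 h3.2), mul_nonneg (sub_nonneg.2 hs.2) (sub_nonneg.2 h2.2)]
  have h2 := fun s (hs : s ∈ Set.Icc (0 : ℝ) 1) =>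
    geDeriv p a b s fun i => (gePos hP (h1 s hs) i).ne'
  obtain ⟨s, hs, h3⟩ := exists_hasDerivAt_eq_slope (fun t : ℝ => KK (p + t • b) a) _ zero_lt_one
    (fun s hs => (h2 s hs).continuousAt.continuousWithinAt)
    (fun s hs => h2 s (Set.Ioo_subset_Icc_self hs))
  refine ⟨_, h1 s (Set.Ioo_subset_Icc_self hs), ?_⟩
  rw [h3]
  simp

theorem geProd {P : ℝ} (hP : 1 ≤ P) {p : V3} (h : Dr P p) :
    1 / P ^ 3 ≤ p 0 * p 1 * p 2 ∧ p 0 * p 1 * p 2 ≤ P ^ 3 := by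
  have h0 := gePos hP h
  have h1 := h0 0
  have h2 := h0 1
  have h3 := h0 2
  constructor
  · calc 1 / P ^ 3 = 1 / P * (1 / P) * (1 / P) := by ring
      _ ≤ _ := by gcongr <;> exact (h _).1
  · calc _ ≤ P * P * P := by gcongr <;> exact (h _).2
      _ = _ := by ring

theorem gePh {P : ℝ} (hP : 1 ≤ P) {p : V3} (h : Dr P p) : 1 / P ^ 3 ≤ ph p := by
  have h1 : (0 : ℝ) < 1 / P ^ 3 := by positivity
  have h2 : 1 / P ^ 3 ≤ 1 := (div_le_one (by positivity)).2 (one_le_pow₀ hP)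
  calc 1 / P ^ 3 = (1 / P ^ 3) ^ (1 : ℝ) := (Real.rpow_one _).symm
    _ ≤ (1 / P ^ 3) ^ ((2 : ℝ) / 3) := Real.rpow_le_rpow_of_exponent_ge h1 h2 (by norm_num)
    _ ≤ _ := Real.rpow_le_rpow h1.le (geProd hP h).1 (by norm_num)

theorem geDivLe {P : ℝ} (hP : 1 ≤ P) {p : V3} (h : Dr P p) (a : V3) (i : Fin 3) :
    |(a / p) i| ≤ P * |a i| := by
  have h0 := gePos hP h i
  have h1 := (div_le_iff₀ (by positivity)).1 (h i).1
  rw [Pi.div_apply, abs_div, abs_of_pos h0, div_le_iff₀ h0]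
  nlinarith [abs_nonneg (a i)]

theorem geDivGe {P : ℝ} (hP : 1 ≤ P) {p : V3} (h : Dr P p) (a : V3) (i : Fin 3) :
    |a i| ≤ P * |(a / p) i| := by
  have h0 := gePos hP h i
  rw [Pi.div_apply, abs_div, abs_of_pos h0, ← mul_div_assoc, le_div_iff₀ h0]
  nlinarith [abs_nonneg (a i), (h i).2]

theorem geDLe {u v : V3} {α β : ℝ} (hu : ∀ i, |u i| ≤ α) (hv : ∀ i, |v i| ≤ β) :
    |geD u v| ≤ 72 * α ^ 3 * β := by
  have hα : 0 ≤ α := (abs_nonneg _).trans (hu 0)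
  have hβ : 0 ≤ β := (abs_nonneg _).trans (hv 0)
  have h1 : ∀ i, |u i - sm u / 3| ≤ 2 * α := fun i => by
    have := abs_le.1 (hu 0)
    have := abs_le.1 (hu 1)
    have := abs_le.1 (hu 2)
    have := abs_le.1 (hu i)
    rw [sm, abs_le]
    constructor <;> linarith
  have h2 : |sm v| ≤ 3 * β := by
    have := abs_le.1 (hv 0)
    have := abs_le.1 (hv 1)
    have := abs_le.1 (hv 2)
    rw [sm, abs_le]
    constructor <;> linarith
  have h3 : ∀ i, |u i * v i| ≤ α * β := fun i => by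
    rw [abs_mul]
    exact mul_le_mul (hu i) (hv i) (abs_nonneg _) hα
  have h4 : ∀ i, |d2 u v / 3 - u i * v i| ≤ 2 * (α * β) := fun i => by
    have := abs_le.1 (h3 0)
    have := abs_le.1 (h3 1)
    have := abs_le.1 (h3 2)
    have := abs_le.1 (h3 i)
    rw [d2, abs_le]
    constructor <;> linarith
  have h5 : ∀ i j k, |(d2 u v / 3 - u i * v i) * (u j - sm u / 3) * (u k - sm u / 3)| ≤
      2 * (α * β) * (2 * α) * (2 * α) := fun i j k => by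
    rw [abs_mul, abs_mul]
    gcongr
    exacts [h4 i, h1 j, h1 k]
  have h6 : |2 * sm v * geC u| ≤ 2 * (3 * β) * (2 * α * (2 * α) * (2 * α)) := by
    rw [geC, abs_mul, abs_mul, abs_mul, abs_mul, abs_two]
    gcongr
    exacts [h1 0, h1 1, h1 2]
  have := abs_le.1 (h5 0 1 2)
  have := abs_le.1 (h5 1 0 2)
  have := abs_le.1 (h5 2 0 1)
  have := abs_le.1 h6
  rw [geD, abs_le]
  constructor <;> nlinarith

theorem geHv (B : M3) (s : ℝ × ℝ) (i : Fin 3) : hv B s i = B i 0 * s.1 + B i 1 * s.2 := by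
  simp [hv, mulVec, dotProduct, Fin.sum_univ_three]

theorem gePp (B : M3) (s : ℝ × ℝ) (i : Fin 3) :
    pp B s i = B i 0 * s.1 + B i 1 * s.2 + B i 2 := by
  simp [pp, mulVec, dotProduct, Fin.sum_univ_three]

theorem gePpAdd (B : M3) (s t : ℝ × ℝ) : pp B (s + t) = pp B s + hv B t := by
  ext i
  simp only [gePp, geHv, Pi.add_apply, Prod.fst_add, Prod.snd_add]
  ring

theorem geEps {Q : ℝ} (hQ : 1 ≤ Q) : 1 / (64 * Q ^ 2) ≤ 1 / 64 := by
  have := one_le_pow₀ (n := 2) hQ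
  gcongr
  linarith

/-- `hv B s` is close to `(s.1, s.2, 0)`. -/
theorem geHvNear {Q : ℝ} {B : M3} (hB : NearI Q B) (s : ℝ × ℝ) :
    |hv B s 0 - s.1| ≤ 1 / (64 * Q ^ 2) * (|s.1| + |s.2|) ∧
    |hv B s 1 - s.2| ≤ 1 / (64 * Q ^ 2) * (|s.1| + |s.2|) ∧
    |hv B s 2| ≤ 1 / (64 * Q ^ 2) * (|s.1| + |s.2|) := by
  have h : ∀ x y : ℝ, |x| ≤ 1 / (64 * Q ^ 2) → |y| ≤ 1 / (64 * Q ^ 2) →
      |x * s.1 + y * s.2| ≤ 1 / (64 * Q ^ 2) * (|s.1| + |s.2|) := fun x y hx hy => by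
    refine (abs_add_le _ _).trans ?_
    rw [abs_mul, abs_mul, mul_add]
    gcongr
  refine ⟨?_, ?_, ?_⟩
  · have := h _ _ (hB 0 0) (hB 0 1)
    refine le_of_eq_of_le (congrArg abs ?_) this
    simp [geHv]
    ring
  · have := h _ _ (hB 1 0) (hB 1 1)
    refine le_of_eq_of_le (congrArg abs ?_) this
    simp [geHv]
    ring
  · have := h _ _ (hB 2 0) (hB 2 1)
    refine le_of_eq_of_le (congrArg abs ?_) this
    simp [geHv]

theorem geFst (s : ℝ × ℝ) : |s.1| ≤ ‖s‖ := norm_fst_le s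

theorem geSnd (s : ℝ × ℝ) : |s.2| ≤ ‖s‖ := norm_snd_le s

theorem geNorm (s : ℝ × ℝ) : ‖s‖ = |s.1| ∨ ‖s‖ = |s.2| := max_choice _ _

theorem geHvNear' {Q : ℝ} (hQ : 1 ≤ Q) {B : M3} (hB : NearI Q B) (s : ℝ × ℝ) :
    |hv B s 0 - s.1| ≤ ‖s‖ / 32 ∧ |hv B s 1 - s.2| ≤ ‖s‖ / 32 ∧ |hv B s 2| ≤ ‖s‖ / 32 := by
  obtain ⟨h0, h1, h2⟩ := geHvNear hB s
  have h3 : 1 / (64 * Q ^ 2) * (|s.1| + |s.2|) ≤ 1 / 64 * (‖s‖ + ‖s‖) := by
    gcongr
    exacts [by nlinarith, geFst s, geSnd s]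
  exact ⟨by linarith, by linarith, by linarith⟩

theorem geHvLe {Q : ℝ} (hQ : 1 ≤ Q) {B : M3} (hB : NearI Q B) (s : ℝ × ℝ) (i : Fin 3) :
    |hv B s i| ≤ 2 * ‖s‖ := by
  obtain ⟨h0, h1, h2⟩ := geHvNear' hQ hB s
  have h3 := abs_le.1 (geFst s)
  have h4 := abs_le.1 (geSnd s)
  have h5 := norm_nonneg s
  rw [abs_le] at h0 h1 h2 ⊢
  fin_cases i <;> constructor <;> simp only [Fin.zero_eta, Fin.mk_one, Fin.reduceFinMk] <;> linarith

theorem geSmall {Q H : ℝ} (hQ : 1 ≤ Q) {p a : V3} (h : Dr (2 * Q) p) (i : Fin 3)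
    (ha : |a i| ≤ 1 / (64 * Q ^ 2) * (2 * H)) : 16 * Q * |(a / p) i| ≤ H := by
  have h1 := geDivLe (by linarith) h a i
  calc 16 * Q * |(a / p) i| ≤ 16 * Q * (2 * Q * (1 / (64 * Q ^ 2) * (2 * H))) := by
        gcongr
        exact h1.trans (by gcongr)
    _ = H := by
        field_simp
        norm_num

theorem geNGe {Q : ℝ} (hQ : 1 ≤ Q) {B : M3} (hB : NearI Q B) {p : V3} (hp : Dr (2 * Q) p)
    (h : ℝ × ℝ) : ‖h‖ ^ 2 ≤ 32 * Q ^ 2 * geN (hv B h / p) := by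
  obtain ⟨h0, h1, -⟩ := geHvNear' hQ hB h
  have h2 := geSmall (H := ‖h‖) hQ hp 2 ((geHvNear hB h).2.2.trans (by
    gcongr
    linarith [geFst h, geSnd h]))
  have h3 := geDivGe (by linarith) hp (hv B h)
  have h4 : ∀ i, 31 / 32 * ‖h‖ ≤ |hv B h i| →
      ‖h‖ ^ 2 ≤ 16 * Q ^ 2 * ((hv B h / p) i - (hv B h / p) 2) ^ 2 := fun i hi => by
    have h5 := mul_le_mul_of_nonneg_left
      (abs_sub_abs_le_abs_sub ((hv B h / p) i) ((hv B h / p) 2)) (by linarith : 0 ≤ Q)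
    have h6 : ‖h‖ ≤ 4 * Q * |(hv B h / p) i - (hv B h / p) 2| := by
      linarith [h3 i, norm_nonneg h]
    calc _ ≤ (4 * Q * |(hv B h / p) i - (hv B h / p) 2|) ^ 2 := by gcongr
      _ = _ := by rw [mul_pow, sq_abs]; ring
  have h5 : ∀ u : V3, (u 0 - u 2) ^ 2 ≤ 2 * geN u ∧ (u 1 - u 2) ^ 2 ≤ 2 * geN u := fun u => by
    simp only [geN, sm]
    constructor
    · nlinarith [sq_nonneg (u 0 + u 2 - 2 * u 1)]
    · nlinarith [sq_nonneg (u 1 + u 2 - 2 * u 0)]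
  have h6 : 0 ≤ 16 * Q ^ 2 := by positivity
  rcases geNorm h with e | e
  · have h7 := h4 0 (by linarith [abs_sub_abs_le_abs_sub h.1 (hv B h 0), abs_sub_comm h.1 (hv B h 0)])
    linarith [mul_le_mul_of_nonneg_left (h5 (hv B h / p)).1 h6]
  · have h7 := h4 1 (by linarith [abs_sub_abs_le_abs_sub h.2 (hv B h 1), abs_sub_comm h.2 (hv B h 1)])
    linarith [mul_le_mul_of_nonneg_left (h5 (hv B h / p)).2 h6]

theorem geCGe0 {H x y z : ℝ} (hx : 7 * H ≤ |x|) (hy : |y| ≤ H) (hz : |z| ≤ H) :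
    H ^ 3 ≤ |(x - (x + y + z) / 3) * (y - (x + y + z) / 3) * (z - (x + y + z) / 3)| := by
  have hH : 0 ≤ H := (abs_nonneg _).trans hy
  rw [abs_le] at hy hz
  have h : H ≤ |x - (x + y + z) / 3| ∧ H ≤ |y - (x + y + z) / 3| ∧ H ≤ |z - (x + y + z) / 3| := by
    simp only [le_abs] at hx ⊢
    rcases hx with hx | hx
    · exact ⟨Or.inl (by linarith), Or.inr (by linarith), Or.inr (by linarith)⟩
    · exact ⟨Or.inr (by linarith), Or.inl (by linarith), Or.inl (by linarith)⟩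
  rw [abs_mul, abs_mul]
  calc H ^ 3 = H * H * H := by ring
    _ ≤ _ := by
      gcongr
      exacts [h.1, h.2.1, h.2.2]

theorem geCGe {Q : ℝ} (hQ : 1 ≤ Q) {B : M3} (hB : NearI Q B) {p : V3} (hp : Dr (2 * Q) p)
    {h : ℝ × ℝ} (hg : Good Q h) : ‖h‖ ^ 3 ≤ (16 * Q) ^ 3 * |geC (hv B h / p)| := by
  have hQ2 := one_le_pow₀ (n := 2) hQ
  have hg1 : 128 * |h.2| ≤ |h.1| := le_trans (by nlinarith [abs_nonneg h.2]) hg
  have e : ‖h‖ = |h.1| := max_eq_left (by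
    change |h.2| ≤ |h.1|
    linarith [abs_nonneg h.2])
  have hε : (0 : ℝ) < 1 / (64 * Q ^ 2) := by positivity
  have hg2 : |h.2| ≤ 1 / (64 * Q ^ 2) * (|h.1| / 2) := by
    rw [one_div, inv_mul_eq_div, le_div_iff₀ (by positivity)]
    rw [Good] at hg
    linarith
  have h0 := (geHvNear' hQ hB h).1
  have h2 := geSmall (H := ‖h‖) hQ hp 2 ((geHvNear hB h).2.2.trans (by
    gcongr
    linarith [geFst h, geSnd h]))
  have h1 := geSmall (H := ‖h‖) (a := hv B h) hQ hp 1 (by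
    have h3 := (geHvNear hB h).2.1
    have h4 := abs_sub_abs_le_abs_sub (hv B h 1) h.2
    have h5 := mul_le_mul_of_nonneg_left hg1 hε.le
    have h6 := mul_nonneg hε.le (abs_nonneg h.1)
    rw [e]
    linarith)
  have h3 := geDivGe (by linarith) hp (hv B h) 0
  have h4 : 0 < 16 * Q := by linarith
  have h5 := geCGe0 (H := ‖h‖) (x := 16 * Q * (hv B h / p) 0) (y := 16 * Q * (hv B h / p) 1)
    (z := 16 * Q * (hv B h / p) 2)
    (by
      rw [abs_mul, abs_of_pos h4]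
      linarith [abs_sub_abs_le_abs_sub h.1 (hv B h 0), abs_sub_comm h.1 (hv B h 0), norm_nonneg h])
    (by rwa [abs_mul, abs_of_pos h4]) (by rwa [abs_mul, abs_of_pos h4])
  refine h5.trans_eq ?_
  rw [← abs_of_pos (pow_pos h4 3), ← abs_mul, geC, sm]
  congr 1
  ring

theorem geKap (B : M3) (c : ℝ) (h θ : ℝ × ℝ) :
    kap B c h θ = 4 * c * ph (pp B θ) * geC (hv B h / pp B θ) := by
  simp only [kap, G2, t2, geC, sm, d2, d3]
  ring

theorem geCLe {P c : ℝ} (hP : 1 ≤ P) (hc : c ≠ 0) {B : M3} {h θ : ℝ × ℝ} (hp : Dr P (pp B θ)) :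
    |geC (hv B h / pp B θ)| ≤ P ^ 3 / |c| * |kap B c h θ| := by
  have h1 := gePh hP hp
  have h2 : 0 < ph (pp B θ) := lt_of_lt_of_le (by positivity) h1
  have h3 := abs_pos.2 hc
  rw [div_le_iff₀ (by positivity)] at h1
  rw [geKap, abs_mul, abs_mul, abs_mul, abs_of_pos h2, abs_of_pos (by norm_num : (0 : ℝ) < 4)]
  calc |geC (hv B h / pp B θ)| = 1 * 1 * |geC (hv B h / pp B θ)| := by ring
    _ ≤ 4 * (ph (pp B θ) * P ^ 3) * |geC (hv B h / pp B θ)| := by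
        gcongr
        norm_num
    _ = _ := by field_simp

theorem geDet {Q : ℝ} (hQ : 1 ≤ Q) {B : M3} (hB : NearI Q B) : 1 / 2 ≤ B.det := by
  have h := fun i j => (hB i j).trans (geEps hQ)
  have h00 := abs_le.1 (h 0 0)
  have h11 := abs_le.1 (h 1 1)
  have h22 := abs_le.1 (h 2 2)
  have h' : ∀ i j, i ≠ j → |B i j| ≤ 1 / 64 := fun i j e => by
    have := h i j
    rwa [if_neg e, sub_zero] at this
  have h01 := h' 0 1 (by decide)
  have h02 := h' 0 2 (by decide)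
  have h10 := h' 1 0 (by decide)
  have h12 := h' 1 2 (by decide)
  have h20 := h' 2 0 (by decide)
  have h21 := h' 2 1 (by decide)
  simp only [if_true] at h00 h11 h22
  have d0 : |B 0 0| ≤ 2 := abs_le.2 ⟨by linarith, by linarith⟩
  have d1 : |B 1 1| ≤ 2 := abs_le.2 ⟨by linarith, by linarith⟩
  have d2 : |B 2 2| ≤ 2 := abs_le.2 ⟨by linarith, by linarith⟩
  have m : ∀ {x y z a b c : ℝ}, |x| ≤ a → |y| ≤ b → |z| ≤ c → |x * y * z| ≤ a * b * c :=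
    fun hx hy hz => by
      have := (abs_nonneg _).trans hx
      have := (abs_nonneg _).trans hy
      rw [abs_mul, abs_mul]
      gcongr
  have e0 : 63 / 64 * (63 / 64) * (63 / 64) ≤ B 0 0 * B 1 1 * B 2 2 := by
    gcongr <;> first | linarith | (apply mul_nonneg <;> linarith)
  have e1 := abs_le.1 (m d0 h12 h21)
  have e2 := abs_le.1 (m h01 h10 d2)
  have e3 := abs_le.1 (m h01 h12 h20)
  have e4 := abs_le.1 (m h02 h10 h21)
  have e5 := abs_le.1 (m h02 d1 h20)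
  rw [det_fin_three]
  linarith

theorem geT2 (u v w : V3) : t2 u v v * t2 u w w - t2 u v w ^ 2 =
    -(8 / 81) * geN u * (v 0 * (w 1 - w 2) + v 1 * (w 2 - w 0) + v 2 * (w 0 - w 1)) ^ 2 := by
  simp only [t2, geN, sm, d2, d3]
  ring

theorem geAA (B : M3) (c : ℝ) (h θ : ℝ × ℝ) (hp : ∀ i, pp B θ i ≠ 0) :
    AA B c h θ (1, 0) (1, 0) * AA B c h θ (0, 1) (0, 1) - AA B c h θ (1, 0) (0, 1) ^ 2 =
      -(8 / 81 * (c * ph (pp B θ)) ^ 2 * geN (hv B h / pp B θ) *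
        (B.det / (pp B θ 0 * pp B θ 1 * pp B θ 2)) ^ 2) := by
  have h1 := geT2 (hv B h / pp B θ) (hv B (1, 0) / pp B θ) (hv B (0, 1) / pp B θ)
  have h2 : (hv B (1, 0) / pp B θ) 0 * ((hv B (0, 1) / pp B θ) 1 - (hv B (0, 1) / pp B θ) 2) +
      (hv B (1, 0) / pp B θ) 1 * ((hv B (0, 1) / pp B θ) 2 - (hv B (0, 1) / pp B θ) 0) +
      (hv B (1, 0) / pp B θ) 2 * ((hv B (0, 1) / pp B θ) 0 - (hv B (0, 1) / pp B θ) 1) =
      B.det / (pp B θ 0 * pp B θ 1 * pp B θ 2) := by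
    have := hp 0
    have := hp 1
    have := hp 2
    simp only [Pi.div_apply, geHv, mul_one, mul_zero, add_zero, zero_add]
    field_simp
    simp only [gePp, det_fin_three]
    ring
  rw [h2] at h1
  simp only [AA, G2]
  linear_combination (c * ph (pp B θ)) ^ 2 * h1

theorem geTh {Q : ℝ} (hQ : 1 ≤ Q) {B : M3} (hB : NearI Q B) {θ : ℝ × ℝ}
    (hp : Dr (2 * Q) (pp B θ)) : ‖θ‖ ≤ 4 * Q + 2 := by
  obtain ⟨h0, h1, -⟩ := geHvNear' hQ hB θ
  have h2 : ∀ i, i ≠ 2 → |hv B θ i| ≤ 2 * Q + 1 := fun i e => by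
    have h3 := (hB i 2).trans (geEps hQ)
    rw [if_neg e, sub_zero, abs_le] at h3
    have h4 := gePos (by linarith) hp i
    have h5 := (hp i).2
    rw [gePp, ← geHv] at h4 h5
    rw [abs_le]
    constructor <;> linarith
  have h3 := h2 0 (by decide)
  have h4 := h2 1 (by decide)
  have h5 := norm_nonneg θ
  rcases geNorm θ with e | e
  · linarith [abs_sub_abs_le_abs_sub θ.1 (hv B θ 0), abs_sub_comm θ.1 (hv B θ 0)]
  · linarith [abs_sub_abs_le_abs_sub θ.2 (hv B θ 1), abs_sub_comm θ.2 (hv B θ 1)]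

theorem geNear {Q : ℝ} (hQ : 1 ≤ Q) {B : M3} (hB : NearI Q B) {θ θ' : ℝ × ℝ}
    (hp : Dr Q (pp B θ)) (h : ‖θ' - θ‖ ≤ 1 / (4 * Q)) : Dr (2 * Q) (pp B θ') := by
  intro i
  have h1 := abs_le.1 (geHvLe hQ hB (θ' - θ) i)
  have h2 := hp i
  have h3 : 1 / (4 * Q) = 1 / Q / 4 := by ring
  have h4 : 1 / (2 * Q) = 1 / Q / 2 := by ring
  have h5 : 1 / Q ≤ 1 := (div_le_one (by linarith)).2 hQ
  rw [← add_sub_cancel θ θ', gePpAdd, Pi.add_apply]
  constructor <;> linarith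

theorem geSq {P : ℝ} (hP : 1 ≤ P) {p : V3} (h : Dr P p) :
    (p 0 * p 1 * p 2) ^ 2 ≤ P ^ 6 ∧ 1 ≤ P ^ 6 * (p 0 * p 1 * p 2) ^ 2 := by
  obtain ⟨h1, h2⟩ := geProd hP h
  have h3 : 0 ≤ p 0 * p 1 * p 2 := le_trans (by positivity) h1
  rw [div_le_iff₀ (by positivity)] at h1
  constructor
  · calc _ ≤ (P ^ 3) ^ 2 := by gcongr
      _ = _ := by ring
  · calc _ ≤ (p 0 * p 1 * p 2 * P ^ 3) ^ 2 := one_le_pow₀ h1
      _ = _ := by ring

theorem geLip {Q : ℝ} (hQ : 1 ≤ Q) {B : M3} (hB : NearI Q B) (h : ℝ × ℝ) {θ θ' : ℝ × ℝ}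
    (hp : Dr (2 * Q) (pp B θ)) (hp' : Dr (2 * Q) (pp B θ')) :
    |KK (pp B θ) (hv B h) - KK (pp B θ') (hv B h)| ≤
      1152 * (2 * Q) ^ 10 * (‖h‖ ^ 3 * ‖θ - θ'‖) := by
  have hP : 1 ≤ 2 * Q := by linarith
  rw [← add_sub_cancel θ' θ, gePpAdd] at hp
  obtain ⟨q, hq, e⟩ := geMV hP _ (hv B h) _ hp' hp
  rw [← gePpAdd, add_sub_cancel] at e
  have h1 : ∀ (s : ℝ × ℝ) i, |(hv B s / q) i| ≤ 2 * Q * (2 * ‖s‖) := fun s i =>
    (geDivLe hP hq _ i).trans (mul_le_mul_of_nonneg_left (geHvLe hQ hB s i) (by linarith))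
  rw [e, abs_mul, abs_of_nonneg (sq_nonneg _)]
  calc _ ≤ (2 * Q) ^ 6 * (72 * (2 * Q * (2 * ‖h‖)) ^ 3 * (2 * Q * (2 * ‖θ - θ'‖))) := by
        gcongr
        exacts [(geSq hP hq).1, geDLe (h1 h) (h1 _)]
    _ = _ := by ring

theorem geMono {Q : ℝ} (hQ : 1 ≤ Q) {B : M3} (hB : NearI Q B) (h : ℝ × ℝ) {θ : ℝ × ℝ} {t : ℝ}
    (ht : 0 ≤ t) (hp : Dr (2 * Q) (pp B θ)) (hp' : Dr (2 * Q) (pp B (θ + t • h))) :
    t * ‖h‖ ^ 4 ≤ 6 * (2 * Q) ^ 6 * (32 * Q ^ 2) ^ 2 *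
      (KK (pp B θ) (hv B h) - KK (pp B (θ + t • h)) (hv B h)) := by
  have hP : 1 ≤ 2 * Q := by linarith
  rw [gePpAdd] at hp' ⊢
  obtain ⟨q, hq, e⟩ := geMV hP _ (hv B h) _ hp hp'
  have h1 : ∀ i, (hv B (t • h) / q) i = t * (hv B h / q) i := fun i => by
    simp only [Pi.div_apply, geHv, Prod.smul_fst, Prod.smul_snd, smul_eq_mul]
    ring
  have h2 : geD (hv B h / q) (hv B (t • h) / q) = -(t / 6 * geN (hv B h / q) ^ 2) := by
    simp only [geD, geC, geN, sm, d2, h1]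
    ring
  rw [← neg_sub (KK (pp B θ + _) _), e, h2]
  calc t * ‖h‖ ^ 4 = t * 1 * (‖h‖ ^ 2) ^ 2 := by ring
    _ ≤ t * ((2 * Q) ^ 6 * (q 0 * q 1 * q 2) ^ 2) * (32 * Q ^ 2 * geN (hv B h / q)) ^ 2 := by
        gcongr
        exacts [(geSq hP hq).2, geNGe hQ hB hq h]
    _ = _ := by ring

theorem geHess {Q c : ℝ} (hQ : 1 ≤ Q) (hc : c ≠ 0) {B : M3} (hB : NearI Q B) (h : ℝ × ℝ)
    {θ : ℝ × ℝ} (hp : Dr (2 * Q) (pp B θ)) :
    ‖h‖ ^ 2 ≤ 1296 * Q ^ 2 * (2 * Q) ^ 12 / c ^ 2 *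
      |AA B c h θ (1, 0) (1, 0) * AA B c h θ (0, 1) (0, 1) - AA B c h θ (1, 0) (0, 1) ^ 2| := by
  have hP : 1 ≤ 2 * Q := by linarith
  have h0 := gePos hP hp
  have hN : 0 ≤ geN (hv B h / pp B θ) := by
    rw [geN]
    positivity
  have h1 := gePh hP hp
  rw [div_le_iff₀ (by positivity)] at h1
  have h2 : 0 < pp B θ 0 * pp B θ 1 * pp B θ 2 := mul_pos (mul_pos (h0 0) (h0 1)) (h0 2)
  have h3 : 1 ≤ 2 * (2 * Q) ^ 3 * (B.det / (pp B θ 0 * pp B θ 1 * pp B θ 2)) := by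
    rw [← mul_div_assoc, le_div_iff₀ h2]
    have := mul_le_mul_of_nonneg_left (geDet hQ hB) (by positivity : 0 ≤ (2 * Q) ^ 3)
    linarith [(geProd hP hp).2]
  rw [geAA B c h θ fun i => (h0 i).ne', abs_neg, abs_of_nonneg (by positivity)]
  calc ‖h‖ ^ 2 = ‖h‖ ^ 2 * 1 ^ 2 * 1 ^ 2 := by ring
    _ ≤ 32 * Q ^ 2 * geN (hv B h / pp B θ) * (ph (pp B θ) * (2 * Q) ^ 3) ^ 2 *
        (2 * (2 * Q) ^ 3 * (B.det / (pp B θ 0 * pp B θ 1 * pp B θ 2))) ^ 2 := by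
        gcongr
        exact geNGe hQ hB hp h
    _ = _ := by
        generalize B.det / (pp B θ 0 * pp B θ 1 * pp B θ 2) = D
        field_simp
        ring

theorem sGe : SGe := by
  intro Q c hQ hc
  have hP : 1 ≤ 2 * Q := by linarith
  have hc' := abs_pos.2 hc
  obtain ⟨C, h1, h2, h3, h4, h5, h6⟩ : ∃ C : ℝ, 4 * Q + 2 ≤ C ∧
      (2 * Q) ^ 6 * ((2 * Q) ^ 3 / |c|) ≤ C ∧ (16 * Q) ^ 3 * ((2 * Q) ^ 3 / |c|) ≤ C ∧
      1152 * (2 * Q) ^ 10 ≤ C ∧ 6 * (2 * Q) ^ 6 * (32 * Q ^ 2) ^ 2 ≤ C ∧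
      1296 * Q ^ 2 * (2 * Q) ^ 12 / c ^ 2 ≤ C :=
    ⟨max (max (max _ _) (max _ _)) (max _ _),
      le_max_of_le_left (le_max_of_le_left (le_max_left _ _)),
      le_max_of_le_left (le_max_of_le_left (le_max_right _ _)),
      le_max_of_le_left (le_max_of_le_right (le_max_left _ _)),
      le_max_of_le_left (le_max_of_le_right (le_max_right _ _)),
      le_max_of_le_right (le_max_left _ _), le_max_of_le_right (le_max_right _ _)⟩
  refine ⟨C, by linarith, fun B hB => ⟨fun s => ?_, fun θ θ' hp h => geNear hQ hB hp (h.trans ?_),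
    fun h θ hp => ⟨(geTh hQ hB hp).trans h1, ?_, fun hg => ?_, fun θ' hp' => ?_,
      fun t ht hp' => ?_, ?_⟩⟩⟩
  · exact (pi_norm_le_iff_of_nonneg (by positivity)).2 (geHvLe hQ hB s)
  · gcongr
    linarith
  · rw [geKK, abs_mul, abs_of_nonneg (sq_nonneg _)]
    calc _ ≤ (2 * Q) ^ 6 * ((2 * Q) ^ 3 / |c| * |kap B c h θ|) := by
          gcongr
          exacts [(geSq hP hp).1, geCLe hP hc hp]
      _ ≤ _ := by
          rw [← mul_assoc]
          gcongr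
  · calc _ ≤ _ := geCGe hQ hB hp hg
      _ ≤ (16 * Q) ^ 3 * ((2 * Q) ^ 3 / |c| * |kap B c h θ|) := by
          gcongr
          exact geCLe hP hc hp
      _ ≤ _ := by
          rw [← mul_assoc]
          gcongr
  · rw [mul_assoc]
    refine (geLip hQ hB h hp hp').trans ?_
    gcongr
  · have h7 := geMono hQ hB h ht hp hp'
    refine h7.trans (mul_le_mul_of_nonneg_right h5 ?_)
    exact nonneg_of_mul_nonneg_right (le_trans (by positivity) h7) (by positivity)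
  · refine (geHess hQ hc hB h hp).trans ?_
    gcongr

end Pool.Agent.CubH
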