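import Pool.Agent.Lib.MP_d79f69_nt.Iface

/-!
The final contradiction of Hardy's argument.
-/

open MeasureTheory

namespace Pool.Agent.CubH

universe u

theorem Hardy_key {g : ℝ → ℂ} (hg : Integrable g) {ω : ℂ} (hω : ‖ω‖ = 1) {T : ℝ}
    (h : ∀ t, T < t → ‖g t‖ / 2 ≤ (ω * g t).re) :
    (∫ t in Set.Ioi T, ‖g t‖) / 2 - ∫ t in Set.Iic T, ‖g t‖ ≤ ‖∫ t, g t‖ := by
  have h1 : Integrable fun t => (ω * g t).re := (hg.const_mul ω).re
  have h2 : ∫ t, (ω * g t).re ≤ ‖∫ t, g t‖ := by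
    have h3 : ∫ t, (ω * g t).re = (∫ t, ω * g t).re := integral_re (hg.const_mul ω)
    rw [h3, integral_const_mul]
    refine (Complex.re_le_norm _).trans (le_of_eq ?_)
    rw [norm_mul, hω, one_mul]
  rw [← intervalIntegral.integral_Iic_add_Ioi (b := T) h1.integrableOn h1.integrableOn] at h2
  have h3 : (∫ t in Set.Ioi T, ‖g t‖) / 2 ≤ ∫ t in Set.Ioi T, (ω * g t).re := by
    rw [← integral_div]
    exact setIntegral_mono_on (hg.norm.div_const 2).integrableOn h1.integrableOn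
      measurableSet_Ioi h
  have h4 : -∫ t in Set.Iic T, ‖g t‖ ≤ ∫ t in Set.Iic T, (ω * g t).re := by
    rw [← integral_neg]
    refine setIntegral_mono_on hg.norm.neg.integrableOn h1.integrableOn measurableSet_Iic
      fun t _ => ?_
    have h5 := (abs_le.1 (Complex.abs_re_le_norm (ω * g t))).1
    rwa [norm_mul, hω, one_mul] at h5
  linarith

theorem Hardy_sign {f : ℝ → ℝ} (hf : Continuous f) {T : ℝ} (h : ∀ t, T < t → f t ≠ 0) :
    ∃ η : ℝ, |η| = 1 ∧ ∀ t, T < t → η * f t = |f t| := by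
  by_cases hp : ∀ t, T < t → 0 ≤ f t
  · exact ⟨1, abs_one, fun t ht => by rw [one_mul, abs_of_nonneg (hp t ht)]⟩
  push Not at hp
  obtain ⟨a, ha, ha'⟩ := hp
  refine ⟨-1, by simp, fun t ht => ?_⟩
  have h1 : f t ≤ 0 := by
    by_contra h2
    obtain ⟨x, hx, hx'⟩ := isPreconnected_Ioi.intermediate_value (a := a) (b := t) ha ht
      hf.continuousOn ⟨ha'.le, (not_le.1 h2).le⟩
    exact h x hx hx'
  rw [abs_of_nonpos h1, neg_one_mul]

theorem Hardy_gamma (hSt : SSt) : ∃ c U : ℝ, 0 < c ∧ ∀ t : ℝ, U ≤ t →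
    c * Real.exp (-Real.pi * (3 * t / 2) / 2) ≤ ‖Complex.Gamma (1 / 2 + 3 * t / 2 * Complex.I)‖ := by
  obtain ⟨C, hC, h⟩ := hSt (1 / 2) (1 / 2)
  refine ⟨√(2 * Real.pi) * Real.exp (-1), C, by positivity, fun t ht => ?_⟩
  have hu : C ≤ 3 * t / 2 := by linarith
  obtain ⟨R, hR, hG⟩ := h (1 / 2) (3 * t / 2) le_rfl le_rfl hu
  have h1 : ‖R‖ ≤ 1 := hR.trans ((div_le_one (by linarith)).2 hu)
  have h2 : Real.exp (-1) ≤ Real.exp R.re :=
    Real.exp_le_exp.2 (by linarith [(abs_le.1 (Complex.abs_re_le_norm R)).1])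
  have h3 : (1 / 2 + 3 * t / 2 * Complex.I : ℂ) =
      ((1 / 2 : ℝ) : ℂ) + ((3 * t / 2 : ℝ) : ℂ) * Complex.I := by
    push_cast
    ring
  rw [h3, hG, norm_mul, norm_mul, Complex.norm_exp_I_mul_ofReal, mul_one, Complex.norm_exp,
    Complex.norm_real, sub_self, Real.rpow_zero, mul_one, Real.norm_of_nonneg (by positivity)]
  calc _ = √(2 * Real.pi) * Real.exp (-Real.pi * (3 * t / 2) / 2) * Real.exp (-1) := by ring
    _ ≤ _ := mul_le_mul_of_nonneg_left h2 (by positivity)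

theorem Hardy_exp (k ε t : ℝ) :
    Complex.exp (-((1 / 2 + 3 * t / 2 * Complex.I) * (k + Complex.I * (Real.pi / 2 - ε)))) =
      Complex.exp (-(3 * t / 2 * Complex.I * k)) *
        (Real.exp (-k / 2 + 3 * t / 2 * (Real.pi / 2 - ε)) : ℝ) *
        Complex.exp (Complex.I * ((-(Real.pi / 2 - ε) / 2 : ℝ) : ℂ)) := by
  rw [Complex.ofReal_exp, ← Complex.exp_add, ← Complex.exp_add]
  congr 1
  push_cast
  linear_combination (-(3 * (t : ℂ) / 2 * (Real.pi / 2 - ε))) * Complex.I_mul_I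

theorem Hardy_norm_exp (k ε t : ℝ) :
    ‖Complex.exp (-((1 / 2 + 3 * t / 2 * Complex.I) * (k + Complex.I * (Real.pi / 2 - ε))))‖ =
      Real.exp (-k / 2 + 3 * t / 2 * (Real.pi / 2 - ε)) := by
  have h1 : -(3 * t / 2 * Complex.I * k : ℂ) = Complex.I * ((-(3 * t / 2 * k) : ℝ) : ℂ) := by
    push_cast
    ring
  rw [Hardy_exp, norm_mul, norm_mul, h1, Complex.norm_exp_I_mul_ofReal,
    Complex.norm_exp_I_mul_ofReal, one_mul, mul_one, Complex.norm_real,
    Real.norm_of_nonneg (Real.exp_pos _).le]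

section DS

variable {J A : Type u} [Fintype A] (D : HData J A)

theorem Hardy_one_le (I : J) : 1 ≤ D.Nn I := by
  by_cases h : I = D.I0
  · rw [h, D.hN0]
  · linarith [D.hN I h]

theorem Hardy_term (I : J) (s : ℂ) : ‖D.χ I * (D.Nn I : ℂ) ^ (-s)‖ ≤ D.Nn I ^ (-s.re) := by
  have h := Hardy_one_le D I
  rw [norm_mul, Complex.norm_cpow_eq_rpow_re_of_pos (by linarith), Complex.neg_re]
  exact mul_le_of_le_one_left (Real.rpow_nonneg (by linarith) _) (D.hχ I)

theorem Hardy_DS_le (s : ℂ) (hs : 2 ≤ s.re) : ‖DS D.Nn D.χ s‖ ≤ ∑' I, D.Nn I ^ (-(2 : ℝ)) :=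
  tsum_of_norm_bounded (D.hsum 2 one_lt_two).hasSum fun I => (Hardy_term D I s).trans
    (Real.rpow_le_rpow_of_exponent_le (Hardy_one_le D I) (by linarith))

theorem Hardy_DS_near : ∃ σ0 : ℝ, 2 ≤ σ0 ∧ ∀ s : ℂ, s.re = σ0 → ‖DS D.Nn D.χ s - 1‖ ≤ 1 / 10 := by
  classical
  set S := ∑' I, D.Nn I ^ (-(2 : ℝ)) with hS
  obtain ⟨m, hm⟩ := pow_unbounded_of_one_lt (10 * S) (one_lt_two (α := ℝ))
  have hm0 : (0 : ℝ) ≤ m := Nat.cast_nonneg m
  refine ⟨2 + m, by linarith, fun s hs => ?_⟩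
  have h1 : Summable fun I => D.χ I * (D.Nn I : ℂ) ^ (-s) :=
    Summable.of_norm_bounded (D.hsum s.re (by linarith)) fun I => Hardy_term D I s
  rw [DS, h1.tsum_eq_add_tsum_ite D.I0, D.hχ0, D.hN0, Complex.ofReal_one, Complex.one_cpow,
    mul_one, add_sub_cancel_left]
  refine (tsum_of_norm_bounded ((D.hsum 2 one_lt_two).hasSum.mul_left ((2 : ℝ) ^ m)⁻¹)
    fun I => ?_).trans ?_
  · have h2 := Hardy_one_le D I
    split_ifs with hI
    · rw [norm_zero]
      exact mul_nonneg (by positivity) (Real.rpow_nonneg (by linarith) _)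
    · refine (Hardy_term D I s).trans ?_
      rw [hs, neg_add, add_comm, Real.rpow_add (by linarith), Real.rpow_neg (by linarith) m,
        Real.rpow_natCast]
      refine mul_le_mul_of_nonneg_right ?_ (Real.rpow_nonneg (by linarith) _)
      exact inv_anti₀ (by positivity) (pow_le_pow_left₀ zero_le_two (D.hN I hI) m)
  · rw [inv_mul_le_iff₀ (by positivity)]
    linarith

end DS

theorem Hardy_end {κ C ε0 : ℝ} (hκ : 0 < κ) (h0 : 0 < ε0)
    (h : ∀ ε, 0 < ε → ε < ε0 → ε ≤ 1 → κ / ε ≤ C) : False := by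
  have h1 : 0 < |C| + 1 := by positivity
  have h2 : 0 < min (min (ε0 / 2) 1) (κ / (|C| + 1)) := by positivity
  have h3 := h _ h2 (((min_le_left _ _).trans (min_le_left _ _)).trans_lt (by linarith))
    ((min_le_left _ _).trans (min_le_right _ _))
  have h4 : |C| + 1 ≤ κ / min (min (ε0 / 2) 1) (κ / (|C| + 1)) := by
    rw [le_div_iff₀ h2, mul_comm, ← le_div_iff₀ h1]
    exact min_le_right _ _
  linarith [le_abs_self C]

theorem sHa (hSt : SSt) (h1 : SFE.{u}) (h2 : SPL) (h3 : SCM.{u}) (h4 : SLB) (h5 : SPh)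
    (h6 : SP4.{u}) : SHa.{u} := by
  intro J A _ D
  obtain ⟨Λ, hΛd, hΛb, hΛe, hFE⟩ := h1 J A D
  have hv := D.hv
  have hv' : (D.v : ℂ) ≠ 0 := Complex.ofReal_ne_zero.2 hv.ne'
  have hLd : Differentiable ℂ fun s => Λ s * (D.v : ℂ) ^ (-s) * igam D.ν s := by
    refine (hΛd.mul (differentiable_id.neg.const_cpow (Or.inl hv'))).mul ?_
    unfold igam
    refine Differentiable.fun_finsetProd fun j _ => ?_
    exact Complex.differentiable_Gammaℝ_inv.comp (differentiable_id.sub_const _)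
  have hLe : ∀ s : ℂ, 1 < s.re → Λ s * (D.v : ℂ) ^ (-s) * igam D.ν s = DS D.Nn D.χ s := by
    intro s hs
    have e1 : (D.v : ℂ) ^ s * (D.v : ℂ) ^ (-s) = 1 := by
      rw [← Complex.cpow_add _ _ hv', add_neg_cancel, Complex.cpow_zero]
    have e2 : gam D.ν s * igam D.ν s = 1 := by
      rw [gam, igam, ← Finset.prod_mul_distrib]
      refine Finset.prod_eq_one fun j _ => mul_inv_cancel₀
        (Complex.Gammaℝ_ne_zero_of_re_pos ?_)
      simp only [Complex.sub_re, Complex.mul_re, Complex.I_re, Complex.ofReal_re, Complex.I_im,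
        Complex.ofReal_im]
      linarith
    rw [hΛe s hs]
    linear_combination (gam D.ν s * igam D.ν s * DS D.Nn D.χ s) * e1 + DS D.Nn D.χ s * e2
  have hP := h2 D.ν D.v Λ hv hΛd hΛb
    (fun s => by
      conv_lhs => rw [hFE s]
      rw [norm_mul, D.hW, one_mul, Complex.norm_conj])
    ⟨_, fun s hs => by
      rw [hLe s (by linarith)]
      exact Hardy_DS_le D s hs⟩
  refine ⟨_, hLd, hLe, fun hfin => ?_⟩
  obtain ⟨T1, hT1⟩ := hfin.bddAbove
  obtain ⟨w, hw⟩ := IsAlgClosed.exists_pow_nat_eq D.W two_pos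
  have hw1 : ‖w‖ = 1 := by
    have e1 := D.hW
    rw [← hw, norm_pow] at e1
    exact (pow_eq_one_iff_of_nonneg (norm_nonneg w) two_ne_zero).1 e1
  have hww : w * (starRingEnd ℂ) w = 1 := by
    rw [Complex.mul_conj, Complex.normSq_eq_norm_sq, hw1]
    simp
  have hreal : ∀ t : ℝ, Λ (1 / 2 + t * Complex.I) * (starRingEnd ℂ) w =
      ((Λ (1 / 2 + t * Complex.I) * (starRingEnd ℂ) w).re : ℂ) := fun t => by
    have e1 : 1 - (starRingEnd ℂ) (1 / 2 + t * Complex.I) = 1 / 2 + t * Complex.I := by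
      simp only [map_add, map_mul, map_div₀, map_one, Complex.conj_ofReal, Complex.conj_I,
        Complex.conj_ofNat]
      ring
    have e2 := hFE (1 / 2 + t * Complex.I)
    rw [e1, ← hw] at e2
    refine (Complex.conj_eq_iff_re.1 ?_).symm
    rw [map_mul, Complex.conj_conj]
    linear_combination (-(starRingEnd ℂ) w) * e2 -
      w * (starRingEnd ℂ) (Λ (1 / 2 + t * Complex.I)) * hww
  obtain ⟨η, hη, hsg⟩ := Hardy_sign
    (f := fun t : ℝ => (Λ (1 / 2 + t * Complex.I) * (starRingEnd ℂ) w).re)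
    (Complex.continuous_re.comp ((hΛd.continuous.comp (by fun_prop)).mul continuous_const))
    (T := T1) fun t ht h0 => by
      have e1 := hreal t
      rw [h0, Complex.ofReal_zero, mul_eq_zero] at e1
      rcases e1 with e1 | e1
      · refine not_le.2 ht (hT1 ?_)
        rw [Set.mem_ofPred_eq, e1, zero_mul, zero_mul]
      · rw [e1, mul_zero] at hww
        exact zero_ne_one hww
  obtain ⟨T0, hT0⟩ := h5 D.ν D.v hv D.hν
  obtain ⟨c1, U, hc1, hU⟩ := Hardy_gamma hSt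
  obtain ⟨T, hT, hTa, hTb, hTc⟩ : ∃ T : ℝ, 0 ≤ T ∧ T0 ≤ T ∧ T1 ≤ T ∧ U ≤ T :=
    ⟨max (max 0 T0) (max T1 U), by simp, by simp, by simp, by simp⟩
  obtain ⟨c, C, hc, hLB⟩ := h4 _ hLd hP (by
    obtain ⟨σ0, e1, e2⟩ := Hardy_DS_near D
    exact ⟨σ0, e1, fun s hs => by
      rw [hLe s (by linarith)]
      exact e2 s hs⟩) T
  have hk : 0 < 3 * Real.pi * D.v ^ (-(2 : ℝ) / 3) := by positivity
  have hCM := h3 J D.Nn D.χ _ (Hardy_one_le D) D.hχ D.hsum hLd hP hLe
    (3 * Real.pi * D.v ^ (-(2 : ℝ) / 3))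
  set k := Real.log (3 * Real.pi * D.v ^ (-(2 : ℝ) / 3)) with hkdef
  set a := c1 * Real.exp (-k / 2) with ha
  have ha0 : 0 < a := by positivity
  obtain ⟨ε0, hε0, hTS⟩ := h6 J A D _ (a * c / (8 * Real.pi)) hk (by positivity)
  obtain ⟨g, hg⟩ : ∃ g : ℝ → ℝ → ℂ, ∀ ε t, g ε t = Λ (1 / 2 + t * Complex.I) *
      (D.v : ℂ) ^ (-(1 / 2 + t * Complex.I)) * igam D.ν (1 / 2 + t * Complex.I) *
      Complex.Gamma (1 / 2 + 3 * t / 2 * Complex.I) *
      Complex.exp (-((1 / 2 + 3 * t / 2 * Complex.I) * (k + Complex.I * (Real.pi / 2 - ε)))) :=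
    ⟨_, fun _ _ => rfl⟩
  have hCM' : ∀ ε : ℝ, 0 < ε → ε ≤ 1 → Integrable (g ε) ∧ ∫ t, g ε t =
      4 * Real.pi / 3 * TS D.Nn D.χ (3 * Real.pi * D.v ^ (-(2 : ℝ) / 3)) ε := fun ε e1 e2 => by
    rw [show g ε = _ from funext (hg ε)]
    exact hCM ε hk e1 e2
  have hI1 := (hCM' 1 one_pos le_rfl).1
  refine Hardy_end (κ := a * c / 6) (C := a * C / 2 + Real.exp (3 * T / 2) * ∫ t, ‖g 1 t‖)
    (by positivity) hε0 fun ε e1 e2 e3 => ?_
  obtain ⟨hI, hE⟩ := hCM' ε e1 e3
  have key := Hardy_key hI (T := T) (ω := η * (starRingEnd ℂ) w *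
    Complex.exp (Complex.I * (((Real.pi / 2 - ε) / 2 : ℝ) : ℂ)) *
    Complex.exp (-(3 * Real.pi / 8 * Complex.I))) (by
      have e4 : -(3 * Real.pi / 8 * Complex.I : ℂ) =
          Complex.I * ((-(3 * Real.pi / 8) : ℝ) : ℂ) := by
        push_cast
        ring
      rw [norm_mul, norm_mul, norm_mul, e4, Complex.norm_exp_I_mul_ofReal,
        Complex.norm_exp_I_mul_ofReal, Complex.norm_conj, hw1, Complex.norm_real,
        Real.norm_eq_abs, hη]
      norm_num) fun t ht => by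
      obtain ⟨z, hz⟩ : ∃ z : ℂ, z = Complex.Gamma (1 / 2 + 3 * t / 2 * Complex.I) *
          Complex.exp (-(3 * t / 2 * Complex.I * k)) *
          (D.v : ℂ) ^ (-(1 / 2 + t * Complex.I)) * igam D.ν (1 / 2 + t * Complex.I) := ⟨_, rfl⟩
      have e4 := hT0 t (by linarith) z hz
      have e5 := hsg t (by linarith)
      have e6 := hreal t
      generalize (Λ (1 / 2 + t * Complex.I) * (starRingEnd ℂ) w).re = y at e5 e6
      have e7 : Complex.exp (Complex.I * (((Real.pi / 2 - ε) / 2 : ℝ) : ℂ)) *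
          Complex.exp (Complex.I * ((-(Real.pi / 2 - ε) / 2 : ℝ) : ℂ)) = 1 := by
        rw [← Complex.exp_add, ← Complex.exp_zero]
        congr 1
        push_cast
        ring
      have e8 : g ε t = Λ (1 / 2 + t * Complex.I) * z *
          (Real.exp (-k / 2 + 3 * t / 2 * (Real.pi / 2 - ε)) : ℝ) *
          Complex.exp (Complex.I * ((-(Real.pi / 2 - ε) / 2 : ℝ) : ℂ)) := by
        rw [hg, Hardy_exp, hz]
        ring
      have e9 : ‖Λ (1 / 2 + t * Complex.I)‖ = |y| := by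
        have := congrArg norm e6
        rwa [norm_mul, Complex.norm_conj, hw1, mul_one, Complex.norm_real, Real.norm_eq_abs] at this
      have hx := Real.exp_pos (-k / 2 + 3 * t / 2 * (Real.pi / 2 - ε))
      generalize Real.exp (-k / 2 + 3 * t / 2 * (Real.pi / 2 - ε)) = x at e8 hx
      have e10 : η * (starRingEnd ℂ) w *
          Complex.exp (Complex.I * (((Real.pi / 2 - ε) / 2 : ℝ) : ℂ)) *
          Complex.exp (-(3 * Real.pi / 8 * Complex.I)) * g ε t =
          ((|y| * x : ℝ) : ℂ) * (z * Complex.exp (-(3 * Real.pi / 8 * Complex.I))) := by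
        rw [e8, ← e5, Complex.ofReal_mul, Complex.ofReal_mul, ← e6]
        linear_combination (η * (starRingEnd ℂ) w * Λ (1 / 2 + t * Complex.I) * z * x *
          Complex.exp (-(3 * Real.pi / 8 * Complex.I))) * e7
      rw [e10, Complex.re_ofReal_mul, e8, norm_mul, norm_mul, norm_mul,
        Complex.norm_exp_I_mul_ofReal, mul_one, e9, Complex.norm_real, Real.norm_of_nonneg hx.le]
      calc |y| * ‖z‖ * x / 2 = |y| * x * (‖z‖ / 2) := by ring
        _ ≤ _ := mul_le_mul_of_nonneg_left e4 (by positivity)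
  have hn : ∀ ε t : ℝ, ‖g ε t‖ = ‖Λ (1 / 2 + t * Complex.I) *
      (D.v : ℂ) ^ (-(1 / 2 + t * Complex.I)) * igam D.ν (1 / 2 + t * Complex.I)‖ *
      ‖Complex.Gamma (1 / 2 + 3 * t / 2 * Complex.I)‖ *
      Real.exp (-k / 2 + 3 * t / 2 * (Real.pi / 2 - ε)) := fun ε t => by
    rw [hg, norm_mul, norm_mul, Hardy_norm_exp]
  have b1 : ‖∫ t, g ε t‖ ≤ a * c / 6 / ε := by
    have e4 : (4 * Real.pi / 3 : ℂ) = ((4 * Real.pi / 3 : ℝ) : ℂ) := by
      push_cast
      ring
    rw [hE, norm_mul, e4, Complex.norm_real, Real.norm_of_nonneg (by positivity)]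
    refine (mul_le_mul_of_nonneg_left (hTS ε e1 e2) (by positivity)).trans (le_of_eq ?_)
    field_simp
    ring
  have b2 : ∫ t in Set.Iic T, ‖g ε t‖ ≤ Real.exp (3 * T / 2) * ∫ t, ‖g 1 t‖ := by
    rw [← integral_const_mul]
    refine le_trans (setIntegral_mono_on hI.norm.integrableOn
      (hI1.norm.const_mul _).integrableOn measurableSet_Iic fun t ht => ?_)
      (setIntegral_le_integral (hI1.norm.const_mul _)
        (Filter.Eventually.of_forall fun t => by positivity))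
    have e4 : t ≤ T := ht
    rw [hn, hn, mul_left_comm, ← Real.exp_add]
    refine mul_le_mul_of_nonneg_left (Real.exp_le_exp.2 ?_) (by positivity)
    nlinarith
  have b3 : a * (c / (3 * ε / 2) - C) ≤ ∫ t in Set.Ioi T, ‖g ε t‖ := by
    refine (mul_le_mul_of_nonneg_left (hLB (3 * ε / 2) (by positivity) (by linarith))
      ha0.le).trans ?_
    rw [← integral_const_mul]
    refine integral_mono_of_nonneg (Filter.Eventually.of_forall fun t => by positivity)
      hI.norm.integrableOn ((ae_restrict_iff' measurableSet_Ioi).2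
        (Filter.Eventually.of_forall fun t ht => ?_))
    have e4 : T < t := ht
    have e5 := hU t (by linarith)
    have e6 : a * Real.exp (-(3 * ε / 2) * t) = c1 * Real.exp (-Real.pi * (3 * t / 2) / 2) *
        Real.exp (-k / 2 + 3 * t / 2 * (Real.pi / 2 - ε)) := by
      rw [ha, mul_assoc, mul_assoc, ← Real.exp_add, ← Real.exp_add]
      congr 2
      ring
    beta_reduce
    rw [hn, mul_left_comm, e6, mul_assoc _ ‖Complex.Gamma _‖]
    exact mul_le_mul_of_nonneg_left (mul_le_mul_of_nonneg_right e5 (Real.exp_pos _).le)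
      (norm_nonneg _)
  have b4 : a * (c / (3 * ε / 2) - C) = 4 * (a * c / 6 / ε) - a * C := by
    field_simp
    ring
  linarith

end Pool.Agent.CubH
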