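import Pool.Agent.Lib.MP_d79f69_nt.Iface

/-!
Polynomial growth of the L-function and the phase of the comparison factor.
-/

open Matrix MeasureTheory

namespace Pool.Agent.CubH

/-- Stirling in exponential form -/
lemma plStir (h : SSt) (a b : ℝ) : ∃ C : ℝ, 1 ≤ C ∧ ∀ σ u : ℝ, a ≤ σ → σ ≤ b → C ≤ u →
    ∃ R : ℂ, ‖R‖ ≤ C / u ∧ Complex.Gamma (σ + u * Complex.I) =
      Complex.exp (((Real.log √(2 * Real.pi) + Real.log u * (σ - 1 / 2) + -Real.pi * u / 2 : ℝ) : ℂ)
        + Complex.I * ((u * Real.log u - u + (σ - 1 / 2) * Real.pi / 2 : ℝ) : ℂ) + R) := by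
  obtain ⟨C, hC, H⟩ := h a b
  refine ⟨C, hC, fun σ u h1 h2 h3 => ?_⟩
  obtain ⟨R, hR, e⟩ := H σ u h1 h2 h3
  refine ⟨R, hR, ?_⟩
  have hu : 0 < u := by linarith
  have hp : 0 < √(2 * Real.pi) := Real.sqrt_pos.mpr (by positivity)
  rw [e, Complex.exp_add, Complex.exp_add, ← Complex.ofReal_exp, Real.exp_add, Real.exp_add,
    Real.exp_log hp, ← Real.rpow_def_of_pos hu]

lemma plInvPos (h : SSt) : ∃ C : ℝ, 1 ≤ C ∧ ∀ w : ℂ, -1 ≤ w.re → w.re ≤ 2 → C ≤ w.im →
    ‖(Complex.Gamma w)⁻¹‖ ≤ Real.exp (1 + 4 * w.im) := by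
  obtain ⟨C, hC, H⟩ := plStir h (-1) 2
  refine ⟨C, hC, fun w h1 h2 h3 => ?_⟩
  obtain ⟨R, hR, e⟩ := H w.re w.im h1 h2 h3
  rw [Complex.re_add_im] at e
  have hu : 1 ≤ w.im := by linarith
  have hR1 : ‖R‖ ≤ 1 := hR.trans (by rw [div_le_one (by linarith)]; exact h3)
  have hR2 : -1 ≤ R.re := by
    have := Complex.abs_re_le_norm R
    have := neg_abs_le R.re
    linarith
  rw [e, ← Complex.exp_neg, Complex.norm_exp]
  apply Real.exp_le_exp.mpr
  simp only [Complex.neg_re, Complex.add_re, Complex.ofReal_re, Complex.mul_re, Complex.I_re,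
    Complex.I_im, Complex.ofReal_im, zero_mul, mul_zero, sub_zero, add_zero]
  have l0 : 0 ≤ Real.log √(2 * Real.pi) := by
    apply Real.log_nonneg
    rw [Real.one_le_sqrt]
    linarith [Real.pi_gt_three]
  have l1 : 0 ≤ Real.log w.im := Real.log_nonneg hu
  have l2 : Real.log w.im ≤ w.im := by
    have := Real.log_le_sub_one_of_pos (show 0 < w.im by linarith)
    linarith
  have l3 : Real.pi * w.im ≤ 4 * w.im :=
    mul_le_mul_of_nonneg_right Real.pi_le_four (by linarith)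
  have l4 : Real.log w.im * (-2) ≤ Real.log w.im * (w.re - 1 / 2) :=
    mul_le_mul_of_nonneg_left (by linarith) l1
  linarith

lemma plInv (h : SSt) : ∃ C : ℝ, 1 ≤ C ∧ ∀ w : ℂ, -1 ≤ w.re → w.re ≤ 2 → C ≤ |w.im| →
    ‖(Complex.Gamma w)⁻¹‖ ≤ Real.exp (1 + 4 * |w.im|) := by
  obtain ⟨C, hC, H⟩ := plInvPos h
  refine ⟨C, hC, fun w h1 h2 h3 => ?_⟩
  rcases le_total 0 w.im with h0 | h0
  · rw [abs_of_nonneg h0] at h3 ⊢
    exact H w h1 h2 h3
  · rw [abs_of_nonpos h0] at h3 ⊢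
    have := H ((starRingEnd ℂ) w) (by simpa using h1) (by simpa using h2) (by simpa using h3)
    rw [Complex.Gamma_conj, norm_inv, Complex.norm_conj, ← norm_inv] at this
    simpa using this

lemma plInvR (h : SSt) : ∃ C : ℝ, 1 ≤ C ∧ ∀ s : ℂ, -2 ≤ s.re → s.re ≤ 4 → C ≤ |s.im| →
    ‖(Complex.Gammaℝ s)⁻¹‖ ≤ Real.exp (7 + 2 * |s.im|) := by
  obtain ⟨C, hC, H⟩ := plInv h
  refine ⟨2 * C, by linarith, fun s h1 h2 h3 => ?_⟩
  have e1 : (s / 2).re = s.re / 2 := by simp
  have e2 : |(s / 2).im| = |s.im| / 2 := by simp [abs_div]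
  have := H (s / 2) (by rw [e1]; linarith) (by rw [e1]; linarith) (by rw [e2]; linarith)
  rw [e2] at this
  rw [Complex.Gammaℝ_def, mul_inv, norm_mul, norm_inv,
    Complex.norm_cpow_eq_rpow_re_of_pos Real.pi_pos, Real.rpow_def_of_pos Real.pi_pos,
    ← Real.exp_neg]
  have e3 : (-s / 2).re = -s.re / 2 := by simp
  rw [e3]
  have l0 : 0 ≤ Real.log Real.pi := Real.log_nonneg (by linarith [Real.pi_gt_three])
  have l1 : Real.log Real.pi ≤ 3 := by
    have := Real.log_le_sub_one_of_pos Real.pi_pos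
    linarith [Real.pi_le_four]
  have l2 : Real.exp (-(Real.log Real.pi * (-s.re / 2))) ≤ Real.exp 6 := by
    apply Real.exp_le_exp.mpr
    nlinarith
  calc _ ≤ Real.exp 6 * Real.exp (1 + 4 * (|s.im| / 2)) :=
        mul_le_mul l2 this (norm_nonneg _) (Real.exp_pos _).le
    _ = _ := by rw [← Real.exp_add]; congr 1; ring

lemma plShift2 (s : ℂ) (hs : s ≠ 0) :
    (Complex.Gammaℝ s)⁻¹ = (Complex.Gammaℝ (s + 2))⁻¹ * (s / (2 * Real.pi)) := by
  have hp : (Real.pi : ℂ) ≠ 0 := Complex.ofReal_ne_zero.mpr Real.pi_ne_zero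
  rw [Complex.Gammaℝ_add_two hs]
  by_cases h0 : Complex.Gammaℝ s = 0
  · simp [h0]
  · field_simp

lemma plShift4 (s : ℂ) (hs : s.re = -3 / 2) (M : ℝ) (h1 : ‖s‖ ≤ M) (h2 : ‖s + 2‖ ≤ M) :
    ‖(Complex.Gammaℝ s)⁻¹‖ ≤ ‖(Complex.Gammaℝ (s + 4))⁻¹‖ * M ^ 2 := by
  have a1 : s ≠ 0 := by
    intro h
    rw [h] at hs
    norm_num at hs
  have a2 : s + 2 ≠ 0 := by
    intro h
    have := congrArg Complex.re h
    simp only [Complex.add_re, Complex.re_ofNat, Complex.zero_re, hs] at this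
    norm_num at this
  have hM : 0 ≤ M := (norm_nonneg _).trans h1
  have hp : ‖(2 * Real.pi : ℂ)‖ = 2 * Real.pi := by
    rw [norm_mul, Complex.norm_real, Real.norm_eq_abs, abs_of_pos Real.pi_pos]
    simp
  have hd : ∀ w : ℂ, ‖w‖ ≤ M → ‖w / (2 * Real.pi)‖ ≤ M := by
    intro w hw
    rw [norm_div, hp]
    exact (div_le_self (norm_nonneg _) (by linarith [Real.pi_gt_three])).trans hw
  rw [plShift2 s a1, plShift2 (s + 2) a2, show s + 2 + 2 = s + 4 by ring, norm_mul, norm_mul,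
    mul_assoc, sq]
  exact mul_le_mul_of_nonneg_left (mul_le_mul (hd _ h2) (hd _ h1) (norm_nonneg _) hM)
    (norm_nonneg _)

lemma plDiff (ν : V3) : Differentiable ℂ (igam ν) := by
  unfold igam
  refine Differentiable.fun_finsetProd fun j _ => ?_
  exact Complex.differentiable_Gammaℝ_inv.comp (differentiable_id.sub_const _)

theorem sPL (h : SSt) : SPL := by
  intro ν v Λ hv hΛ hb hsym ⟨C0, hC0⟩
  set L : ℂ → ℂ := fun s => Λ s * (v : ℂ) ^ (-s) * igam ν s with hL
  have hv' : (v : ℂ) ≠ 0 := Complex.ofReal_ne_zero.mpr hv.ne'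
  have dL : Differentiable ℂ L :=
    (hΛ.mul (differentiable_neg.const_cpow (Or.inl hv'))).mul (plDiff ν)
  have hC00 : 0 ≤ C0 := (norm_nonneg _).trans (hC0 2 (by simp))
  set S : ℝ := ∑ j, |ν j| with hS
  have hS1 : ∀ j, |ν j| ≤ S := fun j =>
    Finset.single_le_sum (f := fun j => |ν j|) (fun i _ => abs_nonneg _) (Finset.mem_univ j)
  have hS0 : 0 ≤ S := (abs_nonneg _).trans (hS1 0)
  have n3 : ∀ s : ℂ, -3 / 2 ≤ s.re → 1 ≤ ‖s + 3‖ := by
    intro s hs
    have := Complex.re_le_norm (s + 3)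
    simp only [Complex.add_re, Complex.re_ofNat] at this
    linarith
  have nI : ∀ j, ‖Complex.I * (ν j : ℂ)‖ ≤ S := by
    intro j
    rw [norm_mul, Complex.norm_I, one_mul, Complex.norm_real, Real.norm_eq_abs]
    exact hS1 j
  have left : ∀ s : ℂ, s.re = -3 / 2 → ‖L s‖ ≤ v ^ 4 * C0 * (4 + S) ^ 6 * ‖s + 3‖ ^ 6 := by
    intro s hs
    have m1 := n3 s hs.ge
    have e1 : 1 - (starRingEnd ℂ) s = s + 4 := by
      apply Complex.ext <;> simp [hs]
      norm_num
    have e2 : ‖Λ s‖ = ‖Λ (s + 4)‖ := by rw [hsym s, e1]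
    have e3 : ‖(v : ℂ) ^ (-s)‖ = v ^ 4 * ‖(v : ℂ) ^ (-(s + 4))‖ := by
      rw [Complex.norm_cpow_eq_rpow_re_of_pos hv, Complex.norm_cpow_eq_rpow_re_of_pos hv,
        ← Real.rpow_natCast, ← Real.rpow_add hv]
      congr 1
      simp
    have e4 : ‖igam ν s‖ ≤ ‖igam ν (s + 4)‖ * ((4 + S) * ‖s + 3‖) ^ 6 := by
      unfold igam
      rw [norm_prod, norm_prod]
      have : ((4 + S) * ‖s + 3‖) ^ 6 = ∏ _j : Fin 3, ((4 + S) * ‖s + 3‖) ^ 2 := by
        rw [Finset.prod_const, Finset.card_univ, Fintype.card_fin, ← pow_mul]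
      rw [this, ← Finset.prod_mul_distrib]
      refine Finset.prod_le_prod (fun j _ => norm_nonneg _) fun j _ => ?_
      have k1 : ‖s - Complex.I * ν j‖ ≤ (4 + S) * ‖s + 3‖ := by
        have : s - Complex.I * ν j = (s + 3) - 3 - Complex.I * ν j := by ring
        rw [this]
        have b1 := norm_sub_le ((s + 3) - 3) (Complex.I * ν j)
        have b2 := norm_sub_le (s + 3) 3
        have b3 : ‖(3 : ℂ)‖ = 3 := by simp
        have := nI j
        nlinarith
      have k2 : ‖s - Complex.I * ν j + 2‖ ≤ (4 + S) * ‖s + 3‖ := by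
        have : s - Complex.I * ν j + 2 = (s + 3) - 1 - Complex.I * ν j := by ring
        rw [this]
        have b1 := norm_sub_le ((s + 3) - 1) (Complex.I * ν j)
        have b2 := norm_sub_le (s + 3) 1
        have b3 : ‖(1 : ℂ)‖ = 1 := by simp
        have := nI j
        nlinarith
      have := plShift4 (s - Complex.I * ν j) (by simp [hs]) _ k1 k2
      rwa [show s - Complex.I * ν j + 4 = s + 4 - Complex.I * ν j by ring] at this
    have e5 := hC0 (s + 4) (by simp [hs]; norm_num)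
    rw [norm_mul, norm_mul] at e5
    have e6 : ‖L s‖ = ‖Λ s‖ * ‖(v : ℂ) ^ (-s)‖ * ‖igam ν s‖ := by
      simp only [hL, norm_mul]
    rw [e6, e2, e3]
    calc _ ≤ ‖Λ (s + 4)‖ * (v ^ 4 * ‖(v : ℂ) ^ (-(s + 4))‖) *
          (‖igam ν (s + 4)‖ * ((4 + S) * ‖s + 3‖) ^ 6) :=
          mul_le_mul_of_nonneg_left e4 (by positivity)
      _ = v ^ 4 * ((4 + S) * ‖s + 3‖) ^ 6 *
          (‖Λ (s + 4)‖ * ‖(v : ℂ) ^ (-(s + 4))‖ * ‖igam ν (s + 4)‖) := by ring
      _ ≤ v ^ 4 * ((4 + S) * ‖s + 3‖) ^ 6 * C0 := mul_le_mul_of_nonneg_left e5 (by positivity)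
      _ = _ := by ring
  set C1 : ℝ := v ^ 4 * C0 * (4 + S) ^ 6 + C0 with hC1
  have hC10 : 0 ≤ v ^ 4 * C0 * (4 + S) ^ 6 := by positivity
  let F : ℂ → ℂ := fun s => L s / (s + 3) ^ 6
  have nF : ∀ s : ℂ, ‖F s‖ = ‖L s‖ / ‖s + 3‖ ^ 6 := fun s => by
    simp only [F, norm_div, norm_pow]
  have leF : ∀ s : ℂ, -3 / 2 ≤ s.re → ‖F s‖ ≤ ‖L s‖ := fun s hs => by
    rw [nF]
    exact div_le_self (norm_nonneg _) (one_le_pow₀ (n3 s hs))
  have strip : ∀ s : ℂ, -3 / 2 ≤ s.re → s.re ≤ 5 / 2 → ‖F s‖ ≤ C1 := by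
    intro s hs1 hs2
    refine PhragmenLindelof.vertical_strip (a := -3 / 2) (b := 5 / 2) ?_ ?_ ?_ ?_ hs1 hs2
    · apply DifferentiableOn.diffContOnCl
      rw [Complex.closure_preimage_re, closure_Ioo (by norm_num)]
      refine DifferentiableOn.div dL.differentiableOn (by fun_prop) fun z hz => ?_
      have := n3 z hz.1
      exact pow_ne_zero _ (norm_pos_iff.mp (by linarith))
    · refine ⟨1 / 2, by linarith [Real.pi_gt_three], 12, ?_⟩
      obtain ⟨CΛ, hCΛ⟩ := hb (-3 / 2) (5 / 2)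
      obtain ⟨C2, hC2, H2⟩ := plInvR h
      apply Asymptotics.IsBigO.of_bound
        (CΛ * Real.exp (3 * |Real.log v|) * Real.exp (21 + 6 * S))
      have ev : ∀ᶠ z : ℂ in Filter.comap (_root_.abs ∘ Complex.im) Filter.atTop,
          C2 + S ≤ |z.im| := Filter.tendsto_comap.eventually (Filter.eventually_ge_atTop _)
      filter_upwards [Filter.mem_inf_of_left ev,
        Filter.mem_inf_of_right (Filter.mem_principal_self _)] with z hz1 hz2
      have z1 : -3 / 2 < z.re := hz2.1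
      have z2 : z.re < 5 / 2 := hz2.2
      have hz1 : C2 + S ≤ |z.im| := hz1
      have f1 := hCΛ z z1.le z2.le
      have f0 : 0 ≤ CΛ := (norm_nonneg _).trans f1
      have f2 : ‖(v : ℂ) ^ (-z)‖ ≤ Real.exp (3 * |Real.log v|) := by
        rw [Complex.norm_cpow_eq_rpow_re_of_pos hv, Real.rpow_def_of_pos hv]
        apply Real.exp_le_exp.mpr
        have a1 := le_abs_self (Real.log v * (-z).re)
        rw [abs_mul] at a1
        have a2 : |(-z).re| ≤ 3 := by
          rw [Complex.neg_re, abs_le]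
          constructor <;> linarith
        have := mul_le_mul_of_nonneg_left a2 (abs_nonneg (Real.log v))
        linarith
      have f3 : ‖igam ν z‖ ≤ Real.exp (21 + 6 * S) * Real.exp (6 * |z.im|) := by
        unfold igam
        rw [norm_prod]
        have : Real.exp (21 + 6 * S) * Real.exp (6 * |z.im|)
            = ∏ _j : Fin 3, Real.exp (7 + 2 * (|z.im| + S)) := by
          rw [Finset.prod_const, Finset.card_univ, Fintype.card_fin, ← Real.exp_nat_mul,
            ← Real.exp_add]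
          congr 1
          push_cast
          ring
        rw [this]
        refine Finset.prod_le_prod (fun j _ => norm_nonneg _) fun j _ => ?_
        have i1 : (z - Complex.I * ν j).re = z.re := by simp
        have i2 : (z - Complex.I * ν j).im = z.im - ν j := by simp
        have i3 := abs_sub_abs_le_abs_sub z.im (ν j)
        have i4 := abs_sub z.im (ν j)
        have i5 := hS1 j
        refine (H2 _ (by rw [i1]; linarith) (by rw [i1]; linarith) (by rw [i2]; linarith)).trans ?_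
        apply Real.exp_le_exp.mpr
        rw [i2]
        linarith
      have f4 : Real.exp (6 * |z.im|) ≤ Real.exp (12 * Real.exp (1 / 2 * |z.im|)) := by
        apply Real.exp_le_exp.mpr
        have := Real.add_one_le_exp (1 / 2 * |z.im|)
        linarith
      rw [Real.norm_eq_abs, abs_of_pos (Real.exp_pos _)]
      refine (leF z z1.le).trans ?_
      have e6 : ‖L z‖ = ‖Λ z‖ * ‖(v : ℂ) ^ (-z)‖ * ‖igam ν z‖ := by
        simp only [hL, norm_mul]
      rw [e6, mul_assoc (CΛ * _)]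
      refine mul_le_mul (mul_le_mul f1 f2 (norm_nonneg _) f0) (f3.trans ?_) (norm_nonneg _)
        (by positivity)
      exact mul_le_mul_of_nonneg_left f4 (Real.exp_pos _).le
    · intro z hz
      have m1 := n3 z hz.ge
      rw [nF, div_le_iff₀ (by positivity)]
      refine (left z hz).trans ?_
      exact mul_le_mul_of_nonneg_right (by rw [hC1]; linarith) (by positivity)
    · intro z hz
      refine (leF z (by rw [hz]; norm_num)).trans ((hC0 z (by rw [hz]; norm_num)).trans ?_)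
      rw [hC1]
      linarith
  refine ⟨C1 * 6 ^ 6, 6, fun s hs => ?_⟩
  have hC11 : C0 ≤ C1 := by rw [hC1]; linarith
  have p1 : (1 : ℝ) ≤ (1 + |s.im|) ^ 6 := one_le_pow₀ (by linarith [abs_nonneg s.im])
  rcases le_total s.re 2 with h2 | h2
  · have a1 := strip s (by linarith) (by linarith)
    have m1 := n3 s (by linarith)
    rw [nF, div_le_iff₀ (by positivity)] at a1
    refine a1.trans ?_
    rw [mul_assoc, ← mul_pow]
    refine mul_le_mul_of_nonneg_left (pow_le_pow_left₀ (norm_nonneg _) ?_ 6) (by linarith)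
    have b1 := Complex.norm_le_abs_re_add_abs_im (s + 3)
    simp only [Complex.add_re, Complex.re_ofNat, Complex.add_im, Complex.im_ofNat, add_zero] at b1
    rw [abs_of_nonneg (by linarith : 0 ≤ s.re + 3)] at b1
    linarith [abs_nonneg s.im]
  · refine (hC0 s h2).trans ?_
    have : C1 * 1 ≤ C1 * (6 ^ 6 * (1 + |s.im|) ^ 6) :=
      mul_le_mul_of_nonneg_left (by nlinarith) (by linarith)
    linarith

lemma plLog (u m : ℝ) (hu : 0 < u) (hm : 0 < m) :
    u - m ≤ u * Real.log u - u * Real.log m ∧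
      u * Real.log u - u * Real.log m ≤ (u - m) + (u - m) ^ 2 / m := by
  have a1 := Real.log_le_sub_one_of_pos (div_pos hm hu)
  have a2 := Real.log_le_sub_one_of_pos (div_pos hu hm)
  rw [Real.log_div hm.ne' hu.ne'] at a1
  rw [Real.log_div hu.ne' hm.ne'] at a2
  have b1 := mul_le_mul_of_nonneg_left a1 hu.le
  have b2 := mul_le_mul_of_nonneg_left a2 hu.le
  have c1 : u * (m / u - 1) = m - u := by field_simp
  have c2 : u * (u / m - 1) = (u - m) + (u - m) ^ 2 / m := by field_simp; ring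
  constructor <;> linarith

lemma plCos (w : ℂ) (hw : |w.im| ≤ 1) : ‖Complex.exp w‖ / 2 ≤ (Complex.exp w).re := by
  rw [Complex.norm_exp, Complex.exp_re]
  have a1 := Real.one_sub_sq_div_two_le_cos (x := w.im)
  have a2 : w.im ^ 2 ≤ 1 := by rwa [sq_le_one_iff_abs_le_one]
  have := mul_le_mul_of_nonneg_left (show 1 / 2 ≤ Real.cos w.im by linarith) (Real.exp_pos w.re).le
  linarith

theorem sPh (h : SSt) : SPh := by
  intro ν v hv hν
  obtain ⟨C, hC, H⟩ := plStir h (1 / 4) (1 / 2)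
  set S : ℝ := ∑ j, |ν j| with hS
  have hS1 : ∀ j, |ν j| ≤ S := fun j =>
    Finset.single_le_sum (f := fun j => |ν j|) (fun i _ => abs_nonneg _) (Finset.mem_univ j)
  have hS0 : 0 ≤ S := (abs_nonneg _).trans (hS1 0)
  refine ⟨16 * C + S + 3 * S ^ 2, fun t ht z hz => ?_⟩
  have hS2 : 0 ≤ S ^ 2 := sq_nonneg S
  have ht0 : 0 < t := by linarith
  have hu : ∀ j, 8 * C ≤ (t - ν j) / 2 := fun j => by
    have := hS1 j
    have := le_abs_self (ν j)
    linarith
  have small : ∀ u : ℝ, 8 * C ≤ u → C / u ≤ 1 / 8 := fun u hu => by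
    rw [div_le_iff₀ (by linarith)]
    linarith
  obtain ⟨R, hR, eR⟩ := H (1 / 2) (3 * t / 2) (by norm_num) le_rfl (by linarith)
  have hR' := hR.trans (small _ (by linarith))
  choose Q hQ eQ using fun j => H (1 / 4) ((t - ν j) / 2) le_rfl (by norm_num)
    (by linarith [hu j])
  have hQ' := fun j => (hQ j).trans (small _ (hu j))
  have hv' : (v : ℂ) ≠ 0 := Complex.ofReal_ne_zero.mpr hv.ne'
  have hp : (Real.pi : ℂ) ≠ 0 := Complex.ofReal_ne_zero.mpr Real.pi_ne_zero
  have e0 : (1 / 2 + 3 * t / 2 * Complex.I : ℂ) = ((1 / 2 : ℝ) : ℂ) + ((3 * t / 2 : ℝ) : ℂ) * Complex.I := by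
    push_cast
    ring
  have e1 : ∀ j, ((1 / 2 + t * Complex.I - Complex.I * ν j) / 2 : ℂ)
      = ((1 / 4 : ℝ) : ℂ) + (((t - ν j) / 2 : ℝ) : ℂ) * Complex.I := fun j => by
    push_cast
    ring
  have e2 : Real.log (3 * Real.pi * v ^ (-(2 : ℝ) / 3))
      = Real.log 3 + Real.log Real.pi + -(2 : ℝ) / 3 * Real.log v := by
    rw [Real.log_mul (by positivity) (by positivity), Real.log_mul (by norm_num) Real.pi_ne_zero,
      Real.log_rpow hv]
  have e3 : Real.log (3 * t / 2) = Real.log 3 + Real.log (t / 2) := by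
    rw [← Real.log_mul (by norm_num) (by positivity)]
    congr 1
    ring
  have nz : ‖z‖ = ‖z * Complex.exp (-(3 * Real.pi / 8 * Complex.I))‖ := by
    rw [norm_mul, Complex.norm_exp]
    simp
  rw [nz, hz]
  unfold igam
  simp only [Complex.Gammaℝ_def, e1, eQ]
  rw [e0, eR, Complex.cpow_def_of_ne_zero hv', Fin.prod_univ_three]
  simp only [Complex.cpow_def_of_ne_zero hp, ← Complex.exp_add, ← Complex.exp_neg]
  apply plCos
  rw [← Complex.ofReal_log hv.le, ← Complex.ofReal_log Real.pi_pos.le, e2, e3]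
  simp only [Complex.add_im, Complex.neg_im, Complex.mul_im, Complex.ofReal_re, Complex.ofReal_im,
    Complex.I_re, Complex.I_im, Complex.mul_re, Complex.div_ofNat_im, Complex.div_ofNat_re,
    Complex.sub_im, Complex.sub_re, Complex.neg_re, Complex.add_re, Complex.re_ofNat,
    Complex.im_ofNat, Complex.one_re, Complex.one_im, zero_mul, mul_zero, one_mul, mul_one,
    add_zero, zero_add, sub_zero, zero_div]
  have g : ∀ j, -(ν j) / 2 ≤ (t - ν j) / 2 * Real.log ((t - ν j) / 2) - (t - ν j) / 2 * Real.log (t / 2) ∧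
      (t - ν j) / 2 * Real.log ((t - ν j) / 2) - (t - ν j) / 2 * Real.log (t / 2)
        ≤ -(ν j) / 2 + 1 / 6 := by
    intro j
    obtain ⟨a1, a2⟩ := plLog ((t - ν j) / 2) (t / 2) (by linarith [hu j]) (by linarith)
    have a3 : ((t - ν j) / 2 - t / 2) ^ 2 / (t / 2) ≤ 1 / 6 := by
      rw [div_le_iff₀ (by linarith)]
      have : ν j ^ 2 ≤ S ^ 2 := by
        rw [← sq_abs]
        exact pow_le_pow_left₀ (abs_nonneg _) (hS1 j) 2
      nlinarith
    constructor <;> linarith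
  have r0 := abs_le.mp ((Complex.abs_im_le_norm R).trans hR')
  have r1 := fun j => abs_le.mp ((Complex.abs_im_le_norm (Q j)).trans (hQ' j))
  have q0 := r1 0
  have q1 := r1 1
  have q2 := r1 2
  have g0 := g 0
  have g1 := g 1
  have g2 := g 2
  have n1 : (ν 0 + ν 1 + ν 2) * Real.log (t / 2) = 0 := by rw [hν, zero_mul]
  have n2 : (ν 0 + ν 1 + ν 2) * Real.log Real.pi = 0 := by rw [hν, zero_mul]
  rw [abs_le]
  constructor <;> linarith [r0.1, r0.2, q0.1, q0.2, q1.1, q1.2, q2.1, q2.2, g0.1, g0.2, g1.1, g1.2,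
    g2.1, g2.2]

end Pool.Agent.CubH
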