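import Pool.Agent.Lib.MP_d79f69_nt.PartA

/-! Sign patterns and the identification of the terms. -/

open Matrix MeasureTheory Filter Topology

namespace Pool.Agent.CubH

/-- the matrix with rows multiplied by signs -/
def partSg (σ : Fin 3 → Bool) (B : M3) : M3 :=
  diagonal (fun j => if σ j then (1 : ℝ) else -1) * B

theorem partSg_mulVec (σ : Fin 3 → Bool) (B : M3) (x : V3) (j : Fin 3) :
    (partSg σ B *ᵥ x) j = (if σ j then (1 : ℝ) else -1) * (B *ᵥ x) j := by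
  rw [partSg, ← mulVec_mulVec, mulVec_diagonal]

theorem partSg_det (σ : Fin 3 → Bool) {B : M3} (h : B.det ≠ 0) : (partSg σ B).det ≠ 0 := by
  rw [partSg, det_mul, det_diagonal]
  refine mul_ne_zero (Finset.prod_ne_zero_iff.2 fun j _ => ?_) h
  split_ifs <;> norm_num

theorem part_sign {H : V3 → ℂ} (hH : ∀ x, H x ≠ 0 → ∀ i, 0 < x i) {B : M3}
    (hs : Summable fun n : {n : Z3 // n ≠ 0} => H (fun j => |(B *ᵥ zr n.1) j|)) :
    ∑' n : {n : Z3 // n ≠ 0}, H (fun j => |(B *ᵥ zr n.1) j|) =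
      ∑ σ : Fin 3 → Bool, ∑' n : Z3, H (partSg σ B *ᵥ zr n) := by
  classical
  have key : ∀ (σ : Fin 3 → Bool) (n : {n : Z3 // n ≠ 0}), H (partSg σ B *ᵥ zr n.1) =
      if σ = fun j => decide (0 < (B *ᵥ zr n.1) j) then H (fun j => |(B *ᵥ zr n.1) j|) else 0 := by
    intro σ n
    split_ifs with h
    · congr 1
      funext j
      rw [partSg_mulVec, h]
      by_cases h1 : 0 < (B *ᵥ zr n.1) j
      · simp [h1, abs_of_pos h1]
      · simp [h1, abs_of_nonpos (not_lt.1 h1)]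
    · by_contra h1
      apply h
      funext j
      have h2 := hH _ h1 j
      rw [partSg_mulVec] at h2
      cases hσ : σ j
      · rw [hσ] at h2
        simp only [Bool.false_eq_true, if_false] at h2
        exact (decide_eq_false (by linarith)).symm
      · rw [hσ] at h2
        simp only [if_true, one_mul] at h2
        exact (decide_eq_true h2).symm
  have h1 : ∀ σ : Fin 3 → Bool, ∑' n : Z3, H (partSg σ B *ᵥ zr n) =
      ∑' n : {n : Z3 // n ≠ 0}, H (partSg σ B *ᵥ zr n.1) := by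
    intro σ
    refine (tsum_subtype_eq_of_support_subset (s := {n : Z3 | n ≠ 0})
      (f := fun n : Z3 => H (partSg σ B *ᵥ zr n)) fun n hn => ?_).symm
    rintro rfl
    have h2 := hH _ hn 0
    have h3 : zr 0 = 0 := by
      funext i
      simp [zr]
    rw [h3, mulVec_zero] at h2
    exact lt_irrefl _ h2
  simp only [h1]
  rw [← Summable.tsum_finsetSum]
  · refine tsum_congr fun n => ?_
    simp only [key]
    rw [Finset.sum_ite_eq', if_pos (Finset.mem_univ _)]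
  · intro σ _
    refine Summable.of_norm_bounded hs.norm fun n => ?_
    rw [key]
    split_ifs
    · exact le_rfl
    · rw [norm_zero]
      exact norm_nonneg _

theorem part_term (h5 : SBa) {ν : V3} {l : Fin 2 → V3} {v : ℝ} (hv : 0 < v)
    (hν : ν 0 + ν 1 + ν 2 = 0) (hl : ∀ k, l k 0 + l k 1 + l k 2 = 0)
    (hd : l 0 0 * l 1 1 - l 0 1 * l 1 0 ≠ 0)
    (hνl : ∀ k, ∃ m : ℤ, ∑ j, ν j * l k j = 2 * Real.pi * m) {G : V3} (hG : ∀ j, 0 < G j)
    {Nn : ℝ} (hN : G 0 * G 1 * G 2 = Nn / v) (m : Fin 2 → ℤ) {lam : V3}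
    (hlam : ∀ j, lam j = G j * Real.exp (∑ k, (m k : ℝ) * l k j)) {c χ : ℂ}
    (hχ : χ = c * ∏ j, (G j : ℂ) ^ (Complex.I * ν j)) (k0 : ℝ) (ω : ℂ) (t j0 : ℝ) :
    (1 / 2 * (partPsi (partZ1 l (fun j => Real.log (G j)) + m 0) *
        partPsi (partZ2 l (fun j => Real.log (G j)) + m 1))) •
      (partPsi (partZ0 (fun j => Real.log (G j)) - j0 - t) •
        (χ * ((Nn ^ (-(1 : ℝ) / 6) : ℝ) : ℂ) *
          Complex.exp (-(k0 * ω * ((Nn ^ ((2 : ℝ) / 3) : ℝ) : ℂ))))) =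
    (c * ((v ^ (-(1 : ℝ) / 6) * Real.exp (-t / 2) / 2 : ℝ) : ℂ)) *
      (partLog (partW ν l j0) ((Real.exp t)⁻¹ • lam) *
        Complex.exp (-(((k0 * v ^ ((2 : ℝ) / 3) : ℝ) : ℂ) * (ω - Complex.I) * phc (cv lam))) *
        ee (-(k0 * v ^ ((2 : ℝ) / 3)) / (2 * Real.pi) * ph lam)) := by
  set y : V3 := fun j => Real.log (G j) with hy
  have hGy : ∀ j, G j = Real.exp (y j) := fun j => (Real.exp_log (hG j)).symm
  have hl1 : ∀ j, lam j = Real.exp (y j + (m 0 * l 0 j + m 1 * l 1 j)) := fun j => by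
    rw [hlam, Fin.sum_univ_two, Real.exp_add (y j), ← hGy]
  have hl2 : ∀ j, ((Real.exp t)⁻¹ • lam) j =
      Real.exp (y j + (m 0 * l 0 j + m 1 * l 1 j) - t) := fun j => by
    rw [Pi.smul_apply, smul_eq_mul, hl1, Real.exp_sub, div_eq_inv_mul]
  have hpos : ∀ j, 0 < lam j := fun j => by rw [hl1]; exact Real.exp_pos _
  have hpos2 : ∀ j, 0 < ((Real.exp t)⁻¹ • lam) j := fun j => by rw [hl2]; exact Real.exp_pos _
  set y' : V3 := fun j => Real.log (((Real.exp t)⁻¹ • lam) j) with hy'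
  have hyy : ∀ j, y' j = y j + (m 0 * l 0 j + m 1 * l 1 j) - t := fun j => by
    rw [hy']
    simp only
    rw [hl2, Real.log_exp]
  obtain ⟨z0, z1, z2⟩ := partZ_shift hl hd y y' _ _ _ hyy
  obtain ⟨M0, hM0⟩ := hνl 0
  obtain ⟨M1, hM1⟩ := hνl 1
  rw [Fin.sum_univ_three] at hM0 hM1
  have hνy : ν 0 * y' 0 + ν 1 * y' 1 + ν 2 * y' 2 =
      ν 0 * y 0 + ν 1 * y 1 + ν 2 * y 2 + 2 * Real.pi * (m 0 * M0 + m 1 * M1) := by
    rw [hyy, hyy, hyy]
    linear_combination (m 0 : ℝ) * hM0 + (m 1 : ℝ) * hM1 - t * hν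
  have hS : Nn = v * Real.exp (3 * partZ0 y) := by
    have e : 3 * partZ0 y = y 0 + y 1 + y 2 := by unfold partZ0; ring
    rw [e, Real.exp_add, Real.exp_add, ← hGy, ← hGy, ← hGy, hN]
    field_simp
  have hP : ph lam = Real.exp (3 * partZ0 y) ^ ((2 : ℝ) / 3) := by
    rw [ph, hl1, hl1, hl1, ← Real.exp_add, ← Real.exp_add]
    congr 2
    unfold partZ0
    linear_combination (m 0 : ℝ) * hl 0 + (m 1 : ℝ) * hl 1
  have hN1 : Nn ^ ((2 : ℝ) / 3) = v ^ ((2 : ℝ) / 3) * ph lam := by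
    rw [hS, Real.mul_rpow hv.le (Real.exp_pos _).le, hP]
  have hN2 : Nn ^ (-(1 : ℝ) / 6) = v ^ (-(1 : ℝ) / 6) * Real.exp (-(partZ0 y / 2)) := by
    rw [hS, Real.mul_rpow hv.le (Real.exp_pos _).le, ← Real.exp_mul]
    congr 2
    ring
  have hχ1 : ∏ j, (G j : ℂ) ^ (Complex.I * ν j) =
      Complex.exp (Complex.I * ((ν 0 * y 0 + ν 1 * y 1 + ν 2 * y 2 : ℝ) : ℂ)) := by
    have e : ∀ j, (G j : ℂ) ^ (Complex.I * ν j) = Complex.exp (y j * (Complex.I * ν j)) :=
      fun j => by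
        rw [Complex.cpow_def_of_ne_zero (by exact_mod_cast (hG j).ne'),
          ← Complex.ofReal_log (hG j).le]
    rw [Fin.prod_univ_three, e, e, e, ← Complex.exp_add, ← Complex.exp_add]
    congr 1
    push_cast
    ring
  rw [partLog, if_pos hpos2, ← hy', partW, z0, z1, z2, hνy, (h5.1 lam 0 0 0 hpos).1, hχ, hχ1,
    hN1, hN2, ee, sub_right_comm (partZ0 y) t j0]
  have hpi : (Real.pi : ℂ) ≠ 0 := by exact_mod_cast Real.pi_ne_zero
  generalize partZ0 y = z at *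
  generalize ν 0 * y 0 + ν 1 * y 1 + ν 2 * y 2 = s at *
  generalize v ^ ((2 : ℝ) / 3) = V at *
  generalize ph lam = P at *
  have key : Complex.exp (-t / 2) *
      (Complex.exp (Complex.I * (s + 2 * Real.pi * (m 0 * M0 + m 1 * M1)) - (z - t) / 2) *
        Complex.exp (-(k0 * V * (ω - Complex.I) * P)) *
        Complex.exp (2 * Real.pi * Complex.I * (-(k0 * V) / (2 * Real.pi) * P))) =
      Complex.exp (Complex.I * s) * Complex.exp (-(z / 2)) *
        Complex.exp (-(k0 * ω * (V * P))) := by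
    simp only [← Complex.exp_add]
    refine Complex.exp_eq_exp_iff_exists_int.2 ⟨m 0 * M0 + m 1 * M1, ?_⟩
    push_cast
    field_simp
    ring
  simp only [Complex.real_smul]
  push_cast
  linear_combination (-(c * ((v ^ (-(1 : ℝ) / 6) : ℝ) : ℂ) / 2 * (partPsi (z - j0 - t) : ℂ) *
    (partPsi (partZ1 l y + m 0) : ℂ) * (partPsi (partZ2 l y + m 1) : ℂ))) * key

end Pool.Agent.CubH
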