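import Pool.Agent.Lib.MP_d79f69_nt.PartB
import Pool.Agent.Lib.MP_d79f69_nt.PartC

/-! The twisted sum is small against `1 / ε`. -/

open Matrix MeasureTheory Filter Topology

namespace Pool.Agent.CubH

universe u

/-- one term of the twisted sum -/
noncomputable def partT (χ : ℂ) (Nn k0 : ℝ) (ω : ℂ) : ℂ :=
  χ * ((Nn ^ (-(1 : ℝ) / 6) : ℝ) : ℂ) *
    Complex.exp (-(k0 * ω * ((Nn ^ ((2 : ℝ) / 3) : ℝ) : ℂ)))

theorem part_one_le {J A : Type u} [Fintype A] (D : HData J A) (I : J) : 1 ≤ D.Nn I := by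
  by_cases h : I = D.I0
  · rw [h, D.hN0]
  · linarith [D.hN I h]

theorem part_summable {J A : Type u} [Fintype A] (D : HData J A) {k0 : ℝ} (hk : 0 < k0) {ω : ℂ}
    (hω : 0 < ω.re) : Summable fun I => ‖partT (D.χ I) (D.Nn I) k0 ω‖ := by
  refine Summable.of_nonneg_of_le (fun _ => norm_nonneg _) (fun I => ?_)
    ((D.hsum 2 (by norm_num)).mul_left (6 / (k0 * ω.re) ^ 3))
  have h1 := part_one_le D I
  have h0 : 0 < D.Nn I := by linarith
  set P := D.Nn I ^ ((2 : ℝ) / 3) with hP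
  have hP0 : 0 < P := Real.rpow_pos_of_pos h0 _
  have hP3 : D.Nn I ^ (-(2 : ℝ)) = (P ^ 3)⁻¹ := by
    rw [hP, ← Real.rpow_natCast, ← Real.rpow_mul h0.le, Real.rpow_neg h0.le]
    norm_num
  have h2 : ‖((D.Nn I ^ (-(1 : ℝ) / 6) : ℝ) : ℂ)‖ ≤ 1 := by
    rw [Complex.norm_real, Real.norm_of_nonneg (Real.rpow_nonneg h0.le _)]
    exact Real.rpow_le_one_of_one_le_of_nonpos h1 (by norm_num)
  have h3 : ‖Complex.exp (-(k0 * ω * (P : ℂ)))‖ = (Real.exp (k0 * ω.re * P))⁻¹ := by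
    rw [Complex.norm_exp, Complex.neg_re, Complex.re_mul_ofReal, Complex.re_ofReal_mul,
      Real.exp_neg]
  have h4 := Real.pow_div_factorial_le_exp (k0 * ω.re * P) (by positivity) 3
  rw [partT, norm_mul, norm_mul, ← hP, h3, hP3]
  calc ‖D.χ I‖ * ‖((D.Nn I ^ (-(1 : ℝ) / 6) : ℝ) : ℂ)‖ * (Real.exp (k0 * ω.re * P))⁻¹
      ≤ 1 * 1 * ((k0 * ω.re * P) ^ 3 / (Nat.factorial 3 : ℕ))⁻¹ := by
        gcongr
        exact D.hχ I
    _ = 6 / (k0 * ω.re) ^ 3 * (P ^ 3)⁻¹ := by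
        norm_num [Nat.factorial]
        field_simp

theorem part_exp_le {y β : ℝ} (hy : 0 < y) (h0 : 0 ≤ β) (h1 : β ≤ 1) :
    Real.exp (-y) ≤ y ^ (-β) := by
  rw [Real.rpow_def_of_pos hy]
  refine Real.exp_le_exp.2 ?_
  have h2 := Real.log_le_sub_one_of_pos hy
  rcases le_total (Real.log y) 0 with h | h <;> nlinarith

theorem part_piece (h5 : SBa) {J A : Type u} [Fintype A] (D : HData J A) {G : J → V3}
    {E : A × {n : Z3 // n ≠ 0} ≃ J × Bool × (Fin 2 → ℤ)} (hG : ∀ I j, 0 < G I j)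
    (hGN : ∀ I, G I 0 * G I 1 * G I 2 = D.Nn I / D.v)
    (hE : ∀ x, (∀ j, |(D.B x.1 *ᵥ zr x.2.1) j| =
        G (E x).1 j * Real.exp (∑ k, ((E x).2.2 k : ℝ) * D.l k j)) ∧
      D.χ (E x).1 = D.c x.1 * ∏ j, (G (E x).1 j : ℂ) ^ (Complex.I * D.ν j))
    (k0 : ℝ) (ω : ℂ) (j0 t : ℝ)
    (hw : Summable fun I => ‖partPsi (partZ0 (fun j => Real.log (G I j)) - j0 - t) •
      partT (D.χ I) (D.Nn I) k0 ω‖) :
    ∑' I, partPsi (partZ0 (fun j => Real.log (G I j)) - j0 - t) • partT (D.χ I) (D.Nn I) k0 ω =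
      ∑ a, (D.c a * ((D.v ^ (-(1 : ℝ) / 6) * Real.exp (-t / 2) / 2 : ℝ) : ℂ)) *
        ∑ σ : Fin 3 → Bool, ∑' n : Z3, FF (partSg σ (D.B a))
          (-(k0 * D.v ^ ((2 : ℝ) / 3)) / (2 * Real.pi))
          (fun x => partLog (partW D.ν D.l j0) ((Real.exp t)⁻¹ • x) *
            Complex.exp (-(((k0 * D.v ^ ((2 : ℝ) / 3) : ℝ) : ℂ) * (ω - Complex.I) * phc (cv x))))
          0 n := by
  set H : V3 → ℂ := fun x => partLog (partW D.ν D.l j0) ((Real.exp t)⁻¹ • x) *
    Complex.exp (-(((k0 * D.v ^ ((2 : ℝ) / 3) : ℝ) : ℂ) * (ω - Complex.I) * phc (cv x))) *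
    ee (-(k0 * D.v ^ ((2 : ℝ) / 3)) / (2 * Real.pi) * ph x) with hH
  set κ : ℂ := ((D.v ^ (-(1 : ℝ) / 6) * Real.exp (-t / 2) / 2 : ℝ) : ℂ) with hκ
  have h1 := part_unfold hw (w := fun I (q : Bool × (Fin 2 → ℤ)) =>
      1 / 2 * (partPsi (partZ1 D.l (fun j => Real.log (G I j)) + q.2 0) *
        partPsi (partZ2 D.l (fun j => Real.log (G I j)) + q.2 1)))
    (fun _ _ => mul_nonneg (by norm_num) (mul_nonneg (partPsi_nonneg _) (partPsi_nonneg _)))
    (fun _ => part_hasSum_units _ _)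
  have h2 := E.hasSum_iff.2 h1
  have h2' : ∀ x : A × {n : Z3 // n ≠ 0},
      (1 / 2 * (partPsi (partZ1 D.l (fun j => Real.log (G (E x).1 j)) + (E x).2.2 0) *
        partPsi (partZ2 D.l (fun j => Real.log (G (E x).1 j)) + (E x).2.2 1))) •
        (partPsi (partZ0 (fun j => Real.log (G (E x).1 j)) - j0 - t) •
          partT (D.χ (E x).1) (D.Nn (E x).1) k0 ω) =
      (D.c x.1 * κ) * H (fun j => |(D.B x.1 *ᵥ zr x.2.1) j|) := fun x =>
    part_term h5 D.hv D.hν D.hl D.hld D.hνl (hG _) (hGN _) (E x).2.2 (hE x).1 (hE x).2 k0 ω t j0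
  simp only [Function.comp_def, h2'] at h2
  have hHp : ∀ x, H x ≠ 0 → ∀ i, 0 < x i := by
    intro x hx i
    have h3 := (mul_ne_zero_iff.1 (mul_ne_zero_iff.1 hx).1).1
    unfold partLog at h3
    split_ifs at h3 with hp
    · have h4 := hp i
      rw [Pi.smul_apply, smul_eq_mul] at h4
      exact (mul_pos_iff_of_pos_left (inv_pos.2 (Real.exp_pos t))).1 h4
    · exact absurd rfl h3
  rw [← h2.tsum_eq, h2.summable.tsum_prod, tsum_fintype]
  refine Finset.sum_congr rfl fun a _ => ?_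
  by_cases hc : D.c a * κ = 0
  · simp only [hc, zero_mul, tsum_zero]
  · have h3 : Summable fun n : {n : Z3 // n ≠ 0} =>
        D.c a * κ * H (fun j => |(D.B a *ᵥ zr n.1) j|) := h2.summable.prod_factor a
    dsimp only
    rw [tsum_mul_left, part_sign hHp ((summable_mul_left_iff hc).1 h3)]
    simp only [FF, add_zero, hH]

theorem sP4 (hE : SE) (h1 : SB1) (h2 : SB2) (h3 : SB3) (h4 : SB4) (h5 : SBa) (h6 : STc) :
    SP4.{u} := by
  intro J A _ D k0 δ hk hδ
  obtain ⟨η0, hη0, N, hE⟩ := hE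
  obtain ⟨hdet, G, E, hG, hGN, hGE⟩ := D.sys
  have hv := D.hv
  set η := min η0 1 with hη
  have hη1 : 0 < η := by positivity
  have hη2 : η ≤ 1 := min_le_right _ _
  set j0 : ℝ := -Real.log D.v / 3 with hj0
  set r : ℝ := |j0| + 1 + ‖D.l 0‖ + ‖D.l 1‖ with hr
  have hsupp := partW_supp D.ν D.hl D.hld j0
  have hR : 1 ≤ Real.exp r := Real.one_le_exp (by positivity)
  obtain ⟨A0, m, hA0, hm, hWt⟩ := part_Wt h1 h2 h3 h4 h5 h6 N hR
    (partLog_contDiff (partW_contDiff D.ν D.l j0) hsupp) (partLog_compact hsupp)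
    (fun x hx => partLog_supp hsupp hx)
  set k : ℝ := k0 * D.v ^ ((2 : ℝ) / 3) with hkd
  have hk1 : 0 < k := by positivity
  have hcc : -k / (2 * Real.pi) ≠ 0 :=
    div_ne_zero (neg_ne_zero.2 hk1.ne') (by positivity)
  have hB : ∀ a, (D.B a).det ≠ 0 := fun a h => by
    have := hdet a
    rw [h, abs_zero] at this
    exact zero_ne_one this
  choose C hC hCb using fun (a : A) (σ : Fin 3 → Bool) =>
    hE (Real.exp r) _ (partSg σ (D.B a)) hR hcc (partSg_det σ (hB a))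
  set K0 : ℝ := ∑ a, ‖D.c a‖ * (D.v ^ (-(1 : ℝ) / 6) / 2) * ∑ σ, C a σ * A0 with hK0
  have hK0' : 0 ≤ K0 := Finset.sum_nonneg fun a _ => mul_nonneg (by positivity)
    (Finset.sum_nonneg fun σ _ => (mul_pos (hC a σ) hA0).le)
  set q : ℝ := Real.exp (-(η / 2)) with hq
  have hq0 : 0 ≤ q := (Real.exp_pos _).le
  have hq1 : q < 1 := Real.exp_lt_one_iff.2 (by linarith)
  set K1 : ℝ := K0 * (m * k / 2) ^ (-(1 - η / 4)) * (1 - q)⁻¹ with hK1
  have hlim : Tendsto (fun ε : ℝ => K1 * ε ^ (η / 4)) (𝓝 0) (𝓝 0) := by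
    have := ((Real.continuousAt_rpow_const 0 (η / 4) (Or.inr (by positivity))).tendsto).const_mul K1
    rwa [Real.zero_rpow (by positivity), mul_zero] at this
  obtain ⟨ε1, hε1, hε2⟩ := Metric.eventually_nhds_iff.1 (hlim.eventually (gt_mem_nhds hδ))
  refine ⟨min ε1 1, by positivity, fun ε hε hεl => ?_⟩
  have hεa : ε ≤ 1 := (hεl.trans_le (min_le_right _ _)).le
  have hεb : K1 * ε ^ (η / 4) < δ := hε2 (by
    rw [Real.dist_eq, sub_zero, abs_of_pos hε]
    exact hεl.trans_le (min_le_left _ _))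
  set ω : ℂ := Complex.exp (Complex.I * (Real.pi / 2 - ε)) with hω
  have hω1 : ω = Complex.exp (((Real.pi / 2 - ε : ℝ) : ℂ) * Complex.I) := by
    rw [hω]
    congr 1
    push_cast
    ring
  have hωre : ω.re = Real.sin ε := by
    rw [hω1, Complex.exp_ofReal_mul_I_re, Real.cos_pi_div_two_sub]
  have hωim : ω.im = Real.cos ε := by
    rw [hω1, Complex.exp_ofReal_mul_I_im, Real.sin_pi_div_two_sub]
  have hsin : ε / 2 ≤ Real.sin ε := by
    have a1 := Real.mul_le_sin hε.le (by linarith [Real.pi_gt_three])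
    have a2 : 1 / 2 ≤ 2 / Real.pi := by
      rw [div_le_div_iff₀ (by norm_num) Real.pi_pos]
      linarith [Real.pi_lt_four]
    nlinarith
  have hcos : 1 - Real.cos ε ≤ ε / 2 := by
    have a1 := Real.one_sub_sq_div_two_le_cos (x := ε)
    nlinarith
  set ζ : ℂ := (k : ℂ) * (ω - Complex.I) with hζ
  have hζre : ζ.re = k * Real.sin ε := by
    rw [hζ, Complex.re_ofReal_mul, Complex.sub_re, hωre, Complex.I_re, sub_zero]
  have hζn : ‖ζ‖ ≤ 2 * ζ.re := by
    refine (Complex.norm_le_abs_re_add_abs_im ζ).trans ?_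
    have a1 : ζ.im = -(k * (1 - Real.cos ε)) := by
      rw [hζ, Complex.im_ofReal_mul, Complex.sub_im, hωim, Complex.I_im]
      ring
    have a2 := Real.cos_le_one ε
    rw [a1, abs_neg, hζre, abs_of_nonneg (by nlinarith), abs_of_nonneg (by nlinarith)]
    nlinarith
  have hT := part_summable D hk (ω := ω) (by rw [hωre]; linarith)
  have hz : ∀ I, 0 ≤ partZ0 (fun j => Real.log (G I j)) - j0 := by
    intro I
    have a1 : Real.log (G I 0) + Real.log (G I 1) + Real.log (G I 2) =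
        Real.log (D.Nn I) - Real.log D.v := by
      have := part_one_le D I
      rw [← Real.log_mul (hG I 0).ne' (hG I 1).ne',
        ← Real.log_mul (mul_pos (hG I 0) (hG I 1)).ne' (hG I 2).ne', hGN,
        Real.log_div (by linarith) hv.ne']
    have a2 := Real.log_nonneg (part_one_le D I)
    simp only [partZ0, hj0]
    linarith
  have hU := part_unfold hT
    (w := fun I (i : ℕ) => partPsi (partZ0 (fun j => Real.log (G I j)) - j0 - i))
    (fun _ _ => partPsi_nonneg _) (fun I => partPsi_hasSum_nat (hz I))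
  have hU1 := (Equiv.prodComm ℕ J).hasSum_iff.2 hU
  have hU2 := hU1.prod_fiberwise fun i => (hU1.summable.prod_factor i).hasSum
  have hbd : ∀ i : ℕ, ‖∑' I, partPsi (partZ0 (fun j => Real.log (G I j)) - j0 - i) •
      partT (D.χ I) (D.Nn I) k0 ω‖ ≤ K0 * (m * k / 2 * ε) ^ (-(1 - η / 4)) * q ^ i := by
    intro i
    rw [part_piece h5 D hG hGN hGE k0 ω j0 i (hU1.summable.prod_factor i).norm]
    have hX : 1 ≤ Real.exp i := Real.one_le_exp (Nat.cast_nonneg _)
    set Y : ℝ := Real.exp (-(m * ζ.re * Real.exp i ^ 2)) * Real.exp i ^ (5 / 2 - η0) with hY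
    have hY0 : 0 ≤ Y := by positivity
    have hYb : Real.exp (-(i : ℝ) / 2) * Y ≤ (m * k / 2 * ε) ^ (-(1 - η / 4)) * q ^ i := by
      have a1 : Real.exp (-(m * ζ.re * Real.exp i ^ 2)) ≤
          (m * k / 2 * ε) ^ (-(1 - η / 4)) * (Real.exp i ^ 2) ^ (-(1 - η / 4)) := by
        rw [← Real.mul_rpow (by positivity) (by positivity)]
        refine le_trans (Real.exp_le_exp.2 ?_)
          (part_exp_le (by positivity) (by linarith) (by linarith))
        rw [hζre, neg_le_neg_iff]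
        refine mul_le_mul_of_nonneg_right ?_ (by positivity)
        nlinarith [mul_le_mul_of_nonneg_left hsin (mul_pos hm hk1).le]
      have a2 : Real.exp i ^ (5 / 2 - η0) ≤ Real.exp i ^ (5 / 2 - η) :=
        Real.rpow_le_rpow_of_exponent_le hX (by linarith [min_le_left η0 1])
      have a3 : Real.exp (-(i : ℝ) / 2) * ((Real.exp i ^ 2) ^ (-(1 - η / 4)) *
          Real.exp i ^ (5 / 2 - η)) = q ^ i := by
        rw [hq, ← Real.exp_nat_mul, ← Real.exp_nat_mul, ← Real.exp_mul, ← Real.exp_mul,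
          ← Real.exp_add, ← Real.exp_add]
        congr 1
        push_cast
        ring
      calc Real.exp (-(i : ℝ) / 2) * Y ≤ Real.exp (-(i : ℝ) / 2) *
            ((m * k / 2 * ε) ^ (-(1 - η / 4)) * (Real.exp i ^ 2) ^ (-(1 - η / 4)) *
              Real.exp i ^ (5 / 2 - η)) := by rw [hY]; gcongr
        _ = _ := by rw [← a3]; ring
    refine (norm_sum_le _ _).trans (le_trans ?_
      ((mul_le_mul_of_nonneg_left hYb hK0').trans_eq (mul_assoc _ _ _).symm))
    rw [hK0, Finset.sum_mul]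
    refine Finset.sum_le_sum fun a _ => ?_
    rw [norm_mul, norm_mul, Complex.norm_real, Real.norm_of_nonneg (by positivity)]
    have a4 : ‖∑ σ : Fin 3 → Bool, ∑' n : Z3, FF (partSg σ (D.B a)) (-k / (2 * Real.pi))
        (fun x => partLog (partW D.ν D.l j0) ((Real.exp i)⁻¹ • x) *
          Complex.exp (-(ζ * phc (cv x)))) 0 n‖ ≤ (∑ σ, C a σ * A0) * Y := by
      rw [Finset.sum_mul]
      refine (norm_sum_le _ _).trans (Finset.sum_le_sum fun σ _ => ?_)
      refine (hCb a σ _ _ _ hX (hWt ζ _ hζn (Real.exp_pos _))).trans_eq ?_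
      rw [hY]
      ring
    refine (mul_le_mul_of_nonneg_left a4 (by positivity)).trans_eq ?_
    ring
  have hfin := hU2.norm_le_of_bounded
    ((hasSum_geometric_of_lt_one hq0 hq1).mul_left (K0 * (m * k / 2 * ε) ^ (-(1 - η / 4)))) hbd
  refine le_trans hfin ?_
  rw [Real.mul_rpow (by positivity) hε.le, le_div_iff₀ hε]
  have a5 : ε ^ (-(1 - η / 4)) * ε = ε ^ (η / 4) := by
    rw [← Real.rpow_add_one hε.ne']
    congr 1
    ring
  refine le_trans (le_of_eq ?_) hεb.le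
  rw [hK1, ← a5]
  ring

end Pool.Agent.CubH
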