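import Pool.Agent.Lib.MP_d79f69_nt.Iface

/-!
Poisson summation for Gaussians on lattices in three dimensions.
-/

open Matrix MeasureTheory

namespace Pool.Agent.CubH

theorem pois_sum_abs : Summable fun b : ℤ => Real.exp (-|(b : ℝ)|) := by
  apply Summable.of_nat_of_neg <;> simpa using Real.summable_exp_neg_nat

theorem pois_sum_prod : Summable fun n : Z3 => ∏ i, Real.exp (-|zr n i|) := by
  classical
  refine summable_of_sum_le (c := (∑' b : ℤ, Real.exp (-|(b : ℝ)|)) ^ 3)
    (fun n => by positivity) fun s => ?_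
  have h1 : s ⊆ Fintype.piFinset fun i => s.image (· i) := fun n hn =>
    Fintype.mem_piFinset.2 fun i => Finset.mem_image_of_mem _ hn
  refine (Finset.sum_le_sum_of_subset_of_nonneg h1 fun _ _ _ => by positivity).trans ?_
  have h2 := Finset.prod_univ_sum (fun i : Fin 3 => s.image (· i))
    fun _ (b : ℤ) => Real.exp (-|(b : ℝ)|)
  simp only [zr]
  rw [← h2]
  calc _ ≤ ∏ _i : Fin 3, ∑' b : ℤ, Real.exp (-|(b : ℝ)|) :=
        Finset.prod_le_prod (fun _ _ => by positivity) fun _ _ =>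
          pois_sum_abs.sum_le_tsum _ fun _ _ => by positivity
    _ = _ := by simp

theorem pois_bound {C : M3} (hC : C.det ≠ 0) : ∃ A : ℝ, 0 < A ∧ ∀ y : V3,
    Real.exp (-Real.pi * ∑ j, (C *ᵥ y) j ^ 2) ≤ A * ∏ i, Real.exp (-|y i|) := by
  let L : V3 →L[ℝ] V3 := LinearMap.toContinuousLinearMap (toLin' C⁻¹)
  refine ⟨Real.exp ((3 * ‖L‖) ^ 2), Real.exp_pos _, fun y => ?_⟩
  rw [← Real.exp_sum, ← Real.exp_add]
  apply Real.exp_le_exp.2
  have h1 : L (C *ᵥ y) = y := by
    show C⁻¹ *ᵥ (C *ᵥ y) = y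
    rw [mulVec_mulVec, nonsing_inv_mul _ (Ne.isUnit hC), one_mulVec]
  have h2 : ‖y‖ ≤ ‖L‖ * ‖C *ᵥ y‖ := by
    conv_lhs => rw [← h1]
    exact L.le_opNorm _
  have h3 : ‖C *ᵥ y‖ ^ 2 ≤ ∑ j, (C *ᵥ y) j ^ 2 := by
    have h4 : 0 ≤ ∑ j, (C *ᵥ y) j ^ 2 := by positivity
    rw [← Real.le_sqrt (norm_nonneg _) h4, pi_norm_le_iff_of_nonneg (Real.sqrt_nonneg _)]
    intro i
    rw [Real.norm_eq_abs]
    exact Real.abs_le_sqrt (Finset.single_le_sum (f := fun j => (C *ᵥ y) j ^ 2)
      (fun _ _ => sq_nonneg _) (Finset.mem_univ i))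
  have h4 : ∀ i, |y i| ≤ ‖y‖ := fun i => norm_le_pi_norm y i
  have h5 := Real.pi_gt_three
  have h6 : 0 ≤ ∑ j, (C *ᵥ y) j ^ 2 := by positivity
  have h7 : (∑ j, (C *ᵥ y) j ^ 2) ≤ Real.pi * ∑ j, (C *ᵥ y) j ^ 2 := by nlinarith
  rw [Fin.sum_univ_three fun i => -|y i|]
  have h8 := h4 0
  have h9 := h4 1
  have h10 := h4 2
  nlinarith [sq_nonneg (‖C *ᵥ y‖ - 3 * ‖L‖), mul_nonneg (norm_nonneg L) (norm_nonneg (C *ᵥ y))]

theorem pois_summable {C : M3} (hC : C.det ≠ 0) :
    Summable fun n : Z3 => Real.exp (-Real.pi * ∑ j, (C *ᵥ zr n) j ^ 2) := by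
  obtain ⟨A, -, hA⟩ := pois_bound hC
  exact Summable.of_nonneg_of_le (fun _ => (Real.exp_pos _).le) (fun n => hA _)
    (pois_sum_prod.mul_left A)

/-- the unit cube with corner `a` -/
def poisCube (a : V3) : Set V3 := {x | ∀ i, x i ∈ Set.Ioc (a i) (a i + 1)}

theorem pois_cube_sum {E : Type} [NormedAddCommGroup E] [NormedSpace ℝ E] {h : V3 → E}
    (hh : Integrable h) : HasSum (fun n : Z3 => ∫ x in poisCube 0, h (x + zr n)) (∫ x, h x) := by
  have h1 : ⋃ n : Z3, poisCube (zr n) = Set.univ := by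
    refine Set.eq_univ_of_forall fun x => Set.mem_iUnion.2 ⟨fun i => ⌈x i⌉ - 1, fun i => ?_⟩
    simp only [zr, Int.cast_sub, Int.cast_one, sub_add_cancel]
    exact ⟨by linarith [Int.ceil_lt_add_one (x i)], Int.le_ceil _⟩
  have h2 := hasSum_integral_iUnion (f := h) (μ := volume) (s := fun n : Z3 => poisCube (zr n))
    (fun n => MeasurableSet.univ_pi' fun _ => measurableSet_Ioc)
    (fun n m hnm => Set.disjoint_left.2 fun x hn hm => hnm (funext fun i => by
      have h3 : (n i : ℝ) < m i + 1 := (hn i).1.trans_le (hm i).2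
      have h4 : (m i : ℝ) < n i + 1 := (hm i).1.trans_le (hn i).2
      have h5 : n i < m i + 1 := by exact_mod_cast h3
      have h6 : m i < n i + 1 := by exact_mod_cast h4
      omega)) hh.integrableOn
  rw [h1, Measure.restrict_univ] at h2
  refine h2.congr_fun fun n => ?_
  have h3 : poisCube 0 = (fun x => x + zr n) ⁻¹' poisCube (zr n) := by
    ext x
    simp only [poisCube, Set.mem_ofPred_eq, Set.mem_preimage, Pi.add_apply, Pi.zero_apply,
      Set.mem_Ioc]
    refine forall_congr' fun i => ⟨fun h => ⟨?_, ?_⟩, fun h => ⟨?_, ?_⟩⟩ <;> linarith [h.1, h.2]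
  rw [h3]
  exact (measurePreserving_add_right volume (zr n)).setIntegral_preimage_emb
    (measurableEmbedding_addRight _) h _

theorem pois_unfold {h : V3 → ℂ} (hh : Integrable h) :
    ∫ x in poisCube 0, ∑' n : Z3, h (x + zr n) = ∫ x, h x := by
  rw [← integral_tsum_of_summable_integral_norm
    (fun n => (hh.comp_add_right (zr n)).integrableOn) (pois_cube_sum hh.norm).summable]
  exact (pois_cube_sum hh).tsum_eq

/-- the character of the torus, on representatives -/
noncomputable def poisE (m : Z3) (x : V3) : ℂ :=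
  Complex.exp (∑ i, -(2 * Real.pi * Complex.I * m i) * x i)

theorem pois_E_eq (m : Z3) (x : V3) :
    UnitAddTorus.mFourier (-m) (fun i => (x i : UnitAddCircle)) = poisE m x := by
  rw [poisE, Complex.exp_sum]
  show ∏ i, fourier ((-m) i) (x i : UnitAddCircle) = _
  refine Finset.prod_congr rfl fun i _ => ?_
  rw [fourier_coe_apply]
  congr 1
  simp

theorem pois_E_add (m n : Z3) (x : V3) : poisE m (x + zr n) = poisE m x := by
  rw [← pois_E_eq, ← pois_E_eq]
  congr 1
  funext i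
  have h : ((n i : ℝ) : UnitAddCircle) = 0 :=
    (AddCircle.coe_eq_zero_iff _).2 ⟨n i, by simp⟩
  rw [Pi.add_apply, AddCircle.coe_add, zr, h, add_zero]

theorem pois_general {f : V3 → ℂ} (hf : Continuous f) {A : ℝ}
    (hA : ∀ y, ‖f y‖ ≤ A * ∏ i, Real.exp (-|y i|))
    (hi : ∀ m, Integrable fun x => poisE m x * f x)
    (hs : Summable fun m : Z3 => ∫ x, poisE m x * f x) :
    ∑' n : Z3, f (zr n) = ∑' m : Z3, ∫ x, poisE m x * f x := by
  have hA0 : 0 ≤ A := by simpa using (norm_nonneg _).trans (hA 0)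
  let G : V3 → ℂ := fun x => ∑' n : Z3, f (x + zr n)
  have hG : Continuous G := by
    refine continuous_iff_continuousAt.2 fun x0 => ?_
    have h1 : ContinuousOn G (Metric.ball 0 (‖x0‖ + 1)) := by
      refine continuousOn_tsum (fun n => (hf.comp (continuous_add_const _)).continuousOn)
        (pois_sum_prod.mul_left (A * Real.exp (‖x0‖ + 1) ^ 3)) fun n x hx => (hA _).trans ?_
      rw [mul_assoc]
      refine mul_le_mul_of_nonneg_left ?_ hA0
      have h2 : Real.exp (‖x0‖ + 1) ^ 3 = ∏ _i : Fin 3, Real.exp (‖x0‖ + 1) := by simp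
      rw [h2, ← Finset.prod_mul_distrib]
      refine Finset.prod_le_prod (fun _ _ => (Real.exp_pos _).le) fun i _ => ?_
      rw [← Real.exp_add]
      apply Real.exp_le_exp.2
      have h3 : |x i| ≤ ‖x‖ := norm_le_pi_norm x i
      have h4 : ‖x‖ < ‖x0‖ + 1 := mem_ball_zero_iff.1 hx
      have h5 : |zr n i| ≤ |x i + zr n i| + |x i| := by
        simpa using abs_sub (x i + zr n i) (x i)
      rw [Pi.add_apply]
      linarith
    exact h1.continuousAt (Metric.isOpen_ball.mem_nhds (mem_ball_zero_iff.2 (lt_add_one _)))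
  have hper : ∀ (x : V3) (k : Z3), G (x + zr k) = G x := fun x k => by
    refine Eq.trans (tsum_congr fun n => ?_) ((Equiv.addLeft k).tsum_eq fun n => f (x + zr n))
    congr 1
    funext i
    simp [zr, add_assoc]
  let p : V3 → UnitAddTorus (Fin 3) := fun x i => (x i : UnitAddCircle)
  have hp : IsOpenQuotientMap p :=
    IsOpenQuotientMap.piMap fun _ => QuotientAddGroup.isOpenQuotientMap_mk
  choose s hs' using hp.surjective
  have hF : ∀ x, G (s (p x)) = G x := fun x => by
    have h1 : ∀ i, ∃ k : ℤ, s (p x) i = x i + k := fun i => by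
      have h2 : ((s (p x) i - x i : ℝ) : UnitAddCircle) = 0 := by
        rw [AddCircle.coe_sub, sub_eq_zero]
        exact congrFun (hs' (p x)) i
      obtain ⟨k, hk⟩ := (AddCircle.coe_eq_zero_iff _).1 h2
      exact ⟨k, by rw [zsmul_eq_mul, mul_one] at hk; linarith⟩
    choose k hk using h1
    rw [← hper x k]
    exact congrArg G (funext hk)
  let F : C(UnitAddTorus (Fin 3), ℂ) := ⟨fun t => G (s t), by
    rw [← hp.continuous_comp_iff]
    exact hG.congr fun x => (hF x).symm⟩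
  have hc : ∀ m, UnitAddTorus.mFourierCoeff F m = ∫ x, poisE m x * f x := fun m => by
    rw [UnitAddTorus.mFourierCoeff_eq_integral F m 0, ← pois_unfold (hi m)]
    refine integral_congr_ae (Filter.Eventually.of_forall fun x => ?_)
    have h1 : F (fun i => (x i : UnitAddCircle)) = G x := hF x
    simp only [h1, pois_E_eq, pois_E_add, smul_eq_mul, tsum_mul_left]
    rfl
  have h1 := UnitAddTorus.hasSum_mFourier_series_apply_of_summable (f := F)
    (hs.congr fun m => (hc m).symm) (p 0)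
  have h2 : F (p 0) = ∑' n : Z3, f (zr n) := by
    refine (hF 0).trans (tsum_congr fun n => ?_)
    rw [zero_add]
  have h3 : ∀ m : Z3, UnitAddTorus.mFourier m (p 0) = 1 := fun m => by
    have h4 := pois_E_eq (-m) 0
    rw [neg_neg] at h4
    exact h4.trans (by simp [poisE])
  rw [← h2, ← h1.tsum_eq]
  exact tsum_congr fun m => by rw [h3, hc, smul_eq_mul, mul_one]

theorem pois_ft {C : M3} (hC : C.det ≠ 0) (m : Z3) :
    Integrable (fun x : V3 =>
      poisE m x * (Real.exp (-Real.pi * ∑ j, (C *ᵥ x) j ^ 2) : ℝ)) ∧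
    ∫ x : V3, poisE m x * (Real.exp (-Real.pi * ∑ j, (C *ᵥ x) j ^ 2) : ℝ) =
      (|C.det|⁻¹ * Real.exp (-Real.pi * ∑ j, (C⁻¹ᵀ *ᵥ zr m) j ^ 2) : ℝ) := by
  let c : Fin 3 → ℂ := fun j => -(2 * Real.pi * Complex.I * (C⁻¹ᵀ *ᵥ zr m) j)
  let φ : V3 → ℂ := fun v => Complex.exp (-(Real.pi : ℂ) * ∑ i, (v i : ℂ) ^ 2 + ∑ i, c i * v i)
  have hb : 0 < (Real.pi : ℂ).re := Real.pi_pos
  have hφ : Continuous φ := by fun_prop
  have h1 : (fun x : V3 => poisE m x * (Real.exp (-Real.pi * ∑ j, (C *ᵥ x) j ^ 2) : ℝ)) =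
      fun x => φ (toLin' C x) := by
    funext x
    have h2 : (C⁻¹ᵀ *ᵥ zr m) ⬝ᵥ (C *ᵥ x) = zr m ⬝ᵥ x := by
      rw [mulVec_transpose, ← dotProduct_mulVec, mulVec_mulVec, nonsing_inv_mul _ (Ne.isUnit hC),
        one_mulVec]
    have h3 := congrArg (fun r : ℝ => (r : ℂ)) h2
    simp only [dotProduct, zr, Complex.ofReal_sum, Complex.ofReal_mul,
      Complex.ofReal_intCast] at h3
    have h4 : ∑ i, c i * ((C *ᵥ x) i : ℂ) = ∑ i, -(2 * Real.pi * Complex.I * m i) * x i := by
      simp only [c, neg_mul, mul_assoc, Finset.sum_neg_distrib, ← Finset.mul_sum]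
      rw [← h3]
    simp only [φ, toLin'_apply, h4]
    rw [poisE, Complex.exp_add, mul_comm]
    push_cast
    rfl
  have hm := Real.map_matrix_volume_pi_eq_smul_volume_pi hC
  have hL : AEMeasurable (toLin' C) (volume : Measure V3) :=
    (LinearMap.continuous_of_finiteDimensional _).aemeasurable
  rw [h1]
  constructor
  · refine (integrable_map_measure hφ.aestronglyMeasurable hL).1 ?_
    rw [hm]
    exact (GaussianFourier.integrable_cexp_neg_mul_sum_add hb c).smul_measure
      ENNReal.ofReal_ne_top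
  · rw [← integral_map hL hφ.aestronglyMeasurable, hm, integral_smul_measure,
      GaussianFourier.integral_cexp_neg_mul_sum_add hb c, ENNReal.toReal_ofReal (abs_nonneg _),
      div_self (Complex.ofReal_ne_zero.2 Real.pi_ne_zero), Complex.one_cpow, one_mul, abs_inv,
      Complex.real_smul, Complex.ofReal_mul, Complex.ofReal_exp]
    congr 2
    have h2 : (Real.pi : ℂ) ≠ 0 := Complex.ofReal_ne_zero.2 Real.pi_ne_zero
    simp only [c, Fin.sum_univ_three]
    push_cast
    field_simp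
    rw [Complex.I_sq]
    ring

theorem sP1 : SP1 := by
  intro C hC
  refine ⟨pois_summable hC, ?_⟩
  have hC' : C⁻¹ᵀ.det ≠ 0 := by
    rw [det_transpose]
    exact (isUnit_nonsing_inv_det C (Ne.isUnit hC)).ne_zero
  obtain ⟨A, -, hA⟩ := pois_bound hC
  have h1 := pois_general
    (f := fun x : V3 => ((Real.exp (-Real.pi * ∑ j, (C *ᵥ x) j ^ 2) : ℝ) : ℂ))
    (by fun_prop) (A := A)
    (fun y => by rw [Complex.norm_real, Real.norm_of_nonneg (Real.exp_pos _).le]; exact hA y)
    (fun m => (pois_ft hC m).1)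
    ((Complex.summable_ofReal.2 ((pois_summable hC').mul_left |C.det|⁻¹)).congr
      fun m => (pois_ft hC m).2.symm)
  simp only [(pois_ft hC _).2] at h1
  rw [← Complex.ofReal_tsum, ← Complex.ofReal_tsum, Complex.ofReal_inj, tsum_mul_left] at h1
  exact h1

end Pool.Agent.CubH
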