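import Pool.Agent.Lib.MP_d79f69_nt.Iface

/-!
Lattice points near a nondegenerate quadric patch.
-/

open Finset

namespace Pool.Agent.CubH

theorem quad_ee_add (x y : ℝ) : ee (x + y) = ee x * ee y := by
  unfold ee
  rw [← Complex.exp_add]
  congr 1
  push_cast
  ring

theorem quad_ee_eq (x : ℝ) : ee x = Complex.exp (Complex.I * ((2 * Real.pi * x : ℝ) : ℂ)) := by
  unfold ee
  congr 1
  push_cast
  ring

theorem quad_norm_ee (x : ℝ) : ‖ee x‖ = 1 := by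
  rw [quad_ee_eq, Complex.norm_exp_I_mul_ofReal]

theorem quad_ee_int (n : ℤ) : ee n = 1 := by
  unfold ee
  have : (2 * Real.pi * Complex.I * ((n : ℝ) : ℂ) : ℂ) = n * (2 * Real.pi * Complex.I) := by
    push_cast
    ring
  rw [this, Complex.exp_int_mul_two_pi_mul_I]

theorem quad_conj_ee (x : ℝ) : (starRingEnd ℂ) (ee x) = ee (-x) := by
  unfold ee
  rw [← Complex.exp_conj]
  congr 1
  simp [Complex.conj_ofReal, map_ofNat]

theorem quad_upper (x : ℝ) : ‖ee x - 1‖ ≤ 8 * |x| := by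
  rw [quad_ee_eq]
  refine Real.norm_exp_I_mul_ofReal_sub_one_le.trans ?_
  rw [Real.norm_eq_abs, abs_mul, abs_of_pos (by positivity : 0 < 2 * Real.pi)]
  have := Real.pi_le_four
  have := abs_nonneg x
  nlinarith

theorem quad_lower {x : ℝ} (hx : |x| ≤ 1 / 2) : 4 * |x| ≤ ‖ee x - 1‖ := by
  rw [quad_ee_eq, Complex.norm_exp_I_mul_ofReal_sub_one, Real.norm_eq_abs, abs_mul]
  have hp := Real.pi_pos
  have e : 2 * Real.pi * x / 2 = Real.pi * x := by ring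
  rw [e]
  have h1 : |Real.pi * x| ≤ Real.pi / 2 := by
    rw [abs_mul, abs_of_pos hp]
    nlinarith
  have h2 := Real.mul_abs_le_abs_sin h1
  rw [abs_mul, abs_of_pos hp] at h2
  have e2 : 2 / Real.pi * (Real.pi * |x|) = 2 * |x| := by field_simp
  rw [e2] at h2
  rw [abs_two]
  linarith

theorem quad_geo {α : ℝ} (h0 : α ≠ 0) (h1 : |α| ≤ 1 / 2) (a b : ℤ) (c : ℝ) :
    ‖∑ t ∈ Ico a b, ee (α * t + c)‖ ≤ 1 / (2 * |α|) := by
  have key : (ee α - 1) * ∑ t ∈ Ico a b, ee (α * t + c) =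
      ee (α * (a + ((b - a).toNat : ℕ)) + c) - ee (α * (a + (0 : ℕ)) + c) := by
    rw [Int.Ico_eq_finset_map, Finset.sum_map, Finset.mul_sum,
      ← Finset.sum_range_sub (fun i : ℕ => ee (α * (a + i) + c))]
    refine Finset.sum_congr rfl fun i _ => ?_
    have e : α * (a + ((i + 1 : ℕ) : ℝ)) + c = α + (α * (a + i) + c) := by
      push_cast
      ring
    rw [e, quad_ee_add α]
    simp only [Function.Embedding.trans_apply, Nat.castEmbedding_apply, addLeftEmbedding_apply,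
      Int.cast_add, Int.cast_natCast]
    ring
  have h2 : ‖ee α - 1‖ * ‖∑ t ∈ Ico a b, ee (α * t + c)‖ ≤ 2 := by
    rw [← norm_mul, key]
    refine (norm_sub_le _ _).trans ?_
    rw [quad_norm_ee, quad_norm_ee]
    norm_num
  have h3 := quad_lower h1
  have h4 : 0 < |α| := abs_pos.2 h0
  rw [le_div_iff₀ (by positivity)]
  have h5 := norm_nonneg (∑ t ∈ Ico a b, ee (α * t + c))
  nlinarith

theorem quad_triv {ι : Type*} (S : Finset ι) (f : ι → ℝ) : ‖∑ t ∈ S, ee (f t)‖ ≤ S.card := by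
  refine (norm_sum_le _ _).trans ?_
  simp [quad_norm_ee]

theorem quad_harm (M : ℕ) :
    ∑ j ∈ Icc (-(M : ℤ)) M, 1 / |(j : ℝ)| ≤ 2 * (1 + Real.log M) := by
  have h : ∑ j ∈ Icc (-(M : ℤ)) M, 1 / |(j : ℝ)| = 2 * (harmonic M : ℝ) := by
    induction M with
    | zero => simp
    | succ M ih =>
      rw [Nat.cast_add, Nat.cast_one, Finset.Icc_succ_succ, Finset.sum_union (by simp),
        Finset.sum_pair (by omega), ih, harmonic_succ]
      have : (0 : ℝ) < (M : ℝ) + 1 := by positivity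
      push_cast
      rw [abs_neg, abs_of_pos this]
      field_simp
      ring
  rw [h]
  have := harmonic_le_one_add_log M
  linarith

theorem quad_sum_inj {ι κ : Type*} [DecidableEq κ] (S : Finset ι) (T : Finset κ) (f : ι → κ)
    (g : κ → ℝ) (hf : Set.InjOn f S) (hT : ∀ i ∈ S, f i ∈ T) (hg : ∀ k, 0 ≤ g k) :
    ∑ i ∈ S, g (f i) ≤ ∑ k ∈ T, g k := by
  rw [← Finset.sum_image (s := S) (g := f) (f := g) hf]
  refine Finset.sum_le_sum_of_subset_of_nonneg ?_ fun k _ _ => hg k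
  intro k hk
  obtain ⟨i, hi, rfl⟩ := Finset.mem_image.1 hk
  exact hT i hi

theorem quad_sq_sum {ι : Type*} (S : Finset ι) (f : ι → ℝ) :
    ((‖∑ p ∈ S, ee (f p)‖ ^ 2 : ℝ) : ℂ) = ∑ p ∈ S, ∑ p' ∈ S, ee (f p' - f p) := by
  push_cast
  rw [← Complex.conj_mul', map_sum, Finset.sum_mul_sum]
  refine Finset.sum_congr rfl fun p _ => Finset.sum_congr rfl fun p' _ => ?_
  rw [quad_conj_ee, ← quad_ee_add]
  congr 1
  ring

/-- Weyl differencing in a square. -/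
theorem quad_weyl (m1 m2 : ℤ) (n : ℕ) (φ α1 α2 c g1 g2 : ℤ × ℤ → ℝ)
    (hφ : ∀ p u : ℤ × ℤ, φ (p + u) - φ p = α1 u * p.1 + c u + (α2 u * p.2 + 0))
    (h1 : ∀ u ∈ Icc (-(n : ℤ)) n ×ˢ Icc (-(n : ℤ)) n, ∀ (a b : ℤ) (c : ℝ), b - a ≤ n →
      ‖∑ t ∈ Ico a b, ee (α1 u * t + c)‖ ≤ g1 u)
    (h2 : ∀ u ∈ Icc (-(n : ℤ)) n ×ˢ Icc (-(n : ℤ)) n, ∀ (a b : ℤ) (c : ℝ), b - a ≤ n →
      ‖∑ t ∈ Ico a b, ee (α2 u * t + c)‖ ≤ g2 u) :
    ‖∑ p ∈ Ico m1 (m1 + n) ×ˢ Ico m2 (m2 + n), ee (φ p)‖ ^ 2 ≤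
      ∑ u ∈ Icc (-(n : ℤ)) n ×ˢ Icc (-(n : ℤ)) n, g1 u * g2 u := by
  classical
  generalize hS : Ico m1 (m1 + n) ×ˢ Ico m2 (m2 + n) = S
  generalize hU : Icc (-(n : ℤ)) n ×ˢ Icc (-(n : ℤ)) n = U at h1 h2
  have e1 : ∀ p ∈ S, ∑ p' ∈ S, ee (φ p' - φ p) =
      ∑ u ∈ U, if p + u ∈ S then ee (φ (p + u) - φ p) else 0 := by
    intro p hp
    rw [← Finset.sum_filter]
    symm
    refine Finset.sum_bij' (fun u _ => p + u) (fun p' _ => p' - p) ?_ ?_ ?_ ?_ ?_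
    · intro u hu
      exact (Finset.mem_filter.1 hu).2
    · intro p' hp'
      refine Finset.mem_filter.2 ⟨?_, by simpa using hp'⟩
      rw [← hS] at hp hp'
      rw [← hU]
      simp only [Finset.mem_product, Finset.mem_Ico, Finset.mem_Icc, Prod.fst_sub,
        Prod.snd_sub] at hp hp' ⊢
      omega
    · intro u _
      simp
    · intro u _
      simp
    · intro u _
      rfl
  have e2 : ∀ u : ℤ × ℤ, S.filter (fun p => p + u ∈ S) =
      Ico (max m1 (m1 - u.1)) (min (m1 + n) (m1 + n - u.1)) ×ˢ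
        Ico (max m2 (m2 - u.2)) (min (m2 + n) (m2 + n - u.2)) := by
    intro u
    ext p
    rw [← hS]
    simp only [Finset.mem_filter, Finset.mem_product, Finset.mem_Ico, Prod.fst_add, Prod.snd_add]
    omega
  have e3 : ((‖∑ p ∈ S, ee (φ p)‖ ^ 2 : ℝ) : ℂ) = ∑ u ∈ U,
      (∑ t ∈ Ico (max m1 (m1 - u.1)) (min (m1 + n) (m1 + n - u.1)), ee (α1 u * t + c u)) *
      (∑ t ∈ Ico (max m2 (m2 - u.2)) (min (m2 + n) (m2 + n - u.2)), ee (α2 u * t + 0)) := by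
    rw [quad_sq_sum, Finset.sum_congr rfl e1, Finset.sum_comm]
    refine Finset.sum_congr rfl fun u _ => ?_
    rw [← Finset.sum_filter, e2, Finset.sum_mul_sum, Finset.sum_product]
    refine Finset.sum_congr rfl fun t _ => Finset.sum_congr rfl fun t' _ => ?_
    rw [hφ, quad_ee_add]
  have e4 : ‖∑ p ∈ S, ee (φ p)‖ ^ 2 = ‖((‖∑ p ∈ S, ee (φ p)‖ ^ 2 : ℝ) : ℂ)‖ := by
    rw [Complex.norm_real, Real.norm_eq_abs, abs_of_nonneg (by positivity)]
  rw [e4, e3]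
  refine (norm_sum_le _ _).trans (Finset.sum_le_sum fun u hu => ?_)
  rw [norm_mul]
  have a1 := h1 u hu (max m1 (m1 - u.1)) (min (m1 + n) (m1 + n - u.1)) (c u) (by omega)
  have a2 := h2 u hu (max m2 (m2 - u.2)) (min (m2 + n) (m2 + n - u.2)) 0 (by omega)
  exact mul_le_mul a1 a2 (norm_nonneg _) ((norm_nonneg _).trans a1)

/-- the majorant attached to a cell -/
noncomputable def quadMu (n D : ℝ) (j : ℤ) : ℝ := (if j = 0 then n else 0) + D * (1 / |(j : ℝ)|)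

theorem quadMu_nonneg {n D : ℝ} (hn : 0 ≤ n) (hD : 0 ≤ D) (j : ℤ) : 0 ≤ quadMu n D j := by
  unfold quadMu
  split_ifs <;> positivity

theorem quadMu_sum {n D : ℝ} (hD : 0 ≤ D) (M : ℕ) :
    ∑ j ∈ Icc (-(M : ℤ)) M, quadMu n D j ≤ n + D * (2 * (1 + Real.log M)) := by
  unfold quadMu
  rw [Finset.sum_add_distrib, Finset.sum_ite_eq', ← Finset.mul_sum, if_pos (by simp)]
  have := quad_harm M
  gcongr

theorem quad_geo_mu {T k β : ℝ} (n : ℕ) (hT : 0 < T) (hk : k ≠ 0) (h1 : |k * β| ≤ 1 / 2)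
    (a b : ℤ) (c : ℝ) (hab : b - a ≤ n) :
    ‖∑ t ∈ Ico a b, ee (k * β * t + c)‖ ≤ quadMu n (T / |k|) (round (T * β)) := by
  unfold quadMu
  have hk' : 0 < |k| := abs_pos.2 hk
  by_cases hj : round (T * β) = 0
  · rw [if_pos hj, hj]
    refine (quad_triv _ _).trans ?_
    simp only [Int.card_Ico, Int.cast_zero, abs_zero, div_zero, mul_zero, add_zero, Nat.cast_le]
    omega
  · rw [if_neg hj, zero_add]
    have h2 : (1 : ℝ) ≤ |((round (T * β) : ℤ) : ℝ)| := by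
      rw [← Int.cast_abs]
      exact_mod_cast Int.one_le_abs hj
    have h3 := abs_sub_round (T * β)
    have h4 : |((round (T * β) : ℤ) : ℝ)| ≤ 2 * (T * |β|) := by
      have := abs_sub_abs_le_abs_sub ((round (T * β) : ℤ) : ℝ) (T * β)
      rw [abs_sub_comm, abs_mul, abs_of_pos hT] at this
      linarith
    have hβ : 0 < |β| := by
      by_contra hh
      have : |β| = 0 := le_antisymm (not_lt.1 hh) (abs_nonneg _)
      rw [this] at h4
      linarith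
    refine (quad_geo (mul_ne_zero hk (abs_pos.1 hβ)) h1 a b c).trans ?_
    rw [abs_mul, div_mul_div_comm, div_le_div_iff₀ (by positivity) (by positivity)]
    nlinarith

/-- the quadratic function -/
noncomputable def quadQ (a11 a12 a22 b1 b2 d : ℝ) (p : ℤ × ℤ) : ℝ :=
  (a11 * p.1 ^ 2 + 2 * a12 * p.1 * p.2 + a22 * p.2 ^ 2) / 2 + b1 * p.1 + b2 * p.2 + d

theorem quad_Ek {T a11 a12 a22 b1 b2 d k : ℝ} (hT : 0 < T) (hk : k ≠ 0) (m1 m2 : ℤ) (n M : ℕ)
    (hsep : ∀ u1 u2 : ℝ, 2 * max |u1| |u2| ≤ T * max |a11 * u1 + a12 * u2| |a12 * u1 + a22 * u2|)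
    (hsm : ∀ u1 u2 : ℝ, |u1| ≤ n → |u2| ≤ n →
      |k * (a11 * u1 + a12 * u2)| ≤ 1 / 2 ∧ |k * (a12 * u1 + a22 * u2)| ≤ 1 / 2 ∧
      |T * (a11 * u1 + a12 * u2)| + 1 ≤ M ∧ |T * (a12 * u1 + a22 * u2)| + 1 ≤ M) :
    ‖∑ p ∈ Ico m1 (m1 + n) ×ˢ Ico m2 (m2 + n), ee (k * quadQ a11 a12 a22 b1 b2 d p)‖ ≤
      n + T / |k| * (2 * (1 + Real.log M)) := by
  have hD : 0 ≤ T / |k| := by positivity
  have hU : ∀ u ∈ Icc (-(n : ℤ)) n ×ˢ Icc (-(n : ℤ)) n,
      |(u.1 : ℝ)| ≤ n ∧ |(u.2 : ℝ)| ≤ n := by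
    intro u hu
    simp only [Finset.mem_product, Finset.mem_Icc] at hu
    constructor
    · rw [← Int.cast_abs]
      exact_mod_cast abs_le.2 hu.1
    · rw [← Int.cast_abs]
      exact_mod_cast abs_le.2 hu.2
  have h1 := quad_weyl m1 m2 n (fun p => k * quadQ a11 a12 a22 b1 b2 d p)
    (fun u => k * (a11 * u.1 + a12 * u.2)) (fun u => k * (a12 * u.1 + a22 * u.2))
    (fun u => k * (quadQ a11 a12 a22 b1 b2 d u - d))
    (fun u => quadMu n (T / |k|) (round (T * (a11 * u.1 + a12 * u.2))))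
    (fun u => quadMu n (T / |k|) (round (T * (a12 * u.1 + a22 * u.2))))
    (by
      intro p u
      simp only [quadQ, Prod.fst_add, Prod.snd_add]
      push_cast
      ring)
    (fun u hu a b c hab =>
      quad_geo_mu n hT hk (hsm _ _ (hU u hu).1 (hU u hu).2).1 a b c hab)
    (fun u hu a b c hab =>
      quad_geo_mu n hT hk (hsm _ _ (hU u hu).1 (hU u hu).2).2.1 a b c hab)
  have hr : ∀ x : ℝ, |x| + 1 ≤ M → round x ∈ Icc (-(M : ℤ)) M := by
    intro x hx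
    have h3 := abs_sub_round x
    have h4 := abs_sub_abs_le_abs_sub ((round x : ℤ) : ℝ) x
    rw [abs_sub_comm] at h4
    have h5 : |((round x : ℤ) : ℝ)| ≤ M := by linarith
    rw [← Int.cast_abs] at h5
    have h6 : |round x| ≤ (M : ℤ) := by exact_mod_cast h5
    exact Finset.mem_Icc.2 (abs_le.1 h6)
  have hrr : ∀ x y : ℝ, round x = round y → |x - y| ≤ 1 := by
    intro x y h
    have h3 := abs_le.1 (abs_sub_round x)
    have h4 := abs_le.1 (abs_sub_round y)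
    rw [h] at h3
    rw [abs_le]
    constructor <;> linarith [h3.1, h3.2, h4.1, h4.2]
  have h2 := quad_sum_inj (Icc (-(n : ℤ)) n ×ˢ Icc (-(n : ℤ)) n)
    (Icc (-(M : ℤ)) M ×ˢ Icc (-(M : ℤ)) M)
    (fun u => (round (T * (a11 * u.1 + a12 * u.2)), round (T * (a12 * u.1 + a22 * u.2))))
    (fun j => quadMu n (T / |k|) j.1 * quadMu n (T / |k|) j.2)
    (by
      intro u _ v _ huv
      simp only [Prod.mk.injEq] at huv
      have a1 := hrr _ _ huv.1
      have a2 := hrr _ _ huv.2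
      have a3 := hsep (u.1 - v.1) (u.2 - v.2)
      have e1 : T * (a11 * u.1 + a12 * u.2) - T * (a11 * v.1 + a12 * v.2) =
          T * (a11 * (u.1 - v.1) + a12 * (u.2 - v.2)) := by ring
      have e2 : T * (a12 * u.1 + a22 * u.2) - T * (a12 * v.1 + a22 * v.2) =
          T * (a12 * (u.1 - v.1) + a22 * (u.2 - v.2)) := by ring
      rw [e1, abs_mul, abs_of_pos hT] at a1
      rw [e2, abs_mul, abs_of_pos hT] at a2
      rw [mul_max_of_nonneg _ _ hT.le] at a3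
      have a4 := a3.trans (max_le a1 a2)
      have a5 : |(u.1 : ℝ) - v.1| < 1 := by
        linarith [le_max_left |(u.1 : ℝ) - v.1| |(u.2 : ℝ) - v.2|]
      have a6 : |(u.2 : ℝ) - v.2| < 1 := by
        linarith [le_max_right |(u.1 : ℝ) - v.1| |(u.2 : ℝ) - v.2|]
      have a7 : |u.1 - v.1| < 1 := by exact_mod_cast a5
      have a8 : |u.2 - v.2| < 1 := by exact_mod_cast a6
      rw [abs_lt] at a7 a8
      ext <;> omega)
    (fun u hu => Finset.mem_product.2 ⟨hr _ (hsm _ _ (hU u hu).1 (hU u hu).2).2.2.1,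
      hr _ (hsm _ _ (hU u hu).1 (hU u hu).2).2.2.2⟩)
    (fun j => mul_nonneg (quadMu_nonneg (by positivity) hD _) (quadMu_nonneg (by positivity) hD _))
  rw [Finset.sum_product (Icc (-(M : ℤ)) M), ← Finset.sum_mul_sum] at h2
  have h3 := quadMu_sum (n := n) hD M
  have h4 : 0 ≤ ∑ j ∈ Icc (-(M : ℤ)) M, quadMu n (T / |k|) j :=
    Finset.sum_nonneg fun j _ => quadMu_nonneg (by positivity) hD _
  refine le_trans ((pow_le_pow_iff_left₀ (norm_nonneg _) h4 two_ne_zero).1 ?_) h3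
  rw [pow_two (∑ j ∈ Icc (-(M : ℤ)) M, quadMu n (T / |k|) j)]
  exact h1.trans h2

/-- the Fejer kernel step -/
theorem quad_fejer {ι : Type*} [DecidableEq ι] (S P : Finset ι) (hP : P ⊆ S) (q : ι → ℝ) (K : ℕ)
    (δ x D : ℝ) (hx : 0 ≤ x) (hD : 0 ≤ D) (hδ : K * δ ≤ 1 / 16)
    (hq : ∀ p ∈ P, ∃ n : ℤ, |q p - n| ≤ δ)
    (hE : ∀ k : ℝ, k ≠ 0 → |k| ≤ K → ‖∑ p ∈ S, ee (k * q p)‖ ≤ x + D / |k|) :
    (P.card : ℝ) * (K / 2) ^ 2 ≤ K * (S.card + K * x + D * (2 * (1 + Real.log K))) := by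
  have h1 : ∀ p ∈ P, ((K : ℝ) / 2) ^ 2 ≤ ‖∑ j ∈ range K, ee (j * q p)‖ ^ 2 := by
    intro p hp
    obtain ⟨n, hn⟩ := hq p hp
    have a1 : ∀ j ∈ range K, ‖ee (j * q p) - 1‖ ≤ 1 / 2 := by
      intro j hj
      have e : (j : ℝ) * q p = j * (q p - n) + ((j * n : ℤ) : ℝ) := by
        push_cast
        ring
      rw [e, quad_ee_add, quad_ee_int, mul_one]
      refine (quad_upper _).trans ?_
      rw [abs_mul, Nat.abs_cast]
      have hj' : (j : ℝ) ≤ K := by exact_mod_cast (Finset.mem_range.1 hj).le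
      have := mul_le_mul hj' hn (abs_nonneg _) (Nat.cast_nonneg _)
      linarith
    have a2 : ‖∑ j ∈ range K, (ee (j * q p) - 1)‖ ≤ K / 2 := by
      refine (norm_sum_le _ _).trans ((Finset.sum_le_sum a1).trans ?_)
      simp only [Finset.sum_const, Finset.card_range, nsmul_eq_mul]
      linarith
    rw [Finset.sum_sub_distrib] at a2
    simp only [Finset.sum_const, Finset.card_range, nsmul_eq_mul, mul_one] at a2
    have a3 := norm_sub_norm_le (K : ℂ) (∑ j ∈ range K, ee (j * q p))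
    rw [norm_sub_rev, Complex.norm_natCast] at a3
    have a4 : (K : ℝ) / 2 ≤ ‖∑ j ∈ range K, ee (j * q p)‖ := by linarith
    exact pow_le_pow_left₀ (by positivity) a4 2
  have h2 : (P.card : ℝ) * (K / 2) ^ 2 ≤ ∑ p ∈ S, ‖∑ j ∈ range K, ee (j * q p)‖ ^ 2 := by
    refine le_trans ?_ (Finset.sum_le_sum_of_subset_of_nonneg hP fun _ _ _ => by positivity)
    refine le_trans ?_ (Finset.sum_le_sum h1)
    simp
  have h3 : ((∑ p ∈ S, ‖∑ j ∈ range K, ee (j * q p)‖ ^ 2 : ℝ) : ℂ) =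
      ∑ j ∈ range K, ∑ j' ∈ range K, ∑ p ∈ S, ee (((j' : ℝ) - j) * q p) := by
    rw [Complex.ofReal_sum]
    simp only [quad_sq_sum]
    rw [Finset.sum_comm]
    refine Finset.sum_congr rfl fun j _ => ?_
    rw [Finset.sum_comm]
    refine Finset.sum_congr rfl fun j' _ => Finset.sum_congr rfl fun p _ => ?_
    congr 1
    ring
  have h4 : ∑ p ∈ S, ‖∑ j ∈ range K, ee (j * q p)‖ ^ 2 =
      ‖((∑ p ∈ S, ‖∑ j ∈ range K, ee (j * q p)‖ ^ 2 : ℝ) : ℂ)‖ := by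
    rw [Complex.norm_real, Real.norm_eq_abs, abs_of_nonneg (by positivity)]
  rw [h4, h3] at h2
  refine h2.trans ((norm_sum_le _ _).trans ?_)
  have h5 : ∀ j ∈ range K, ‖∑ j' ∈ range K, ∑ p ∈ S, ee (((j' : ℝ) - j) * q p)‖ ≤
      S.card + K * x + D * (2 * (1 + Real.log K)) := by
    intro j hj
    have hj' := Finset.mem_range.1 hj
    have b1 : ∀ j' ∈ range K, ‖∑ p ∈ S, ee (((j' : ℝ) - j) * q p)‖ ≤
        x + quadMu S.card D ((j' : ℤ) - j) := by
      intro j' hj2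
      have hj3 := Finset.mem_range.1 hj2
      unfold quadMu
      by_cases h : (j' : ℤ) - j = 0
      · rw [if_pos h, h]
        have := quad_triv S (fun p => ((j' : ℝ) - j) * q p)
        simp only [Int.cast_zero, abs_zero, div_zero, mul_zero, add_zero]
        linarith
      · rw [if_neg h]
        have hne : (j' : ℝ) - j ≠ 0 := by exact_mod_cast h
        have hle : |(j' : ℝ) - j| ≤ K := by
          have : |(j' : ℤ) - j| ≤ K := by
            rw [abs_le]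
            omega
          exact_mod_cast this
        refine (hE _ hne hle).trans (le_of_eq ?_)
        push_cast
        ring
    refine (norm_sum_le _ _).trans ((Finset.sum_le_sum b1).trans ?_)
    rw [Finset.sum_add_distrib]
    have b2 := quad_sum_inj (range K) (Icc (-(K : ℤ)) K) (fun j' : ℕ => (j' : ℤ) - j)
      (quadMu S.card D) (fun a _ b _ h => by
        have h' : (a : ℤ) - j = b - j := h
        omega)
      (fun i hi => by
        have := Finset.mem_range.1 hi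
        simp only [Finset.mem_Icc]
        omega)
      (quadMu_nonneg (Nat.cast_nonneg _) hD)
    have b3 := quadMu_sum (n := S.card) hD K
    simp only [Finset.sum_const, Finset.card_range, nsmul_eq_mul]
    linarith
  refine (Finset.sum_le_sum h5).trans ?_
  rw [Finset.sum_const, Finset.card_range, nsmul_eq_mul]

theorem sQ : SQ := by
  intro C0 hC
  refine ⟨2000 * C0 ^ 4 + 4096 * C0 ^ 3 * (1 + 20 * C0 ^ 3), by positivity, ?_⟩
  intro s a11 a12 a22 b1 b2 d x1 x2 hs h11 h12 h22 hsep P hP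
  classical
  have hs0 : 0 < s := by linarith
  have hC0 : 0 < C0 := by linarith
  have hCs : 1 ≤ C0 * s := by nlinarith
  have hlog : 0 ≤ Real.log s := Real.log_nonneg hs
  obtain ⟨n, hn1, hn2⟩ : ∃ n : ℕ, 2 * (C0 * s) < n ∧ (n : ℝ) ≤ 3 * (C0 * s) := by
    refine ⟨⌊2 * (C0 * s)⌋₊ + 1, ?_, ?_⟩
    · push_cast
      exact Nat.lt_floor_add_one _
    · push_cast
      have := Nat.floor_le (a := 2 * (C0 * s)) (by positivity)
      linarith
  have hI : ∀ (x : ℝ) (t : ℤ), |t - x| ≤ C0 * s → t ∈ Ico ⌈x - C0 * s⌉ (⌈x - C0 * s⌉ + n) := by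
    intro x t ht
    rw [abs_le] at ht
    rw [Finset.mem_Ico, Int.ceil_le]
    refine ⟨by linarith [ht.1], ?_⟩
    have h1 := Int.le_ceil (x - C0 * s)
    have h2 : (t : ℝ) < ⌈x - C0 * s⌉ + n := by linarith [ht.2]
    exact_mod_cast h2
  have hPS : P ⊆ Ico ⌈x1 - C0 * s⌉ (⌈x1 - C0 * s⌉ + n) ×ˢ Ico ⌈x2 - C0 * s⌉ (⌈x2 - C0 * s⌉ + n) :=
    fun p hp => Finset.mem_product.2 ⟨hI _ _ (hP p hp).1, hI _ _ (hP p hp).2.1⟩
  have hcard : ((Ico ⌈x1 - C0 * s⌉ (⌈x1 - C0 * s⌉ + n) ×ˢ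
      Ico ⌈x2 - C0 * s⌉ (⌈x2 - C0 * s⌉ + n)).card : ℝ) ≤ 9 * (C0 * s) ^ 2 := by
    simp only [Finset.card_product, Int.card_Ico, add_sub_cancel_left, Int.toNat_natCast,
      Nat.cast_mul]
    have : (0 : ℝ) ≤ n := Nat.cast_nonneg _
    nlinarith
  have hl1 : (1 : ℝ) ≤ (1 + Real.log s) ^ 2 := by nlinarith
  have hrest : 0 ≤ 4096 * C0 ^ 3 * (1 + 20 * C0 ^ 3) * s * (1 + Real.log s) ^ 2 := by positivity
  by_cases hsm : s < 16 * C0 ^ 2
  · have h1 : (P.card : ℝ) ≤ 9 * (C0 * s) ^ 2 :=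
      le_trans (by exact_mod_cast Finset.card_le_card hPS) hcard
    have h2 : 9 * (C0 * s) ^ 2 ≤ 2000 * C0 ^ 4 * s := by
      have : C0 ^ 2 * s * s ≤ C0 ^ 2 * s * (16 * C0 ^ 2) := by gcongr
      have h4 : 0 ≤ C0 ^ 4 * s := by positivity
      nlinarith
    have h3 : 2000 * C0 ^ 4 * s ≤ 2000 * C0 ^ 4 * s * (1 + Real.log s) ^ 2 :=
      le_mul_of_one_le_right (by positivity) hl1
    nlinarith
  push Not at hsm
  obtain ⟨K, hK1, hK2⟩ : ∃ K : ℕ, (K : ℝ) * (16 * C0 ^ 2) ≤ s ∧ s ≤ K * (32 * C0 ^ 2) := by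
    have hp : 0 < 16 * C0 ^ 2 := by positivity
    have h1 : 1 ≤ s / (16 * C0 ^ 2) := by rwa [le_div_iff₀ hp, one_mul]
    refine ⟨⌊s / (16 * C0 ^ 2)⌋₊, ?_, ?_⟩
    · rw [← le_div_iff₀ hp]
      exact Nat.floor_le (by positivity)
    · have h2 := Nat.lt_floor_add_one (s / (16 * C0 ^ 2))
      have h3 : (1 : ℝ) ≤ ⌊s / (16 * C0 ^ 2)⌋₊ := by
        exact_mod_cast Nat.le_floor (by simpa using h1)
      rw [div_lt_iff₀ hp] at h2
      nlinarith
  have hK0 : (0 : ℝ) < K := by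
    by_contra h
    have : (K : ℝ) = 0 := le_antisymm (not_lt.1 h) (Nat.cast_nonneg _)
    rw [this] at hK2
    linarith
  have hC2 : 1 ≤ C0 ^ 2 := one_le_pow₀ hC
  have hC3 : 1 ≤ C0 ^ 3 := one_le_pow₀ hC
  have hKs : (K : ℝ) ≤ s := by nlinarith
  obtain ⟨M, hM1, hM2⟩ : ∃ M : ℕ, 12 * C0 ^ 3 * s + 1 ≤ M ∧ (M : ℝ) ≤ 20 * C0 ^ 3 * s := by
    refine ⟨⌈12 * C0 ^ 3 * s + 1⌉₊, Nat.le_ceil _, ?_⟩
    have h1 := Nat.ceil_lt_add_one (a := 12 * C0 ^ 3 * s + 1) (by positivity)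
    have h2 : 1 ≤ C0 ^ 3 * s := by nlinarith
    nlinarith
  have hM0 : (1 : ℝ) ≤ M := by
    have : 0 ≤ 12 * C0 ^ 3 * s := by positivity
    linarith
  have hlin : ∀ a a' u1 u2 : ℝ, |a| ≤ C0 / s ^ 2 → |a'| ≤ C0 / s ^ 2 → |u1| ≤ n → |u2| ≤ n →
      |a * u1 + a' * u2| * s ≤ 6 * C0 ^ 2 := by
    intro a a' u1 u2 ha ha' hu1 hu2
    have e : C0 / s ^ 2 * (3 * (C0 * s)) * s = 3 * C0 ^ 2 := by field_simp
    have b1 : |a * u1| ≤ C0 / s ^ 2 * (3 * (C0 * s)) := by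
      rw [abs_mul]
      exact mul_le_mul ha (hu1.trans hn2) (abs_nonneg _) (by positivity)
    have b2 : |a' * u2| ≤ C0 / s ^ 2 * (3 * (C0 * s)) := by
      rw [abs_mul]
      exact mul_le_mul ha' (hu2.trans hn2) (abs_nonneg _) (by positivity)
    have b3 := abs_add_le (a * u1) (a' * u2)
    nlinarith
  have hkb : ∀ k β : ℝ, |k| ≤ K → |β| * s ≤ 6 * C0 ^ 2 → |k * β| ≤ 1 / 2 := by
    intro k β hk hβ
    rw [abs_mul]
    have b1 : |k| * (|β| * s) ≤ K * (6 * C0 ^ 2) :=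
      mul_le_mul hk hβ (by positivity) (by positivity)
    have b2 : |k| * |β| * s ≤ 1 / 2 * s := by nlinarith
    exact le_of_mul_le_mul_right b2 hs0
  have hTb : ∀ β : ℝ, |β| * s ≤ 6 * C0 ^ 2 → |2 * (C0 * s ^ 2) * β| + 1 ≤ (M : ℝ) := by
    intro β hβ
    rw [abs_mul, abs_of_pos (by positivity : 0 < 2 * (C0 * s ^ 2))]
    have b1 : 2 * (C0 * s) * (|β| * s) ≤ 2 * (C0 * s) * (6 * C0 ^ 2) := by gcongr
    nlinarith
  have hlM : 0 ≤ Real.log M := Real.log_nonneg hM0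
  have main := quad_fejer _ P hPS (quadQ a11 a12 a22 b1 b2 d) K (C0 / s) n
    (2 * (C0 * s ^ 2) * (2 * (1 + Real.log M))) (Nat.cast_nonneg _) (by positivity)
    (by
      rw [← mul_div_assoc, div_le_iff₀ hs0]
      nlinarith)
    (fun p hp => (hP p hp).2.2)
    (by
      intro k hk hkK
      refine (quad_Ek (T := 2 * (C0 * s ^ 2)) (by positivity) hk _ _ n M ?_ ?_).trans (le_of_eq ?_)
      · intro u1 u2
        have := hsep u1 u2
        linarith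
      · intro u1 u2 hu1 hu2
        exact ⟨hkb _ _ hkK (hlin _ _ _ _ h11 h12 hu1 hu2), hkb _ _ hkK (hlin _ _ _ _ h12 h22 hu1 hu2),
          hTb _ (hlin _ _ _ _ h11 h12 hu1 hu2), hTb _ (hlin _ _ _ _ h12 h22 hu1 hu2)⟩
      · ring)
  have hlK : 1 + Real.log K ≤ 1 + Real.log s := by
    have := Real.log_le_log hK0 hKs
    linarith
  have hlK0 : 0 ≤ 1 + Real.log K := by
    have := Real.log_natCast_nonneg K
    linarith
  have hlM2 : 1 + Real.log M ≤ (1 + 20 * C0 ^ 3) * (1 + Real.log s) := by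
    have b1 := Real.log_le_log (by linarith) hM2
    rw [Real.log_mul (by positivity) hs0.ne'] at b1
    have b2 := Real.log_le_self (x := 20 * C0 ^ 3) (by positivity)
    have b3 : 0 ≤ C0 ^ 3 * Real.log s := by positivity
    nlinarith
  have hll : (1 + Real.log M) * (1 + Real.log K) ≤ (1 + 20 * C0 ^ 3) * (1 + Real.log s) ^ 2 := by
    have := mul_le_mul hlM2 hlK hlK0 (by positivity)
    nlinarith
  generalize ((Ico ⌈x1 - C0 * s⌉ (⌈x1 - C0 * s⌉ + n) ×ˢ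
      Ico ⌈x2 - C0 * s⌉ (⌈x2 - C0 * s⌉ + n)).card : ℝ) = cS at main hcard
  generalize (1 + Real.log s) ^ 2 = l2 at hl1 hrest hll ⊢
  have m1 : (P.card : ℝ) * K ≤ 4 * (cS + K * n +
      8 * (C0 * s ^ 2) * ((1 + Real.log M) * (1 + Real.log K))) := by
    refine le_of_mul_le_mul_right ?_ hK0
    nlinarith
  have m2 : 8 * (C0 * s ^ 2) * ((1 + Real.log M) * (1 + Real.log K)) ≤
      8 * (C0 * s) * (K * (32 * C0 ^ 2)) * ((1 + 20 * C0 ^ 3) * l2) := by
    have e : 8 * (C0 * s ^ 2) = 8 * (C0 * s) * s := by ring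
    rw [e]
    gcongr
  have m3 : cS ≤ 9 * (C0 ^ 2 * s) * (K * (32 * C0 ^ 2)) := by
    have e : 9 * (C0 * s) ^ 2 = 9 * (C0 ^ 2 * s) * s := by ring
    rw [e] at hcard
    refine hcard.trans ?_
    gcongr
  have m4 : (K : ℝ) * n ≤ K * (3 * (C0 ^ 4 * s)) := by
    have : C0 * s ≤ C0 ^ 4 * s := by
      have : C0 * 1 ≤ C0 * C0 ^ 3 := by gcongr
      nlinarith
    gcongr
    linarith
  have m5 : (P.card : ℝ) ≤ 1164 * (C0 ^ 4 * s) + 1024 * C0 ^ 3 * (1 + 20 * C0 ^ 3) * s * l2 := by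
    refine le_of_mul_le_mul_right ?_ hK0
    nlinarith
  have m6 : C0 ^ 4 * s ≤ C0 ^ 4 * s * l2 := le_mul_of_one_le_right (by positivity) hl1
  have m7 : 0 ≤ C0 ^ 4 * s := by positivity
  nlinarith

end Pool.Agent.CubH
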