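import Pool.Agent.Lib.MP_d79f69_nt.Iface

/-!
The measure of the resonant set.
-/

open Matrix MeasureTheory

namespace Pool.Agent.CubH

theorem radInt {x : ℝ} {m m' : ℤ} {e : ℝ} (h : |x - m| ≤ e) (h' : |x - m'| ≤ e) (he : 2 * e < 1) :
    m = m' := by
  have h1 : |((m - m' : ℤ) : ℝ)| < 1 := by
    rw [abs_le] at h h'
    push_cast
    exact abs_lt.2 ⟨by linarith [h.1, h'.2], by linarith [h.2, h'.1]⟩
  have h2 : |m - m'| < 1 := by exact_mod_cast h1
  have := Int.abs_lt_one_iff.1 h2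
  omega

theorem radDiam {k M T r r' : ℝ} (hk : k ≠ 0) (hM : 0 < M) (hr : 0 < r) (hr' : 0 < r')
    (h1 : r ≤ T) (h2 : r' ≤ T) (h : |k / (24 * r ^ 2) - k / (24 * r' ^ 2)| ≤ 2 / M) :
    |r - r'| ≤ 24 * T ^ 3 / (M * |k|) := by
  have hk' : 0 < |k| := abs_pos.2 hk
  have e : k / (24 * r ^ 2) - k / (24 * r' ^ 2) =
      k * (r' - r) * ((r + r') / (24 * r ^ 2 * r' ^ 2)) := by
    field_simp
    ring
  have hp : 0 < (r + r') / (24 * r ^ 2 * r' ^ 2) := by positivity
  rw [e, abs_mul, abs_mul, abs_of_pos hp, abs_sub_comm] at h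
  have hT : 0 < T := hr.trans_le h1
  have a1 : r ^ 2 * r' ≤ T ^ 3 := by
    have := mul_le_mul (pow_le_pow_left₀ hr.le h1 2) h2 hr'.le (by positivity)
    linarith
  have a2 : r * r' ^ 2 ≤ T ^ 3 := by
    have := mul_le_mul h1 (pow_le_pow_left₀ hr'.le h2 2) (by positivity) hT.le
    linarith
  have h3 : 1 / (12 * T ^ 3) ≤ (r + r') / (24 * r ^ 2 * r' ^ 2) := by
    rw [div_le_div_iff₀ (by positivity) (by positivity)]
    have b1 := mul_le_mul_of_nonneg_left a1 hr'.le
    have b2 := mul_le_mul_of_nonneg_left a2 hr.le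
    nlinarith
  have h4 := (mul_le_mul_of_nonneg_left h3 (by positivity : 0 ≤ |k| * |r - r'|)).trans h
  rw [le_div_iff₀ (by positivity)]
  rw [mul_one_div, div_le_div_iff₀ (by positivity) hM] at h4
  linarith

theorem sR2 (h1 : STr) (h2 : SGe) : SR2 := by
  intro Q c hQ
  obtain ⟨Ct, hCt, ht⟩ := h1 Q hQ
  obtain ⟨_, -, hg⟩ := h2 Q 1 hQ one_ne_zero
  have hQ0 : 0 < Q := by linarith
  set K := 8 * |c| * Ct * Q ^ 2 with hK
  have hK0 : 0 ≤ K := by positivity
  have hQ3 : 0 ≤ 24 * Q ^ 3 := by positivity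
  refine ⟨24 * Q ^ 3 + 5 + K, by linarith, ?_⟩
  intro B hB X H L0 M0 h θ hH hH1 hX c1 c2 c3 c4 c5 hD
  have hH0 : 0 < H := by linarith
  have hX0 : 0 < X := by linarith
  have hs0 : 0 < √H := Real.sqrt_pos.2 hH0
  have hM0 : 0 < M0 := hs0.trans_le c3
  have hkap : |kap B c h θ| ≤ 8 * |c| * Ct * H ^ 3 := by
    have a1 := (ht _ hD (hv B h) (hv B h) (hv B h)).1.2.2
    have a2 : ‖hv B h‖ ≤ 2 * H := hH ▸ (hg B hB).1 h
    have a3 : ‖hv B h‖ ^ 3 ≤ (2 * H) ^ 3 := pow_le_pow_left₀ (norm_nonneg _) a2 3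
    have a4 := mul_le_mul_of_nonneg_left a3 hCt.le
    rw [kap, abs_mul]
    have a5 : |G2 (pp B θ) (hv B h) (hv B h) (hv B h)| ≤ 8 * Ct * H ^ 3 := by linarith
    have := mul_le_mul_of_nonneg_left a5 (abs_nonneg c)
    linarith
  have hterm : ∀ r, X / Q ≤ r → |kap B c h θ / (24 * r ^ 2)| ≤ K * H ^ 3 / (24 * X ^ 2) := by
    intro r hr
    have hr0 : 0 < r := (div_pos hX0 hQ0).trans_le hr
    have a1 : X ≤ r * Q := (div_le_iff₀ hQ0).1 hr
    have a2 : X ^ 2 ≤ (r * Q) ^ 2 := pow_le_pow_left₀ hX0.le a1 2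
    rw [abs_div, abs_of_pos (by positivity : 0 < 24 * r ^ 2),
      div_le_div_iff₀ (by positivity) (by positivity)]
    have a3 := mul_le_mul hkap a2 (by positivity) (by positivity)
    rw [hK]
    linarith
  refine ⟨fun r hr ⟨m, m1, m2, m3⟩ => ⟨m, m1, m2, ?_⟩, fun hk => ?_⟩
  · have a1 := hterm r hr
    have a2 : K * H ^ 3 / (24 * X ^ 2) ≤ K / √H := by
      rw [div_le_div_iff₀ (by positivity) hs0]
      have := mul_le_mul_of_nonneg_left c2 hK0
      have : 0 ≤ K * X ^ 2 := by positivity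
      linarith
    have a3 : 1 / M0 ≤ 1 / √H := one_div_le_one_div_of_le hs0 c3
    have a4 : 1 / √H + K / √H ≤ (24 * Q ^ 3 + 5 + K) / √H := by
      rw [← add_div]
      exact div_le_div_of_nonneg_right (by linarith) hs0.le
    have a5 := abs_add_le (GG B c h θ - kap B c h θ / (24 * r ^ 2) - (m 0 * θ.1 + m 1 * θ.2 + m 2))
      (kap B c h θ / (24 * r ^ 2))
    have e : GG B c h θ - kap B c h θ / (24 * r ^ 2) - (m 0 * θ.1 + m 1 * θ.2 + m 2) +
        kap B c h θ / (24 * r ^ 2) = GG B c h θ - (m 0 * θ.1 + m 1 * θ.2 + m 2) := by ring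
    rw [e] at a5
    linarith
  · refine (Real.volume_le_diam _).trans (Metric.ediam_le_of_forall_dist_le ?_)
    rintro r ⟨r1, r2, m, m1, m2, m3⟩ r' ⟨r1', r2', m', m1', m2', m3'⟩
    have hL : 2 * (1 / L0) < 1 := by
      rw [mul_one_div, div_lt_one (by linarith)]
      linarith
    have e0 : m 0 = m' 0 := radInt m1 m1' hL
    have e1 : m 1 = m' 1 := radInt m2 m2' hL
    have a1 : K * H ^ 3 / (24 * X ^ 2) ≤ 1 / 24 := by
      rw [div_le_div_iff₀ (by positivity) (by norm_num)]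
      have : K * H ^ 3 ≤ (24 * Q ^ 3 + 5 + K) * H ^ 3 :=
        mul_le_mul_of_nonneg_right (by linarith) (by positivity)
      linarith
    have a2 : 1 / M0 ≤ 1 / 5 := one_div_le_one_div_of_le (by norm_num) (by linarith)
    have b1 := abs_le.1 ((hterm r r1).trans a1)
    have b2 := abs_le.1 ((hterm r' r1').trans a1)
    rw [← e0, ← e1] at m3'
    rw [abs_le] at m3 m3'
    have e2 : m 2 = m' 2 := radInt (x := GG B c h θ - (m 0 * θ.1 + m 1 * θ.2)) (e := 1 / 4)
      (abs_le.2 ⟨by linarith [m3.1, b1.1], by linarith [m3.2, b1.2]⟩)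
      (abs_le.2 ⟨by linarith [m3'.1, b2.1], by linarith [m3'.2, b2.2]⟩) (by norm_num)
    rw [← e2] at m3'
    have hd := radDiam hk hM0 ((div_pos hX0 hQ0).trans_le r1) ((div_pos hX0 hQ0).trans_le r1')
      r2 r2' (by
        have : 2 / M0 = 1 / M0 + 1 / M0 := by ring
        rw [this]
        exact abs_le.2 ⟨by linarith [m3.2, m3'.1], by linarith [m3.1, m3'.2]⟩)
    rw [Real.dist_eq]
    refine hd.trans (div_le_div_of_nonneg_right ?_ (by positivity))
    have : 0 ≤ (5 + K) * X ^ 3 := by positivity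
    rw [mul_pow]
    linarith

theorem radCover {ι : Type} (G : Finset ι) (w : ι → ℝ) (P : ι → Finset (ℝ × ℝ)) {n β : ℝ}
    (hβ : 0 ≤ β) (hw : ∀ g ∈ G, 0 ≤ w g) (hP : ∀ g ∈ G, ((P g).card : ℝ) ≤ n)
    (f : ℝ × ℝ → ENNReal)
    (hf : ∀ θ, f θ = 0 ∨ ∃ g ∈ G, f θ ≤ ENNReal.ofReal (w g) ∧ ∃ z ∈ P g, ‖θ - z‖ ≤ β) :
    ∫⁻ θ, f θ ≤ ENNReal.ofReal ((∑ g ∈ G, w g) * (n * (2 * β) ^ 2)) := by
  have h1 : ∀ θ, f θ ≤ ∑ g ∈ G, ∑ z ∈ P g,
      (Metric.closedBall z β).indicator (fun _ => ENNReal.ofReal (w g)) θ := by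
    intro θ
    rcases hf θ with h | ⟨g, hg, h, z, hz, hd⟩
    · rw [h]
      exact zero_le
    · refine le_trans ?_ (Finset.single_le_sum (f := fun g => ∑ z ∈ P g,
        (Metric.closedBall z β).indicator (fun _ => ENNReal.ofReal (w g)) θ)
        (fun _ _ => zero_le) hg)
      refine le_trans ?_ (Finset.single_le_sum (f := fun z =>
        (Metric.closedBall z β).indicator (fun _ => ENNReal.ofReal (w g)) θ)
        (fun _ _ => zero_le) hz)
      rw [Set.indicator_of_mem (mem_closedBall_iff_norm.2 hd)]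
      exact h
  have hvol : ∀ z : ℝ × ℝ, volume (Metric.closedBall z β) = ENNReal.ofReal ((2 * β) ^ 2) := by
    intro z
    rw [← closedBall_prod_same z.1 z.2, Measure.volume_eq_prod, Measure.prod_prod,
      Real.volume_closedBall, Real.volume_closedBall, ← ENNReal.ofReal_mul (by positivity), sq]
  have hm : ∀ (g : ι) (z : ℝ × ℝ),
      Measurable ((Metric.closedBall z β).indicator fun _ => ENNReal.ofReal (w g)) := fun g z =>
    measurable_const.indicator measurableSet_closedBall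
  refine (lintegral_mono h1).trans ?_
  rw [lintegral_finsetSum _ fun g _ => Finset.measurable_fun_sum _ fun z _ => hm g z,
    Finset.sum_mul, ENNReal.ofReal_sum_of_nonneg fun g hg => mul_nonneg (hw g hg)
      (mul_nonneg ((Nat.cast_nonneg _).trans (hP g hg)) (by positivity))]
  refine Finset.sum_le_sum fun g hg => ?_
  rw [lintegral_finsetSum _ fun z _ => hm g z]
  simp only [lintegral_indicator_const measurableSet_closedBall, hvol]
  rw [Finset.sum_const, nsmul_eq_mul, ← ENNReal.ofReal_mul (hw g hg), ← ENNReal.ofReal_natCast,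
    ← ENNReal.ofReal_mul (Nat.cast_nonneg _)]
  refine ENNReal.ofReal_le_ofReal ?_
  have := mul_le_mul_of_nonneg_right (hP g hg) (mul_nonneg (hw g hg) (sq_nonneg (2 * β)))
  linarith

/-- the grid aligned with `h` -/
noncomputable def radPt (a : ℝ) (h : ℝ × ℝ) (j i : ℤ) : ℝ × ℝ :=
  (a * (i * h.1 - j * h.2), a * (i * h.2 + j * h.1))

theorem radPt_add (a : ℝ) (h : ℝ × ℝ) (j i i' : ℤ) :
    radPt a h j i + (a * (i' - i)) • h = radPt a h j i' := by
  ext <;> simp [radPt] <;> ring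

theorem radNear {α H T : ℝ} {h θ : ℝ × ℝ} (hα : 0 < α) (hH : ‖h‖ = H) (hH0 : 0 < H)
    (hθ : ‖θ‖ ≤ T) : ∃ j i : ℤ, |(j : ℝ)| ≤ 2 * T / α + 1 ∧ |(i : ℝ)| ≤ 2 * T / α + 1 ∧
      ‖θ - radPt (α / H) h j i‖ ≤ α := by
  have a1 : |h.1| ≤ H := hH ▸ norm_fst_le h
  have a2 : |h.2| ≤ H := hH ▸ norm_snd_le h
  have b1 : |θ.1| ≤ T := (norm_fst_le θ).trans hθ
  have b2 : |θ.2| ≤ T := (norm_snd_le θ).trans hθ
  have hT : 0 ≤ T := (abs_nonneg _).trans b1
  have hn : H ^ 2 ≤ h.1 ^ 2 + h.2 ^ 2 := by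
    rw [← hH, Prod.norm_def]
    rcases max_choice ‖h.1‖ ‖h.2‖ with e | e <;> rw [e, Real.norm_eq_abs, sq_abs] <;>
      linarith [sq_nonneg h.1, sq_nonneg h.2]
  have hn0 : 0 < h.1 ^ 2 + h.2 ^ 2 := lt_of_lt_of_le (by positivity) hn
  have bound : ∀ u : ℝ, |u| ≤ 2 * T * H → |H * u / (α * (h.1 ^ 2 + h.2 ^ 2))| ≤ 2 * T / α := by
    intro u hu
    rw [abs_div, abs_mul, abs_of_pos hH0, abs_of_pos (mul_pos hα hn0),
      div_le_div_iff₀ (mul_pos hα hn0) hα]
    have c1 := mul_le_mul_of_nonneg_left hu (mul_pos hH0 hα).le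
    have c2 := mul_le_mul_of_nonneg_left hn (by positivity : 0 ≤ 2 * T * α)
    linarith
  have p11 : |θ.1 * h.1| ≤ T * H := by
    rw [abs_mul]
    exact mul_le_mul b1 a1 (abs_nonneg _) hT
  have p22 : |θ.2 * h.2| ≤ T * H := by
    rw [abs_mul]
    exact mul_le_mul b2 a2 (abs_nonneg _) hT
  have p12 : |θ.1 * h.2| ≤ T * H := by
    rw [abs_mul]
    exact mul_le_mul b1 a2 (abs_nonneg _) hT
  have p21 : |θ.2 * h.1| ≤ T * H := by
    rw [abs_mul]
    exact mul_le_mul b2 a1 (abs_nonneg _) hT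
  set x := H * (θ.1 * h.1 + θ.2 * h.2) / (α * (h.1 ^ 2 + h.2 ^ 2)) with hx
  set y := H * (θ.2 * h.1 - θ.1 * h.2) / (α * (h.1 ^ 2 + h.2 ^ 2)) with hy
  have hx1 : |x| ≤ 2 * T / α := bound _ ((abs_add_le _ _).trans (by linarith))
  have hy1 : |y| ≤ 2 * T / α := bound _ ((abs_sub _ _).trans (by linarith))
  have rx := abs_sub_round x
  have ry := abs_sub_round y
  have rb : ∀ z : ℝ, |z| ≤ 2 * T / α → |((round z : ℤ) : ℝ)| ≤ 2 * T / α + 1 := fun z hz => by
    have := abs_le.1 (abs_sub_round z)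
    have hz' := abs_le.1 hz
    exact abs_le.2 ⟨by linarith [this.2, hz'.1], by linarith [this.1, hz'.2]⟩
  refine ⟨round y, round x, rb y hy1, rb x hx1, ?_⟩
  have half : ∀ u v : ℝ, |u| ≤ 1 / 2 → |v| ≤ H → |u * v| ≤ H / 2 := fun u v hu hv => by
    rw [abs_mul]
    have := mul_le_mul hu hv (abs_nonneg _) (by norm_num)
    linarith
  have fin : ∀ u : ℝ, |u| ≤ H → |α / H * u| ≤ α := fun u hu => by
    rw [abs_mul, abs_of_pos (div_pos hα hH0)]
    exact (mul_le_mul_of_nonneg_left hu (div_pos hα hH0).le).trans_eq (div_mul_cancel₀ _ hH0.ne')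
  have e1 : θ.1 = α / H * (x * h.1 - y * h.2) := by
    rw [hx, hy]
    field_simp
    ring
  have e2 : θ.2 = α / H * (x * h.2 + y * h.1) := by
    rw [hx, hy]
    field_simp
    ring
  rw [Prod.norm_def]
  refine max_le ?_ ?_
  · have e : (θ - radPt (α / H) h (round y) (round x)).1 =
        α / H * ((x - round x) * h.1 - (y - round y) * h.2) := by
      simp only [Prod.fst_sub, radPt]
      linear_combination e1
    rw [e, Real.norm_eq_abs]
    exact fin _ ((abs_sub _ _).trans (by linarith [half _ _ rx a1, half _ _ ry a2]))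
  · have e : (θ - radPt (α / H) h (round y) (round x)).2 =
        α / H * ((x - round x) * h.2 + (y - round y) * h.1) := by
      simp only [Prod.snd_sub, radPt]
      linear_combination e2
    rw [e, Real.norm_eq_abs]
    exact fin _ ((abs_add_le _ _).trans (by linarith [half _ _ rx a2, half _ _ ry a1]))

theorem radDr {Q : ℝ} (hQ : 1 ≤ Q) {p : V3} (h : Dr Q p) : Dr (2 * Q) p := fun i =>
  ⟨(one_div_le_one_div_of_le (by linarith) (by linarith)).trans (h i).1, by linarith [(h i).2]⟩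

theorem sR (h2 : SGe) (h3 : SS) (h4 : SR1) (h5 : SR2) : SR := by
  classical
  intro Q c hQ hc
  obtain ⟨Cg, hCg, hg⟩ := h2 Q c hQ hc
  obtain ⟨C2, hC2, hr⟩ := h5 Q c hQ
  obtain ⟨C1, hC1, hcap⟩ := h4 Q c C2 hQ hc hC2
  have hQ0 : 0 < Q := by linarith
  have hCg0 : 0 < Cg := by linarith
  have hC20 : 0 < C2 := by linarith
  have hC10 : 0 < C1 := by linarith
  have hC' : 1 ≤ C1 * Cg := one_le_mul_of_one_le_of_one_le hC1 hCg
  have hC'' : 1 ≤ Cg * (C1 * Cg) := one_le_mul_of_one_le_of_one_le hCg hC'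
  set D := 9 * (Cg * (C1 * Cg)) with hD
  have hD1 : 1 ≤ D := by linarith
  have hD0 : 0 < D := by linarith
  set E1 := D * ((4 * Cg ^ 2 + 1) * Q) with hE1
  set E2 := D ^ 2 * (4 * Cg ^ 2 * C2 * (C1 * Cg)) with hE2
  have hE10 : 0 < E1 := by positivity
  have hE20 : 0 < E2 := by positivity
  have hE0 : 0 < 4 * C1 ^ 3 * (E1 + E2) := by positivity
  refine ⟨4 * C1 ^ 3 * (E1 + E2) + C2, by linarith, ?_⟩
  intro B hB X H L0 M0 h hH hH1 hX c1 c2 c3 c4 c5
  obtain ⟨-, hg2, hg3⟩ := hg B hB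
  have hH0 : 0 < H := by linarith
  have hX0 : 0 < X := by linarith
  have hs1 : 1 ≤ √H := Real.one_le_sqrt.2 hH1
  have hs0 : 0 < √H := by linarith
  have hss : √H * √H = H := Real.mul_self_sqrt hH0.le
  have hM0 : 0 < M0 := hs0.trans_le c3
  have hL1 : 1 ≤ L0 := by linarith
  have hL0 : 0 < L0 := by linarith
  have hlog : 0 ≤ Real.log H := Real.log_nonneg hH1
  have hr' := fun θ => hr B hB X H L0 M0 h θ hH hH1 hX
    ((mul_le_mul_of_nonneg_right (by linarith) (by positivity)).trans c1) c2 c3 (by linarith)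
    (by linarith)
  set α := 1 / (C1 * Cg * √H) with hα
  have hα0 : 0 < α := by positivity
  have hα1 : α ≤ 1 / (C1 * √H) := one_div_le_one_div_of_le (by positivity)
    (mul_le_mul_of_nonneg_right (le_mul_of_one_le_right hC10.le hCg) hs0.le)
  have hα2 : α ≤ 1 / Cg := one_div_le_one_div_of_le hCg0
    ((le_mul_of_one_le_left hCg0.le hC1).trans (le_mul_of_one_le_right (by positivity) hs1))
  set J : ℕ := ⌈2 * Cg / α⌉₊ + 1 with hJ
  have hJ1 : 2 * Cg / α + 1 ≤ J := by
    rw [hJ]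
    push_cast
    linarith [Nat.le_ceil (2 * Cg / α)]
  have hJ2 : 2 * (J : ℝ) + 1 ≤ D * √H := by
    have a1 : (J : ℝ) ≤ 2 * Cg / α + 2 := by
      rw [hJ]
      push_cast
      linarith [Nat.ceil_lt_add_one (show 0 ≤ 2 * Cg / α by positivity)]
    have a2 : 2 * Cg / α = 2 * (Cg * (C1 * Cg) * √H) := by
      rw [hα]
      field_simp
    have a3 : 1 ≤ Cg * (C1 * Cg) * √H := one_le_mul_of_one_le_of_one_le hC'' hs1
    rw [hD]
    linarith
  have hJ3 : 1 + Real.log (2 * J + 1) ≤ D * (1 + Real.log H) := by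
    have a1 : √H ≤ H := by nlinarith only [hss, hs1]
    have a2 : Real.log (2 * J + 1) ≤ Real.log (D * H) :=
      Real.log_le_log (by positivity) (hJ2.trans (mul_le_mul_of_nonneg_left a1 hD0.le))
    rw [Real.log_mul hD0.ne' hH0.ne'] at a2
    have a3 := Real.log_le_sub_one_of_pos hD0
    have a4 := le_mul_of_one_le_left hlog hD1
    linarith
  have hcardI : ((Finset.Icc (-(J : ℤ)) J).card : ℝ) = 2 * J + 1 := by
    have : (Finset.Icc (-(J : ℤ)) J).card = 2 * J + 1 := by
      rw [Int.card_Icc]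
      omega
    rw [this]
    push_cast
    ring
  set pt : ℤ × ℤ → ℝ × ℝ := fun g => radPt (α / H) h g.1 g.2 with hpt
  set G : Finset (ℤ × ℤ) := (Finset.Icc (-(J : ℤ)) J ×ˢ Finset.Icc (-(J : ℤ)) J).filter
    fun g => Dr (2 * Q) (pp B (pt g)) with hG
  choose! P hP1 hP2 using fun g : ℤ × ℤ => hcap B hB H L0 h (pt g) hH hH1 hL1
  set S : ℝ × ℝ → Set ℝ := fun θ => {r : ℝ | X / Q ≤ r ∧ r ≤ Q * X ∧ Res B c h L0 M0 θ r} with hS
  have key : ∀ (w : ℤ × ℤ → ℝ) (Z : ℝ), 0 ≤ Z → (∀ g, 0 ≤ w g) →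
      (∀ θ g, Dr Q (pp B θ) → Dr (2 * Q) (pp B (pt g)) → ‖θ - pt g‖ ≤ α →
        volume (S θ) ≤ ENNReal.ofReal (w g)) →
      ∑ g ∈ G, w g ≤ (E1 + E2) * (1 + Real.log H) * Z →
      ∫⁻ κ, (ResSet Q B c h X L0 M0).indicator (fun _ => (1 : ENNReal)) κ ≤
        ENNReal.ofReal ((4 * C1 ^ 3 * (E1 + E2) + C2) * (1 + Real.log H) ^ 3 * √H /
          (H ^ 2 * L0 ^ 2) * Z) := by
    intro w Z hZ hw0 hw hsum
    rw [Measure.volume_eq_prod]
    refine (lintegral_prod_le _).trans ?_
    refine (radCover G w P (β := C1 / (H * L0)) (by positivity) (fun g _ => hw0 g)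
      (fun g hg => hP1 g (Finset.mem_filter.1 hg).2) _ fun θ => ?_).trans
      (ENNReal.ofReal_le_ofReal ?_)
    · by_cases hex : ∃ r, (θ, r) ∈ ResSet Q B c h X L0 M0
      · right
        obtain ⟨r, r1, r2, -, r4⟩ := hex
        have hD2 := radDr hQ r1
        obtain ⟨j, i, hj, hi, hn⟩ := radNear hα0 hH hH0 (hg3 h θ hD2).1
        have hDg : Dr (2 * Q) (pp B (pt (j, i))) :=
          hg2 θ _ r1 (by rw [norm_sub_rev]; exact hn.trans hα2)
        have mem : ∀ k : ℤ, |(k : ℝ)| ≤ 2 * Cg / α + 1 → k ∈ Finset.Icc (-(J : ℤ)) J :=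
          fun k hk => by
            have : |k| ≤ (J : ℤ) := by exact_mod_cast hk.trans hJ1
            exact Finset.mem_Icc.2 (abs_le.1 this)
        refine ⟨(j, i), Finset.mem_filter.2 ⟨Finset.mem_product.2 ⟨mem j hj, mem i hi⟩, hDg⟩,
          le_trans ?_ (hw θ (j, i) r1 hDg hn),
          hP2 (j, i) hDg θ hD2 (hn.trans hα1) ((hr' θ r1).1 r r2 r4)⟩
        refine le_trans (lintegral_mono fun r' => ?_) (lintegral_indicator_one_le (S θ))
        by_cases hm : (θ, r') ∈ ResSet Q B c h X L0 M0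
        · rw [Set.indicator_of_mem hm, Set.indicator_of_mem (show r' ∈ S θ from hm.2)]
          exact le_rfl
        · rw [Set.indicator_of_notMem hm]
          exact zero_le
      · left
        have : ∀ r, (ResSet Q B c h X L0 M0).indicator (fun _ => (1 : ENNReal)) (θ, r) = 0 :=
          fun r => Set.indicator_of_notMem (fun hm => hex ⟨r, hm⟩) _
        simp only [this, lintegral_zero]
    · refine (mul_le_mul_of_nonneg_right hsum (by positivity)).trans ?_
      have e : (E1 + E2) * (1 + Real.log H) * Z *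
          (C1 * √H * (1 + Real.log H) ^ 2 * (2 * (C1 / (H * L0))) ^ 2) =
          4 * C1 ^ 3 * (E1 + E2) * ((1 + Real.log H) ^ 3 * √H / (H ^ 2 * L0 ^ 2) * Z) := by
        field_simp
        ring
      have e' : (4 * C1 ^ 3 * (E1 + E2) + C2) * (1 + Real.log H) ^ 3 * √H / (H ^ 2 * L0 ^ 2) * Z =
          (4 * C1 ^ 3 * (E1 + E2) + C2) * ((1 + Real.log H) ^ 3 * √H / (H ^ 2 * L0 ^ 2) * Z) := by
        ring
      rw [e, e']
      exact mul_le_mul_of_nonneg_right (by linarith) (by positivity)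
  have hkw : ∀ θ, Dr Q (pp B θ) → ∀ u : ℝ, 0 < u → u ≤ |kap B c h θ| →
      volume (S θ) ≤ ENNReal.ofReal (C2 * X ^ 3 / (M0 * u)) := fun θ hθ u hu h1 =>
    ((hr' θ hθ).2 (abs_pos.1 (hu.trans_le h1))).trans (ENNReal.ofReal_le_ofReal
      (div_le_div_of_nonneg_left (by positivity) (by positivity)
        (mul_le_mul_of_nonneg_left h1 hM0.le)))
  have hU : 0 < X ^ 3 / (M0 * H ^ 2) := by positivity
  by_cases hgood : Good Q h
  · rw [if_pos hgood, zero_add]
    refine key (fun _ => C2 * X ^ 3 / (M0 * (H ^ 3 / Cg))) _ hU.le (fun _ => by positivity)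
      (fun θ g hθ _ _ => hkw θ hθ _ (by positivity) ?_) ?_
    · have := (hg3 h θ (radDr hQ hθ)).2.2.1 hgood
      rw [hH] at this
      rw [div_le_iff₀ hCg0]
      linarith
    · have a1 : (G.card : ℝ) ≤ (D * √H) ^ 2 := by
        have b1 : G.card ≤ (Finset.Icc (-(J : ℤ)) J).card * (Finset.Icc (-(J : ℤ)) J).card := by
          rw [← Finset.card_product]
          exact Finset.card_filter_le _ _
        have b2 : (G.card : ℝ) ≤ (2 * J + 1) * (2 * J + 1) := by
          rw [← hcardI]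
          exact_mod_cast b1
        rw [← sq] at b2
        exact b2.trans (pow_le_pow_left₀ (by positivity) hJ2 2)
      rw [Finset.sum_const, nsmul_eq_mul]
      refine (mul_le_mul_of_nonneg_right a1 (by positivity)).trans ?_
      have e : (D * √H) ^ 2 * (C2 * X ^ 3 / (M0 * (H ^ 3 / Cg))) =
          D ^ 2 * (Cg * C2) * (X ^ 3 / (M0 * H ^ 2)) := by
        rw [mul_pow, Real.sq_sqrt hH0.le]
        field_simp
      rw [e]
      refine mul_le_mul_of_nonneg_right ?_ hU.le
      have a2 : Cg * C2 ≤ 4 * Cg ^ 2 * C2 * (C1 * Cg) := by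
        have := le_mul_of_one_le_right (show 0 ≤ Cg * C2 by positivity) hC''
        have : 0 ≤ Cg * C2 * (Cg * (C1 * Cg)) := by positivity
        linarith
      have a3 : D ^ 2 * (Cg * C2) ≤ E2 := mul_le_mul_of_nonneg_left a2 (by positivity)
      have a4 := le_mul_of_one_le_right (show 0 ≤ E1 + E2 by positivity)
        (show 1 ≤ 1 + Real.log H by linarith)
      linarith
  · rw [if_neg hgood]
    set K : ℤ × ℤ → ℝ := fun g => KK (pp B (pt g)) (hv B h) with hK
    set d := α * H ^ 3 / Cg with hd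
    set Y := 2 * Cg * C2 * X ^ 3 / M0 with hY
    have hd0 : 0 < d := by positivity
    have hY0 : 0 < Y := by positivity
    have hT1 : 1 ≤ 2 * Cg ^ 2 := by nlinarith only [hCg]
    set w : ℤ × ℤ → ℝ := fun g =>
      if 2 * Cg ^ 2 * d ≤ |K g| then min (Q * X) (Y / |K g|) else Q * X with hw
    have hw1 : ∀ g, w g ≤ Q * X := fun g => by
      simp only [hw]
      split_ifs
      · exact min_le_left _ _
      · exact le_rfl
    refine key w _ (by positivity) (fun g => ?_) (fun θ g hθ hDg hn => ?_) ?_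
    · simp only [hw]
      split_ifs <;> positivity
    · have triv : volume (S θ) ≤ ENNReal.ofReal (Q * X) := by
        refine (measure_mono (show S θ ⊆ Set.Icc 0 (Q * X) from fun r hr =>
          ⟨(div_pos hX0 hQ0).le.trans hr.1, hr.2.1⟩)).trans_eq ?_
        rw [Real.volume_Icc, sub_zero]
      simp only [hw]
      split_ifs with hb
      · rw [ENNReal.ofReal_min]
        refine le_min triv ?_
        have hD2 := radDr hQ hθ
        obtain ⟨-, g1, -, g2, -⟩ := hg3 h θ hD2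
        have a1 := g2 (pt g) hDg
        rw [hH] at a1
        have a2 : Cg * H ^ 3 * ‖θ - pt g‖ ≤ Cg * H ^ 3 * α :=
          mul_le_mul_of_nonneg_left hn (by positivity)
        have a3 : 2 * Cg ^ 2 * d = 2 * (Cg * H ^ 3 * α) := by
          rw [hd]
          field_simp
        have a4 := abs_sub_abs_le_abs_sub (K g) (KK (pp B θ) (hv B h))
        rw [abs_sub_comm] at a4
        have hK0 : 0 < |K g| := lt_of_lt_of_le (by positivity) hb
        refine (hkw θ hθ (|K g| / (2 * Cg)) (by positivity) ?_).trans_eq ?_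
        · rw [div_le_iff₀ (by positivity)]
          simp only [hK] at a4 hb ⊢
          linarith
        · congr 1
          rw [hY]
          field_simp
      · exact triv
    · have row : ∀ j : ℤ, ∑ i ∈ (Finset.Icc (-(J : ℤ)) J).filter
          (fun i => Dr (2 * Q) (pp B (pt (j, i)))), w (j, i) ≤
          (2 * (2 * Cg ^ 2) + 1) * (Q * X) + 2 * (Y / d) * (1 + Real.log (2 * J + 1)) := by
        intro j
        refine h3 _ J (fun i => K (j, i)) (fun i => w (j, i)) d (2 * Cg ^ 2) (Q * X) Y hd0 hT1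
          (by positivity) hY0.le (fun i hi => ?_) (fun i hi i' hi' hlt => ?_) (fun i _ => hw1 _)
          fun i _ hb => ?_
        · exact abs_le.2 (Finset.mem_Icc.1 (Finset.mem_filter.1 hi).1)
        · have hlt' : (0 : ℝ) ≤ i' - i := by
            have : (i : ℝ) < i' := by exact_mod_cast hlt
            linarith
          have a1 := (hg3 h _ (Finset.mem_filter.1 hi).2).2.2.2.2.1 (α / H * (i' - i))
            (by positivity)
          simp only [hpt, radPt_add] at a1
          have a2 := a1 (Finset.mem_filter.1 hi').2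
          rw [hH] at a2
          have a3 : d * (i' - i) = α / H * (i' - i) * H ^ 4 / Cg := by
            rw [hd]
            field_simp
          rw [a3, div_le_iff₀ hCg0]
          simp only [hK, hpt]
          linarith
        · simp only [hw]
          rw [if_pos hb]
          exact min_le_right _ _
      have e1 : ∑ g ∈ G, w g = ∑ j ∈ Finset.Icc (-(J : ℤ)) J, ∑ i ∈ (Finset.Icc (-(J : ℤ)) J).filter
          (fun i => Dr (2 * Q) (pp B (pt (j, i)))), w (j, i) := by
        rw [hG, Finset.sum_filter, Finset.sum_product]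
        exact Finset.sum_congr rfl fun j _ => (Finset.sum_filter _ _).symm
      rw [e1]
      refine (Finset.sum_le_sum fun j _ => row j).trans ?_
      rw [Finset.sum_const, nsmul_eq_mul, hcardI]
      have a1 : 2 * (Y / d) * (1 + Real.log (2 * J + 1)) ≤ 2 * (Y / d) * (D * (1 + Real.log H)) :=
        mul_le_mul_of_nonneg_left hJ3 (by positivity)
      refine (mul_le_mul hJ2 (add_le_add le_rfl a1)
        (add_nonneg (by positivity) (mul_nonneg (by positivity) (add_nonneg zero_le_one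
          (Real.log_nonneg (by linarith [Nat.cast_nonneg (α := ℝ) J]))))) (by positivity)).trans ?_
      have e2 : D * √H * ((2 * (2 * Cg ^ 2) + 1) * (Q * X)) = E1 * (√H * X) := by
        rw [hE1]
        ring
      have e3 : D * √H * (2 * (Y / d) * (D * (1 + Real.log H))) =
          E2 * (1 + Real.log H) * (√H * √H * X ^ 3 / (M0 * H ^ 3)) := by
        rw [hE2, hY, hd, hα]
        field_simp
        ring
      have e4 : √H * √H * X ^ 3 / (M0 * H ^ 3) = X ^ 3 / (M0 * H ^ 2) := by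
        rw [hss]
        field_simp
      rw [mul_add, e2, e3, e4]
      have b1 : 0 ≤ E1 * Real.log H * (√H * X) := by positivity
      have b2 : 0 ≤ E2 * (1 + Real.log H) * (√H * X) := by positivity
      have b3 : 0 ≤ E1 * (1 + Real.log H) * (X ^ 3 / (M0 * H ^ 2)) := by positivity
      linarith only [b1, b2, b3]

end Pool.Agent.CubH
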