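import Pool.Agent.Lib.MP_d79f69_nt.Iface

/-!
Stirling's formula for the complex Gamma function in vertical strips, from Euler's limit formula.
-/

open Filter Topology

namespace Pool.Agent.CubH

/-- the main term of Stirling's formula -/
noncomputable def stirE (w : ℂ) : ℂ := (w - 1 / 2) * Complex.log w - w

/-- the defect of one step -/
noncomputable def stirD (w : ℂ) : ℂ := 1 - (w + 1 / 2) * Complex.log (1 + w⁻¹)

lemma stir_ne_zero {w : ℂ} (hw : 0 < w.im) : w ≠ 0 := by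
  rintro rfl
  simp at hw

lemma stir_log_add_one {w : ℂ} (hw : 0 < w.im) :
    Complex.log (w + 1) = Complex.log w + Complex.log (1 + w⁻¹) := by
  have h0 : w ≠ 0 := stir_ne_zero hw
  have him : (1 + w⁻¹).im < 0 := by
    have hn : 0 < Complex.normSq w := Complex.normSq_pos.mpr h0
    simp only [Complex.add_im, Complex.one_im, Complex.inv_im, zero_add]
    exact div_neg_of_neg_of_pos (by linarith) hn
  have h1 : 1 + w⁻¹ ≠ 0 := by
    intro h
    rw [h] at him
    simp at him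
  have e : w + 1 = w * (1 + w⁻¹) := by field_simp
  rw [e, Complex.log_mul_eq_add_log_iff h0 h1]
  have a1 : 0 ≤ Complex.arg w := Complex.arg_nonneg_iff.mpr hw.le
  have a2 : Complex.arg w ≤ Real.pi := Complex.arg_le_pi w
  have a3 : Complex.arg (1 + w⁻¹) < 0 := Complex.arg_neg_iff.mpr him
  have a4 : -Real.pi < Complex.arg (1 + w⁻¹) := Complex.neg_pi_lt_arg _
  constructor <;> linarith

lemma stir_step {w : ℂ} (hw : 0 < w.im) :
    Complex.log w = stirE (w + 1) - stirE w + stirD w := by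
  unfold stirE stirD
  rw [stir_log_add_one hw]
  ring

lemma stir_D_le {w : ℂ} (hw : 2 ≤ ‖w‖) : ‖stirD w‖ ≤ 2 / ‖w‖ ^ 2 := by
  have hp : 0 < ‖w‖ := by linarith
  have h0 : w ≠ 0 := norm_pos_iff.mp hp
  set x : ℂ := w⁻¹ with hx
  have hxn : ‖x‖ = ‖w‖⁻¹ := by rw [hx, norm_inv]
  have hx2 : ‖x‖ ≤ 1 / 2 := by
    rw [hxn, inv_eq_one_div]
    exact one_div_le_one_div_of_le (by norm_num) hw
  have hx0 : 0 ≤ ‖x‖ := norm_nonneg _
  have hT := Complex.norm_log_sub_logTaylor_le 2 (z := x) (by linarith)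
  have hT3 : Complex.logTaylor (2 + 1) x = x - x ^ 2 / 2 := by
    simp [Complex.logTaylor, Finset.sum_range_succ]
    ring
  rw [hT3] at hT
  set r : ℂ := Complex.log (1 + x) - (x - x ^ 2 / 2) with hr
  have hinv : (1 - ‖x‖)⁻¹ ≤ 2 := by
    rw [inv_le_comm₀ (by linarith) two_pos]
    linarith
  have hr2 : ‖r‖ ≤ ‖x‖ ^ 3 * (2 / 3) := by
    refine hT.trans ?_
    have : ((2 : ℕ) : ℝ) + 1 = 3 := by norm_num
    rw [this, mul_div_assoc]
    gcongr
  have hwx : w * x = 1 := by rw [hx]; field_simp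
  have e : stirD w = x ^ 2 / 4 - (w + 1 / 2) * r := by
    unfold stirD
    rw [hr, ← hx]
    linear_combination (-1 + x / 2) * hwx
  have hwxn : ‖w‖ * ‖x‖ = 1 := by rw [← norm_mul, hwx, norm_one]
  have b1 : ‖x ^ 2 / 4‖ = ‖x‖ ^ 2 / 4 := by simp
  have b2 : ‖w + 1 / 2‖ ≤ ‖w‖ + 1 / 2 := by
    refine (norm_add_le _ _).trans ?_
    simp
  have b3 : ‖(w + 1 / 2) * r‖ ≤ (‖w‖ + 1 / 2) * (‖x‖ ^ 3 * (2 / 3)) := by
    rw [norm_mul]
    gcongr
  have b4 : (‖w‖ + 1 / 2) * (‖x‖ ^ 3 * (2 / 3)) = ‖x‖ ^ 2 * (2 / 3) + ‖x‖ ^ 2 * ‖x‖ / 3 := by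
    linear_combination (‖x‖ ^ 2 * (2 / 3)) * hwxn
  have b5 : 2 / ‖w‖ ^ 2 = 2 * ‖x‖ ^ 2 := by
    rw [hxn]
    field_simp
  rw [e, b5]
  refine (norm_sub_le _ _).trans ?_
  rw [b1]
  have b6 : ‖x‖ ^ 2 * ‖x‖ ≤ ‖x‖ ^ 2 * (1 / 2) := by gcongr
  nlinarith [sq_nonneg ‖x‖]

lemma stir_im (σ u : ℝ) (j : ℕ) : ((σ : ℂ) + u * Complex.I + j).im = u := by simp

lemma stir_re (σ u : ℝ) (j : ℕ) : ((σ : ℂ) + u * Complex.I + j).re = σ + j := by simp

lemma stir_D_le' {σ u : ℝ} (hu : 2 ≤ u) (hσ : |σ| ≤ u) (j : ℕ) :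
    ‖stirD ((σ : ℂ) + u * Complex.I + j)‖ ≤ 10 * (1 / (j + u - 1) - 1 / (j + 1 + u - 1)) := by
  set w : ℂ := (σ : ℂ) + u * Complex.I + j with hw
  have hn : ‖w‖ ^ 2 = (σ + j) ^ 2 + u ^ 2 := by
    rw [Complex.sq_norm, Complex.normSq_apply, hw, stir_im, stir_re]
    ring
  have h2 : 2 ≤ ‖w‖ := by
    have := Complex.abs_im_le_norm w
    rw [hw, stir_im, ← hw, abs_of_nonneg (by linarith)] at this
    linarith
  refine (stir_D_le h2).trans ?_
  have hj : (0 : ℝ) ≤ j := Nat.cast_nonneg j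
  obtain ⟨s1, s2⟩ := abs_le.mp hσ
  have h5 : (j + u) ^ 2 ≤ 5 * ‖w‖ ^ 2 := by
    rw [hn]
    have : (u - σ) ^ 2 ≤ (2 * u) ^ 2 := by
      apply pow_le_pow_left₀ <;> linarith
    nlinarith [sq_nonneg (2 * (σ + j) - (u - σ) / 2)]
  have p1 : 0 < (j : ℝ) + u - 1 := by linarith
  have p2 : 0 < (j : ℝ) + 1 + u - 1 := by linarith
  have e : 10 * (1 / ((j : ℝ) + u - 1) - 1 / (j + 1 + u - 1)) = 10 / ((j + u - 1) * (j + u)) := by
    have p3 : (j : ℝ) + u ≠ 0 := by linarith
    have e2 : (j : ℝ) + 1 + u - 1 = j + u := by ring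
    rw [e2]
    field_simp
    ring
  rw [e, div_le_div_iff₀ (by positivity) (mul_pos p1 (by linarith))]
  nlinarith

lemma stir_sum_le {σ u : ℝ} (hu : 2 ≤ u) (hσ : |σ| ≤ u) (n : ℕ) :
    ∑ j ∈ Finset.range n, ‖stirD ((σ : ℂ) + u * Complex.I + j)‖ ≤ 20 / u := by
  have h1 : ∑ j ∈ Finset.range n, ‖stirD ((σ : ℂ) + u * Complex.I + j)‖ ≤
      10 * (1 / (u - 1) - 1 / (n + u - 1)) := by
    induction n with
    | zero => simp
    | succ n ih =>
      rw [Finset.sum_range_succ]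
      have := stir_D_le' hu hσ n
      push_cast
      linarith
  refine h1.trans ?_
  have hn : (0 : ℝ) ≤ n := Nat.cast_nonneg n
  have h2 : 0 ≤ 1 / ((n : ℝ) + u - 1) := by
    apply div_nonneg <;> linarith
  have h3 : 1 / (u - 1) ≤ 2 / u := by
    rw [div_le_div_iff₀ (by linarith) (by linarith)]
    linarith
  have h4 : 20 / u = 10 * (2 / u) := by ring
  linarith

lemma stir_sum_log {z : ℂ} (hz : 0 < z.im) (n : ℕ) :
    ∑ j ∈ Finset.range n, Complex.log (z + j) =
      stirE (z + n) - stirE z + ∑ j ∈ Finset.range n, stirD (z + j) := by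
  induction n with
  | zero => simp
  | succ n ih =>
    rw [Finset.sum_range_succ, Finset.sum_range_succ, ih,
      stir_step (w := z + n) (by simpa using hz)]
    push_cast
    rw [← add_assoc z]
    ring

/-- the terms that tend to the Stirling constant -/
noncomputable def stirT (z : ℂ) (n : ℕ) : ℂ :=
  z * (Real.log n : ℂ) + (Real.log (n.factorial) : ℂ) - stirE (z + (n + 1 : ℕ))

lemma stir_seq {z : ℂ} (hz : 0 < z.im) {n : ℕ} (hn : n ≠ 0) :
    Complex.GammaSeq z n =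
      Complex.exp (stirT z n + stirE z - ∑ j ∈ Finset.range (n + 1), stirD (z + j)) := by
  have e : stirT z n + stirE z - ∑ j ∈ Finset.range (n + 1), stirD (z + j) =
      z * (Real.log n : ℂ) + (Real.log (n.factorial) : ℂ) -
        ∑ j ∈ Finset.range (n + 1), Complex.log (z + j) := by
    rw [stir_sum_log hz]
    unfold stirT
    ring
  rw [e, Complex.exp_sub, Complex.exp_add, Complex.exp_sum, Complex.GammaSeq]
  have hn' : (n : ℂ) ≠ 0 := Nat.cast_ne_zero.mpr hn
  congr 1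
  · congr 1
    · rw [Complex.cpow_def_of_ne_zero hn', mul_comm, Complex.natCast_log]
    · rw [← Complex.ofReal_exp, Real.exp_log (by exact_mod_cast n.factorial_pos)]
      simp
  · refine Finset.prod_congr rfl fun j _ => ?_
    rw [Complex.exp_log (stir_ne_zero (by simpa using hz))]

lemma stir_T_eq {z : ℂ} (hz : 0 < z.im) {n : ℕ} (hn : n ≠ 0) :
    stirT z n = (Real.log (Stirling.stirlingSeq n) : ℂ) + (Real.log 2 / 2 : ℝ) + (z + 1) -
      (n * Complex.log (1 + (z + 1) / n) + (z + 1 / 2) * Complex.log (1 + (z + 1) / n)) := by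
  have hn0 : (0 : ℝ) < n := by exact_mod_cast Nat.pos_of_ne_zero hn
  have hn' : (n : ℂ) ≠ 0 := Nat.cast_ne_zero.mpr hn
  have e1 : z + (n + 1 : ℕ) = ((n : ℝ) : ℂ) * (1 + (z + 1) / n) := by
    push_cast
    field_simp
    ring
  have h1 : 1 + (z + 1) / n ≠ 0 := by
    intro h
    have : z + (n + 1 : ℕ) ≠ 0 := stir_ne_zero (by simpa using hz)
    rw [e1, h, mul_zero] at this
    exact this rfl
  have e2 : Complex.log (z + (n + 1 : ℕ)) = (Real.log n : ℂ) + Complex.log (1 + (z + 1) / n) := by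
    rw [e1, Complex.log_ofReal_mul hn0 h1]
  have e3 : Real.log (n.factorial) = Real.log (Stirling.stirlingSeq n) + Real.log 2 / 2 +
      Real.log n / 2 + n * Real.log n - n := by
    rw [Stirling.log_stirlingSeq_formula, Real.log_mul (by norm_num) hn0.ne',
      Real.log_div hn0.ne' (Real.exp_pos 1).ne', Real.log_exp]
    ring
  unfold stirT stirE
  rw [e2, e3]
  push_cast
  ring

lemma stir_T_tendsto {z : ℂ} (hz : 0 < z.im) :
    Tendsto (stirT z) atTop (𝓝 ((Real.log (√(2 * Real.pi)) : ℝ) : ℂ)) := by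
  have t1 : Tendsto (fun n : ℕ => (Real.log (Stirling.stirlingSeq n) : ℂ)) atTop
      (𝓝 ((Real.log (√Real.pi) : ℝ) : ℂ)) := by
    refine (Complex.continuous_ofReal.tendsto _).comp ?_
    exact Stirling.tendsto_stirlingSeq_sqrt_pi.log (Real.sqrt_pos.mpr Real.pi_pos).ne'
  have t2 : Tendsto (fun n : ℕ => (n : ℂ) * Complex.log (1 + (z + 1) / n)) atTop (𝓝 (z + 1)) := by
    refine Complex.tendsto_nat_mul_log_one_add_of_tendsto (g := fun n : ℕ => (z + 1) / n) ?_
    apply tendsto_nhds_of_eventually_eq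
    filter_upwards [eventually_ne_atTop 0] with n hn
    have hn' : (n : ℂ) ≠ 0 := Nat.cast_ne_zero.mpr hn
    field_simp
  have t3 : Tendsto (fun n : ℕ => Complex.log (1 + (z + 1) / n)) atTop (𝓝 0) := by
    have a : Tendsto (fun n : ℕ => 1 + (z + 1) / (n : ℂ)) atTop (𝓝 (1 + 0)) :=
      tendsto_const_nhds.add (tendsto_const_div_atTop_nhds_zero_nat (z + 1))
    rw [add_zero] at a
    have := a.clog Complex.one_mem_slitPlane
    simpa using this
  have t4 := ((t1.add_const ((Real.log 2 / 2 : ℝ) : ℂ)).add_const (z + 1)).sub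
    (t2.add (t3.const_mul (z + 1 / 2)))
  have e : ((Real.log (√Real.pi) : ℝ) : ℂ) + ((Real.log 2 / 2 : ℝ) : ℂ) + (z + 1) -
      (z + 1 + (z + 1 / 2) * 0) = ((Real.log (√(2 * Real.pi)) : ℝ) : ℂ) := by
    rw [Real.log_sqrt Real.pi_pos.le, Real.log_sqrt (by positivity),
      Real.log_mul (by norm_num) Real.pi_pos.ne']
    push_cast
    ring
  rw [e] at t4
  refine t4.congr' ?_
  filter_upwards [eventually_ne_atTop 0] with n hn
  exact (stir_T_eq hz hn).symm

lemma stir_gamma {σ u : ℝ} (hu : 2 ≤ u) (hσ : |σ| ≤ u) :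
    ∃ S : ℂ, ‖S‖ ≤ 20 / u ∧ Complex.Gamma (σ + u * Complex.I) =
      Complex.exp (((Real.log (√(2 * Real.pi)) : ℝ) : ℂ) + stirE (σ + u * Complex.I) - S) := by
  set z : ℂ := σ + u * Complex.I with hzd
  have hz : 0 < z.im := by
    rw [hzd]
    simp
    linarith
  have hs : Summable fun j : ℕ => ‖stirD (z + j)‖ :=
    summable_of_sum_range_le (fun _ => norm_nonneg _) (stir_sum_le hu hσ)
  refine ⟨∑' j : ℕ, stirD (z + j), ?_, ?_⟩
  · refine (norm_tsum_le_tsum_norm hs).trans ?_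
    exact hs.tsum_le_of_sum_range_le (stir_sum_le hu hσ)
  · have t1 : Tendsto (fun n : ℕ => ∑ j ∈ Finset.range (n + 1), stirD (z + j)) atTop
        (𝓝 (∑' j : ℕ, stirD (z + j))) :=
      (hs.of_norm.hasSum.tendsto_sum_nat).comp (tendsto_add_atTop_nat 1)
    have t2 := (((stir_T_tendsto hz).add_const (stirE z)).sub t1).cexp
    refine tendsto_nhds_unique (Complex.GammaSeq_tendsto_Gamma z) (t2.congr' ?_)
    filter_upwards [eventually_ne_atTop 0] with n hn
    exact (stir_seq hz hn).symm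

lemma stir_log_z (σ : ℝ) {u : ℝ} (hu : 0 < u) :
    Complex.log (σ + u * Complex.I) = (Real.log u : ℂ) + Real.pi / 2 * Complex.I +
      Complex.log (1 + (-(σ / u : ℝ) * Complex.I)) := by
  have hu' : (u : ℂ) ≠ 0 := by exact_mod_cast hu.ne'
  set y : ℂ := 1 + (-(σ / u : ℝ) * Complex.I) with hy
  have hre : y.re = 1 := by
    rw [hy]
    simp only [Complex.add_re, Complex.one_re, Complex.mul_re, Complex.neg_re, Complex.ofReal_re,
      Complex.I_re, Complex.neg_im, Complex.ofReal_im, Complex.I_im]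
    ring
  have hy0 : y ≠ 0 := by
    intro h
    rw [h] at hre
    simp at hre
  have e : (σ : ℂ) + u * Complex.I = u * (Complex.I * y) := by
    rw [hy]
    push_cast
    field_simp
    linear_combination (σ : ℂ) * Complex.I_sq
  have h2 : Complex.log (Complex.I * y) = Complex.log Complex.I + Complex.log y := by
    rw [Complex.log_mul_eq_add_log_iff Complex.I_ne_zero hy0, Complex.arg_I]
    have : |Complex.arg y| < Real.pi / 2 :=
      Complex.abs_arg_lt_pi_div_two_iff.mpr (Or.inl (by rw [hre]; norm_num))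
    obtain ⟨a1, a2⟩ := abs_lt.mp this
    have := Real.pi_pos
    constructor <;> linarith
  rw [e, Complex.log_ofReal_mul hu (mul_ne_zero Complex.I_ne_zero hy0), h2, Complex.log_I]
  ring

theorem sSt : SSt := by
  intro a b
  set A : ℝ := max |a| |b| with hA
  have hA0 : 0 ≤ A := (abs_nonneg a).trans (le_max_left _ _)
  refine ⟨22 + 2 * A + 3 * (A + 1) ^ 2, by nlinarith, fun σ u ha hb hC => ?_⟩
  have hσ : |σ| ≤ A := abs_le_max_abs_abs ha hb
  have hu2 : 2 ≤ u := by nlinarith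
  have huA : 2 * A ≤ u := by nlinarith
  have hu : 0 < u := by linarith
  have hu' : (u : ℂ) ≠ 0 := by exact_mod_cast hu.ne'
  obtain ⟨S, hS, hG⟩ := stir_gamma hu2 (σ := σ) (by linarith)
  set x : ℂ := -(σ / u : ℝ) * Complex.I with hx
  set l : ℂ := Complex.log (1 + x) with hl
  have hxn : ‖x‖ = |σ| / u := by
    rw [hx, norm_mul, norm_neg, Complex.norm_real, Complex.norm_I, Real.norm_eq_abs, abs_div,
      abs_of_pos hu, mul_one]
  have hxA : ‖x‖ ≤ A / u := by
    rw [hxn]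
    gcongr
  have hx2 : ‖x‖ ≤ 1 / 2 := by
    refine hxA.trans ?_
    rw [div_le_iff₀ hu]
    linarith
  have hx0 : 0 ≤ ‖x‖ := norm_nonneg _
  have l1 : ‖l‖ ≤ 3 / 2 * (A / u) :=
    (Complex.norm_log_one_add_half_le_self hx2).trans (by gcongr)
  have l2 : ‖l - x‖ ≤ (A / u) ^ 2 := by
    refine (Complex.norm_log_one_add_sub_self_le (z := x) (by linarith)).trans ?_
    have hinv : (1 - ‖x‖)⁻¹ ≤ 2 := by
      rw [inv_le_comm₀ (by linarith) two_pos]
      linarith
    calc ‖x‖ ^ 2 * (1 - ‖x‖)⁻¹ / 2 ≤ (A / u) ^ 2 * 2 / 2 := by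
          have : 0 ≤ (1 - ‖x‖)⁻¹ := inv_nonneg.mpr (by linarith)
          gcongr
      _ = (A / u) ^ 2 := by ring
  refine ⟨((σ - 1 / 2 : ℝ) : ℂ) * l + u * Complex.I * (l - x) - S, ?_, ?_⟩
  · have b1 : ‖((σ - 1 / 2 : ℝ) : ℂ) * l‖ ≤ (A + 1 / 2) * (3 / 2 * (A / u)) := by
      rw [norm_mul, Complex.norm_real, Real.norm_eq_abs]
      have : |σ - 1 / 2| ≤ A + 1 / 2 := by
        obtain ⟨s1, s2⟩ := abs_le.mp hσ
        rw [abs_le]
        constructor <;> linarith
      gcongr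
    have b2 : ‖(u : ℂ) * Complex.I * (l - x)‖ ≤ u * (A / u) ^ 2 := by
      rw [norm_mul, norm_mul, Complex.norm_I, Complex.norm_real, Real.norm_eq_abs, abs_of_pos hu,
        mul_one]
      gcongr
    have b3 : (A + 1 / 2) * (3 / 2 * (A / u)) + u * (A / u) ^ 2 + 20 / u =
        ((A + 1 / 2) * (3 / 2 * A) + A ^ 2 + 20) / u := by
      field_simp
    have b4 : ((A + 1 / 2) * (3 / 2 * A) + A ^ 2 + 20) / u ≤
        (22 + 2 * A + 3 * (A + 1) ^ 2) / u := by
      apply div_le_div_of_nonneg_right _ hu.le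
      nlinarith
    refine (norm_sub_le _ _).trans ?_
    have b5 := norm_add_le (((σ - 1 / 2 : ℝ) : ℂ) * l) ((u : ℂ) * Complex.I * (l - x))
    linarith
  · have r1 : √(2 * Real.pi) * u ^ (σ - 1 / 2) * Real.exp (-Real.pi * u / 2) =
        Real.exp (Real.log (√(2 * Real.pi)) + Real.log u * (σ - 1 / 2) + -Real.pi * u / 2) := by
      rw [Real.exp_add, Real.exp_add, Real.exp_log (Real.sqrt_pos.mpr (by positivity)),
        Real.rpow_def_of_pos hu]
    rw [hG, r1, Complex.ofReal_exp, ← Complex.exp_add, ← Complex.exp_add]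
    congr 1
    unfold stirE
    rw [stir_log_z σ hu, ← hx, ← hl]
    have hux : (u : ℂ) * Complex.I * x = σ := by
      rw [hx]
      push_cast
      field_simp
      linear_combination (-(σ : ℂ)) * Complex.I_sq
    push_cast
    linear_combination hux + ((u : ℂ) * Real.pi / 2) * Complex.I_sq

end Pool.Agent.CubH
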