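import Pool.Agent.Lib.MP_d79f69_nt.Iface

/-!
Taylor estimates for the holomorphic phase.
-/

open Metric Complex

namespace Pool.Agent.CubH

theorem Tay_ne {z : ℂ} (h : 0 < z.re) : z ≠ 0 := fun h0 => by simp [h0] at h

theorem Tay_cv_div (a p : V3) : cv a / cv p = cv (a / p) := by
  funext i
  simp [cv]

theorem Tay_phc_cv {p : V3} (hp : ∀ i, 0 < p i) : phc (cv p) = ph p := by
  have h0 := hp 0
  have h1 := hp 1
  have h2 := hp 2
  rw [phc, ph, Real.rpow_def_of_pos (by positivity), Real.log_mul (by positivity) h2.ne',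
    Real.log_mul h0.ne' h1.ne', ofReal_exp]
  simp only [cv, ← ofReal_log h0.le, ← ofReal_log h1.le, ← ofReal_log h2.le]
  congr 1
  push_cast
  ring

theorem Tay_log_mul {r z : ℂ} (hr : 0 < r.re) (hz : 0 < z.re) : log (r * z) = log r + log z := by
  have h1 := abs_lt.1 (abs_arg_lt_pi_div_two_iff.2 (Or.inl hr))
  have h2 := abs_lt.1 (abs_arg_lt_pi_div_two_iff.2 (Or.inl hz))
  exact (log_mul_eq_add_log_iff (Tay_ne hr) (Tay_ne hz)).2 ⟨by linarith, by linarith⟩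

theorem Tay_lin (p v : C3) (t : ℂ) (i : Fin 3) :
    HasDerivAt (fun z : ℂ => (p + z • v) i) (v i) t := by
  simpa using ((hasDerivAt_id t).mul_const (v i)).const_add (p i)

theorem Tay_d0 (p v : C3) (t : ℂ) (h : ∀ i, 0 < ((p + t • v) i).re) :
    HasDerivAt (fun z : ℂ => phc (p + z • v)) (G0c (p + t • v) v) t := by
  have hl : ∀ i, HasDerivAt (fun z : ℂ => log ((p + z • v) i)) (v i / (p + t • v) i) t :=
    fun i => (Tay_lin p v t i).clog (Or.inl (h i))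
  have h1 := ((((hl 0).add (hl 1)).add (hl 2)).const_mul (2 / 3)).cexp
  exact h1

theorem Tay_dq (p v a : C3) (t : ℂ) (h : ∀ i, 0 < ((p + t • v) i).re) (i : Fin 3) :
    HasDerivAt (fun z : ℂ => (a / (p + z • v)) i)
      (-((a / (p + t • v)) i * (v / (p + t • v)) i)) t := by
  have h1 := (hasDerivAt_const t (a i)).div (Tay_lin p v t i) (Tay_ne (h i))
  have h2 := Tay_ne (h i)
  refine h1.congr_deriv ?_
  simp only [Pi.div_apply] at h2 ⊢
  field_simp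
  ring

theorem Tay_d1 (p v a : C3) (t : ℂ) (h : ∀ i, 0 < ((p + t • v) i).re) :
    HasDerivAt (fun z : ℂ => G0c (p + z • v) a) (G1c (p + t • v) a v) t := by
  have ha := Tay_dq p v a t h
  have h1 := (Tay_d0 p v t h).mul ((((ha 0).add (ha 1)).add (ha 2)).const_mul (2 / 3))
  refine h1.congr_deriv ?_
  simp only [G0c, G1c, t0, t1, sm, d2, Pi.add_apply]
  ring

theorem Tay_d2 (p v a w : C3) (t : ℂ) (h : ∀ i, 0 < ((p + t • v) i).re) :
    HasDerivAt (fun z : ℂ => G1c (p + z • v) a w) (G2c (p + t • v) a w v) t := by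
  have ha := Tay_dq p v a t h
  have hw := Tay_dq p v w t h
  have h1 := (Tay_d0 p v t h).mul
    ((((((ha 0).add (ha 1)).add (ha 2)).const_mul (4 / 9)).mul
      (((hw 0).add (hw 1)).add (hw 2))).sub
      (((((ha 0).mul (hw 0)).add ((ha 1).mul (hw 1))).add ((ha 2).mul (hw 2))).const_mul (2 / 3)))
  refine h1.congr_deriv ?_
  simp only [G0c, G2c, t0, t2, sm, d2, d3, Pi.add_apply, Pi.mul_apply, Pi.sub_apply]
  ring

theorem sBa : SBa := by
  refine ⟨fun p a v w hp => ⟨Tay_phc_cv hp, ?_, ?_, ?_⟩, fun r p hr hp => ?_,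
    fun p v t h => Tay_d0 p v t h⟩
  · rw [G0c, G0, Tay_phc_cv hp, Tay_cv_div]
    simp [t0, sm, cv]
  · rw [G1c, G1, Tay_phc_cv hp, Tay_cv_div, Tay_cv_div]
    simp [t1, sm, d2, cv]
  · rw [G2c, G2, Tay_phc_cv hp, Tay_cv_div, Tay_cv_div, Tay_cv_div]
    simp [t2, sm, d2, d3, cv]
  · simp only [phc, Pi.smul_apply, smul_eq_mul, fun i => Tay_log_mul hr (hp i)]
    have h1 : r ^ 2 = cexp (2 * log r) := by
      rw [show (2 : ℂ) * log r = log r + log r by ring, exp_add, exp_log (Tay_ne hr), sq]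
    rw [h1, ← exp_add]
    congr 1
    ring

theorem Tay_pos {Q : ℝ} (hQ : 1 ≤ Q) {p : C3} (hp : Dc Q p) (i : Fin 3) : 0 < (p i).re :=
  lt_of_lt_of_le (by positivity) (hp i).1

theorem Tay_add {Q : ℝ} (hQ : 1 ≤ Q) {p v : C3} (hp : Dc Q p) (hv : ‖v‖ ≤ 1 / (2 * Q)) :
    Dc (2 * Q) (p + v) := by
  intro i
  have h1 : ‖v i‖ ≤ 1 / (2 * Q) := (norm_le_pi_norm v i).trans hv
  have h2 := abs_le.1 ((abs_re_le_norm (v i)).trans h1)
  have h3 : 1 / Q = 1 / (2 * Q) + 1 / (2 * Q) := by field_simp; ring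
  have h4 : 1 / (2 * Q) ≤ Q := by
    rw [div_le_iff₀ (by positivity)]
    nlinarith
  refine ⟨?_, ?_⟩
  · rw [Pi.add_apply, add_re]
    linarith [(hp i).1]
  · exact (norm_add_le _ _).trans (by linarith [(hp i).2])

theorem Tay_phc_le {Q : ℝ} {p : C3} (hp : Dc Q p) : ‖phc p‖ ≤ Real.exp (2 * Q) := by
  rw [phc, norm_exp]
  refine Real.exp_le_exp.2 ?_
  have h : ∀ i, Real.log ‖p i‖ ≤ Q := fun i =>
    (Real.log_le_self (norm_nonneg _)).trans (hp i).2
  have h1 : (2 / 3 : ℂ) = ((2 / 3 : ℝ) : ℂ) := by push_cast; ring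
  rw [h1, re_ofReal_mul]
  simp only [add_re, log_re]
  linarith [h 0, h 1, h 2]

theorem Tay_div_le {Q : ℝ} (hQ : 1 ≤ Q) {p : C3} (hp : Dc Q p) (a : C3) :
    ‖a / p‖ ≤ Q * ‖a‖ := by
  refine (pi_norm_le_iff_of_nonneg (by positivity)).2 fun i => ?_
  have h1 : 1 / Q ≤ ‖p i‖ := (hp i).1.trans (re_le_norm _)
  have h2 : 0 < ‖p i‖ := lt_of_lt_of_le (by positivity) h1
  rw [div_le_iff₀ (by positivity)] at h1
  rw [Pi.div_apply, norm_div, div_le_iff₀ h2]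
  have h3 := norm_le_pi_norm a i
  have h4 := norm_nonneg a
  nlinarith

theorem Tay_sm (u : C3) : ‖sm u‖ ≤ 3 * ‖u‖ := by
  have h := norm_le_pi_norm u
  have h1 := norm_add₃_le (a := u 0) (b := u 1) (c := u 2)
  rw [sm]
  linarith [h 0, h 1, h 2]

theorem Tay_dd2 (u v : C3) : ‖d2 u v‖ ≤ 3 * (‖u‖ * ‖v‖) :=
  (Tay_sm (u * v)).trans (by linarith [norm_mul_le u v])

theorem Tay_dd3 (u v w : C3) : ‖d3 u v w‖ ≤ 3 * (‖u‖ * ‖v‖ * ‖w‖) :=
  (Tay_sm (u * v * w)).trans (by linarith [norm_mul₃_le (a := u) (b := v) (c := w)])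

theorem Tay_t0 (u : C3) : ‖t0 u‖ ≤ 24 * ‖u‖ := by
  have h := Tay_sm u
  have h0 := norm_nonneg u
  rw [t0, norm_mul]
  have h1 : ‖(2 / 3 : ℂ)‖ = 2 / 3 := by simp
  rw [h1]
  linarith

theorem Tay_t1 (u v : C3) : ‖t1 u v‖ ≤ 24 * (‖u‖ * ‖v‖) := by
  have h1 : ‖sm u‖ * ‖sm v‖ ≤ (3 * ‖u‖) * (3 * ‖v‖) := by
    gcongr <;> exact Tay_sm _
  have h2 := Tay_dd2 u v
  have h0 : 0 ≤ ‖u‖ * ‖v‖ := by positivity
  rw [t1]
  refine (norm_sub_le _ _).trans ?_
  have h3 : ‖(2 / 3 : ℂ)‖ = 2 / 3 := by simp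
  have h4 : ‖(4 / 9 : ℂ)‖ = 4 / 9 := by simp
  rw [norm_mul, norm_mul, norm_mul, h3, h4]
  nlinarith

theorem Tay_t2 (u v w : C3) : ‖t2 u v w‖ ≤ 24 * (‖u‖ * ‖v‖ * ‖w‖) := by
  have h1 : ‖sm u‖ * ‖sm v‖ * ‖sm w‖ ≤ (3 * ‖u‖) * (3 * ‖v‖) * (3 * ‖w‖) := by
    gcongr <;> exact Tay_sm _
  have h2 : ∀ x y z : C3, ‖sm x * d2 y z‖ ≤ (3 * ‖x‖) * (3 * (‖y‖ * ‖z‖)) := fun x y z => by
    rw [norm_mul]
    gcongr
    · exact Tay_sm _
    · exact Tay_dd2 _ _
  have h3 := Tay_dd3 u v w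
  have h4 := norm_add₃_le (a := sm u * d2 v w) (b := sm v * d2 u w) (c := sm w * d2 u v)
  rw [t2]
  refine (norm_add_le _ _).trans ((add_le_add_left (norm_sub_le _ _) _).trans ?_)
  have h5 : ‖(8 / 27 : ℂ)‖ = 8 / 27 := by simp
  have h6 : ‖(4 / 9 : ℂ)‖ = 4 / 9 := by simp
  have h7 : ‖(4 / 3 : ℂ)‖ = 4 / 3 := by simp
  rw [norm_mul, norm_mul, norm_mul, norm_mul, norm_mul, h5, h6, h7]
  nlinarith [h2 u v w, h2 v u w, h2 w u v]

/-- the constant in the size bounds -/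
noncomputable def Tay_K (Q : ℝ) : ℝ := Real.exp (2 * Q) * (24 * Q ^ 3)

theorem Tay_bd {Q : ℝ} (hQ : 1 ≤ Q) {p : C3} (hp : Dc Q p) (a v w : C3) :
    ‖phc p‖ ≤ Tay_K Q ∧ ‖G0c p a‖ ≤ Tay_K Q * ‖a‖ ∧ ‖G1c p a w‖ ≤ Tay_K Q * ‖a‖ * ‖w‖ ∧
      ‖G2c p a w v‖ ≤ Tay_K Q * ‖a‖ * ‖w‖ * ‖v‖ := by
  have h0 := Tay_phc_le hp
  have h1 := Tay_div_le hQ hp
  have hE := Real.exp_pos (2 * Q)
  have q1 : Q ≤ Q ^ 3 := le_self_pow₀ hQ (by norm_num)
  have q2 : Q ^ 2 ≤ Q ^ 3 := pow_le_pow_right₀ hQ (by norm_num)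
  refine ⟨h0.trans ?_, ?_, ?_, ?_⟩
  · rw [Tay_K]
    nlinarith
  · rw [G0c, norm_mul]
    calc _ ≤ Real.exp (2 * Q) * (24 * (Q * ‖a‖)) := by
          gcongr
          exact (Tay_t0 _).trans (by gcongr; exact h1 _)
      _ ≤ Real.exp (2 * Q) * (24 * (Q ^ 3 * ‖a‖)) := by gcongr
      _ = _ := by rw [Tay_K]; ring
  · rw [G1c, norm_mul]
    calc _ ≤ Real.exp (2 * Q) * (24 * (Q * ‖a‖ * (Q * ‖w‖))) := by
          gcongr
          exact (Tay_t1 _ _).trans (by gcongr <;> exact h1 _)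
      _ = Real.exp (2 * Q) * (24 * (Q ^ 2 * (‖a‖ * ‖w‖))) := by ring
      _ ≤ Real.exp (2 * Q) * (24 * (Q ^ 3 * (‖a‖ * ‖w‖))) := by gcongr
      _ = _ := by rw [Tay_K]; ring
  · rw [G2c, norm_mul]
    calc _ ≤ Real.exp (2 * Q) * (24 * (Q * ‖a‖ * (Q * ‖w‖) * (Q * ‖v‖))) := by
          gcongr
          exact (Tay_t2 _ _ _).trans (by gcongr <;> exact h1 _)
      _ = _ := by rw [Tay_K]; ring

theorem Tay_diff_t2 {q : C3} {A W U : C3 → C3} (hA : ∀ i, DifferentiableAt ℂ (fun v => A v i) q)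
    (hW : ∀ i, DifferentiableAt ℂ (fun v => W v i) q)
    (hU : ∀ i, DifferentiableAt ℂ (fun v => U v i) q) :
    DifferentiableAt ℂ (fun v => t2 (A v) (W v) (U v)) q := by
  have hs : ∀ {X : C3 → C3}, (∀ i, DifferentiableAt ℂ (fun v => X v i) q) →
      DifferentiableAt ℂ (fun v => sm (X v)) q := fun h => ((h 0).add (h 1)).add (h 2)
  have hd : ∀ {X Y : C3 → C3}, (∀ i, DifferentiableAt ℂ (fun v => X v i) q) →
      (∀ i, DifferentiableAt ℂ (fun v => Y v i) q) →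
      DifferentiableAt ℂ (fun v => d2 (X v) (Y v)) q := fun h k =>
    (((h 0).mul (k 0)).add ((h 1).mul (k 1))).add ((h 2).mul (k 2))
  have h3 : DifferentiableAt ℂ (fun v => d3 (A v) (W v) (U v)) q :=
    ((((hA 0).mul (hW 0)).mul (hU 0)).add (((hA 1).mul (hW 1)).mul (hU 1))).add
      (((hA 2).mul (hW 2)).mul (hU 2))
  exact ((((((hs hA).const_mul (8 / 27)).mul (hs hW)).mul (hs hU)).sub
    (((((hs hA).mul (hd hW hU)).add ((hs hW).mul (hd hA hU))).add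
      ((hs hU).mul (hd hA hW))).const_mul (4 / 9))).add (h3.const_mul (4 / 3)))

theorem Tay_diff {q : C3} (p a w u : C3) (h : ∀ i, 0 < ((p + q) i).re) :
    DifferentiableAt ℂ (fun v : C3 => G2c (p + v) a w u) q := by
  have hl : ∀ i, DifferentiableAt ℂ (fun v : C3 => (p + v) i) q := fun i =>
    (differentiableAt_apply i q).const_add (p i)
  have h1 : ∀ i, DifferentiableAt ℂ (fun v : C3 => log ((p + v) i)) q := fun i =>
    (hl i).clog (Or.inl (h i))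
  have h2 : ∀ (x : C3) i, DifferentiableAt ℂ (fun v : C3 => (x / (p + v)) i) q := fun x i =>
    ((hl i).inv (Tay_ne (h i))).const_mul (x i)
  have h3 : DifferentiableAt ℂ (fun v : C3 => phc (p + v)) q :=
    ((((h1 0).add (h1 1)).add (h1 2)).const_mul (2 / 3)).cexp
  exact h3.mul (Tay_diff_t2 (h2 a) (h2 w) (h2 u))

theorem Tay_lip {Q : ℝ} (hQ : 1 ≤ Q) {p : C3} (hp : Dc Q p) (a w u : C3) {v : C3}
    (hv : ‖v‖ ≤ 1 / (4 * Q)) :
    ‖G2c (p + v) a w u - G2c p a w u‖ ≤ 4 * Q * Tay_K (2 * Q) * ‖a‖ * ‖w‖ * ‖u‖ * ‖v‖ ∧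
    ‖G2c (p + v) a w u + G2c (p - v) a w u - 2 * G2c p a w u‖ ≤
      16 * Q ^ 2 * Tay_K (2 * Q) * ‖a‖ * ‖w‖ * ‖u‖ * ‖v‖ ^ 2 := by
  have hQ2 : 1 ≤ 2 * Q := by linarith
  have hR : 0 < 1 / (2 * Q) := by positivity
  set A := Tay_K (2 * Q) * ‖a‖ * ‖w‖ * ‖u‖ with hA
  set f : C3 → ℂ := fun x => G2c (p + x) a w u with hf
  have hD : ∀ x ∈ ball (0 : C3) (1 / (2 * Q)), Dc (2 * Q) (p + x) := fun x hx =>
    Tay_add hQ hp (mem_ball_zero_iff.1 hx).le
  have hd : ∀ x ∈ ball (0 : C3) (1 / (2 * Q)), DifferentiableAt ℂ f x := fun x hx =>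
    Tay_diff p a w u (Tay_pos hQ2 (hD x hx))
  have hb : ∀ x ∈ ball (0 : C3) (1 / (2 * Q)), ‖f x‖ ≤ A := fun x hx =>
    (Tay_bd hQ2 (hD x hx) a u w).2.2.2
  have hneg : ∀ x ∈ ball (0 : C3) (1 / (2 * Q)), -x ∈ ball (0 : C3) (1 / (2 * Q)) :=
    fun x hx => by simpa using hx
  have h0 : (0 : C3) ∈ ball (0 : C3) (1 / (2 * Q)) := mem_ball_self hR
  have hvb : v ∈ ball (0 : C3) (1 / (2 * Q)) := by
    refine mem_ball_zero_iff.2 (hv.trans_lt ?_)
    exact one_div_lt_one_div_of_lt (by positivity) (by linarith)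
  have hf0 : f 0 = G2c p a w u := by simp [hf]
  refine ⟨?_, ?_⟩
  · have h1 := dist_le_div_mul_dist_of_mapsTo_ball (f := f) (R₂ := 2 * A)
      (fun x hx => (hd x hx).differentiableWithinAt) (fun x hx => by
        rw [mem_closedBall, dist_eq_norm]
        exact (norm_sub_le _ _).trans (by linarith [hb x hx, hb 0 h0])) hvb
    rw [dist_eq_norm, dist_zero_right, hf0] at h1
    refine h1.trans_eq ?_
    rw [hA]
    field_simp
    ring
  · have hd' : ∀ x ∈ ball (0 : C3) (1 / (2 * Q)), DifferentiableAt ℂ (fun x => f (-x)) x :=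
      fun x hx => (hd _ (hneg x hx)).comp x differentiableAt_id.neg
    have h2 : HasFDerivAt (fun x => f x + f (-x)) (0 : C3 →L[ℂ] ℂ) 0 := by
      have h3 := (hd 0 h0).hasFDerivAt
      have h4 : HasFDerivAt f (fderiv ℂ f 0) (-0) := by simpa using h3
      have h5 := h3.add (h4.comp 0 (hasFDerivAt_id (0 : C3)).neg)
      refine h5.congr_fderiv ?_
      ext x
      simp
    have h1 := dist_le_mul_div_pow_of_mapsTo_ball_of_isLittleO (f := fun x => f x + f (-x))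
      (R₂ := 4 * A) (n := 1)
      (fun x hx => ((hd x hx).add (hd' x hx)).differentiableWithinAt) (fun x hx => by
        rw [mem_closedBall, dist_eq_norm]
        refine (norm_sub_le _ _).trans ((add_le_add (norm_add_le _ _) (norm_add_le _ _)).trans ?_)
        linarith [hb x hx, hb 0 h0, hb _ (hneg x hx), hb _ (hneg 0 h0)])
      (by simpa using h2.isLittleO.norm_right) hvb
    rw [dist_eq_norm, dist_zero_right, neg_zero, hf0, ← two_mul] at h1
    rw [sub_eq_add_neg p v]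
    refine h1.trans_eq ?_
    rw [hA]
    field_simp
    ring

theorem Tay_mv {g g' : ℂ → ℂ} {M : ℝ} (hd : ∀ z : ℂ, ‖z‖ ≤ 1 → HasDerivAt g (g' z) z)
    (hb : ∀ z : ℂ, ‖z‖ ≤ 1 → ‖g' z‖ ≤ M) (h0 : g 0 = 0) (z : ℂ) (hz : ‖z‖ ≤ 1) : ‖g z‖ ≤ M := by
  have h1 := (convex_closedBall (0 : ℂ) 1).norm_image_sub_le_of_norm_hasDerivWithin_le
    (f := g) (f' := g') (C := M)
    (fun x hx => (hd x (mem_closedBall_zero_iff.1 hx)).hasDerivWithinAt)
    (fun x hx => hb x (mem_closedBall_zero_iff.1 hx)) (mem_closedBall_self zero_le_one)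
    (mem_closedBall_zero_iff.2 hz)
  have hM : 0 ≤ M := (norm_nonneg _).trans (hb 0 (by simp))
  rw [h0, sub_zero, sub_zero] at h1
  exact h1.trans (mul_le_of_le_one_right hM hz)

theorem sTc : STc := by
  intro Q hQ
  have hQ2 : 1 ≤ 2 * Q := by linarith
  have hK : 0 < Tay_K (2 * Q) := by unfold Tay_K; positivity
  set C := 16 * Q ^ 2 * Tay_K (2 * Q) with hC
  have hq : 1 ≤ Q ^ 2 := one_le_pow₀ hQ
  have hC1 : Tay_K (2 * Q) ≤ C := by rw [hC]; nlinarith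
  have hC2 : 4 * Q * Tay_K (2 * Q) ≤ C := by
    rw [hC]
    exact mul_le_mul_of_nonneg_right (by nlinarith) hK.le
  have hB : ∀ p : C3, Dc (2 * Q) p → ∀ a v w : C3, ‖phc p‖ ≤ C ∧ ‖G0c p a‖ ≤ C * ‖a‖ ∧
      ‖G1c p a w‖ ≤ C * ‖a‖ * ‖w‖ ∧ ‖G2c p a w v‖ ≤ C * ‖a‖ * ‖w‖ * ‖v‖ := fun p hp a v w => by
    obtain ⟨h1, h2, h3, h4⟩ := Tay_bd hQ2 hp a v w
    exact ⟨h1.trans hC1, h2.trans (by gcongr), h3.trans (by gcongr), h4.trans (by gcongr)⟩
  refine ⟨C, by positivity, fun p hp a v w => ⟨hB p (by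
    simpa using Tay_add (v := 0) hQ hp (by rw [norm_zero]; positivity)) a v w, fun hv => ?_⟩⟩
  have hz : ∀ z : ℂ, ‖z‖ ≤ 1 → ‖z • v‖ ≤ ‖v‖ := fun z hz => by
    rw [norm_smul]
    exact mul_le_of_le_one_left (norm_nonneg _) hz
  have hD : ∀ z : ℂ, ‖z‖ ≤ 1 → Dc (2 * Q) (p + z • v) := fun z h =>
    Tay_add hQ hp (((hz z h).trans hv).trans
      (one_div_le_one_div_of_le (by positivity) (by linarith)))
  have hP : ∀ z : ℂ, ‖z‖ ≤ 1 → ∀ i, 0 < ((p + z • v) i).re := fun z h => Tay_pos hQ2 (hD z h)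
  have hL : ∀ (x y u : C3) (z : ℂ), ‖z‖ ≤ 1 →
      ‖G2c (p + z • v) x y u - G2c p x y u‖ ≤ C * ‖x‖ * ‖y‖ * ‖u‖ * ‖v‖ := fun x y u z h =>
    (Tay_lip hQ hp x y u ((hz z h).trans hv)).1.trans (by gcongr; exact hz z h)
  have h5 : ∀ (x y : C3) (z : ℂ), ‖z‖ ≤ 1 →
      ‖G1c (p + z • v) x y - G1c p x y - z * G2c p x y v‖ ≤ C * ‖x‖ * ‖y‖ * ‖v‖ * ‖v‖ :=
    fun x y => Tay_mv (g' := fun z => G2c (p + z • v) x y v - G2c p x y v)
      (fun z h => (((Tay_d2 p v x y z (hP z h)).sub_const (G1c p x y)).sub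
          ((hasDerivAt_id z).mul_const (G2c p x y v))).congr_deriv (by ring))
      (hL x y v) (by simp)
  refine ⟨?_, ?_, ?_, ?_, ?_, ?_⟩
  · have h1 := Tay_mv (g := fun z => phc (p + z • v) - phc p) (g' := fun z => G0c (p + z • v) v)
      (M := C * ‖v‖) (fun z h => (Tay_d0 p v z (hP z h)).sub_const _)
      (fun z h => (hB _ (hD z h) v v v).2.1) (by simp) 1 (by simp)
    simpa using h1
  · have hn : ∀ {f : ℂ → ℂ} {c z : ℂ}, HasDerivAt f c (-z) →
        HasDerivAt (fun x => f (-x)) (-c) z := fun {f c z} h =>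
      (h.comp z (hasDerivAt_neg z)).congr_deriv (by ring)
    have k3 : ∀ z : ℂ, ‖z‖ ≤ 1 → ‖G2c (p + z • v) v v v + G2c (p + (-z) • v) v v v -
        2 * G2c p v v v‖ ≤ C * ‖v‖ ^ 5 := fun z h => by
      rw [neg_smul, ← sub_eq_add_neg]
      refine (Tay_lip hQ hp v v v ((hz z h).trans hv)).2.trans ?_
      calc _ ≤ C * ‖v‖ * ‖v‖ * ‖v‖ * ‖v‖ ^ 2 := by
            gcongr
            exact hz z h
        _ = _ := by ring
    have k2 := Tay_mv (g := fun z => G1c (p + z • v) v v - G1c (p + (-z) • v) v v -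
        2 * z * G2c p v v v) (fun z h => by
      have e1 := Tay_d2 p v v v z (hP z h)
      have e2 := hn (Tay_d2 p v v v (-z) (hP _ (by simpa using h)))
      have e3 := ((hasDerivAt_id z).const_mul 2).mul_const (G2c p v v v)
      exact ((e1.sub e2).sub e3).congr_deriv (by ring)) k3 (by simp)
    have k1 := Tay_mv (g := fun z => G0c (p + z • v) v + G0c (p + (-z) • v) v - 2 * G0c p v -
        z ^ 2 * G2c p v v v) (fun z h => by
      have e1 := Tay_d1 p v v z (hP z h)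
      have e2 := hn (Tay_d1 p v v (-z) (hP _ (by simpa using h)))
      have e3 := (hasDerivAt_pow 2 z).mul_const (G2c p v v v)
      exact (((e1.add e2).sub_const (2 * G0c p v)).sub e3).congr_deriv (by simp; ring)) k2
      (by simp; ring)
    have k0 := Tay_mv (g := fun z => phc (p + z • v) - phc (p + (-z) • v) - 2 * z * G0c p v -
        z ^ 3 * G2c p v v v / 3) (fun z h => by
      have e1 := Tay_d0 p v z (hP z h)
      have e2 := hn (Tay_d0 p v (-z) (hP _ (by simpa using h)))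
      have e3 := ((hasDerivAt_id z).const_mul 2).mul_const (G0c p v)
      have e4 := ((hasDerivAt_pow 3 z).mul_const (G2c p v v v)).div_const 3
      exact (((e1.sub e2).sub e3).sub e4).congr_deriv (by simp; ring)) k1 (by simp) 1 (by simp)
    simpa [sub_eq_add_neg] using k0
  · have k1 := Tay_mv (g := fun z => G1c (p + z • v) a v - G1c p a v)
      (g' := fun z => G2c (p + z • v) a v v) (M := C * ‖a‖ * ‖v‖ * ‖v‖)
      (fun z h => (Tay_d2 p v a v z (hP z h)).sub_const _)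
      (fun z h => (hB _ (hD z h) a v v).2.2.2) (by simp)
    have k0 := Tay_mv (g := fun z => G0c (p + z • v) a - G0c p a - z * G1c p a v) (fun z h =>
      (((Tay_d1 p v a z (hP z h)).sub_const (G0c p a)).sub
        ((hasDerivAt_id z).mul_const (G1c p a v))).congr_deriv (by ring)) k1 (by simp) 1 (by simp)
    simp only [one_smul, one_mul] at k0
    exact k0.trans_eq (by ring)
  · have k0 := Tay_mv (g := fun z => G0c (p + z • v) a - G0c p a - z * G1c p a v -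
        z ^ 2 * G2c p a v v / 2) (fun z h => by
      have e1 := (Tay_d1 p v a z (hP z h)).sub_const (G0c p a)
      have e2 := (hasDerivAt_id z).mul_const (G1c p a v)
      have e3 := ((hasDerivAt_pow 2 z).mul_const (G2c p a v v)).div_const 2
      exact ((e1.sub e2).sub e3).congr_deriv (by simp; ring)) (h5 a v) (by simp) 1 (by simp)
    simp only [one_smul, one_mul, one_pow] at k0
    exact k0.trans_eq (by ring)
  · have k0 := h5 a w 1 (by simp)
    simp only [one_smul, one_mul] at k0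
    exact k0.trans_eq (by ring)
  · have k0 := hL a a a 1 (by simp)
    simp only [one_smul] at k0
    exact k0.trans_eq (by ring)

theorem Tay_norm_cv (a : V3) : ‖cv a‖ = ‖a‖ := by
  simp [Pi.norm_def, cv]

theorem Tay_cv_add (a b : V3) : cv (a + b) = cv a + cv b := by
  funext i
  simp [cv]

theorem sTr : STr := by
  intro Q hQ
  obtain ⟨C, hC, H⟩ := sTc Q hQ
  refine ⟨C, hC, fun p hp a v w => ?_⟩
  have hp0 : ∀ i, 0 < p i := fun i => lt_of_lt_of_le (by positivity) (hp i).1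
  have hc : Dc Q (cv p) := fun i =>
    ⟨(hp i).1, by rw [cv, norm_real, Real.norm_of_nonneg (hp0 i).le]; exact (hp i).2⟩
  obtain ⟨⟨-, h1, h2, h3⟩, h4⟩ := H (cv p) hc (cv a) (cv v) (cv w)
  have e := fun x y z => sBa.1 p x y z hp0
  simp only [Tay_norm_cv] at h1 h2 h3 h4
  rw [(e a v w).2.1, norm_real] at h1
  rw [(e a w v).2.2.1, norm_real] at h2
  rw [(e a w v).2.2.2, norm_real] at h3
  refine ⟨⟨h1, h2, h3⟩, fun hv => ?_⟩
  obtain ⟨-, -, -, h5, h6, -⟩ := h4 hv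
  have hpv : ∀ i, 0 < (p + v) i := fun i => by
    have h7 := Tay_pos (Q := 2 * Q) (by linarith) (Tay_add (v := cv v) hQ hc (by
      rw [Tay_norm_cv]
      exact hv.trans (one_div_le_one_div_of_le (by positivity) (by linarith)))) i
    simpa [cv] using h7
  have e' := fun x y z => sBa.1 (p + v) x y z hpv
  rw [← Tay_cv_add, (e' a v w).2.1, (e a v w).2.1, (e a v v).2.2.1, (e a v v).2.2.2] at h5
  rw [← Tay_cv_add, (e' a w v).2.2.1, (e a w v).2.2.1, (e a w v).2.2.2] at h6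
  refine ⟨?_, ?_⟩
  · rw [← Real.norm_eq_abs, ← norm_real]
    push_cast
    exact h5
  · rw [← Real.norm_eq_abs, ← norm_real]
    push_cast
    exact h6

end Pool.Agent.CubH
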