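import Pool.Agent.Lib.MP_d79f69_nt.Iface

/-!
The averaged theta function and the functional equation.
-/

open Matrix MeasureTheory Set Filter Asymptotics

namespace Pool.Agent.CubH

universe u

theorem th1_sq (B : M3) {t : V3} (ht : ∀ j, 0 < t j) (n : Z3) :
    ∑ j, ((diagonal (fun j => √(t j)) * B) *ᵥ zr n) j ^ 2 = ∑ j, t j * (B *ᵥ zr n) j ^ 2 := by
  refine Finset.sum_congr rfl fun j _ => ?_
  rw [← mulVec_mulVec, mulVec_diagonal, mul_pow, Real.sq_sqrt (ht j).le]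

theorem th1_det (B : M3) {t : V3} (ht : ∀ j, 0 < t j) :
    (diagonal (fun j => √(t j)) * B).det = √(t 0 * t 1 * t 2) * B.det := by
  rw [det_mul, det_diagonal, Fin.prod_univ_three, Real.sqrt_mul (mul_pos (ht 0) (ht 1)).le,
    Real.sqrt_mul (ht 0).le]

theorem th1_ne {B : M3} (hB : B.det ≠ 0) {t : V3} (ht : ∀ j, 0 < t j) :
    (diagonal (fun j => √(t j)) * B).det ≠ 0 := by
  rw [th1_det B ht]
  exact mul_ne_zero (Real.sqrt_pos.2 (mul_pos (mul_pos (ht 0) (ht 1)) (ht 2))).ne' hB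

theorem th1_summable (h : SP1) {B : M3} (hB : B.det ≠ 0) {t : V3} (ht : ∀ j, 0 < t j) :
    Summable fun n : Z3 => Real.exp (-Real.pi * ∑ j, t j * (B *ᵥ zr n) j ^ 2) := by
  simpa only [th1_sq B ht] using (h _ (th1_ne hB ht)).1

theorem th1_poisson (h : SP1) {B : M3} (hB : |B.det| = 1) {t : V3} (ht : ∀ j, 0 < t j) :
    th B t = (√(t 0 * t 1 * t 2))⁻¹ * th B⁻¹ᵀ (fun j => (t j)⁻¹) := by
  have hB0 : B.det ≠ 0 := fun e => by simp [e] at hB
  have h1 := (h _ (th1_ne hB0 ht)).2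
  have h2 : (diagonal (fun j => √(t j)) * B)⁻¹ᵀ = diagonal (fun j => √((t j)⁻¹)) * B⁻¹ᵀ := by
    have : (diagonal (fun j => √(t j)) * B)⁻¹ = B⁻¹ * diagonal (fun j => √((t j)⁻¹)) := by
      refine inv_eq_right_inv ?_
      rw [Matrix.mul_assoc, ← Matrix.mul_assoc B, mul_nonsing_inv _ (Ne.isUnit hB0),
        Matrix.one_mul, diagonal_mul_diagonal, ← diagonal_one]
      congr 1
      funext j
      rw [Real.sqrt_inv, mul_inv_cancel₀ (Real.sqrt_pos.2 (ht j)).ne']
    rw [this, transpose_mul, diagonal_transpose]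
  rw [h2, th1_det B ht, abs_mul, hB, mul_one, abs_of_nonneg (Real.sqrt_nonneg _)] at h1
  simpa only [th1_sq B ht, th1_sq B⁻¹ᵀ (fun j => inv_pos.2 (ht j)), th] using h1

theorem th1_mono (B : M3) {t t' : V3} (ht : ∀ j, t j ≤ t' j) (n : Z3) :
    Real.exp (-Real.pi * ∑ j, t' j * (B *ᵥ zr n) j ^ 2) ≤
      Real.exp (-Real.pi * ∑ j, t j * (B *ᵥ zr n) j ^ 2) := by
  refine Real.exp_le_exp.2 (mul_le_mul_of_nonpos_left (Finset.sum_le_sum fun j _ => ?_)
    (neg_nonpos.2 Real.pi_pos.le))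
  exact mul_le_mul_of_nonneg_right (ht j) (sq_nonneg _)

theorem th1_cont (h : SP1) {B : M3} (hB : B.det ≠ 0) :
    Continuous fun y : V3 => th B (fun j => Real.exp (y j)) := by
  refine continuous_iff_continuousAt.2 fun y0 => ?_
  have hs : {y : V3 | ∀ j, y0 j - 1 < y j} ∈ nhds y0 :=
    Filter.eventually_all.2 fun j => (continuous_apply j).continuousAt.eventually
      (lt_mem_nhds (by simp))
  refine (continuousOn_tsum (fun n => ?_) (th1_summable h hB (t := fun j => Real.exp (y0 j - 1))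
    fun j => Real.exp_pos _) fun n y hy => ?_).continuousAt hs
  · exact Continuous.continuousOn (by fun_prop)
  · rw [Real.norm_of_nonneg (Real.exp_pos _).le]
    exact th1_mono B (fun j => Real.exp_le_exp.2 (hy j).le) n

theorem th1_gap {B : M3} (hB : B.det ≠ 0) :
    ∃ c : ℝ, 0 < c ∧ ∀ n : Z3, n ≠ 0 → c ≤ ∑ j, (B *ᵥ zr n) j ^ 2 := by
  set M := ∑ i, ∑ j, B⁻¹ i j ^ 2 + 1 with hM
  have h0 : ∀ i, 0 ≤ ∑ j, B⁻¹ i j ^ 2 := fun i => Finset.sum_nonneg fun j _ => sq_nonneg _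
  have hM0 : 0 < M := by
    have := Finset.sum_nonneg fun i (_ : i ∈ Finset.univ) => h0 i
    linarith
  refine ⟨1 / M, by positivity, fun n hn => ?_⟩
  obtain ⟨i, hi⟩ := Function.ne_iff.1 hn
  have h1 : (1 : ℝ) ≤ zr n i ^ 2 := by
    have : (1 : ℤ) ≤ n i ^ 2 := (one_le_sq_iff_one_le_abs _).2 (Int.one_le_abs hi)
    unfold zr
    exact_mod_cast this
  have h2 : zr n i = ∑ j, B⁻¹ i j * (B *ᵥ zr n) j := by
    show _ = (B⁻¹ *ᵥ (B *ᵥ zr n)) i
    rw [mulVec_mulVec, nonsing_inv_mul _ (Ne.isUnit hB), one_mulVec]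
  have h3 := Finset.sum_mul_sq_le_sq_mul_sq Finset.univ (fun j => B⁻¹ i j) (B *ᵥ zr n)
  have h4 : ∑ j, B⁻¹ i j ^ 2 ≤ M :=
    (Finset.single_le_sum (fun i _ => h0 i) (Finset.mem_univ i)).trans (by linarith)
  have h5 : 0 ≤ ∑ j, (B *ᵥ zr n) j ^ 2 := Finset.sum_nonneg fun j _ => sq_nonneg _
  rw [div_le_iff₀ hM0]
  rw [← h2] at h3
  nlinarith

theorem th1_decay (h : SP1) {B : M3} (hB : B.det ≠ 0) : ∃ c K : ℝ, 0 < c ∧
    ∀ (T : ℝ) (t : V3), 1 ≤ T → (∀ j, T ≤ t j) → |th B t - 1| ≤ K * Real.exp (-c * T) := by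
  obtain ⟨c, hc, h1⟩ := th1_gap hB
  refine ⟨Real.pi * c, th B (fun _ => 1) * Real.exp (Real.pi * c), by positivity,
    fun T t hT ht => ?_⟩
  have hs := th1_summable h hB (t := t) fun j => by linarith [ht j]
  have hs1 := th1_summable h hB (t := fun _ => 1) fun j => one_pos
  have h2 : th B t - 1 = ∑' n : Z3, if n = 0 then 0 else
      Real.exp (-Real.pi * ∑ j, t j * (B *ᵥ zr n) j ^ 2) := by
    have h0 : zr 0 = 0 := by
      funext j
      simp [zr]
    unfold th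
    rw [hs.tsum_eq_add_tsum_ite 0, h0]
    simp
  have h3 : th B (fun _ => 1) * Real.exp (Real.pi * c) * Real.exp (-(Real.pi * c) * T) =
      ∑' n : Z3, Real.exp (-Real.pi * ∑ j, 1 * (B *ᵥ zr n) j ^ 2) *
        Real.exp (-(Real.pi * c) * (T - 1)) := by
    rw [tsum_mul_right, mul_assoc, ← Real.exp_add]
    congr 2
    ring
  rw [h2, h3, ← Real.norm_eq_abs]
  refine tsum_of_norm_bounded (hs1.mul_right _).hasSum fun n => ?_
  split_ifs with hn
  · rw [norm_zero]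
    positivity
  · rw [Real.norm_of_nonneg (Real.exp_pos _).le, ← Real.exp_add]
    refine (th1_mono B (t := fun _ => T) ht n).trans (Real.exp_le_exp.2 ?_)
    have h4 := h1 n hn
    simp only [← Finset.mul_sum, one_mul]
    have := mul_le_mul_of_nonneg_left h4 (mul_nonneg Real.pi_pos.le (sub_nonneg.2 hT))
    nlinarith

/-- the closed fundamental square -/
def th1S : Set (ℝ × ℝ) := Icc (-1 / 2 : ℝ) (1 / 2) ×ˢ Icc (-1 / 2 : ℝ) (1 / 2)

theorem th1_compact : IsCompact th1S := isCompact_Icc.prod isCompact_Icc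

theorem th1_box (f : ℝ × ℝ → ℂ) :
    ∫ z in Ioc (-1 / 2 : ℝ) (1 / 2) ×ˢ Ioc (-1 / 2 : ℝ) (1 / 2), f z = ∫ z in th1S, f z :=
  setIntegral_congr_set (Measure.set_prod_ae_eq Ioc_ae_eq_Icc Ioc_ae_eq_Icc)

theorem th1_neg (f : ℝ × ℝ → ℂ) : ∫ z in th1S, f (-z) = ∫ z in th1S, f z := by
  have h := (Measure.measurePreserving_neg (volume : Measure (ℝ × ℝ))).setIntegral_preimage_emb
    measurableEmbedding_neg f th1S
  have e : Neg.neg ⁻¹' th1S = th1S := by
    ext z
    simp only [th1S, mem_preimage, mem_prod, mem_Icc, Prod.fst_neg, Prod.snd_neg]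
    constructor <;> rintro ⟨⟨h1, h2⟩, h3, h4⟩ <;> refine ⟨⟨?_, ?_⟩, ?_, ?_⟩ <;> linarith
  rwa [e] at h

/-- the character -/
noncomputable def th1E (ν : V3) (l : Fin 2 → V3) (z : ℝ × ℝ) : ℂ :=
  Complex.exp (-(Complex.I * ((z.1 * ∑ j, ν j * l 0 j + z.2 * ∑ j, ν j * l 1 j : ℝ) : ℂ)))

theorem th1E_cont (ν : V3) (l : Fin 2 → V3) : Continuous (th1E ν l) := by
  unfold th1E
  fun_prop

theorem th1E_neg (ν : V3) (l : Fin 2 → V3) (z : ℝ × ℝ) : th1E (-ν) l (-z) = th1E ν l z := by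
  simp [th1E]

theorem th1_int1 {μ : ℝ} {m : ℤ} (h : μ = 2 * Real.pi * m) (h0 : μ ≠ 0) :
    ∫ x in Icc (-1 / 2 : ℝ) (1 / 2), Complex.exp (-(Complex.I * μ) * x) = 0 := by
  rw [integral_Icc_eq_integral_Ioc, ← intervalIntegral.integral_of_le (by norm_num),
    integral_exp_mul_complex (by simpa using h0), div_eq_zero_iff, sub_eq_zero]
  refine Or.inl (Complex.exp_eq_exp_iff_exists_int.2 ⟨-m, ?_⟩)
  rw [h]
  push_cast
  ring

theorem th1E_int {ν : V3} {l : Fin 2 → V3}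
    (h : ∀ k, ∃ m : ℤ, ∑ j, ν j * l k j = 2 * Real.pi * m) {k : Fin 2}
    (hk : ∑ j, ν j * l k j ≠ 0) : ∫ z in th1S, th1E ν l z = 0 := by
  have e : th1E ν l = fun z => Complex.exp (-(Complex.I * (∑ j, ν j * l 0 j : ℝ)) * z.1) *
      Complex.exp (-(Complex.I * (∑ j, ν j * l 1 j : ℝ)) * z.2) := by
    funext z
    rw [th1E, ← Complex.exp_add, Complex.ofReal_add, Complex.ofReal_mul, Complex.ofReal_mul]
    congr 1
    ring
  rw [e, th1S, Measure.volume_eq_prod,
    setIntegral_prod_mul (fun x : ℝ => Complex.exp (-(Complex.I * (∑ j, ν j * l 0 j : ℝ)) * x))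
      (fun x : ℝ => Complex.exp (-(Complex.I * (∑ j, ν j * l 1 j : ℝ)) * x))]
  obtain ⟨m, hm⟩ := h k
  fin_cases k
  · exact mul_eq_zero_of_left (th1_int1 hm hk) _
  · exact mul_eq_zero_of_right _ (th1_int1 hm hk)

/-- the integrand -/
noncomputable def th1G (B : M3) (ν : V3) (l : Fin 2 → V3) (y : ℝ) (z : ℝ × ℝ) : ℂ :=
  ((th B (fun j => Real.exp (y / 3 + 2 * (z.1 * l 0 j + z.2 * l 1 j))) - 1 : ℝ) : ℂ) * th1E ν l z

theorem th1G_cont (h : SP1) {B : M3} (hB : B.det ≠ 0) (ν : V3) (l : Fin 2 → V3) :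
    Continuous (Function.uncurry (th1G B ν l)) := by
  have h1 : Continuous fun p : ℝ × ℝ × ℝ =>
      th B (fun j => Real.exp (p.1 / 3 + 2 * (p.2.1 * l 0 j + p.2.2 * l 1 j))) :=
    (th1_cont h hB).comp (f := fun p : ℝ × ℝ × ℝ =>
      fun j => p.1 / 3 + 2 * (p.2.1 * l 0 j + p.2.2 * l 1 j)) (by fun_prop)
  exact (Complex.continuous_ofReal.comp (h1.sub continuous_const)).mul
    ((th1E_cont ν l).comp continuous_snd)

theorem th1_ff {A : Type u} [Fintype A] (B : A → M3) (c : A → ℂ) (ν : V3) (l : Fin 2 → V3)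
    {x : ℝ} (hx : 0 < x) :
    ff B c ν l x = ∑ a, c a * ∫ z in th1S, th1G (B a) ν l (Real.log x) z := by
  have e : ∀ z, tt l x z =
      fun j => Real.exp (Real.log x / 3 + 2 * (z.1 * l 0 j + z.2 * l 1 j)) := by
    intro z
    funext j
    rw [tt, Real.exp_add, Real.rpow_def_of_pos hx, mul_one_div]
  simp only [ff, th1_box, e, th1G, th1E]

theorem th1_top (h : SP1) {B : M3} (hB : B.det ≠ 0) (ν : V3) (l : Fin 2 → V3) (r : ℝ) :
    (fun x : ℝ => ∫ z in th1S, th1G B ν l (Real.log x) z) =O[atTop] fun x : ℝ => x ^ r := by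
  obtain ⟨c, K, hc, h1⟩ := th1_decay h hB
  set L := ∑ j, (|l 0 j| + |l 1 j|) with hL
  have h2 : Tendsto (fun x : ℝ => x ^ ((1 : ℝ) / 3)) atTop atTop :=
    tendsto_rpow_atTop (by norm_num)
  have h3 := (isLittleO_exp_neg_mul_rpow_atTop (mul_pos hc (Real.exp_pos (-L)))
    (3 * r)).isBigO.comp_tendsto h2
  refine (IsBigO.of_bound (K * (volume : Measure (ℝ × ℝ)).real th1S) ?_).trans
    (h3.congr' EventuallyEq.rfl ?_)
  · filter_upwards [eventually_gt_atTop 0, h2.eventually (eventually_ge_atTop (Real.exp L))]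
      with x hx hx'
    refine (norm_setIntegral_le_of_norm_le_const (C := K * Real.exp
      (-c * (Real.exp (-L) * x ^ ((1 : ℝ) / 3)))) th1_compact.measure_lt_top fun z hz => ?_).trans
      (le_of_eq ?_)
    · have h4 : ‖th1E ν l z‖ = 1 := by
        rw [th1E, ← mul_neg, ← Complex.ofReal_neg, Complex.norm_exp_I_mul_ofReal]
      rw [th1G, norm_mul, h4, mul_one, Complex.norm_real, Real.norm_eq_abs]
      refine h1 _ _ ?_ fun j => ?_
      · rw [Real.exp_neg, ← div_eq_inv_mul, one_le_div (Real.exp_pos _)]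
        exact hx'
      · rw [Real.rpow_def_of_pos hx, ← Real.exp_add, Real.exp_le_exp]
        have a1 : |l 0 j| + |l 1 j| ≤ L := Finset.single_le_sum
          (f := fun j => |l 0 j| + |l 1 j|) (fun j _ => by positivity) (Finset.mem_univ j)
        have a2 : |z.1| ≤ 1 / 2 := abs_le.2 ⟨by linarith [hz.1.1], hz.1.2⟩
        have a3 : |z.2| ≤ 1 / 2 := abs_le.2 ⟨by linarith [hz.2.1], hz.2.2⟩
        have a4 := neg_abs_le (z.1 * l 0 j)
        have a5 := neg_abs_le (z.2 * l 1 j)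
        rw [abs_mul] at a4 a5
        have a6 := mul_le_mul_of_nonneg_right a2 (abs_nonneg (l 0 j))
        have a7 := mul_le_mul_of_nonneg_right a3 (abs_nonneg (l 1 j))
        linarith
    · rw [Function.comp_apply, Real.norm_of_nonneg (Real.exp_pos _).le]
      rw [show -c * (Real.exp (-L) * x ^ ((1 : ℝ) / 3)) =
        -(c * Real.exp (-L)) * x ^ ((1 : ℝ) / 3) by ring]
      ring
  · filter_upwards [eventually_gt_atTop 0] with x hx
    rw [Function.comp_apply, ← Real.rpow_mul hx.le]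
    congr 1
    ring

theorem th1_feq (h : SP1) {B : M3} (hB : |B.det| = 1) (ν : V3) {l : Fin 2 → V3}
    (hl : ∀ k, l k 0 + l k 1 + l k 2 = 0) (y : ℝ) :
    ∫ z in th1S, th1G B ν l (-y) z = Real.exp (y / 2) * (∫ z in th1S, th1G B⁻¹ᵀ (-ν) l y z) +
      (Real.exp (y / 2) - 1) * ∫ z in th1S, th1E ν l z := by
  have hB' : (B⁻¹ᵀ).det ≠ 0 := by
    rw [det_transpose, det_nonsing_inv, Ring.inverse_eq_inv']
    exact inv_ne_zero fun e => by simp [e] at hB
  have h1 : Continuous fun z => th1G B⁻¹ᵀ (-ν) l y (-z) :=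
    (th1G_cont h hB' (-ν) l).comp (f := fun z : ℝ × ℝ => (y, -z)) (by fun_prop)
  rw [← th1_neg (th1G B⁻¹ᵀ (-ν) l y), ← integral_const_mul, ← integral_const_mul, ← integral_add
    ((h1.continuousOn.integrableOn_compact th1_compact).const_mul _)
    (((th1E_cont ν l).continuousOn.integrableOn_compact th1_compact).const_mul _)]
  refine integral_congr_ae (Eventually.of_forall fun z => ?_)
  simp only [th1G, th1E_neg]
  rw [th1_poisson h hB fun j => Real.exp_pos _]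
  have e1 : (√(Real.exp (-y / 3 + 2 * (z.1 * l 0 0 + z.2 * l 1 0)) *
      Real.exp (-y / 3 + 2 * (z.1 * l 0 1 + z.2 * l 1 1)) *
      Real.exp (-y / 3 + 2 * (z.1 * l 0 2 + z.2 * l 1 2))))⁻¹ = Real.exp (y / 2) := by
    rw [← Real.exp_add, ← Real.exp_add, ← Real.exp_half, ← Real.exp_neg]
    congr 1
    linear_combination (-z.1) * hl 0 - z.2 * hl 1
  have e2 : (fun j => (Real.exp (-y / 3 + 2 * (z.1 * l 0 j + z.2 * l 1 j)))⁻¹) =
      fun j => Real.exp (y / 3 + 2 * ((-z).1 * l 0 j + (-z).2 * l 1 j)) := by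
    funext j
    rw [← Real.exp_neg, Prod.fst_neg, Prod.snd_neg]
    congr 1
    ring
  rw [e1, e2]
  simp only [Complex.ofReal_sub, Complex.ofReal_mul, Complex.ofReal_one]
  ring

theorem sF1 (h : SP1) : SF1.{u} := by
  intro A _ B c ν l hB hl
  have hB0 : ∀ a, (B a).det ≠ 0 := fun a e => by simpa [e] using hB a
  refine ⟨?_, fun r => ?_, fun h1 h2 x hx => ?_⟩
  · refine ContinuousOn.congr (f := fun x =>
      ∑ a, c a * ∫ z in th1S, th1G (B a) ν l (Real.log x) z) ?_ fun x hx => th1_ff B c ν l hx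
    refine continuousOn_finsetSum _ fun a _ => continuousOn_const.mul ?_
    exact (continuous_parametric_integral_of_continuous (th1G_cont h (hB0 a) ν l)
      th1_compact).comp_continuousOn (Real.continuousOn_log.mono fun x hx => ne_of_gt hx)
  · refine (IsBigO.sum (s := Finset.univ) fun a _ =>
      (th1_top h (hB0 a) ν l r).const_mul_left (c a)).congr' ?_ EventuallyEq.rfl
    filter_upwards [eventually_gt_atTop 0] with x hx
    rw [Finset.sum_apply, th1_ff B c ν l hx]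
  · rw [th1_ff B c ν l (one_div_pos.2 hx), th1_ff _ c (-ν) l hx, one_div, Real.log_inv,
      Real.rpow_def_of_pos hx, mul_one_div]
    simp only [th1_feq h (hB _) ν hl, mul_add, Finset.sum_add_distrib, ← Finset.sum_mul]
    have h3 : (∑ a, c a) * ((Real.exp (Real.log x / 2) - 1) * ∫ z in th1S, th1E ν l z) = 0 := by
      rcases h2 with h2 | ⟨k, h2⟩
      · rw [h2, zero_mul]
      · rw [th1E_int h1 h2, mul_zero, mul_zero]
    rw [h3, add_zero, Finset.mul_sum]
    exact Finset.sum_congr rfl fun a _ => by ring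

theorem th1_cpow {x : ℝ} (hx : 0 < x) (s : ℂ) :
    (starRingEnd ℂ) ((x : ℂ) ^ (starRingEnd ℂ) s) = (x : ℂ) ^ s := by
  rw [← Complex.conj_cpow _ _ (by rw [Complex.arg_ofReal_of_nonneg hx.le]; exact Real.pi_pos.ne),
    Complex.conj_ofReal]

theorem th1_gam (ν : V3) (s : ℂ) : (starRingEnd ℂ) (gam ν ((starRingEnd ℂ) s)) = gam (-ν) s := by
  unfold gam
  rw [map_prod]
  refine Finset.prod_congr rfl fun j _ => ?_
  have e : (starRingEnd ℂ) s - Complex.I * ν j = (starRingEnd ℂ) (s - Complex.I * (-ν) j) := by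
    simp [sub_eq_add_neg]
  rw [e, Complex.Gammaℝ_def, Complex.Gammaℝ_def, map_mul]
  generalize s - Complex.I * (-ν) j = w
  rw [show -(starRingEnd ℂ) w / 2 = (starRingEnd ℂ) (-w / 2) by simp [map_ofNat],
    show (starRingEnd ℂ) w / 2 = (starRingEnd ℂ) (w / 2) by simp [map_ofNat],
    th1_cpow Real.pi_pos, Complex.Gamma_conj, Complex.conj_conj]

theorem th1_strip {f : ℝ → ℂ} (hf : ∀ s, MellinConvergent f s) (a b : ℝ) :
    ∃ C : ℝ, ∀ s : ℂ, a ≤ s.re → s.re ≤ b → ‖mellin f s‖ ≤ C := by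
  refine ⟨_, fun s h1 h2 => norm_integral_le_of_norm_le ((hf a).norm.add (hf b).norm) ?_⟩
  filter_upwards [ae_restrict_mem measurableSet_Ioi] with x hx
  simp only [Pi.add_apply, norm_smul, Complex.norm_cpow_eq_rpow_re_of_pos hx, ← add_mul,
    Complex.sub_re, Complex.ofReal_re, Complex.one_re]
  refine mul_le_mul_of_nonneg_right ?_ (norm_nonneg _)
  rcases le_total x 1 with h | h
  · exact (Real.rpow_le_rpow_of_exponent_ge hx h (by linarith)).trans
      (le_add_of_nonneg_right (Real.rpow_nonneg (le_of_lt hx) _))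
  · exact (Real.rpow_le_rpow_of_exponent_le h (by linarith)).trans
      (le_add_of_nonneg_left (Real.rpow_nonneg (le_of_lt hx) _))

theorem sFE (h1 : SF1.{u}) (h2 : SF2.{u}) : SFE.{u} := by
  intro J A _ D
  obtain ⟨κ, hκ, h3⟩ := h2 D.l D.hl D.hld
  obtain ⟨f1, f2, f3⟩ := h1 A D.B D.c D.ν D.l D.sys.1 D.hl
  obtain ⟨g1, g2, -⟩ := h1 A (fun a => (D.B a)⁻¹ᵀ) D.c' (-D.ν) D.l D.sys'.1 D.hl
  let P : WeakFEPair ℂ :=
    { f := ff D.B D.c D.ν D.l
      g := ff (fun a => (D.B a)⁻¹ᵀ) D.c' (-D.ν) D.l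
      k := 1 / 2
      ε := D.W
      f₀ := 0
      g₀ := 0
      hf_int := f1.locallyIntegrableOn measurableSet_Ioi
      hg_int := g1.locallyIntegrableOn measurableSet_Ioi
      hk := by norm_num
      hε := fun e => by simpa [e] using D.hW
      h_feq := fun x hx => by
        rw [f3 D.hνl D.hc0 x hx]
        simp only [ff, D.hcc, mul_assoc, ← Finset.mul_sum, smul_eq_mul]
        ring
      hf_top := fun r => by simpa using f2 r
      hg_top := fun r => by simpa using g2 r }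
  have hP : IsStrongFEPair P := ⟨rfl, rfl⟩
  have hκ' : (κ : ℂ) ≠ 0 := Complex.ofReal_ne_zero.2 hκ.ne'
  have d1 : Differentiable ℂ fun s : ℂ => (κ : ℂ)⁻¹ * P.Λ (s / 2) :=
    (hP.differentiable_Λ.comp (differentiable_id.div_const 2)).const_mul _
  have d2 : Differentiable ℂ fun s : ℂ => (κ : ℂ)⁻¹ * P.symm.Λ (s / 2) :=
    (hP.symm.differentiable_Λ.comp (differentiable_id.div_const 2)).const_mul _
  have e1 : ∀ s : ℂ, 1 < s.re →
      (κ : ℂ)⁻¹ * P.Λ (s / 2) = (D.v : ℂ) ^ s * gam D.ν s * DS D.Nn D.χ s := by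
    intro s hs
    rw [hP.Λ_eq, show mellin P.f (s / 2) = _ from
      h3 J A D.Nn D.χ D.ν D.v D.B D.c D.hv D.hν D.hνl D.hsum D.sys s hs]
    field_simp
  have e2 : ∀ s : ℂ, 1 < s.re → (κ : ℂ)⁻¹ * P.symm.Λ (s / 2) =
      (D.v : ℂ) ^ s * gam (-D.ν) s * DS D.Nn (fun I => (starRingEnd ℂ) (D.χ I)) s := by
    intro s hs
    rw [hP.symm_Λ_eq, show mellin P.g (s / 2) = _ from
      h3 J A D.Nn _ (-D.ν) D.v _ D.c' D.hv (by
        have := D.hν
        simp only [Pi.neg_apply]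
        linarith) (fun k => by
        obtain ⟨m, hm⟩ := D.hνl k
        exact ⟨-m, by simp [hm]⟩) D.hsum D.sys' s hs]
    field_simp
  have hN : ∀ I, 0 < D.Nn I := fun I => by
    by_cases h : I = D.I0
    · rw [h, D.hN0]
      exact one_pos
    · linarith [D.hN I h]
  have e3 : (fun s : ℂ => (κ : ℂ)⁻¹ * P.symm.Λ (s / 2)) =
      (starRingEnd ℂ) ∘ (fun s : ℂ => (κ : ℂ)⁻¹ * P.Λ (s / 2)) ∘ (starRingEnd ℂ) := by
    refine AnalyticOnNhd.eq_of_eventuallyEq (z₀ := 2) (d2.differentiableOn.analyticOnNhd isOpen_univ)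
      (DifferentiableOn.analyticOnNhd (fun s _ =>
        (differentiableAt_conj_conj_iff.2 (d1 _)).differentiableWithinAt) isOpen_univ) ?_
    filter_upwards [(isOpen_lt continuous_const Complex.continuous_re).mem_nhds
      (show (1 : ℝ) < (2 : ℂ).re by simp)] with s hs
    rw [e2 s hs, Function.comp_apply, Function.comp_apply, e1 _ (by simpa using hs), map_mul,
      map_mul, th1_cpow D.hv, th1_gam, DS, DS, Complex.conj_tsum]
    congr 2
    funext I
    rw [map_mul, ← map_neg, th1_cpow (hN I)]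
  refine ⟨fun s => (κ : ℂ)⁻¹ * P.Λ (s / 2), d1, fun a b => ?_, e1, fun s => ?_⟩
  · obtain ⟨C, hC⟩ := th1_strip (fun s => (hP.hasMellin s).1) (a / 2) (b / 2)
    refine ⟨‖(κ : ℂ)⁻¹‖ * C, fun s h4 h5 => ?_⟩
    rw [norm_mul, hP.Λ_eq]
    exact mul_le_mul_of_nonneg_left (hC _ (by simp; linarith) (by simp; linarith)) (norm_nonneg _)
  · have h4 := congrFun e3 (1 - s)
    have h5 := P.functional_equation ((1 - s) / 2)
    rw [show ((P.k : ℝ) : ℂ) - (1 - s) / 2 = s / 2 by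
      show (((1 : ℝ) / 2 : ℝ) : ℂ) - _ = _
      push_cast
      ring] at h5
    simp only [Function.comp_apply, map_sub, map_one] at h4
    beta_reduce
    rw [← h4, h5]
    show _ * (D.W * _) = _
    ring

end Pool.Agent.CubH
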