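import Pool.Agent.Lib.MP_d79f69_nt.Iface

/-!
Unfolding of the averaged theta function.
-/

open Matrix MeasureTheory Complex Set

namespace Pool.Agent.CubH

universe u

theorem Th2_cp {r : ℝ} (hr : 0 < r) (z : ℂ) : (r : ℂ) ^ z = cexp (Real.log r * z) := by
  rw [cpow_def_of_ne_zero (ofReal_ne_zero.2 hr.ne'), ofReal_log hr.le]

theorem Th2_mellin (f : ℝ → ℂ) (s : ℂ) :
    mellin f s = ∫ u : ℝ, cexp (s * u) * f (Real.exp u) := by
  have h := integral_image_eq_integral_abs_deriv_smul MeasurableSet.univ (f := Real.exp)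
    (f' := Real.exp) (fun x _ => (Real.hasDerivAt_exp x).hasDerivWithinAt)
    Real.exp_injective.injOn (fun t => (t : ℂ) ^ (s - 1) • f t)
  rw [image_univ, Real.range_exp, Measure.restrict_univ] at h
  rw [mellin, h]
  congr 1
  funext u
  rw [Th2_cp (Real.exp_pos u), Real.log_exp, abs_of_pos (Real.exp_pos u), real_smul, smul_eq_mul,
    ofReal_exp, ← mul_assoc, ← exp_add]
  congr 2
  ring

theorem Th2_integrable_tsum {α ι : Type*} [MeasurableSpace α] {μ : Measure α} [Countable ι]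
    {F : ι → α → ℂ} (h1 : ∀ i, Integrable (F i) μ) (h2 : Summable fun i => ∫ a, ‖F i a‖ ∂μ) :
    Integrable (fun a => ∑' i, F i a) μ := by
  refine ⟨(AEMeasurable.tsum fun i => (h1 i).1.aemeasurable).aestronglyMeasurable, ?_⟩
  refine (lintegral_mono fun a => enorm_tsum_le_tsum_enorm).trans_lt ?_
  rw [lintegral_tsum fun i => (h1 i).1.enorm]
  simp only [fun i => (ofReal_integral_norm_eq_lintegral_enorm (h1 i)).symm]
  rw [← ENNReal.ofReal_tsum_of_nonneg (fun i => integral_nonneg fun a => norm_nonneg _) h2]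
  exact ENNReal.ofReal_lt_top

/-- the one variable integrand -/
noncomputable def Th2_g (w : ℂ) (g y : ℝ) : ℂ :=
  cexp (w / 2 * y) * cexp (-((Real.pi * g ^ 2 : ℝ) * (Real.exp y : ℝ)))

theorem Th2_g_int {w : ℂ} (hw : 0 < w.re) {g : ℝ} (hg : 0 < g) :
    ∫ y, Th2_g w g y = Gammaℝ w * (g : ℂ) ^ (-w) := by
  have h1 : 0 < Real.pi * g ^ 2 := by positivity
  have h2 := integral_cpow_mul_exp_neg_mul_Ioi (a := w / 2) (by simpa using hw) h1
  have h3 := Th2_mellin (fun t => cexp (-((Real.pi * g ^ 2 : ℝ) * t))) (w / 2)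
  simp only [mellin, smul_eq_mul] at h3
  rw [h2] at h3
  simp only [Th2_g]
  rw [← h3, Gammaℝ_def, ← ofReal_one, ← ofReal_div, Th2_cp (by positivity), Th2_cp Real.pi_pos,
    Th2_cp hg, one_div, Real.log_inv, Real.log_mul Real.pi_pos.ne' (by positivity), Real.log_pow,
    mul_right_comm, ← exp_add]
  congr 2
  push_cast
  ring

theorem Th2_g_integrable {w : ℂ} (hw : 0 < w.re) {g : ℝ} (hg : 0 < g) :
    Integrable (Th2_g w g) := by
  refine Integrable.of_integral_ne_zero ?_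
  rw [Th2_g_int hw hg, Th2_cp hg]
  exact mul_ne_zero (Gammaℝ_ne_zero_of_re_pos hw) (exp_ne_zero _)

theorem Th2_haar : (volume : Measure (ℝ × ℝ × ℝ)).IsAddHaarMeasure := by
  have : (volume : Measure (ℝ × ℝ)).IsAddHaarMeasure := Measure.prod.instIsAddHaarMeasure _ _
  exact Measure.prod.instIsAddHaarMeasure _ _

/-- logarithmic coordinates -/
noncomputable def Th2_L (l : Fin 2 → V3) : ℝ × ℝ × ℝ →ₗ[ℝ] V3 where
  toFun p j := p.1 / 3 + 2 * (p.2.1 * l 0 j + p.2.2 * l 1 j)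
  map_add' p q := by funext j; simp; ring
  map_smul' c p := by funext j; simp; ring

theorem Th2_L_apply (l : Fin 2 → V3) (p : ℝ × ℝ × ℝ) (j : Fin 3) :
    Th2_L l p j = p.1 / 3 + 2 * (p.2.1 * l 0 j + p.2.2 * l 1 j) := rfl

theorem Th2_change {l : Fin 2 → V3} (hl : ∀ k, l k 0 + l k 1 + l k 2 = 0)
    (hd : l 0 0 * l 1 1 - l 0 1 * l 1 0 ≠ 0) : ∃ κ : ℝ, 0 < κ ∧ ∀ f : V3 → ℂ, Integrable f →
      Integrable (fun p => f (Th2_L l p)) ∧ ∫ p, f (Th2_L l p) = κ * ∫ y, f y := by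
  have hinj : Function.Injective (Th2_L l) := by
    rw [injective_iff_map_eq_zero]
    rintro ⟨u, a, b⟩ h
    have h0 := congrFun h 0
    have h1 := congrFun h 1
    have h2 := congrFun h 2
    simp only [Th2_L_apply, Pi.zero_apply] at h0 h1 h2
    have hu : u = 0 := by linear_combination h0 + h1 + h2 - 2 * a * hl 0 - 2 * b * hl 1
    have ha : a = 0 := by
      apply mul_left_cancel₀ hd
      linear_combination l 1 1 / 2 * h0 - l 1 0 / 2 * h1 - (l 1 1 - l 1 0) / 6 * hu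
    have hb : b = 0 := by
      apply mul_left_cancel₀ hd
      linear_combination l 0 0 / 2 * h1 - l 0 1 / 2 * h0 - (l 0 0 - l 0 1) / 6 * hu
    rw [hu, ha, hb]
    rfl
  let e := ((Th2_L l).linearEquivOfInjective hinj (by simp)).toContinuousLinearEquiv
  have := Th2_haar
  have h1 := Measure.isAddLeftInvariant_eq_smul (Measure.map e volume) (volume : Measure V3)
  have h2 := Measure.addHaarScalarFactor_pos_of_isAddHaarMeasure (Measure.map e volume)
    (volume : Measure V3)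
  have h3 : MeasurableEmbedding e := e.toHomeomorph.measurableEmbedding
  refine ⟨_, NNReal.coe_pos.2 h2, fun f hf => ⟨?_, ?_⟩⟩
  · have h4 : Integrable f (Measure.map e volume) := by
      rw [h1]
      exact hf.smul_measure_nnreal
    exact h3.integrable_map_iff.1 h4
  · have h4 := h3.integral_map (μ := volume) f
    rw [h1, integral_smul_nnreal_measure] at h4
    exact h4.symm

/-- the integrand in logarithmic coordinates -/
noncomputable def Th2_P (l : Fin 2 → V3) (ν : V3) (s : ℂ) (g : V3) (p : ℝ × ℝ × ℝ) : ℂ :=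
  ∏ j, Th2_g (s - I * ν j) (g j) (Th2_L l p j)

theorem Th2_P_int {l : Fin 2 → V3} (hl : ∀ k, l k 0 + l k 1 + l k 2 = 0)
    (hd : l 0 0 * l 1 1 - l 0 1 * l 1 0 ≠ 0) : ∃ κ : ℝ, 0 < κ ∧ ∀ (ν : V3) (s : ℂ) (g : V3),
      0 < s.re → (∀ j, 0 < g j) → Integrable (Th2_P l ν s g) ∧ ∫ p, Th2_P l ν s g p =
        κ * gam ν s * ((g 0 * g 1 * g 2 : ℝ) : ℂ) ^ (-s) * ∏ j, (g j : ℂ) ^ (I * ν j) := by
  obtain ⟨κ, hκ, H⟩ := Th2_change hl hd
  refine ⟨κ, hκ, fun ν s g hs hg => ?_⟩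
  have hw : ∀ j, 0 < (s - I * ν j).re := fun j => by simpa using hs
  obtain ⟨h1, h2⟩ := H (fun y => ∏ j, Th2_g (s - I * ν j) (g j) (y j))
    (Integrable.fintype_prod fun j => Th2_g_integrable (hw j) (hg j))
  refine ⟨h1, h2.trans ?_⟩
  rw [integral_fintype_prod_volume_eq_prod (fun j y => Th2_g (s - I * ν j) (g j) y)]
  have h0 := hg 0
  have h1 := hg 1
  have h2 := hg 2
  simp only [fun j => Th2_g_int (hw j) (hg j), Finset.prod_mul_distrib, gam, mul_assoc,
    fun j => Th2_cp (hg j), ← exp_sum]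
  rw [Th2_cp (by positivity), ← exp_add, Real.log_mul h0.ne' (by positivity),
    Real.log_mul h1.ne' h2.ne']
  congr 3
  simp only [Fin.sum_univ_three]
  push_cast
  ring

theorem Th2_P_norm (l : Fin 2 → V3) (ν : V3) (s : ℂ) (g : V3) (p : ℝ × ℝ × ℝ) :
    (‖Th2_P l ν s g p‖ : ℂ) = Th2_P l 0 s.re g p := by
  rw [Th2_P, Th2_P, norm_prod, ofReal_prod]
  refine Finset.prod_congr rfl fun j _ => ?_
  rw [Th2_g, Th2_g, norm_mul, norm_exp, norm_exp, ofReal_mul, ofReal_exp, ofReal_exp]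
  congr 2
  · simp
  · rw [← ofReal_mul, ← ofReal_neg, ofReal_re]

theorem Th2_P_eq {l : Fin 2 → V3} (hl : ∀ k, l k 0 + l k 1 + l k 2 = 0) {ν : V3}
    (hν : ν 0 + ν 1 + ν 2 = 0) (s : ℂ) (g : V3) (p : ℝ × ℝ × ℝ) :
    Th2_P l ν s g p = cexp (s / 2 * p.1) *
      ((Real.exp (-Real.pi * ∑ j, tt l (Real.exp p.1) p.2 j * g j ^ 2) : ℝ) *
      cexp (-(I * ((p.2.1 * ∑ j, ν j * l 0 j + p.2.2 * ∑ j, ν j * l 1 j : ℝ) : ℂ)))) := by
  have h1 : ∀ j, tt l (Real.exp p.1) p.2 j = Real.exp (Th2_L l p j) := fun j => by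
    rw [tt, ← Real.exp_mul, ← Real.exp_add, Th2_L_apply]
    congr 2
    ring
  have h2 := congrArg ofReal (hl 0)
  have h3 := congrArg ofReal (hl 1)
  have h4 := congrArg ofReal hν
  simp only [Th2_P, Th2_g, h1, ← exp_add, ← exp_sum, ofReal_exp (-Real.pi * _)]
  congr 1
  simp only [Fin.sum_univ_three, Th2_L_apply]
  push_cast at h2 h3 h4 ⊢
  linear_combination s * p.2.1 * h2 + s * p.2.2 * h3 - I * p.1 / 6 * h4

/-- the translation by a lattice vector -/
def Th2_sh (k : Fin 2 → ℤ) : ℝ × ℝ × ℝ := (0, (k 0 : ℝ), (k 1 : ℝ))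

theorem Th2_P_shift {l : Fin 2 → V3} (hl : ∀ k, l k 0 + l k 1 + l k 2 = 0) {ν : V3}
    (hν : ν 0 + ν 1 + ν 2 = 0) (hνl : ∀ k, ∃ m : ℤ, ∑ j, ν j * l k j = 2 * Real.pi * m) (s : ℂ)
    {g G : V3} {k : Fin 2 → ℤ} (h : ∀ j, |g j| = G j * Real.exp (∑ i, (k i : ℝ) * l i j))
    (p : ℝ × ℝ × ℝ) : Th2_P l ν s g p = Th2_P l ν s G (p + Th2_sh k) := by
  obtain ⟨m, hm⟩ := hνl 0
  obtain ⟨m', hm'⟩ := hνl 1
  have h1 : ∀ j, tt l (Real.exp p.1) p.2 j * g j ^ 2 =
      tt l (Real.exp p.1) (p.2 + ((k 0 : ℝ), (k 1 : ℝ))) j * G j ^ 2 := fun j => by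
    rw [← sq_abs, h, mul_pow, ← Real.exp_nat_mul, tt, tt, mul_comm (G j ^ 2), ← mul_assoc,
      mul_assoc _ _ (Real.exp _), ← Real.exp_add]
    congr 3
    simp only [Fin.sum_univ_two, Prod.fst_add, Prod.snd_add]
    push_cast
    ring
  rw [Th2_P_eq hl hν, Th2_P_eq hl hν, hm, hm']
  simp only [Th2_sh, Prod.fst_add, Prod.snd_add, add_zero, h1]
  congr 2
  rw [exp_eq_exp_iff_exists_int]
  exact ⟨k 0 * m + k 1 * m', by push_cast; ring⟩

/-- the fundamental domain -/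
noncomputable def Th2_mu : Measure (ℝ × ℝ × ℝ) :=
  (volume : Measure ℝ).prod
    (volume.restrict (Ioc (-1 / 2 : ℝ) (1 / 2) ×ˢ Ioc (-1 / 2 : ℝ) (1 / 2)))

theorem Th2_bool {E K : Type} [NormedAddCommGroup E] {g : K → E} {a : E} (h : HasSum g a) :
    HasSum (fun x : Bool × K => g x.2) (a + a) :=
  (Equiv.boolProdEquivSum K).symm.hasSum_iff.1 (HasSum.sum h h)

theorem Th2_unfold {E : Type} [NormedAddCommGroup E] [NormedSpace ℝ E] {f : ℝ × ℝ × ℝ → E}
    (hf : Integrable f) : (∀ k, Integrable (fun p => f (p + Th2_sh k)) Th2_mu) ∧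
      HasSum (fun x : Bool × (Fin 2 → ℤ) => ∫ p, f (p + Th2_sh x.2) ∂Th2_mu)
        ((∫ p, f p) + ∫ p, f p) := by
  have h1 : Th2_mu = volume.restrict
      (univ ×ˢ (Ioc (-1 / 2 : ℝ) (1 / 2) ×ˢ Ioc (-1 / 2 : ℝ) (1 / 2))) := by
    rw [Th2_mu, Measure.volume_eq_prod ℝ (ℝ × ℝ), ← Measure.prod_restrict, Measure.restrict_univ]
  have := Th2_haar
  refine ⟨fun k => h1 ▸ (hf.comp_add_right _).integrableOn, ?_⟩
  let φ : ℝ × ℝ × ℝ → Fin 2 → ℤ := fun p => ![⌈p.2.1 - 1 / 2⌉, ⌈p.2.2 - 1 / 2⌉]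
  have hφ : Measurable φ := by
    refine measurable_pi_lambda _ fun i => ?_
    fin_cases i <;> simp only [φ] <;> simp <;> fun_prop
  have h2 := hasSum_integral_iUnion (μ := volume) (f := f) (s := fun k => φ ⁻¹' {k})
    (fun k => hφ (measurableSet_singleton k)) (pairwise_disjoint_fiber φ) hf.integrableOn
  rw [← preimage_iUnion, iUnion_of_singleton, preimage_univ, Measure.restrict_univ] at h2
  have h3 : ∀ k, ∫ p in φ ⁻¹' {k}, f p = ∫ p, f (p + Th2_sh k) ∂Th2_mu := fun k => by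
    rw [h1, ← (measurePreserving_add_right volume (Th2_sh k)).setIntegral_preimage_emb
      (measurableEmbedding_addRight _)]
    congr 2
    ext p
    simp only [φ, Th2_sh, mem_preimage, mem_singleton_iff, funext_iff, Fin.forall_fin_two,
      cons_val_zero, cons_val_one, Int.ceil_eq_iff, Prod.snd_add, Prod.fst_add, mem_prod,
      mem_univ, true_and, mem_Ioc]
    constructor <;> rintro ⟨⟨h4, h5⟩, h6, h7⟩ <;> refine ⟨⟨?_, ?_⟩, ?_, ?_⟩ <;> linarith
  simp only [h3] at h2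
  exact Th2_bool h2

theorem Th2_th (h : SP1) {B : M3} (hB : B.det ≠ 0) {t : V3} (ht : ∀ j, 0 < t j) :
    th B t - 1 = ∑' n : {n : Z3 // n ≠ 0}, Real.exp (-Real.pi * ∑ j, t j * (B *ᵥ zr n.1) j ^ 2) := by
  have h1 := (h (diagonal (fun j => √(t j)) * B) (by
    rw [det_mul, det_diagonal]
    exact mul_ne_zero (Finset.prod_ne_zero_iff.2 fun j _ => (Real.sqrt_pos.2 (ht j)).ne') hB)).1
  simp only [← mulVec_mulVec, mulVec_diagonal, mul_pow, fun j => Real.sq_sqrt (ht j).le] at h1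
  have h2 : zr 0 = 0 := by funext i; simp [zr]
  have h3 := h1.tsum_subtype_add_tsum_subtype_compl {0}
  rw [tsum_singleton (0 : Z3)
    fun n : Z3 => Real.exp (-Real.pi * ∑ j, t j * (B *ᵥ zr n) j ^ 2)] at h3
  rw [th, ← h3, h2]
  simp only [mulVec_zero, Pi.zero_apply, ne_eq, OfNat.ofNat_ne_zero, not_false_eq_true, zero_pow,
    mul_zero, Finset.sum_const_zero, Real.exp_zero, add_sub_cancel_left]
  rfl

theorem sF2 (h : SP1) : SF2.{u} := by
  intro l hl hd
  obtain ⟨κ, hκ, H⟩ := Th2_P_int hl hd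
  refine ⟨2 * κ, by positivity, ?_⟩
  rintro J A _ Nn χ ν v B c hv hν hνl hsum ⟨hB, G, E, hG, hN, hE⟩ s hs
  have hs0 : 0 < s.re := by linarith
  have hNp : ∀ I, 0 < Nn I := fun I => by
    have h1 : 0 < Nn I / v := hN I ▸ mul_pos (mul_pos (hG I 0) (hG I 1)) (hG I 2)
    exact (div_pos_iff_of_pos_right hv).1 h1
  have hpow : ∀ I (z : ℂ), ((Nn I / v : ℝ) : ℂ) ^ (-z) = (v : ℂ) ^ z * (Nn I : ℂ) ^ (-z) :=
    fun I z => by
      rw [Th2_cp (div_pos (hNp I) hv), Th2_cp hv, Th2_cp (hNp I), ← exp_add,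
        Real.log_div (hNp I).ne' hv.ne']
      congr 1
      push_cast
      ring
  set F : A × {n : Z3 // n ≠ 0} → ℝ × ℝ × ℝ → ℂ := fun x => Th2_P l ν s (B x.1 *ᵥ zr x.2.1)
    with hF
  have hF1 : ∀ x p, F x p = Th2_P l ν s (G (E x).1) (p + Th2_sh (E x).2.2) := fun x p =>
    Th2_P_shift hl hν hνl s (hE x).1 p
  have hI : ∀ I, Integrable (Th2_P l ν s (G I)) := fun I => (H ν s _ hs0 (hG I)).1
  have hFi : ∀ x, Integrable (F x) Th2_mu := fun x => by
    rw [funext (hF1 x)]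
    exact (Th2_unfold (hI _)).1 _
  have hFs : Summable fun x => ∫ p, ‖F x p‖ ∂Th2_mu := by
    simp only [hF1]
    refine (E.summable_iff (f := fun y : J × Bool × (Fin 2 → ℤ) =>
      ∫ p, ‖Th2_P l ν s (G y.1) (p + Th2_sh y.2.2)‖ ∂Th2_mu)).2 ?_
    refine (summable_prod_of_nonneg fun y => integral_nonneg fun p => norm_nonneg _).2
      ⟨fun I => (Th2_unfold (hI I).norm).2.summable, ?_⟩
    simp only [fun I => (Th2_unfold (hI I).norm).2.tsum_eq]
    have h1 : ∀ I, ∫ p, ‖Th2_P l ν s (G I) p‖ =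
        ‖κ * gam 0 s.re * (v : ℂ) ^ (s.re : ℂ)‖ * Nn I ^ (-s.re) := fun I => by
      have h2 := (H 0 s.re _ (by simpa using hs0) (hG I)).2
      simp only [← Th2_P_norm l ν] at h2
      rw [integral_complex_ofReal, hN, hpow] at h2
      have h3 := congrArg norm h2
      rw [norm_real, Real.norm_of_nonneg (integral_nonneg fun p => norm_nonneg _)] at h3
      rw [h3]
      simp [norm_cpow_eq_rpow_re_of_pos (hNp I), mul_assoc]
    simp only [h1]
    exact ((hsum _ hs).mul_left _).add ((hsum _ hs).mul_left _)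
  have hFa : ∀ a, Summable fun n => ∫ p, ‖F (a, n) p‖ ∂Th2_mu := fun a => hFs.prod_factor a
  have hT : ∀ a, Integrable (fun p => ∑' n, F (a, n) p) Th2_mu := fun a =>
    Th2_integrable_tsum (fun n => hFi (a, n)) (hFa a)
  have h1 : mellin (ff B c ν l) (s / 2) = ∑ a, c a * ∑' n, ∫ p, F (a, n) p ∂Th2_mu := by
    simp only [fun a => integral_tsum_of_summable_integral_norm (fun n => hFi (a, n)) (hFa a)]
    simp only [Th2_mu, fun a => integral_prod _ (hT a), ← integral_const_mul]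
    rw [← integral_finsetSum _ fun a _ => by
      simpa only [← integral_const_mul] using (hT a).integral_prod_left.const_mul (c a),
      Th2_mellin]
    congr 1
    funext y
    rw [ff, Finset.mul_sum]
    refine Finset.sum_congr rfl fun a _ => ?_
    rw [← integral_const_mul, ← integral_const_mul]
    congr 1
    funext z
    rw [Th2_th h (fun h0 => by simpa [h0] using hB a) (fun j => by unfold tt; positivity),
      mul_left_comm, ofReal_tsum, ← tsum_mul_right, ← tsum_mul_left]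
    simp only [hF, Th2_P_eq hl hν]
  have h2 : Summable fun x : A × {n : Z3 // n ≠ 0} => c x.1 * ∫ p, F x p ∂Th2_mu := by
    refine (hFs.mul_left (∑ a, ‖c a‖)).of_norm_bounded fun x => ?_
    rw [norm_mul]
    exact mul_le_mul (Finset.single_le_sum (fun a _ => norm_nonneg (c a)) (Finset.mem_univ x.1))
      (norm_integral_le_integral_norm _) (norm_nonneg _) (by positivity)
  have h3 : ∀ x, (∏ j, (G x j : ℂ) ^ (I * ν j)) ≠ 0 := fun x =>
    Finset.prod_ne_zero_iff.2 fun j _ => by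
      rw [Th2_cp (hG x j)]
      exact exp_ne_zero _
  set Ψ : J × Bool × (Fin 2 → ℤ) → ℂ := fun y => χ y.1 * (∏ j, (G y.1 j : ℂ) ^ (I * ν j))⁻¹ *
    ∫ p, Th2_P l ν s (G y.1) (p + Th2_sh y.2.2) ∂Th2_mu with hΨ
  have h4 : ∀ x, c x.1 * ∫ p, F x p ∂Th2_mu = Ψ (E x) := fun x => by
    simp only [hΨ, hF1]
    rw [(hE x).2, mul_inv_cancel_right₀ (h3 _)]
  have h5 := h2.tsum_prod
  simp only [tsum_mul_left, tsum_fintype] at h5
  rw [h1, ← h5]
  simp only [h4] at h2 ⊢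
  rw [E.tsum_eq Ψ, ((E.summable_iff (f := Ψ)).1 h2).tsum_prod, DS, ← tsum_mul_left]
  refine tsum_congr fun x => ?_
  simp only [hΨ]
  rw [tsum_mul_left, (Th2_unfold (hI x)).2.tsum_eq, (H ν s _ hs0 (hG x)).2, hN, hpow]
  have h6 := h3 x
  push_cast
  field_simp
  ring

end Pool.Agent.CubH
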