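import Pool.Agent.Lib.MP_d79f69_nt.Box
import Pool.Agent.Lib.MP_d79f69_nt.Tay
import Pool.Agent.Lib.MP_d79f69_nt.Geo
import Pool.Agent.Lib.MP_d79f69_nt.Exp
import Pool.Agent.Lib.MP_d79f69_nt.Dif1
import Pool.Agent.Lib.MP_d79f69_nt.Dif2
import Pool.Agent.Lib.MP_d79f69_nt.Quad
import Pool.Agent.Lib.MP_d79f69_nt.Cap
import Pool.Agent.Lib.MP_d79f69_nt.Rad
import Pool.Agent.Lib.MP_d79f69_nt.Core
import Pool.Agent.Lib.MP_d79f69_nt.Red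
import Pool.Agent.Lib.MP_d79f69_nt.Stir
import Pool.Agent.Lib.MP_d79f69_nt.Pois
import Pool.Agent.Lib.MP_d79f69_nt.Th1
import Pool.Agent.Lib.MP_d79f69_nt.Th2
import Pool.Agent.Lib.MP_d79f69_nt.PL
import Pool.Agent.Lib.MP_d79f69_nt.CM
import Pool.Agent.Lib.MP_d79f69_nt.Hardy
import Pool.Agent.Lib.MP_d79f69_nt.Part

namespace Pool.Agent.CubH

universe u

theorem thmE : SE :=
  sE (sE0 sA (sH (sEx sBa sTc) sBa sB1 sB2 sB3 sB5 sB6 sC)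
    (sR sGe sS (sR1 sTr sGe sQ) (sR2 sTr sGe)))

theorem hardyAbs : SHa.{u} :=
  sHa sSt (sFE (sF1 sP1) (sF2 sP1)) (sPL sSt) (sCM sSt) sLB (sPh sSt)
    (sP4 thmE sB1 sB2 sB3 sB4 sBa sTc)

end Pool.Agent.CubH
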