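import Pool.Agent.Lib.MP_d79f69_nt.BoxC

open Matrix MeasureTheory

namespace Pool.Agent.CubH

/-- lattice sum of the Gaussian window -/
lemma box_gsum (hB6 : SB6) {R X L M : ℝ} (hR : 1 ≤ R) (hX : 0 < X) (hL : 1 ≤ L) (hM : 1 ≤ M)
    (sh : V3) (κ : (ℝ × ℝ) × ℝ) (s : Finset Z3)
    (hs : ∀ n ∈ s, 0 < (zr n + sh) 2 ∧ (zr n + sh) 2 ≤ 2 * R * X) :
    ∑ n ∈ s, gaus Real.pi (L / X) M (zr n + sh) κ ≤ 1152 * R ^ 2 * (L ^ 2 * M) := by
  classical
  set f : ℤ × ℤ × ℤ → ℝ := fun p =>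
    Real.exp (-Real.pi * ((p.1 + (sh 2 - κ.2)) / M) ^ 2) *
      (Real.exp (-Real.pi * ((p.2.1 + (sh 0 - (p.1 + sh 2) * κ.1.1)) / ((p.1 + sh 2) * (L / X))) ^ 2) *
      Real.exp (-Real.pi * ((p.2.2 + (sh 1 - (p.1 + sh 2) * κ.1.2)) / ((p.1 + sh 2) * (L / X))) ^ 2))
    with hf
  set g : Z3 → ℤ × ℤ × ℤ := fun n => (n 2, n 0, n 1) with hg
  have hinj : Function.Injective g := by
    intro n m h
    simp only [hg, Prod.mk.injEq] at h
    ext i; fin_cases i
    · exact h.2.1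
    · exact h.2.2
    · exact h.1
  have hL0 : 0 < L := by linarith
  have h1 : ∑ n ∈ s, gaus Real.pi (L / X) M (zr n + sh) κ = ∑ p ∈ s.image g, f p := by
    rw [Finset.sum_image (fun x _ y _ h => hinj h)]
    refine Finset.sum_congr rfl fun n hn => ?_
    have h2 := (hs n hn).1
    simp only [Pi.add_apply, zr] at h2
    simp only [hf, hg, gaus, ← Real.exp_add, Pi.add_apply, zr]
    congr 1
    field_simp
    ring
  set s2 := s.image (fun n => n 2)
  set s0 := s.image (fun n => n 0)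
  set s1 := s.image (fun n => n 1)
  have h2 : s.image g ⊆ s2 ×ˢ s0 ×ˢ s1 := by
    intro p hp
    obtain ⟨n, hn, rfl⟩ := Finset.mem_image.1 hp
    simp only [Finset.mem_product, hg]
    exact ⟨Finset.mem_image_of_mem _ hn, Finset.mem_image_of_mem _ hn,
      Finset.mem_image_of_mem _ hn⟩
  rw [h1]
  refine (Finset.sum_le_sum_of_subset_of_nonneg h2 (fun p _ _ => by positivity)).trans ?_
  rw [Finset.sum_product]
  have h3 : ∀ a ∈ s2, ∑ q ∈ s0 ×ˢ s1, f (a, q) ≤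
      Real.exp (-Real.pi * ((a + (sh 2 - κ.2)) / M) ^ 2) * (144 * R ^ 2 * L ^ 2) := by
    intro a ha
    obtain ⟨n, hn, rfl⟩ := Finset.mem_image.1 ha
    have h4 := hs n hn
    simp only [Pi.add_apply, zr] at h4
    simp only [hf]
    rw [← Finset.mul_sum, Finset.sum_product]
    simp only [← Finset.mul_sum]
    rw [← Finset.sum_mul]
    have hT : 0 < ((n 2 : ℝ) + sh 2) * (L / X) := mul_pos h4.1 (by positivity)
    have hT2 : 4 * (1 + ((n 2 : ℝ) + sh 2) * (L / X)) ≤ 12 * R * L := by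
      have : ((n 2 : ℝ) + sh 2) * (L / X) ≤ 2 * R * X * (L / X) := by
        gcongr; exact h4.2
      have e : 2 * R * X * (L / X) = 2 * R * L := by field_simp
      have : 1 ≤ R * L := one_le_mul_of_one_le_of_one_le hR hL
      linarith
    have k0 := (hB6 _ (sh 0 - (n 2 + sh 2) * κ.1.1) s0 hT).trans hT2
    have k1 := (hB6 _ (sh 1 - (n 2 + sh 2) * κ.1.2) s1 hT).trans hT2
    refine mul_le_mul_of_nonneg_left ?_ (Real.exp_pos _).le
    calc _ ≤ (12 * R * L) * (12 * R * L) :=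
          mul_le_mul k0 k1 (Finset.sum_nonneg fun _ _ => by positivity) (by positivity)
      _ = _ := by ring
  refine (Finset.sum_le_sum h3).trans ?_
  rw [← Finset.sum_mul]
  have k2 := hB6 M (sh 2 - κ.2) s2 (by linarith)
  calc _ ≤ (8 * M) * (144 * R ^ 2 * L ^ 2) := by gcongr; linarith
    _ = _ := by ring

/-- centres outside the domain are far from the support -/
lemma box_out {R X ρ L M : ℝ} {B : M3} (hR : 1 ≤ R) (hX : 0 < X) (hρ : 1 ≤ ρ) (hL : 0 < L)
    (hM : 0 < M) (a5 : ρ ^ 2 * L ≤ X) (a7 : ρ * M ≤ X) (hB : NearI (4 * R ^ 2) B) {y : V3}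
    (hy : ∀ i, X / R ≤ (B *ᵥ y) i ∧ (B *ᵥ y) i ≤ R * X) {κ : (ℝ × ℝ) × ℝ}
    (hκ : ¬ (Dr (4 * R ^ 2) (pp B κ.1) ∧ X / (4 * R ^ 2) ≤ κ.2 ∧ κ.2 ≤ 4 * R ^ 2 * X)) :
    ρ / (8 * R ^ 2) ≤ |(y 0 / y 2 - κ.1.1) / (L / X)| ∨
      ρ / (8 * R ^ 2) ≤ |(y 1 / y 2 - κ.1.2) / (L / X)| ∨ ρ / (8 * R ^ 2) ≤ |(y 2 - κ.2) / M| := by
  have hQ : 1 ≤ 4 * R ^ 2 := by nlinarith
  have hR2 : 1 ≤ R ^ 2 := one_le_pow₀ hR
  have hRR : R ≤ R ^ 2 := le_self_pow₀ hR two_ne_zero
  obtain ⟨l1, l2, l3⟩ := box_loc hR hX hB hy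
  have hy0 : 0 < y 2 := lt_of_lt_of_le (by positivity) l2
  have hρL : ρ * L ≤ X := by nlinarith
  have hr : ∀ d : ℝ, X / (8 * R ^ 2) ≤ |d| → ρ / (8 * R ^ 2) ≤ |d / M| := by
    intro d hd
    rw [abs_div, abs_of_pos hM, le_div_iff₀ hM]
    refine le_trans ?_ hd
    rw [div_mul_eq_mul_div]; gcongr
  have ht : ∀ d : ℝ, 1 / (8 * R ^ 2) ≤ |d| → ρ / (8 * R ^ 2) ≤ |d / (L / X)| := by
    intro d hd
    rw [abs_div, abs_of_pos (by positivity : 0 < L / X), le_div_iff₀ (by positivity)]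
    refine le_trans ?_ hd
    rw [div_mul_eq_mul_div, ← mul_div_assoc]
    gcongr
    rwa [div_le_one hX]
  by_cases h1 : Dr (4 * R ^ 2) (pp B κ.1)
  · refine Or.inr (Or.inr (hr _ ?_))
    have e1 : X / (4 * R ^ 2) = 2 * (X / (8 * R ^ 2)) := by field_simp; ring
    have e2 : X / (4 * R ^ 2) ≤ X / (4 * R) := div_le_div_of_nonneg_left hX.le (by positivity) (by linarith)
    have e3 : X / (2 * R) = 2 * (X / (4 * R)) := by field_simp; ring
    have e4 : X / (8 * R ^ 2) ≤ X := div_le_self hX.le (by linarith)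
    have e5 : 0 < X / (8 * R ^ 2) := by positivity
    by_cases h2 : X / (4 * R ^ 2) ≤ κ.2
    · have h3 : 4 * R ^ 2 * X < κ.2 := not_le.1 fun h => hκ ⟨h1, h2, h⟩
      have : R * X ≤ R ^ 2 * X := by gcongr
      have : X ≤ R ^ 2 * X := le_mul_of_one_le_left hX.le hR2
      rw [le_abs]; right; linarith
    · rw [le_abs]; left; linarith [not_le.1 h2]
  · have hi : ∃ i, 1 / (4 * R ^ 2) ≤ |pp B (y 0 / y 2, y 1 / y 2) i - pp B κ.1 i| := by
      unfold Dr at h1
      push Not at h1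
      obtain ⟨i, hi⟩ := h1
      refine ⟨i, ?_⟩
      rw [box_pp_eq B hy0.ne']
      have u1 : 2 * (1 / (4 * R ^ 2)) ≤ (B *ᵥ y) i / y 2 := by
        rw [le_div_iff₀ hy0]
        refine le_trans ?_ (hy i).1
        calc _ ≤ 2 * (1 / (4 * R ^ 2)) * (2 * R * X) := by gcongr
          _ = X / R := by field_simp; ring
      have u2 : (B *ᵥ y) i / y 2 ≤ 2 * R ^ 2 := by
        rw [div_le_iff₀ hy0]
        refine (hy i).2.trans ?_
        calc R * X = 2 * R ^ 2 * (X / (2 * R)) := by field_simp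
          _ ≤ _ := by gcongr
      have u3 : 1 / (4 * R ^ 2) ≤ 1 := by rw [div_le_one (by positivity)]; exact hQ
      by_cases h2 : 1 / (4 * R ^ 2) ≤ pp B κ.1 i
      · have := hi h2
        rw [le_abs]; right; linarith
      · rw [le_abs]; left; linarith [not_le.1 h2]
    obtain ⟨i, hi⟩ := hi
    have k1 : |pp B (y 0 / y 2, y 1 / y 2) i - pp B κ.1 i| ≤
        ‖pp B (y 0 / y 2, y 1 / y 2) - pp B κ.1‖ := by
      simpa using norm_le_pi_norm (pp B (y 0 / y 2, y 1 / y 2) - pp B κ.1) i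
    rw [box_pp_sub] at k1
    have k2 := box_hv_norm hQ hB ((y 0 / y 2, y 1 / y 2) - κ.1)
    have e1 : 1 / (4 * R ^ 2) = 2 * (1 / (8 * R ^ 2)) := by field_simp; ring
    have k3 : 1 / (8 * R ^ 2) ≤ ‖(y 0 / y 2, y 1 / y 2) - κ.1‖ := by linarith
    rw [Prod.norm_def, le_max_iff] at k3
    rcases k3 with k | k
    · exact Or.inl (ht _ (by simpa using k))
    · exact Or.inr (Or.inl (ht _ (by simpa using k)))

lemma gaus_half (τ M : ℝ) (y : V3) (κ : (ℝ × ℝ) × ℝ) :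
    gaus Real.pi τ M y κ = gaus (Real.pi / 2) τ M y κ * gaus (Real.pi / 2) τ M y κ := by
  unfold gaus; rw [← Real.exp_add]; congr 1; ring

lemma box_T (B : M3) (c : ℝ) (W : V3 → ℂ) (a : V3) (h : ℤ × ℤ) (n : Z3) :
    FF B c W a (n + ![h.1, h.2, 0]) * (starRingEnd ℂ) (FF B c W a n) =
      wwf B W ((h.1 : ℝ), (h.2 : ℝ)) (zr n + (a + (1 / 2 : ℝ) • ![(h.1 : ℝ), (h.2 : ℝ), 0])) *
        ee (gmf B c ((h.1 : ℝ), (h.2 : ℝ))
          (zr n + (a + (1 / 2 : ℝ) • ![(h.1 : ℝ), (h.2 : ℝ), 0]))) := by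
  have e1 : B *ᵥ (zr (n + ![h.1, h.2, 0]) + a) =
      B *ᵥ (zr n + (a + (1 / 2 : ℝ) • ![(h.1 : ℝ), (h.2 : ℝ), 0])) +
        (1 / 2 : ℝ) • hv B ((h.1 : ℝ), (h.2 : ℝ)) := by
    unfold hv
    rw [← Matrix.mulVec_smul, ← Matrix.mulVec_add]; congr 1
    ext i
    simp only [zr, Pi.add_apply, Pi.smul_apply, smul_eq_mul, Int.cast_add]
    fin_cases i <;> simp <;> ring
  have e2 : B *ᵥ (zr n + a) =
      B *ᵥ (zr n + (a + (1 / 2 : ℝ) • ![(h.1 : ℝ), (h.2 : ℝ), 0])) -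
        (1 / 2 : ℝ) • hv B ((h.1 : ℝ), (h.2 : ℝ)) := by
    unfold hv
    rw [← Matrix.mulVec_smul, ← Matrix.mulVec_sub]; congr 1
    ext i
    simp only [zr, Pi.add_apply, Pi.sub_apply, Pi.smul_apply, smul_eq_mul]
    ring
  unfold FF wwf gmf
  rw [e1, e2, map_mul, box_ee_conj, mul_sub, sub_eq_add_neg (c * _), box_ee_add]
  ring

lemma box_pi2 {R ρ : ℝ} (hR : 1 ≤ R) (h : 64 * R ^ 4 ≤ ρ) :
    ρ ≤ Real.pi / 2 * (ρ / (8 * R ^ 2)) ^ 2 := by
  have hρ : 0 < ρ := lt_of_lt_of_le (by positivity) h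
  have e : Real.pi / 2 * (ρ / (8 * R ^ 2)) ^ 2 = ρ * (Real.pi / 2 * (ρ / (64 * R ^ 4))) := by
    field_simp; ring
  rw [e]
  refine le_mul_of_one_le_right hρ.le (one_le_mul_of_one_le_of_one_le
    (by linarith [Real.pi_gt_three]) ?_)
  rwa [one_le_div (by positivity)]

theorem sH (hEx : SEx) (hBa : SBa) (hB1 : SB1) (hB2 : SB2) (hB3 : SB3) (hB5 : SB5) (hB6 : SB6)
    (hC : SC) : SH := by
  classical
  intro N R c hR
  have hQ : 1 ≤ 4 * R ^ 2 := by nlinarith
  obtain ⟨C1, hC1, H1⟩ := box_K hEx hBa hB1 hB2 hB3 N R c hR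
  set K1 : ℝ := 2 ^ N * (27 * (3 * R) ^ 3) * C1 with hK1
  set K2 : ℝ := N.factorial * (27 * (2 * R) ^ 3) * 8 with hK2
  set K3 : ℝ := (16 * R ^ 2) ^ 2 * (4 * R ^ 2) with hK3
  have hK1' : 0 ≤ K1 := by positivity
  have hK2' : 0 ≤ K2 := by positivity
  have hK3' : 0 ≤ K3 := by positivity
  have hK13 : 0 ≤ K1 * K3 := by positivity
  have hR4 : 1 ≤ R ^ 4 := one_le_pow₀ hR
  have hR2 : 1 ≤ R ^ 2 := one_le_pow₀ hR
  refine ⟨C1 + K1 * K3 + K2 + 1152 * R ^ 2 + 64 * R ^ 4, by linarith, ?_⟩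
  intro B hB X H ρ L M A V W a h hH hH1 hρ hL hM a1 a2 a3 a4 a5 a6 a7 hW hV0 hV
  set hh : ℝ × ℝ := ((h.1 : ℝ), (h.2 : ℝ)) with hhh
  set sh : V3 := a + (1 / 2 : ℝ) • ![(h.1 : ℝ), (h.2 : ℝ), 0] with hsh
  have hρ1 : 1 ≤ ρ := by linarith
  have hρ0 : 0 < ρ := by linarith
  have hρρ : ρ ≤ ρ ^ 2 := le_self_pow₀ hρ1 two_ne_zero
  have hL1 : 1 ≤ L := by linarith
  have hM1 : 1 ≤ M := by linarith
  have hL0 : 0 < L := by linarith
  have hM0 : 0 < M := by linarith
  have hX1 : 1 ≤ X := le_trans (one_le_mul_of_one_le_of_one_le hρ1 hM1) a7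
  have hX : 0 < X := by linarith
  have hτ : 0 < L / X := by positivity
  have hA2 : 0 ≤ A ^ 2 := sq_nonneg A
  have hRX : 1 ≤ R * X := one_le_mul_of_one_le_of_one_le hR hX1
  simp only [box_T]
  rw [← hhh, ← hsh]
  set s : Finset Z3 := (Fintype.piFinset fun i => Finset.Icc ⌈-sh i - 2 * R * X⌉
    ⌊-sh i + 2 * R * X⌋).filter (fun n => wwf B W hh (zr n + sh) ≠ 0) with hs
  have hmem : ∀ n, wwf B W hh (zr n + sh) ≠ 0 → n ∈ s := by
    intro n hn
    refine Finset.mem_filter.2 ⟨box_mem_pi fun i => ?_, hn⟩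
    have := (box_loc hR hX hB (box_supp hW hn)).1
    have k : |(zr n + sh) i| ≤ ‖zr n + sh‖ := by simpa using norm_le_pi_norm (zr n + sh) i
    exact k.trans this
  have hsne : ∀ n ∈ s, wwf B W hh (zr n + sh) ≠ 0 := fun n hn => (Finset.mem_filter.1 hn).2
  have hcard : (s.card : ℝ) ≤ 27 * (2 * R * X) ^ 3 :=
    le_trans (by exact_mod_cast Finset.card_filter_le _ _) (box_cnt (by linarith))
  set T : Z3 → ℂ := fun n => wwf B W hh (zr n + sh) * ee (gmf B c hh (zr n + sh)) with hT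
  have hTn : ∀ n, ‖T n‖ ≤ A ^ 2 := fun n => by
    rw [hT]; simp only [norm_mul, box_ee_norm, mul_one]; exact box_ww_le hW hR hX _
  have hsum : ∑' n, T n = ∑ n ∈ s, T n :=
    tsum_eq_sum fun n hn => by
      by_contra h0; exact hn (hmem n (left_ne_zero_of_mul h0))
  set f : (ℝ × ℝ) × ℝ → ℂ := fun κ => ∑ n ∈ s, T n * (gaus Real.pi (L / X) M (zr n + sh) κ : ℝ)
    with hf
  have hint : ∫ κ, f κ = (∑ n ∈ s, T n) * (((L / X) ^ 2 * M : ℝ) : ℂ) := by
    rw [hf, integral_finsetSum _ (fun n _ =>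
      ((gaus_int Real.pi_pos hτ hM0 _).ofReal).const_mul _), Finset.sum_mul]
    refine Finset.sum_congr rfl fun n _ => ?_
    rw [integral_const_mul, integral_complex_ofReal, gaus_integral Real.pi_pos hτ hM0,
      div_self Real.pi_pos.ne', Real.sqrt_one]
    simp
  set In' : Set ((ℝ × ℝ) × ℝ) := Metric.closedBall (0 : ℝ × ℝ) (8 * R ^ 2) ×ˢ
    Set.Icc 0 (4 * R ^ 2 * X) with hIn
  have hInm : MeasurableSet In' := measurableSet_closedBall.prod measurableSet_Icc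
  have hInv : volume In' = ENNReal.ofReal (K3 * X) := by
    rw [hIn, Measure.volume_eq_prod, Measure.prod_prod, Real.volume_Icc, ← closedBall_prod_same,
      Measure.volume_eq_prod, Measure.prod_prod, Real.volume_closedBall, Real.volume_closedBall,
      ← ENNReal.ofReal_mul (by positivity), ← ENNReal.ofReal_mul (by positivity), hK3]
    congr 1; ring
  set a1' : ℝ := K1 * A ^ 2 * X ^ 3 / ρ ^ N with ha1
  set e1 : ℝ := A ^ 2 * (N.factorial / ρ ^ N) with he1
  have ha1' : 0 ≤ a1' := by positivity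
  have he1' : 0 ≤ e1 := by positivity
  set g : (ℝ × ℝ) × ℝ → ℝ := fun κ => In'.indicator (fun _ => a1') κ +
    ∑ n ∈ s, e1 * gaus (Real.pi / 2) (L / X) M (zr n + sh) κ with hg
  have hpi2 : 0 < Real.pi / 2 := by linarith [Real.pi_pos]
  have hg1 : Integrable (In'.indicator (fun _ => a1')) := by
    refine (integrable_indicator_iff hInm).2 (integrableOn_const ?_ (by simp))
    rw [hInv]; exact ENNReal.ofReal_ne_top
  have hg2 : Integrable (fun κ => ∑ n ∈ s, e1 * gaus (Real.pi / 2) (L / X) M (zr n + sh) κ) :=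
    integrable_finsetSum _ fun n _ => (gaus_int hpi2 hτ hM0 _).const_mul _
  have hg20 : ∀ κ, 0 ≤ ∑ n ∈ s, e1 * gaus (Real.pi / 2) (L / X) M (zr n + sh) κ := fun κ =>
    Finset.sum_nonneg fun n _ => mul_nonneg he1' (gaus_pos _ _ _ _ _).le
  have hg10 : ∀ κ, 0 ≤ In'.indicator (fun _ => a1') κ := fun κ =>
    Set.indicator_nonneg (fun _ _ => ha1') _
  have hgi : ∫ κ, g κ ≤ a1' * (K3 * X) + e1 * (27 * (2 * R * X) ^ 3) * (8 * ((L / X) ^ 2 * M)) := by
    rw [hg, integral_add hg1 hg2, integral_indicator_const _ hInm, integral_finsetSum _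
      (fun n _ => (gaus_int hpi2 hτ hM0 _).const_mul _)]
    simp only [integral_const_mul, gaus_integral hpi2 hτ hM0, Finset.sum_const, nsmul_eq_mul]
    rw [Measure.real, hInv, ENNReal.toReal_ofReal (by positivity), smul_eq_mul]
    have e2 : √(Real.pi / (Real.pi / 2)) ≤ 2 := by
      rw [Real.sqrt_le_left (by norm_num), div_le_iff₀ hpi2]; linarith [Real.pi_pos]
    have e3 : √(Real.pi / (Real.pi / 2)) ^ 3 ≤ 8 := by
      calc _ ≤ (2 : ℝ) ^ 3 := by gcongr
        _ = 8 := by norm_num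
    have : (s.card : ℝ) * (e1 * (√(Real.pi / (Real.pi / 2)) ^ 3 * ((L / X) ^ 2 * M))) ≤
        27 * (2 * R * X) ^ 3 * (e1 * (8 * ((L / X) ^ 2 * M))) := by gcongr
    linarith
  set a2' : ℝ := A ^ 2 * (1152 * R ^ 2 * (L ^ 2 * M)) with ha2
  have hpt : ∀ κ, ‖f κ‖ ≤ g κ + (ResSet (4 * R ^ 2) B c hh X (L / ρ) (M / ρ)).indicator
      (fun _ => a2') κ := by
    rintro ⟨θ, r⟩
    have hi0 : 0 ≤ (ResSet (4 * R ^ 2) B c hh X (L / ρ) (M / ρ)).indicator (fun _ => a2') (θ, r) :=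
      Set.indicator_nonneg (fun _ _ => by positivity) _
    by_cases hin : Dr (4 * R ^ 2) (pp B θ) ∧ X / (4 * R ^ 2) ≤ r ∧ r ≤ 4 * R ^ 2 * X
    · by_cases hres : Res B c hh (L / ρ) (M / ρ) θ r
      · rw [Set.indicator_of_mem (show (θ, r) ∈ ResSet (4 * R ^ 2) B c hh X (L / ρ) (M / ρ) from
          ⟨hin.1, hin.2.1, hin.2.2, hres⟩)]
        have k1 : ‖f (θ, r)‖ ≤ ∑ n ∈ s, A ^ 2 * gaus Real.pi (L / X) M (zr n + sh) (θ, r) := by
          refine (norm_sum_le _ _).trans (Finset.sum_le_sum fun n _ => ?_)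
          rw [norm_mul, Complex.norm_real, Real.norm_eq_abs, abs_of_pos (gaus_pos _ _ _ _ _)]
          exact mul_le_mul_of_nonneg_right (hTn n) (gaus_pos _ _ _ _ _).le
        rw [← Finset.mul_sum] at k1
        have k2 := box_gsum hB6 hR hX hL1 hM1 sh (θ, r) s (fun n hn => by
          have := box_loc hR hX hB (box_supp hW (hsne n hn))
          exact ⟨lt_of_lt_of_le (by positivity) this.2.1, this.2.2⟩)
        have k3 := mul_le_mul_of_nonneg_left k2 hA2
        have := hg10 (θ, r); have := hg20 (θ, r)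
        simp only [hg]; linarith
      · have hmemIn : (θ, r) ∈ In' := by
          have := box_theta hQ hB hin.1
          refine ⟨?_, le_trans (by positivity) hin.2.1, hin.2.2⟩
          rw [mem_closedBall_zero_iff, Prod.norm_def, max_le_iff]
          exact ⟨by simp only [Real.norm_eq_abs]; linarith [this.1],
            by simp only [Real.norm_eq_abs]; linarith [this.2]⟩
        have hL2 : 1 ≤ L / ρ := by rw [one_le_div hρ0]; linarith
        have hM2 : 1 ≤ M / ρ := by rw [one_le_div hρ0]; linarith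
        rcases hC (xif B c hh θ r) θ (L / ρ) (M / ρ) hL2 hM2 with ⟨b, b2, b0, b1, be⟩ | ⟨m, m0, m1, m2⟩
        · set F : Z3 → ℂ := fun n => wwf B W hh (zr n + sh) *
            Ef B c hh (L / X) M θ r (zr n + sh) with hF
          have hFs : (Function.support F).Finite :=
            s.finite_toSet.subset fun n hn => hmem n (left_ne_zero_of_mul hn)
          have k1 := hB5 F hFs b (xif B c hh θ r)
            (∑ i, xif B c hh θ r i * sh i + kap B c hh θ / (12 * r)) N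
          have k2 : ∑' n : Z3, F n * ee (∑ i, xif B c hh θ r i * n i +
              (∑ i, xif B c hh θ r i * sh i + kap B c hh θ / (12 * r))) = f (θ, r) := by
            rw [tsum_eq_sum (s := s) (fun n hn => by
              by_contra h0; exact hn (hmem n (left_ne_zero_of_mul (left_ne_zero_of_mul h0))))]
            refine Finset.sum_congr rfl fun n _ => ?_
            simp only [hF, hT, Ef]
            rw [mul_assoc, mul_assoc, ← box_ee_add, mul_assoc, mul_comm (ee _)]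
            congr 3
            simp only [Fin.sum_univ_three, Pi.add_apply, zr]; ring
          have k3 : ∀ n : Z3, (fwdDiff b)^[N] F n = (fwdDiff 1)^[N] (fun j : ℕ =>
              wwf B W hh (zr n + sh + (j : ℝ) • zr b) *
                Ef B c hh (L / X) M θ r (zr n + sh + (j : ℝ) • zr b)) 0 := by
            intro n
            rw [← hB3.2]
            refine congrArg (fun s : ℕ → ℂ => (fwdDiff 1)^[N] s 0) (funext fun j => ?_)
            have : zr (n + (j : ℤ) • b) + sh = zr n + sh + (j : ℝ) • zr b := by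
              ext i; simp [zr]; ring
            simp only [hF, this]
          have k4 := fun n : Z3 => H1 B hB X H ρ L M r A W hh θ (zr n + sh) (zr b) hH hH1
            (by linarith) hL1 hM0 a1 a2 a3 a4 a5 a6 a7 hW hin.1 hin.2.1 hin.2.2 b2 b0 b1
          have k5 : ∑' n : Z3, ‖(fwdDiff b)^[N] F n‖ ≤
              27 * (3 * R * X) ^ 3 * (C1 * A ^ 2 / ρ ^ N) := by
            rw [tsum_eq_sum (s := Fintype.piFinset fun i => Finset.Icc ⌈-sh i - 3 * R * X⌉
              ⌊-sh i + 3 * R * X⌋) (fun n hn => by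
                by_contra h0
                rw [norm_eq_zero, k3] at h0
                refine hn (box_mem_pi fun i => ?_)
                have k : |(zr n + sh) i| ≤ ‖zr n + sh‖ := by
                  simpa using norm_le_pi_norm (zr n + sh) i
                exact k.trans ((k4 n).2 h0))]
            refine (Finset.sum_le_card_nsmul _ _ (C1 * A ^ 2 / ρ ^ N)
              (fun n _ => by rw [k3]; exact (k4 n).1)).trans ?_
            rw [nsmul_eq_mul]
            exact mul_le_mul_of_nonneg_right (box_cnt (by linarith)) (by positivity)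
          rw [k2] at k1
          have k6 : (1 / 2 : ℝ) ^ N * ‖f (θ, r)‖ ≤ 27 * (3 * R * X) ^ 3 * (C1 * A ^ 2 / ρ ^ N) :=
            le_trans (by gcongr) (k1.trans k5)
          have k7 : ‖f (θ, r)‖ ≤ a1' := by
            calc ‖f (θ, r)‖ = 2 ^ N * ((1 / 2 : ℝ) ^ N * ‖f (θ, r)‖) := by
                  rw [← mul_assoc, ← mul_pow]; simp
              _ ≤ 2 ^ N * (27 * (3 * R * X) ^ 3 * (C1 * A ^ 2 / ρ ^ N)) := by gcongr
              _ = a1' := by rw [ha1, hK1]; ring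
          have := hg20 (θ, r)
          simp only [hg, Set.indicator_of_mem hmemIn]; linarith
        · refine absurd ⟨m, m0, m1, ?_⟩ hres
          convert m2 using 2
          simp only [xif, Matrix.cons_val_zero, Matrix.cons_val_one, Matrix.cons_val_two,
            Matrix.head_cons, Matrix.tail_cons]
          ring
    · have k1 : ‖f (θ, r)‖ ≤ ∑ n ∈ s, e1 * gaus (Real.pi / 2) (L / X) M (zr n + sh) (θ, r) := by
        refine (norm_sum_le _ _).trans (Finset.sum_le_sum fun n hn => ?_)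
        rw [norm_mul, Complex.norm_real, Real.norm_eq_abs, abs_of_pos (gaus_pos _ _ _ _ _),
          gaus_half, ← mul_assoc]
        refine mul_le_mul_of_nonneg_right ?_ (gaus_pos _ _ _ _ _).le
        refine mul_le_mul (hTn n) ?_ (gaus_pos _ _ _ _ _).le hA2
        exact (gaus_le_of (by positivity) hpi2.le (box_out hR hX hρ1 hL0 hM0 a5 a7 hB
          (box_supp hW (hsne n hn)) (κ := (θ, r)) hin)).trans
          (box_exp_le N hρ0 (box_pi2 hR (by linarith)))
      have := hg10 (θ, r)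
      simp only [hg]; linarith
  have main := box_M1 volume f g _ a2' V (hg1.add hg2) (fun κ => add_nonneg (hg10 κ) (hg20 κ))
    (by positivity) hV0 hV hpt
  rw [hint, norm_mul, Complex.norm_real, Real.norm_eq_abs, abs_of_pos (by positivity)] at main
  rw [hsum]
  have hμ : 0 < (L / X) ^ 2 * M := by positivity
  refine le_of_mul_le_mul_right (main.trans ?_) hμ
  have u1 : 1 ≤ X ^ 2 * ((L / X) ^ 2 * M) := by
    rw [show X ^ 2 * ((L / X) ^ 2 * M) = L ^ 2 * M by field_simp]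
    exact one_le_mul_of_one_le_of_one_le (one_le_pow₀ hL1) hM1
  set μ0 := (L / X) ^ 2 * M with hμ0
  set Z := A ^ 2 * (X ^ 6 / ρ ^ N) * μ0 with hZ
  have hZ0 : 0 ≤ Z := by positivity
  have u2 : a1' * (K3 * X) ≤ K1 * K3 * Z := by
    calc a1' * (K3 * X) = K1 * K3 * (A ^ 2 * (X ^ 4 / ρ ^ N)) * 1 := by rw [ha1]; ring
      _ ≤ K1 * K3 * (A ^ 2 * (X ^ 4 / ρ ^ N)) * (X ^ 2 * μ0) := by gcongr
      _ = _ := by rw [hZ]; ring
  have u3 : e1 * (27 * (2 * R * X) ^ 3) * (8 * μ0) ≤ K2 * Z := by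
    calc _ = K2 * (A ^ 2 * (X ^ 3 / ρ ^ N) * μ0) := by rw [he1, hK2]; ring
      _ ≤ K2 * (A ^ 2 * (X ^ 6 / ρ ^ N) * μ0) := by
        have : X ^ 3 ≤ X ^ 6 := pow_le_pow_right₀ hX1 (by norm_num)
        gcongr
  set Z' := A ^ 2 * (X ^ 2 * V) * μ0 with hZ'
  have hZ0' : 0 ≤ Z' := by positivity
  have u4 : a2' * V = 1152 * R ^ 2 * Z' := by
    rw [ha2, hZ', hμ0]; field_simp
  have u5 : (C1 + K1 * K3 + K2 + 1152 * R ^ 2 + 64 * R ^ 4) * A ^ 2 * (X ^ 6 / ρ ^ N + X ^ 2 * V) *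
      μ0 = (C1 + K1 * K3 + K2 + 1152 * R ^ 2 + 64 * R ^ 4) * (Z + Z') := by
    rw [hZ, hZ']; ring
  rw [u5, u4]
  have v1 : 0 ≤ (C1 + 1152 * R ^ 2 + 64 * R ^ 4) * Z := by positivity
  have v2 : 0 ≤ (C1 + K1 * K3 + K2 + 64 * R ^ 4) * Z' := by positivity
  linarith

end Pool.Agent.CubH
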