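import Pool.Agent.Lib.MP_d79f69_nt.Iface

open Matrix MeasureTheory

namespace Pool.Agent.CubH

lemma box_ee_add (x y : ℝ) : ee (x + y) = ee x * ee y := by
  unfold ee; rw [← Complex.exp_add]; push_cast; ring_nf

lemma box_ee_norm (x : ℝ) : ‖ee x‖ = 1 := by
  unfold ee
  have : (2 * Real.pi * Complex.I * x : ℂ) = ((2 * Real.pi * x : ℝ) : ℂ) * Complex.I := by
    push_cast; ring
  rw [this, Complex.norm_exp_ofReal_mul_I]

lemma box_ee_conj (x : ℝ) : (starRingEnd ℂ) (ee x) = ee (-x) := by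
  unfold ee
  rw [← Complex.exp_conj]
  simp only [map_mul, Complex.conj_ofReal, Complex.conj_I, map_ofNat]
  push_cast; ring_nf

lemma box_M1 {α : Type*} [MeasurableSpace α] (μ : Measure α) (f : α → ℂ) (g : α → ℝ) (S : Set α)
    (a V : ℝ) (hg : Integrable g μ) (hg0 : ∀ x, 0 ≤ g x) (ha : 0 ≤ a) (hV : 0 ≤ V)
    (hS : ∫⁻ x, S.indicator (fun _ => (1 : ENNReal)) x ∂μ ≤ ENNReal.ofReal V)
    (hf : ∀ x, ‖f x‖ ≤ g x + S.indicator (fun _ => a) x) :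
    ‖∫ x, f x ∂μ‖ ≤ ∫ x, g x ∂μ + a * V := by
  have h0 : 0 ≤ ∫ x, g x ∂μ := integral_nonneg hg0
  have h1 : ‖∫ x, f x ∂μ‖ₑ ≤ ∫⁻ x, ‖f x‖ₑ ∂μ := enorm_integral_le_lintegral_enorm _
  have h2 : ∫⁻ x, ‖f x‖ₑ ∂μ ≤ ∫⁻ x, (ENNReal.ofReal (g x) +
      ENNReal.ofReal a * S.indicator (fun _ => (1 : ENNReal)) x) ∂μ := by
    refine lintegral_mono fun x => ?_
    have := hf x
    rw [← ofReal_norm]
    refine (ENNReal.ofReal_le_ofReal this).trans ?_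
    by_cases hx : x ∈ S
    · simp only [Set.indicator_of_mem hx, mul_one]
      exact ENNReal.ofReal_add_le
    · simp [Set.indicator_of_notMem hx]
  rw [lintegral_add_left' (hg.aemeasurable.ennreal_ofReal),
    lintegral_const_mul' _ _ ENNReal.ofReal_ne_top,
    ← ofReal_integral_eq_lintegral_ofReal hg (Filter.Eventually.of_forall hg0)] at h2
  have h3 : ‖∫ x, f x ∂μ‖ₑ ≤ ENNReal.ofReal (∫ x, g x ∂μ + a * V) := by
    refine h1.trans (h2.trans ?_)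
    rw [ENNReal.ofReal_add h0 (mul_nonneg ha hV), ENNReal.ofReal_mul ha]
    gcongr
  rw [← ofReal_norm] at h3
  exact (ENNReal.ofReal_le_ofReal_iff (by positivity)).1 h3

lemma box_g1_eq {b T : ℝ} (hT : 0 < T) (x0 : ℝ) :
    (fun t : ℝ => Real.exp (-b * ((x0 - t) / T) ^ 2)) =
      fun t => (fun u : ℝ => Real.exp (-(b / T ^ 2) * u ^ 2)) (x0 - t) := by
  funext t; congr 1; field_simp

lemma box_g1_int {b T : ℝ} (hb : 0 < b) (hT : 0 < T) (x0 : ℝ) :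
    Integrable (fun t : ℝ => Real.exp (-b * ((x0 - t) / T) ^ 2)) := by
  rw [box_g1_eq hT]
  exact (integrable_exp_neg_mul_sq (by positivity : 0 < b / T ^ 2)).comp_sub_left x0

lemma box_g1 {b T : ℝ} (hb : 0 < b) (hT : 0 < T) (x0 : ℝ) :
    ∫ t : ℝ, Real.exp (-b * ((x0 - t) / T) ^ 2) = √(Real.pi / b) * T := by
  rw [box_g1_eq hT, integral_sub_left_eq_self (fun u : ℝ => Real.exp (-(b / T ^ 2) * u ^ 2)),
    integral_gaussian]
  rw [show Real.pi / (b / T ^ 2) = Real.pi / b * T ^ 2 by field_simp,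
    Real.sqrt_mul (by positivity), Real.sqrt_sq hT.le]

/-- Gaussian window -/
noncomputable def gaus (b τ M : ℝ) (y : V3) (κ : (ℝ × ℝ) × ℝ) : ℝ :=
  Real.exp (-b * (((y 0 / y 2 - κ.1.1) / τ) ^ 2 + ((y 1 / y 2 - κ.1.2) / τ) ^ 2 +
    ((y 2 - κ.2) / M) ^ 2))

lemma gaus_eq (b τ M : ℝ) (y : V3) : gaus b τ M y = fun κ : (ℝ × ℝ) × ℝ =>
    (fun θ : ℝ × ℝ => Real.exp (-b * ((y 0 / y 2 - θ.1) / τ) ^ 2) *
      Real.exp (-b * ((y 1 / y 2 - θ.2) / τ) ^ 2)) κ.1 *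
      Real.exp (-b * ((y 2 - κ.2) / M) ^ 2) := by
  funext κ; unfold gaus; simp only [← Real.exp_add]; ring_nf

lemma gaus_int {b τ M : ℝ} (hb : 0 < b) (hτ : 0 < τ) (hM : 0 < M) (y : V3) :
    Integrable (gaus b τ M y) := by
  rw [gaus_eq]
  exact Integrable.mul_prod (Integrable.mul_prod (box_g1_int hb hτ _) (box_g1_int hb hτ _))
    (box_g1_int hb hM _)

lemma gaus_integral {b τ M : ℝ} (hb : 0 < b) (hτ : 0 < τ) (hM : 0 < M) (y : V3) :
    ∫ κ, gaus b τ M y κ = √(Real.pi / b) ^ 3 * (τ ^ 2 * M) := by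
  rw [gaus_eq, Measure.volume_eq_prod, integral_prod_mul
    (fun θ : ℝ × ℝ => Real.exp (-b * ((y 0 / y 2 - θ.1) / τ) ^ 2) *
      Real.exp (-b * ((y 1 / y 2 - θ.2) / τ) ^ 2))
    (fun r : ℝ => Real.exp (-b * ((y 2 - r) / M) ^ 2)), Measure.volume_eq_prod,
    integral_prod_mul (fun t : ℝ => Real.exp (-b * ((y 0 / y 2 - t) / τ) ^ 2))
    (fun t : ℝ => Real.exp (-b * ((y 1 / y 2 - t) / τ) ^ 2)), box_g1 hb hτ, box_g1 hb hτ,
    box_g1 hb hM]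
  ring

lemma gaus_pos (b τ M : ℝ) (y : V3) (κ : (ℝ × ℝ) × ℝ) : 0 < gaus b τ M y κ := Real.exp_pos _

lemma box_cnt1 {T x : ℝ} (hT : 1 ≤ T) :
    ((Finset.Icc ⌈-x - T⌉ ⌊-x + T⌋).card : ℝ) ≤ 3 * T := by
  rw [Int.card_Icc]
  have h1 := Int.floor_le (-x + T)
  have h2 := Int.le_ceil (-x - T)
  rcases le_or_gt (⌊-x + T⌋ + 1 - ⌈-x - T⌉) 0 with h | h
  · rw [Int.toNat_eq_zero.2 h]; simp; linarith
  · have : ((⌊-x + T⌋ + 1 - ⌈-x - T⌉).toNat : ℝ) = ((⌊-x + T⌋ + 1 - ⌈-x - T⌉ : ℤ) : ℝ) := by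
      rw [← Int.cast_natCast, Int.toNat_of_nonneg h.le]
    rw [this]; push_cast; linarith

lemma box_mem_pi {x : V3} {T : ℝ} {n : Z3} (h : ∀ i, |n i + x i| ≤ T) :
    n ∈ Fintype.piFinset fun i => Finset.Icc ⌈-x i - T⌉ ⌊-x i + T⌋ := by
  rw [Fintype.mem_piFinset]
  intro i
  have := abs_le.1 (h i)
  rw [Finset.mem_Icc, Int.ceil_le, Int.le_floor]
  constructor <;> linarith [this.1, this.2]

lemma box_cnt {x : V3} {T : ℝ} (hT : 1 ≤ T) :
    ((Fintype.piFinset fun i => Finset.Icc ⌈-x i - T⌉ ⌊-x i + T⌋).card : ℝ) ≤ 27 * T ^ 3 := by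
  rw [Fintype.card_piFinset, Fin.prod_univ_three]
  push_cast
  have h0 := box_cnt1 (x := x 0) hT
  have h1 := box_cnt1 (x := x 1) hT
  have h2 := box_cnt1 (x := x 2) hT
  calc _ ≤ (3 * T) * (3 * T) * (3 * T) := by gcongr
    _ = _ := by ring

lemma box_exp_le (N : ℕ) {x ρ : ℝ} (hρ : 0 < ρ) (h : ρ ≤ x) :
    Real.exp (-x) ≤ N.factorial / ρ ^ N := by
  have h1 := Real.pow_div_factorial_le_exp ρ hρ.le N
  have h2 : Real.exp (-x) ≤ (Real.exp ρ)⁻¹ := by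
    rw [← Real.exp_neg]; exact Real.exp_le_exp.2 (by linarith)
  refine h2.trans ?_
  have h3 : 0 < ρ ^ N / (N.factorial : ℝ) := by positivity
  calc (Real.exp ρ)⁻¹ ≤ (ρ ^ N / (N.factorial : ℝ))⁻¹ := inv_anti₀ h3 h1
    _ = _ := by rw [inv_div]

lemma box_fd_congr {s t : ℕ → ℂ} {N : ℕ} (h : ∀ j ≤ N, s j = t j) :
    (fwdDiff 1)^[N] s 0 = (fwdDiff 1)^[N] t 0 := by
  rw [fwdDiff_iter_eq_sum_shift, fwdDiff_iter_eq_sum_shift]
  refine Finset.sum_congr rfl fun j hj => ?_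
  rw [show (0 + j • 1 : ℕ) = j by simp, h j (Nat.lt_succ_iff.1 (Finset.mem_range.1 hj))]

lemma box_fd_triv {s : ℕ → ℂ} {N : ℕ} {A : ℝ} (h : ∀ j ≤ N, ‖s j‖ ≤ A) :
    ‖(fwdDiff 1)^[N] s 0‖ ≤ 2 ^ N * A := by
  rw [fwdDiff_iter_eq_sum_shift]
  refine (norm_sum_le _ _).trans ?_
  have : ∀ j ∈ Finset.range (N + 1),
      ‖((-1 : ℤ) ^ (N - j) * N.choose j) • s (0 + j • 1)‖ ≤ (N.choose j : ℝ) * A := by
    intro j hj
    rw [show (0 + j • 1 : ℕ) = j by simp, zsmul_eq_mul, norm_mul]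
    have h1 := h j (Nat.lt_succ_iff.1 (Finset.mem_range.1 hj))
    have h2 : ‖(((-1 : ℤ) ^ (N - j) * N.choose j : ℤ) : ℂ)‖ = N.choose j := by
      push_cast; simp
    rw [h2]; gcongr
  refine (Finset.sum_le_sum this).trans ?_
  rw [← Finset.sum_mul, ← Nat.cast_sum, Nat.sum_range_choose]; push_cast; rfl

lemma box_fd_zero {s : ℕ → ℂ} {N : ℕ} (h : ∀ j ≤ N, s j = 0) : (fwdDiff 1)^[N] s 0 = 0 := by
  have := box_fd_triv (s := s) (N := N) (A := 0) (fun j hj => by rw [h j hj]; simp)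
  simpa using this

lemma box_Dd_conj {N : ℕ} {A ρ : ℝ} {s : ℕ → ℂ} (h : Dd N A ρ s) :
    Dd N A ρ (fun j => (starRingEnd ℂ) (s j)) := by
  intro k j hk
  have : (fwdDiff 1)^[k] (fun j => (starRingEnd ℂ) (s j)) j =
      (starRingEnd ℂ) ((fwdDiff 1)^[k] s j) := by
    rw [fwdDiff_iter_eq_sum_shift, fwdDiff_iter_eq_sum_shift, map_sum]
    refine Finset.sum_congr rfl fun i _ => ?_
    rw [map_zsmul]
  rw [this, RCLike.norm_conj]; exact h k j hk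

/-- `B` close to the identity moves vectors little -/
lemma box_near {Q : ℝ} {B : M3} (hB : NearI Q B) (y : V3) (i : Fin 3) :
    |(B *ᵥ y) i - y i| ≤ 3 / (64 * Q ^ 2) * ‖y‖ := by
  have e : (B *ᵥ y) i - y i = ∑ j, (B i j - (if i = j then 1 else 0)) * y j := by
    simp only [Matrix.mulVec, dotProduct, sub_mul, Finset.sum_sub_distrib, ite_mul, one_mul,
      zero_mul, Finset.sum_ite_eq, Finset.mem_univ, if_true]
  rw [e]
  refine (Finset.abs_sum_le_sum_abs _ _).trans ?_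
  have : ∀ j ∈ (Finset.univ : Finset (Fin 3)),
      |(B i j - (if i = j then 1 else 0)) * y j| ≤ 1 / (64 * Q ^ 2) * ‖y‖ := by
    intro j _
    rw [abs_mul]
    have h1 := hB i j
    have h2 : |y j| ≤ ‖y‖ := by simpa using norm_le_pi_norm y j
    exact mul_le_mul h1 h2 (abs_nonneg _) (le_trans (abs_nonneg _) h1)
  refine (Finset.sum_le_sum this).trans (le_of_eq ?_)
  simp; ring

lemma box_norm_B {Q : ℝ} {B : M3} (hQ : 1 ≤ Q) (hB : NearI Q B) (y : V3) :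
    ‖B *ᵥ y‖ ≤ 2 * ‖y‖ ∧ ‖y‖ ≤ 2 * ‖B *ᵥ y‖ := by
  have h0 : 3 / (64 * Q ^ 2) ≤ 1 / 2 := by
    rw [div_le_div_iff₀ (by positivity) (by norm_num)]; nlinarith
  have hn := norm_nonneg y
  have h1 : ∀ i, |(B *ᵥ y) i - y i| ≤ 1 / 2 * ‖y‖ := fun i =>
    (box_near hB y i).trans (by gcongr)
  constructor
  · refine (pi_norm_le_iff_of_nonneg (by positivity)).2 fun i => ?_
    have h2 : |y i| ≤ ‖y‖ := by simpa using norm_le_pi_norm y i
    have := abs_le.1 (h1 i); have := abs_le.1 h2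
    rw [Real.norm_eq_abs, abs_le]; constructor <;> linarith
  · have : ‖y‖ ≤ ‖B *ᵥ y‖ + 1 / 2 * ‖y‖ := by
      refine (pi_norm_le_iff_of_nonneg (by positivity)).2 fun i => ?_
      have h2 : |(B *ᵥ y) i| ≤ ‖B *ᵥ y‖ := by simpa using norm_le_pi_norm (B *ᵥ y) i
      have := abs_le.1 (h1 i); have := abs_le.1 h2
      rw [Real.norm_eq_abs, abs_le]; constructor <;> linarith
    linarith

/-- location of points whose image lies in the box `[X/R, R X]^3` -/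
lemma box_loc {R X : ℝ} {B : M3} (hR : 1 ≤ R) (hX : 0 < X) (hB : NearI (4 * R ^ 2) B) {y : V3}
    (hy : ∀ i, X / R ≤ (B *ᵥ y) i ∧ (B *ᵥ y) i ≤ R * X) :
    ‖y‖ ≤ 2 * R * X ∧ X / (2 * R) ≤ y 2 ∧ y 2 ≤ 2 * R * X := by
  have hQ : 1 ≤ 4 * R ^ 2 := by nlinarith
  have h1 : ‖B *ᵥ y‖ ≤ R * X := by
    refine (pi_norm_le_iff_of_nonneg (by positivity)).2 fun i => ?_
    have := hy i
    have h3 : 0 < X / R := by positivity
    rw [Real.norm_eq_abs, abs_le]; constructor <;> linarith [this.1, this.2]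
  have h2 : ‖y‖ ≤ 2 * R * X := by linarith [(box_norm_B hQ hB y).2]
  refine ⟨h2, ?_, ?_⟩
  · have h3 := abs_le.1 (box_near hB y 2)
    have h4 : 3 / (64 * (4 * R ^ 2) ^ 2) * ‖y‖ ≤ X / (2 * R) := by
      calc _ ≤ 3 / (64 * (4 * R ^ 2) ^ 2) * (2 * R * X) := by gcongr
        _ = X / (2 * R) * (12 / (1024 * R ^ 2)) := by field_simp; ring
        _ ≤ X / (2 * R) * 1 := by
          gcongr; rw [div_le_one (by positivity)]; nlinarith
        _ = _ := mul_one _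
    have h5 : X / R = 2 * (X / (2 * R)) := by field_simp
    linarith [(hy 2).1, h3.2]
  · have : |y 2| ≤ ‖y‖ := by simpa using norm_le_pi_norm y 2
    linarith [le_abs_self (y 2)]

lemma box_pp_sub (B : M3) (θ θ' : ℝ × ℝ) : pp B θ - pp B θ' = hv B (θ - θ') := by
  unfold pp hv
  rw [← Matrix.mulVec_sub]; congr 1
  ext i; fin_cases i <;> simp

lemma box_hv_norm {Q : ℝ} {B : M3} (hQ : 1 ≤ Q) (hB : NearI Q B) (s : ℝ × ℝ) :
    ‖hv B s‖ ≤ 2 * ‖s‖ := by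
  refine (box_norm_B hQ hB _).1.trans ?_
  gcongr
  refine (pi_norm_le_iff_of_nonneg (norm_nonneg _)).2 fun i => ?_
  fin_cases i
  · simpa using norm_fst_le s
  · simpa using norm_snd_le s
  · simp

lemma box_pp_eq (B : M3) {y : V3} (hy : y 2 ≠ 0) (i : Fin 3) :
    pp B (y 0 / y 2, y 1 / y 2) i = (B *ᵥ y) i / y 2 := by
  unfold pp
  simp only [Matrix.mulVec, dotProduct, Fin.sum_univ_three]
  simp; field_simp

lemma box_theta {Q : ℝ} {B : M3} (hQ : 1 ≤ Q) (hB : NearI Q B) {θ : ℝ × ℝ} (h : Dr Q (pp B θ)) :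
    |θ.1| ≤ 2 * Q ∧ |θ.2| ≤ 2 * Q := by
  have h1 : ‖pp B θ‖ ≤ Q := by
    refine (pi_norm_le_iff_of_nonneg (by positivity)).2 fun i => ?_
    have := h i
    have h3 : 0 < 1 / Q := by positivity
    rw [Real.norm_eq_abs, abs_le]; constructor <;> linarith [this.1, this.2]
  have h2 := (box_norm_B hQ hB ![θ.1, θ.2, 1]).2
  have h3 : |θ.1| ≤ ‖(![θ.1, θ.2, 1] : V3)‖ := by
    simpa using norm_le_pi_norm (![θ.1, θ.2, 1] : V3) 0
  have h4 : |θ.2| ≤ ‖(![θ.1, θ.2, 1] : V3)‖ := by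
    simpa using norm_le_pi_norm (![θ.1, θ.2, 1] : V3) 1
  unfold pp at h1
  constructor <;> linarith

end Pool.Agent.CubH
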