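import Pool.Agent.Lib.MP_d79f69_nt.BoxA

open Matrix MeasureTheory

namespace Pool.Agent.CubH

noncomputable def wwf (B : M3) (W : V3 → ℂ) (h : ℝ × ℝ) (y : V3) : ℂ :=
  W (B *ᵥ y + (1 / 2 : ℝ) • hv B h) * (starRingEnd ℂ) (W (B *ᵥ y - (1 / 2 : ℝ) • hv B h))

noncomputable def gmf (B : M3) (c : ℝ) (h : ℝ × ℝ) (y : V3) : ℝ :=
  c * (ph (B *ᵥ y + (1 / 2 : ℝ) • hv B h) - ph (B *ᵥ y - (1 / 2 : ℝ) • hv B h))

noncomputable def xif (B : M3) (c : ℝ) (h θ : ℝ × ℝ) (r : ℝ) : V3 :=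
  ![gA B c h θ, gB B c h θ,
    GG B c h θ - kap B c h θ / (24 * r ^ 2) - gA B c h θ * θ.1 - gB B c h θ * θ.2]

noncomputable def Ef (B : M3) (c : ℝ) (h : ℝ × ℝ) (τ M : ℝ) (θ : ℝ × ℝ) (r : ℝ) (y : V3) : ℂ :=
  (gaus Real.pi τ M y (θ, r) : ℝ) *
    ee (gmf B c h y - ∑ i, xif B c h θ r i * y i - kap B c h θ / (12 * r))

lemma box_cv_mulVec (B : M3) (z : V3) : B.map (↑) *ᵥ cv z = cv (B *ᵥ z) := by
  ext i; simp [cv, Matrix.mulVec, dotProduct]

lemma box_supp {N : ℕ} {R X A : ℝ} {B : M3} {W : V3 → ℂ} {h : ℝ × ℝ} (hW : Wt N R X A W) {y : V3}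
    (hy : wwf B W h y ≠ 0) (i : Fin 3) : X / R ≤ (B *ᵥ y) i ∧ (B *ᵥ y) i ≤ R * X := by
  unfold wwf at hy
  have h1 := hW.1 _ (left_ne_zero_of_mul hy) i
  have h2 := hW.1 _ ((map_ne_zero _).1 (right_ne_zero_of_mul hy)) i
  simp only [Pi.add_apply, Pi.sub_apply, Pi.smul_apply, smul_eq_mul] at h1 h2
  constructor <;> linarith [h1.1, h1.2, h2.1, h2.2]

lemma box_W_le {N : ℕ} {R X A : ℝ} {W : V3 → ℂ} (hW : Wt N R X A W) (hR : 1 ≤ R) (hX : 0 < X)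
    (x : V3) : ‖W x‖ ≤ A := by
  have := hW.2 0 (Nat.zero_le _) x 0 (by simp; positivity)
  simpa using this

lemma box_ww_le {N : ℕ} {R X A : ℝ} {B : M3} {W : V3 → ℂ} {h : ℝ × ℝ} (hW : Wt N R X A W)
    (hR : 1 ≤ R) (hX : 0 < X) (y : V3) : ‖wwf B W h y‖ ≤ A ^ 2 := by
  unfold wwf
  rw [norm_mul, RCLike.norm_conj, sq]
  have h1 := box_W_le hW hR hX (B *ᵥ y + (1 / 2 : ℝ) • hv B h)
  exact mul_le_mul h1 (box_W_le hW hR hX _) (norm_nonneg _) ((norm_nonneg _).trans h1)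

lemma box_W_Dd (hB3 : SB3) {N : ℕ} {R X A ρ : ℝ} {W : V3 → ℂ} (hW : Wt N R X A W) (hR : 1 ≤ R)
    (hX : 0 < X) (hρ : 0 < ρ) (x v : V3) (h1 : N * ‖v‖ ≤ X / (16 * R)) (h2 : ‖v‖ * ρ ≤ X) :
    Dd N A ρ (fun j : ℕ => W (x + (j : ℝ) • v)) := by
  intro k j hk
  rw [hB3.1]
  refine (hW.2 k (by omega) _ v h1).trans ?_
  have hA : 0 ≤ A := (norm_nonneg _).trans (box_W_le hW hR hX 0)
  rw [div_eq_mul_inv A, ← inv_pow]
  gcongr
  rw [div_le_iff₀ hX, inv_mul_eq_div, le_div_iff₀ hρ]; exact h2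

lemma box_re_sq {z : ℂ} {x K : ℝ} (h : ‖z - x‖ ≤ K) : -K ^ 2 ≤ (z ^ 2).re := by
  have h1 : |z.im| ≤ K := by
    have := Complex.abs_im_le_norm (z - x)
    simp only [Complex.sub_im, Complex.ofReal_im, sub_zero] at this
    linarith
  have h2 : z.im ^ 2 ≤ K ^ 2 := by
    rw [← sq_abs]; exact pow_le_pow_left₀ (abs_nonneg _) h1 2
  rw [sq z, Complex.mul_re]; nlinarith [sq_nonneg z.re]

/-- the transversal Gaussian argument moves boundedly along a complex line -/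
lemma box_nu {R X ρ L M y0 y2 b0 b2 θ : ℝ} {t : ℂ} (hR : 1 ≤ R) (hX : 0 < X) (hρ : 6 * R ≤ ρ)
    (hL : 0 < L) (hM : 0 < M) (hMX : ρ * M ≤ X) (hy : X / (3 * R) ≤ y2) (ht : ‖t‖ ≤ ρ)
    (hb2 : |b2| ≤ M / ρ) (hb0 : |b0 - θ * b2| ≤ L / ρ)
    (hn : |(y0 / y2 - θ) / (L / X)| ≤ ρ) :
    ‖((y0 + t * b0) / (y2 + t * b2) - θ) / ((L / X : ℝ) : ℂ) -
      (((y0 / y2 - θ) / (L / X) : ℝ) : ℂ)‖ ≤ 12 * R := by
  have hρ0 : 0 < ρ := by linarith
  have hy0 : 0 < y2 := lt_of_lt_of_le (by positivity) hy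
  have hXy : X ≤ 3 * R * y2 := by rwa [div_le_iff₀ (by positivity), mul_comm] at hy
  have h1 : ‖t * b2‖ ≤ M := by
    rw [norm_mul, Complex.norm_real, Real.norm_eq_abs]
    calc _ ≤ ρ * (M / ρ) := by gcongr
      _ = M := by field_simp
  have h2 : ‖t * ((b0 - θ * b2 : ℝ) : ℂ)‖ ≤ L := by
    rw [norm_mul, Complex.norm_real, Real.norm_eq_abs]
    calc _ ≤ ρ * (L / ρ) := by gcongr
      _ = L := by field_simp
  have hM2 : M ≤ y2 / 2 := by nlinarith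
  have h3 : y2 / 2 ≤ ‖(y2 : ℂ) + t * b2‖ := by
    have := norm_sub_norm_le (y2 : ℂ) (-(t * b2))
    rw [sub_neg_eq_add, norm_neg, Complex.norm_real, Real.norm_eq_abs, abs_of_pos hy0] at this
    linarith
  have h4 : (y2 : ℂ) + t * b2 ≠ 0 := by
    intro h0; rw [h0, norm_zero] at h3; linarith
  set ν : ℝ := (y0 / y2 - θ) / (L / X) with hν
  have hy2c : (y2 : ℂ) ≠ 0 := by exact_mod_cast hy0.ne'
  have hLc : (L : ℂ) ≠ 0 := by exact_mod_cast hL.ne'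
  have hXc : (X : ℂ) ≠ 0 := by exact_mod_cast hX.ne'
  have e : ((y0 + t * b0) / (y2 + t * b2) - θ) / ((L / X : ℝ) : ℂ) - (ν : ℂ) =
      (t * ((b0 - θ * b2 : ℝ) : ℂ) * (X / L : ℝ) - ν * (t * b2)) / (y2 + t * b2) := by
    rw [hν]; push_cast; field_simp; ring
  rw [e, norm_div, div_le_iff₀ (by linarith)]
  have h5 : ‖t * ((b0 - θ * b2 : ℝ) : ℂ) * (X / L : ℝ)‖ ≤ X := by
    rw [norm_mul, Complex.norm_real (X / L), Real.norm_eq_abs, abs_of_pos (by positivity)]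
    calc _ ≤ L * (X / L) := by gcongr
      _ = X := by field_simp
  have h6 : ‖(ν : ℂ) * (t * b2)‖ ≤ X := by
    rw [norm_mul, Complex.norm_real, Real.norm_eq_abs]
    calc _ ≤ ρ * M := by gcongr
      _ ≤ X := hMX
  calc _ ≤ X + X := (norm_sub_le _ _).trans (add_le_add h5 h6)
    _ ≤ 12 * R * (y2 / 2) := by linarith
    _ ≤ _ := by gcongr

/-- far points stay far -/
lemma box_far {R X ρ L M y0 y2 b0 b2 θ j : ℝ} (hR : 1 ≤ R) (hX : 0 < X) (hj : 0 ≤ j)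
    (hρ : 12 * R * (j + 1) ≤ ρ)
    (hL : 0 < L) (hM : 0 < M) (hMX : ρ * M ≤ X) (hy : X / (3 * R) ≤ y2)
    (hb2 : |b2| ≤ M / ρ) (hb0 : |b0 - θ * b2| ≤ L / ρ)
    (hn : ρ < |(y0 / y2 - θ) / (L / X)|) :
    ρ / 2 ≤ |((y0 + j * b0) / (y2 + j * b2) - θ) / (L / X)| := by
  have hρ1 : 12 ≤ ρ := by nlinarith
  have hρ0 : 0 < ρ := by linarith
  have hjρ : j ≤ ρ := by nlinarith
  have hy0 : 0 < y2 := lt_of_lt_of_le (by positivity) hy
  have hXy : X ≤ 3 * R * y2 := by rwa [div_le_iff₀ (by positivity), mul_comm] at hy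
  have h1 : |j * b2| ≤ M := by
    rw [abs_mul, abs_of_nonneg hj]
    calc _ ≤ ρ * (M / ρ) := by gcongr
      _ = M := by field_simp
  have hM2 : M ≤ y2 / 2 := by nlinarith
  have h1' := abs_le.1 h1
  have hd : 0 < y2 + j * b2 := by linarith
  set ν : ℝ := (y0 / y2 - θ) / (L / X) with hν
  have e : ((y0 + j * b0) / (y2 + j * b2) - θ) / (L / X) =
      (ν * y2 + j * (b0 - θ * b2) * (X / L)) / (y2 + j * b2) := by
    rw [hν]; field_simp; ring
  rw [e, abs_div, abs_of_pos hd, le_div_iff₀ hd]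
  have h5 : |j * (b0 - θ * b2) * (X / L)| ≤ ρ * y2 / 4 := by
    rw [abs_mul, abs_mul, abs_of_nonneg hj, abs_of_pos (by positivity : 0 < X / L)]
    calc _ ≤ j * (L / ρ) * (X / L) := by gcongr
      _ = j * X / ρ := by field_simp
      _ ≤ j * (3 * R * y2) / ρ := by gcongr
      _ ≤ ρ * y2 / 4 := by
        rw [div_le_iff₀ hρ0]
        have : 12 * R * j ≤ ρ * ρ := by nlinarith
        nlinarith
  have h6 : ρ * y2 ≤ |ν * y2| := by
    rw [abs_mul, abs_of_pos hy0]; gcongr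
  have h7 := abs_sub_abs_le_abs_sub (ν * y2) (-(j * (b0 - θ * b2) * (X / L)))
  rw [sub_neg_eq_add, abs_neg] at h7
  nlinarith

lemma gaus_le_of {τ M d : ℝ} {y : V3} {κ : (ℝ × ℝ) × ℝ} (hd : 0 ≤ d) {b : ℝ} (hb : 0 ≤ b)
    (h : d ≤ |(y 0 / y 2 - κ.1.1) / τ| ∨ d ≤ |(y 1 / y 2 - κ.1.2) / τ| ∨ d ≤ |(y 2 - κ.2) / M|) :
    gaus b τ M y κ ≤ Real.exp (-(b * d ^ 2)) := by
  unfold gaus
  refine Real.exp_le_exp.2 ?_
  have key : ∀ x : ℝ, d ≤ |x| → d ^ 2 ≤ x ^ 2 := fun x hx => by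
    rw [← sq_abs x]; exact pow_le_pow_left₀ hd hx 2
  have : d ^ 2 ≤ ((y 0 / y 2 - κ.1.1) / τ) ^ 2 + ((y 1 / y 2 - κ.1.2) / τ) ^ 2 +
      ((y 2 - κ.2) / M) ^ 2 := by
    rcases h with h | h | h <;> have := key _ h <;>
      linarith [sq_nonneg ((y 0 / y 2 - κ.1.1) / τ), sq_nonneg ((y 1 / y 2 - κ.1.2) / τ),
        sq_nonneg ((y 2 - κ.2) / M)]
  nlinarith

/-- the holomorphic factor near the centre -/
lemma box_E (hEx : SEx) (hBa : SBa) (hB2 : SB2) (N : ℕ) (R c : ℝ) (hR : 1 ≤ R) :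
    ∃ C : ℝ, 1 ≤ C ∧ ∀ B : M3, NearI (4 * R ^ 2) B →
    ∀ (X H ρ L M r : ℝ) (h θ : ℝ × ℝ) (y b : V3), ‖h‖ = H → 1 ≤ H → C ≤ ρ → 0 < L → 0 < M →
    H * ρ ^ 2 * L ^ 2 ≤ X → H ^ 3 * ρ ^ 2 * M ^ 2 ≤ X ^ 3 → H ^ 5 ≤ X ^ 3 →
    H ^ 3 * ρ * L ≤ X ^ 2 → ρ ^ 2 * L ≤ X → ρ * H ≤ X → ρ * M ≤ X →
    Dr (4 * R ^ 2) (pp B θ) → X / (4 * R ^ 2) ≤ r → r ≤ 4 * R ^ 2 * X →
    X / (3 * R) ≤ y 2 → y 2 ≤ 3 * R * X →
    |b 2| ≤ M / ρ → |b 0 - θ.1 * b 2| ≤ L / ρ → |b 1 - θ.2 * b 2| ≤ L / ρ →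
    |(y 0 / y 2 - θ.1) / (L / X)| ≤ ρ → |(y 1 / y 2 - θ.2) / (L / X)| ≤ ρ →
    |(y 2 - r) / M| ≤ ρ →
    ∃ s : ℕ → ℂ, Dd N C ρ s ∧ ∀ j ≤ N, s j = Ef B c h (L / X) M θ r (y + (j : ℝ) • b) := by
  have hQ : 1 ≤ 4 * R ^ 2 := by nlinarith
  obtain ⟨C1, hC1, H1⟩ := hEx (4 * R ^ 2) c (3 * R + 1) hQ (by linarith)
  obtain ⟨C2, hC2, H2⟩ := hB2 N
  set A0 : ℝ := Real.exp (Real.pi * (2 * (12 * R) ^ 2 + 1)) * Real.exp (2 * Real.pi * C1) with hA0
  have hA1 : 1 ≤ A0 := by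
    have := Real.pi_pos
    exact one_le_mul_of_one_le_of_one_le (Real.one_le_exp (by positivity))
      (Real.one_le_exp (by positivity))
  refine ⟨C2 * A0 + C1 + 24 * R + N, by nlinarith [Nat.cast_nonneg (α := ℝ) N], ?_⟩
  intro B hB X H ρ L M r h θ y b hH hH1 hρ hL hM a1 a2 a3 a4 a5 a6 a7 hθ hr1 hr2 hy1 hy2
    hb2 hb0 hb1 n0 n1 n2
  have hN0 : (0 : ℝ) ≤ N := Nat.cast_nonneg N
  have hC2A : C2 ≤ C2 * A0 := le_mul_of_one_le_right (by linarith) hA1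
  have hρ1 : C1 ≤ ρ := by linarith
  have hρ2 : C2 ≤ ρ := by linarith
  have hρ3 : 24 * R ≤ ρ := by linarith
  have hρ4 : (N : ℝ) < ρ := by linarith
  have hρ0 : 0 < ρ := by linarith
  have hX : 0 < X := lt_of_lt_of_le (by positivity) a7
  have hy0 : 0 < y 2 := lt_of_lt_of_le (by positivity) hy1
  set Y : ℂ → C3 := fun t => cv y + t • cv b with hY
  have hYi : ∀ t i, Y t i = y i + t * b i := fun t i => by simp [hY, cv]
  have hM' : M ≤ X / (24 * R) := by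
    rw [le_div_iff₀ (by positivity)]
    linarith [mul_le_mul_of_nonneg_right hρ3 hM.le]
  have hRR : R ≤ R ^ 2 := le_self_pow₀ hR two_ne_zero
  have hρ1' : 1 ≤ ρ := by linarith
  have q1 : M ≤ ρ * M := le_mul_of_one_le_left hM.le hρ1'
  have q2 : L ≤ ρ * L := le_mul_of_one_le_left hL.le hρ1'
  have q3 : R * X ≤ R ^ 2 * X := mul_le_mul_of_nonneg_right hRR hX.le
  have q4 : X ≤ R * X := le_mul_of_one_le_left hX.le hR
  have q5 : ρ * M ≤ R * (ρ * M) := le_mul_of_one_le_left (by positivity) hR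
  have hbox : ∀ t : ℂ, ‖t‖ ≤ ρ → X / (2 * (4 * R ^ 2)) ≤ (Y t 2).re ∧
      ‖Y t 2‖ ≤ 2 * (4 * R ^ 2) * X ∧ ‖Y t 2 - r‖ ≤ (3 * R + 1) * ρ * M ∧
      ‖Y t 0 - Y t 2 * θ.1‖ ≤ (3 * R + 1) * ρ * L ∧
      ‖Y t 1 - Y t 2 * θ.2‖ ≤ (3 * R + 1) * ρ * L := by
    intro t ht
    have h1 : ‖t * b 2‖ ≤ M := by
      rw [norm_mul, Complex.norm_real, Real.norm_eq_abs]
      calc _ ≤ ρ * (M / ρ) := by gcongr
        _ = M := by field_simp
    have tr : ∀ y0 b0 th : ℝ, |b0 - th * b 2| ≤ L / ρ → |(y0 / y 2 - th) / (L / X)| ≤ ρ →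
        ‖(y0 + t * b0 : ℂ) - (y 2 + t * b 2) * th‖ ≤ (3 * R + 1) * ρ * L := by
      intro y0 b0 th k1 k2
      have e : (y0 + t * b0 : ℂ) - (y 2 + t * b 2) * th =
          ((y0 - y 2 * th : ℝ) : ℂ) + t * ((b0 - th * b 2 : ℝ) : ℂ) := by push_cast; ring
      rw [e]
      refine (norm_add_le _ _).trans ?_
      rw [norm_mul, Complex.norm_real, Complex.norm_real, Real.norm_eq_abs, Real.norm_eq_abs]
      have k3 : ‖t‖ * |b0 - th * b 2| ≤ L := by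
        calc _ ≤ ρ * (L / ρ) := by gcongr
          _ = L := by field_simp
      have k4 : y0 - y 2 * th = (y0 / y 2 - th) / (L / X) * (y 2 * (L / X)) := by field_simp
      have k5 : |y0 - y 2 * th| ≤ ρ * (3 * R * L) := by
        rw [k4, abs_mul, abs_of_pos (by positivity : 0 < y 2 * (L / X))]
        calc _ ≤ ρ * (3 * R * X * (L / X)) := by gcongr
          _ = _ := by field_simp
      linarith
    rw [hYi, hYi, hYi]
    refine ⟨?_, ?_, ?_, tr _ _ _ hb0 n0, tr _ _ _ hb1 n1⟩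
    · have := Complex.abs_re_le_norm (t * b 2)
      have h2 := abs_le.1 (this.trans h1)
      rw [Complex.add_re, Complex.ofReal_re]
      have h3 : X / (2 * (4 * R ^ 2)) ≤ X / (8 * R) :=
        div_le_div_of_nonneg_left hX.le (by positivity) (by linarith)
      have h4 : X / (3 * R) - X / (24 * R) = 7 / 3 * (X / (8 * R)) := by field_simp; ring
      have h5 : 0 < X / (8 * R) := by positivity
      linarith [h2.1]
    · refine (norm_add_le _ _).trans ?_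
      rw [Complex.norm_real, Real.norm_eq_abs, abs_of_pos hy0]
      linarith
    · have e : (y 2 + t * b 2 : ℂ) - r = ((y 2 - r : ℝ) : ℂ) + t * b 2 := by push_cast; ring
      rw [e]
      refine (norm_add_le _ _).trans ?_
      rw [Complex.norm_real, Real.norm_eq_abs]
      have k : |y 2 - r| ≤ ρ * M := by
        rwa [abs_div, abs_of_pos hM, div_le_iff₀ hM] at n2
      linarith
  have hex := fun t (ht : ‖t‖ ≤ ρ) => H1 B hB X H ρ L M r h θ hH hH1 hρ1 hL hM a1 a2 a3 a4 a5 a6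
    hθ hr1 hr2 (Y t) (hbox t ht).1 (hbox t ht).2.1 (hbox t ht).2.2.1 (hbox t ht).2.2.2.1
    (hbox t ht).2.2.2.2
  set Φ : ℂ → ℂ := fun t => c * (phc (B.map (↑) *ᵥ Y t + (1 / 2 : ℂ) • cv (hv B h)) -
          phc (B.map (↑) *ᵥ Y t - (1 / 2 : ℂ) • cv (hv B h))) -
        (Y t 2 * ((GG B c h θ - kap B c h θ / (24 * r ^ 2) : ℝ) : ℂ) +
          gA B c h θ * (Y t 0 - Y t 2 * θ.1) + gB B c h θ * (Y t 1 - Y t 2 * θ.2)) -
        ((kap B c h θ / (12 * r) : ℝ) : ℂ) with hΦ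
  set E : ℂ → ℂ := fun t => Complex.exp (-Real.pi *
      (((Y t 0 / Y t 2 - θ.1) / ((L / X : ℝ) : ℂ)) ^ 2 +
        ((Y t 1 / Y t 2 - θ.2) / ((L / X : ℝ) : ℂ)) ^ 2 + ((Y t 2 - r) / M) ^ 2)) *
      Complex.exp (2 * Real.pi * Complex.I * Φ t) with hE
  have hBY : ∀ t, B.map (↑) *ᵥ Y t = cv (B *ᵥ y) + t • cv (B *ᵥ b) := fun t => by
    simp only [hY, Matrix.mulVec_add, Matrix.mulVec_smul, box_cv_mulVec]
  have hdiff : DifferentiableOn ℂ E (Metric.ball 0 ρ) := by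
    intro t ht
    have ht' : ‖t‖ ≤ ρ := (mem_ball_zero_iff.1 ht).le
    refine DifferentiableAt.differentiableWithinAt ?_
    have hY2 : (y 2 : ℂ) + t * b 2 ≠ 0 := by
      intro h0
      have := (hbox t ht').1
      rw [hYi, h0, Complex.zero_re] at this
      have : 0 < X / (2 * (4 * R ^ 2)) := by positivity
      linarith
    have hp := (hex t ht').1
    have d1 : DifferentiableAt ℂ
        (fun t => phc (B.map (↑) *ᵥ Y t + (1 / 2 : ℂ) • cv (hv B h))) t := by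
      have := (hBa.2.2 (cv (B *ᵥ y) + (1 / 2 : ℂ) • cv (hv B h)) (cv (B *ᵥ b)) t (fun i => by
        have := (hp i).1
        rw [hBY] at this
        convert this using 2
        simp only [Pi.add_apply, Pi.smul_apply, smul_eq_mul]; ring)).differentiableAt
      refine this.congr_of_eventuallyEq (Filter.Eventually.of_forall fun z => ?_)
      simp only [hBY]; congr 1; abel
    have d2 : DifferentiableAt ℂ
        (fun t => phc (B.map (↑) *ᵥ Y t - (1 / 2 : ℂ) • cv (hv B h))) t := by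
      have := (hBa.2.2 (cv (B *ᵥ y) - (1 / 2 : ℂ) • cv (hv B h)) (cv (B *ᵥ b)) t (fun i => by
        have := (hp i).2
        rw [hBY] at this
        convert this using 2
        simp only [Pi.add_apply, Pi.sub_apply, Pi.smul_apply, smul_eq_mul]; ring)).differentiableAt
      refine this.congr_of_eventuallyEq (Filter.Eventually.of_forall fun z => ?_)
      simp only [hBY]; congr 1; abel
    have d3 : DifferentiableAt ℂ Φ t := by
      simp only [hΦ, hYi]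
      refine (((d1.sub d2).const_mul _).sub ?_).sub_const _
      fun_prop
    simp only [hE, hYi]
    refine DifferentiableAt.mul ?_ ((d3.const_mul _).cexp)
    refine DifferentiableAt.cexp (DifferentiableAt.const_mul ?_ _)
    have e1 : ∀ i, DifferentiableAt ℂ (fun t : ℂ => ((y i : ℂ) + t * b i) / (y 2 + t * b 2)) t :=
      fun i => DifferentiableAt.div (by fun_prop) (by fun_prop) hY2
    exact ((((e1 0).sub_const _).div_const _).pow 2 |>.add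
      ((((e1 1).sub_const _).div_const _).pow 2)).add (by fun_prop)
  have hbd : ∀ t ∈ Metric.ball (0 : ℂ) ρ, ‖E t‖ ≤ A0 := by
    intro t ht
    have ht' : ‖t‖ ≤ ρ := (mem_ball_zero_iff.1 ht).le
    have k0 := box_re_sq (box_nu hR hX (by linarith) hL hM a7 hy1 ht' hb2 hb0 n0)
    have k1 := box_re_sq (box_nu hR hX (by linarith) hL hM a7 hy1 ht' hb2 hb1 n1)
    have k2 : -1 ^ 2 ≤ ((((y 2 : ℂ) + t * b 2 - r) / M) ^ 2).re := by
      refine box_re_sq (x := (y 2 - r) / M) ?_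
      have hMc : (M : ℂ) ≠ 0 := by exact_mod_cast hM.ne'
      have e : ((y 2 : ℂ) + t * b 2 - r) / M - (((y 2 - r) / M : ℝ) : ℂ) = t * b 2 / M := by
        push_cast; field_simp; ring
      rw [e, norm_div, norm_mul, Complex.norm_real, Complex.norm_real, Real.norm_eq_abs,
        Real.norm_eq_abs, abs_of_pos hM, div_le_one hM]
      calc _ ≤ ρ * (M / ρ) := by gcongr
        _ = M := by field_simp
    have hΦb : ‖Φ t‖ ≤ C1 := (hex t ht').2
    simp only [hE, hYi, hA0]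
    rw [norm_mul]
    have hpi := Real.pi_pos
    refine mul_le_mul ?_ ?_ (norm_nonneg _) (Real.exp_pos _).le
    · rw [Complex.norm_exp]
      refine Real.exp_le_exp.2 ?_
      rw [show (-(Real.pi : ℂ)) = ((-Real.pi : ℝ) : ℂ) by push_cast; rfl, Complex.re_ofReal_mul,
        Complex.add_re, Complex.add_re, neg_mul, ← mul_neg]
      exact mul_le_mul_of_nonneg_left (by linarith) hpi.le
    · refine (Complex.norm_exp_le_exp_norm _).trans (Real.exp_le_exp.2 ?_)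
      rw [norm_mul, norm_mul, norm_mul, Complex.norm_I, Complex.norm_real, Real.norm_eq_abs,
        abs_of_pos hpi, Complex.norm_ofNat, mul_one]
      gcongr
  refine ⟨fun j => E j, fun k j hk => (H2 A0 ρ E hρ2 hdiff hbd k j hk).trans ?_, ?_⟩
  · gcongr; linarith
  · intro j hj
    have hjρ : ‖(j : ℂ)‖ ≤ ρ := by
      rw [Complex.norm_natCast]; exact le_trans (by exact_mod_cast hj) hρ4.le
    have hYj : Y j = cv (y + (j : ℝ) • b) := by ext i; simp [hY, cv]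
    have hp := (hex j hjρ).1
    have c1 : B.map (↑) *ᵥ Y j + (1 / 2 : ℂ) • cv (hv B h) =
        cv (B *ᵥ (y + (j : ℝ) • b) + (1 / 2 : ℝ) • hv B h) := by
      rw [hYj, box_cv_mulVec]; ext i; simp [cv]
    have c2 : B.map (↑) *ᵥ Y j - (1 / 2 : ℂ) • cv (hv B h) =
        cv (B *ᵥ (y + (j : ℝ) • b) - (1 / 2 : ℝ) • hv B h) := by
      rw [hYj, box_cv_mulVec]; ext i; simp [cv]
    have p1 := (hBa.1 (B *ᵥ (y + (j : ℝ) • b) + (1 / 2 : ℝ) • hv B h) 0 0 0 (fun i => by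
      have := (hp i).1; rw [c1] at this; exact this)).1
    have p2 := (hBa.1 (B *ᵥ (y + (j : ℝ) • b) - (1 / 2 : ℝ) • hv B h) 0 0 0 (fun i => by
      have := (hp i).2; rw [c2] at this; exact this)).1
    simp only [hE, hΦ]
    rw [c1, c2, p1, p2]
    unfold Ef gaus ee gmf xif
    rw [hYj]
    simp only [cv, Fin.sum_univ_three, Matrix.cons_val_zero, Matrix.cons_val_one,
      Matrix.cons_val_two, Matrix.head_cons, Matrix.tail_cons]
    push_cast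
    congr 2
    ring

end Pool.Agent.CubH
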