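import Pool.Agent.Lib.MP_d79f69_nt.BoxB

open Matrix MeasureTheory

namespace Pool.Agent.CubH

lemma box_Ef_norm (B : M3) (c : ℝ) (h : ℝ × ℝ) (τ M : ℝ) (θ : ℝ × ℝ) (r : ℝ) (y : V3) :
    ‖Ef B c h τ M θ r y‖ = gaus Real.pi τ M y (θ, r) := by
  unfold Ef
  rw [norm_mul, box_ee_norm, mul_one, Complex.norm_real, Real.norm_eq_abs,
    abs_of_pos (gaus_pos _ _ _ _ _)]

lemma box_b_norm {R X ρ L M : ℝ} {θ : ℝ × ℝ} {b : V3} (hR : 1 ≤ R) (hρ : 1 ≤ ρ) (_hL : 1 ≤ L)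
    (hM : 0 < M) (a5 : ρ ^ 2 * L ≤ X) (a7 : ρ * M ≤ X) (h1 : |θ.1| ≤ 2 * (4 * R ^ 2))
    (h2 : |θ.2| ≤ 2 * (4 * R ^ 2)) (hb2 : |b 2| ≤ M / ρ) (hb0 : |b 0 - θ.1 * b 2| ≤ L / ρ)
    (hb1 : |b 1 - θ.2 * b 2| ≤ L / ρ) : ‖b‖ ≤ 9 * R ^ 2 * (X / ρ ^ 2) := by
  have hρ0 : 0 < ρ := by linarith
  have hX : 0 < X := lt_of_lt_of_le (by positivity) a7
  have k1 : M / ρ ≤ X / ρ ^ 2 := by
    rw [div_le_div_iff₀ hρ0 (by positivity)]; nlinarith
  have k2 : L / ρ ≤ X / ρ ^ 2 := by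
    rw [div_le_div_iff₀ hρ0 (by positivity)]; nlinarith
  have hR2 : 1 ≤ R ^ 2 := one_le_pow₀ hR
  have k0 : 0 < X / ρ ^ 2 := by positivity
  have k3 : ∀ x t : ℝ, |t| ≤ 2 * (4 * R ^ 2) → |x - t * b 2| ≤ L / ρ →
      |x| ≤ 9 * R ^ 2 * (X / ρ ^ 2) := by
    intro x t ht hx
    have e : x = (x - t * b 2) + t * b 2 := by ring
    have k4 : |t * b 2| ≤ 2 * (4 * R ^ 2) * (X / ρ ^ 2) := by
      rw [abs_mul]; exact mul_le_mul ht (hb2.trans k1) (abs_nonneg _) (by positivity)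
    have k5 := abs_add_le (x - t * b 2) (t * b 2)
    rw [← e] at k5
    nlinarith
  refine (pi_norm_le_iff_of_nonneg (by positivity)).2 fun i => ?_
  fin_cases i
  · exact k3 _ _ h1 hb0
  · exact k3 _ _ h2 hb1
  · change |b 2| ≤ _; nlinarith

lemma box_pi_sq {ρ : ℝ} (h : 300 ≤ ρ) : ρ ≤ Real.pi * (ρ / 2) ^ 2 := by
  nlinarith [Real.pi_gt_three]

/-- the `N`-th difference of the windowed summand is small -/
lemma box_K (hEx : SEx) (hBa : SBa) (hB1 : SB1) (hB2 : SB2) (hB3 : SB3) (N : ℕ) (R c : ℝ)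
    (hR : 1 ≤ R) :
    ∃ C : ℝ, 1 ≤ C ∧ ∀ B : M3, NearI (4 * R ^ 2) B →
    ∀ (X H ρ L M r A : ℝ) (W : V3 → ℂ) (h θ : ℝ × ℝ) (y b : V3), ‖h‖ = H → 1 ≤ H → C ≤ ρ →
    1 ≤ L → 0 < M →
    H * ρ ^ 2 * L ^ 2 ≤ X → H ^ 3 * ρ ^ 2 * M ^ 2 ≤ X ^ 3 → H ^ 5 ≤ X ^ 3 →
    H ^ 3 * ρ * L ≤ X ^ 2 → ρ ^ 2 * L ≤ X → ρ * H ≤ X → ρ * M ≤ X → Wt N R X A W →
    Dr (4 * R ^ 2) (pp B θ) → X / (4 * R ^ 2) ≤ r → r ≤ 4 * R ^ 2 * X →
    |b 2| ≤ M / ρ → |b 0 - θ.1 * b 2| ≤ L / ρ → |b 1 - θ.2 * b 2| ≤ L / ρ →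
    ‖(fwdDiff 1)^[N] (fun j : ℕ => wwf B W h (y + (j : ℝ) • b) *
        Ef B c h (L / X) M θ r (y + (j : ℝ) • b)) 0‖ ≤ C * A ^ 2 / ρ ^ N ∧
    ((fwdDiff 1)^[N] (fun j : ℕ => wwf B W h (y + (j : ℝ) • b) *
        Ef B c h (L / X) M θ r (y + (j : ℝ) • b)) 0 ≠ 0 → ‖y‖ ≤ 3 * R * X) := by
  have hQ : 1 ≤ 4 * R ^ 2 := by nlinarith
  obtain ⟨C1, hC1, H1⟩ := box_E hEx hBa hB2 N R c hR
  have hN0 : (0 : ℝ) ≤ N := Nat.cast_nonneg N
  have hR2 : 1 ≤ R ^ 2 := one_le_pow₀ hR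
  have hR3 : 1 ≤ R ^ 3 := one_le_pow₀ hR
  have hf : (1 : ℝ) ≤ N.factorial := by exact_mod_cast N.factorial_pos
  have h2N : (1 : ℝ) ≤ 2 ^ N := one_le_pow₀ (by norm_num)
  have z1 : 0 ≤ (2 : ℝ) ^ N * N.factorial := by positivity
  have z2 : C1 ≤ 2 ^ N * 2 ^ N * C1 :=
    le_mul_of_one_le_left (by linarith) (one_le_mul_of_one_le_of_one_le h2N h2N)
  have z3 : 300 * R ^ 3 ≤ 300 * R ^ 3 * (N + 1) := le_mul_of_one_le_right (by linarith) (by linarith)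
  refine ⟨2 ^ N * 2 ^ N * C1 + 2 ^ N * N.factorial + 300 * R ^ 3 * (N + 1), by linarith, ?_⟩
  intro B hB X H ρ L M r A W h θ y b hH hH1 hρ hL hM a1 a2 a3 a4 a5 a6 a7 hW hθ hr1 hr2 hb2 hb0 hb1
  have hρ1 : 300 * R ^ 3 * (N + 1) ≤ ρ := by linarith
  have hρ2 : 300 ≤ ρ := by linarith
  have hρ0 : 0 < ρ := by linarith
  have hL0 : 0 < L := by linarith
  have hX : 0 < X := lt_of_lt_of_le (by positivity) a7
  have hA2 : 0 ≤ A ^ 2 := sq_nonneg A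
  by_cases hz : ∀ j ≤ N, wwf B W h (y + (j : ℝ) • b) = 0
  · rw [box_fd_zero (fun j hj => by rw [hz j hj, zero_mul])]
    exact ⟨by rw [norm_zero]; positivity, fun h => absurd rfl h⟩
  push Not at hz
  obtain ⟨j0, hj0, hne⟩ := hz
  obtain ⟨l1, l2, l3⟩ := box_loc hR hX hB (box_supp hW hne)
  have hθ' := box_theta hQ hB hθ
  have hbn := box_b_norm hR (by linarith) hL hM a5 a7 hθ'.1 hθ'.2 hb2 hb0 hb1
  have hRR : R ≤ R ^ 3 := le_self_pow₀ hR three_ne_zero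
  have hRR2 : R ^ 2 ≤ R ^ 3 := pow_le_pow_right₀ hR (by norm_num)
  have hb3 : (N + 1) * ‖b‖ ≤ X / (32 * R) := by
    calc _ ≤ (N + 1) * (9 * R ^ 2 * (X / ρ ^ 2)) := by gcongr
      _ = X / (32 * R) * (288 * R ^ 3 * (N + 1) / ρ ^ 2) := by field_simp; ring
      _ ≤ X / (32 * R) * 1 := by
        gcongr
        rw [div_le_one (by positivity)]
        have : ρ ≤ ρ ^ 2 := le_self_pow₀ (by linarith) two_ne_zero
        have : 0 ≤ R ^ 3 * (N + 1) := by positivity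
        linarith
      _ = _ := mul_one _
  have hb4 : ‖b‖ * ρ ≤ X / 2 := by
    calc _ ≤ 9 * R ^ 2 * (X / ρ ^ 2) * ρ := by gcongr
      _ = X / 2 * (18 * R ^ 2 / ρ) := by field_simp; ring
      _ ≤ X / 2 * 1 := by
        gcongr
        rw [div_le_one (by positivity)]; linarith
      _ = _ := mul_one _
  have hbn0 := norm_nonneg b
  have hj0' : (j0 : ℝ) ≤ N := by exact_mod_cast hj0
  have hjb : ‖(j0 : ℝ) • b‖ ≤ X / (32 * R) := by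
    rw [norm_smul, Real.norm_natCast]
    exact le_trans (mul_le_mul_of_nonneg_right (by linarith) hbn0) hb3
  have q0 : X / (32 * R) ≤ R * X := by
    rw [div_le_iff₀ (by positivity)]
    have : X ≤ R ^ 2 * X := le_mul_of_one_le_left hX.le hR2
    linarith
  have hyn : ‖y‖ ≤ 3 * R * X := by
    have := norm_sub_le (y + (j0 : ℝ) • b) ((j0 : ℝ) • b)
    rw [add_sub_cancel_right] at this
    linarith
  refine ⟨?_, fun _ => hyn⟩
  have hy2 : y 2 ≤ 3 * R * X := by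
    have : |y 2| ≤ ‖y‖ := by simpa using norm_le_pi_norm y 2
    linarith [le_abs_self (y 2)]
  have hy1 : X / (3 * R) ≤ y 2 := by
    have k : |((j0 : ℝ) • b) 2| ≤ ‖(j0 : ℝ) • b‖ := by
      simpa using norm_le_pi_norm ((j0 : ℝ) • b) 2
    have k2 := (abs_le.1 (k.trans hjb)).2
    rw [Pi.add_apply] at l2
    have e : X / (2 * R) - X / (32 * R) = 45 / 32 * (X / (3 * R)) := by field_simp; ring
    have : 0 < X / (3 * R) := by positivity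
    linarith
  by_cases hnear : |(y 0 / y 2 - θ.1) / (L / X)| ≤ ρ ∧ |(y 1 / y 2 - θ.2) / (L / X)| ≤ ρ ∧
      |(y 2 - r) / M| ≤ ρ
  · obtain ⟨s, hs, hs'⟩ := H1 B hB X H ρ L M r h θ y b hH hH1 (by linarith) hL0 hM a1 a2 a3 a4 a5
      a6 a7 hθ hr1 hr2 hy1 hy2 hb2 hb0 hb1 hnear.1 hnear.2.1 hnear.2.2
    have hBb := (box_norm_B hQ hB b).1
    have v1 : N * ‖B *ᵥ b‖ ≤ X / (16 * R) := by
      have e : X / (16 * R) = 2 * (X / (32 * R)) := by field_simp; ring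
      have : N * ‖B *ᵥ b‖ ≤ N * (2 * ‖b‖) := by gcongr
      linarith
    have v2 : ‖B *ᵥ b‖ * ρ ≤ X := by
      have : ‖B *ᵥ b‖ * ρ ≤ 2 * ‖b‖ * ρ := by gcongr
      linarith
    have w1 := box_W_Dd hB3 hW hR hX hρ0 (B *ᵥ y + (1 / 2 : ℝ) • hv B h) (B *ᵥ b) v1 v2
    have w2 := box_Dd_conj (box_W_Dd hB3 hW hR hX hρ0 (B *ᵥ y - (1 / 2 : ℝ) • hv B h) (B *ᵥ b) v1 v2)
    have w3 := hB1 N _ _ ρ _ _ hρ0 (hB1 N _ _ ρ _ _ hρ0 w1 w2) hs N 0 le_rfl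
    rw [box_fd_congr (t := fun j : ℕ =>
      W (B *ᵥ y + (1 / 2 : ℝ) • hv B h + (j : ℝ) • B *ᵥ b) *
        (starRingEnd ℂ) (W (B *ᵥ y - (1 / 2 : ℝ) • hv B h + (j : ℝ) • B *ᵥ b)) * s j)]
    · refine w3.trans ?_
      rw [show (2 : ℝ) ^ N * (2 ^ N * A * A) * C1 = (2 ^ N * 2 ^ N * C1) * A ^ 2 by ring]
      gcongr
      have : 0 ≤ 300 * R ^ 3 * (N + 1) := by positivity
      linarith
    · intro j hj
      rw [hs' j hj]
      unfold wwf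
      rw [Matrix.mulVec_add, Matrix.mulVec_smul, add_right_comm, add_sub_right_comm]
  · have hfar : ∀ j ≤ N, ‖wwf B W h (y + (j : ℝ) • b) *
        Ef B c h (L / X) M θ r (y + (j : ℝ) • b)‖ ≤ A ^ 2 * (N.factorial / ρ ^ N) := by
      intro j hj
      have hj' : (j : ℝ) ≤ N := by exact_mod_cast hj
      have hjj : (0 : ℝ) ≤ j := Nat.cast_nonneg j
      have hρ5 : 12 * R * (j + 1) ≤ ρ := by
        have : R * (j + 1) ≤ R ^ 3 * (N + 1) := by gcongr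
        have : 0 ≤ R ^ 3 * (N + 1) := by positivity
        linarith
      rw [norm_mul, box_Ef_norm]
      refine mul_le_mul (box_ww_le hW hR hX _) ?_ (gaus_pos _ _ _ _ _).le hA2
      refine (gaus_le_of (d := ρ / 2) (by linarith) Real.pi_pos.le ?_).trans
        (box_exp_le N hρ0 (box_pi_sq hρ2))
      simp only [Pi.add_apply, Pi.smul_apply, smul_eq_mul]
      simp only [not_and_or, not_le] at hnear
      rcases hnear with k | k | k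
      · exact Or.inl (box_far hR hX hjj hρ5 hL0 hM a7 hy1 hb2 hb0 k)
      · exact Or.inr (Or.inl (box_far hR hX hjj hρ5 hL0 hM a7 hy1 hb2 hb1 k))
      · refine Or.inr (Or.inr ?_)
        have e : (y 2 + j * b 2 - r) / M = (y 2 - r) / M + j * b 2 / M := by ring
        have k2 : |j * b 2 / M| ≤ 1 := by
          rw [abs_div, abs_mul, abs_of_pos hM, abs_of_nonneg hjj, div_le_one hM]
          have : (j : ℝ) ≤ ρ := by
            have : j + 1 ≤ R * (j + 1) := le_mul_of_one_le_left (by linarith) hR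
            linarith
          calc _ ≤ ρ * (M / ρ) := by gcongr
            _ = M := by field_simp
        have k3 := abs_sub_abs_le_abs_sub ((y 2 - r) / M) (-(j * b 2 / M))
        rw [sub_neg_eq_add, abs_neg] at k3
        rw [e]; linarith
    refine (box_fd_triv hfar).trans ?_
    rw [show (2 : ℝ) ^ N * (A ^ 2 * (N.factorial / ρ ^ N)) =
      (2 ^ N * N.factorial) * A ^ 2 / ρ ^ N by ring]
    gcongr
    have : 0 ≤ 300 * R ^ 3 * (N + 1) := by positivity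
    linarith

end Pool.Agent.CubH
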