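import Pool.Agent.Lib.MP_d79f69_nt.Iface

/-!
Weyl differencing in a rectangle and the trivial bound.
-/

open Matrix MeasureTheory

namespace Pool.Agent.CubH

/-- the integer points of the cube of radius `2 T` -/
noncomputable def coreBox (x : V3) (T : ℝ) : Finset Z3 :=
  Fintype.piFinset fun i => Finset.Icc ⌈x i - 2 * T⌉ ⌊x i + 2 * T⌋

theorem core_mem_box {x : V3} {T : ℝ} {n : Z3} (h : ∀ i, |n i - x i| ≤ 2 * T) :
    n ∈ coreBox x T := by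
  unfold coreBox
  rw [Fintype.mem_piFinset]
  intro i
  have := abs_le.mp (h i)
  rw [Finset.mem_Icc, Int.ceil_le, Int.le_floor]
  constructor <;> linarith [this.1, this.2]

theorem core_card_box (x : V3) {T : ℝ} (hT : 1 ≤ T) : ((coreBox x T).card : ℝ) ≤ 125 * T ^ 3 := by
  have h : ∀ i, ((Finset.Icc ⌈x i - 2 * T⌉ ⌊x i + 2 * T⌋).card : ℝ) ≤ 5 * T := by
    intro i
    rw [Int.card_Icc]
    have h1 := Int.floor_le (x i + 2 * T)
    have h2 := Int.le_ceil (x i - 2 * T)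
    rcases le_total (⌊x i + 2 * T⌋ + 1 - ⌈x i - 2 * T⌉) 0 with h0 | h0
    · rw [Int.toNat_of_nonpos h0]; simp; linarith
    · have : (((⌊x i + 2 * T⌋ + 1 - ⌈x i - 2 * T⌉).toNat : ℤ) : ℝ) =
          ((⌊x i + 2 * T⌋ + 1 - ⌈x i - 2 * T⌉ : ℤ) : ℝ) := by rw [Int.toNat_of_nonneg h0]
      push_cast at this
      rw [this]; linarith
  unfold coreBox
  rw [Fintype.card_piFinset]
  push_cast
  calc ∏ i, ((Finset.Icc ⌈x i - 2 * T⌉ ⌊x i + 2 * T⌋).card : ℝ) ≤ ∏ _i : Fin 3, 5 * T :=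
        Finset.prod_le_prod (fun i _ => Nat.cast_nonneg _) (fun i _ => h i)
    _ = 125 * T ^ 3 := by simp; ring

theorem core_trivial {F : Z3 → ℂ} {x : V3} {T A : ℝ} (hT : 1 ≤ T) (hA : ∀ n, ‖F n‖ ≤ A)
    (hs : ∀ n, F n ≠ 0 → ∀ i, |n i - x i| ≤ T) : ‖∑' n, F n‖ ≤ 125 * T ^ 3 * A := by
  have hA0 : 0 ≤ A := (norm_nonneg _).trans (hA 0)
  rw [tsum_eq_sum (s := coreBox x T) fun n hn => by
    by_contra hc
    exact hn (core_mem_box fun i => (hs n hc i).trans (by linarith))]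
  calc ‖∑ n ∈ coreBox x T, F n‖ ≤ ∑ n ∈ coreBox x T, ‖F n‖ := norm_sum_le _ _
    _ ≤ ∑ _n ∈ coreBox x T, A := Finset.sum_le_sum fun n _ => hA n
    _ = (coreBox x T).card * A := by simp
    _ ≤ 125 * T ^ 3 * A := mul_le_mul_of_nonneg_right (core_card_box x hT) hA0

theorem sA : SA := by
  intro F x T H0 H1 h0 h1 hT0 hT1 hs
  have h0' : (1 : ℝ) ≤ H0 := by exact_mod_cast h0
  have h1' : (1 : ℝ) ≤ H1 := by exact_mod_cast h1
  have hT : 1 ≤ T := h0'.trans hT0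
  set D : Finset (ℤ × ℤ) := Finset.Ico (0 : ℤ) H0 ×ˢ Finset.Ico (0 : ℤ) H1 with hD
  set Rc : Finset (ℤ × ℤ) := Finset.Icc (-(H0 : ℤ)) H0 ×ˢ Finset.Icc (-(H1 : ℤ)) H1 with hRc
  set Sh : ℤ × ℤ → ℂ := fun h => ∑' n : Z3, F (n + ![h.1, h.2, 0]) * (starRingEnd ℂ) (F n) with hSh
  have hDc : (D.card : ℝ) = H0 * H1 := by
    rw [hD, Finset.card_product, Int.card_Ico, Int.card_Ico]; simp
  have hsupp : ∀ d ∈ D, ∀ n ∉ coreBox x T, F (n + ![d.1, d.2, 0]) = 0 := by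
    intro d hd n hn
    by_contra hc
    apply hn
    apply core_mem_box
    intro i
    have h2 := abs_le.mp (hs _ hc i)
    rw [hD, Finset.mem_product, Finset.mem_Ico, Finset.mem_Ico] at hd
    have a1 : (0 : ℝ) ≤ d.1 := by exact_mod_cast hd.1.1
    have a2 : (d.1 : ℝ) ≤ H0 := by exact_mod_cast hd.1.2.le
    have a3 : (0 : ℝ) ≤ d.2 := by exact_mod_cast hd.2.1
    have a4 : (d.2 : ℝ) ≤ H1 := by exact_mod_cast hd.2.2.le
    rw [abs_le]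
    fin_cases i <;> simp at h2 ⊢ <;> constructor <;> linarith [h2.1, h2.2]
  have hS : ∀ d ∈ D, ∑' n, F n = ∑ n ∈ coreBox x T, F (n + ![d.1, d.2, 0]) := by
    intro d hd
    have a : ∑' n : Z3, F (n + ![d.1, d.2, 0]) = ∑ n ∈ coreBox x T, F (n + ![d.1, d.2, 0]) :=
      tsum_eq_sum (hsupp d hd)
    rw [← a]
    exact ((Equiv.addRight (![d.1, d.2, 0] : Z3)).tsum_eq F).symm
  have hP : ∀ d ∈ D, ∀ d' : ℤ × ℤ, ∑ n ∈ coreBox x T,
      F (n + ![d.1, d.2, 0]) * (starRingEnd ℂ) (F (n + ![d'.1, d'.2, 0])) = Sh (d - d') := by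
    intro d hd d'
    have a : ∑' n : Z3, F (n + ![d.1, d.2, 0]) * (starRingEnd ℂ) (F (n + ![d'.1, d'.2, 0])) =
        ∑ n ∈ coreBox x T, F (n + ![d.1, d.2, 0]) * (starRingEnd ℂ) (F (n + ![d'.1, d'.2, 0])) :=
      tsum_eq_sum (fun n hn => by rw [hsupp d hd n hn, zero_mul])
    rw [← a, hSh]
    simp only []
    rw [← (Equiv.addRight (![d'.1, d'.2, 0] : Z3)).tsum_eq
      (fun n => F (n + ![(d - d').1, (d - d').2, 0]) * (starRingEnd ℂ) (F n))]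
    refine tsum_congr fun n => ?_
    have : n + ![d.1, d.2, 0] = n + ![d'.1, d'.2, 0] + ![(d - d').1, (d - d').2, 0] := by
      rw [add_assoc]
      congr 1
      funext i
      fin_cases i <;> simp
    rw [this]
    rfl
  set G : Z3 → ℂ := fun n => ∑ d ∈ D, F (n + ![d.1, d.2, 0]) with hG
  have e1 : ((H0 * H1 : ℝ) : ℂ) * ∑' n, F n = ∑ n ∈ coreBox x T, G n := by
    rw [hG, Finset.sum_comm, ← Finset.sum_congr rfl hS, Finset.sum_const, nsmul_eq_mul, ← hDc]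
    simp
  have e2 : ((∑ n ∈ coreBox x T, ‖G n‖ ^ 2 : ℝ) : ℂ) = ∑ d' ∈ D, ∑ d ∈ D, Sh (d - d') := by
    push_cast
    have : ∀ n, ((‖G n‖ : ℂ)) ^ 2 = ∑ d' ∈ D, ∑ d ∈ D,
        F (n + ![d.1, d.2, 0]) * (starRingEnd ℂ) (F (n + ![d'.1, d'.2, 0])) := by
      intro n
      rw [← Complex.mul_conj', hG]
      simp only [map_sum]
      rw [Finset.sum_mul_sum, Finset.sum_comm]
    rw [Finset.sum_congr rfl fun n _ => this n, Finset.sum_comm]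
    refine Finset.sum_congr rfl fun d' _ => ?_
    rw [Finset.sum_comm]
    exact Finset.sum_congr rfl fun d hd => hP d hd d'
  have e3 : ∀ d' ∈ D, ∑ d ∈ D, ‖Sh (d - d')‖ ≤ ∑ h ∈ Rc, ‖Sh h‖ := by
    intro d' hd'
    rw [← Finset.sum_image (s := D) (g := fun d => d - d') (f := fun h => ‖Sh h‖)
      (fun a _ b _ e => sub_left_injective e)]
    refine Finset.sum_le_sum_of_subset_of_nonneg ?_ fun _ _ _ => norm_nonneg _
    intro h hh
    obtain ⟨d, hd, rfl⟩ := Finset.mem_image.mp hh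
    rw [hD, Finset.mem_product, Finset.mem_Ico, Finset.mem_Ico] at hd hd'
    rw [hRc, Finset.mem_product, Finset.mem_Icc, Finset.mem_Icc]
    simp only [Prod.fst_sub, Prod.snd_sub]
    omega
  have e4 : ∑ n ∈ coreBox x T, ‖G n‖ ^ 2 ≤ H0 * H1 * ∑ h ∈ Rc, ‖Sh h‖ := by
    calc ∑ n ∈ coreBox x T, ‖G n‖ ^ 2 ≤ ‖((∑ n ∈ coreBox x T, ‖G n‖ ^ 2 : ℝ) : ℂ)‖ := by
          rw [Complex.norm_real]; exact le_abs_self _
      _ ≤ ∑ d' ∈ D, ∑ d ∈ D, ‖Sh (d - d')‖ := by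
          rw [e2]
          exact (norm_sum_le _ _).trans (Finset.sum_le_sum fun _ _ => norm_sum_le _ _)
      _ ≤ ∑ _d' ∈ D, ∑ h ∈ Rc, ‖Sh h‖ := Finset.sum_le_sum e3
      _ = H0 * H1 * ∑ h ∈ Rc, ‖Sh h‖ := by rw [Finset.sum_const, nsmul_eq_mul, hDc]
  have hpos : (0 : ℝ) < H0 * H1 := by positivity
  have e5 : (H0 * H1 * ‖∑' n, F n‖) ^ 2 ≤ 125 * T ^ 3 * (H0 * H1 * ∑ h ∈ Rc, ‖Sh h‖) := by
    have a : H0 * H1 * ‖∑' n, F n‖ ≤ ∑ n ∈ coreBox x T, ‖G n‖ := by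
      have := norm_sum_le (coreBox x T) G
      rw [← e1, norm_mul, Complex.norm_real, Real.norm_of_nonneg hpos.le] at this
      exact this
    calc (H0 * H1 * ‖∑' n, F n‖) ^ 2 ≤ (∑ n ∈ coreBox x T, ‖G n‖) ^ 2 :=
          pow_le_pow_left₀ (by positivity) a 2
      _ ≤ (coreBox x T).card * ∑ n ∈ coreBox x T, ‖G n‖ ^ 2 := sq_sum_le_card_mul_sum_sq
      _ ≤ 125 * T ^ 3 * (H0 * H1 * ∑ h ∈ Rc, ‖Sh h‖) :=
          mul_le_mul (core_card_box x hT) e4 (Finset.sum_nonneg fun _ _ => by positivity)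
            (by positivity)
  rw [div_mul_eq_mul_div, le_div_iff₀ hpos]
  have e6 : H0 * H1 * (‖∑' n, F n‖ ^ 2 * (H0 * H1)) ≤
      H0 * H1 * (125 * T ^ 3 * ∑ h ∈ Rc, ‖Sh h‖) := by nlinarith [e5]
  exact le_of_mul_le_mul_left e6 hpos

end Pool.Agent.CubH
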