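import Mathlib

/-!
Definitions for the Hardy theorem for unramified Hecke L-functions of totally real cubic fields.
-/

open Matrix MeasureTheory

namespace Pool.Agent.CubH

universe u

abbrev V3 := Fin 3 → ℝ
abbrev C3 := Fin 3 → ℂ
abbrev Z3 := Fin 3 → ℤ
abbrev M3 := Matrix (Fin 3) (Fin 3) ℝ

/-- `e(x) = exp(2 π i x)` -/
noncomputable def ee (x : ℝ) : ℂ := Complex.exp (2 * Real.pi * Complex.I * x)

def zr (n : Z3) : V3 := fun i => (n i : ℝ)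

def cv (x : V3) : C3 := fun i => (x i : ℂ)

/-- the phase `(x0 x1 x2)^(2/3)` -/
noncomputable def ph (x : V3) : ℝ := (x 0 * x 1 * x 2) ^ ((2 : ℝ) / 3)

/-- its holomorphic extension -/
noncomputable def phc (p : C3) : ℂ :=
  Complex.exp (2 / 3 * (Complex.log (p 0) + Complex.log (p 1) + Complex.log (p 2)))

section poly
variable {F : Type} [Field F]

def sm (u : Fin 3 → F) : F := u 0 + u 1 + u 2
def d2 (u v : Fin 3 → F) : F := u 0 * v 0 + u 1 * v 1 + u 2 * v 2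
def d3 (u v w : Fin 3 → F) : F := u 0 * v 0 * w 0 + u 1 * v 1 * w 1 + u 2 * v 2 * w 2
def t0 (u : Fin 3 → F) : F := 2 / 3 * sm u
def t1 (u v : Fin 3 → F) : F := 4 / 9 * sm u * sm v - 2 / 3 * d2 u v
def t2 (u v w : Fin 3 → F) : F :=
  8 / 27 * sm u * sm v * sm w - 4 / 9 * (sm u * d2 v w + sm v * d2 u w + sm w * d2 u v) +
    4 / 3 * d3 u v w
end poly

/-- first, second and third derivative of `ph` at `p` -/
noncomputable def G0 (p a : V3) : ℝ := ph p * t0 (a / p)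
noncomputable def G1 (p a v : V3) : ℝ := ph p * t1 (a / p) (v / p)
noncomputable def G2 (p a v w : V3) : ℝ := ph p * t2 (a / p) (v / p) (w / p)
noncomputable def G0c (p a : C3) : ℂ := phc p * t0 (a / p)
noncomputable def G1c (p a v : C3) : ℂ := phc p * t1 (a / p) (v / p)
noncomputable def G2c (p a v w : C3) : ℂ := phc p * t2 (a / p) (v / p) (w / p)

def Dr (Q : ℝ) (p : V3) : Prop := ∀ i, 1 / Q ≤ p i ∧ p i ≤ Q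
def Dc (Q : ℝ) (p : C3) : Prop := ∀ i, 1 / Q ≤ (p i).re ∧ ‖p i‖ ≤ Q

/-- weights at scale `X` with controlled finite differences -/
def Wt (N : ℕ) (R X A : ℝ) (W : V3 → ℂ) : Prop :=
  (∀ x, W x ≠ 0 → ∀ i, X / R ≤ x i ∧ x i ≤ R * X) ∧
  ∀ k ≤ N, ∀ x v : V3, N * ‖v‖ ≤ X / (16 * R) →
    ‖(fwdDiff v)^[k] W x‖ ≤ A * (‖v‖ / X) ^ k

/-- sequences with controlled finite differences -/
def Dd (N : ℕ) (A ρ : ℝ) (s : ℕ → ℂ) : Prop :=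
  ∀ k j : ℕ, k + j ≤ N → ‖(fwdDiff 1)^[k] s j‖ ≤ A / ρ ^ k

def NearI (Q : ℝ) (B : M3) : Prop := ∀ i j, |B i j - (if i = j then 1 else 0)| ≤ 1 / (64 * Q ^ 2)

def pp (B : M3) (θ : ℝ × ℝ) : V3 := B *ᵥ ![θ.1, θ.2, 1]
def hv (B : M3) (h : ℝ × ℝ) : V3 := B *ᵥ ![h.1, h.2, 0]

noncomputable def gA (B : M3) (c : ℝ) (h θ : ℝ × ℝ) : ℝ := c * G1 (pp B θ) (hv B h) (hv B (1, 0))
noncomputable def gB (B : M3) (c : ℝ) (h θ : ℝ × ℝ) : ℝ := c * G1 (pp B θ) (hv B h) (hv B (0, 1))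
noncomputable def GG (B : M3) (c : ℝ) (h θ : ℝ × ℝ) : ℝ := c * G0 (pp B θ) (hv B h)
noncomputable def kap (B : M3) (c : ℝ) (h θ : ℝ × ℝ) : ℝ :=
  c * G2 (pp B θ) (hv B h) (hv B h) (hv B h)
/-- Hessian entries of `GG` -/
noncomputable def AA (B : M3) (c : ℝ) (h θ v w : ℝ × ℝ) : ℝ :=
  c * G2 (pp B θ) (hv B h) (hv B v) (hv B w)
/-- the monotone quantity -/
noncomputable def KK (p a : V3) : ℝ :=
  (p 0 * p 1 * p 2) ^ 2 * ((a 0 / p 0 - sm (a / p) / 3) * (a 1 / p 1 - sm (a / p) / 3) *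
    (a 2 / p 2 - sm (a / p) / 3))

def Good (Q : ℝ) (h : ℝ × ℝ) : Prop := 128 * Q ^ 2 * |h.2| ≤ |h.1|

/-- resonance at the centre `(θ, r)` -/
def Res (B : M3) (c : ℝ) (h : ℝ × ℝ) (L0 M0 : ℝ) (θ : ℝ × ℝ) (r : ℝ) : Prop :=
  ∃ m : Z3, |gA B c h θ - m 0| ≤ 1 / L0 ∧ |gB B c h θ - m 1| ≤ 1 / L0 ∧
    |GG B c h θ - kap B c h θ / (24 * r ^ 2) - (m 0 * θ.1 + m 1 * θ.2 + m 2)| ≤ 1 / M0

/-- the `r`-free shadow of resonance -/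
def Th (B : M3) (c : ℝ) (h : ℝ × ℝ) (L0 δ : ℝ) (θ : ℝ × ℝ) : Prop :=
  ∃ m : Z3, |gA B c h θ - m 0| ≤ 1 / L0 ∧ |gB B c h θ - m 1| ≤ 1 / L0 ∧
    |GG B c h θ - (m 0 * θ.1 + m 1 * θ.2 + m 2)| ≤ δ

def ResSet (Q : ℝ) (B : M3) (c : ℝ) (h : ℝ × ℝ) (X L0 M0 : ℝ) : Set ((ℝ × ℝ) × ℝ) :=
  {κ | Dr Q (pp B κ.1) ∧ X / Q ≤ κ.2 ∧ κ.2 ≤ Q * X ∧ Res B c h L0 M0 κ.1 κ.2}

/-- summand of the exponential sum -/
noncomputable def FF (B : M3) (c : ℝ) (W : V3 → ℂ) (a : V3) (n : Z3) : ℂ :=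
  W (B *ᵥ (zr n + a)) * ee (c * ph (B *ᵥ (zr n + a)))

/-- gamma factor and its entire inverse -/
noncomputable def gam (ν : V3) (s : ℂ) : ℂ := ∏ j, Complex.Gammaℝ (s - Complex.I * ν j)
noncomputable def igam (ν : V3) (s : ℂ) : ℂ := ∏ j, (Complex.Gammaℝ (s - Complex.I * ν j))⁻¹

/-- lattice presentation of a Dirichlet series -/
def Sys {J A : Type u} (Nn : J → ℝ) (χ : J → ℂ) (ν : V3) (l : Fin 2 → V3) (v : ℝ)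
    (B : A → M3) (c : A → ℂ) : Prop :=
  (∀ a, |(B a).det| = 1) ∧
  ∃ (G : J → V3) (E : A × {n : Z3 // n ≠ 0} ≃ J × Bool × (Fin 2 → ℤ)),
    (∀ I j, 0 < G I j) ∧ (∀ I, G I 0 * G I 1 * G I 2 = Nn I / v) ∧
    ∀ x, (∀ j, |(B x.1 *ᵥ zr x.2.1) j| =
        G (E x).1 j * Real.exp (∑ k, ((E x).2.2 k : ℝ) * l k j)) ∧
      χ (E x).1 = c x.1 * ∏ j, (G (E x).1 j : ℂ) ^ (Complex.I * ν j)

/-- abstract Hecke data -/
structure HData (J A : Type u) [Fintype A] where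
  Nn : J → ℝ
  χ : J → ℂ
  ν : V3
  l : Fin 2 → V3
  v : ℝ
  B : A → M3
  c : A → ℂ
  c' : A → ℂ
  W : ℂ
  I0 : J
  hv : 0 < v
  hN0 : Nn I0 = 1
  hχ0 : χ I0 = 1
  hN : ∀ I, I ≠ I0 → 2 ≤ Nn I
  hχ : ∀ I, ‖χ I‖ ≤ 1
  hsum : ∀ σ : ℝ, 1 < σ → Summable (fun I => Nn I ^ (-σ))
  hν : ν 0 + ν 1 + ν 2 = 0
  hl : ∀ k, l k 0 + l k 1 + l k 2 = 0
  hld : l 0 0 * l 1 1 - l 0 1 * l 1 0 ≠ 0
  hνl : ∀ k, ∃ m : ℤ, ∑ j, ν j * l k j = 2 * Real.pi * m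
  hc0 : ∑ a, c a = 0 ∨ ∃ k, ∑ j, ν j * l k j ≠ 0
  hW : ‖W‖ = 1
  hcc : ∀ a, c a = W * c' a
  sys : Sys Nn χ ν l v B c
  sys' : Sys Nn (fun I => (starRingEnd ℂ) (χ I)) (-ν) l v (fun a => (B a)⁻¹ᵀ) c'

/-- the Dirichlet series -/
noncomputable def DS {J : Type u} (Nn : J → ℝ) (χ : J → ℂ) (s : ℂ) : ℂ :=
  ∑' I, χ I * (Nn I : ℂ) ^ (-s)

/-- the twisted sum -/
noncomputable def TS {J : Type u} (Nn : J → ℝ) (χ : J → ℂ) (k0 ε : ℝ) : ℂ :=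
  ∑' I, χ I * ((Nn I ^ (-(1 : ℝ) / 6) : ℝ) : ℂ) *
    Complex.exp (-(k0 * Complex.exp (Complex.I * (Real.pi / 2 - ε)) * ((Nn I ^ ((2 : ℝ) / 3) : ℝ) : ℂ)))

/-- theta series of the lattice `B Z^3` -/
noncomputable def th (B : M3) (t : V3) : ℝ :=
  ∑' n : Z3, Real.exp (-Real.pi * ∑ j, t j * (B *ᵥ zr n) j ^ 2)

noncomputable def tt (l : Fin 2 → V3) (x : ℝ) (a : ℝ × ℝ) : V3 :=
  fun j => x ^ ((1 : ℝ) / 3) * Real.exp (2 * (a.1 * l 0 j + a.2 * l 1 j))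

/-- Hecke's averaged theta function -/
noncomputable def ff {A : Type u} [Fintype A] (B : A → M3) (c : A → ℂ) (ν : V3) (l : Fin 2 → V3)
    (x : ℝ) : ℂ :=
  ∑ a, c a * ∫ z in Set.Ioc (-1 / 2 : ℝ) (1 / 2) ×ˢ Set.Ioc (-1 / 2 : ℝ) (1 / 2),
    ((th (B a) (tt l x z) - 1 : ℝ) : ℂ) *
      Complex.exp (-(Complex.I * ((z.1 * ∑ j, ν j * l 0 j + z.2 * ∑ j, ν j * l 1 j : ℝ) : ℂ)))

/-- polynomial growth to the right of the critical line -/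
def Poly (L : ℂ → ℂ) : Prop :=
  ∃ (C : ℝ) (k : ℕ), ∀ s : ℂ, 1 / 2 ≤ s.re → ‖L s‖ ≤ C * (1 + |s.im|) ^ k

end Pool.Agent.CubH
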