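import Pool.Agent.Lib.MP_d79f69_nt.H4Defs

/-!
Basic facts on the form: continuity, holomorphy, decay, reality, summability.
-/

open MeasureTheory Filter Topology NumberField

namespace Pool.Agent.HilH

universe u

variable {J : Type u}

/-- coefficient of a term -/
noncomputable def f0A (D : HD J) (i : J × ℤ) : ℝ :=
  D.a i.1 * Real.exp (((D.p : ℝ) - D.q) * D.l * i.2)

/-- first frequency -/
noncomputable def f0X (D : HD J) (i : J × ℤ) : ℝ := D.x i.1 * Real.exp (D.l * i.2)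

/-- second frequency -/
noncomputable def f0Y (D : HD J) (i : J × ℤ) : ℝ := D.y i.1 * Real.exp (-(D.l * i.2))

/-- a term of the series -/
noncomputable def f0T (D : HD J) (i : J × ℤ) (z w : ℂ) : ℂ :=
  (f0A D i : ℂ) * ee (f0X D i * z + f0Y D i * w)

/-- the majorant -/
noncomputable def f0M (D : HD J) (δ : ℝ) (i : J × ℤ) : ℝ :=
  |f0A D i| * Real.exp (-(2 * Real.pi * (δ * (f0X D i + f0Y D i))))

theorem f0_sum (D : HD J) {z w : ℂ} (hz : 0 < z.im) (hw : 0 < w.im) :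
    HasSum (fun i => f0T D i z w) (D.f z w) := D.hsum z w hz hw

theorem f0X_pos (D : HD J) (i : J × ℤ) : 0 < f0X D i := mul_pos (D.hx _) (Real.exp_pos _)

theorem f0Y_pos (D : HD J) (i : J × ℤ) : 0 < f0Y D i := mul_pos (D.hy _) (Real.exp_pos _)

theorem f0_xy (D : HD J) (j : J) : 1 / (D.m : ℝ) ≤ D.x j * D.y j := by
  obtain ⟨n, hn⟩ := D.hint j
  have hm : (0 : ℝ) < D.m := Nat.cast_pos.2 D.hm
  have h0 : (0 : ℝ) < n := hn ▸ mul_pos (mul_pos (D.hx j) (D.hy j)) hm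
  have h1 : (1 : ℝ) ≤ n := Nat.one_le_cast.2 (Nat.cast_pos.1 h0)
  rw [div_le_iff₀ hm, hn]
  exact h1

theorem f0_add (D : HD J) (i : J × ℤ) : 1 / (D.m : ℝ) ≤ f0X D i + f0Y D i := by
  have h1 : f0X D i * f0Y D i = D.x i.1 * D.y i.1 := by
    unfold f0X f0Y
    rw [mul_mul_mul_comm, ← Real.exp_add]
    simp
  have h2 := f0_xy D i.1
  have hm : (1 : ℝ) ≤ D.m := Nat.one_le_cast.2 D.hm
  have h3 : 0 < 1 / (D.m : ℝ) := by positivity
  have h4 : 1 / (D.m : ℝ) ≤ 1 := by rw [div_le_one (by positivity)]; exact hm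
  have hX := f0X_pos D i
  have hY := f0Y_pos D i
  by_contra h
  rw [not_le] at h
  nlinarith [sq_nonneg (f0X D i - f0Y D i), mul_pos hX hY]

theorem f0_norm (D : HD J) (i : J × ℤ) (z w : ℂ) : ‖f0T D i z w‖ =
    |f0A D i| * Real.exp (-(2 * Real.pi * (f0X D i * z.im + f0Y D i * w.im))) := by
  unfold f0T ee
  rw [norm_mul, Complex.norm_real, Real.norm_eq_abs, Complex.norm_exp]
  congr 2
  simp

theorem f0_summable (D : HD J) {δ : ℝ} (hδ : 0 < δ) : Summable (f0M D δ) := by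
  have h : 0 < ((δ : ℂ) * Complex.I).im := by simpa using hδ
  refine (summable_norm_iff.2 (f0_sum D h h).summable).congr fun i => ?_
  rw [f0_norm, f0M]
  congr 3
  simp
  ring

theorem f0_le (D : HD J) (i : J × ℤ) {δ : ℝ} {z w : ℂ} (hz : δ ≤ z.im) (hw : δ ≤ w.im) :
    ‖f0T D i z w‖ ≤ f0M D δ i := by
  rw [f0_norm, f0M]
  refine mul_le_mul_of_nonneg_left (Real.exp_le_exp.2 (neg_le_neg ?_)) (abs_nonneg _)
  refine mul_le_mul_of_nonneg_left ?_ (by positivity)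
  nlinarith [mul_le_mul_of_nonneg_left hz (f0X_pos D i).le,
    mul_le_mul_of_nonneg_left hw (f0Y_pos D i).le]

theorem f0_diff (D : HD J) (i : J × ℤ) :
    Differentiable ℂ fun z : ℂ × ℂ => f0T D i z.1 z.2 := by
  unfold f0T ee
  fun_prop

theorem f0_cont (D : HD J) :
    ContinuousOn (fun z : ℂ × ℂ => D.f z.1 z.2) {z | 0 < z.1.im ∧ 0 < z.2.im} := by
  rintro z₀ ⟨h1, h2⟩
  have hδ : 0 < min z₀.1.im z₀.2.im / 2 := half_pos (lt_min h1 h2)
  set δ := min z₀.1.im z₀.2.im / 2 with hδ'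
  have ho : IsOpen {z : ℂ × ℂ | δ < z.1.im ∧ δ < z.2.im} :=
    (isOpen_lt continuous_const (Complex.continuous_im.comp continuous_fst)).and
      (isOpen_lt continuous_const (Complex.continuous_im.comp continuous_snd))
  have hc : ContinuousOn (fun z : ℂ × ℂ => ∑' i, f0T D i z.1 z.2)
      {z | δ < z.1.im ∧ δ < z.2.im} :=
    continuousOn_tsum (fun i => (f0_diff D i).continuous.continuousOn) (f0_summable D hδ)
      fun i z hz => f0_le D i hz.1.le hz.2.le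
  have hc' : ContinuousOn (fun z : ℂ × ℂ => D.f z.1 z.2) {z | δ < z.1.im ∧ δ < z.2.im} :=
    hc.congr fun z hz => (f0_sum D (hδ.trans hz.1) (hδ.trans hz.2)).tsum_eq.symm
  refine (hc'.continuousAt (ho.mem_nhds ⟨?_, ?_⟩)).continuousWithinAt
  · linarith [min_le_left z₀.1.im z₀.2.im]
  · linarith [min_le_right z₀.1.im z₀.2.im]

theorem f0_hol {ι : Type u} {T : ι → ℂ → ℂ} {F : ℂ → ℂ} (hT : ∀ i, Differentiable ℂ (T i))
    (hs : ∀ z : ℂ, 0 < z.im → HasSum (fun i => T i z) (F z))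
    (hb : ∀ δ : ℝ, 0 < δ → ∃ M : ι → ℝ, Summable M ∧ ∀ i (z : ℂ), δ ≤ z.im → ‖T i z‖ ≤ M i) :
    DifferentiableOn ℂ F {z | 0 < z.im} := by
  intro z₀ (h : 0 < z₀.im)
  obtain ⟨M, hM, hb⟩ := hb _ (half_pos h)
  have ho : IsOpen {z : ℂ | z₀.im / 2 < z.im} := isOpen_lt continuous_const (by fun_prop)
  have hd : DifferentiableOn ℂ (fun z => ∑' i, T i z) {z : ℂ | z₀.im / 2 < z.im} :=
    Complex.differentiableOn_tsum_of_summable_norm hM (fun i => (hT i).differentiableOn) ho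
      fun i z hz => hb i z (le_of_lt hz)
  have hd' : DifferentiableOn ℂ F {z : ℂ | z₀.im / 2 < z.im} :=
    hd.congr fun z hz => (hs z ((half_pos h).trans hz)).tsum_eq.symm
  exact (hd'.differentiableAt (ho.mem_nhds (half_lt_self h))).differentiableWithinAt

theorem f0_decay (D : HD J) {δ : ℝ} (hδ : 0 < δ) : ∃ C c : ℝ, 0 < c ∧ ∀ (r : ℝ) (z w : ℂ),
    1 ≤ r → δ * r ≤ z.im → δ * r ≤ w.im → ‖D.f z w‖ ≤ C * Real.exp (-c * r) := by
  have hm : (0 : ℝ) < D.m := Nat.cast_pos.2 D.hm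
  refine ⟨∑' i, f0M D (δ / 2) i, Real.pi * δ * (1 / D.m), by positivity, fun r z w hr hz hw => ?_⟩
  have h0 : 0 < δ * r := by positivity
  refine (f0_sum D (h0.trans_le hz) (h0.trans_le hw)).norm_le_of_bounded
    ((f0_summable D (half_pos hδ)).hasSum.mul_right _) fun i => (f0_le D i hz hw).trans ?_
  rw [f0M, f0M, mul_assoc |f0A D i|, ← Real.exp_add]
  refine mul_le_mul_of_nonneg_left (Real.exp_le_exp.2 ?_) (abs_nonneg _)
  have h1 := f0_add D i
  have h2 : 0 < f0X D i + f0Y D i := add_pos (f0X_pos D i) (f0Y_pos D i)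
  have h3 : 0 < Real.pi * δ := by positivity
  have h4 := mul_le_mul_of_nonneg_left (mul_le_mul_of_nonneg_left h1 (zero_le_one.trans hr)) h3.le
  have h5 := mul_le_mul_of_nonneg_left (mul_le_mul_of_nonneg_right hr h2.le) h3.le
  nlinarith

theorem f0_real (D : HD J) {u v : ℝ} (hu : 0 < u) (hv : 0 < v) :
    (D.f (u * Complex.I) (v * Complex.I)).im = 0 := by
  have h := Complex.hasSum_im (f0_sum D (z := u * Complex.I) (w := v * Complex.I)
    (by simpa using hu) (by simpa using hv))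
  have h0 : ∀ i, (f0T D i (u * Complex.I) (v * Complex.I)).im = 0 := by
    intro i
    have : 2 * Real.pi * Complex.I * (f0X D i * (u * Complex.I) + f0Y D i * (v * Complex.I)) =
        ((-(2 * Real.pi * (f0X D i * u + f0Y D i * v)) : ℝ) : ℂ) := by
      push_cast
      linear_combination (2 * Real.pi * (f0X D i * u + f0Y D i * v) : ℂ) * Complex.I_mul_I
    unfold f0T ee
    rw [this, ← Complex.ofReal_exp, ← Complex.ofReal_mul, Complex.ofReal_im]
  simp only [h0] at h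
  exact h.unique hasSum_zero

theorem f0_ds (D : HD J) {σ : ℝ} (hσ : 2 ≤ σ) :
    Summable fun j => |D.b j| * (D.x j * D.y j) ^ (-σ) := by
  have hm : (0 : ℝ) < D.m := Nat.cast_pos.2 D.hm
  refine Summable.of_nonneg_of_le (fun j => mul_nonneg (abs_nonneg _)
    (Real.rpow_nonneg (mul_pos (D.hx j) (D.hy j)).le _)) (fun j => ?_)
    (D.hN.mul_left (|D.Ca| * (1 / (D.m : ℝ)) ^ (2 - σ)))
  have hx := D.hx j
  have hy := D.hy j
  have hxy := mul_pos hx hy
  have e1 : D.x j ^ D.p * D.x j ^ (1 / 2 - (D.p : ℝ)) = D.x j ^ (1 / 2 : ℝ) := by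
    rw [← Real.rpow_natCast, ← Real.rpow_add hx]; congr 1; ring
  have e2 : D.y j ^ D.q * D.y j ^ (1 / 2 - (D.q : ℝ)) = D.y j ^ (1 / 2 : ℝ) := by
    rw [← Real.rpow_natCast, ← Real.rpow_add hy]; congr 1; ring
  have b1 : |D.b j| ≤ |D.Ca| * (D.x j * D.y j) ^ (1 / 2 : ℝ) := by
    rw [HD.b, abs_mul, abs_mul, abs_of_pos (Real.rpow_pos_of_pos hx _),
      abs_of_pos (Real.rpow_pos_of_pos hy _), Real.mul_rpow hx.le hy.le, ← e1, ← e2]
    have : |D.a j| ≤ |D.Ca| * D.x j ^ D.p * D.y j ^ D.q :=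
      (D.ha j).trans (by gcongr; exact le_abs_self _)
    calc _ ≤ |D.Ca| * D.x j ^ D.p * D.y j ^ D.q * D.x j ^ (1 / 2 - (D.p : ℝ)) *
          D.y j ^ (1 / 2 - (D.q : ℝ)) := by gcongr
      _ = _ := by ring
  have e3 : (D.x j * D.y j) ^ (1 / 2 : ℝ) * (D.x j * D.y j) ^ (-σ) =
      (D.x j * D.y j) ^ (2 - σ) * (D.x j * D.y j) ^ (-(3 / 2 : ℝ)) := by
    rw [← Real.rpow_add hxy, ← Real.rpow_add hxy]; congr 1; ring
  have b2 : (D.x j * D.y j) ^ (2 - σ) ≤ (1 / (D.m : ℝ)) ^ (2 - σ) :=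
    Real.rpow_le_rpow_of_nonpos (by positivity) (f0_xy D j) (by linarith)
  calc _ ≤ |D.Ca| * (D.x j * D.y j) ^ (1 / 2 : ℝ) * (D.x j * D.y j) ^ (-σ) := by gcongr
    _ = |D.Ca| * (D.x j * D.y j) ^ (2 - σ) * (D.x j * D.y j) ^ (-(3 / 2 : ℝ)) := by
      rw [mul_assoc, e3, ← mul_assoc]
    _ ≤ _ := by gcongr

theorem sF0 : SF0.{u} := by
  intro J D
  refine ⟨f0_cont D, fun w hw => ?_, fun z hz => ?_, fun δ hδ => f0_decay D hδ,
    fun u v hu hv => f0_real D hu hv, fun σ hσ => f0_ds D hσ⟩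
  · refine f0_hol (T := fun i z => f0T D i z w)
      (fun i => by unfold f0T ee; fun_prop)
      (fun z hz => f0_sum D hz hw) fun δ hδ => ⟨_, f0_summable D (lt_min hδ hw), fun i z hz =>
        f0_le D i ((min_le_left _ _).trans hz) (min_le_right _ _)⟩
  · refine f0_hol (T := fun i w => f0T D i z w)
      (fun i => by unfold f0T ee; fun_prop)
      (fun w hw => f0_sum D hz hw) fun δ hδ => ⟨_, f0_summable D (lt_min hδ hz), fun i w hw =>
        f0_le D i (min_le_right _ _) ((min_le_left _ _).trans hw)⟩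

end Pool.Agent.HilH
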