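import Pool.Agent.Lib.MP_d79f69_nt.H4Defs

/-!
The completed L-function as a Mellin transform: entire, bounded on strips, real on the critical
line up to a power of `I`, and Mellin inversion on the rotated rays.
-/

open MeasureTheory Filter Topology Set Asymptotics

namespace Pool.Agent.HilH

universe u

/-- continuous on the positive reals, rapidly decreasing at both ends -/
def fe_Good (f : ℝ → ℂ) : Prop :=
  ContinuousOn f (Ioi 0) ∧ (∀ A : ℝ, f =O[atTop] fun r : ℝ => r ^ A) ∧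
    ∀ A : ℝ, f =O[𝓝[>] 0] fun r : ℝ => r ^ A

theorem fe_bot {f g : ℝ → ℂ} {c : ℂ} (hg : ∀ A : ℝ, g =O[atTop] fun r : ℝ => r ^ A) (hc : c ≠ 0)
    (h : ∀ r : ℝ, 0 < r → g (1 / r) = c * f r) (A : ℝ) :
    f =O[𝓝[>] 0] fun r : ℝ => r ^ A := by
  have h1 := ((hg (-A)).comp_tendsto tendsto_inv_nhdsGT_zero).const_mul_left c⁻¹
  refine h1.congr' ?_ ?_
  · filter_upwards [self_mem_nhdsWithin] with r hr
    have h2 := h r hr
    rw [one_div] at h2
    simp only [Function.comp_apply, h2]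
    field_simp
  · filter_upwards [self_mem_nhdsWithin] with r hr
    simp only [Function.comp_apply]
    rw [Real.inv_rpow (le_of_lt hr), Real.rpow_neg (le_of_lt hr), inv_inv]

theorem fe_conv {f : ℝ → ℂ} (hf : fe_Good f) (s : ℂ) : MellinConvergent f s :=
  mellinConvergent_of_isBigO_rpow (a := s.re + 1) (b := s.re - 1)
    (hf.1.locallyIntegrableOn measurableSet_Ioi) (hf.2.1 _) (by linarith) (hf.2.2 _) (by linarith)

theorem fe_diff {f : ℝ → ℂ} (hf : fe_Good f) : Differentiable ℂ (mellin f) := fun s =>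
  mellin_differentiableAt_of_isBigO_rpow (a := s.re + 1) (b := s.re - 1)
    (hf.1.locallyIntegrableOn measurableSet_Ioi) (hf.2.1 _) (by linarith) (hf.2.2 _) (by linarith)

theorem fe_strip {f : ℝ → ℂ} (hf : ∀ s, MellinConvergent f s) (a b : ℝ) :
    ∃ C : ℝ, ∀ s : ℂ, a ≤ s.re → s.re ≤ b → ‖mellin f s‖ ≤ C := by
  refine ⟨_, fun s h1 h2 => norm_integral_le_of_norm_le ((hf a).norm.add (hf b).norm) ?_⟩
  filter_upwards [ae_restrict_mem measurableSet_Ioi] with x hx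
  simp only [Pi.add_apply, norm_smul, Complex.norm_cpow_eq_rpow_re_of_pos hx, ← add_mul,
    Complex.sub_re, Complex.ofReal_re, Complex.one_re]
  refine mul_le_mul_of_nonneg_right ?_ (norm_nonneg _)
  rcases le_total x 1 with h | h
  · exact (Real.rpow_le_rpow_of_exponent_ge hx h (by linarith)).trans
      (le_add_of_nonneg_right (Real.rpow_nonneg (le_of_lt hx) _))
  · exact (Real.rpow_le_rpow_of_exponent_le h (by linarith)).trans
      (le_add_of_nonneg_left (Real.rpow_nonneg (le_of_lt hx) _))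

theorem fe_ident {F G : ℂ → ℂ} (hF : Differentiable ℂ F) (hG : Differentiable ℂ G)
    (h : ∀ s : ℂ, 2 < s.re → F s = G s) : F = G := by
  refine AnalyticOnNhd.eq_of_eventuallyEq (z₀ := 3) (fun z _ => hF.analyticAt z)
    (fun z _ => hG.analyticAt z) ?_
  have h3 : {s : ℂ | 2 < s.re} ∈ 𝓝 (3 : ℂ) :=
    (isOpen_lt continuous_const Complex.continuous_re).mem_nhds (by
      show (2 : ℝ) < (3 : ℂ).re
      norm_num)
  filter_upwards [h3] with s hs
  exact h s hs

theorem fe_conj {f : ℝ → ℂ} (hf : ∀ r : ℝ, 0 < r → (f r).im = 0) (t : ℝ) :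
    (starRingEnd ℂ) (mellin f (t * Complex.I)) = mellin f (-(t * Complex.I)) := by
  unfold mellin
  rw [← integral_conj]
  refine setIntegral_congr_fun measurableSet_Ioi fun x hx => ?_
  have hx' : (0 : ℝ) < x := hx
  simp only [smul_eq_mul, map_mul]
  rw [Complex.conj_eq_iff_im.2 (hf x hx)]
  congr 1
  have h1 : (x : ℂ).arg ≠ Real.pi := by
    rw [Complex.arg_ofReal_of_nonneg hx'.le]
    exact Real.pi_ne_zero.symm
  have h2 := Complex.cpow_conj (x : ℂ) (t * Complex.I - 1) h1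
  rw [Complex.conj_ofReal] at h2
  rw [← h2]
  congr 1
  simp

theorem fe_int {H : ℝ → ℂ} (hH : Continuous H) {a b C₁ C₂ : ℝ} (ha : 0 < a) (hb : 0 < b)
    (h1 : ∀ t : ℝ, ‖H t‖ ≤ C₁ * Real.exp (-a * t)) (h2 : ∀ t : ℝ, ‖H t‖ ≤ C₂ * Real.exp (b * t)) :
    Integrable H := by
  rw [← integrableOn_univ, ← Iic_union_Ioi (a := (0 : ℝ))]
  refine IntegrableOn.union ?_ ?_
  · exact Integrable.mono' ((integrableOn_exp_mul_Iic hb 0).const_mul C₂)
      hH.aestronglyMeasurable (Eventually.of_forall h2)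
  · exact Integrable.mono' ((integrableOn_exp_mul_Ioi (neg_lt_zero.2 ha) 0).const_mul C₁)
      hH.aestronglyMeasurable (Eventually.of_forall h1)

theorem fe_main (F : ℝ → ℝ → ℂ) (k : ℕ) (R : ℂ → ℂ)
    (h1 : ∀ φ : ℝ, 0 < φ → φ < Real.pi → ContinuousOn (F φ) (Set.Ioi 0) ∧
      (∀ A : ℝ, F φ =O[atTop] fun r : ℝ => r ^ A) ∧
      ∀ r : ℝ, 0 < r → F (Real.pi - φ) (1 / r) = Complex.exp (2 * Complex.I * φ * k) * F φ r)
    (h2 : ∀ r : ℝ, 0 < r → (F (Real.pi / 2) r).im = 0)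
    (h3 : ∀ (φ : ℝ) (s : ℂ), 0 < φ → φ < Real.pi → 2 < s.re → mellin (F φ) (2 * s - 1) =
      Complex.exp (-(Complex.I * (φ - Real.pi / 2) * (2 * s + k - 1))) * R s) :
    ∃ Λ : ℂ → ℂ, Differentiable ℂ Λ ∧
      (∀ a b : ℝ, ∃ C : ℝ, ∀ s : ℂ, a ≤ s.re → s.re ≤ b → ‖Λ s‖ ≤ C) ∧
      (∀ s : ℂ, 2 < s.re → Λ s = R s) ∧
      (∀ t : ℝ, (Complex.I ^ k * Λ (1 / 2 + t * Complex.I)).im = 0) ∧
      ∀ θ : ℝ, 0 < θ → θ < Real.pi →
        Integrable (fun t : ℝ => Λ (1 / 2 + t * Complex.I) *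
          (Real.exp (2 * t * (Real.pi / 2 - θ)) : ℝ)) ∧
        ‖∫ t : ℝ, Λ (1 / 2 + t * Complex.I) * (Real.exp (2 * t * (Real.pi / 2 - θ)) : ℝ)‖ =
          Real.pi * ‖F θ 1‖ := by
  have hπ := Real.pi_pos
  have hG : ∀ φ : ℝ, 0 < φ → φ < Real.pi → fe_Good (F φ) := fun φ a b =>
    ⟨(h1 φ a b).1, (h1 φ a b).2.1, fe_bot (h1 (Real.pi - φ) (by linarith) (by linarith)).2.1
      (Complex.exp_ne_zero _) (h1 φ a b).2.2⟩
  have hG2 := hG (Real.pi / 2) (by linarith) (by linarith)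
  have hd : ∀ φ : ℝ, 0 < φ → φ < Real.pi →
      Differentiable ℂ fun s : ℂ => mellin (F φ) (2 * s - 1) := fun φ a b =>
    (fe_diff (hG φ a b)).comp (by fun_prop)
  have hd2 := hd (Real.pi / 2) (by linarith) (by linarith)
  obtain ⟨Λ, hΛ⟩ : ∃ Λ : ℂ → ℂ, ∀ s, Λ s = mellin (F (Real.pi / 2)) (2 * s - 1) :=
    ⟨_, fun _ => rfl⟩
  have hΛd : Differentiable ℂ Λ := by
    rw [show Λ = _ from funext hΛ]
    exact hd2
  have hΛR : ∀ s : ℂ, 2 < s.re → Λ s = R s := fun s hs => by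
    rw [hΛ, h3 _ s (by linarith) (by linarith) hs]
    simp
  have hid : ∀ φ : ℝ, 0 < φ → φ < Real.pi → ∀ s : ℂ, mellin (F φ) (2 * s - 1) =
      Complex.exp (-(Complex.I * (φ - Real.pi / 2) * (2 * s + k - 1))) * Λ s := fun φ a b =>
    congrFun (fe_ident (hd φ a b) (Differentiable.mul (by fun_prop) hΛd) fun s hs => by
      rw [h3 φ s a b hs, hΛR s hs])
  obtain ⟨H, hH⟩ : ∃ H : ℝ → ℝ → ℂ, ∀ θ t, H θ t = Λ (1 / 2 + t * Complex.I) *
      (Real.exp (2 * t * (Real.pi / 2 - θ)) : ℝ) := ⟨_, fun _ _ => rfl⟩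
  have hHc : ∀ θ, Continuous (H θ) := fun θ => by
    rw [show H θ = _ from funext (hH θ)]
    have := hΛd.continuous
    fun_prop
  have hline : ∀ θ : ℝ, 0 < θ → θ < Real.pi → ∀ y : ℝ,
      mellin (F (Real.pi - θ)) (y * Complex.I) =
        Complex.exp (((-(k * (Real.pi / 2 - θ)) : ℝ) : ℂ) * Complex.I) * H θ (y / 2) := by
    intro θ a b y
    have h4 := hid (Real.pi - θ) (by linarith) (by linarith) (1 / 2 + ((y / 2 : ℝ) : ℂ) * Complex.I)
    rw [show (2 : ℂ) * (1 / 2 + ((y / 2 : ℝ) : ℂ) * Complex.I) - 1 = y * Complex.I by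
      push_cast
      ring] at h4
    rw [h4, hH, Complex.ofReal_exp, mul_comm (Λ _), ← mul_assoc, ← Complex.exp_add]
    congr 2
    push_cast
    linear_combination (-(y * (Real.pi / 2 - θ)) : ℂ) * Complex.I_mul_I
  have hbd : ∀ θ : ℝ, 0 < θ → θ < Real.pi → ∃ C : ℝ, ∀ t : ℝ, ‖H θ t‖ ≤ C := by
    intro θ a b
    obtain ⟨C, hC⟩ := fe_strip (fe_conv (hG (Real.pi - θ) (by linarith) (by linarith))) 0 0
    refine ⟨C, fun t => ?_⟩
    have h4 := hC (((2 * t : ℝ) : ℂ) * Complex.I) (by simp) (by simp)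
    rw [hline θ a b, norm_mul, Complex.norm_exp_ofReal_mul_I, one_mul,
      show 2 * t / 2 = t by ring] at h4
    exact h4
  have hsh : ∀ θ θ' t : ℝ, ‖H θ t‖ = ‖H θ' t‖ * Real.exp (2 * (θ' - θ) * t) := by
    intro θ θ' t
    rw [hH, hH, norm_mul, norm_mul, Complex.norm_real, Complex.norm_real, Real.norm_eq_abs,
      Real.norm_eq_abs, abs_of_pos (Real.exp_pos _), abs_of_pos (Real.exp_pos _),
      mul_assoc ‖Λ _‖, ← Real.exp_add]
    congr 2
    ring
  have hint : ∀ θ : ℝ, 0 < θ → θ < Real.pi → Integrable (H θ) := by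
    intro θ a b
    obtain ⟨C₁, hC₁⟩ := hbd (θ / 2) (by linarith) (by linarith)
    obtain ⟨C₂, hC₂⟩ := hbd ((θ + Real.pi) / 2) (by linarith) (by linarith)
    refine fe_int (hHc θ) a (sub_pos.2 b) (C₁ := C₁) (C₂ := C₂) (fun t => ?_) (fun t => ?_)
    · rw [hsh θ (θ / 2), show 2 * (θ / 2 - θ) * t = -θ * t by ring]
      exact mul_le_mul_of_nonneg_right (hC₁ t) (Real.exp_pos _).le
    · rw [hsh θ ((θ + Real.pi) / 2),
        show 2 * ((θ + Real.pi) / 2 - θ) * t = (Real.pi - θ) * t by ring]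
      exact mul_le_mul_of_nonneg_right (hC₂ t) (Real.exp_pos _).le
  refine ⟨Λ, hΛd, fun a b => ?_, hΛR, fun t => ?_, fun θ a b => ?_⟩
  · obtain ⟨C, hC⟩ := fe_strip (fe_conv hG2) (2 * a - 1) (2 * b - 1)
    refine ⟨C, fun s h4 h5 => ?_⟩
    rw [hΛ]
    exact hC _ (by simp; linarith) (by simp; linarith)
  · rw [hΛ, show (2 : ℂ) * (1 / 2 + (t : ℂ) * Complex.I) - 1 = ((2 * t : ℝ) : ℂ) * Complex.I by
      push_cast
      ring, ← Complex.conj_eq_iff_im, map_mul, fe_conj h2, ← mellin_comp_inv]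
    have h4 : mellin (fun r : ℝ => F (Real.pi / 2) r⁻¹) (((2 * t : ℝ) : ℂ) * Complex.I) =
        (-1) ^ k * mellin (F (Real.pi / 2)) (((2 * t : ℝ) : ℂ) * Complex.I) := by
      rw [← smul_eq_mul ((-1) ^ k : ℂ), ← mellin_const_smul]
      refine setIntegral_congr_fun measurableSet_Ioi fun r hr => ?_
      have h5 := (h1 (Real.pi / 2) (by linarith) (by linarith)).2.2 r hr
      rw [show Real.pi - Real.pi / 2 = Real.pi / 2 by ring, one_div,
        show 2 * Complex.I * ((Real.pi / 2 : ℝ) : ℂ) * k = k * (Real.pi * Complex.I) by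
          push_cast
          ring, Complex.exp_nat_mul, Complex.exp_pi_mul_I] at h5
      simp only [h5, smul_eq_mul]
    rw [h4, map_pow, Complex.conj_I, ← mul_assoc, ← mul_pow]
    simp
  · rw [show (fun t : ℝ => Λ (1 / 2 + t * Complex.I) *
      (Real.exp (2 * t * (Real.pi / 2 - θ)) : ℝ)) = H θ from (funext (hH θ)).symm]
    refine ⟨hint θ a b, ?_⟩
    have hG3 := hG (Real.pi - θ) (by linarith) (by linarith)
    have h4 := mellinInv_mellin_eq 0 (F (Real.pi - θ)) one_pos (fe_conv hG3 _) (by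
      unfold Complex.VerticalIntegrable
      simp only [Complex.ofReal_zero, zero_add, hline θ a b]
      exact ((hint θ a b).comp_div two_ne_zero).const_mul _)
      (hG3.1.continuousAt (Ioi_mem_nhds one_pos))
    unfold mellinInv at h4
    simp only [Complex.ofReal_zero, zero_add, hline θ a b, Complex.ofReal_one, Complex.one_cpow,
      one_smul] at h4
    rw [integral_const_mul, Measure.integral_comp_div (H θ) 2] at h4
    have h5 := (h1 θ a b).2.2 1 one_pos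
    rw [div_one] at h5
    have h6 := congrArg norm (h4.trans h5)
    rw [show 2 * Complex.I * (θ : ℂ) * k = ((2 * θ * k : ℝ) : ℂ) * Complex.I by
      push_cast
      ring, norm_smul, norm_mul, norm_mul, Complex.norm_exp_ofReal_mul_I,
      Complex.norm_exp_ofReal_mul_I, norm_smul, Real.norm_eq_abs, Real.norm_eq_abs, abs_abs,
      abs_of_pos (by positivity), abs_of_pos (by positivity)] at h6
    rw [one_mul, one_mul] at h6
    rw [← h6]
    field_simp

theorem sFE (h1 : SG1.{u}) (h2 : SUnf.{u}) : SFE.{u} := by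
  intro J D
  refine fe_main D.GG (D.p + D.q) (fun s => gam D.p D.q s * D.DS s) (fun φ a b => ?_)
    (h1 J D).2.2 (fun φ s a b c => ?_)
  · obtain ⟨h3, h4, h5⟩ := (h1 J D).2.1 φ a b
    refine ⟨h3, h4, fun r hr => ?_⟩
    rw [h5 r hr, Nat.cast_add]
  · rw [h2 J D φ s a b c, Nat.cast_add, mul_assoc, add_assoc]

end Pool.Agent.HilH
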