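import Pool.Agent.Lib.MP_d79f69_nt.H4Defs

/-!
The averaged form: periodicity, continuity, decay, inversion, reality.
-/

open MeasureTheory Filter Topology

namespace Pool.Agent.HilH

universe u

variable {J : Type u}

theorem g1_im (u φ : ℝ) : ((u : ℂ) * Complex.exp (Complex.I * φ)).im = u * Real.sin φ := by
  rw [mul_comm Complex.I, Complex.im_ofReal_mul, Complex.exp_ofReal_mul_I_im]

theorem g1_pos {u φ : ℝ} (hu : 0 < u) (h0 : 0 < φ) (h1 : φ < Real.pi) :
    0 < ((u : ℂ) * Complex.exp (Complex.I * φ)).im := by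
  rw [g1_im]
  exact mul_pos hu (Real.sin_pos_of_pos_of_lt_pi h0 h1)

theorem g1_per (D : HD J) {φ r : ℝ} (h0 : 0 < φ) (h1 : φ < Real.pi) (hr : 0 < r) :
    Function.Periodic (D.g φ r) D.l := by
  intro x
  have h := D.hU _ _ (g1_pos (mul_pos hr (Real.exp_pos x)) h0 h1)
    (g1_pos (mul_pos hr (Real.exp_pos (-x))) h0 h1)
  have e1 : ((r * Real.exp (x + D.l) : ℝ) : ℂ) * Complex.exp (Complex.I * φ) =
      Real.exp D.l * (((r * Real.exp x : ℝ) : ℂ) * Complex.exp (Complex.I * φ)) := by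
    rw [Real.exp_add, ← mul_assoc (Real.exp D.l : ℂ), ← Complex.ofReal_mul]
    congr 2
    ring
  have e2 : ((r * Real.exp (-(x + D.l)) : ℝ) : ℂ) * Complex.exp (Complex.I * φ) =
      Real.exp (-D.l) * (((r * Real.exp (-x) : ℝ) : ℂ) * Complex.exp (Complex.I * φ)) := by
    rw [neg_add, Real.exp_add, ← mul_assoc (Real.exp (-D.l) : ℂ), ← Complex.ofReal_mul]
    congr 2
    ring
  have e3 : (r * Real.exp (x + D.l)) ^ D.p * (r * Real.exp (-(x + D.l))) ^ D.q =
      Real.exp (((D.p : ℝ) - D.q) * D.l) * ((r * Real.exp x) ^ D.p * (r * Real.exp (-x)) ^ D.q) := by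
    rw [neg_add, Real.exp_add, Real.exp_add, show ((D.p : ℝ) - D.q) * D.l =
      D.p * D.l + D.q * -D.l by ring, Real.exp_add, Real.exp_nat_mul, Real.exp_nat_mul]
    ring
  unfold HD.g
  rw [e1, e2, e3, ← h, Complex.ofReal_mul (Real.exp _), mul_assoc (D.f _ _)]

theorem g1_cont (h : SF0.{u}) (D : HD J) {φ : ℝ} (h0 : 0 < φ) (h1 : φ < Real.pi) :
    ContinuousOn (D.GG φ) (Set.Ioi 0) := by
  have hc : Continuous (Function.uncurry fun ρ x : ℝ => D.g φ (Real.exp ρ) x) := by
    unfold HD.g Function.uncurry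
    refine Continuous.mul ?_ (by fun_prop)
    exact (h J D).1.comp_continuous (f := fun q : ℝ × ℝ =>
      (((Real.exp q.1 * Real.exp q.2 : ℝ) : ℂ) * Complex.exp (Complex.I * φ),
        ((Real.exp q.1 * Real.exp (-q.2) : ℝ) : ℂ) * Complex.exp (Complex.I * φ))) (by fun_prop)
      fun q => ⟨g1_pos (by positivity) h0 h1, g1_pos (by positivity) h0 h1⟩
  have h2 := intervalIntegral.continuous_parametric_intervalIntegral_of_continuous'
    (μ := volume) hc 0 D.l
  refine (h2.comp_continuousOn (Real.continuousOn_log.mono fun r hr => ne_of_gt hr)).congr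
    fun r hr => ?_
  show D.GG φ r = ∫ x in (0 : ℝ)..D.l, D.g φ (Real.exp (Real.log r)) x
  rw [Real.exp_log hr]
  rfl

theorem g1_decay (h : SF0.{u}) (D : HD J) {φ : ℝ} (h0 : 0 < φ) (h1 : φ < Real.pi) (A : ℝ) :
    D.GG φ =O[atTop] fun r : ℝ => r ^ A := by
  have hs := Real.sin_pos_of_pos_of_lt_pi h0 h1
  have hl := D.hl
  obtain ⟨C, c, hc, H⟩ := (h J D).2.2.2.1 (Real.sin φ * Real.exp (-D.l)) (by positivity)
  have h2 : D.GG φ =O[atTop] fun r : ℝ => Real.exp (-c * r) * r ^ ((D.p + D.q : ℕ) : ℝ) := by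
    refine Asymptotics.IsBigO.of_bound (|C| * Real.exp D.l ^ D.p * |D.l - 0|) ?_
    filter_upwards [eventually_ge_atTop 1] with r hr
    have hr0 : 0 < r := by linarith
    refine (intervalIntegral.norm_integral_le_of_norm_le_const
      (C := |C| * Real.exp D.l ^ D.p * (Real.exp (-c * r) * r ^ (D.p + D.q))) fun x hx => ?_).trans
      (le_of_eq ?_)
    · rw [Set.uIoc_of_le hl.le] at hx
      have a1 : Real.exp (-D.l) ≤ Real.exp x := Real.exp_le_exp.2 (by linarith [hx.1])
      have a2 : Real.exp (-D.l) ≤ Real.exp (-x) := Real.exp_le_exp.2 (by linarith [hx.2])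
      have a3 : Real.exp x ≤ Real.exp D.l := Real.exp_le_exp.2 hx.2
      have a4 : Real.exp (-x) ≤ 1 := Real.exp_le_one_iff.2 (by linarith [hx.1])
      have b : ∀ {v : ℝ}, Real.exp (-D.l) ≤ v → Real.sin φ * Real.exp (-D.l) * r ≤
          (((r * v : ℝ) : ℂ) * Complex.exp (Complex.I * φ)).im := fun {v} hv => by
        rw [g1_im]
        nlinarith [mul_le_mul_of_nonneg_left hv (mul_pos hr0 hs).le]
      have h3 := (H r _ _ hr (b a1) (b a2)).trans
        (mul_le_mul_of_nonneg_right (le_abs_self C) (Real.exp_pos _).le)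
      have h4 : (r * Real.exp x) ^ D.p * (r * Real.exp (-x)) ^ D.q ≤
          (r * Real.exp D.l) ^ D.p * (r * 1) ^ D.q := by gcongr
      unfold HD.g
      rw [norm_mul, Complex.norm_real, Real.norm_of_nonneg (by positivity)]
      refine (mul_le_mul h3 h4 (by positivity) (by positivity)).trans (le_of_eq ?_)
      ring
    · rw [Real.norm_of_nonneg (by positivity), Real.rpow_natCast]
      ring
  refine h2.trans (((isLittleO_exp_neg_mul_rpow_atTop hc (A - (D.p + D.q : ℕ))).isBigO.mul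
    (Asymptotics.isBigO_refl _ _)).trans (EventuallyEq.isBigO ?_))
  filter_upwards [eventually_gt_atTop 0] with r hr
  rw [← Real.rpow_add hr, sub_add_cancel]

theorem g1_neg_inv {u v φ : ℝ} (h : u * v = 1) :
    (v : ℂ) * Complex.exp (Complex.I * (Real.pi - φ : ℝ)) =
      -1 / ((u : ℂ) * Complex.exp (Complex.I * φ)) := by
  have h1 : (u : ℂ) * v = 1 := by exact_mod_cast h
  have h2 : Complex.exp (Complex.I * (Real.pi - φ : ℝ)) * Complex.exp (Complex.I * φ) = -1 := by
    rw [← Complex.exp_add, ← Complex.exp_pi_mul_I]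
    congr 1
    push_cast
    ring
  rw [eq_div_iff (mul_ne_zero (left_ne_zero_of_mul_eq_one h1) (Complex.exp_ne_zero _))]
  linear_combination (u * v : ℂ) * h2 - h1

theorem g1_inv (D : HD J) {φ r : ℝ} (h0 : 0 < φ) (h1 : φ < Real.pi) (hr : 0 < r) (x : ℝ) :
    D.g (Real.pi - φ) (1 / r) x =
      Complex.exp (2 * Complex.I * φ * (D.p + D.q)) * D.g φ r (-x) := by
  have h := D.hS _ _ (g1_pos (mul_pos hr (Real.exp_pos (-x))) h0 h1)
    (g1_pos (mul_pos hr (Real.exp_pos x)) h0 h1)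
  have a1 : r * Real.exp (-x) * (1 / r * Real.exp x) = 1 := by
    rw [Real.exp_neg]
    field_simp
  have a2 : r * Real.exp x * (1 / r * Real.exp (-x)) = 1 := by
    rw [Real.exp_neg]
    field_simp
  have e : Complex.exp (2 * Complex.I * φ * (D.p + D.q)) =
      Complex.exp (Complex.I * φ) ^ (2 * D.p) * Complex.exp (Complex.I * φ) ^ (2 * D.q) := by
    rw [← pow_add, ← Complex.exp_nat_mul]
    congr 1
    push_cast
    ring
  unfold HD.g
  rw [neg_neg, g1_neg_inv a1, g1_neg_inv a2, h, e]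
  generalize r * Real.exp (-x) = a at a1 ⊢
  generalize r * Real.exp x = b at a2 ⊢
  generalize 1 / r * Real.exp x = a' at a1 ⊢
  generalize 1 / r * Real.exp (-x) = b' at a2 ⊢
  have b1 : (a : ℂ) ^ D.p * (a' : ℂ) ^ D.p = 1 := by
    rw [← mul_pow, ← Complex.ofReal_mul, a1, Complex.ofReal_one, one_pow]
  have b2 : (b : ℂ) ^ D.q * (b' : ℂ) ^ D.q = 1 := by
    rw [← mul_pow, ← Complex.ofReal_mul, a2, Complex.ofReal_one, one_pow]
  generalize D.f _ _ = F
  generalize Complex.exp (Complex.I * φ) = E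
  push_cast
  rw [mul_pow, mul_pow, two_mul D.p, two_mul D.q, pow_add (a : ℂ), pow_add (b : ℂ)]
  generalize E ^ (D.p + D.p) = E1
  generalize E ^ (D.q + D.q) = E2
  linear_combination (a ^ D.p * E1 * b ^ D.q * E2 * F * (b ^ D.q * b' ^ D.q)) * b1 +
    (a ^ D.p * E1 * b ^ D.q * E2 * F) * b2

theorem sG1 (h : SF0.{u}) : SG1.{u} := by
  refine fun J D => ⟨fun φ r h0 h1 hr => g1_per D h0 h1 hr,
    fun φ h0 h1 => ⟨g1_cont h D h0 h1, g1_decay h D h0 h1, fun r hr => ?_⟩, fun r hr => ?_⟩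
  · unfold HD.GG
    simp only [g1_inv D h0 h1 hr]
    rw [intervalIntegral.integral_const_mul, intervalIntegral.integral_comp_neg]
    have := (g1_per D h0 h1 hr).intervalIntegral_add_eq (-D.l) 0
    rw [neg_add_cancel, zero_add] at this
    rw [neg_zero, this]
  · have e : Complex.exp (Complex.I * (Real.pi / 2 : ℝ)) = Complex.I := by
      rw [mul_comm]
      push_cast
      exact Complex.exp_pi_div_two_mul_I
    have h2 : ∀ x, D.g (Real.pi / 2) r x = ((D.g (Real.pi / 2) r x).re : ℂ) := fun x => by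
      refine (Complex.conj_eq_iff_re.1 (Complex.conj_eq_iff_im.2 ?_)).symm
      unfold HD.g
      rw [e, Complex.im_mul_ofReal, (h J D).2.2.2.2.1 _ _ (by positivity) (by positivity), zero_mul]
    unfold HD.GG
    rw [intervalIntegral.integral_congr fun x _ => h2 x, intervalIntegral.integral_ofReal,
      Complex.ofReal_im]

end Pool.Agent.HilH
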