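import Pool.Agent.Lib.MP_d79f69_nt.H4Defs

/-!
Howe-Moore for a representation with an invariant Hilbertian seminorm.
-/

open MeasureTheory Filter Topology

namespace Pool.Agent.HilH

/-- the statement for a norm preserving map with dense range into a Hilbert space -/
theorem hmb_dense (h : SHM0) (B K : Type) [AddCommGroup B] [Module ℂ B] [NormedAddCommGroup K]
    [InnerProductSpace ℂ K] [CompleteSpace K] (e : B →ₗ[ℂ] K) (hd : DenseRange e)
    (π : G →* Module.End ℂ B) (hn : ∀ g v, ‖e (π g v)‖ = ‖e v‖)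
    (hc : ∀ v, Tendsto (fun g => e (π g v)) (𝓝 1) (𝓝 (e v)))
    (Φ : B) (κ : G) (c : ℂ) (hc1 : c ≠ 1) (hΦ : π κ Φ = c • Φ)
    (l : B →ₗ[ℂ] ℂ) (C : ℝ) (hl : ∀ v, ‖l v‖ ≤ C * ‖e v‖) :
    Tendsto (fun t => l (π (Am t) Φ)) atBot (𝓝 0) := by
  let T : G → (K →L[ℂ] K) := fun g => (e ∘ₗ (π g : B →ₗ[ℂ] B)).extendOfNorm e
  have hT : ∀ g v, T g (e v) = e (π g v) := fun g v =>
    LinearMap.extendOfNorm_eq hd ⟨1, fun x => by simp [hn]⟩ v
  have hext : ∀ S S' : K →L[ℂ] K, (∀ v, S (e v) = S' (e v)) → S = S' := by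
    intro S S' hS
    ext x
    exact hd.induction_on x (isClosed_eq S.continuous S'.continuous) hS
  let P : G →* (K →L[ℂ] K) :=
    { toFun := T
      map_one' := hext _ _ fun v => by simp [hT]
      map_mul' := fun a b => hext _ _ fun v => by simp [hT] }
  have hP : ∀ g v, P g (e v) = e (π g v) := hT
  have hiso : ∀ g x, ‖P g x‖ = ‖x‖ := by
    intro g x
    refine hd.induction_on x (isClosed_eq (by fun_prop) (by fun_prop)) fun v => ?_
    rw [hP, hn]
  have hcont : ∀ x, Tendsto (fun g => P g x) (𝓝 1) (𝓝 x) := by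
    intro x
    rw [Metric.tendsto_nhds]
    intro ε hε
    obtain ⟨v, hv⟩ := hd.exists_dist_lt x (show 0 < ε / 3 by positivity)
    have h1 := Metric.tendsto_nhds.1 (hc v) (ε / 3) (by positivity)
    filter_upwards [h1] with g hg
    have h2 : dist (P g x) (P g (e v)) = dist x (e v) := by
      rw [dist_eq_norm, dist_eq_norm, ← map_sub, hiso]
    have h3 := dist_triangle4 (P g x) (P g (e v)) (e v) x
    rw [h2, hP, dist_comm (e v) x] at h3
    linarith
  let L : K →L[ℂ] ℂ := l.extendOfNorm e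
  have hL : ∀ v, L (e v) = l v := fun v => LinearMap.extendOfNorm_eq hd ⟨C, hl⟩ v
  have hk : P κ (e Φ) = c • e Φ := by rw [hP, hΦ, map_smul]
  have := h K P hiso hcont (e Φ) κ c hc1 hk ((InnerProductSpace.toDual ℂ K).symm L)
  simpa only [InnerProductSpace.toDual_symm_apply, hP, hL] using this

theorem sHM (h : SHM0) : SHM := by
  intro B H _ _ _ _ J π hn hc Φ κ c hc1 hΦ l C hl
  let e : B →ₗ[ℂ] UniformSpace.Completion (LinearMap.range J) :=
    (UniformSpace.Completion.toComplL : LinearMap.range J →L[ℂ] _).toLinearMap ∘ₗ J.rangeRestrict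
  have he : ∀ v, e v = ((J.rangeRestrict v : LinearMap.range J) :
      UniformSpace.Completion (LinearMap.range J)) := fun v => rfl
  have hne : ∀ v, ‖e v‖ = ‖J v‖ := fun v => by
    rw [he, UniformSpace.Completion.norm_coe]; rfl
  have hd : DenseRange e :=
    UniformSpace.Completion.denseRange_coe.comp J.surjective_rangeRestrict.denseRange
      (UniformSpace.Completion.continuous_coe _)
  refine hmb_dense h B _ e hd π (fun g v => by rw [hne, hne, hn]) (fun v => ?_) Φ κ c hc1 hΦ l C
    (fun v => by rw [hne]; exact hl v)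
  have := tendsto_iff_norm_sub_tendsto_zero.1 (hc v)
  rw [tendsto_iff_norm_sub_tendsto_zero]
  refine this.congr fun g => ?_
  rw [← map_sub, ← map_sub, hne]

end Pool.Agent.HilH
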