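import Pool.Agent.Lib.MP_d79f69_nt.H4Defs

/-!
The final contradiction of Hardy's argument in degree four.
-/

open MeasureTheory Filter Topology

namespace Pool.Agent.HilH

universe u

theorem ha_key {g : ℝ → ℂ} (hg : Integrable g) {ω : ℂ} (hω : ‖ω‖ = 1) {T : ℝ}
    (h : ∀ t, T < t → ‖g t‖ ≤ (ω * g t).re) :
    (∫ t in Set.Ioi T, ‖g t‖) - ∫ t in Set.Iic T, ‖g t‖ ≤ ‖∫ t, g t‖ := by
  have h1 : Integrable fun t => (ω * g t).re := (hg.const_mul ω).re
  have h2 : ∫ t, (ω * g t).re ≤ ‖∫ t, g t‖ := by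
    have h3 : ∫ t, (ω * g t).re = (∫ t, ω * g t).re := integral_re (hg.const_mul ω)
    rw [h3, integral_const_mul]
    refine (Complex.re_le_norm _).trans (le_of_eq ?_)
    rw [norm_mul, hω, one_mul]
  rw [← intervalIntegral.integral_Iic_add_Ioi (b := T) h1.integrableOn h1.integrableOn] at h2
  have h3 : (∫ t in Set.Ioi T, ‖g t‖) ≤ ∫ t in Set.Ioi T, (ω * g t).re :=
    setIntegral_mono_on hg.norm.integrableOn h1.integrableOn measurableSet_Ioi h
  have h4 : -∫ t in Set.Iic T, ‖g t‖ ≤ ∫ t in Set.Iic T, (ω * g t).re := by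
    rw [← integral_neg]
    refine setIntegral_mono_on hg.norm.neg.integrableOn h1.integrableOn measurableSet_Iic
      fun t _ => ?_
    have h5 := (abs_le.1 (Complex.abs_re_le_norm (ω * g t))).1
    rwa [norm_mul, hω, one_mul] at h5
  linarith

theorem ha_sign {f : ℝ → ℝ} (hf : Continuous f) {T : ℝ} (h : ∀ t, T < t → f t ≠ 0) :
    ∃ η : ℝ, |η| = 1 ∧ ∀ t, T < t → η * f t = |f t| := by
  by_cases hp : ∀ t, T < t → 0 ≤ f t
  · exact ⟨1, abs_one, fun t ht => by rw [one_mul, abs_of_nonneg (hp t ht)]⟩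
  push Not at hp
  obtain ⟨a, ha, ha'⟩ := hp
  refine ⟨-1, by simp, fun t ht => ?_⟩
  have h1 : f t ≤ 0 := by
    by_contra h2
    obtain ⟨x, hx, hx'⟩ := isPreconnected_Ioi.intermediate_value (a := a) (b := t) ha ht
      hf.continuousOn ⟨ha'.le, (not_le.1 h2).le⟩
    exact h x hx hx'
  rw [abs_of_nonpos h1, neg_one_mul]

/-- the inverse of the Gamma factor -/
noncomputable def haInv (p q : ℕ) (s : ℂ) : ℂ :=
  2 * ((2 * Real.pi : ℝ) : ℂ) ^ (2 * s + p + q - 1) *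
    (Complex.Gamma (s + p - 1 / 2))⁻¹ * (Complex.Gamma (s + q - 1 / 2))⁻¹

theorem ha_pi_ne : ((2 * Real.pi : ℝ) : ℂ) ≠ 0 :=
  Complex.ofReal_ne_zero.2 (by positivity)

theorem ha_inv_diff (p q : ℕ) : Differentiable ℂ (haInv p q) := by
  unfold haInv
  refine (((differentiable_const _).mul (Differentiable.const_cpow (by fun_prop)
    (Or.inl ha_pi_ne))).mul ?_).mul ?_
  · exact Complex.differentiable_one_div_Gamma.comp (f := fun s : ℂ => s + p - 1 / 2) (by fun_prop)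
  · exact Complex.differentiable_one_div_Gamma.comp (f := fun s : ℂ => s + q - 1 / 2) (by fun_prop)

theorem ha_re (p : ℕ) (s : ℂ) : (s + p - 1 / 2).re = s.re + p - 1 / 2 := by
  simp

theorem ha_im (p : ℕ) (s : ℂ) : (s + p - 1 / 2).im = s.im := by
  simp

theorem ha_gam_mul {p q : ℕ} (hp : 1 ≤ p) (hq : 1 ≤ q) {s : ℂ} (hs : 0 < s.re) :
    gam p q s * haInv p q s = 1 := by
  have hp' : (1 : ℝ) ≤ p := by exact_mod_cast hp
  have hq' : (1 : ℝ) ≤ q := by exact_mod_cast hq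
  have e1 : Complex.Gamma (s + p - 1 / 2) * (Complex.Gamma (s + p - 1 / 2))⁻¹ = 1 :=
    mul_inv_cancel₀ (Complex.Gamma_ne_zero_of_re_pos (by rw [ha_re]; linarith))
  have e2 : Complex.Gamma (s + q - 1 / 2) * (Complex.Gamma (s + q - 1 / 2))⁻¹ = 1 :=
    mul_inv_cancel₀ (Complex.Gamma_ne_zero_of_re_pos (by rw [ha_re]; linarith))
  have e3 : ((2 * Real.pi : ℝ) : ℂ) ^ (-(2 * s + p + q - 1)) *
      ((2 * Real.pi : ℝ) : ℂ) ^ (2 * s + p + q - 1) = 1 := by
    rw [← Complex.cpow_add _ _ ha_pi_ne, neg_add_cancel, Complex.cpow_zero]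
  unfold gam haInv
  generalize ((2 * Real.pi : ℝ) : ℂ) ^ (-(2 * s + p + q - 1)) = A at e3 ⊢
  generalize ((2 * Real.pi : ℝ) : ℂ) ^ (2 * s + p + q - 1) = A' at e3 ⊢
  generalize (Complex.Gamma (s + p - 1 / 2))⁻¹ = B' at e1 ⊢
  generalize (Complex.Gamma (s + q - 1 / 2))⁻¹ = C' at e2 ⊢
  generalize Complex.Gamma (s + p - 1 / 2) = B at e1 ⊢
  generalize Complex.Gamma (s + q - 1 / 2) = C at e2 ⊢
  linear_combination (B * B' * (C * C')) * e3 + C * C' * e1 + e2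

theorem ha_inv_le (h4 : SInv) (p q : ℕ) (U : ℝ) : ∃ C A : ℝ, 0 ≤ C ∧ ∀ s : ℂ, 1 / 2 ≤ s.re →
    s.re ≤ U → ‖haInv p q s‖ ≤ C * Real.exp (A * |s.im|) := by
  obtain ⟨C1, A1, h1⟩ := h4.1 p (U + p)
  obtain ⟨C2, A2, h2⟩ := h4.1 q (U + q)
  refine ⟨2 * (2 * Real.pi) ^ (2 * U + p + q - 1) * |C1| * |C2|, A1 + A2, by positivity,
    fun s hs hs' => ?_⟩
  have e1 := h1 (s + p - 1 / 2) (by rw [ha_re]; linarith) (by rw [ha_re]; linarith)
  have e2 := h2 (s + q - 1 / 2) (by rw [ha_re]; linarith) (by rw [ha_re]; linarith)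
  rw [ha_im] at e1 e2
  replace e1 := e1.trans (mul_le_mul_of_nonneg_right (le_abs_self C1) (Real.exp_pos _).le)
  replace e2 := e2.trans (mul_le_mul_of_nonneg_right (le_abs_self C2) (Real.exp_pos _).le)
  have e3 : ‖((2 * Real.pi : ℝ) : ℂ) ^ (2 * s + p + q - 1)‖ ≤
      (2 * Real.pi) ^ (2 * U + p + q - 1) := by
    rw [Complex.norm_cpow_eq_rpow_re_of_pos (by positivity)]
    refine Real.rpow_le_rpow_of_exponent_le (by linarith [Real.pi_gt_three]) ?_
    simp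
    linarith
  unfold haInv
  rw [norm_mul, norm_mul, norm_mul, Complex.norm_ofNat, add_mul, Real.exp_add]
  calc _ ≤ 2 * (2 * Real.pi) ^ (2 * U + p + q - 1) * (|C1| * Real.exp (A1 * |s.im|)) *
        (|C2| * Real.exp (A2 * |s.im|)) := by gcongr
    _ = _ := by ring

theorem ha_gam_ge (h4 : SInv) {p q k : ℕ} (hk : p + q = k + 1) : ∃ c U : ℝ, 0 < c ∧ 0 < U ∧
    ∀ t : ℝ, U ≤ t → c * t ^ k * Real.exp (-Real.pi * t) ≤ ‖gam p q (1 / 2 + t * Complex.I)‖ := by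
  obtain ⟨c1, U1, hc1, hU1, h1⟩ := h4.2 p
  obtain ⟨c2, U2, hc2, hU2, h2⟩ := h4.2 q
  refine ⟨1 / 2 * (2 * Real.pi) ^ (-((p : ℝ) + q)) * c1 * c2, max U1 U2, by positivity,
    lt_max_of_lt_left hU1, fun t ht => ?_⟩
  have e1 := h1 t ((le_max_left _ _).trans ht)
  have e2 := h2 t ((le_max_right _ _).trans ht)
  have ht0 : 0 < t := hU1.trans_le ((le_max_left _ _).trans ht)
  have a1 : (1 / 2 + t * Complex.I + p - 1 / 2 : ℂ) = ((p : ℝ) : ℂ) + t * Complex.I := by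
    push_cast
    ring
  have a2 : (1 / 2 + t * Complex.I + q - 1 / 2 : ℂ) = ((q : ℝ) : ℂ) + t * Complex.I := by
    push_cast
    ring
  have a3 : (-(2 * (1 / 2 + t * Complex.I) + p + q - 1) : ℂ).re = -((p : ℝ) + q) := by
    simp
    ring
  have a4 : t ^ k = t ^ ((p : ℝ) - 1 / 2) * t ^ ((q : ℝ) - 1 / 2) := by
    have : (p : ℝ) + q = k + 1 := by exact_mod_cast hk
    rw [← Real.rpow_add ht0, ← Real.rpow_natCast]
    congr 1
    linarith
  have a5 : Real.exp (-Real.pi * t) =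
      Real.exp (-Real.pi * t / 2) * Real.exp (-Real.pi * t / 2) := by
    rw [← Real.exp_add]
    congr 1
    ring
  have a6 : ‖(1 / 2 : ℂ)‖ = 1 / 2 := by simp
  unfold gam
  rw [a1, a2, norm_mul, norm_mul, norm_mul, Complex.norm_cpow_eq_rpow_re_of_pos (by positivity),
    a3, a4, a5, a6]
  calc _ = 1 / 2 * (2 * Real.pi) ^ (-((p : ℝ) + q)) *
        (c1 * t ^ ((p : ℝ) - 1 / 2) * Real.exp (-Real.pi * t / 2)) *
        (c2 * t ^ ((q : ℝ) - 1 / 2) * Real.exp (-Real.pi * t / 2)) := by ring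
    _ ≤ _ := by gcongr

/-- the first moment lower bound, or the function vanishes -/
theorem ha_low (h2 : SLow1.{u}) (h3 : SLow2) {J : Type u} (D : HD J) {L : ℂ → ℂ}
    (hsum : Summable fun j => |D.b j| * (D.x j * D.y j) ^ (-(3 : ℝ)))
    (hL : Differentiable ℂ L) (hLe : ∀ s : ℂ, 2 < s.re → L s = D.DS s)
    (hLb : ∀ U : ℝ, ∃ C A : ℝ, ∀ s : ℂ, 1 / 2 ≤ s.re → s.re ≤ U →
      ‖L s‖ ≤ C * Real.exp (A * |s.im|)) :
    (∀ s, L s = 0) ∨ ∃ c X₀ : ℝ, 0 < c ∧ ∀ X : ℝ, X₀ ≤ X →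
      c * X ≤ ∫ t in (X / 2)..(3 * X), ‖L (1 / 2 + t * Complex.I)‖ := by
  rcases h2 J D.b (fun j => D.x j * D.y j) D.m D.hm (fun j => mul_pos (D.hx j) (D.hy j)) D.hint
    hsum with h | ⟨β, N₀, U, hβ, hN, hU, h⟩
  · left
    have hA : AnalyticOnNhd ℂ L Set.univ := fun z _ => hL.analyticAt z
    have hz : L =ᶠ[𝓝 (4 : ℂ)] fun _ => 0 := by
      have : {s : ℂ | 3 < s.re} ∈ 𝓝 (4 : ℂ) :=
        (isOpen_lt continuous_const Complex.continuous_re).mem_nhds (by norm_num)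
      filter_upwards [this] with s hs
      have hs' : 3 < s.re := hs
      rw [hLe s (by linarith)]
      exact h s hs'.le
    exact congrFun (hA.eq_of_eventuallyEq (fun _ _ => analyticAt_const) hz)
  · right
    have hN' : (N₀ : ℂ) ≠ 0 := Complex.ofReal_ne_zero.2 hN.ne'
    have hβ' : 0 < ‖β‖ := norm_pos_iff.2 hβ
    obtain ⟨C, A, hC⟩ := hLb U
    obtain ⟨c, X₀, hc, hX⟩ := h3 (fun s => L s * (N₀ : ℂ) ^ s / β) U
      (C * (Real.exp (|Real.log N₀| * U) / ‖β‖)) A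
      ((hL.mul (differentiable_id.const_cpow (Or.inl hN'))).div_const β) (by linarith)
      (fun s hs hs' => by
        have e1 : N₀ ^ s.re ≤ Real.exp (|Real.log N₀| * U) := by
          rw [Real.rpow_def_of_pos hN]
          exact Real.exp_le_exp.2 (mul_le_mul (le_abs_self _) hs' (by linarith) (abs_nonneg _))
        have e2 := hC s hs hs'
        have e3 : 0 ≤ C * Real.exp (A * |s.im|) := (norm_nonneg _).trans e2
        rw [norm_div, norm_mul, Complex.norm_cpow_eq_rpow_re_of_pos hN]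
        calc _ ≤ C * Real.exp (A * |s.im|) * Real.exp (|Real.log N₀| * U) / ‖β‖ := by gcongr
          _ = _ := by ring)
      (fun s hs => by
        rw [hLe s (by linarith)]
        exact h s hs)
    have hr : 0 < N₀ ^ (1 / 2 : ℝ) / ‖β‖ := by positivity
    refine ⟨c / (N₀ ^ (1 / 2 : ℝ) / ‖β‖), X₀, by positivity, fun X hX' => ?_⟩
    have e1 := hX X hX'
    have e2 : ∀ t : ℝ, ‖L (1 / 2 + t * Complex.I) * (N₀ : ℂ) ^ (1 / 2 + t * Complex.I) / β‖ =
        ‖L (1 / 2 + t * Complex.I)‖ * (N₀ ^ (1 / 2 : ℝ) / ‖β‖) := fun t => by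
      have : (1 / 2 + t * Complex.I : ℂ).re = 1 / 2 := by simp
      rw [norm_div, norm_mul, Complex.norm_cpow_eq_rpow_re_of_pos hN, this, mul_div_assoc]
    simp only [e2] at e1
    rw [intervalIntegral.integral_mul_const] at e1
    rw [div_mul_eq_mul_div, div_le_iff₀ hr]
    exact e1

theorem sHa (h0 : SF0.{u}) (h1 : SFE.{u}) (h2 : SLow1.{u}) (h3 : SLow2) (h4 : SInv)
    (h5 : SPsiB.{u}) : SHa.{u} := by
  intro J D
  obtain ⟨Λ, hΛd, hΛb, hΛe, hΛr, hΛi⟩ := h1 J D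
  have hLd : Differentiable ℂ fun s => Λ s * haInv D.p D.q s := hΛd.mul (ha_inv_diff _ _)
  have hLe : ∀ s : ℂ, 2 < s.re → Λ s * haInv D.p D.q s = D.DS s := fun s hs => by
    rw [hΛe s hs]
    linear_combination D.DS s * ha_gam_mul D.hp D.hq (s := s) (by linarith)
  refine ⟨_, hLd, hLe, fun hfin => ?_⟩
  rcases ha_low h2 h3 D ((h0 J D).2.2.2.2.2 3 (by norm_num)) hLd hLe (fun U => by
      obtain ⟨C0, hC0⟩ := hΛb (1 / 2) U
      obtain ⟨C, A, hC, h⟩ := ha_inv_le h4 D.p D.q U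
      refine ⟨C0 * C, A, fun s hs hs' => ?_⟩
      have e1 := hC0 s hs hs'
      rw [norm_mul, mul_assoc]
      exact mul_le_mul e1 (h s hs hs') (norm_nonneg _) ((norm_nonneg _).trans e1))
    with hz | ⟨c, X₀, hc, hX⟩
  · refine Set.infinite_univ (α := ℝ) (hfin.subset fun t _ => hz _)
  obtain ⟨T1, hT1⟩ := hfin.bddAbove
  obtain ⟨k, hk⟩ : ∃ k, D.p + D.q = k + 1 := ⟨D.p + D.q - 1, by have := D.hp; omega⟩
  have hreal : ∀ t : ℝ, Complex.I ^ (D.p + D.q) * Λ (1 / 2 + t * Complex.I) =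
      ((Complex.I ^ (D.p + D.q) * Λ (1 / 2 + t * Complex.I)).re : ℂ) := fun t =>
    Complex.ext (by simp) (by rw [hΛr t, Complex.ofReal_im])
  have hIk : ‖Complex.I ^ (D.p + D.q)‖ = 1 := by rw [norm_pow, Complex.norm_I, one_pow]
  have hcont : Continuous fun t : ℝ => Λ (1 / 2 + t * Complex.I) :=
    hΛd.continuous.comp (by fun_prop)
  obtain ⟨η, hη, hsg⟩ := ha_sign
    (f := fun t : ℝ => (Complex.I ^ (D.p + D.q) * Λ (1 / 2 + t * Complex.I)).re)
    (Complex.continuous_re.comp (continuous_const.mul hcont))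
    (T := T1) fun t ht h0 => by
      have e1 := hreal t
      rw [h0, Complex.ofReal_zero, mul_eq_zero] at e1
      rcases e1 with e1 | e1
      · exact pow_ne_zero _ Complex.I_ne_zero e1
      · refine not_le.2 ht (hT1 ?_)
        rw [Set.mem_ofPred_eq, e1, zero_mul]
  obtain ⟨c1, U, hc1, hU0, hU⟩ := ha_gam_ge h4 hk
  obtain ⟨T, hT, hTb, hTc⟩ : ∃ T : ℝ, 0 ≤ T ∧ T1 ≤ T ∧ U ≤ T :=
    ⟨max 0 (max T1 U), by simp, by simp, by simp⟩
  obtain ⟨g, hg⟩ : ∃ g : ℝ → ℝ → ℂ, ∀ θ t, g θ t = Λ (1 / 2 + t * Complex.I) *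
      (Real.exp (2 * t * (Real.pi / 2 - θ)) : ℝ) := ⟨_, fun _ _ => rfl⟩
  have hI : ∀ θ : ℝ, 0 < θ → θ ≤ 1 → Integrable (g θ) ∧ ‖∫ t, g θ t‖ = Real.pi * ‖D.GG θ 1‖ :=
    fun θ e1 e2 => by
      rw [show g θ = _ from funext (hg θ)]
      exact hΛi θ e1 (by linarith [Real.pi_gt_three])
  have hn : ∀ θ t : ℝ, ‖g θ t‖ = ‖Λ (1 / 2 + t * Complex.I)‖ *
      Real.exp (2 * t * (Real.pi / 2 - θ)) := fun θ t => by
    rw [hg, norm_mul, Complex.norm_real, Real.norm_of_nonneg (Real.exp_pos _).le]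
  have hI1 := (hI 1 one_pos le_rfl).1
  obtain ⟨C2, hC2⟩ : ∃ C2 : ℝ, C2 = Real.exp (2 * T) * ∫ t, ‖g 1 t‖ := ⟨_, rfl⟩
  obtain ⟨κ, hκ⟩ : ∃ κ : ℝ, κ = c1 * Real.exp (-6) * c / 2 ^ k := ⟨_, rfl⟩
  have hκ0 : 0 < κ := by rw [hκ]; positivity
  have hlim : Tendsto (fun θ : ℝ => Real.pi * (Real.sin θ ^ (D.p + D.q) * ‖D.GG θ 1‖) +
      C2 * Real.sin θ ^ (D.p + D.q)) (𝓝[>] 0) (𝓝 0) := by
    have e1 : Tendsto (fun θ : ℝ => Real.sin θ ^ (D.p + D.q)) (𝓝[>] 0) (𝓝 0) := by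
      have e2 : Continuous fun θ : ℝ => Real.sin θ ^ (D.p + D.q) := by fun_prop
      have e3 := (e2.tendsto 0).mono_left (nhdsWithin_le_nhds (s := Set.Ioi 0))
      rwa [Real.sin_zero, hk, zero_pow (by omega), ← hk] at e3
    simpa using ((h5 J D).const_mul Real.pi).add (e1.const_mul C2)
  have hM : 0 < 2 * T + |X₀| + 1 := by positivity
  refine absurd (ge_of_tendsto (b := κ * (1 / 2) ^ (k + 1)) hlim ?_) (not_le.2 (by positivity))
  filter_upwards [Ioo_mem_nhdsGT (show (0 : ℝ) < 1 / (2 * T + |X₀| + 1) by positivity)]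
    with θ hθ
  obtain ⟨e1, e2⟩ := hθ
  obtain ⟨X, hXθ⟩ : ∃ X : ℝ, X = 1 / θ := ⟨_, rfl⟩
  have hXl : 2 * T + |X₀| + 1 < X := by
    rw [hXθ, lt_div_iff₀ e1, mul_comm, ← lt_div_iff₀ hM]
    exact e2
  have hX1 : X * θ = 1 := by rw [hXθ, one_div, inv_mul_cancel₀ e1.ne']
  have hX0 : 0 < X := by linarith
  have habs := abs_nonneg X₀
  have e3 : θ ≤ 1 := by nlinarith
  obtain ⟨hIθ, hE⟩ := hI θ e1 e3
  have key := ha_key hIθ (T := T) (ω := η * Complex.I ^ (D.p + D.q))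
    (by rw [norm_mul, hIk, Complex.norm_real, Real.norm_eq_abs, hη, mul_one]) fun t ht => by
      have e5 := hsg t (by linarith)
      have e6 := hreal t
      generalize (Complex.I ^ (D.p + D.q) * Λ (1 / 2 + t * Complex.I)).re = y at e5 e6
      have e9 : ‖Λ (1 / 2 + t * Complex.I)‖ = |y| := by
        have := congrArg norm e6
        rwa [norm_mul, hIk, one_mul, Complex.norm_real, Real.norm_eq_abs] at this
      have e10 : η * Complex.I ^ (D.p + D.q) * g θ t =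
          ((|y| * Real.exp (2 * t * (Real.pi / 2 - θ)) : ℝ) : ℂ) := by
        rw [hg, ← e5, Complex.ofReal_mul, Complex.ofReal_mul, ← e6]
        ring
      rw [e10, Complex.ofReal_re, hn, e9]
  have b2 : ∫ t in Set.Iic T, ‖g θ t‖ ≤ C2 := by
    rw [hC2, ← integral_const_mul]
    refine le_trans (setIntegral_mono_on hIθ.norm.integrableOn
      (hI1.norm.const_mul _).integrableOn measurableSet_Iic fun t ht => ?_)
      (setIntegral_le_integral (hI1.norm.const_mul _)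
        (Filter.Eventually.of_forall fun t => by positivity))
    have e4 : t ≤ T := ht
    rw [hn, hn, mul_left_comm, ← Real.exp_add]
    refine mul_le_mul_of_nonneg_left (Real.exp_le_exp.2 ?_) (by positivity)
    nlinarith
  have hle : X / 2 ≤ 3 * X := by linarith
  have b3 : κ * X ^ (k + 1) ≤ ∫ t in Set.Ioi T, ‖g θ t‖ := by
    have f1 := hX X (by linarith [le_abs_self X₀])
    have f2 : 0 ≤ c1 * (X / 2) ^ k * Real.exp (-6) := by positivity
    have f3 : κ * X ^ (k + 1) = c1 * (X / 2) ^ k * Real.exp (-6) * (c * X) := by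
      rw [hκ, div_pow]
      ring
    rw [f3]
    refine (mul_le_mul_of_nonneg_left f1 f2).trans ?_
    rw [← intervalIntegral.integral_const_mul]
    refine le_trans (intervalIntegral.integral_mono_on hle
      (Continuous.intervalIntegrable (continuous_const.mul
        (hLd.continuous.comp (by fun_prop)).norm) _ _)
      hIθ.norm.intervalIntegrable fun t ht => ?_) ?_
    · obtain ⟨t1, t2⟩ := ht
      have f4 := hU t (by linarith)
      have f5 : ‖Λ (1 / 2 + t * Complex.I)‖ = ‖Λ (1 / 2 + t * Complex.I) *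
          haInv D.p D.q (1 / 2 + t * Complex.I)‖ * ‖gam D.p D.q (1 / 2 + t * Complex.I)‖ := by
        rw [← norm_mul, mul_assoc, mul_comm (haInv _ _ _), ha_gam_mul D.hp D.hq (by simp), mul_one]
      have f6 : Real.exp (-6) ≤
          Real.exp (-Real.pi * t) * Real.exp (2 * t * (Real.pi / 2 - θ)) := by
        rw [← Real.exp_add]
        refine Real.exp_le_exp.2 ?_
        nlinarith
      have f7 : (X / 2) ^ k ≤ t ^ k := pow_le_pow_left₀ (by linarith) t1 k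
      have f8 : 0 ≤ t ^ k := (by positivity : 0 ≤ (X / 2) ^ k).trans f7
      rw [hn, f5, mul_comm (c1 * (X / 2) ^ k * Real.exp (-6)), mul_assoc _ ‖gam _ _ _‖]
      refine mul_le_mul_of_nonneg_left ?_ (norm_nonneg _)
      calc _ ≤ c1 * t ^ k *
            (Real.exp (-Real.pi * t) * Real.exp (2 * t * (Real.pi / 2 - θ))) := by gcongr
        _ = c1 * t ^ k * Real.exp (-Real.pi * t) * Real.exp (2 * t * (Real.pi / 2 - θ)) := by ring
        _ ≤ _ := mul_le_mul_of_nonneg_right f4 (Real.exp_pos _).le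
    · rw [intervalIntegral.integral_of_le hle]
      refine setIntegral_mono_set hIθ.norm.integrableOn
        (Filter.Eventually.of_forall fun t => norm_nonneg _)
        (LE.le.eventuallyLE fun t ht => ?_)
      have : X / 2 < t := ht.1
      show T < t
      linarith
  have s1 : 1 / 2 ≤ Real.sin θ * X := by
    have f1 := Real.mul_le_sin e1.le (by linarith [Real.pi_gt_three] : θ ≤ Real.pi / 2)
    have f2 : 1 / 2 ≤ 2 / Real.pi := by
      rw [le_div_iff₀ Real.pi_pos]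
      linarith [Real.pi_le_four]
    have f3 : 1 / 2 * θ ≤ Real.sin θ := (mul_le_mul_of_nonneg_right f2 e1.le).trans f1
    nlinarith
  have s0 : 0 ≤ Real.sin θ := Real.sin_nonneg_of_nonneg_of_le_pi e1.le
    (by linarith [Real.pi_gt_three])
  have s2 : (1 / 2) ^ (k + 1) ≤ Real.sin θ ^ (k + 1) * X ^ (k + 1) := by
    rw [← mul_pow]
    exact pow_le_pow_left₀ (by norm_num) s1 _
  have s3 : κ * X ^ (k + 1) ≤ Real.pi * ‖D.GG θ 1‖ + C2 := by linarith
  have s4 := mul_le_mul_of_nonneg_left s3 (pow_nonneg s0 (k + 1))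
  have s5 := mul_le_mul_of_nonneg_left s2 hκ0.le
  rw [hk]
  linarith

end Pool.Agent.HilH
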