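import Pool.Agent.Lib.MP_d79f69_nt.H4Defs

/-!
Real quadratic fields: a square root of an integer and the fundamental unit.
-/

open NumberField

namespace Pool.Agent.HilH

universe u

variable {K : Type u} [Field K] [NumberField K]

lemma nfa_bij (h2 : Module.finrank ℚ K = 2) {σ τ : K →+* ℝ} (h : σ ≠ τ) :
    Function.Bijective fun b : Bool => Complex.ofRealHom.comp (if b then σ else τ) := by
  have hne : Complex.ofRealHom.comp σ ≠ Complex.ofRealHom.comp τ := fun e =>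
    h (RingHom.ext fun x => Complex.ofReal_injective (DFunLike.congr_fun e x))
  rw [Fintype.bijective_iff_injective_and_card, Embeddings.card K ℂ, h2]
  refine ⟨fun b b' e => ?_, rfl⟩
  cases b <;> cases b'
  · rfl
  · exact absurd e.symm hne
  · exact absurd e hne
  · rfl

lemma nfa_bij' (h2 : Module.finrank ℚ K = 2) {σ τ : K →+* ℝ} (h : σ ≠ τ) :
    Function.Bijective fun b : Bool =>
      RingHom.equivRatAlgHom K ℂ (Complex.ofRealHom.comp (if b then σ else τ)) :=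
  (RingHom.equivRatAlgHom K ℂ).bijective.comp (nfa_bij h2 h)

lemma nfa_trace (h2 : Module.finrank ℚ K = 2) {σ τ : K →+* ℝ} (h : σ ≠ τ) (x : 𝓞 K) :
    ((Algebra.trace ℤ (𝓞 K) x : ℤ) : ℝ) = σ x + τ x := by
  have e := trace_eq_sum_embeddings ℂ (K := ℚ) (L := K) (x := (x : K))
  rw [← (nfa_bij' h2 h).sum_comp (fun φ : K →ₐ[ℚ] ℂ => φ x), ← Algebra.coe_trace_int] at e
  apply Complex.ofReal_injective
  simpa [RingHom.equivRatAlgHom_apply] using e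

lemma nfa_norm (h2 : Module.finrank ℚ K = 2) {σ τ : K →+* ℝ} (h : σ ≠ τ) (x : 𝓞 K) :
    ((Algebra.norm ℤ x : ℤ) : ℝ) = σ x * τ x := by
  have e := Algebra.norm_eq_prod_embeddings ℚ ℂ (x : K)
  rw [← (nfa_bij' h2 h).prod_comp (fun φ : K →ₐ[ℚ] ℂ => φ x), ← Algebra.coe_norm_int] at e
  apply Complex.ofReal_injective
  simpa [RingHom.equivRatAlgHom_apply] using e

theorem sDel : SDel.{u} := by
  intro K _ _ h2 σ τ h
  have key : ∀ x : 𝓞 K, τ x < σ x →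
      ∃ (δ : 𝓞 K) (d : ℕ), 0 < σ δ ∧ τ δ = -σ δ ∧ σ δ ^ 2 = d := by
    intro x hx
    set δ : 𝓞 K := 2 * x - (Algebra.trace ℤ (𝓞 K) x : ℤ) with hδ
    have hc : (δ : K) = 2 * (x : K) - ((Algebra.trace ℤ (𝓞 K) x : ℤ) : K) := by
      rw [hδ]
      simp [map_ofNat]
    have e1 : σ δ = σ x - τ x := by
      rw [hc, map_sub, map_mul, map_intCast, map_ofNat, nfa_trace h2 h]
      ring
    have e2 : τ δ = -σ δ := by
      rw [e1, hc, map_sub, map_mul, map_intCast, map_ofNat, nfa_trace h2 h]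
      ring
    have e3 : σ δ ^ 2 = ((-Algebra.norm ℤ δ : ℤ) : ℝ) := by
      rw [Int.cast_neg, nfa_norm h2 h, e2]
      ring
    have e4 : 0 ≤ -Algebra.norm ℤ δ := by
      have : (0 : ℝ) ≤ ((-Algebra.norm ℤ δ : ℤ) : ℝ) := e3 ▸ sq_nonneg _
      exact_mod_cast this
    obtain ⟨d, hd⟩ := Int.eq_ofNat_of_zero_le e4
    exact ⟨δ, d, by rw [e1]; linarith, e2, by rw [e3, hd, Int.cast_natCast]⟩
  have hx : ∃ x : 𝓞 K, σ x ≠ τ x := by
    by_contra hn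
    push Not at hn
    exact h (IsFractionRing.ringHom_ext (A := 𝓞 K) hn)
  obtain ⟨x, hx⟩ := hx
  rcases lt_or_gt_of_ne hx with h1 | h1
  · refine key (-x) ?_
    have hc : ((-x : 𝓞 K) : K) = -(x : K) := by simp
    rw [hc, map_neg, map_neg]
    linarith
  · exact key x h1

lemma nfa_rank (h2 : Module.finrank ℚ K = 2) {σ τ : K →+* ℝ} (h : σ ≠ τ) :
    NumberField.Units.rank K = 1 := by
  have : IsTotallyReal K := ⟨fun w => by
    obtain ⟨b, hb⟩ := (nfa_bij h2 h).2 w.embedding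
    rw [InfinitePlace.isReal_iff, ← hb, ComplexEmbedding.isReal_iff]
    ext x
    simp [ComplexEmbedding.conjugate_coe_eq]⟩
  rw [NumberField.Units.rank, InfinitePlace.card_eq_nrRealPlaces_add_nrComplexPlaces,
    IsTotallyReal.nrComplexPlaces_eq_zero, ← IsTotallyReal.finrank, h2]

omit [NumberField K] in
lemma nfa_sq (σ : K →+* ℝ) {v : (𝓞 K)ˣ} (hv : σ ((v : 𝓞 K) : K) ^ 2 = 1) : v ^ 2 = 1 := by
  apply NumberField.Units.coe_injective
  apply σ.injective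
  simpa using hv

omit [NumberField K] in
lemma nfa_tors (σ : K →+* ℝ) {v : (𝓞 K)ˣ} (hv : v ∈ NumberField.Units.torsion K) : v ^ 2 = 1 := by
  obtain ⟨k, hk, e⟩ := isOfFinOrder_iff_pow_eq_one.1 ((CommGroup.mem_torsion _).1 hv)
  have e1 : σ ((v : 𝓞 K) : K) ^ k = 1 := by
    have := congrArg (fun t : (𝓞 K)ˣ => σ ((t : 𝓞 K) : K)) e
    simpa using this
  have e2 : |σ ((v : 𝓞 K) : K)| = 1 := by
    rw [← pow_eq_one_iff_of_nonneg (abs_nonneg _) hk.ne', ← abs_pow, e1, abs_one]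
  exact nfa_sq σ (by rw [← sq_abs, e2, one_pow])

lemma nfa_unit (h2 : Module.finrank ℚ K = 2) {σ τ : K →+* ℝ} (h : σ ≠ τ) (v : (𝓞 K)ˣ) :
    σ ((v : 𝓞 K) : K) ^ 2 * τ ((v : 𝓞 K) : K) ^ 2 = 1 := by
  have hu : IsUnit (Algebra.norm ℤ (v : 𝓞 K)) := v.isUnit.map _
  rw [← mul_pow, ← nfa_norm h2 h]
  rcases Int.isUnit_iff.1 hu with e | e <;> rw [e] <;> norm_num

lemma nfa_fund (h2 : Module.finrank ℚ K = 2) {σ τ : K →+* ℝ} (h : σ ≠ τ) :
    ∃ ε : (𝓞 K)ˣ, ε ^ 2 ≠ 1 ∧ ∀ v : (𝓞 K)ˣ, ∃ n : ℤ, v ^ 2 = (ε ^ n) ^ 2 := by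
  have hr := nfa_rank h2 h
  let i₀ : Fin (NumberField.Units.rank K) := ⟨0, by omega⟩
  have hi : ∀ i, i = i₀ := fun i => Fin.ext (by have := i.2; simp only [i₀]; omega)
  have hprod : ∀ m : Fin (NumberField.Units.rank K) → ℤ,
      ∏ i, NumberField.Units.fundSystem K i ^ m i = NumberField.Units.fundSystem K i₀ ^ m i₀ :=
    fun m => Finset.prod_eq_single i₀ (fun i _ hn => absurd (hi i) hn)
      fun hn => absurd (Finset.mem_univ _) hn
  refine ⟨NumberField.Units.fundSystem K i₀, fun e => ?_, fun v => ?_⟩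
  · obtain ⟨z, -, hz⟩ := NumberField.Units.exist_unique_eq_mul_prod K 1
    have h1 := hz (1, fun _ => 2) (by
      simp only [hprod, OneMemClass.coe_one, one_mul]
      rw [← e, zpow_ofNat])
    have h0 := hz (1, fun _ => 0) (by simp)
    have h3 := congrFun (Prod.ext_iff.1 (h1.trans h0.symm)).2 i₀
    simp at h3
  · obtain ⟨z, hz, -⟩ := NumberField.Units.exist_unique_eq_mul_prod K v
    refine ⟨z.2 i₀, ?_⟩
    rw [hz, hprod, mul_pow, nfa_tors σ z.1.2, one_mul]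

theorem sUn : SUn.{u} := by
  intro K _ _ h2 σ τ h
  have key : ∀ ε : (𝓞 K)ˣ, 1 < σ ((ε : 𝓞 K) : K) ^ 2 → ∃ l : ℝ, 0 < l ∧
      σ ((ε : 𝓞 K) : K) ^ 2 = Real.exp l ∧ τ ((ε : 𝓞 K) : K) ^ 2 = Real.exp (-l) := by
    intro ε hε
    have h0 : 0 < σ ((ε : 𝓞 K) : K) ^ 2 := one_pos.trans hε
    refine ⟨_, Real.log_pos hε, (Real.exp_log h0).symm, ?_⟩
    rw [Real.exp_neg, Real.exp_log h0]
    exact eq_inv_of_mul_eq_one_right (nfa_unit h2 h ε)
  obtain ⟨ε, hε, hv⟩ := nfa_fund h2 h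
  have hne : σ ((ε : 𝓞 K) : K) ^ 2 ≠ 1 := fun e => hε (nfa_sq σ e)
  rcases lt_or_gt_of_ne hne with h1 | h1
  · have e : σ ((ε⁻¹ : (𝓞 K)ˣ) : K) ^ 2 * σ ((ε : 𝓞 K) : K) ^ 2 = 1 := by
      have := congrArg (fun t : (𝓞 K)ˣ => σ ((t : 𝓞 K) : K)) (inv_mul_cancel ε)
      simp only [Units.val_mul, map_mul, Units.val_one, map_one] at this
      rw [← mul_pow, this, one_pow]
    obtain ⟨l, a, b, c⟩ := key ε⁻¹ (by
      by_contra hn
      have h3 := not_lt.1 hn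
      nlinarith [sq_nonneg (σ ((ε⁻¹ : (𝓞 K)ˣ) : K)), sq_nonneg (σ ((ε : 𝓞 K) : K))])
    refine ⟨ε⁻¹, l, a, b, c, fun v => ?_⟩
    obtain ⟨n, hn⟩ := hv v
    exact ⟨-n, by rw [hn, inv_zpow', neg_neg]⟩
  · obtain ⟨l, a, b, c⟩ := key ε h1
    exact ⟨ε, l, a, b, c, hv⟩

end Pool.Agent.HilH
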