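import Pool.Agent.Lib.MP_d79f69_nt.H4PsiA
import Pool.Agent.Lib.MP_d79f69_nt.H4NFa

/-!
Hecke operators at a split prime, written with coset representatives in the diagonal subgroup.
-/

open NumberField

namespace Pool.Agent.HilH

universe u

theorem hk_ext {g h : G} (h00 : g 0 0 = h 0 0) (h01 : g 0 1 = h 0 1) (h10 : g 1 0 = h 1 0)
    (h11 : g 1 1 = h 1 1) : g = h := by
  ext i j
  fin_cases i <;> fin_cases j
  exacts [h00, h01, h10, h11]

theorem hk_A00 (t : ℝ) : Am t 0 0 = Real.exp (t / 2) := rfl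
theorem hk_A01 (t : ℝ) : Am t 0 1 = 0 := rfl
theorem hk_A10 (t : ℝ) : Am t 1 0 = 0 := rfl
theorem hk_A11 (t : ℝ) : Am t 1 1 = (Real.exp (t / 2))⁻¹ := Real.exp_neg _

theorem hk_Am_mul (s t : ℝ) : Am s * Am t = Am (s + t) := by
  refine hk_ext ?_ ?_ ?_ ?_ <;>
    simp only [ps_mul, hk_A00, hk_A01, hk_A10, hk_A11, add_div, Real.exp_add, mul_inv, mul_zero,
      zero_mul, add_zero, zero_add]

theorem hk_hat_Am (s : ℝ) : hat (Am s) = Am (-s) := by
  refine hk_ext ?_ rfl rfl ?_ <;>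
    simp only [hat00, hat11, hk_A00, hk_A11, neg_div, Real.exp_neg, inv_inv]

theorem hk_hat_one : hat 1 = 1 := hk_ext rfl rfl rfl rfl

theorem hk_sq {s : ℝ} (hs : 0 < s) : Real.exp (Real.log s / 2) ^ 2 = s := by
  rw [sq, ← Real.exp_add, add_halves, Real.exp_log hs]

variable {O : Type u} [CommRing O]

/-- the image of an integral matrix -/
def hkM (φ : O →+* ℝ) (a b c e : O) (h : a * e - b * c = 1) : G :=
  ⟨!![φ a, φ b; φ c, φ e], by
    rw [Matrix.det_fin_two_of, ← map_mul, ← map_mul, ← map_sub, h, map_one]⟩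

theorem hk_M00 (φ : O →+* ℝ) (a b c e : O) (h) : hkM φ a b c e h 0 0 = φ a := rfl
theorem hk_M01 (φ : O →+* ℝ) (a b c e : O) (h) : hkM φ a b c e h 0 1 = φ b := rfl
theorem hk_M10 (φ : O →+* ℝ) (a b c e : O) (h) : hkM φ a b c e h 1 0 = φ c := rfl
theorem hk_M11 (φ : O →+* ℝ) (a b c e : O) (h) : hkM φ a b c e h 1 1 = φ e := rfl

/-- modularity -/
def HkMod (σ τ : O →+* ℝ) (p : ℕ) (f : ℂ → ℂ → ℂ) : Prop :=
  ∀ α β γ δ : O, α * δ - β * γ = 1 → ∀ z w : ℂ, 0 < z.im → 0 < w.im →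
    f ((σ α * z + σ β) / (σ γ * z + σ δ)) ((τ α * w + τ β) / (τ γ * w + τ δ)) =
      (σ γ * z + σ δ) ^ (2 * p) * (τ γ * w + τ δ) ^ (2 * p) * f z w

variable {σ τ : O →+* ℝ} {p : ℕ} {f : ℂ → ℂ → ℂ}

theorem hk_inv (hM : HkMod σ τ p f) (a b c e : O) (h1 : a * e - b * c = 1) (g h : G) {z w : ℂ}
    (hz : 0 < z.im) (hw : 0 < w.im) :
    slf p p f (hkM σ a b c e h1 * g) (hkM τ a b c e h1 * h) z w = slf p p f g h z w := by
  have e1 : f (mob (hkM σ a b c e h1) (mob g z)) (mob (hkM τ a b c e h1) (mob h w)) =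
      jj (hkM σ a b c e h1) (mob g z) ^ (2 * p) * jj (hkM τ a b c e h1) (mob h w) ^ (2 * p) *
        f (mob g z) (mob h w) := hM a b c e h1 _ _ (mob_pos g hz) (mob_pos h hw)
  have n1 := jj_ne (hkM σ a b c e h1) (mob_pos g hz)
  have n2 := jj_ne (hkM τ a b c e h1) (mob_pos h hw)
  have n3 := jj_ne g hz
  have n4 := jj_ne h hw
  rw [slf, slf, mob_mul _ _ hz, mob_mul _ _ hw, jj_mul _ _ hz, jj_mul _ _ hw, e1, mul_pow, mul_pow]
  field_simp

theorem hk_conj (φ : O →+* ℝ) {π : O} (hπ : 0 < φ π) (a b c e : O) (h1 : a * e - π * b * c = 1)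
    {g : G} (h00 : g 0 0 = φ a) (h01 : g 0 1 = φ b) (h10 : g 1 0 = φ (π * c))
    (h11 : g 1 1 = φ e) :
    Am (Real.log (φ π)) * g = hkM φ a (π * b) c e h1 * Am (Real.log (φ π)) := by
  have hu := hk_sq hπ
  have h0 := (Real.exp_pos (Real.log (φ π) / 2)).ne'
  refine hk_ext ?_ ?_ ?_ ?_ <;>
    simp only [ps_mul, hk_A00, hk_A01, hk_A10, hk_A11, hk_M00, hk_M01, hk_M10, hk_M11, h00, h01,
      h10, h11, map_mul, mul_zero, zero_mul, add_zero, zero_add]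
  · ring
  · field_simp
    rw [hu, mul_comm]
  · field_simp
    rw [hu, mul_comm]
  · ring

/-- upper triangular representatives -/
noncomputable def hkN (s j : ℝ) : G := Am (-Real.log s) * Nm j

theorem hk_coset (φ : O →+* ℝ) {π : O} (hπ : 0 < φ π) (a b c e r : O) (j : ℕ)
    (h1 : a * e - b * c = 1) (hr : e - j * c = π * r)
    (h2 : r * (π * a) - (j * a - b) * -c = 1) :
    hkM φ r (j * a - b) (-c) (π * a) h2 * (Am (Real.log (φ π)) * hkM φ a b c e h1) =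
      hkN (φ π) j := by
  have hu := hk_sq hπ
  have h0 := (Real.exp_pos (Real.log (φ π) / 2)).ne'
  have a1 := congrArg φ h1
  have a2 := congrArg φ hr
  have n00 : Nm j 0 0 = 1 := rfl
  have n01 : Nm j 0 1 = j := rfl
  have n10 : Nm j 1 0 = 0 := rfl
  have n11 : Nm j 1 1 = 1 := rfl
  simp only [map_sub, map_mul, map_one, map_natCast] at a1 a2
  refine hk_ext ?_ ?_ ?_ ?_ <;>
    simp only [hkN, ps_mul, hk_A00, hk_A01, hk_A10, hk_A11, hk_M00, hk_M01, hk_M10, hk_M11, n00,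
      n01, n10, n11, map_mul, map_sub, map_neg, map_natCast, mul_zero, zero_mul, add_zero,
      zero_add, neg_div, Real.exp_neg, inv_inv, mul_one] <;> field_simp <;> rw [hu]
  · linear_combination a1 - φ a * a2
  · linear_combination j * a1 - φ b * a2
  · ring
  · linear_combination φ π * a1

theorem hk_jjN {s : ℝ} (j : ℝ) (z : ℂ) : jj (hkN s j) z = (Real.exp (Real.log s / 2) : ℝ) := by
  have n10 : Nm j 1 0 = 0 := rfl
  have n11 : Nm j 1 1 = 1 := rfl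
  simp only [jj, hkN, ps_mul, hk_A10, hk_A11, n10, n11, neg_div, Real.exp_neg, inv_inv, zero_mul,
    mul_zero, add_zero, zero_add, mul_one, Complex.ofReal_zero]

theorem hk_mobN {s : ℝ} (hs : 0 < s) (j : ℝ) (z : ℂ) : mob (hkN s j) z = (z + j) / s := by
  have n00 : Nm j 0 0 = 1 := rfl
  have n01 : Nm j 0 1 = j := rfl
  have hu : ((Real.exp (Real.log s / 2) : ℝ) : ℂ) ^ 2 = s := by exact_mod_cast hk_sq hs
  have h0 : ((Real.exp (Real.log s / 2) : ℝ) : ℂ) ≠ 0 := by exact_mod_cast (Real.exp_pos _).ne'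
  rw [mob, hk_jjN, ← hu]
  simp only [hkN, ps_mul, hk_A00, hk_A01, n00, n01, neg_div, Real.exp_neg, zero_mul, add_zero,
    mul_one, Complex.ofReal_mul, Complex.ofReal_inv]
  field_simp

theorem hk_jjA (s : ℝ) (z : ℂ) :
    jj (Am (Real.log s)) z = ((Real.exp (Real.log s / 2) : ℝ) : ℂ)⁻¹ := by
  simp only [jj, hk_A10, hk_A11, Complex.ofReal_zero, zero_mul, zero_add, Complex.ofReal_inv]

theorem hk_mobA {s : ℝ} (hs : 0 < s) (z : ℂ) : mob (Am (Real.log s)) z = s * z := by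
  have hu : ((Real.exp (Real.log s / 2) : ℝ) : ℂ) ^ 2 = s := by exact_mod_cast hk_sq hs
  rw [mob, hk_jjA, ← hu, hk_A00, hk_A01, Complex.ofReal_zero, add_zero, div_inv_eq_mul]
  ring

theorem hk_pow {s t : ℝ} (hs : 0 < s) (ht : 0 < t) {l : ℕ} (h : s * t = l) (p : ℕ) :
    ((Real.exp (Real.log s / 2) : ℝ) : ℂ) ^ (2 * p) *
      ((Real.exp (Real.log t / 2) : ℝ) : ℂ) ^ (2 * p) = (l : ℂ) ^ p := by
  have h1 : Real.exp (Real.log s / 2) ^ (2 * p) * Real.exp (Real.log t / 2) ^ (2 * p) =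
      (l : ℝ) ^ p := by rw [pow_mul, pow_mul, hk_sq hs, hk_sq ht, ← mul_pow, h]
  exact_mod_cast h1

theorem hk_rep {π π' : O} {l : ℕ} (hl : l.Prime) (h2 : l ≠ 2) (hπ : π * π' = l)
    (e1 : σ π' = τ π) (e2 : τ π' = σ π) {T : ℤ} (hT : π + π' = T) (hT' : ¬ (l : ℤ) ∣ T) (j : ℕ) :
    ∃ (a b c e r : O) (h1 : a * e - b * c = 1), e - j * c = π * r ∧
      hat (hkM σ a b c e h1) = hkM τ a b c e h1 := by
  have hp : Prime (l : ℤ) := Nat.prime_iff_prime_int.1 hl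
  obtain ⟨ε, hε, hd⟩ : ∃ ε : ℤ, ε * ε = 1 ∧ ¬ (l : ℤ) ∣ 1 + ε * j := by
    by_cases a1 : (l : ℤ) ∣ 1 + 1 * j
    · refine ⟨-1, by norm_num, fun a2 => h2 ?_⟩
      have a3 := dvd_add a1 a2
      rw [show (1 + 1 * j + (1 + -1 * j) : ℤ) = (2 : ℕ) by push_cast; ring,
        Int.natCast_dvd_natCast] at a3
      exact (Nat.prime_dvd_prime_iff_eq hl Nat.prime_two).1 a3
    · exact ⟨1, by norm_num, a1⟩
  obtain ⟨m, x, hx⟩ := (hp.coprime_iff_not_dvd (n := T * (1 + ε * j))).2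
    fun h => (hp.dvd_or_dvd h).elim hT' hd
  have b1 : (ε : O) * ε = 1 := by exact_mod_cast congrArg (Int.cast : ℤ → O) hε
  have b2 : (m : O) * l + x * (T * (1 + ε * j)) = 1 := by
    exact_mod_cast congrArg (Int.cast : ℤ → O) hx
  refine ⟨1 - (π - π') * x, ε * ((π - π') * x), -(ε * ((π - π') * x)), 1 + (π - π') * x,
    m * π' + 2 * x * (1 + ε * j), by linear_combination ((π - π') * x) ^ 2 * b1, ?_, ?_⟩
  · linear_combination -b2 - m * hπ - x * (1 + ε * j) * hT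
  · refine hk_ext ?_ ?_ ?_ ?_ <;>
      simp only [hat00, hat01, hat10, hat11, hk_M00, hk_M01, hk_M10, hk_M11, map_add, map_sub,
        map_mul, map_neg, map_one, map_intCast, e1, e2] <;> ring

theorem hk_sum (hM : HkMod σ τ p f) (hp : 1 ≤ p) {π π' : O} {l : ℕ} (hl : l.Prime) (h2 : l ≠ 2)
    (hπ : π * π' = l) (hs : 0 < σ π) (ht : 0 < τ π) (e1 : σ π' = τ π) (e2 : τ π' = σ π) {T : ℤ}
    (hT : π + π' = T) (hT' : ¬ (l : ℤ) ∣ T) {c : ℂ}
    (hc : ∀ z w : ℂ, 0 < z.im → 0 < w.im → (l : ℂ) ^ (2 * p - 1) * f (σ π * z) (τ π * w) +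
      (l : ℂ)⁻¹ * ∑ j ∈ Finset.range l, f ((z + j) / σ π) ((w + j) / τ π) = c * f z w) :
    ∃ k : ℕ → G, ∀ z w : ℂ, 0 < z.im → 0 < w.im →
      ∑ j ∈ Finset.range (l + 1), slf p p f (Am (Real.log (σ π)) * k j)
        (Am (Real.log (τ π)) * hat (k j)) z w = l * c / l ^ p * f z w := by
  have hst : σ π * τ π = l := by rw [← e1, ← map_mul, hπ, map_natCast]
  choose a b c' e r h1 hr hh using hk_rep hl h2 hπ e1 e2 hT hT'
  refine ⟨fun j => if j < l then hkM σ (a j) (b j) (c' j) (e j) (h1 j) else 1,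
    fun z w hz hw => ?_⟩
  have hl0 : (l : ℂ) ≠ 0 := by exact_mod_cast hl.ne_zero
  have s1 : ∀ j ∈ Finset.range l, slf p p f (Am (Real.log (σ π)) *
      (if j < l then hkM σ (a j) (b j) (c' j) (e j) (h1 j) else 1)) (Am (Real.log (τ π)) *
      hat (if j < l then hkM σ (a j) (b j) (c' j) (e j) (h1 j) else 1)) z w =
      f ((z + j) / σ π) ((w + j) / τ π) / l ^ p := by
    intro j hj
    have h3 : r j * (π * a j) - (j * a j - b j) * -c' j = 1 := by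
      linear_combination h1 j - a j * hr j
    rw [if_pos (Finset.mem_range.1 hj), hh j, ← hk_inv hM _ _ _ _ h3 _ _ hz hw,
      hk_coset σ hs _ _ _ _ _ j (h1 j) (hr j), hk_coset τ ht _ _ _ _ _ j (h1 j) (hr j), slf,
      hk_mobN hs, hk_mobN ht, hk_jjN, hk_jjN, hk_pow hs ht hst, Complex.ofReal_natCast]
  beta_reduce
  rw [Finset.sum_range_succ, Finset.sum_congr rfl s1, if_neg (lt_irrefl l), hk_hat_one, mul_one,
    mul_one, slf, hk_mobA hs, hk_mobA ht, hk_jjA, hk_jjA, inv_pow, inv_pow, ← mul_inv,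
    hk_pow hs ht hst, ← Finset.sum_div, div_mul_eq_mul_div, mul_assoc, ← hc z w hz hw]
  have h4 : (l : ℂ) ^ (2 * p - 1) * l = l ^ p * l ^ p := by
    rw [← pow_succ, ← pow_add]
    congr 1
    omega
  generalize f (σ π * z) (τ π * w) = F
  field_simp
  linear_combination -F * h4

theorem sHk (h2 : SDel.{u}) (h4 : SConj.{u}) : SHk.{u} := by
  intro K _ _ hK σ τ hne p hp f hM π π' l c c' hl hl2 hπ hco hs ht e1 e2 hcc hc hc'
  let σ' : 𝓞 K →+* ℝ := σ.comp (algebraMap (𝓞 K) K)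
  let τ' : 𝓞 K →+* ℝ := τ.comp (algebraMap (𝓞 K) K)
  have hM' : HkMod σ' τ' p f := hM
  have hs' : 0 < σ' π := hs
  have ht' : 0 < τ' π := ht
  have e1' : σ' π' = τ' π := e1
  have e2' : τ' π' = σ' π := e2
  have hinj : Function.Injective σ' := σ.injective.comp RingOfIntegers.coe_injective
  have hst : σ' π * τ' π = l := by rw [← e1', ← map_mul, hπ, map_natCast]
  have hT : π + π' = (Algebra.trace ℤ (𝓞 K) π : ℤ) := by
    apply hinj
    rw [map_add, map_intCast, nfa_trace hK hne, e1']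
    rfl
  have hT' : ¬ (l : ℤ) ∣ Algebra.trace ℤ (𝓞 K) π := by
    rintro ⟨m, hm⟩
    rw [hm, Int.cast_mul, Int.cast_natCast, ← hπ] at hT
    obtain ⟨v, hv⟩ := hco.isUnit_of_dvd ⟨π' * m - 1, by linear_combination hT⟩
    have a1 : σ' π ^ 2 * τ' π ^ 2 = 1 := hv ▸ nfa_unit hK hne v
    rw [← mul_pow, hst] at a1
    have a2 : l ^ 2 = 1 := by exact_mod_cast a1
    nlinarith [hl.two_le]
  obtain ⟨k, hk⟩ := hk_sum hM' hp hl hl2 hπ hs' ht' e1' e2' hT hT' hc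
  obtain ⟨k', hk'⟩ := hk_sum hM' hp hl hl2 ((mul_comm _ _).trans hπ) (e1' ▸ ht') (e2' ▸ hs')
    e2'.symm e1'.symm ((add_comm _ _).trans hT) hT' hc'
  obtain ⟨δ, d, d1, d2, d3⟩ := h2 K hK σ τ hne
  have hl0 : (0 : ℝ) < l := by exact_mod_cast hl.pos
  have d1' : 0 < σ' δ := d1
  have d2' : τ' δ = -σ' δ := d2
  have d3' : σ' δ ^ 2 = d := d3
  have f1 : 0 < σ' (l * δ) := by rw [map_mul, map_natCast]; positivity
  have f2 : τ' (l * δ) = -σ' (l * δ) := by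
    rw [map_mul, map_mul, map_natCast, map_natCast, d2', mul_neg]
  have f3 : σ' (l * δ) ^ 2 = (l ^ 2 * d : ℕ) := by
    rw [map_mul, map_natCast, mul_pow, d3']
    push_cast
    rfl
  obtain ⟨T, hTc⟩ := h4 K σ τ (l * δ) (l ^ 2 * d) f1 f2 f3
  have hd0 : d ≠ 0 := by
    rintro rfl
    rw [Nat.cast_zero] at d3'
    exact (pow_pos d1' 2).ne' d3'
  have hl1 : (l : ℂ) ≠ 0 := by exact_mod_cast hl.ne_zero
  refine ⟨l + 1, 2 * (l ^ 2 * d), Am (Real.log (σ' π)), Am (Real.log (τ' π)), T, k,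
    fun j => Am (Real.log (τ' π) - Real.log (σ' π)) * k' j, l * c / l ^ p, l * c' / l ^ p,
    mul_ne_zero two_ne_zero (mul_ne_zero (pow_ne_zero 2 hl.ne_zero) hd0), fun h => hcc ?_,
    fun γ hγ z w hz hw => ?_, hk, fun z w hz hw => ?_⟩
  · exact mul_left_cancel₀ hl1 ((div_left_inj' (pow_ne_zero p hl1)).1 h)
  · obtain ⟨a, b, c₀, e, g1, ⟨m, g2⟩, g3, g4, g5, g6, g7, g8, g9, g10⟩ := hTc γ hγ
    have g11 : c₀ = π * (π' * δ * m) := by rw [g2, ← hπ]; ring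
    have g12 : a * e - π * b * (π' * δ * m) = 1 := by rw [← g1, g11]; ring
    rw [g11] at g5 g9
    rw [hk_conj σ' hs' a b _ e g12 g3 g4 g5 g6,
      hk_conj τ' ht' a b _ e g12 (g := hat (T * γ * T⁻¹)) g7 g8 g9 g10,
      hk_inv hM' _ _ _ _ _ _ _ hz hw]
  · rw [← hk' z w hz hw, e1', e2']
    refine Finset.sum_congr rfl fun j _ => ?_
    rw [hat_mul, hk_hat_Am, ← mul_assoc, ← mul_assoc, hk_Am_mul, hk_Am_mul, add_sub_cancel, neg_sub,
      add_sub_cancel]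

end Pool.Agent.HilH
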