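import Pool.Agent.Lib.MP_d79f69_nt.H4Defs

/-!
Unimodularity, discreteness of the congruence subgroups and a fundamental domain.
-/

open MeasureTheory Filter Topology Set

namespace Pool.Agent.HilH

/-- the diagonal matrix with entries `2` and `1 / 2` -/
noncomputable def latD : G := ⟨!![2, 0; 0, 1 / 2], by simp [Matrix.det_fin_two_of]⟩

theorem lat_ext {g h : G} (h00 : g 0 0 = h 0 0) (h01 : g 0 1 = h 0 1) (h10 : g 1 0 = h 1 0)
    (h11 : g 1 1 = h 1 1) : g = h := by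
  ext i j
  fin_cases i <;> fin_cases j
  · exact h00
  · exact h01
  · exact h10
  · exact h11

theorem lat_mul (g h : G) (i j : Fin 2) : (g * h) i j = g i 0 * h 0 j + g i 1 * h 1 j := by
  simp [Matrix.mul_apply, Fin.sum_univ_two]

theorem lat_DN (y : ℝ) : latD * Nm y = Nm y * Nm (3 * y) * latD := by
  apply lat_ext <;> simp only [lat_mul] <;> simp [latD, Nm] <;> ring

theorem lat_DL (y : ℝ) : latD * (Lm y * Lm (3 * y)) = Lm y * latD := by
  apply lat_ext <;> simp only [lat_mul] <;> simp [latD, Lm] <;> ring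

theorem lat_gen (g : G) (hc : g 1 0 ≠ 0) :
    g = Nm ((g 0 0 - 1) / g 1 0) * Lm (g 1 0) * Nm ((g 1 1 - 1) / g 1 0) := by
  have h := g.det_coe
  rw [Matrix.det_fin_two] at h
  apply lat_ext <;> simp only [lat_mul] <;> simp [Lm, Nm]
  · field_simp
    ring
  · field_simp
    linear_combination -h
  · field_simp
    ring

/-- a character of the group with values in the nonnegative reals is trivial -/
theorem lat_char (χ : G →* NNReal) (g : G) : χ g = 1 := by
  have h0 : ∀ g, χ g ≠ 0 := fun g => ((Group.isUnit g).map χ).ne_zero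
  have hN : ∀ x, χ (Nm x) = 1 := by
    intro x
    have h := congrArg χ (lat_DN (x / 3))
    rw [show 3 * (x / 3) = x by ring, map_mul, map_mul, map_mul] at h
    apply mul_left_cancel₀ (mul_ne_zero (h0 latD) (h0 (Nm (x / 3))))
    rw [mul_one]
    conv_rhs => rw [h]
    ring
  have hL : ∀ x, χ (Lm x) = 1 := by
    intro x
    have h := congrArg χ (lat_DL (x / 3))
    rw [show 3 * (x / 3) = x by ring, map_mul, map_mul, map_mul] at h
    apply mul_left_cancel₀ (mul_ne_zero (h0 (Lm (x / 3))) (h0 latD))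
    rw [mul_one]
    conv_rhs => rw [← h]
    ring
  have h1 : ∀ g : G, g 1 0 ≠ 0 → χ g = 1 := by
    intro g hc
    rw [lat_gen g hc, map_mul, map_mul, hN, hL, hN, one_mul, one_mul]
  by_cases hc : g 1 0 = 0
  · have h := g.det_coe
    rw [Matrix.det_fin_two, hc, mul_zero, sub_zero] at h
    have h2 : (Lm 1 * g) 1 0 ≠ 0 := by
      rw [lat_mul, hc]
      simpa [Lm] using left_ne_zero_of_mul_eq_one h
    have h3 := h1 _ h2
    rwa [map_mul, hL, one_mul] at h3
  · exact h1 g hc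

theorem sUni : SUni := by
  refine ⟨fun g => ?_⟩
  have h := Measure.modularCharacterFun_eq_haarScalarFactor mu g
  have h1 : Measure.modularCharacterFun g = 1 := lat_char Measure.modularCharacter g
  rw [Measure.isMulLeftInvariant_eq_smul (Measure.map (· * g) mu) mu, ← h, h1, one_smul]

theorem sFin : SFin := by
  intro N W hW
  have hc : Continuous fun g : G => fun p : Fin 2 × Fin 2 => g p.1 p.2 := by
    refine continuous_pi fun p => ?_
    exact (Matrix.SpecialLinearGroup.isClosedEmbedding_val (n := Fin 2)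
      (R := ℝ)).continuous.matrix_elem p.1 p.2
  obtain ⟨M, hM⟩ := (hW.image hc).isBounded.exists_norm_le
  obtain ⟨K, hK⟩ := exists_nat_ge M
  have h1 : {m : Fin 2 → Fin 2 → ℤ | ∀ i, m i ∈ {r : Fin 2 → ℤ | ∀ j, r j ∈ Icc (-(K : ℤ)) K}}.Finite :=
    Set.Finite.pi' fun _ => Set.Finite.pi' fun _ => Set.finite_Icc _ _
  have h2 := h1.preimage (f := fun γ : Matrix.SpecialLinearGroup (Fin 2) ℤ => fun i j => γ i j)
    (fun γ _ γ' _ e => Matrix.SpecialLinearGroup.ext _ _ fun i j => congrFun (congrFun e i) j)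
  refine (h2.image (Matrix.SpecialLinearGroup.map (Int.castRingHom ℝ))).subset ?_
  rintro _ ⟨hg, γ, -, rfl⟩
  refine ⟨γ, fun i j => ?_, rfl⟩
  have h3 := (norm_le_pi_norm _ (i, j)).trans ((hM _ ⟨_, hg, rfl⟩).trans hK)
  have h4 : |((γ i j : ℤ) : ℝ)| ≤ K := by simpa using h3
  have h5 : |γ i j| ≤ (K : ℤ) := by exact_mod_cast h4
  exact abs_le.1 h5

/-- a neighbourhood of the identity that is small for a discrete subgroup -/
theorem lat_small (Γ : Subgroup G) (h : ∀ W : Set G, IsCompact W → (W ∩ (Γ : Set G)).Finite) :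
    ∃ V : Set G, IsOpen V ∧ (1 : G) ∈ V ∧ ∀ v ∈ V, ∀ w ∈ V, v / w ∈ Γ → v = w := by
  obtain ⟨W, hW, hW1⟩ := exists_compact_mem_nhds (1 : G)
  have h1 : IsClosed ((W ∩ (Γ : Set G)) \ {1}) := ((h W hW).subset sdiff_subset).isClosed
  have h2 : W ∩ ((W ∩ (Γ : Set G)) \ {1})ᶜ ∈ 𝓝 (1 : G) :=
    inter_mem hW1 (h1.isOpen_compl.mem_nhds fun hh => hh.2 rfl)
  obtain ⟨V, hV, hVV⟩ := exists_nhds_split_inv h2
  refine ⟨interior V, isOpen_interior, mem_interior_iff_mem_nhds.2 hV, fun v hv w hw hm => ?_⟩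
  have h3 := hVV v (interior_subset hv) w (interior_subset hw)
  by_contra hne
  exact h3.2 ⟨⟨h3.1, hm⟩, fun e => hne (div_eq_one.1 e)⟩

theorem lat_fd (Γ : Subgroup G) (h : ∀ W : Set G, IsCompact W → (W ∩ (Γ : Set G)).Finite) :
    ∃ F : Set G, MeasurableSet F ∧ ∀ x : G, ∃! γ : Γ, γ • x ∈ F := by
  classical
  obtain ⟨V, hV, hV1, hVV⟩ := lat_small Γ h
  have hUo : ∀ g : G, IsOpen {x : G | x * g⁻¹ ∈ V} := fun g =>
    hV.preimage (continuous_mul_const g⁻¹)
  obtain ⟨s, hs, hcov⟩ := TopologicalSpace.countable_cover_nhds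
    (f := fun g : G => {x : G | x * g⁻¹ ∈ V}) fun g => (hUo g).mem_nhds (by simpa using hV1)
  have hne : s.Nonempty := by
    have : (1 : G) ∈ ⋃ g ∈ s, {x : G | x * g⁻¹ ∈ V} := by rw [hcov]; trivial
    obtain ⟨g, hg, -⟩ := mem_iUnion₂.1 this
    exact ⟨g, hg⟩
  obtain ⟨e, rfl⟩ := hs.exists_eq_range hne
  let U : ℕ → Set G := fun n => {x : G | x * (e n)⁻¹ ∈ V}
  let O : ℕ → Set G := fun n => ⋃ γ : Γ, (fun x => (γ : G) * x) ⁻¹' U n
  have hO : ∀ n, IsOpen (O n) := fun n =>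
    isOpen_iUnion fun γ => (hUo (e n)).preimage (continuous_const_mul _)
  have hmem : ∀ n x, x ∈ O n ↔ ∃ γ : Γ, (γ : G) * x ∈ U n := fun n x => mem_iUnion
  have hinv : ∀ n (γ : Γ) x, (γ : G) * x ∈ O n ↔ x ∈ O n := by
    intro n γ x
    rw [hmem, hmem]
    constructor
    · rintro ⟨δ, hδ⟩
      exact ⟨δ * γ, by rwa [Subgroup.coe_mul, mul_assoc]⟩
    · rintro ⟨δ, hδ⟩
      exact ⟨δ * γ⁻¹, by
        rwa [Subgroup.coe_mul, Subgroup.coe_inv, mul_assoc, inv_mul_cancel_left]⟩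
  refine ⟨⋃ n, U n \ ⋃ m ∈ Iio n, O m, MeasurableSet.iUnion fun n =>
    (hUo (e n)).measurableSet.diff (isOpen_biUnion fun m _ => hO m).measurableSet, fun x => ?_⟩
  have hex : ∃ n, x ∈ O n := by
    have : x ∈ ⋃ g ∈ range e, {x : G | x * g⁻¹ ∈ V} := by rw [hcov]; trivial
    obtain ⟨_, ⟨n, rfl⟩, hn⟩ := mem_iUnion₂.1 this
    exact ⟨n, (hmem n x).2 ⟨1, by rw [Subgroup.coe_one, one_mul]; exact hn⟩⟩
  obtain ⟨γ, hγ⟩ := (hmem _ x).1 (Nat.find_spec hex)
  refine ⟨γ, mem_iUnion.2 ⟨Nat.find hex, hγ, fun hh => ?_⟩, fun δ hδ => ?_⟩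
  · obtain ⟨m, hm, hx⟩ := mem_iUnion₂.1 hh
    exact Nat.find_min hex hm ((hinv m γ x).1 hx)
  · obtain ⟨k, hk, hk'⟩ := mem_iUnion.1 hδ
    have h1 : Nat.find hex ≤ k := Nat.find_min' hex ((hmem k x).2 ⟨δ, hk⟩)
    have h2 : Nat.find hex = k := by
      by_contra hlt
      exact hk' (mem_iUnion₂.2 ⟨Nat.find hex, lt_of_le_of_ne h1 hlt,
        (hinv _ δ x).2 (Nat.find_spec hex)⟩)
    rw [h2] at hγ
    have h3 := hVV _ hk _ hγ (by
      have : (δ • x * (e k)⁻¹) / ((γ : G) * x * (e k)⁻¹) = (δ : G) * (γ : G)⁻¹ := by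
        rw [Subgroup.smul_def, smul_eq_mul, div_eq_mul_inv]
        group
      rw [this]
      exact Γ.mul_mem δ.2 (Γ.inv_mem γ.2))
    exact Subtype.ext (mul_right_cancel (mul_right_cancel h3))

theorem sFD (h : SFin) : SFD := by
  intro N
  obtain ⟨F, hF, hx⟩ := lat_fd (GamR N) (h N)
  exact ⟨F, hF, IsFundamentalDomain.mk' hF.nullMeasurableSet hx⟩

end Pool.Agent.HilH
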