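import Pool.Agent.Lib.MP_d79f69_nt.H4Defs

/-!
The first nonzero coefficient of a Dirichlet series, and the coefficients of a bounded
absolutely convergent trigonometric series.
-/

open MeasureTheory Filter Topology

namespace Pool.Agent.HilH

universe u

theorem low1_norm_ee (x : ℝ) : ‖ee (x : ℂ)‖ = 1 := by
  have h : 2 * (Real.pi : ℂ) * Complex.I * x = ((2 * Real.pi * x : ℝ) : ℂ) * Complex.I := by
    push_cast
    ring
  rw [ee, h, Complex.norm_exp_ofReal_mul_I]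

theorem low1_ee_add (z w : ℂ) : ee (z + w) = ee z * ee w := by
  rw [ee, ee, ee, mul_add, Complex.exp_add]

theorem low1_ee_zero : ee 0 = 1 := by
  rw [ee, mul_zero, Complex.exp_zero]

theorem low1_ee_half : ee (1 / 2) = -1 := by
  have h : 2 * (Real.pi : ℂ) * Complex.I * (1 / 2) = Real.pi * Complex.I := by ring
  rw [ee, h, Complex.exp_pi_mul_I]

theorem low1_norm_ee_mul (x t : ℝ) : ‖ee ((x : ℂ) * t)‖ = 1 := by
  rw [← Complex.ofReal_mul, low1_norm_ee]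

/-- Averaging two translates kills one frequency and keeps the frequency zero. -/
theorem low1_kill {ι : Type u} (η : ι → ℝ) (c : ι → ℂ) (M : ℝ) (i₀ : ι) (h0 : η i₀ = 0)
    (hη : ∀ i, i ≠ i₀ → η i ≠ 0) (hc : Summable fun i => ‖c i‖)
    (hM : ∀ t : ℝ, ‖∑' i, c i * ee (η i * t)‖ ≤ M) (S : Finset ι) (hS : i₀ ∉ S) :
    ∃ c' : ι → ℂ, (∀ i, ‖c' i‖ ≤ ‖c i‖) ∧ c' i₀ = c i₀ ∧ (∀ i ∈ S, c' i = 0) ∧
      ∀ t : ℝ, ‖∑' i, c' i * ee (η i * t)‖ ≤ M := by
  classical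
  induction S using Finset.induction_on with
  | empty => exact ⟨c, fun _ => le_rfl, rfl, fun i hi => absurd hi (Finset.notMem_empty i), hM⟩
  | insert i₁ S _ ih =>
    obtain ⟨c', h1, h2, h3, h4⟩ := ih fun h => hS (Finset.mem_insert_of_mem h)
    have hne : η i₁ ≠ 0 := hη i₁ fun h => hS (h ▸ Finset.mem_insert_self i₁ S)
    have hsum : ∀ t : ℝ, Summable fun i => c' i * ee (η i * t) := fun t =>
      Summable.of_norm_bounded hc fun i => by
        rw [norm_mul, low1_norm_ee_mul, mul_one]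
        exact h1 i
    refine ⟨fun i => c' i * ((1 + ee (η i * (1 / (2 * η i₁) : ℝ))) / 2), fun i => ?_, ?_,
      fun i hi => ?_, fun t => ?_⟩
    · have h5 : ‖(1 + ee (η i * (1 / (2 * η i₁) : ℝ))) / 2‖ ≤ 1 := by
        have h6 := norm_add_le (1 : ℂ) (ee (η i * (1 / (2 * η i₁) : ℝ)))
        rw [norm_one, low1_norm_ee_mul] at h6
        rw [norm_div, Complex.norm_two]
        linarith
      rw [norm_mul]
      exact (mul_le_of_le_one_right (norm_nonneg _) h5).trans (h1 i)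
    · show c' i₀ * ((1 + ee (η i₀ * (1 / (2 * η i₁) : ℝ))) / 2) = c i₀
      rw [h0, Complex.ofReal_zero, zero_mul, low1_ee_zero, h2]
      ring
    · show c' i * ((1 + ee (η i * (1 / (2 * η i₁) : ℝ))) / 2) = 0
      rcases Finset.mem_insert.1 hi with h | h
      · have h5 : (η i₁ : ℂ) * (1 / (2 * η i₁) : ℝ) = 1 / 2 := by
          have h6 : (η i₁ : ℂ) ≠ 0 := Complex.ofReal_ne_zero.2 hne
          push_cast
          field_simp
        rw [h, h5, low1_ee_half]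
        ring
      · rw [h3 i h, zero_mul]
    · have h5 : ∑' i, c' i * ((1 + ee (η i * (1 / (2 * η i₁) : ℝ))) / 2) * ee (η i * t) =
          (∑' i, c' i * ee (η i * t) +
            ∑' i, c' i * ee (η i * (t + 1 / (2 * η i₁) : ℝ))) / 2 := by
        rw [← (hsum _).tsum_add (hsum _), ← tsum_div_const]
        refine tsum_congr fun i => ?_
        rw [Complex.ofReal_add, mul_add (η i : ℂ), low1_ee_add]
        ring
      have h6 := norm_add_le (∑' i, c' i * ee (η i * t))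
        (∑' i, c' i * ee (η i * (t + 1 / (2 * η i₁) : ℝ)))
      have h7 := h4 t
      have h8 := h4 (t + 1 / (2 * η i₁))
      rw [h5, norm_div, Complex.norm_two]
      linarith

theorem sCo : SCo.{u} := by
  classical
  intro ι ξ c M hξ hc hM i₀
  have hcn : Summable fun i => ‖c i‖ := summable_norm_iff.2 hc
  have hM' : ∀ t : ℝ, ‖∑' i, c i * ee ((ξ i - ξ i₀ : ℝ) * t)‖ ≤ M := fun t => by
    have h1 : ∑' i, c i * ee ((ξ i - ξ i₀ : ℝ) * t) =
        (∑' i, c i * ee (ξ i * t)) * ee ((-ξ i₀ : ℝ) * t) := by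
      rw [← tsum_mul_right]
      refine tsum_congr fun i => ?_
      rw [mul_assoc, ← low1_ee_add]
      congr 2
      push_cast
      ring
    rw [h1, norm_mul, low1_norm_ee_mul, mul_one]
    exact hM t
  refine le_of_forall_pos_le_add fun ε hε => ?_
  obtain ⟨S, hS1, hS2⟩ := (((tendsto_order.1 (tendsto_tsum_compl_atTop_zero fun i => ‖c i‖)).2
    ε hε).and (eventually_ge_atTop {i₀})).exists
  have hi₀ : i₀ ∈ S := hS2 (Finset.mem_singleton_self i₀)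
  obtain ⟨c', h1, h2, h3, h4⟩ := low1_kill (fun i => ξ i - ξ i₀) c M i₀ (sub_self _)
    (fun i hi => sub_ne_zero.2 fun h => hi (hξ h)) hcn hM' (S.erase i₀) (S.notMem_erase i₀)
  have hs' : Summable c' := Summable.of_norm_bounded hcn h1
  have h5 := h4 0
  simp only [Complex.ofReal_zero, mul_zero, low1_ee_zero, mul_one] at h5
  rw [← hs'.sum_add_tsum_subtype_compl S, ← Finset.add_sum_erase S c' hi₀,
    Finset.sum_eq_zero h3, add_zero, h2] at h5
  have h6 : ‖∑' i : {i // i ∉ S}, c' i‖ ≤ ∑' i : {i // i ∉ S}, ‖c i‖ :=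
    tsum_of_norm_bounded (hcn.subtype _).hasSum fun i => h1 i
  have h7 := norm_sub_le (c i₀ + ∑' i : {i // i ∉ S}, c' i) (∑' i : {i // i ∉ S}, c' i)
  rw [add_sub_cancel_right] at h7
  linarith

theorem low1_norm_term (b N : ℝ) (hN : 0 < N) (s : ℂ) :
    ‖(b : ℂ) * (N : ℂ) ^ (-s)‖ = |b| * N ^ (-(3 : ℝ)) * N ^ (3 - s.re) := by
  rw [norm_mul, Complex.norm_real, Real.norm_eq_abs, Complex.norm_cpow_eq_rpow_re_of_pos hN,
    Complex.neg_re, mul_assoc, ← Real.rpow_add hN]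
  congr 2
  ring

theorem sLow1 : SLow1.{u} := by
  classical
  intro J b N m hm hN hint hsum
  choose g hg using hint
  have hm' : (0 : ℝ) < m := Nat.cast_pos.2 hm
  have hNg : ∀ j, N j = (g j : ℝ) / m := fun j => by rw [← hg j, mul_div_cancel_right₀ _ hm'.ne']
  have hgpos : ∀ j, 0 < g j := fun j => by
    have h1 : (0 : ℝ) < g j := by rw [← hg j]; exact mul_pos (hN j) hm'
    exact_mod_cast h1
  have hbound : ∀ (s : ℂ) (n : ℕ) (j : J), 3 ≤ s.re → 0 < n → n ≤ g j →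
      ‖(b j : ℂ) * (N j : ℂ) ^ (-s)‖ ≤ |b j| * N j ^ (-(3 : ℝ)) * ((n : ℝ) / m) ^ (3 - s.re) := by
    intro s n j hs hn hj
    rw [low1_norm_term _ _ (hN j)]
    refine mul_le_mul_of_nonneg_left ?_
      (mul_nonneg (abs_nonneg _) (Real.rpow_nonneg (hN j).le _))
    refine Real.rpow_le_rpow_of_nonpos (div_pos (Nat.cast_pos.2 hn) hm') ?_ (by linarith)
    rw [hNg j]
    exact div_le_div_of_nonneg_right (Nat.cast_le.2 hj) hm'.le
  have hS : ∀ s : ℂ, 3 ≤ s.re → Summable fun j => (b j : ℂ) * (N j : ℂ) ^ (-s) := fun s hs =>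
    Summable.of_norm_bounded (hsum.mul_right _) fun j => hbound s 1 j hs one_pos (hgpos j)
  let B : ℕ → ℂ := fun n => ∑' j : g ⁻¹' {n}, (b j : ℂ)
  have hfib : ∀ (s : ℂ) (n : ℕ), ∑' j : g ⁻¹' {n}, (b j : ℂ) * (N j : ℂ) ^ (-s) =
      B n * (((n : ℝ) / m : ℝ) : ℂ) ^ (-s) := by
    intro s n
    rw [← tsum_mul_right]
    refine tsum_congr fun j => ?_
    have h1 : g j = n := j.2
    rw [hNg j, h1]
  have hH : ∀ s : ℂ, 3 ≤ s.re → HasSum (fun n => B n * (((n : ℝ) / m : ℝ) : ℂ) ^ (-s))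
      (∑' j, (b j : ℂ) * (N j : ℂ) ^ (-s)) := fun s hs => by
    have h1 := (hS s hs).hasSum.tsum_fiberwise g
    simpa only [hfib s] using h1
  by_cases hB : ∃ n, B n ≠ 0
  swap
  · refine Or.inl fun s hs => ?_
    have h1 := hH s hs
    have h2 : (fun n => B n * (((n : ℝ) / m : ℝ) : ℂ) ^ (-s)) = fun _ => 0 := by
      funext n
      rw [not_not.1 fun h => hB ⟨n, h⟩, zero_mul]
    rw [h2] at h1
    exact h1.unique hasSum_zero
  right
  obtain ⟨n₀, hB0, hmin⟩ : ∃ n₀, B n₀ ≠ 0 ∧ ∀ n < n₀, B n = 0 :=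
    ⟨Nat.find hB, Nat.find_spec hB, fun n hn => not_not.1 (Nat.find_min hB hn)⟩
  have hn₀ : 0 < n₀ := by
    rcases Nat.eq_zero_or_pos n₀ with h | h
    · exfalso
      apply hB0
      have : IsEmpty (g ⁻¹' {n₀}) := ⟨fun j => (hgpos j).ne' (h ▸ j.2)⟩
      exact tsum_empty
    · exact h
  have hN₀ : (0 : ℝ) < (n₀ : ℝ) / m := div_pos (Nat.cast_pos.2 hn₀) hm'
  have hN₁ : (0 : ℝ) < ((n₀ + 1 : ℕ) : ℝ) / m := div_pos (Nat.cast_pos.2 n₀.succ_pos) hm'
  have hlt : ((n₀ : ℝ) / m) / (((n₀ + 1 : ℕ) : ℝ) / m) < 1 := by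
    rw [div_lt_one hN₁]
    exact div_lt_div_of_pos_right (Nat.cast_lt.2 n₀.lt_succ_self) hm'
  have hBpos : 0 < ‖B n₀‖ := norm_pos_iff.2 hB0
  set Sg : ℝ := ∑' j, |b j| * N j ^ (-(3 : ℝ)) with hSg
  have hSg0 : 0 ≤ Sg :=
    tsum_nonneg fun j => mul_nonneg (abs_nonneg _) (Real.rpow_nonneg (hN j).le _)
  obtain ⟨k, hk⟩ := exists_pow_lt_of_lt_one
    (show 0 < ‖B n₀‖ / (10 * ((Sg + 1) * ((n₀ : ℝ) / m) ^ 3)) by positivity) hlt
  refine ⟨B n₀, (n₀ : ℝ) / m, 3 + k, hB0, hN₀, le_add_of_nonneg_right (Nat.cast_nonneg k),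
    fun s hs => ?_⟩
  have hs3 : 3 ≤ s.re := hs ▸ le_add_of_nonneg_right (Nat.cast_nonneg k)
  let Gt : J → ℂ := fun j => if n₀ < g j then (b j : ℂ) * (N j : ℂ) ^ (-s) else 0
  have hGb : ∀ j, ‖Gt j‖ ≤
      |b j| * N j ^ (-(3 : ℝ)) * (((n₀ + 1 : ℕ) : ℝ) / m) ^ (3 - s.re) := fun j => by
    by_cases h : n₀ < g j
    · rw [show Gt j = (b j : ℂ) * (N j : ℂ) ^ (-s) from if_pos h]
      exact hbound s (n₀ + 1) j hs3 n₀.succ_pos h
    · rw [show Gt j = 0 from if_neg h, norm_zero]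
      exact mul_nonneg (mul_nonneg (abs_nonneg _) (Real.rpow_nonneg (hN j).le _))
        (Real.rpow_nonneg hN₁.le _)
  have hGs : Summable Gt := Summable.of_norm_bounded (hsum.mul_right _) hGb
  have hGn : ‖∑' j, Gt j‖ ≤ Sg * (((n₀ + 1 : ℕ) : ℝ) / m) ^ (3 - s.re) :=
    tsum_of_norm_bounded (hsum.hasSum.mul_right _) hGb
  have hsplit : ∑' j, (b j : ℂ) * (N j : ℂ) ^ (-s) =
      ∑' j, Gt j + B n₀ * (((n₀ : ℝ) / m : ℝ) : ℂ) ^ (-s) := by
    have h1 := (hGs.hasSum.tsum_fiberwise g).add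
      (hasSum_ite_eq n₀ (B n₀ * (((n₀ : ℝ) / m : ℝ) : ℂ) ^ (-s)))
    refine (hH s hs3).unique (h1.congr_fun fun n => ?_)
    rcases lt_trichotomy n n₀ with h | h | h
    · have h2 : ∑' j : g ⁻¹' {n}, Gt j = 0 := by
        refine (tsum_congr fun j => ?_).trans tsum_zero
        have h3 : g j = n := j.2
        exact if_neg (by omega)
      rw [h2, if_neg h.ne, hmin n h, zero_mul, add_zero]
    · have h2 : ∑' j : g ⁻¹' {n}, Gt j = 0 := by
        refine (tsum_congr fun j => ?_).trans tsum_zero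
        have h3 : g j = n := j.2
        exact if_neg (by omega)
      rw [h2, if_pos h, h, zero_add]
    · have h2 : ∑' j : g ⁻¹' {n}, Gt j = ∑' j : g ⁻¹' {n}, (b j : ℂ) * (N j : ℂ) ^ (-s) := by
        refine tsum_congr fun j => ?_
        have h3 : g j = n := j.2
        exact if_pos (by omega)
      rw [h2, if_neg h.ne', hfib, add_zero]
  have hne : (((n₀ : ℝ) / m : ℝ) : ℂ) ≠ 0 := Complex.ofReal_ne_zero.2 hN₀.ne'
  have hone : (((n₀ : ℝ) / m : ℝ) : ℂ) ^ (-s) * (((n₀ : ℝ) / m : ℝ) : ℂ) ^ s = 1 := by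
    rw [← Complex.cpow_add _ _ hne, neg_add_cancel, Complex.cpow_zero]
  have heq : (∑' j, (b j : ℂ) * (N j : ℂ) ^ (-s)) * (((n₀ : ℝ) / m : ℝ) : ℂ) ^ s / B n₀ - 1 =
      (∑' j, Gt j) * (((n₀ : ℝ) / m : ℝ) : ℂ) ^ s / B n₀ := by
    rw [hsplit, add_mul, mul_assoc, hone, mul_one, add_div, div_self hB0, add_sub_cancel_right]
  rw [heq, norm_div, norm_mul, Complex.norm_cpow_eq_rpow_re_of_pos hN₀, div_le_iff₀ hBpos]
  have h1 : (((n₀ + 1 : ℕ) : ℝ) / m) ^ (3 - s.re) * ((n₀ : ℝ) / m) ^ s.re =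
      ((n₀ : ℝ) / m) ^ 3 * (((n₀ : ℝ) / m) / (((n₀ + 1 : ℕ) : ℝ) / m)) ^ k := by
    rw [hs, show (3 : ℝ) - (3 + k) = -(k : ℝ) by ring, Real.rpow_neg hN₁.le, Real.rpow_natCast,
      show (3 : ℝ) + k = ((3 + k : ℕ) : ℝ) by push_cast; ring, Real.rpow_natCast, pow_add,
      div_pow ((n₀ : ℝ) / m)]
    ring
  have h2 : ‖∑' j, Gt j‖ * ((n₀ : ℝ) / m) ^ s.re ≤
      Sg * (((n₀ : ℝ) / m) ^ 3 * (((n₀ : ℝ) / m) / (((n₀ + 1 : ℕ) : ℝ) / m)) ^ k) := by
    rw [← h1, ← mul_assoc]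
    exact mul_le_mul_of_nonneg_right hGn (Real.rpow_nonneg hN₀.le _)
  rw [lt_div_iff₀ (by positivity)] at hk
  have h3 : 0 ≤ ((n₀ : ℝ) / m) ^ 3 * (((n₀ : ℝ) / m) / (((n₀ + 1 : ℕ) : ℝ) / m)) ^ k := by
    positivity
  nlinarith

end Pool.Agent.HilH
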