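import Pool.Agent.Lib.MP_d79f69_nt.H4Defs
import Pool.Agent.Lib.MP_d79f69_nt.CM
import Pool.Agent.Lib.MP_d79f69_nt.Stir

/-!
The first moment lower bound under exponential growth, and two bounds for the Gamma function.
-/

open MeasureTheory Complex Filter Topology Set

namespace Pool.Agent.HilH

open CubH (cmG cmGn cmGd cmQ cmSum cmShift cmInt cmIntExp cmCont sSt)

theorem lwQ {b : ℝ} (hb : 0 < b) (K v : ℝ) : -b * v ^ 2 ≤ K ^ 2 / (4 * b) - K * |v| := by
  have h : b * (|v| - K / (2 * b)) ^ 2 = b * v ^ 2 - K * |v| + K ^ 2 / (4 * b) := by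
    rw [← sq_abs v]; field_simp; ring
  have : 0 ≤ b * (|v| - K / (2 * b)) ^ 2 := by positivity
  linarith

theorem lwGb {L : ℂ → ℂ} {a c b C A : ℝ} (τ : ℝ) (hb : 0 < b) (hC : 0 ≤ C) (hA : 0 ≤ A)
    (hL : ∀ σ ∈ uIcc a c, ∀ t : ℝ, ‖L (σ + t * I)‖ ≤ C * Real.exp (A * |t|)) :
    ∀ σ ∈ uIcc a c, ∀ t : ℝ, ‖L (σ + t * I) * cmG b τ (σ + t * I)‖ ≤
      C * Real.exp (b * (a ^ 2 + c ^ 2) + (A + 1) ^ 2 / (4 * b) + (A + 1) * |τ|) *
        Real.exp (-1 * |t|) := by
  intro σ hσ t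
  rw [norm_mul, cmGn]
  refine (mul_le_mul_of_nonneg_right (hL σ hσ t) (by positivity)).trans ?_
  rw [mul_assoc, mul_assoc, ← Real.exp_add, ← Real.exp_add, ← Real.exp_add]
  refine mul_le_mul_of_nonneg_left (Real.exp_le_exp.mpr ?_) hC
  have h1 : σ ^ 2 ≤ a ^ 2 + c ^ 2 := by
    rcases mem_uIcc.mp hσ with h | h <;> rcases le_total 0 σ with h' | h' <;> nlinarith [h.1, h.2]
  have h2 := lwQ hb (A + 1) (t - τ)
  have h3 : |t| ≤ |t - τ| + |τ| := by
    have := abs_add_le (t - τ) τ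
    simpa using this
  have h4 := mul_le_mul_of_nonneg_left h1 hb.le
  have h5 := mul_le_mul_of_nonneg_left h3 (show 0 ≤ A + 1 by linarith)
  linarith

theorem lwLow {L : ℂ → ℂ} (hL : Differentiable ℂ L) {U C A : ℝ} (hU : 2 ≤ U) (hC : 0 ≤ C)
    (hA : 0 ≤ A)
    (hLB : ∀ σ t : ℝ, 1 / 2 ≤ σ → σ ≤ U → ‖L (σ + t * I)‖ ≤ C * Real.exp (A * |t|))
    (h1 : ∀ s : ℂ, s.re = U → ‖L s - 1‖ ≤ 1 / 10) : ∃ b c : ℝ, 0 < b ∧ 0 < c ∧ ∀ τ : ℝ,
      Integrable (fun t : ℝ => ‖L (((1 / 2 : ℝ) : ℂ) + t * I)‖ * Real.exp (-b * (t - τ) ^ 2)) ∧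
      c ≤ ∫ t : ℝ, ‖L (((1 / 2 : ℝ) : ℂ) + t * I)‖ * Real.exp (-b * (t - τ) ^ 2) := by
  obtain ⟨b, hb, hbU⟩ : ∃ b : ℝ, 0 < b ∧ b * U ^ 2 = 1 :=
    ⟨1 / U ^ 2, by positivity, by field_simp⟩
  have hG : 0 < √(Real.pi / b) := by have := Real.pi_pos; positivity
  refine ⟨b, 7 / 10 * √(Real.pi / b) / Real.exp (b * (1 / 2) ^ 2), hb, by positivity, fun τ => ?_⟩
  have hg : ∫ t : ℝ, Real.exp (-b * (t - τ) ^ 2) = √(Real.pi / b) := by
    rw [integral_sub_right_eq_self (fun t : ℝ => Real.exp (-b * t ^ 2)) τ, integral_gaussian]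
  have hgi : Integrable (fun t : ℝ => Real.exp (-b * (t - τ) ^ 2)) :=
    (integrable_exp_neg_mul_sq hb).comp_sub_right τ
  have hb1 := lwGb (L := L) (a := 1 / 2) (c := U) τ hb hC hA (fun σ hσ t => by
    rw [uIcc_of_le (by linarith)] at hσ
    exact hLB σ t hσ.1 hσ.2)
  have hb2 := lwGb (L := fun _ => 1) (a := 0) (c := U) τ hb zero_le_one le_rfl (fun σ _ t => by
    simp)
  have d1 : DifferentiableOn ℂ (fun s => L s * cmG b τ s) {s | s.re ∈ uIcc (1 / 2 : ℝ) U} :=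
    (hL.mul (cmGd b τ)).differentiableOn
  have d2 : DifferentiableOn ℂ (fun s => 1 * cmG b τ s) {s | s.re ∈ uIcc (0 : ℝ) U} :=
    ((cmGd b τ).const_mul 1).differentiableOn
  have s1 := cmShift _ _ _ _ _ one_pos d1 hb1
  have s2 := cmShift _ _ _ _ _ one_pos d2 hb2
  have i0 := cmInt (cmCont d1 left_mem_uIcc) one_pos (hb1 _ left_mem_uIcc)
  have i1 := cmInt (cmCont d1 right_mem_uIcc) one_pos (hb1 _ right_mem_uIcc)
  have i2 := cmInt (cmCont d2 right_mem_uIcc) one_pos (hb2 _ right_mem_uIcc)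
  have e0 : (fun t : ℝ => ‖L (((1 / 2 : ℝ) : ℂ) + t * I)‖ * Real.exp (-b * (t - τ) ^ 2)) =
      fun t : ℝ => ‖L (((1 / 2 : ℝ) : ℂ) + t * I) * cmG b τ (((1 / 2 : ℝ) : ℂ) + t * I)‖ /
        Real.exp (b * (1 / 2) ^ 2) := by
    funext t
    rw [norm_mul, cmGn]
    field_simp
  rw [e0]
  refine ⟨i0.norm.div_const _, ?_⟩
  rw [integral_div]
  refine div_le_div_of_nonneg_right (le_trans ?_ (norm_integral_le_integral_norm _))
    (Real.exp_pos _).le
  have e1 : ∫ t : ℝ, 1 * cmG b τ (((0 : ℝ) : ℂ) + t * I) = ((√(Real.pi / b) : ℝ) : ℂ) := by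
    rw [← hg, ← integral_complex_ofReal]
    refine integral_congr_ae (ae_of_all _ fun t => ?_)
    simp only [cmG, one_mul, ofReal_exp]
    congr 1
    push_cast
    linear_combination (b * (t - τ) ^ 2 : ℂ) * I_mul_I
  have e2 : ‖(∫ t : ℝ, L (U + t * I) * cmG b τ (U + t * I)) -
      ∫ t : ℝ, 1 * cmG b τ (U + t * I)‖ ≤ 3 / 10 * √(Real.pi / b) := by
    rw [← integral_sub i1 i2, ← hg, ← integral_const_mul]
    refine norm_integral_le_of_norm_le (hgi.const_mul _) (ae_of_all _ fun t => ?_)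
    rw [← sub_mul, norm_mul, cmGn, hbU, ← mul_assoc]
    refine mul_le_mul_of_nonneg_right ?_ (Real.exp_pos _).le
    have h2 := h1 (U + t * I) (by simp)
    have h3 := Real.exp_one_lt_d9
    nlinarith [Real.exp_pos 1, norm_nonneg (L (U + t * I) - 1)]
  rw [← s1, ← s2, e1] at e2
  have e3 := norm_sub_norm_le ((√(Real.pi / b) : ℝ) : ℂ)
    (∫ t : ℝ, L (((1 / 2 : ℝ) : ℂ) + t * I) * cmG b τ (((1 / 2 : ℝ) : ℂ) + t * I))
  rw [norm_sub_rev, norm_real, Real.norm_of_nonneg hG.le] at e3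
  linarith

theorem lwPart {f : ℝ → ℝ} {C A b : ℝ} (hC : 0 ≤ C) (hA : 0 ≤ A)
    (hb : 0 < b) (hf : ∀ t, f t ≤ C * Real.exp (A * |t|)) {X τ : ℝ} (hX : 0 ≤ X) (h1 : X ≤ τ)
    (h2 : τ ≤ 2 * X) (hi : Integrable fun t => f t * Real.exp (-b * (t - τ) ^ 2)) :
    ∫ t, f t * Real.exp (-b * (t - τ) ^ 2) ≤
      (∫ t in (X / 2)..(3 * X), f t * Real.exp (-b * (t - τ) ^ 2)) +
        C * Real.exp ((5 * A + 2) ^ 2 / (4 * b) - X / 2) * ∫ t : ℝ, Real.exp (-1 * |t|) := by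
  have j1 : Integrable fun t : ℝ =>
      C * Real.exp ((5 * A + 2) ^ 2 / (4 * b) - X / 2) * Real.exp (-1 * |t - τ|) :=
    ((cmIntExp one_pos).comp_sub_right τ).const_mul _
  have j2 := hi.indicator (measurableSet_Ioc (a := X / 2) (b := 3 * X))
  rw [intervalIntegral.integral_of_le (by linarith), ← integral_indicator measurableSet_Ioc,
    ← integral_sub_right_eq_self (fun t : ℝ => Real.exp (-1 * |t|)) τ, ← integral_const_mul,
    ← integral_add j2 j1]
  refine integral_mono hi (j2.add j1) fun t => ?_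
  by_cases ht : t ∈ Ioc (X / 2) (3 * X)
  · simp only [indicator_of_mem ht]
    exact le_add_of_nonneg_right (by positivity)
  · simp only [indicator_of_notMem ht, zero_add]
    refine (mul_le_mul_of_nonneg_right (hf t) (Real.exp_pos _).le).trans ?_
    rw [mul_assoc, mul_assoc, ← Real.exp_add, ← Real.exp_add]
    refine mul_le_mul_of_nonneg_left (Real.exp_le_exp.mpr ?_) hC
    have h3 : X / 2 ≤ |t - τ| := by
      rw [mem_Ioc, not_and_or, not_lt, not_le] at ht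
      rcases ht with h | h
      · exact le_abs.2 (Or.inr (by linarith))
      · exact le_abs.2 (Or.inl (by linarith))
    have h4 : |t| ≤ 5 * |t - τ| := by
      have := abs_add_le (t - τ) τ
      rw [sub_add_cancel, abs_of_nonneg (show 0 ≤ τ by linarith)] at this
      linarith
    have h5 := lwQ hb (5 * A + 2) (t - τ)
    have h6 := mul_le_mul_of_nonneg_left h4 hA
    linarith

theorem lwKer {b : ℝ} (hb : 0 < b) (X t : ℝ) (N : ℕ) :
    ∑ n ∈ Finset.range N, Real.exp (-b * (t - (X + n)) ^ 2) ≤ 8 * Real.exp (9 / (4 * b)) := by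
  have key : ∀ n : ℕ, Real.exp (-b * (t - (X + n)) ^ 2) ≤
      Real.exp (-|X - t + n|) * Real.exp (9 / (4 * b)) := by
    intro n
    have h3 := cmQ hb (t - (X + n))
    have h4 : |t - (X + n)| = |X - t + n| := by rw [← abs_neg]; congr 1; ring
    rw [h4] at h3
    rw [← Real.exp_add]
    apply Real.exp_le_exp.mpr
    linarith [abs_nonneg (X - t + n)]
  refine (Finset.sum_le_sum fun n _ => key n).trans ?_
  rw [← Finset.sum_mul]
  exact mul_le_mul_of_nonneg_right (cmSum _ N) (Real.exp_pos _).le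

theorem sLow2 : SLow2 := by
  intro L U C A hL hU hB h1
  have hLB : ∀ σ t : ℝ, 1 / 2 ≤ σ → σ ≤ U → ‖L (σ + t * I)‖ ≤ |C| * Real.exp (|A| * |t|) := by
    intro σ t a1 a2
    have := hB (σ + t * I) (by simpa using a1) (by simpa using a2)
    simp only [add_im, ofReal_im, mul_im, ofReal_re, I_im, mul_one, I_re, mul_zero, add_zero,
      zero_add] at this
    refine this.trans (mul_le_mul (le_abs_self C) (Real.exp_le_exp.2 ?_) (Real.exp_pos _).le
      (abs_nonneg C))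
    exact mul_le_mul_of_nonneg_right (le_abs_self A) (abs_nonneg t)
  obtain ⟨b, c, hb, hc, hlow⟩ := lwLow hL hU (abs_nonneg C) (abs_nonneg A) hLB h1
  have e : ∀ t : ℝ, (1 / 2 : ℂ) + t * I = ((1 / 2 : ℝ) : ℂ) + t * I := by
    intro t; push_cast; rfl
  simp only [e]
  set f : ℝ → ℝ := fun t => ‖L (((1 / 2 : ℝ) : ℂ) + t * I)‖ with hf
  have hfc : Continuous f := (hL.continuous.comp (by fun_prop)).norm
  have hf0 : ∀ t, 0 ≤ f t := fun t => norm_nonneg _
  have hfb : ∀ t, f t ≤ |C| * Real.exp (|A| * |t|) := fun t => hLB _ t le_rfl (by linarith)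
  have ht : Tendsto (fun X : ℝ => |C| * Real.exp ((5 * |A| + 2) ^ 2 / (4 * b) - X / 2) *
      ∫ t : ℝ, Real.exp (-1 * |t|)) atTop (𝓝 (|C| * 0 * ∫ t : ℝ, Real.exp (-1 * |t|))) := by
    refine ((Real.tendsto_exp_atBot.comp ?_).const_mul _).mul_const _
    exact tendsto_atBot_add_const_left _ _
      (tendsto_neg_atTop_atBot.comp (tendsto_id.atTop_div_const two_pos))
  rw [mul_zero, zero_mul] at ht
  obtain ⟨X₀, hX₀⟩ := eventually_atTop.1 (ht.eventually (ge_mem_nhds (half_pos hc)))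
  have hM : 0 < 8 * Real.exp (9 / (4 * b)) := by positivity
  refine ⟨c / 4 / (8 * Real.exp (9 / (4 * b))), max X₀ 2, by positivity, fun X hX => ?_⟩
  have hX2 : 2 ≤ X := (le_max_right _ _).trans hX
  have hX1 := hX₀ X ((le_max_left _ _).trans hX)
  have hN1 : (⌊X⌋₊ : ℝ) ≤ X := Nat.floor_le (by linarith)
  have hN2 : X / 2 ≤ ⌊X⌋₊ := by linarith [Nat.lt_floor_add_one X]
  have k1 : ∀ n ∈ Finset.range ⌊X⌋₊, c / 2 ≤
      ∫ t in (X / 2)..(3 * X), f t * Real.exp (-b * (t - (X + n)) ^ 2) := by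
    intro n hn
    have a1 : (n : ℝ) ≤ ⌊X⌋₊ := by exact_mod_cast (Finset.mem_range.1 hn).le
    have a2 : (0 : ℝ) ≤ n := Nat.cast_nonneg n
    have a3 := lwPart (abs_nonneg C) (abs_nonneg A) hb hfb (X := X) (τ := X + n)
      (by linarith) (by linarith) (by linarith) (hlow _).1
    linarith [(hlow (X + n)).2]
  have k2 := Finset.card_nsmul_le_sum _ _ _ k1
  rw [Finset.card_range, nsmul_eq_mul, ← intervalIntegral.integral_finsetSum
    fun n _ => Continuous.intervalIntegrable (by fun_prop) _ _] at k2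
  have k3 : ∫ t in (X / 2)..(3 * X), ∑ n ∈ Finset.range ⌊X⌋₊,
      f t * Real.exp (-b * (t - (X + n)) ^ 2) ≤
      ∫ t in (X / 2)..(3 * X), 8 * Real.exp (9 / (4 * b)) * f t := by
    refine intervalIntegral.integral_mono (by linarith) (Continuous.intervalIntegrable ?_ _ _)
      (Continuous.intervalIntegrable (by fun_prop) _ _) fun t => ?_
    · fun_prop
    · simp only
      rw [← Finset.mul_sum, mul_comm]
      exact mul_le_mul_of_nonneg_right (lwKer hb X t _) (hf0 t)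
  rw [intervalIntegral.integral_const_mul] at k3
  rw [div_mul_eq_mul_div, div_le_iff₀ hM]
  have k4 := mul_le_mul_of_nonneg_right hN2 (half_pos hc).le
  linarith

theorem lwStir (a b : ℝ) : ∃ C : ℝ, 1 ≤ C ∧ ∀ σ u : ℝ, a ≤ σ → σ ≤ b → C ≤ u →
    Real.exp (-1) * u ^ (σ - 1 / 2) * Real.exp (-Real.pi * u / 2) ≤ ‖Gamma (σ + u * I)‖ := by
  obtain ⟨C, hC, H⟩ := sSt a b
  refine ⟨C, hC, fun σ u h1 h2 h3 => ?_⟩
  obtain ⟨R, hR, e⟩ := H σ u h1 h2 h3
  have hu : 0 < u := by linarith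
  have hR1 : ‖R‖ ≤ 1 := hR.trans (by rw [div_le_one hu]; exact h3)
  have hR2 : Real.exp (-1) ≤ Real.exp R.re := by
    apply Real.exp_le_exp.2
    linarith [abs_re_le_norm R, neg_abs_le R.re]
  have l0 : 1 ≤ √(2 * Real.pi) := by
    rw [Real.one_le_sqrt]
    linarith [Real.pi_gt_three]
  have l1 : 0 < u ^ (σ - 1 / 2) * Real.exp (-Real.pi * u / 2) := by positivity
  rw [e, norm_mul, norm_mul, norm_exp_I_mul_ofReal, norm_exp, norm_real,
    Real.norm_of_nonneg (by positivity), mul_one, mul_assoc, mul_assoc √_, mul_comm]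
  exact mul_le_mul (le_mul_of_one_le_left l1.le l0) hR2 (Real.exp_pos _).le (by positivity)

theorem lwInv (a b : ℝ) : ∃ C : ℝ, 1 ≤ C ∧ ∀ w : ℂ, a ≤ w.re → w.re ≤ b → C ≤ w.im →
    ‖(Gamma w)⁻¹‖ ≤ Real.exp 1 * Real.exp ((|a| + 3) * w.im) := by
  obtain ⟨C, hC, H⟩ := lwStir a b
  refine ⟨C, hC, fun w h1 h2 h3 => ?_⟩
  have e := H w.re w.im h1 h2 h3
  have hu : 1 ≤ w.im := by linarith
  rw [re_add_im, Real.rpow_def_of_pos (by linarith), ← Real.exp_add, ← Real.exp_add] at e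
  rw [norm_inv, ← Real.exp_add]
  refine (inv_anti₀ (Real.exp_pos _) e).trans ?_
  rw [← Real.exp_neg]
  apply Real.exp_le_exp.2
  have l1 : 0 ≤ Real.log w.im := Real.log_nonneg hu
  have l2 : Real.log w.im ≤ w.im := by
    linarith [Real.log_le_sub_one_of_pos (show 0 < w.im by linarith)]
  have l3 : Real.pi * w.im ≤ 4 * w.im :=
    mul_le_mul_of_nonneg_right Real.pi_le_four (by linarith)
  have l4 : Real.log w.im * (-(|a| + 1)) ≤ Real.log w.im * (w.re - 1 / 2) :=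
    mul_le_mul_of_nonneg_left (by linarith [neg_abs_le a]) l1
  have l5 : (|a| + 1) * Real.log w.im ≤ (|a| + 1) * w.im :=
    mul_le_mul_of_nonneg_left l2 (by positivity)
  linarith

theorem sInv : SInv := by
  refine ⟨fun a b => ?_, fun σ => ?_⟩
  · obtain ⟨C, hC, H⟩ := lwInv a b
    obtain ⟨M, hM⟩ := ((isCompact_Icc (a := a) (b := b)).reProdIm
      (isCompact_Icc (a := -C) (b := C))).exists_bound_of_continuousOn
      differentiable_one_div_Gamma.continuous.continuousOn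
    refine ⟨|M| + Real.exp 1, |a| + 3, fun w h1 h2 => ?_⟩
    have p1 : 1 ≤ Real.exp ((|a| + 3) * |w.im|) := Real.one_le_exp (by positivity)
    have p2 := Real.exp_pos 1
    have p3 := abs_nonneg M
    rcases le_total |w.im| C with h | h
    · have := (hM w ⟨⟨h1, h2⟩, abs_le.1 h⟩).trans (le_abs_self M)
      nlinarith
    · have : ‖(Gamma w)⁻¹‖ ≤ Real.exp 1 * Real.exp ((|a| + 3) * |w.im|) := by
        rcases le_total 0 w.im with h0 | h0
        · rw [abs_of_nonneg h0] at h ⊢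
          exact H w h1 h2 h
        · rw [abs_of_nonpos h0] at h ⊢
          have := H ((starRingEnd ℂ) w) (by simpa using h1) (by simpa using h2) (by simpa using h)
          rw [Gamma_conj, norm_inv, norm_conj, ← norm_inv] at this
          simpa using this
      nlinarith
  · obtain ⟨C, hC, H⟩ := lwStir σ σ
    exact ⟨Real.exp (-1), C, Real.exp_pos _, by linarith, fun t ht => H σ t le_rfl le_rfl ht⟩

end Pool.Agent.HilH
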