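import Pool.Agent.Lib.MP_d79f69_nt.H4Defs

/-!
Mixing on the quotient from the Howe-Moore theorem.
-/

open MeasureTheory Filter Topology
open scoped ENNReal Pointwise

namespace Pool.Agent.HilH

instance mix_countable (N : ℕ) : Countable (GamR N) := by
  have : Countable (Matrix (Fin 2) (Fin 2) ℤ) := inferInstanceAs (Countable (Fin 2 → Fin 2 → ℤ))
  have : Countable (Matrix.SpecialLinearGroup (Fin 2) ℤ) :=
    inferInstanceAs (Countable {A : Matrix (Fin 2) (Fin 2) ℤ // A.det = 1})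
  have h : ((GamR N : Subgroup G) : Set G).Countable := by
    unfold GamR
    rw [Subgroup.coe_map]
    exact (Set.to_countable _).image _
  exact h.to_subtype

theorem mix_cont {Φ : G → ℂ} (h : RUC Φ) : Continuous Φ := by
  refine continuous_iff_continuousAt.2 fun g => Metric.tendsto_nhds.2 fun ε hε => ?_
  have t : Tendsto (fun x : G => g⁻¹ * x) (𝓝 g) (𝓝 1) := by
    have h1 : Continuous fun x : G => g⁻¹ * x := continuous_const.mul continuous_id
    simpa using h1.tendsto g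
  filter_upwards [t.eventually (h (ε / 2) (half_pos hε))] with x hx
  have h1 := hx g
  rw [mul_inv_cancel_left] at h1
  rw [dist_eq_norm]
  linarith

theorem mix_ruc {Φ : G → ℂ} (h : RUC Φ) (a : G) : RUC fun g => Φ (g * a) := by
  intro ε hε
  have t : Tendsto (fun x : G => a⁻¹ * x * a) (𝓝 1) (𝓝 1) := by
    have h1 : Continuous fun x : G => a⁻¹ * x * a :=
      (continuous_const.mul continuous_id).mul continuous_const
    simpa using h1.tendsto 1
  filter_upwards [t.eventually (h ε hε)] with w hw g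
  have h1 := hw (g * a)
  have e : g * a * (a⁻¹ * w * a) = g * w * a := by group
  rwa [e] at h1

/-- bounded, right uniformly continuous, invariant functions -/
def mixB (N : ℕ) : Submodule ℂ (G → ℂ) where
  carrier := {Φ | (∃ C : ℝ, ∀ g, ‖Φ g‖ ≤ C) ∧ RUC Φ ∧ ∀ γ ∈ GamR N, ∀ g, Φ (γ * g) = Φ g}
  zero_mem' := ⟨⟨0, fun g => by simp⟩, fun ε hε => Eventually.of_forall fun w g => by
    simpa using hε.le, fun _ _ _ => rfl⟩
  add_mem' := by
    rintro Φ Ψ ⟨⟨C, hC⟩, h1, h2⟩ ⟨⟨D, hD⟩, h3, h4⟩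
    refine ⟨⟨C + D, fun g => (norm_add_le _ _).trans (add_le_add (hC g) (hD g))⟩,
      fun ε hε => ?_, fun γ hγ g => by simp only [Pi.add_apply, h2 γ hγ, h4 γ hγ]⟩
    filter_upwards [h1 _ (half_pos hε), h3 _ (half_pos hε)] with w ha hb g
    have e : (Φ + Ψ) (g * w) - (Φ + Ψ) g = (Φ (g * w) - Φ g) + (Ψ (g * w) - Ψ g) := by
      simp only [Pi.add_apply]
      ring
    rw [e]
    linarith [norm_add_le (Φ (g * w) - Φ g) (Ψ (g * w) - Ψ g), ha g, hb g]
  smul_mem' := by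
    rintro c Φ ⟨⟨C, hC⟩, h1, h2⟩
    refine ⟨⟨‖c‖ * C, fun g => ?_⟩, fun ε hε => ?_,
      fun γ hγ g => by simp only [Pi.smul_apply, h2 γ hγ]⟩
    · rw [Pi.smul_apply, norm_smul]
      exact mul_le_mul_of_nonneg_left (hC g) (norm_nonneg _)
    · have hc : 0 < ‖c‖ + 1 := by positivity
      filter_upwards [h1 _ (div_pos hε hc)] with w ha g
      rw [Pi.smul_apply, Pi.smul_apply, ← smul_sub, norm_smul]
      have h3 := (le_div_iff₀ hc).1 (ha g)
      nlinarith [norm_nonneg (Φ (g * w) - Φ g)]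

/-- right translation -/
def mixR (N : ℕ) (a : G) : Module.End ℂ (mixB N) where
  toFun Φ := ⟨fun g => Φ.1 (g * a), ⟨Φ.2.1.imp fun _ hC g => hC _, mix_ruc Φ.2.2.1 a,
    fun γ hγ g => by
      show Φ.1 (γ * g * a) = Φ.1 (g * a)
      rw [mul_assoc, Φ.2.2.2 γ hγ]⟩⟩
  map_add' _ _ := rfl
  map_smul' _ _ := rfl

/-- the representation by right translations -/
def mixPi (N : ℕ) : G →* Module.End ℂ (mixB N) where
  toFun := mixR N
  map_one' := by
    ext Φ g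
    show Φ.1 (g * 1) = Φ.1 g
    rw [mul_one]
  map_mul' a b := by
    ext Φ g
    show Φ.1 (g * (a * b)) = Φ.1 (g * a * b)
    rw [mul_assoc]

theorem mix_memLp {N : ℕ} (ν : Measure G) [IsFiniteMeasure ν] (Φ : mixB N) : MemLp Φ.1 2 ν := by
  obtain ⟨C, hC⟩ := Φ.2.1
  exact MemLp.of_bound (mix_cont Φ.2.2.1).aestronglyMeasurable C (Eventually.of_forall hC)

/-- the map to the space of square integrable functions -/
noncomputable def mixJ (N : ℕ) (ν : Measure G) [IsFiniteMeasure ν] : mixB N →ₗ[ℂ] Lp ℂ 2 ν where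
  toFun Φ := (mix_memLp ν Φ).toLp Φ.1
  map_add' Φ Ψ := MemLp.toLp_add (mix_memLp ν Φ) (mix_memLp ν Ψ)
  map_smul' c Φ := MemLp.toLp_const_smul c (mix_memLp ν Φ)

theorem mixJ_norm {N : ℕ} (ν : Measure G) [IsFiniteMeasure ν] (Φ : mixB N) :
    ‖mixJ N ν Φ‖ = (eLpNorm Φ.1 2 ν).toReal := Lp.norm_toLp _ (mix_memLp ν Φ)

theorem mix_int {N : ℕ} (g₀ : G) {W : Set G} (hW : IsCompact W) (Φ : mixB N) :
    IntegrableOn (fun w => Φ.1 (g₀ * w)) W mu :=
  ((mix_cont Φ.2.2.1).comp (continuous_const.mul continuous_id)).continuousOn.integrableOn_compact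
    hW

/-- the linear form -/
noncomputable def mixL (N : ℕ) (g₀ : G) {W : Set G} (hW : IsCompact W) : mixB N →ₗ[ℂ] ℂ where
  toFun Φ := ∫ w in W, Φ.1 (g₀ * w) ∂mu
  map_add' Φ Ψ := integral_add (mix_int g₀ hW Φ) (mix_int g₀ hW Ψ)
  map_smul' c Φ := integral_smul c fun w => Φ.1 (g₀ * w)

theorem mix_fin {N : ℕ} {F S : Set G} (hF : IsFundamentalDomain (GamR N) F mu)
    (hS : ∀ g : G, ∃ γ ∈ GamR N, γ * g ∈ S) : mu F ≤ mu S := by
  rw [hF.measure_eq_tsum S]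
  refine le_trans (measure_mono fun x hx => ?_) (measure_iUnion_le _)
  obtain ⟨γ, hγ, h⟩ := hS x
  refine Set.mem_iUnion.2 ⟨(⟨γ, hγ⟩ : GamR N)⁻¹, ?_, hx⟩
  rw [Set.mem_inv_smul_set_iff]
  exact h

theorem mix_inv (h2 : SUni) {N : ℕ} {F : Set G} (hF : IsFundamentalDomain (GamR N) F mu)
    (h : G → ℝ≥0∞) (hh : ∀ γ ∈ GamR N, ∀ g, h (γ * g) = h g) (a : G) :
    ∫⁻ x in F, h (x * a) ∂mu = ∫⁻ x in F, h x ∂mu := by
  have : mu.IsMulRightInvariant := h2
  have hp : MeasurePreserving (fun x : G => x * a⁻¹) mu mu := measurePreserving_mul_right mu a⁻¹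
  have hF' : IsFundamentalDomain (GamR N) ((fun x : G => x * a⁻¹) ⁻¹' F) mu :=
    hF.preimage_of_equiv hp.quasiMeasurePreserving (e := id) Function.bijective_id
      fun γ x => mul_assoc (γ : G) x a⁻¹
  have h1 := hp.setLIntegral_comp_preimage_emb (MeasurableEquiv.mulRight a⁻¹).measurableEmbedding
    (fun x => h (x * a)) F
  simp only [inv_mul_cancel_right] at h1
  rw [← h1]
  exact hF'.setLIntegral_eq hF h fun γ x => hh γ γ.2 x

theorem mix_cover (h3 : SFin) {N : ℕ} {F : Set G} (hF : IsFundamentalDomain (GamR N) F mu)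
    {V : Set G} (hV : IsCompact V) : ∃ M : ℝ≥0∞, M ≠ ⊤ ∧ ∀ h : G → ℝ≥0∞, Measurable h →
      (∀ γ ∈ GamR N, ∀ g, h (γ * g) = h g) → ∫⁻ x in V, h x ∂mu ≤ M * ∫⁻ x in F, h x ∂mu := by
  classical
  have hT : {γ : GamR N | (γ : G) ∈ V * V⁻¹}.Finite :=
    ((h3 N _ (hV.mul hV.inv)).preimage Subtype.val_injective.injOn).subset fun γ hγ => ⟨hγ, γ.2⟩
  refine ⟨∑' γ : GamR N, if (γ : G) ∈ V * V⁻¹ then 1 else 0, ?_, fun h hm hh => ?_⟩
  · rw [tsum_eq_sum (s := hT.toFinset)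
      (f := fun γ : GamR N => if (γ : G) ∈ V * V⁻¹ then (1 : ℝ≥0∞) else 0)
      fun γ hγ => if_neg fun h => hγ (hT.mem_toFinset.2 h)]
    refine (ENNReal.sum_lt_top.2 fun γ _ => ?_).ne
    split_ifs <;> simp
  · have hm' : ∀ γ : GamR N, Measurable fun x : G => V.indicator h (γ⁻¹ • x) := fun γ =>
      (hm.indicator hV.measurableSet).comp (measurable_const_mul ((γ⁻¹ : GamR N) : G))
    rw [← lintegral_indicator hV.measurableSet, hF.lintegral_eq_tsum',
      ← lintegral_tsum fun γ => (hm' γ).aemeasurable, ← lintegral_const_mul _ hm]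
    refine lintegral_mono fun x => ?_
    by_cases hx : ∃ δ : GamR N, δ⁻¹ • x ∈ V
    · obtain ⟨δ, hδ⟩ := hx
      rw [← ENNReal.tsum_mul_right, ← ((Equiv.inv (GamR N)).trans (Equiv.mulRight δ)).tsum_eq
        fun γ : GamR N => (if (γ : G) ∈ V * V⁻¹ then (1 : ℝ≥0∞) else 0) * h x]
      refine ENNReal.tsum_le_tsum fun γ => ?_
      by_cases hγ : γ⁻¹ • x ∈ V
      · have h1 : ((γ⁻¹ * δ : GamR N) : G) ∈ V * V⁻¹ := by
          refine ⟨_, hγ, _, Set.inv_mem_inv.2 hδ, ?_⟩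
          show ((γ⁻¹ : GamR N) : G) * x * (((δ⁻¹ : GamR N) : G) * x)⁻¹ = _
          push_cast
          group
        rw [Set.indicator_of_mem hγ]
        show h (((γ⁻¹ : GamR N) : G) * x) ≤
          (if ((γ⁻¹ * δ : GamR N) : G) ∈ V * V⁻¹ then (1 : ℝ≥0∞) else 0) * h x
        rw [if_pos h1, one_mul, hh _ (γ⁻¹).2]
      · rw [Set.indicator_of_notMem hγ]
        exact zero_le
    · push Not at hx
      simp only [Set.indicator_of_notMem (hx _), tsum_zero]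
      exact zero_le

theorem sMix (h1 : SHM) (h2 : SUni) (h3 : SFin) (h4 : SFD) (h5 : SSie) : SMix := by
  intro Ψ N κ c C hN hc hC hR hΓ hκ g₀ W hW
  obtain ⟨F, -, hF⟩ := h4 N
  obtain ⟨S, -, hS, hcov⟩ := h5 N hN
  have hfin : mu F < ⊤ := (mix_fin hF hcov).trans_lt hS
  have : IsFiniteMeasure (mu.restrict F) := ⟨by rwa [Measure.restrict_apply_univ]⟩
  have hV : IsCompact ((fun w => g₀ * w) '' W) := hW.image (continuous_const.mul continuous_id)
  obtain ⟨M, hM, hle⟩ := mix_cover h3 hF hV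
  have hP : mu.restrict F Set.univ ^ (1 / (1 : ℝ≥0∞).toReal - 1 / (2 : ℝ≥0∞).toReal) ≠ ⊤ :=
    ENNReal.rpow_ne_top_of_nonneg (by norm_num) (measure_ne_top _ _)
  refine h1 (mixB N) (Lp ℂ 2 (mu.restrict F)) (mixJ N _) (mixPi N) (fun a Φ => ?_) (fun Φ => ?_)
    ⟨Ψ, ⟨C, hC⟩, hR, hΓ⟩ κ c hc (Subtype.ext (funext hκ)) (mixL N g₀ hW)
    (M * mu.restrict F Set.univ ^ (1 / (1 : ℝ≥0∞).toReal - 1 / (2 : ℝ≥0∞).toReal)).toReal
    fun Φ => ?_
  · rw [mixJ_norm, mixJ_norm, eLpNorm_eq_lintegral_rpow_enorm_toReal two_ne_zero ENNReal.ofNat_ne_top,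
      eLpNorm_eq_lintegral_rpow_enorm_toReal two_ne_zero ENNReal.ofNat_ne_top]
    congr 2
    exact mix_inv h2 hF (fun x => ‖Φ.1 x‖ₑ ^ (2 : ℝ≥0∞).toReal)
      (fun γ hγ g => by simp only [Φ.2.2.2 γ hγ]) a
  · refine Metric.tendsto_nhds.2 fun ε hε => ?_
    set A : ℝ := (measureUnivNNReal (mu.restrict F) : ℝ) ^ (2 : ℝ≥0∞).toReal⁻¹ with hA
    have hA0 : 0 ≤ A := Real.rpow_nonneg (NNReal.coe_nonneg _) _
    have hA1 : 0 < A + 1 := by positivity
    filter_upwards [Φ.2.2.1 _ (div_pos hε hA1)] with w hw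
    rw [dist_eq_norm, ← map_sub]
    have h6 : ‖mixJ N (mu.restrict F) (mixPi N w Φ - Φ)‖ ≤ A * (ε / (A + 1)) := by
      refine Lp.norm_le_of_ae_bound (div_pos hε hA1).le ?_
      filter_upwards [(mix_memLp (mu.restrict F) (mixPi N w Φ - Φ)).coeFn_toLp] with x hx
      exact hx ▸ hw x
    refine h6.trans_lt ?_
    rw [← mul_div_assoc, div_lt_iff₀ hA1]
    nlinarith
  · have hcont := mix_cont Φ.2.2.1
    have e1 : ‖mixL N g₀ hW Φ‖ₑ ≤ ∫⁻ w in W, ‖Φ.1 (g₀ * w)‖ₑ ∂mu :=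
      enorm_integral_le_lintegral_enorm _
    have e2 : ∫⁻ w in W, ‖Φ.1 (g₀ * w)‖ₑ ∂mu = ∫⁻ x in (fun w => g₀ * w) '' W, ‖Φ.1 x‖ₑ ∂mu :=
      (measurePreserving_mul_left mu g₀).setLIntegral_comp_emb
        (MeasurableEquiv.mulLeft g₀).measurableEmbedding (fun x => ‖Φ.1 x‖ₑ) W
    have e3 := hle (fun x => ‖Φ.1 x‖ₑ) hcont.measurable.enorm
      fun γ hγ g => by simp only [Φ.2.2.2 γ hγ]
    have e4 := eLpNorm_le_eLpNorm_mul_rpow_measure_univ (p := 1) (q := 2) (μ := mu.restrict F)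
      one_le_two hcont.aestronglyMeasurable
    rw [eLpNorm_one_eq_lintegral_enorm] at e4
    have e5 := (e1.trans_eq e2).trans (e3.trans (mul_le_mul_right e4 M))
    rw [mixJ_norm, ← ENNReal.toReal_mul, ← toReal_enorm]
    refine ENNReal.toReal_mono (ENNReal.mul_ne_top (ENNReal.mul_ne_top hM hP)
      (mix_memLp (mu.restrict F) Φ).eLpNorm_ne_top) (e5.trans_eq ?_)
    ring

end Pool.Agent.HilH
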