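import Pool.Agent.Lib.MP_d79f69_nt.H4HM
import Pool.Agent.Lib.MP_d79f69_nt.H4Mix

/-!
Mixing on the quotient with a mean value.
-/

open MeasureTheory Filter Topology
open scoped ENNReal Pointwise

namespace Pool.Agent.HilH

/-- decay of matrix coefficients of a vector orthogonal to the invariant vectors -/
theorem mx2_hm0 {H : Type} [NormedAddCommGroup H] [InnerProductSpace ℂ H] [CompleteSpace H]
    (π : G →* (H →L[ℂ] H)) (hπ : ∀ g v, ‖π g v‖ = ‖v‖)
    (hc : ∀ v, Tendsto (fun g => π g v) (𝓝 1) (𝓝 v)) (Φ : H)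
    (hΦ : ∀ v, (∀ g, π g v = v) → inner ℂ v Φ = 0) (w : H) :
    Tendsto (fun t => inner ℂ w (π (Am t) Φ)) atBot (𝓝 0) := by
  rw [tendsto_iff_ultrafilter]
  intro U hU
  obtain ⟨v, hv⟩ := hm_weak U (fun t => π (Am t) Φ) ‖Φ‖ fun t => (hπ _ _).le
  have hL0 : Tendsto Lm (𝓝 0) (𝓝 1) := hm_Lm_zero ▸ hm_Lm_cont.tendsto 0
  have hL : ∀ x, π (Lm x) v = v := by
    intro x
    refine ext_inner_right ℂ fun u => ?_
    have e1 : ∀ a : H, inner ℂ (π (Lm x) a) u = inner ℂ a (π (Lm x)⁻¹ u) := by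
      intro a
      rw [← hm_inner hπ (Lm x) a, ← hm_mul, mul_inv_cancel, map_one]
      rfl
    have h1 : Tendsto (fun t => inner ℂ (π (Lm x) (π (Am t) Φ)) u) U
        (𝓝 (inner ℂ (π (Lm x) v) u)) := by
      simp only [e1]
      exact hv _
    have h2 : Tendsto (fun t => ‖π (Lm (x * Real.exp t)) Φ - Φ‖ * ‖u‖) U (𝓝 (0 * ‖u‖)) := by
      refine Tendsto.mul_const _ (hm_tend hc (hL0.comp ?_) Φ)
      have := Real.tendsto_exp_atBot.const_mul x
      rw [mul_zero] at this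
      exact this.mono_left hU
    rw [zero_mul] at h2
    have h3 : Tendsto (fun t => inner ℂ (π (Lm x) (π (Am t) Φ)) u - inner ℂ (π (Am t) Φ) u) U
        (𝓝 0) := by
      refine squeeze_zero_norm (fun t => ?_) h2
      rw [← inner_sub_left, ← hm_mul, hm_LA, hm_mul, ← map_sub, ← hπ (Am t)]
      exact norm_inner_le_norm _ _
    exact sub_eq_zero.mp (tendsto_nhds_unique (h1.sub (hv u)) h3)
  have hG := hm_mautner hπ hc hL
  have h1 : inner ℂ v Φ = 0 := hΦ v hG
  have h2 : v = 0 := by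
    have h3 : ∀ t, inner ℂ (π (Am t) Φ) v = 0 := by
      intro t
      rw [← hG (Am t), hm_inner hπ, inner_eq_zero_symm]
      exact h1
    have h4 := hv v
    simp only [h3] at h4
    exact inner_self_eq_zero.mp (tendsto_const_nhds_iff.mp h4).symm
  have h5 := (hv w).star
  rw [h2, inner_zero_left, star_zero] at h5
  simpa only [← starRingEnd_apply, inner_conj_symm] using h5

/-- the statement for a norm preserving map with dense range into a Hilbert space -/
theorem mx2_dense (B K : Type) [AddCommGroup B] [Module ℂ B] [NormedAddCommGroup K]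
    [InnerProductSpace ℂ K] [CompleteSpace K] (e : B →ₗ[ℂ] K) (hd : DenseRange e)
    (π : G →* Module.End ℂ B) (hn : ∀ g v, ‖e (π g v)‖ = ‖e v‖)
    (hc : ∀ v, Tendsto (fun g => e (π g v)) (𝓝 1) (𝓝 (e v))) (Φ : B)
    (hΦ : ∀ v : K, (∀ ε : ℝ, 0 < ε → ∃ b : B, ∀ g, ‖e (π g b) - v‖ ≤ ε) → inner ℂ v (e Φ) = 0)
    (l : B →ₗ[ℂ] ℂ) (C : ℝ) (hl : ∀ v, ‖l v‖ ≤ C * ‖e v‖) :
    Tendsto (fun t => l (π (Am t) Φ)) atBot (𝓝 0) := by
  let T : G → (K →L[ℂ] K) := fun g => (e ∘ₗ (π g : B →ₗ[ℂ] B)).extendOfNorm e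
  have hT : ∀ g v, T g (e v) = e (π g v) := fun g v =>
    LinearMap.extendOfNorm_eq hd ⟨1, fun x => by simp [hn]⟩ v
  have hext : ∀ S S' : K →L[ℂ] K, (∀ v, S (e v) = S' (e v)) → S = S' := by
    intro S S' hS
    ext x
    exact hd.induction_on x (isClosed_eq S.continuous S'.continuous) hS
  let P : G →* (K →L[ℂ] K) :=
    { toFun := T
      map_one' := hext _ _ fun v => by simp [hT]
      map_mul' := fun a b => hext _ _ fun v => by simp [hT] }
  have hP : ∀ g v, P g (e v) = e (π g v) := hT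
  have hiso : ∀ g x, ‖P g x‖ = ‖x‖ := by
    intro g x
    refine hd.induction_on x (isClosed_eq (by fun_prop) (by fun_prop)) fun v => ?_
    rw [hP, hn]
  have hcont : ∀ x, Tendsto (fun g => P g x) (𝓝 1) (𝓝 x) := by
    intro x
    rw [Metric.tendsto_nhds]
    intro ε hε
    obtain ⟨v, hv⟩ := hd.exists_dist_lt x (show 0 < ε / 3 by positivity)
    have h1 := Metric.tendsto_nhds.1 (hc v) (ε / 3) (by positivity)
    filter_upwards [h1] with g hg
    have h2 : dist (P g x) (P g (e v)) = dist x (e v) := by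
      rw [dist_eq_norm, dist_eq_norm, ← map_sub, hiso]
    have h3 := dist_triangle4 (P g x) (P g (e v)) (e v) x
    rw [h2, hP, dist_comm (e v) x] at h3
    linarith
  let L : K →L[ℂ] ℂ := l.extendOfNorm e
  have hL : ∀ v, L (e v) = l v := fun v => LinearMap.extendOfNorm_eq hd ⟨C, hl⟩ v
  have hk : ∀ v : K, (∀ g, P g v = v) → inner ℂ v (e Φ) = 0 := by
    refine fun v hv => hΦ v fun ε hε => ?_
    obtain ⟨b, hb⟩ := hd.exists_dist_lt v hε
    refine ⟨b, fun g => ?_⟩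
    rw [← hP, ← hv g, ← map_sub, hiso, ← dist_eq_norm, dist_comm]
    exact hb.le
  have := mx2_hm0 P hiso hcont (e Φ) hk ((InnerProductSpace.toDual ℂ K).symm L)
  simpa only [InnerProductSpace.toDual_symm_apply, hP, hL] using this

/-- the statement for a norm preserving map into a Hilbert space -/
theorem mx2_hm (B H : Type) [AddCommGroup B] [Module ℂ B] [NormedAddCommGroup H]
    [InnerProductSpace ℂ H] [CompleteSpace H] (J : B →ₗ[ℂ] H)
    (π : G →* Module.End ℂ B) (hn : ∀ g v, ‖J (π g v)‖ = ‖J v‖)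
    (hc : ∀ v, Tendsto (fun g => J (π g v)) (𝓝 1) (𝓝 (J v))) (Φ : B)
    (hΦ : ∀ v : H, (∀ ε : ℝ, 0 < ε → ∃ b : B, ∀ g, ‖J (π g b) - v‖ ≤ ε) → inner ℂ v (J Φ) = 0)
    (l : B →ₗ[ℂ] ℂ) (C : ℝ) (hl : ∀ v, ‖l v‖ ≤ C * ‖J v‖) :
    Tendsto (fun t => l (π (Am t) Φ)) atBot (𝓝 0) := by
  let K : Submodule ℂ H := (LinearMap.range J).topologicalClosure
  have hK : ∀ b, J b ∈ K := fun b => Submodule.le_topologicalClosure _ ⟨b, rfl⟩
  have : CompleteSpace K := (Submodule.isClosed_topologicalClosure _).completeSpace_coe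
  let e : B →ₗ[ℂ] K := J.codRestrict K hK
  have hd : DenseRange e := by
    refine Metric.denseRange_iff.2 fun x r hr => ?_
    have hx : (x : H) ∈ closure (LinearMap.range J : Set H) := x.2
    obtain ⟨y, ⟨b, rfl⟩, hy⟩ := Metric.mem_closure_iff.1 hx r hr
    exact ⟨b, hy⟩
  exact mx2_dense B K e hd π hn (fun v => tendsto_subtype_rng.2 (hc v)) Φ
    (fun v hv => hΦ v hv) l C hl

/-- a function whose right translates are all approximated at once is constant -/
theorem mx2_const (ν : Measure G) [IsFiniteMeasure ν] (hν : ν ≤ mu) (v : G → ℂ)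
    (hv : Measurable v) (P : ℝ≥0∞) (hP : P ≠ ⊤)
    (h : ∀ ε : ℝ, 0 < ε → ∃ Φ : G → ℂ, Continuous Φ ∧
      ∀ g, ∫⁻ x, ‖Φ (x * g) - v x‖ₑ ∂ν ≤ ENNReal.ofReal ε * P) :
    ∀ᵐ x ∂ν, ∀ᵐ y ∂ν, v x = v y := by
  classical
  have key : ∀ V : Set G, MeasurableSet V → mu V ≠ ⊤ →
      ∀ᵐ x ∂ν, ∀ᵐ y ∂ν, x⁻¹ * y ∈ V → v x = v y := by
    intro V hV hVf
    have hm : Measurable fun p : G × G => if p.1⁻¹ * p.2 ∈ V then ‖v p.1 - v p.2‖ₑ else 0 :=
      Measurable.ite ((measurable_fst.inv.mul measurable_snd) hV)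
        ((hv.comp measurable_fst).sub (hv.comp measurable_snd)).enorm measurable_const
    have hT : ∫⁻ x, ∫⁻ y, (if x⁻¹ * y ∈ V then ‖v x - v y‖ₑ else 0) ∂ν ∂ν = 0 := by
      by_contra hT
      obtain ⟨n, hn, hlt⟩ := ENNReal.exists_nnreal_pos_mul_lt
        (a := P * (mu V + ν Set.univ))
        (ENNReal.mul_ne_top hP (ENNReal.add_ne_top.2 ⟨hVf, measure_ne_top _ _⟩)) hT
      obtain ⟨Φ, hΦ, hle⟩ := h n (by exact_mod_cast hn)
      rw [ENNReal.ofReal_coe_nnreal] at hle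
      refine hlt.not_ge ?_
      have hm2 : Measurable fun y => ‖Φ y - v y‖ₑ := (hΦ.measurable.sub hv).enorm
      have hm3 : Measurable fun p : G × G => ‖Φ (p.1 * p.2) - v p.1‖ₑ :=
        ((hΦ.measurable.comp (measurable_fst.mul measurable_snd)).sub
          (hv.comp measurable_fst)).enorm
      have e1 : ∀ x, ∫⁻ y, (if x⁻¹ * y ∈ V then ‖v x - v y‖ₑ else 0) ∂ν
          ≤ ∫⁻ g in V, ‖Φ (x * g) - v x‖ₑ ∂mu + n * P := by
        intro x
        have e2 : ∫⁻ y, (if x⁻¹ * y ∈ V then ‖v x - v y‖ₑ else 0) ∂ν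
            ≤ ∫⁻ y, ((if x⁻¹ * y ∈ V then ‖Φ y - v x‖ₑ else 0) + ‖Φ y - v y‖ₑ) ∂ν := by
          refine lintegral_mono fun y => ?_
          by_cases hy : x⁻¹ * y ∈ V
          · simp only [if_pos hy]
            rw [← edist_eq_enorm_sub, ← edist_eq_enorm_sub, ← edist_eq_enorm_sub]
            exact edist_triangle_left _ _ _
          · simp only [if_neg hy]
            exact zero_le
        rw [lintegral_add_right _ hm2] at e2
        refine e2.trans (add_le_add ?_ (by simpa only [mul_one] using hle 1))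
        refine (lintegral_mono' hν le_rfl).trans_eq ?_
        rw [← lintegral_mul_left_eq_self _ x, ← lintegral_indicator hV]
        refine lintegral_congr fun g => ?_
        simp only [inv_mul_cancel_left, Set.indicator_apply]
      refine (lintegral_mono e1).trans ?_
      rw [lintegral_add_right _ measurable_const, lintegral_const,
        lintegral_lintegral_swap hm3.aemeasurable]
      have e3 : ∫⁻ g in V, ∫⁻ x, ‖Φ (x * g) - v x‖ₑ ∂ν ∂mu ≤ n * P * mu V := by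
        refine (lintegral_mono hle).trans_eq ?_
        rw [setLIntegral_const]
      refine (add_le_add e3 le_rfl).trans_eq ?_
      ring
    rw [lintegral_eq_zero_iff hm.lintegral_prod_right'] at hT
    filter_upwards [hT] with x hx
    have hx' := (lintegral_eq_zero_iff (hm.comp measurable_prodMk_left)).1 hx
    filter_upwards [hx'] with y hy hxy
    have h1 : (if x⁻¹ * y ∈ V then ‖v x - v y‖ₑ else 0) = 0 := hy
    rw [if_pos hxy, enorm_eq_zero, sub_eq_zero] at h1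
    exact h1
  have h1 := ae_all_iff.2 fun n : ℕ => key (spanningSets mu n) (measurableSet_spanningSets mu n)
    (measure_spanningSets_lt_top mu n).ne
  filter_upwards [h1] with x hx
  filter_upwards [ae_all_iff.2 hx] with y hy
  exact hy _ (mem_spanningSetsIndex mu _)

/-- an invariant vector is orthogonal to the functions of mean zero -/
theorem mx2_orth {N : ℕ} (ν : Measure G) [IsFiniteMeasure ν] (hν : ν ≤ mu) (Φ : mixB N)
    (h0 : ∫ x, Φ.1 x ∂ν = 0) (v : Lp ℂ 2 ν)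
    (hv : ∀ ε : ℝ, 0 < ε → ∃ b : mixB N, ∀ g, ‖mixJ N ν (mixPi N g b) - v‖ ≤ ε) :
    inner ℂ v (mixJ N ν Φ) = 0 := by
  have hP : ν Set.univ ^ (1 / (1 : ℝ≥0∞).toReal - 1 / (2 : ℝ≥0∞).toReal) ≠ ⊤ :=
    ENNReal.rpow_ne_top_of_nonneg (by norm_num) (measure_ne_top _ _)
  have h1 := mx2_const ν hν v (Lp.stronglyMeasurable v).measurable _ hP fun ε hε => by
    obtain ⟨b, hb⟩ := hv ε hε
    refine ⟨b.1, mix_cont b.2.2.1, fun g => ?_⟩
    have e1 := eLpNorm_le_eLpNorm_mul_rpow_measure_univ (p := 1) (q := 2) (μ := ν)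
      one_le_two (Lp.aestronglyMeasurable (mixJ N ν (mixPi N g b) - v))
    rw [eLpNorm_one_eq_lintegral_enorm, ← Lp.enorm_def, ← ofReal_norm] at e1
    refine le_trans (le_of_eq (lintegral_congr_ae ?_))
      (e1.trans (mul_le_mul_left (ENNReal.ofReal_le_ofReal (hb g)) _))
    filter_upwards [Lp.coeFn_sub (mixJ N ν (mixPi N g b)) v,
      (mix_memLp ν (mixPi N g b)).coeFn_toLp] with x hx hx'
    rw [hx, Pi.sub_apply]
    exact congrArg (fun z => ‖z - v x‖ₑ) hx'.symm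
  rw [L2.inner_def]
  rcases eq_zero_or_neZero ν with rfl | hne
  · exact integral_zero_measure _
  obtain ⟨x, hx⟩ := h1.exists
  have e2 : ∫ y, inner ℂ (v y) (mixJ N ν Φ y) ∂ν = ∫ y, Φ.1 y * (starRingEnd ℂ) (v x) ∂ν := by
    refine integral_congr_ae ?_
    filter_upwards [hx, (mix_memLp ν Φ).coeFn_toLp] with y hy hy'
    rw [RCLike.inner_apply, hy]
    exact congrArg (fun z => z * (starRingEnd ℂ) (v y)) hy'
  rw [e2, integral_mul_const, h0, zero_mul]

theorem sMix2 (h2 : SUni) (h3 : SFin) (h4 : SFD) (h5 : SSie) : SMix2 := by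
  intro Ψ N C hN hC hR hΓ
  obtain ⟨F, -, hF⟩ := h4 N
  obtain ⟨S, -, hS, hcov⟩ := h5 N hN
  have hfin : mu F < ⊤ := (mix_fin hF hcov).trans_lt hS
  have : IsFiniteMeasure (mu.restrict F) := ⟨by rwa [Measure.restrict_apply_univ]⟩
  refine ⟨⨍ x, Ψ x ∂(mu.restrict F), fun g₀ W hW => ?_⟩
  set m : ℂ := ⨍ x, Ψ x ∂(mu.restrict F) with hm
  let Ψ₀ : mixB N := ⟨Ψ, ⟨C, hC⟩, hR, hΓ⟩
  let Φ₀ : mixB N := ⟨fun g => Ψ g - m, ⟨C + ‖m‖, fun g =>
    (norm_sub_le _ _).trans (add_le_add (hC g) le_rfl)⟩,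
    fun ε hε => (hR ε hε).mono fun w hw g => by simpa only [sub_sub_sub_cancel_right] using hw g,
    fun γ hγ g => by simp only [hΓ γ hγ]⟩
  have hV : IsCompact ((fun w => g₀ * w) '' W) := hW.image (continuous_const.mul continuous_id)
  obtain ⟨M, hM, hle⟩ := mix_cover h3 hF hV
  have hP : mu.restrict F Set.univ ^ (1 / (1 : ℝ≥0∞).toReal - 1 / (2 : ℝ≥0∞).toReal) ≠ ⊤ :=
    ENNReal.rpow_ne_top_of_nonneg (by norm_num) (measure_ne_top _ _)
  have main : Tendsto (fun t => mixL N g₀ hW (mixPi N (Am t) Φ₀)) atBot (𝓝 0) := by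
    refine mx2_hm (mixB N) (Lp ℂ 2 (mu.restrict F)) (mixJ N _) (mixPi N) (fun a Φ => ?_)
      (fun Φ => ?_) Φ₀
      (mx2_orth _ Measure.restrict_le_self Φ₀ (integral_sub_average _ Ψ)) (mixL N g₀ hW)
      (M * mu.restrict F Set.univ ^ (1 / (1 : ℝ≥0∞).toReal - 1 / (2 : ℝ≥0∞).toReal)).toReal
      fun Φ => ?_
    · rw [mixJ_norm, mixJ_norm,
        eLpNorm_eq_lintegral_rpow_enorm_toReal two_ne_zero ENNReal.ofNat_ne_top,
        eLpNorm_eq_lintegral_rpow_enorm_toReal two_ne_zero ENNReal.ofNat_ne_top]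
      congr 2
      exact mix_inv h2 hF (fun x => ‖Φ.1 x‖ₑ ^ (2 : ℝ≥0∞).toReal)
        (fun γ hγ g => by simp only [Φ.2.2.2 γ hγ]) a
    · refine Metric.tendsto_nhds.2 fun ε hε => ?_
      set A : ℝ := (measureUnivNNReal (mu.restrict F) : ℝ) ^ (2 : ℝ≥0∞).toReal⁻¹ with hA
      have hA0 : 0 ≤ A := Real.rpow_nonneg (NNReal.coe_nonneg _) _
      have hA1 : 0 < A + 1 := by positivity
      filter_upwards [Φ.2.2.1 _ (div_pos hε hA1)] with w hw
      rw [dist_eq_norm, ← map_sub]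
      have h6 : ‖mixJ N (mu.restrict F) (mixPi N w Φ - Φ)‖ ≤ A * (ε / (A + 1)) := by
        refine Lp.norm_le_of_ae_bound (div_pos hε hA1).le ?_
        filter_upwards [(mix_memLp (mu.restrict F) (mixPi N w Φ - Φ)).coeFn_toLp] with x hx
        exact hx ▸ hw x
      refine h6.trans_lt ?_
      rw [← mul_div_assoc, div_lt_iff₀ hA1]
      nlinarith
    · have hcont := mix_cont Φ.2.2.1
      have e1 : ‖mixL N g₀ hW Φ‖ₑ ≤ ∫⁻ w in W, ‖Φ.1 (g₀ * w)‖ₑ ∂mu :=
        enorm_integral_le_lintegral_enorm _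
      have e2 : ∫⁻ w in W, ‖Φ.1 (g₀ * w)‖ₑ ∂mu = ∫⁻ x in (fun w => g₀ * w) '' W, ‖Φ.1 x‖ₑ ∂mu :=
        (measurePreserving_mul_left mu g₀).setLIntegral_comp_emb
          (MeasurableEquiv.mulLeft g₀).measurableEmbedding (fun x => ‖Φ.1 x‖ₑ) W
      have e3 := hle (fun x => ‖Φ.1 x‖ₑ) hcont.measurable.enorm
        fun γ hγ g => by simp only [Φ.2.2.2 γ hγ]
      have e4 := eLpNorm_le_eLpNorm_mul_rpow_measure_univ (p := 1) (q := 2) (μ := mu.restrict F)
        one_le_two hcont.aestronglyMeasurable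
      rw [eLpNorm_one_eq_lintegral_enorm] at e4
      have e5 := (e1.trans_eq e2).trans (e3.trans (mul_le_mul_right e4 M))
      rw [mixJ_norm, ← ENNReal.toReal_mul, ← toReal_enorm]
      refine ENNReal.toReal_mono (ENNReal.mul_ne_top (ENNReal.mul_ne_top hM hP)
        (mix_memLp (mu.restrict F) Φ).eLpNorm_ne_top) (e5.trans_eq ?_)
      ring
  have hW' : IsFiniteMeasure (mu.restrict W) :=
    ⟨by rw [Measure.restrict_apply_univ]; exact hW.measure_lt_top⟩
  have h7 := main.add_const ((mu.real W : ℂ) * m)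
  rw [zero_add] at h7
  refine h7.congr fun t => ?_
  have h8 : mixL N g₀ hW (mixPi N (Am t) Φ₀) = ∫ w in W, (Ψ (g₀ * w * Am t) - m) ∂mu := rfl
  have h9 : IntegrableOn (fun w => Ψ (g₀ * w * Am t)) W mu :=
    mix_int g₀ hW (mixPi N (Am t) Ψ₀)
  rw [h8, integral_sub h9 (integrable_const m), setIntegral_const, Complex.real_smul,
    sub_add_cancel]

end Pool.Agent.HilH
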