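import Pool.Agent.Lib.MP_d79f69_nt.H4Defs

/-!
From a Hilbert cusp form to the analytic data `HD`.
-/

open MeasureTheory Filter Topology NumberField

namespace Pool.Agent.HilH

universe u

theorem nf_ee_add (z w : ℂ) : ee (z + w) = ee z * ee w := by
  rw [ee, ee, ee, ← Complex.exp_add, mul_add]

theorem nf_ee_ne (z : ℂ) : ee z ≠ 0 := Complex.exp_ne_zero _

theorem nf_norm_ee : ‖ee (2 * Complex.I)‖ = Real.exp (-(4 * Real.pi)) := by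
  have e : 2 * (Real.pi : ℂ) * Complex.I * (2 * Complex.I) = ((-(4 * Real.pi) : ℝ) : ℂ) := by
    push_cast
    linear_combination (4 * Real.pi : ℂ) * Complex.I_mul_I
  rw [ee, e, Complex.norm_exp, Complex.ofReal_re]

theorem nf_coef (h1 : SCo.{u}) {ι : Type u} (ξ ζ : ι → ℝ) (b : ι → ℂ) (hξ : Function.Injective ξ)
    (z w : ℂ) (F : ℝ → ℂ) (M : ℝ)
    (hF : ∀ t : ℝ, HasSum (fun i => b i * ee (ξ i * (t + z) + ζ i * w)) (F t))
    (hM : ∀ t, ‖F t‖ ≤ M) (i : ι) : ‖b i * ee (ξ i * z + ζ i * w)‖ ≤ M := by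
  refine h1 ι ξ (fun i => b i * ee (ξ i * z + ζ i * w)) M hξ ?_ (fun t => ?_) i
  · simpa using (hF 0).summable
  · have e : ∀ i, b i * ee (ξ i * z + ζ i * w) * ee (ξ i * t) =
        b i * ee (ξ i * (t + z) + ζ i * w) := fun i => by
      rw [mul_assoc, ← nf_ee_add]
      congr 2
      ring
    simp only [e]
    rw [(hF t).tsum_eq]
    exact hM t

section Field

variable {K : Type u} [Field K]

/-- the square of a unit in the field -/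
def nfU : (𝓞 K)ˣ →* K where
  toFun v := ((v : 𝓞 K) : K) ^ 2
  map_one' := by simp
  map_mul' v w := by
    push_cast
    ring

theorem nfU_apply (v : (𝓞 K)ˣ) : nfU v = ((v : 𝓞 K) : K) ^ 2 := rfl

theorem nf_ne (v : (𝓞 K)ˣ) : ((v : 𝓞 K) : K) ≠ 0 := by
  simp

theorem nf_zpow (s : K →+* ℝ) (v : (𝓞 K)ˣ) {c : ℝ} (h : s ((v : 𝓞 K) : K) ^ 2 = Real.exp c)
    (n : ℤ) : s (nfU (v ^ n)) = Real.exp (c * n) := by
  rw [map_zpow, map_zpow₀, nfU_apply, map_pow, h, ← Real.rpow_intCast, ← Real.exp_mul]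

theorem nf_pos {σ τ : K →+* ℝ} {ν : K} (h : ν ∈ Pos σ τ) (v : (𝓞 K)ˣ) : ν * nfU v ∈ Pos σ τ := by
  obtain ⟨h1, h2, h3⟩ := h
  have hp : ∀ s : K →+* ℝ, 0 < s (nfU v) := fun s => by
    rw [nfU_apply, map_pow]
    exact sq_pos_of_ne_zero ((map_ne_zero s).2 (nf_ne v))
  refine ⟨by rw [map_mul]; exact mul_pos h1 (hp σ), by rw [map_mul]; exact mul_pos h2 (hp τ),
    fun x => ?_⟩
  have e : ν * nfU v * (x : K) = ν * (((v : 𝓞 K) ^ 2 * x : 𝓞 K) : K) := by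
    rw [nfU_apply]
    push_cast
    ring
  rw [e]
  exact h3 _

/-- multiplication by the square of a unit permutes the totally positive elements -/
def nfE (σ τ : K →+* ℝ) (v : (𝓞 K)ˣ) : Pos σ τ ≃ Pos σ τ where
  toFun ν := ⟨ν * nfU v, nf_pos ν.2 v⟩
  invFun ν := ⟨ν * nfU v⁻¹, nf_pos ν.2 v⁻¹⟩
  left_inv ν := Subtype.ext (by
    show (ν : K) * nfU v * nfU v⁻¹ = ν
    rw [mul_assoc, ← map_mul, mul_inv_cancel, map_one, mul_one])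
  right_inv ν := Subtype.ext (by
    show (ν : K) * nfU v⁻¹ * nfU v = ν
    rw [mul_assoc, ← map_mul, inv_mul_cancel, map_one, mul_one])

theorem nf_bij {σ τ : K →+* ℝ} {ε : (𝓞 K)ˣ} {l : ℝ} (hl : 0 < l)
    (hσ : σ ((ε : 𝓞 K) : K) ^ 2 = Real.exp l) (hv : ∀ v : (𝓞 K)ˣ, ∃ n : ℤ, v ^ 2 = (ε ^ n) ^ 2)
    {R : Set K} (hR : R ⊆ Pos σ τ)
    (hu : ∀ ν ∈ Pos σ τ, ∃! ρ, ρ ∈ R ∧ ∃ v : (𝓞 K)ˣ, ν = ρ * ((v : 𝓞 K) : K) ^ 2) :
    Function.Bijective fun i : R × ℤ =>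
      (⟨(i.1 : K) * nfU (ε ^ i.2), nf_pos (hR i.1.2) _⟩ : Pos σ τ) := by
  constructor
  · rintro ⟨ρ, n⟩ ⟨ρ', n'⟩ h
    have h' : (ρ : K) * nfU (ε ^ n) = ρ' * nfU (ε ^ n') := congrArg Subtype.val h
    have e : (ρ : K) = ρ' := (hu _ (nf_pos (hR ρ.2) (ε ^ n))).unique ⟨ρ.2, ε ^ n, rfl⟩
      ⟨ρ'.2, ε ^ n', h'⟩
    have h0 : (ρ' : K) ≠ 0 := (map_ne_zero σ).1 (hR ρ'.2).1.ne'
    rw [e] at h'
    have e2 := congrArg σ (mul_left_cancel₀ h0 h')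
    rw [nf_zpow σ ε hσ, nf_zpow σ ε hσ, Real.exp_eq_exp] at e2
    exact Prod.ext (Subtype.ext e) (Int.cast_injective (mul_left_cancel₀ hl.ne' e2))
  · rintro ⟨ν, hν⟩
    obtain ⟨ρ, ⟨hρ, v, e⟩, -⟩ := hu ν hν
    obtain ⟨n, hn⟩ := hv v
    refine ⟨(⟨ρ, hρ⟩, n), Subtype.ext ?_⟩
    have h2 := congrArg (fun x : (𝓞 K)ˣ => ((x : 𝓞 K) : K)) hn
    simp only [Units.val_pow_eq_pow_val] at h2
    push_cast at h2
    show ρ * nfU (ε ^ n) = ν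
    rw [e, nfU_apply, h2]

theorem nf_hU {σ τ : K →+* ℝ} {ε : (𝓞 K)ˣ} {l : ℝ} {p q : ℕ} {f : ℂ → ℂ → ℂ}
    (hσ : σ ((ε : 𝓞 K) : K) ^ 2 = Real.exp l) (hτ : τ ((ε : 𝓞 K) : K) ^ 2 = Real.exp (-l))
    (hmod : ∀ α β γ δ : 𝓞 K, α * δ - β * γ = 1 → ∀ z w : ℂ, 0 < z.im → 0 < w.im →
      f ((σ α * z + σ β) / (σ γ * z + σ δ)) ((τ α * w + τ β) / (τ γ * w + τ δ)) =
        (σ γ * z + σ δ) ^ (2 * p) * (τ γ * w + τ δ) ^ (2 * q) * f z w)
    (z w : ℂ) (hz : 0 < z.im) (hw : 0 < w.im) :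
    f (Real.exp l * z) (Real.exp (-l) * w) * (Real.exp (((p : ℝ) - q) * l) : ℝ) = f z w := by
  have h := hmod ε 0 0 (ε⁻¹ : (𝓞 K)ˣ) (by simp) z w hz hw
  have hi : ∀ s : K →+* ℝ, s (((ε⁻¹ : (𝓞 K)ˣ) : 𝓞 K) : K) = (s ((ε : 𝓞 K) : K))⁻¹ := fun s => by
    refine eq_inv_of_mul_eq_one_left ?_
    rw [← map_mul, ← map_mul (algebraMap (𝓞 K) K), Units.inv_mul, map_one, map_one]
  have h0 : ((0 : 𝓞 K) : K) = 0 := rfl
  have a1 : ∀ (s c : ℝ) (y : ℂ), s ^ 2 = c → (s * y + (0 : ℝ)) / ((0 : ℝ) * y + (s⁻¹ : ℝ)) = c * y :=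
    fun s c y e => by
    rw [← e]
    push_cast
    rw [add_zero, zero_mul, zero_add, div_inv_eq_mul]
    ring
  have a2 : ∀ (s c : ℝ) (y : ℂ) (k : ℕ), s ^ 2 = Real.exp c →
      (((0 : ℝ) : ℂ) * y + (s⁻¹ : ℝ)) ^ (2 * k) = (Real.exp (-(k * c)) : ℝ) := fun s c y k e => by
    rw [Complex.ofReal_zero, zero_mul, zero_add, ← Complex.ofReal_pow, pow_mul, inv_pow, e,
      inv_pow, ← Real.exp_nat_mul, Real.exp_neg]
  rw [hi, hi, h0, map_zero, map_zero, a1 _ _ _ hσ, a1 _ _ _ hτ, a2 _ _ _ _ hσ, a2 _ _ _ _ hτ] at h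
  rw [h, mul_right_comm, ← Complex.ofReal_mul, ← Complex.ofReal_mul, ← Real.exp_add,
    ← Real.exp_add, show -(p * l) + -(q * -l) + ((p : ℝ) - q) * l = 0 by ring, Real.exp_zero,
    Complex.ofReal_one, one_mul]

theorem nf_step (h1 : SCo.{u}) {σ τ : K →+* ℝ} {ε : (𝓞 K)ˣ} {l c : ℝ} {f : ℂ → ℂ → ℂ} {a : K → ℝ}
    (hσ : σ ((ε : 𝓞 K) : K) ^ 2 = Real.exp l) (hτ : τ ((ε : 𝓞 K) : K) ^ 2 = Real.exp (-l))
    (hf : ∀ z w : ℂ, 0 < z.im → 0 < w.im →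
      HasSum (fun ν : Pos σ τ => (a ν : ℂ) * ee (σ ν * z + τ ν * w)) (f z w))
    (hU : ∀ z w : ℂ, 0 < z.im → 0 < w.im →
      f (Real.exp l * z) (Real.exp (-l) * w) * (c : ℝ) = f z w)
    {ν : K} (hν : ν ∈ Pos σ τ) : a (ν * nfU ε) = a ν * c := by
  have e1 : σ (nfU ε) = Real.exp l := by rw [nfU_apply, map_pow, hσ]
  have e2 : τ (nfU ε) = Real.exp (-l) := by rw [nfU_apply, map_pow, hτ]
  have key := nf_coef h1 (fun ν : Pos σ τ => σ (ν * nfU ε)) (fun ν => τ (ν * nfU ε))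
    (fun ν => ((a (ν * nfU ε) - a ν * c : ℝ) : ℂ))
    (σ.injective.comp (Subtype.val_injective.comp (nfE σ τ ε).injective)) Complex.I Complex.I
    (fun _ => 0) 0 (fun t => by
      have hz : 0 < ((t : ℂ) + Complex.I).im := by simp
      have hw : 0 < Complex.I.im := by simp
      have s1 := (nfE σ τ ε).hasSum_iff.2 (hf _ _ hz hw)
      have s2 := (hf (Real.exp l * (t + Complex.I)) (Real.exp (-l) * Complex.I)
        (by rw [Complex.im_ofReal_mul]; exact mul_pos (Real.exp_pos _) hz)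
        (by rw [Complex.im_ofReal_mul]; exact mul_pos (Real.exp_pos _) hw)).mul_right (c : ℂ)
      rw [hU _ _ hz hw] at s2
      have s3 := s1.sub s2
      rw [sub_self] at s3
      refine (congrArg (HasSum · 0) (funext fun ν => ?_)).mpr s3
      show _ = (a (ν * nfU ε) : ℂ) * ee (σ (ν * nfU ε) * (t + Complex.I) +
        τ (ν * nfU ε) * Complex.I) - _
      rw [map_mul, map_mul, e1, e2, Complex.ofReal_mul, Complex.ofReal_mul, mul_assoc (σ ν : ℂ),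
        mul_assoc (τ ν : ℂ)]
      push_cast
      ring) (fun _ => by simp) ⟨ν, hν⟩
  rw [norm_le_zero_iff, mul_eq_zero, or_iff_left (nf_ee_ne _), Complex.ofReal_eq_zero] at key
  exact sub_eq_zero.1 key

theorem nf_orbit {σ τ : K →+* ℝ} {ε : (𝓞 K)ˣ} {c : ℝ} {a : K → ℝ}
    (h : ∀ ν ∈ Pos σ τ, a (ν * nfU ε) = a ν * Real.exp c) {ν : K} (hν : ν ∈ Pos σ τ) (n : ℤ) :
    a (ν * nfU (ε ^ n)) = a ν * Real.exp (c * n) := by
  have st : ∀ n : ℤ, a (ν * nfU (ε ^ (n + 1))) = a (ν * nfU (ε ^ n)) * Real.exp c := fun n => by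
    rw [zpow_add_one, map_mul, ← mul_assoc]
    exact h _ (nf_pos hν _)
  induction n using Int.induction_on with
  | zero => simp
  | succ n ih =>
    rw [st, ih, mul_assoc, ← Real.exp_add]
    push_cast
    rw [mul_add, mul_one]
  | pred n ih =>
    have e := st (-(n : ℤ) - 1)
    rw [sub_add_cancel, ih] at e
    refine mul_right_cancel₀ (Real.exp_pos c).ne' ?_
    rw [← e, mul_assoc, ← Real.exp_add]
    push_cast
    congr 2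
    ring

theorem nf_ha (h1 : SCo.{u}) {σ τ : K →+* ℝ} {p q : ℕ} {C : ℝ} {f : ℂ → ℂ → ℂ} {a : K → ℝ}
    (hf : ∀ z w : ℂ, 0 < z.im → 0 < w.im →
      HasSum (fun ν : Pos σ τ => (a ν : ℂ) * ee (σ ν * z + τ ν * w)) (f z w))
    (hB : ∀ z w : ℂ, 0 < z.im → 0 < w.im → ‖f z w‖ * z.im ^ p * w.im ^ q ≤ C)
    {ν : K} (hν : ν ∈ Pos σ τ) : |a ν| ≤ C * Real.exp (4 * Real.pi) * σ ν ^ p * τ ν ^ q := by
  obtain ⟨hs, ht, -⟩ := id hν
  have hz : ∀ t : ℝ, ((t : ℂ) + ((σ ν)⁻¹ : ℝ) * Complex.I).im = (σ ν)⁻¹ := fun t => by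
    rw [Complex.add_im, Complex.ofReal_im, Complex.im_ofReal_mul, Complex.I_im, mul_one, zero_add]
  have hw : ((((τ ν)⁻¹ : ℝ) : ℂ) * Complex.I).im = (τ ν)⁻¹ := by
    rw [Complex.im_ofReal_mul, Complex.I_im, mul_one]
  have key := nf_coef h1 (fun ν : Pos σ τ => σ ν) (fun ν => τ ν) (fun ν => (a ν : ℂ))
    (σ.injective.comp Subtype.val_injective) (((σ ν)⁻¹ : ℝ) * Complex.I)
    (((τ ν)⁻¹ : ℝ) * Complex.I) (fun t => f (t + ((σ ν)⁻¹ : ℝ) * Complex.I)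
      (((τ ν)⁻¹ : ℝ) * Complex.I)) (C * σ ν ^ p * τ ν ^ q)
    (fun t => hf _ _ (by rw [hz]; positivity) (by rw [hw]; positivity)) (fun t => by
      have b := hB (t + ((σ ν)⁻¹ : ℝ) * Complex.I) (((τ ν)⁻¹ : ℝ) * Complex.I)
        (by rw [hz]; positivity) (by rw [hw]; positivity)
      rwa [hz, hw, inv_pow, inv_pow, ← div_eq_mul_inv, ← div_eq_mul_inv,
        div_le_iff₀ (by positivity), div_le_iff₀ (by positivity), mul_right_comm] at b) ⟨ν, hν⟩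
  have e : ((σ ν : ℝ) : ℂ) * (((σ ν)⁻¹ : ℝ) * Complex.I) +
      ((τ ν : ℝ) : ℂ) * (((τ ν)⁻¹ : ℝ) * Complex.I) = 2 * Complex.I := by
    rw [← mul_assoc, ← mul_assoc, ← Complex.ofReal_mul, ← Complex.ofReal_mul,
      mul_inv_cancel₀ hs.ne', mul_inv_cancel₀ ht.ne', Complex.ofReal_one]
    ring
  dsimp only at key
  rw [e, norm_mul, nf_norm_ee, Complex.norm_real, Real.norm_eq_abs, Real.exp_neg,
    ← div_eq_mul_inv, div_le_iff₀ (Real.exp_pos _)] at key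
  refine key.trans (le_of_eq ?_)
  ring

end Field

theorem sNF (h1 : SCo.{u}) (h2 : SDel.{u}) (h3 : SUn.{u}) (h4 : SConj.{u}) (h5 : SRep.{u}) :
    SNF.{u} := by
  intro K _ _ hK σ τ hστ p q hp hq f a hpq hf hmod C hB R hR hu
  obtain ⟨δ, d, hδ, hδ', hd⟩ := h2 K hK σ τ hστ
  obtain ⟨ε, l, hl, hσ, hτ, hv⟩ := h3 K hK σ τ hστ
  obtain ⟨T, hT⟩ := h4 K σ τ δ d hδ hδ' hd
  obtain ⟨hint, hN⟩ := h5 K σ τ δ d ε l hδ hδ' hd hl hσ hτ R hR hu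
  have hd0 : 0 < d := Nat.cast_pos.1 (hd ▸ pow_pos hδ 2)
  have hU := nf_hU hσ hτ hmod
  have horb := fun {ν : K} (hν : ν ∈ Pos σ τ) (n : ℤ) =>
    nf_orbit (ε := ε) (fun ν hν => nf_step h1 hσ hτ hf hU hν) hν n
  refine ⟨{
    p := p, q := q, hp := hp, hq := hq, hpq := hpq
    x := fun ρ => σ ρ, y := fun ρ => τ ρ
    hx := fun ρ => (hR ρ.2).1, hy := fun ρ => (hR ρ.2).2.1
    a := fun ρ => a ρ, l := l, hl := hl, f := f
    hsum := fun z w hz hw => ?_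
    hU := hU
    hS := fun z w hz hw => ?_
    C := C, hB := hB
    Ca := C * Real.exp (4 * Real.pi)
    ha := fun ρ => nf_ha h1 hf hB (hR ρ.2)
    hN := hN
    m := 4 * d, hm := by omega
    hint := fun ρ => hint ρ (hR ρ.2)
    T := T, N := 2 * d, hN0 := by omega
    hΓ := fun γ hγ z w hz hw => ?_ }, rfl, rfl, rfl, rfl, rfl⟩
  · have s := (Equiv.ofBijective _ (nf_bij hl hσ hv hR hu)).hasSum_iff.2 (hf z w hz hw)
    convert s using 2 with i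
    show _ = (a (i.1 * nfU (ε ^ i.2)) : ℂ) *
      ee (σ (i.1 * nfU (ε ^ i.2)) * z + τ (i.1 * nfU (ε ^ i.2)) * w)
    rw [horb (hR i.1.2), map_mul, map_mul, nf_zpow σ ε hσ, nf_zpow τ ε hτ, neg_mul]
  · have s := hmod 0 (-1) 1 0 (by simp) z w hz hw
    simpa using s
  · obtain ⟨α, β, γ', δ', e, -, a1, a2, a3, a4, b1, b2, b3, b4⟩ := hT γ hγ
    have c1 : hat (T * γ * T⁻¹) 0 0 = τ α := b1
    have c2 : hat (T * γ * T⁻¹) 0 1 = τ β := b2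
    have c3 : hat (T * γ * T⁻¹) 1 0 = τ γ' := b3
    have c4 : hat (T * γ * T⁻¹) 1 1 = τ δ' := b4
    rw [mob, mob, jj, jj, c1, c2, c3, c4, a1, a2, a3, a4]
    exact hmod α β γ' δ' e z w hz hw

end Pool.Agent.HilH
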