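import Pool.Agent.Lib.MP_d79f69_nt.H4Defs

/-!
The conjugated congruence subgroup and the norms of orbit representatives.
-/

open MeasureTheory Filter Topology NumberField

namespace Pool.Agent.HilH

universe u

/-- the conjugating matrix -/
noncomputable def nfbT (D u : ℝ) (h : 2 * D * u ^ 2 = 1) : G :=
  ⟨!![u, -(D * u); u, D * u], by
    rw [Matrix.det_fin_two_of]
    linear_combination h⟩

theorem nfb_entries (D u : ℝ) (h : 2 * D * u ^ 2 = 1) (g : G) (a b c e : ℝ)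
    (h00 : g 0 0 = 1 + 2 * D ^ 2 * a) (h01 : g 0 1 = 2 * D ^ 2 * b) (h10 : g 1 0 = 2 * D ^ 2 * c)
    (h11 : g 1 1 = 1 + 2 * D ^ 2 * e) :
    (nfbT D u h * g * (nfbT D u h)⁻¹) 0 0 = 1 + D ^ 2 * (a + e) - D * (D ^ 2 * c + b) ∧
    (nfbT D u h * g * (nfbT D u h)⁻¹) 0 1 = D ^ 2 * (a - e) + D * (b - D ^ 2 * c) ∧
    (nfbT D u h * g * (nfbT D u h)⁻¹) 1 0 = D ^ 2 * (a - e) - D * (b - D ^ 2 * c) ∧
    (nfbT D u h * g * (nfbT D u h)⁻¹) 1 1 = 1 + D ^ 2 * (a + e) + D * (D ^ 2 * c + b) := by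
  rw [Matrix.SpecialLinearGroup.SL2_inv_expl]
  simp only [Matrix.SpecialLinearGroup.coe_mul, Matrix.mul_apply, Fin.sum_univ_two, nfbT,
    Matrix.of_apply, Matrix.cons_val', Matrix.cons_val_zero, Matrix.cons_val_one,
    Matrix.cons_val_fin_one, h00, h01, h10, h11]
  refine ⟨?_, ?_, ?_, ?_⟩
  · linear_combination (1 + D ^ 2 * (a + e) - D * (D ^ 2 * c + b)) * h
  · linear_combination (D ^ 2 * (a - e) + D * (b - D ^ 2 * c)) * h
  · linear_combination (D ^ 2 * (a - e) - D * (b - D ^ 2 * c)) * h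
  · linear_combination (1 + D ^ 2 * (a + e) + D * (D ^ 2 * c + b)) * h

theorem sConj : SConj.{u} := by
  intro K _ σ τ δ d hδ hτ hd
  set D : ℝ := σ δ with hD
  have hu : 2 * D * (Real.sqrt (2 * D))⁻¹ ^ 2 = 1 := by
    rw [inv_pow, Real.sq_sqrt (by positivity)]
    field_simp
  refine ⟨nfbT D _ hu, ?_⟩
  rintro _ ⟨γ, hγ, rfl⟩
  obtain ⟨g1, g2, g3, g4⟩ := CongruenceSubgroup.Gamma_mem.1 hγ
  have k1 : ∀ n : ℤ, (n : ZMod (2 * d)) = 1 → ∃ a : ℤ, (n : ℝ) = 1 + 2 * D ^ 2 * a := by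
    intro n hn
    have : ((n - 1 : ℤ) : ZMod (2 * d)) = 0 := by push_cast; rw [hn, sub_self]
    obtain ⟨a, ha⟩ := (ZMod.intCast_zmod_eq_zero_iff_dvd _ _).1 this
    refine ⟨a, ?_⟩
    have h2 : ((n - 1 : ℤ) : ℝ) = ((((2 * d : ℕ) : ℤ) * a : ℤ) : ℝ) := by rw [ha]
    push_cast at h2
    rw [hd]
    linarith
  have k0 : ∀ n : ℤ, (n : ZMod (2 * d)) = 0 → ∃ a : ℤ, (n : ℝ) = 2 * D ^ 2 * a := by
    intro n hn
    obtain ⟨a, ha⟩ := (ZMod.intCast_zmod_eq_zero_iff_dvd _ _).1 hn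
    refine ⟨a, ?_⟩
    have h2 : (n : ℝ) = ((((2 * d : ℕ) : ℤ) * a : ℤ) : ℝ) := by rw [ha]
    push_cast at h2
    rw [hd]
    linarith
  obtain ⟨a, ha⟩ := k1 _ g1
  obtain ⟨b, hb⟩ := k0 _ g2
  obtain ⟨c, hc⟩ := k0 _ g3
  obtain ⟨e, he⟩ := k1 _ g4
  set g : G := Matrix.SpecialLinearGroup.map (Int.castRingHom ℝ) γ with hg
  have hent : ∀ i j, g i j = (γ i j : ℝ) := fun i j => rfl
  obtain ⟨e1, e2, e3, e4⟩ := nfb_entries D _ hu g a b c e ((hent 0 0).trans ha)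
    ((hent 0 1).trans hb) ((hent 1 0).trans hc) ((hent 1 1).trans he)
  have hdet := (nfbT D _ hu * g * (nfbT D _ hu)⁻¹).det_coe
  rw [Matrix.det_fin_two] at hdet
  have s1 : ∀ (φ : K →+* ℝ) (x y : ℤ), φ ((x + δ * y : 𝓞 K) : K) = x + φ δ * y := by
    intro φ x y
    simp
  rw [hd] at e1 e2 e3 e4
  have f1 : (nfbT D _ hu * g * (nfbT D _ hu)⁻¹) 0 0 =
      σ (((1 + d * (a + e) : ℤ) + δ * (-(d * c + b) : ℤ) : 𝓞 K) : K) := by
    rw [s1, e1]; push_cast; ring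
  have f2 : (nfbT D _ hu * g * (nfbT D _ hu)⁻¹) 0 1 =
      σ (((d * (a - e) : ℤ) + δ * (b - d * c : ℤ) : 𝓞 K) : K) := by
    rw [s1, e2]; push_cast; ring
  have f3 : (nfbT D _ hu * g * (nfbT D _ hu)⁻¹) 1 0 =
      σ (((d * (a - e) : ℤ) + δ * (-(b - d * c) : ℤ) : 𝓞 K) : K) := by
    rw [s1, e3]; push_cast; ring
  have f4 : (nfbT D _ hu * g * (nfbT D _ hu)⁻¹) 1 1 =
      σ (((1 + d * (a + e) : ℤ) + δ * (d * c + b : ℤ) : 𝓞 K) : K) := by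
    rw [s1, e4]; push_cast; ring
  refine ⟨(1 + d * (a + e) : ℤ) + δ * (-(d * c + b) : ℤ), (d * (a - e) : ℤ) + δ * (b - d * c : ℤ),
    (d * (a - e) : ℤ) + δ * (-(b - d * c) : ℤ), (1 + d * (a + e) : ℤ) + δ * (d * c + b : ℤ),
    ?_, ?_, f1, f2, f3, f4, ?_, ?_, ?_, ?_⟩
  · apply RingOfIntegers.coe_injective
    apply σ.injective
    rw [f1, f2, f3, f4] at hdet
    rw [map_sub, map_mul, map_mul, map_sub, map_mul, map_mul, map_one, map_one]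
    exact hdet
  · have hdd : (d : 𝓞 K) = δ * δ := by
      apply RingOfIntegers.coe_injective
      apply σ.injective
      rw [map_natCast, map_natCast, map_mul, map_mul, ← hd, sq]
    refine dvd_add ?_ (dvd_mul_right _ _)
    push_cast
    rw [hdd, mul_assoc]
    exact dvd_mul_right _ _
  · rw [s1, e4, hτ]; push_cast; ring
  · rw [s1, e3, hτ]; push_cast; ring
  · rw [s1, e2, hτ]; push_cast; ring
  · rw [s1, e1, hτ]; push_cast; ring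

theorem nfb_ints {K : Type u} [Field K] {σ τ : K →+* ℝ} {δ : 𝓞 K} (hτ : τ δ = -σ δ) {ν : K}
    (hν : ν ∈ Pos σ τ) : ∃ n : Fin 2 → ℤ, σ ν + τ ν = n 0 ∧ σ δ * (σ ν - τ ν) = n 1 := by
  obtain ⟨n₁, h₁⟩ := hν.2.2 1
  obtain ⟨n₂, h₂⟩ := hν.2.2 δ
  refine ⟨![n₁, n₂], ?_, ?_⟩
  · simpa using h₁
  · rw [map_mul, map_mul, hτ] at h₂
    simp only [Matrix.cons_val_one, Matrix.cons_val_zero]
    linarith

theorem nfb_zpow {K : Type u} [Field K] (φ : K →+* ℝ) (ε : (𝓞 K)ˣ) (l : ℝ)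
    (h : φ ((ε : 𝓞 K) : K) ^ 2 = Real.exp l) (k : ℤ) :
    φ (((ε ^ k : (𝓞 K)ˣ) : 𝓞 K) : K) ^ 2 = Real.exp (l * k) := by
  let ψ : (𝓞 K)ˣ →* ℝ :=
    ((φ.comp (algebraMap (𝓞 K) K)).toMonoidHom).comp (Units.coeHom (𝓞 K))
  have h1 : ψ (ε ^ k) = ψ ε ^ k := map_zpow ψ ε k
  have h2 : φ (((ε ^ k : (𝓞 K)ˣ) : 𝓞 K) : K) = φ ((ε : 𝓞 K) : K) ^ k := h1
  rw [h2, ← zpow_natCast, ← zpow_mul, mul_comm, zpow_mul, zpow_natCast, h, Real.exp_mul,
    Real.rpow_intCast]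

/-- every positive element can be moved into a fundamental cone -/
theorem nfb_move {K : Type u} [Field K] {σ τ : K →+* ℝ} {ε : (𝓞 K)ˣ} {l : ℝ} (hl : 0 < l)
    (h1 : σ ((ε : 𝓞 K) : K) ^ 2 = Real.exp l) (h2 : τ ((ε : 𝓞 K) : K) ^ 2 = Real.exp (-l))
    {ρ : K} (hρ : ρ ∈ Pos σ τ) : ∃ ν ∈ Pos σ τ, (∃ v : (𝓞 K)ˣ, ν = ρ * ((v : 𝓞 K) : K) ^ 2) ∧
      σ ν * τ ν = σ ρ * τ ρ ∧ τ ν ≤ σ ν ∧ σ ν ≤ Real.exp (2 * l) * τ ν := by
  obtain ⟨hs, ht, hint⟩ := hρ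
  set y : ℝ := Real.log (σ ρ) - Real.log (τ ρ) with hy
  set k : ℤ := ⌈-y / (2 * l)⌉ with hk
  have a1 : -y / (2 * l) ≤ k := Int.le_ceil _
  have a2 : (k : ℝ) < -y / (2 * l) + 1 := Int.ceil_lt_add_one _
  rw [div_le_iff₀ (by positivity)] at a1
  rw [div_add_one (by positivity), lt_div_iff₀ (by positivity)] at a2
  have e1 : σ (ρ * (((ε ^ k : (𝓞 K)ˣ) : 𝓞 K) : K) ^ 2) = Real.exp (Real.log (σ ρ) + l * k) := by
    rw [map_mul, map_pow, nfb_zpow σ ε l h1, Real.exp_add, Real.exp_log hs]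
  have e2 : τ (ρ * (((ε ^ k : (𝓞 K)ˣ) : 𝓞 K) : K) ^ 2) = Real.exp (Real.log (τ ρ) + -l * k) := by
    rw [map_mul, map_pow, nfb_zpow τ ε (-l) h2, Real.exp_add, Real.exp_log ht]
  refine ⟨ρ * (((ε ^ k : (𝓞 K)ˣ) : 𝓞 K) : K) ^ 2, ⟨?_, ?_, fun x => ?_⟩, ⟨ε ^ k, rfl⟩, ?_, ?_, ?_⟩
  · rw [e1]; exact Real.exp_pos _
  · rw [e2]; exact Real.exp_pos _
  · obtain ⟨n, hn⟩ := hint (((ε ^ k : (𝓞 K)ˣ) : 𝓞 K) ^ 2 * x)
    refine ⟨n, ?_⟩
    rw [← hn, mul_assoc]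
    simp
  · rw [e1, e2, ← Real.exp_add]
    conv_rhs => rw [← Real.exp_log hs, ← Real.exp_log ht, ← Real.exp_add]
    congr 1
    ring
  · rw [e1, e2]
    exact Real.exp_le_exp.2 (by linarith)
  · rw [e1, e2, ← Real.exp_add]
    exact Real.exp_le_exp.2 (by linarith)

theorem sRep : SRep.{u} := by
  intro K _ σ τ δ d ε l hδ hτ hd hl h1 h2 R hR huniq
  constructor
  · intro ν hν
    obtain ⟨n, hn0, hn1⟩ := nfb_ints hτ hν
    have hd0 : (0 : ℝ) < d := by rw [← hd]; positivity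
    have e : σ ν * τ ν * ((4 * d : ℕ) : ℝ) = ((n 0 ^ 2 * d - n 1 ^ 2 : ℤ) : ℝ) := by
      push_cast
      rw [← hn0, ← hn1, ← hd]
      ring
    have hp : (0 : ℤ) ≤ n 0 ^ 2 * d - n 1 ^ 2 := by
      have : (0 : ℝ) ≤ ((n 0 ^ 2 * d - n 1 ^ 2 : ℤ) : ℝ) := by
        rw [← e]
        have := hν.1
        have := hν.2.1
        positivity
      exact_mod_cast this
    obtain ⟨m, hm⟩ := Int.eq_ofNat_of_zero_le hp
    exact ⟨m, by rw [e, hm]; simp⟩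
  · choose ν hν hv hN hle hge using fun ρ : R => nfb_move hl h1 h2 (hR ρ.2)
    choose n hn0 hn1 using fun ρ : R => nfb_ints hτ (hν ρ)
    have hinj : Function.Injective n := by
      intro ρ ρ' h
      have b0 : σ (ν ρ) + τ (ν ρ) = σ (ν ρ') + τ (ν ρ') := by rw [hn0, hn0, h]
      have b1 : σ δ * (σ (ν ρ) - τ (ν ρ)) = σ δ * (σ (ν ρ') - τ (ν ρ')) := by rw [hn1, hn1, h]
      have b2 := mul_left_cancel₀ hδ.ne' b1
      have b3 : ν ρ = ν ρ' := σ.injective (by linarith)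
      exact Subtype.ext ((huniq _ (hν ρ)).unique ⟨ρ.2, hv ρ⟩ ⟨ρ'.2, b3 ▸ hv ρ'⟩)
    have hsum := ((EisensteinSeries.summable_one_div_norm_rpow (k := 3) (by norm_num)).comp_injective
      hinj).mul_left ((Real.exp (2 * l) * (2 + σ δ) ^ 2)⁻¹ ^ (-(3 / 2 : ℝ)))
    refine Summable.of_nonneg_of_le (fun ρ => ?_) (fun ρ => ?_) hsum
    · exact Real.rpow_nonneg (mul_pos (hR ρ.2).1 (hR ρ.2).2.1).le _
    · have hs := (hν ρ).1
      have ht := (hν ρ).2.1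
      have c0 := hn0 ρ
      have c1 := hn1 ρ
      have c2 := hle ρ
      have c3 := hge ρ
      have hnorm : ‖n ρ‖ ≤ (2 + σ δ) * σ (ν ρ) := by
        refine (pi_norm_le_iff_of_nonneg (by positivity)).2 fun i => ?_
        rw [Int.norm_eq_abs]
        fin_cases i
        · change |(n ρ 0 : ℝ)| ≤ _
          rw [← c0, abs_of_pos (by positivity)]
          nlinarith
        · change |(n ρ 1 : ℝ)| ≤ _
          rw [← c1, abs_of_nonneg (mul_nonneg hδ.le (by linarith))]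
          nlinarith
      have hpos : 0 < ‖n ρ‖ := by
        refine norm_pos_iff.2 fun h0 => ?_
        rw [h0] at c0
        simp at c0
        linarith
      have hM : 0 < Real.exp (2 * l) * (2 + σ δ) ^ 2 := by positivity
      have hlow : (Real.exp (2 * l) * (2 + σ δ) ^ 2)⁻¹ * ‖n ρ‖ ^ 2 ≤ σ ρ * τ ρ := by
        rw [← hN ρ, inv_mul_le_iff₀ hM]
        have d1 : ‖n ρ‖ ^ 2 ≤ ((2 + σ δ) * σ (ν ρ)) ^ 2 := pow_le_pow_left₀ hpos.le hnorm 2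
        have d2 : σ (ν ρ) * σ (ν ρ) ≤ σ (ν ρ) * (Real.exp (2 * l) * τ (ν ρ)) :=
          mul_le_mul_of_nonneg_left c3 hs.le
        have d3 := mul_le_mul_of_nonneg_left d2 (sq_nonneg (2 + σ δ))
        nlinarith
      have h3 := Real.rpow_le_rpow_of_nonpos (by positivity) hlow (by norm_num : -(3 / 2 : ℝ) ≤ 0)
      refine h3.trans (le_of_eq ?_)
      rw [Real.mul_rpow (by positivity) (by positivity), Function.comp_apply]
      congr 1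
      rw [← Real.rpow_natCast, ← Real.rpow_mul hpos.le]
      norm_num

end Pool.Agent.HilH
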