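import Pool.Agent.Lib.MP_d79f69_nt.H4Defs

/-!
Thickening: mixing implies equidistribution of the curves equidistant from a closed geodesic.
-/

open MeasureTheory Filter Topology

namespace Pool.Agent.HilH

lemma thk_cont_entry (i j : Fin 2) : Continuous fun g : G => g i j :=
  Continuous.matrix_elem continuous_subtype_val i j

lemma thk_cont_Am : Continuous Am := by
  refine Continuous.subtype_mk (continuous_matrix fun i j => ?_) _
  fin_cases i <;> fin_cases j <;> simp <;> fun_prop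

lemma thk_cont_Lm : Continuous Lm := by
  refine Continuous.subtype_mk (continuous_matrix fun i j => ?_) _
  fin_cases i <;> fin_cases j <;> simp <;> fun_prop

lemma thk_Am_zero : Am 0 = 1 := by
  ext i j
  fin_cases i <;> fin_cases j <;> simp [Am]

lemma thk_Lm_zero : Lm 0 = 1 := by
  ext i j
  fin_cases i <;> fin_cases j <;> simp [Lm]

lemma thk_Am_coe (t : ℝ) : ((Am t : G) : Matrix (Fin 2) (Fin 2) ℝ) =
    !![Real.exp (t / 2), 0; 0, Real.exp (-(t / 2))] := rfl

lemma thk_Nm_coe (t : ℝ) : ((Nm t : G) : Matrix (Fin 2) (Fin 2) ℝ) = !![1, t; 0, 1] := rfl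

lemma thk_Lm_coe (t : ℝ) : ((Lm t : G) : Matrix (Fin 2) (Fin 2) ℝ) = !![1, 0; t, 1] := rfl

lemma thk_Am_add (x s : ℝ) : Am (x + s) = Am x * Am s := by
  apply Subtype.ext
  rw [Matrix.SpecialLinearGroup.coe_mul, thk_Am_coe, thk_Am_coe, thk_Am_coe]
  ext i j
  fin_cases i <;> fin_cases j <;>
    simp [Matrix.mul_apply, Fin.sum_univ_two, ← Real.exp_add] <;> ring_nf

lemma thk_mat0 (a b c d E S : ℝ) (hE : E ≠ 0) (hS : S ≠ 0) (hd : d ≠ 0) (hdet : a * d - b * c = 1)
    (h1 : S ^ 2 * d = b + d) :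
    (!![1, 1; 0, 1] * !![a, b; c, d] * !![E, 0; 0, E⁻¹] : Matrix (Fin 2) (Fin 2) ℝ) =
      !![S, 0; 0, S⁻¹] * !![1, 1; 0, 1] * !![E, 0; 0, E⁻¹] *
        (!![(S * d)⁻¹, 0; 0, S * d] * !![1, 0; E ^ 2 * c / d, 1]) := by
  ext i j
  fin_cases i <;> fin_cases j <;> simp [Matrix.mul_apply, Fin.sum_univ_two] <;> field_simp
  · linear_combination hdet - c * h1
  · linear_combination -h1

lemma thk_mat (w : G) (t : ℝ) (hd : 0 < w 1 1) (hb : 0 < w 0 1 + w 1 1) :
    Nm 1 * w * Am t = Am (Real.log ((w 0 1 + w 1 1) / w 1 1)) * Nm 1 * Am t *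
      (Am (-Real.log ((w 0 1 + w 1 1) / w 1 1) - 2 * Real.log (w 1 1)) *
        Lm (Real.exp t * w 1 0 / w 1 1)) := by
  set s := Real.log ((w 0 1 + w 1 1) / w 1 1) with hs
  have hdet : w 0 0 * w 1 1 - w 0 1 * w 1 0 = 1 := by
    have h := w.det_coe
    rwa [Matrix.det_fin_two] at h
  have h1 : Real.exp (s / 2) ^ 2 * w 1 1 = w 0 1 + w 1 1 := by
    rw [← Real.exp_nat_mul, show ((2 : ℕ) : ℝ) * (s / 2) = s by push_cast; ring, hs,
      Real.exp_log (div_pos hb hd)]
    field_simp
  have h2 : Real.exp (-((-s - 2 * Real.log (w 1 1)) / 2)) = Real.exp (s / 2) * w 1 1 := by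
    rw [show -((-s - 2 * Real.log (w 1 1)) / 2) = s / 2 + Real.log (w 1 1) by ring, Real.exp_add,
      Real.exp_log hd]
  have h3 : Real.exp ((-s - 2 * Real.log (w 1 1)) / 2) = (Real.exp (s / 2) * w 1 1)⁻¹ := by
    rw [← h2, ← Real.exp_neg, neg_neg]
  have h4 : Real.exp t = Real.exp (t / 2) ^ 2 := by
    rw [← Real.exp_nat_mul]; congr 1; push_cast; ring
  have key := thk_mat0 (w 0 0) (w 0 1) (w 1 0) (w 1 1) (Real.exp (t / 2)) (Real.exp (s / 2))
    (Real.exp_pos _).ne' (Real.exp_pos _).ne' hd.ne' hdet h1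
  apply Subtype.ext
  simp only [Matrix.SpecialLinearGroup.coe_mul, thk_Am_coe, thk_Nm_coe, thk_Lm_coe]
  rw [h2, h3, h4, Real.exp_neg, Real.exp_neg, ← key]
  congr 2
  exact Matrix.eta_fin_two _

lemma thk_cont {Ψ : G → ℂ} (h : RUC Ψ) : Continuous Ψ := by
  refine continuous_iff_continuousAt.2 fun g => ?_
  rw [ContinuousAt, Metric.tendsto_nhds]
  intro ε hε
  have h1 := h (ε / 2) (by positivity)
  have h2 : Tendsto (fun x : G => g⁻¹ * x) (𝓝 g) (𝓝 1) := by
    have : Continuous fun x : G => g⁻¹ * x := by fun_prop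
    simpa using this.tendsto g
  filter_upwards [h2.eventually h1] with x hx
  have := hx g
  rw [mul_inv_cancel_left] at this
  rw [dist_eq_norm]
  linarith

/-- the wavefront property -/
lemma thk_wave {V : Set G} (hV : V ∈ 𝓝 (1 : G)) :
    ∀ᶠ w in 𝓝 (1 : G), ∀ t : ℝ, t ≤ 0 → ∃ s : ℝ, ∃ w₁ ∈ V,
      Nm 1 * w * Am t = Am s * Nm 1 * Am t * w₁ := by
  have e11 : (1 : G) 1 1 = 1 := by simp
  have e01 : (1 : G) 0 1 = 0 := by simp
  have e10 : (1 : G) 1 0 = 0 := by simp
  have hd : ∀ᶠ w : G in 𝓝 1, 0 < w 1 1 :=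
    (thk_cont_entry 1 1).continuousAt.eventually
      (lt_mem_nhds (by show (0 : ℝ) < (1 : G) 1 1; rw [e11]; norm_num))
  have hb : ∀ᶠ w : G in 𝓝 1, 0 < w 0 1 + w 1 1 :=
    ((thk_cont_entry 0 1).add (thk_cont_entry 1 1)).continuousAt.eventually
      (lt_mem_nhds (by show (0 : ℝ) < (1 : G) 0 1 + (1 : G) 1 1; rw [e11, e01]; norm_num))
  have hK : ∀ᶠ w : G in 𝓝 1, ∀ u ∈ Set.Icc (0 : ℝ) 1,
      Am (-Real.log ((w 0 1 + w 1 1) / w 1 1) - 2 * Real.log (w 1 1)) *
        Lm (u * w 1 0 / w 1 1) ∈ V := by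
    refine isCompact_Icc.eventually_forall_of_forall_eventually
      (P := fun (w : G) (u : ℝ) => Am (-Real.log ((w 0 1 + w 1 1) / w 1 1) - 2 * Real.log (w 1 1)) *
        Lm (u * w 1 0 / w 1 1) ∈ V) fun u _ => ?_
    have c11 : ContinuousAt (fun z : G × ℝ => z.1 1 1) (1, u) :=
      ((thk_cont_entry 1 1).comp continuous_fst).continuousAt
    have c01 : ContinuousAt (fun z : G × ℝ => z.1 0 1) (1, u) :=
      ((thk_cont_entry 0 1).comp continuous_fst).continuousAt
    have c10 : ContinuousAt (fun z : G × ℝ => z.1 1 0) (1, u) :=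
      ((thk_cont_entry 1 0).comp continuous_fst).continuousAt
    have n11 : (fun z : G × ℝ => z.1 1 1) (1, u) ≠ 0 := by simp
    have cA : ContinuousAt (fun z : G × ℝ =>
        -Real.log ((z.1 0 1 + z.1 1 1) / z.1 1 1) - 2 * Real.log (z.1 1 1)) (1, u) :=
      (((c01.add c11).div c11 n11).log (by simp)).neg.sub
        (continuousAt_const.mul (c11.log n11))
    have cL : ContinuousAt (fun z : G × ℝ => z.2 * z.1 1 0 / z.1 1 1) (1, u) :=
      (continuous_snd.continuousAt.mul c10).div c11 n11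
    have cc := (thk_cont_Am.continuousAt.comp cA).mul (thk_cont_Lm.continuousAt.comp cL)
    refine cc.eventually_mem ?_
    simpa [thk_Am_zero, thk_Lm_zero] using hV
  filter_upwards [hd, hb, hK] with w h1 h2 h3 t ht
  exact ⟨_, _, h3 (Real.exp t) ⟨(Real.exp_pos t).le, Real.exp_le_one_iff.2 ht⟩, thk_mat w t h1 h2⟩

theorem sMX2 : SMX2 := by
  intro Ψ C l hl hC hR hM hA
  have hcont : Continuous Ψ := thk_cont hR
  have hmix : ∀ (g : G) (W : Set G), IsCompact W →
      Tendsto (fun t => ∫ w in W, Ψ (g * w * Am t) ∂mu) atBot (𝓝 0) := fun g W hW => by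
    simpa using hM g W hW
  rw [Metric.tendsto_nhds]
  intro ε hε
  set η : ℝ := ε / (2 * (l + 1)) with hη
  have hη0 : 0 < η := by positivity
  obtain ⟨W, hW1, hWs, hWc⟩ := local_compact_nhds (thk_wave (hR η hη0))
  have hWpos : 0 < mu.real W := by
    refine ENNReal.toReal_pos ?_ hWc.measure_lt_top.ne
    exact (Measure.measure_pos_of_mem_nhds mu hW1).ne'
  have : IsFiniteMeasure (mu.restrict W) := isFiniteMeasure_restrict.2 hWc.measure_lt_top.ne
  have : IsFiniteMeasure ((volume : Measure ℝ).restrict (Set.uIoc 0 l)) :=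
    isFiniteMeasure_restrict.2 (by simp [Real.volume_uIoc])
  have hint : ∀ t : ℝ, Integrable (Function.uncurry fun (x : ℝ) (w : G) =>
      Ψ (Am x * Nm 1 * w * Am t)) ((volume.restrict (Set.uIoc 0 l)).prod (mu.restrict W)) := by
    intro t
    refine Integrable.of_bound ?_ C (Eventually.of_forall fun z => hC _)
    refine Continuous.aestronglyMeasurable ?_
    exact hcont.comp ((((thk_cont_Am.comp continuous_fst).mul continuous_const).mul
      continuous_snd).mul continuous_const)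
  have hK : Tendsto (fun t => ∫ x in (0 : ℝ)..l, ∫ w in W, Ψ (Am x * Nm 1 * w * Am t) ∂mu)
      atBot (𝓝 0) := by
    have := intervalIntegral.tendsto_integral_filter_of_dominated_convergence
      (μ := volume) (a := 0) (b := l) (l := atBot) (f := fun _ => (0 : ℂ))
      (F := fun (t x : ℝ) => ∫ w in W, Ψ (Am x * Nm 1 * w * Am t) ∂mu)
      (fun _ => C * mu.real W)
      (Eventually.of_forall fun t => (hint t).integral_prod_left.aestronglyMeasurable)
      (Eventually.of_forall fun t => Eventually.of_forall fun x _ =>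
        norm_setIntegral_le_of_norm_le_const hWc.measure_lt_top fun w _ => hC _)
      intervalIntegrable_const
      (Eventually.of_forall fun x _ => hmix _ W hWc)
    simpa using this
  have hK' := (Metric.tendsto_nhds.1 hK) (ε / 2 * mu.real W) (by positivity)
  filter_upwards [hK', eventually_le_atBot (0 : ℝ)] with t ht ht0
  rw [dist_zero_right] at ht ⊢
  rw [intervalIntegral_integral_swap (hint t)] at ht
  set I : ℂ := ∫ x in (0 : ℝ)..l, Ψ (Am x * Nm 1 * Am t) with hI
  have hcx : ∀ g : G, Continuous fun x : ℝ => Ψ (Am x * g) := fun g =>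
    hcont.comp (thk_cont_Am.mul continuous_const)
  have hper : Function.Periodic (fun x : ℝ => Ψ (Am x * Nm 1 * Am t)) l := by
    intro x
    show Ψ (Am (x + l) * Nm 1 * Am t) = Ψ (Am x * Nm 1 * Am t)
    rw [add_comm x l, thk_Am_add, mul_assoc, mul_assoc, hA, mul_assoc]
  have hpt : ∀ w ∈ W, ‖I - ∫ x in (0 : ℝ)..l, Ψ (Am x * Nm 1 * w * Am t)‖ ≤ η * l := by
    intro w hw
    obtain ⟨s, w₁, hw₁, he⟩ := hWs hw t ht0
    have e1 : I = ∫ x in (0 : ℝ)..l, Ψ (Am (x + s) * Nm 1 * Am t) := by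
      rw [intervalIntegral.integral_comp_add_right (fun x => Ψ (Am x * Nm 1 * Am t)) s, hI]
      have := hper.intervalIntegral_add_eq 0 s
      rw [zero_add] at this
      rw [this, zero_add, add_comm l s]
    have e2 : ∀ x : ℝ, Am x * Nm 1 * w * Am t = Am (x + s) * Nm 1 * Am t * w₁ := by
      intro x
      rw [thk_Am_add]
      calc Am x * Nm 1 * w * Am t = Am x * (Nm 1 * w * Am t) := by simp only [mul_assoc]
        _ = _ := by rw [he]; simp only [mul_assoc]
    have i1 : IntervalIntegrable (fun x : ℝ => Ψ (Am (x + s) * Nm 1 * Am t)) volume 0 l := by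
      refine Continuous.intervalIntegrable ?_ _ _
      exact hcont.comp (((thk_cont_Am.comp (continuous_id.add continuous_const)).mul
        continuous_const).mul continuous_const)
    have i2 : IntervalIntegrable (fun x : ℝ => Ψ (Am x * Nm 1 * w * Am t)) volume 0 l := by
      refine Continuous.intervalIntegrable ?_ _ _
      exact hcont.comp (((thk_cont_Am.mul continuous_const).mul continuous_const).mul
        continuous_const)
    rw [e1, ← intervalIntegral.integral_sub i1 i2]
    have := intervalIntegral.norm_integral_le_of_norm_le_const (a := 0) (b := l) (C := η)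
      (f := fun x : ℝ => Ψ (Am (x + s) * Nm 1 * Am t) - Ψ (Am x * Nm 1 * w * Am t))
      (fun x _ => by
        rw [e2 x, norm_sub_rev]
        exact hw₁ _)
    rwa [sub_zero, abs_of_pos hl] at this
  have i3 : Integrable (fun w : G => ∫ x in (0 : ℝ)..l, Ψ (Am x * Nm 1 * w * Am t))
      (mu.restrict W) := by
    have := (hint t).integral_prod_right
    simp only [intervalIntegral.integral_of_le hl.le]
    simpa only [Set.uIoc_of_le hl.le, Function.uncurry] using this
  have h5 : ‖∫ w in W, (I - ∫ x in (0 : ℝ)..l, Ψ (Am x * Nm 1 * w * Am t)) ∂mu‖ ≤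
      η * l * mu.real W :=
    norm_setIntegral_le_of_norm_le_const hWc.measure_lt_top hpt
  rw [integral_sub (integrable_const _) i3, setIntegral_const] at h5
  have h6 : mu.real W * ‖I‖ ≤ η * l * mu.real W + ε / 2 * mu.real W := by
    have e : mu.real W * ‖I‖ = ‖mu.real W • I‖ := by
      rw [norm_smul, Real.norm_of_nonneg hWpos.le]
    rw [e]
    have := norm_le_norm_sub_add (mu.real W • I)
      (∫ w in W, (∫ x in (0 : ℝ)..l, Ψ (Am x * Nm 1 * w * Am t)) ∂mu)
    linarith
  have h7 : ‖I‖ ≤ η * l + ε / 2 := by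
    by_contra hcon
    push Not at hcon
    nlinarith
  have h8 : η * l < ε / 2 := by
    rw [hη, div_mul_eq_mul_div, div_lt_div_iff₀ (by positivity) (by positivity)]
    nlinarith
  linarith

end Pool.Agent.HilH
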