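import Pool.Agent.Lib.MP_d79f69_nt.H4PsiA
import Pool.Agent.Lib.MP_d79f69_nt.H4Thk

/-!
The averaged form is small on rays close to the real axis.
-/

open MeasureTheory Filter Topology

namespace Pool.Agent.HilH

universe u

variable {J : Type u}

theorem psi_left (D : HD J) (h : G) (hh : ∀ z w : ℂ, 0 < z.im → 0 < w.im →
    D.f (mob h z) (mob (hat h) w) = jj h z ^ (2 * D.p) * jj (hat h) w ^ (2 * D.q) * D.f z w)
    (g : G) : D.Psi (h * g) = D.Psi g := by
  have h1 := jj_ne h (mob_pos g ps_I)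
  have h2 := jj_ne (hat h) (mob_pos (hat g) ps_I)
  rw [psi_mul, HD.sl, hh _ _ (mob_pos g ps_I) (mob_pos (hat g) ps_I), HD.Psi,
    mul_div_cancel_left₀ _ (mul_ne_zero (pow_ne_zero _ h1) (pow_ne_zero _ h2))]

theorem psi_Am (D : HD J) (g : G) : D.Psi (Am D.l * g) = D.Psi g := by
  refine psi_left D _ (fun z w hz hw => ?_) g
  have e0 : Complex.exp (D.l / 2) ≠ 0 := Complex.exp_ne_zero _
  have e1 : jj (Am D.l) z = Complex.exp (-(D.l / 2)) := by simp [jj, Am]
  have e2 : jj (hat (Am D.l)) w = Complex.exp (D.l / 2) := by simp [jj, hat10, hat11, Am]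
  have e3 : mob (Am D.l) z = Real.exp D.l * z := by
    rw [mob, e1, div_eq_iff (Complex.exp_ne_zero _), Complex.ofReal_exp, mul_right_comm,
      ← Complex.exp_add]
    simp only [Am, Matrix.of_apply, Matrix.cons_val', Matrix.cons_val_zero, Matrix.cons_val_one,
      Matrix.cons_val_fin_one, Complex.ofReal_exp, Complex.ofReal_zero, add_zero]
    congr 2
    push_cast
    ring
  have e4 : mob (hat (Am D.l)) w = Real.exp (-D.l) * w := by
    rw [mob, e2, div_eq_iff (Complex.exp_ne_zero _), Complex.ofReal_exp, mul_right_comm,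
      ← Complex.exp_add, hat00, hat01]
    simp only [Am, Matrix.of_apply, Matrix.cons_val', Matrix.cons_val_zero, Matrix.cons_val_one,
      Matrix.cons_val_fin_one, Complex.ofReal_exp, Complex.ofReal_zero, add_zero]
    congr 2
    push_cast
    ring
  rw [e1, e2, e3, e4, ← D.hU z w hz hw, ← Complex.exp_nat_mul, ← Complex.exp_nat_mul,
    ← Complex.exp_add, Complex.ofReal_exp (((D.p : ℝ) - D.q) * D.l), mul_comm (D.f _ _),
    ← mul_assoc, ← Complex.exp_add]
  rw [show ((2 * D.p : ℕ) : ℂ) * -(D.l / 2) + ((2 * D.q : ℕ) : ℂ) * (D.l / 2) +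
    ((((D.p : ℝ) - D.q) * D.l : ℝ) : ℂ) = 0 by push_cast; ring, Complex.exp_zero, one_mul]

noncomputable def Km (b : ℝ) : G :=
  ⟨!![Real.cos b, Real.sin b; -Real.sin b, Real.cos b], by
    rw [Matrix.det_fin_two_of]
    linarith [Real.cos_sq_add_sin_sq b]⟩

theorem psi_Km (D : HD J) (hne : D.p ≠ D.q) : ∃ κ : G, ∀ g, D.Psi (g * κ) = -1 * D.Psi g := by
  have hpq : ((D.p : ℂ) - D.q) ≠ 0 := sub_ne_zero.2 (by exact_mod_cast hne)
  set b : ℝ := Real.pi / (2 * ((D.p : ℝ) - D.q)) with hb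
  refine ⟨Km b, fun g => ?_⟩
  have c1 : Complex.exp (b * Complex.I) = Real.cos b + Real.sin b * Complex.I := by
    rw [Complex.exp_mul_I, Complex.ofReal_cos, Complex.ofReal_sin]
  have c2 : Complex.exp (-b * Complex.I) = Real.cos b - Real.sin b * Complex.I := by
    rw [Complex.exp_mul_I, Complex.cos_neg, Complex.sin_neg, Complex.ofReal_cos,
      Complex.ofReal_sin]
    ring
  have k00 : Km b 0 0 = Real.cos b := rfl
  have k01 : Km b 0 1 = Real.sin b := rfl
  have k10 : Km b 1 0 = -Real.sin b := rfl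
  have k11 : Km b 1 1 = Real.cos b := rfl
  have e1 : jj (Km b) Complex.I = Complex.exp (-b * Complex.I) := by
    rw [jj, k10, k11, c2, Complex.ofReal_neg]
    ring
  have e2 : jj (hat (Km b)) Complex.I = Complex.exp (b * Complex.I) := by
    rw [jj, hat10, hat11, k01, k00, c1]
    ring
  have e3 : mob (Km b) Complex.I = Complex.I := by
    rw [mob, e1, div_eq_iff (Complex.exp_ne_zero _), c2, k00, k01]
    linear_combination (Real.sin b : ℂ) * Complex.I_mul_I
  have e4 : mob (hat (Km b)) Complex.I = Complex.I := by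
    rw [mob, e2, div_eq_iff (Complex.exp_ne_zero _), c1, hat00, hat01, k11, k10,
      Complex.ofReal_neg]
    linear_combination (-Real.sin b : ℂ) * Complex.I_mul_I
  rw [psi_mul, e1, e2, e3, e4, ← psi_eq, ← Complex.exp_nat_mul, ← Complex.exp_nat_mul,
    ← Complex.exp_add]
  have e5 : ((2 * D.p : ℕ) : ℂ) * (-b * Complex.I) + ((2 * D.q : ℕ) : ℂ) * (b * Complex.I) =
      -(Real.pi * Complex.I) := by
    rw [hb]
    push_cast
    field_simp
    ring
  rw [e5, Complex.exp_neg, Complex.exp_pi_mul_I]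
  ring

theorem psi_val (D : HD J) {θ : ℝ} (h0 : 0 < θ) (h1 : θ < Real.pi / 2) (x : ℝ) :
    D.Psi (Am x * Nm 1 * Am (Real.log (Real.tan θ))) =
      ((Complex.I * Complex.exp (-(Complex.I * θ))) ^ (2 * D.q))⁻¹ *
        (Real.sin θ ^ (D.p + D.q) : ℝ) * D.g θ 1 (x - Real.log (Real.cos θ)) := by
  have hc : 0 < Real.cos θ := Real.cos_pos_of_mem_Ioo ⟨by linarith [Real.pi_pos], h1⟩
  have hs : 0 < Real.sin θ := Real.sin_pos_of_pos_of_lt_pi h0 (by linarith [Real.pi_pos])
  have ht : 0 < Real.tan θ := Real.tan_pos_of_pos_of_lt_pi_div_two h0 h1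
  obtain ⟨E, hE⟩ : ∃ E, E = Real.exp (x / 2) := ⟨_, rfl⟩
  obtain ⟨τ, hτ⟩ : ∃ τ, τ = Real.exp (Real.log (Real.tan θ) / 2) := ⟨_, rfl⟩
  have hE0 : 0 < E := hE ▸ Real.exp_pos _
  have hτ0 : 0 < τ := hτ ▸ Real.exp_pos _
  have hτ2 : τ ^ 2 * Real.cos θ = Real.sin θ := by
    rw [hτ, ← Real.exp_nat_mul, show ((2 : ℕ) : ℝ) * (Real.log (Real.tan θ) / 2) =
      Real.log (Real.tan θ) by push_cast; ring, Real.exp_log ht, Real.tan_mul_cos hc.ne']
  have hu : Real.exp (x - Real.log (Real.cos θ)) = E ^ 2 / Real.cos θ := by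
    rw [Real.exp_sub, Real.exp_log hc, hE, ← Real.exp_nat_mul]
    congr 2
    push_cast
    ring
  have hu' : Real.exp (-(x - Real.log (Real.cos θ))) = Real.cos θ / E ^ 2 := by
    rw [Real.exp_neg, hu, inv_div]
  set g := Am x * Nm 1 * Am (Real.log (Real.tan θ)) with hg
  have g00 : g 0 0 = E * τ := by simp [hg, ps_mul, Am, Nm, hE, hτ]
  have g01 : g 0 1 = E / τ := by simp [hg, ps_mul, Am, Nm, hE, hτ, Real.exp_neg, div_eq_mul_inv]
  have g10 : g 1 0 = 0 := by simp [hg, ps_mul, Am, Nm]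
  have g11 : g 1 1 = 1 / (E * τ) := by
    simp [hg, ps_mul, Am, Nm, hE, hτ, Real.exp_neg, mul_comm]
  have c1 : Complex.exp (Complex.I * θ) = Real.cos θ + Real.sin θ * Complex.I := by
    rw [mul_comm, Complex.exp_mul_I, Complex.ofReal_cos, Complex.ofReal_sin]
  have c2 : Complex.exp (-(Complex.I * θ)) = Real.cos θ - Real.sin θ * Complex.I := by
    rw [show -(Complex.I * θ) = -θ * Complex.I by ring, Complex.exp_mul_I, Complex.cos_neg,
      Complex.sin_neg, Complex.ofReal_cos, Complex.ofReal_sin]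
    ring
  have c3 : Complex.exp (-(Complex.I * θ)) * Complex.exp (Complex.I * θ) = 1 := by
    rw [← Complex.exp_add, neg_add_cancel, Complex.exp_zero]
  have hEc : (E : ℂ) ≠ 0 := Complex.ofReal_ne_zero.2 hE0.ne'
  have hτc : (τ : ℂ) ≠ 0 := Complex.ofReal_ne_zero.2 hτ0.ne'
  have hcc : (Real.cos θ : ℂ) ≠ 0 := Complex.ofReal_ne_zero.2 hc.ne'
  have hτ3 : (Real.sin θ : ℂ) = τ ^ 2 * Real.cos θ := by exact_mod_cast hτ2.symm
  have e1 : jj g Complex.I = 1 / (E * τ) := by
    rw [jj, g10, g11]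
    push_cast
    ring
  have e2 : jj (hat g) Complex.I =
      E / (τ * Real.cos θ) * (Complex.I * Complex.exp (-(Complex.I * θ))) := by
    rw [jj, hat10, hat11, g01, g00, c2, hτ3, Complex.ofReal_div, Complex.ofReal_mul]
    field_simp
    linear_combination (τ ^ 2 : ℂ) * Complex.I_mul_I
  have e3 : mob g Complex.I = ((1 * Real.exp (x - Real.log (Real.cos θ)) : ℝ) : ℂ) *
      Complex.exp (Complex.I * θ) := by
    rw [mob, e1, g00, g01, hu, c1, hτ3, one_mul, Complex.ofReal_div, Complex.ofReal_div,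
      Complex.ofReal_mul, Complex.ofReal_pow]
    field_simp
    ring
  have e4 : mob (hat g) Complex.I = ((1 * Real.exp (-(x - Real.log (Real.cos θ))) : ℝ) : ℂ) *
      Complex.exp (Complex.I * θ) := by
    rw [mob, div_eq_iff (jj_ne _ ps_I), e2, hat00, hat01, g11, g10, hu', one_mul,
      Complex.ofReal_div, Complex.ofReal_div, Complex.ofReal_mul, Complex.ofReal_pow,
      Complex.ofReal_zero, Complex.ofReal_one, add_zero]
    field_simp
    linear_combination -c3
  have c4 : Complex.I * Complex.exp (-(Complex.I * θ)) ≠ 0 :=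
    mul_ne_zero Complex.I_ne_zero (Complex.exp_ne_zero _)
  rw [HD.Psi, HD.g, e1, e2, e3, e4, hu, hu', one_mul, one_mul]
  generalize D.f _ _ = F
  generalize Complex.I * Complex.exp (-(Complex.I * θ)) = ω at c4
  push_cast [-Complex.ofReal_cos, -Complex.ofReal_sin]
  rw [hτ3]
  simp only [pow_mul', pow_add, mul_pow, div_pow, one_pow]
  field_simp
  ring

theorem mean_left {Ψ : G → ℂ} {m : ℂ} (h : HasMean Ψ m) (k : G) :
    HasMean (fun g => Ψ (k * g)) m := fun g W hW => by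
  simpa only [mul_assoc] using h (k * g) W hW

theorem mean_conj (hX : SMix2) {Ψ : G → ℂ} {T : G} {N : ℕ} {C : ℝ} (hN : N ≠ 0)
    (hC : ∀ g, ‖Ψ g‖ ≤ C) (hR : RUC Ψ) (hΓ : ∀ γ ∈ GamR N, ∀ g, Ψ (T * γ * T⁻¹ * g) = Ψ g) :
    ∃ m, HasMean Ψ m := by
  obtain ⟨m, hm⟩ := hX (fun x => Ψ (T * x)) N C hN (fun x => hC _)
    (fun ε hε => by
      filter_upwards [hR ε hε] with w hw x
      simpa [mul_assoc] using hw (T * x))
    (fun γ hγ x => by simpa [mul_assoc] using hΓ γ hγ (T * x))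
  refine ⟨m, ?_⟩
  simpa using mean_left hm T⁻¹

theorem mean_sum {Φ Ψ : G → ℂ} {m m' c : ℂ} (hc : Continuous Φ) (h1 : HasMean Φ m)
    (h2 : HasMean Ψ m') (n : ℕ) (h : ℕ → G)
    (he : ∀ g, ∑ j ∈ Finset.range n, Φ (h j * g) = c * Ψ g) : n * m = c * m' := by
  obtain ⟨W, hW, hW1⟩ := exists_compact_mem_nhds (1 : G)
  have hpos : (mu.real W : ℂ) ≠ 0 := Complex.ofReal_ne_zero.2
    (ENNReal.toReal_pos (Measure.measure_pos_of_mem_nhds mu hW1).ne' hW.measure_lt_top.ne).ne'
  have t1 := tendsto_finsetSum (Finset.range n) fun j _ => mean_left h1 (h j) 1 W hW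
  have t2 := (h2 1 W hW).const_mul c
  have e : ∀ t, ∑ j ∈ Finset.range n, ∫ w in W, Φ (h j * (1 * w * Am t)) ∂mu =
      c * ∫ w in W, Ψ (1 * w * Am t) ∂mu := fun t => by
    rw [← integral_const_mul, ← integral_finsetSum]
    · exact integral_congr_ae (Eventually.of_forall fun w => he _)
    · exact fun j _ => (hc.comp (continuous_const.mul
        ((continuous_const.mul continuous_id).mul continuous_const))).continuousOn.integrableOn_compact
        hW
  simp only [e] at t1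
  have t3 := tendsto_nhds_unique t1 t2
  rw [Finset.sum_const, Finset.card_range, nsmul_eq_mul] at t3
  refine mul_left_cancel₀ hpos ?_
  linear_combination t3

theorem psi_mean (h0 : SF0.{u}) (hX : SMix) (hY : SMix2) (D : HD J) : HasMean D.Psi 0 := by
  have hA := sPsiA h0 J D
  have hΓ : ∀ γ ∈ GamR D.N, ∀ g, D.Psi (D.T * γ * D.T⁻¹ * g) = D.Psi g :=
    fun γ hγ g => psi_left D _ (D.hΓ γ hγ) g
  rcases D.hpq with hne | ⟨n, N, α, β, T, h, h', c, c', hN, hc, k1, k2, k3⟩
  · obtain ⟨κ, hκ⟩ := psi_Km D hne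
    intro g W hW
    have := hX (fun x => D.Psi (D.T * x)) D.N κ (-1) D.C D.hN0 (by norm_num) (fun x => hA.1 _)
      (fun ε hε => by
        filter_upwards [hA.2 ε hε] with w hw x
        simpa [mul_assoc] using hw (D.T * x))
      (fun γ hγ x => by simpa [mul_assoc] using hΓ γ hγ (D.T * x))
      (fun x => by simpa [mul_assoc] using hκ (D.T * x)) (D.T⁻¹ * g) W hW
    simpa [mul_assoc] using this
  · obtain ⟨m', hm'⟩ := mean_conj hY D.hN0 hA.1 hA.2 hΓ
    obtain ⟨p1, p2⟩ := phi_ruc h0 D α β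
    have key : ∀ k g : G, D.sl (α * (k * g)) (β * hat (k * g)) Complex.I Complex.I =
        slf D.p D.q D.f (α * k) (β * hat k) (mob g Complex.I) (mob (hat g) Complex.I) /
          (jj g Complex.I ^ (2 * D.p) * jj (hat g) Complex.I ^ (2 * D.q)) := fun k g => by
      rw [hat_mul, ← mul_assoc, ← mul_assoc, sl_mul D _ _ _ _ ps_I ps_I]
      rfl
    obtain ⟨m, hm⟩ := mean_conj hY (T := T) hN p1 p2 fun γ hγ g => by
      rw [key, k1 γ hγ _ _ (mob_pos g ps_I) (mob_pos (hat g) ps_I), sl_mul D _ _ _ _ ps_I ps_I]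
      rfl
    have s1 := mean_sum (c := c) (thk_cont p2) hm hm' n h fun g => by
      simp only [key]
      rw [← Finset.sum_div, k2 _ _ (mob_pos g ps_I) (mob_pos (hat g) ps_I), HD.Psi, mul_div_assoc]
    have s2 := mean_sum (c := c') (thk_cont p2) hm hm' n h' fun g => by
      simp only [key]
      rw [← Finset.sum_div, k3 _ _ (mob_pos g ps_I) (mob_pos (hat g) ps_I), HD.Psi, mul_div_assoc]
    have s3 : (c - c') * m' = 0 := by linear_combination s2 - s1
    rwa [(mul_eq_zero.1 s3).resolve_left (sub_ne_zero.2 hc)] at hm'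

theorem sPsiB (h0 : SF0.{u}) (hX : SMix) (hY : SMix2) (hG : SG1.{u}) : SPsiB.{u} := by
  intro J D
  have h1 := sMX2 D.Psi D.C D.l D.hl (sPsiA h0 J D).1 (sPsiA h0 J D).2 (psi_mean h0 hX hY D)
    (psi_Am D)
  have hpi : 0 < Real.pi / 2 := by positivity
  have h2 : Tendsto Real.tan (𝓝[>] 0) (𝓝[>] 0) := by
    refine tendsto_nhdsWithin_iff.2 ⟨?_, ?_⟩
    · have h3 : ContinuousAt Real.tan 0 := Real.continuousAt_tan.2 (by simp)
      simpa using h3.tendsto.mono_left nhdsWithin_le_nhds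
    · filter_upwards [Ioo_mem_nhdsGT hpi] with θ hθ
      exact Real.tan_pos_of_pos_of_lt_pi_div_two hθ.1 hθ.2
  have h3 := (h1.comp (Real.tendsto_log_nhdsGT_zero.comp h2)).norm
  rw [norm_zero] at h3
  refine h3.congr' ?_
  filter_upwards [Ioo_mem_nhdsGT hpi] with θ hθ
  have hs : 0 < Real.sin θ := Real.sin_pos_of_pos_of_lt_pi hθ.1 (by linarith [hθ.2])
  have hper := (hG J D).1 θ 1 hθ.1 (by linarith [hθ.2]) one_pos
  simp only [Function.comp, psi_val D hθ.1 hθ.2]
  rw [intervalIntegral.integral_const_mul, intervalIntegral.integral_comp_sub_right,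
    show D.l - Real.log (Real.cos θ) = 0 - Real.log (Real.cos θ) + D.l by ring,
    hper.intervalIntegral_add_eq _ 0, zero_add, norm_mul, norm_mul, norm_inv, norm_pow, norm_mul,
    Complex.norm_I, Complex.norm_exp, Complex.norm_real, Real.norm_of_nonneg (by positivity)]
  simp [HD.GG]

end Pool.Agent.HilH
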