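import Pool.Agent.Lib.MP_d79f69_nt.H4Defs

/-!
A set of finite Haar measure meeting every orbit of the principal congruence subgroup.
-/

open MeasureTheory Filter Topology

namespace Pool.Agent.HilH

/-- squared length of the second row -/
def sieQ (g : G) : ℝ := g 1 0 ^ 2 + g 1 1 ^ 2

/-- inner product of the two rows -/
def sieP (g : G) : ℝ := g 0 0 * g 1 0 + g 0 1 * g 1 1

lemma sie_det (g : G) : g 0 0 * g 1 1 - g 0 1 * g 1 0 = 1 := by
  have h := g.det_coe
  rw [Matrix.det_fin_two] at h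
  exact h

lemma sie_q_pos (g : G) : 0 < sieQ g := by
  have h := sie_det g
  unfold sieQ
  by_contra hq
  have h1 : g 1 0 ^ 2 + g 1 1 ^ 2 ≤ 0 := not_lt.mp hq
  have h2 : g 1 0 = 0 := by nlinarith [sq_nonneg (g 1 0), sq_nonneg (g 1 1)]
  have h3 : g 1 1 = 0 := by nlinarith [sq_nonneg (g 1 0), sq_nonneg (g 1 1)]
  rw [h2, h3] at h
  simp at h

lemma sie_cont (i j : Fin 2) : Continuous fun g : G => g i j :=
  (continuous_apply_apply i j).comp
    (Matrix.SpecialLinearGroup.isClosedEmbedding_val (n := Fin 2) (R := ℝ)).continuous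

lemma sie_contQ : Continuous sieQ := by
  unfold sieQ
  exact ((sie_cont 1 0).pow 2).add ((sie_cont 1 1).pow 2)

lemma sie_contP : Continuous sieP := by
  unfold sieP
  exact ((sie_cont 0 0).mul (sie_cont 1 0)).add ((sie_cont 0 1).mul (sie_cont 1 1))

/-- the compact box -/
def sieC : Set G := {g | ∀ i j, |g i j| ≤ 8}

lemma sie_compact : IsCompact sieC := by
  have hK : IsCompact (Set.pi Set.univ fun _ : Fin 2 => Set.pi Set.univ fun _ : Fin 2 =>
      Set.Icc (-8 : ℝ) 8) :=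
    isCompact_univ_pi fun _ => isCompact_univ_pi fun _ => isCompact_Icc
  have h := (Matrix.SpecialLinearGroup.isClosedEmbedding_val (n := Fin 2)
    (R := ℝ)).isCompact_preimage (K := (Set.pi Set.univ fun _ : Fin 2 =>
      Set.pi Set.univ fun _ : Fin 2 => Set.Icc (-8 : ℝ) 8)) hK
  refine h.of_isClosed_subset ?_ ?_
  · have : sieC = ⋂ i, ⋂ j, {g : G | |g i j| ≤ 8} := by
      ext g
      simp [sieC]
    rw [this]
    exact isClosed_iInter fun i => isClosed_iInter fun j =>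
      isClosed_le (sie_cont i j).abs continuous_const
  · intro g hg i _ j _
    exact abs_le.mp (hg i j)

/-- the translated pieces -/
def sieB (u : ℝ) (i : ℕ) : Set G :=
  {g | |u ^ 2 * sieP g - 2 * i * sieQ g| ≤ sieQ g / 2 ∧ 1 / 2 ≤ sieQ g ∧ sieQ g ≤ 2}

lemma sie_measB (u : ℝ) (i : ℕ) : MeasurableSet (sieB u i) := by
  apply IsClosed.measurableSet
  unfold sieB
  have h1 : IsClosed {g : G | |u ^ 2 * sieP g - 2 * i * sieQ g| ≤ sieQ g / 2} :=
    isClosed_le ((continuous_const.mul sie_contP).sub (continuous_const.mul sie_contQ)).abs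
      (sie_contQ.div_const 2)
  have h2 : IsClosed {g : G | 1 / 2 ≤ sieQ g} := isClosed_le continuous_const sie_contQ
  have h3 : IsClosed {g : G | sieQ g ≤ 2} := isClosed_le sie_contQ continuous_const
  exact h1.inter (h2.inter h3)

lemma sie_disj (u : ℝ) {i k : ℕ} (h : i ≠ k) : Disjoint (sieB u i) (sieB u k) := by
  rw [Set.disjoint_left]
  rintro g ⟨h1, h2, -⟩ ⟨h3, -, -⟩
  rw [abs_le] at h1 h3
  have hq := sie_q_pos g
  rcases lt_or_gt_of_ne h with hl | hl
  · have : (i : ℝ) + 1 ≤ k := by exact_mod_cast hl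
    nlinarith [h1.1, h1.2, h3.1, h3.2]
  · have : (k : ℝ) + 1 ≤ i := by exact_mod_cast hl
    nlinarith [h1.1, h1.2, h3.1, h3.2]

lemma sie_sub (u : ℝ) (hu : 1 ≤ u) (i : ℕ) (hi : (i : ℝ) ≤ u) : sieB u i ⊆ sieC := by
  rintro g ⟨h1, h2, h3⟩
  have hd := sie_det g
  have hi0 : (0 : ℝ) ≤ i := Nat.cast_nonneg i
  rw [abs_le] at h1
  have hu2 : u ≤ u ^ 2 := by nlinarith
  have hiq : (i : ℝ) * sieQ g ≤ u * 2 := mul_le_mul hi h3 (by linarith) (by linarith)
  have hiq0 : 0 ≤ (i : ℝ) * sieQ g := mul_nonneg hi0 (by linarith)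
  have hp1 : sieP g ≤ 5 := by
    by_contra hc
    have hc' : 5 < sieP g := not_le.mp hc
    nlinarith [h1.2]
  have hp2 : -5 ≤ sieP g := by
    by_contra hc
    have hc' : sieP g < -5 := not_le.mp hc
    nlinarith [h1.1]
  have hp : sieP g ^ 2 ≤ 25 := by nlinarith
  have hid : (g 0 0 ^ 2 + g 0 1 ^ 2) * sieQ g = sieP g ^ 2 + 1 := by
    unfold sieQ sieP
    linear_combination (g 0 0 * g 1 1 - g 0 1 * g 1 0 + 1) * hd
  have hab : g 0 0 ^ 2 + g 0 1 ^ 2 ≤ 52 := by
    by_contra hc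
    have hc' : 52 < g 0 0 ^ 2 + g 0 1 ^ 2 := not_le.mp hc
    nlinarith
  have hcd : g 1 0 ^ 2 + g 1 1 ^ 2 ≤ 2 := h3
  intro a b
  apply abs_le_of_sq_le_sq' _ (by norm_num) |> abs_le.mpr
  fin_cases a <;> fin_cases b <;> simp only [Fin.zero_eta, Fin.mk_one, Fin.isValue] <;>
    nlinarith [sq_nonneg (g 0 0), sq_nonneg (g 0 1), sq_nonneg (g 1 0), sq_nonneg (g 1 1)]

/-- the translating matrix -/
noncomputable def sieM (u : ℝ) (hu : u ≠ 0) (i : ℕ) : G :=
  ⟨!![1 / u, 2 * i / u; 0, u], by simp [Matrix.det_fin_two_of, hu]⟩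

/-- the dyadic pieces of the Siegel set -/
def sieS (u : ℝ) : Set G :=
  {g | |sieP g| ≤ sieQ g / 2 ∧ 1 / 2 ≤ u ^ 2 * sieQ g ∧ u ^ 2 * sieQ g ≤ 2}

lemma sie_move (u : ℝ) (hu : u ≠ 0) (i : ℕ) :
    sieS u ⊆ (fun h => sieM u hu i * h) ⁻¹' sieB u i := by
  rintro g ⟨h1, h2, h3⟩
  have hq : sieQ (sieM u hu i * g) = u ^ 2 * sieQ g := by
    simp [sieQ, sieM, Matrix.mul_apply, Fin.sum_univ_two]
    ring
  have hp : sieP (sieM u hu i * g) = sieP g + 2 * i * sieQ g := by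
    simp [sieQ, sieP, sieM, Matrix.mul_apply, Fin.sum_univ_two]
    field_simp
    ring
  refine ⟨?_, ?_, ?_⟩
  · rw [hq, hp]
    have : u ^ 2 * (sieP g + 2 * i * sieQ g) - 2 * i * (u ^ 2 * sieQ g) = u ^ 2 * sieP g := by ring
    rw [this, abs_mul, abs_of_nonneg (sq_nonneg u), mul_div_assoc]
    exact mul_le_mul_of_nonneg_left h1 (sq_nonneg u)
  · rw [hq]; exact h2
  · rw [hq]; exact h3

lemma sie_piece (j : ℕ) : mu (sieS (2 ^ j)) ≤ (2⁻¹ : ENNReal) ^ j * mu sieC := by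
  have hu : (2 : ℝ) ^ j ≠ 0 := by positivity
  have h1 : ∀ i : ℕ, mu (sieS (2 ^ j)) ≤ mu (sieB (2 ^ j) i) := fun i => by
    calc mu (sieS (2 ^ j)) ≤ mu ((fun h => sieM _ hu i * h) ⁻¹' sieB (2 ^ j) i) :=
          measure_mono (sie_move _ hu i)
      _ = mu (sieB (2 ^ j) i) := measure_preimage_mul mu _ _
  have h2 : ∑ i ∈ Finset.range (2 ^ j), mu (sieB (2 ^ j) i) ≤ mu sieC := by
    rw [← measure_biUnion_finset (fun i _ k _ hik => sie_disj _ hik) (fun i _ => sie_measB _ i)]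
    apply measure_mono
    refine Set.iUnion₂_subset fun i hi => sie_sub _ (one_le_pow₀ (by norm_num)) i ?_
    have := (Finset.mem_range.mp hi).le
    exact_mod_cast this
  have h3 : (2 : ENNReal) ^ j * mu (sieS (2 ^ j)) ≤ mu sieC := by
    refine le_trans ?_ h2
    have := Finset.card_nsmul_le_sum (Finset.range (2 ^ j)) (fun i => mu (sieB (2 ^ j) i))
      (mu (sieS (2 ^ j))) (fun i _ => h1 i)
    rw [Finset.card_range, nsmul_eq_mul] at this
    simpa using this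
  have h4 : (2⁻¹ : ENNReal) ^ j * (2 : ENNReal) ^ j = 1 := by
    rw [← mul_pow, ENNReal.inv_mul_cancel (by norm_num) (by norm_num), one_pow]
  calc mu (sieS (2 ^ j)) = (2⁻¹ : ENNReal) ^ j * ((2 : ENNReal) ^ j * mu (sieS (2 ^ j))) := by
        rw [← mul_assoc, h4, one_mul]
    _ ≤ _ := by gcongr

/-- the Siegel set -/
def sieS0 : Set G := {g | |sieP g| ≤ sieQ g / 2 ∧ sieQ g ≤ 2}

lemma sie_meas0 : MeasurableSet sieS0 := by
  apply IsClosed.measurableSet
  unfold sieS0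
  exact IsClosed.inter (isClosed_le sie_contP.abs (sie_contQ.div_const 2))
    (isClosed_le sie_contQ continuous_const)

lemma sie_cover : sieS0 ⊆ ⋃ j : ℕ, sieS (2 ^ j) := by
  rintro g ⟨h1, h2⟩
  have hq := sie_q_pos g
  obtain ⟨n, hn1, hn2⟩ := exists_nat_pow_near (x := 2 / sieQ g) (y := 4)
    (by rw [le_div_iff₀ hq]; linarith) (by norm_num)
  rw [le_div_iff₀ hq] at hn1
  rw [div_lt_iff₀ hq, pow_succ] at hn2
  have h4 : ((2 : ℝ) ^ n) ^ 2 = 4 ^ n := by
    rw [← pow_mul, mul_comm, pow_mul]; norm_num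
  refine Set.mem_iUnion.mpr ⟨n, h1, ?_, ?_⟩
  · rw [h4]; linarith
  · rw [h4]; exact hn1

lemma sie_fin0 : mu sieS0 < ⊤ := by
  calc mu sieS0 ≤ mu (⋃ j : ℕ, sieS (2 ^ j)) := measure_mono sie_cover
    _ ≤ ∑' j : ℕ, mu (sieS (2 ^ j)) := measure_iUnion_le _
    _ ≤ ∑' j : ℕ, (2⁻¹ : ENNReal) ^ j * mu sieC := ENNReal.tsum_le_tsum sie_piece
    _ = (∑' j : ℕ, (2⁻¹ : ENNReal) ^ j) * mu sieC := ENNReal.tsum_mul_right
    _ < ⊤ := by
      rw [ENNReal.tsum_geometric_two]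
      exact ENNReal.mul_lt_top (by norm_num) sie_compact.measure_lt_top

lemma sie_coe (g : G) : ((g • UpperHalfPlane.I : UpperHalfPlane) : ℂ) =
    ((sieP g / sieQ g : ℝ) : ℂ) + ((1 / sieQ g : ℝ) : ℂ) * Complex.I := by
  have hq := sie_q_pos g
  have hd := sie_det g
  have hq' : ((sieQ g : ℝ) : ℂ) ≠ 0 := by exact_mod_cast hq.ne'
  have hd' : (g 0 0 : ℂ) * g 1 1 - g 0 1 * g 1 0 = 1 := by exact_mod_cast hd
  have hden : (g 1 0 : ℂ) * Complex.I + g 1 1 ≠ 0 := by
    intro h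
    have h1 := congrArg Complex.re h
    have h2 := congrArg Complex.im h
    simp at h1 h2
    unfold sieQ at hq
    rw [h1, h2] at hq
    simp at hq
  rw [UpperHalfPlane.coe_specialLinearGroup_apply]
  simp only [Algebra.algebraMap_self, RingHom.id_apply, UpperHalfPlane.coe_I]
  rw [div_eq_iff hden]
  push_cast
  field_simp
  unfold sieQ sieP
  push_cast
  linear_combination (-(g 1 0 : ℂ)) * Complex.I_sq +
    ((g 1 1 : ℂ) * Complex.I - g 1 0) * hd'

lemma sie_orbit (g : G) : ∃ γ : Matrix.SpecialLinearGroup (Fin 2) ℤ,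
    Matrix.SpecialLinearGroup.map (Int.castRingHom ℝ) γ * g ∈ sieS0 := by
  obtain ⟨γ, hγ⟩ := ModularGroup.exists_smul_mem_fd (g • UpperHalfPlane.I)
  refine ⟨γ, ?_⟩
  set h : G := Matrix.SpecialLinearGroup.map (Int.castRingHom ℝ) γ * g with hh
  have he : γ • (g • UpperHalfPlane.I) = h • UpperHalfPlane.I := by
    rw [hh, mul_smul]
    apply UpperHalfPlane.ext
    rw [UpperHalfPlane.coe_specialLinearGroup_apply, UpperHalfPlane.coe_specialLinearGroup_apply
      (Matrix.SpecialLinearGroup.map (Int.castRingHom ℝ) γ)]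
    simp
  rw [he] at hγ
  have hq := sie_q_pos h
  have hre : (h • UpperHalfPlane.I).re = sieP h / sieQ h := by
    rw [← UpperHalfPlane.coe_re, sie_coe]
    simp only [Complex.add_re, Complex.ofReal_re, Complex.mul_re, Complex.I_re, Complex.ofReal_im,
      Complex.I_im]
    ring
  have him : (h • UpperHalfPlane.I).im = 1 / sieQ h := by
    rw [← UpperHalfPlane.coe_im, sie_coe]
    simp only [Complex.add_im, Complex.ofReal_re, Complex.mul_im, Complex.I_re, Complex.ofReal_im,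
      Complex.I_im]
    ring
  have h1 := hγ.2
  have h2 := ModularGroup.three_le_four_mul_im_sq_of_mem_fd hγ
  rw [hre, abs_div, abs_of_pos hq, div_le_iff₀ hq] at h1
  rw [him, div_pow, one_pow, mul_one_div, le_div_iff₀ (by positivity)] at h2
  refine ⟨by linarith, ?_⟩
  nlinarith

theorem sSie : SSie := by
  intro N hN
  have : NeZero N := ⟨hN⟩
  have : Finite (Matrix.SpecialLinearGroup (Fin 2) ℤ ⧸ CongruenceSubgroup.Gamma N) :=
    Subgroup.finite_quotient_of_finiteIndex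
  refine ⟨⋃ c : Matrix.SpecialLinearGroup (Fin 2) ℤ ⧸ CongruenceSubgroup.Gamma N,
    (fun h => Matrix.SpecialLinearGroup.map (Int.castRingHom ℝ) c.out * h) ⁻¹' sieS0, ?_, ?_, ?_⟩
  · exact MeasurableSet.iUnion fun c => (measurable_const_mul _) sie_meas0
  · have h := measure_biUnion_lt_top (μ := mu) (s := Set.univ) Set.finite_univ
      (f := fun c : Matrix.SpecialLinearGroup (Fin 2) ℤ ⧸ CongruenceSubgroup.Gamma N =>
        (fun h => Matrix.SpecialLinearGroup.map (Int.castRingHom ℝ) c.out * h) ⁻¹' sieS0)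
      (fun c _ => by rw [measure_preimage_mul]; exact sie_fin0)
    simpa only [Set.mem_univ, Set.iUnion_true] using h
  · intro g
    obtain ⟨γ, hγ⟩ := sie_orbit g
    obtain ⟨k, hk⟩ := QuotientGroup.mk_out_eq_mul (CongruenceSubgroup.Gamma N) γ
    refine ⟨Matrix.SpecialLinearGroup.map (Int.castRingHom ℝ) (k⁻¹ : CongruenceSubgroup.Gamma N),
      Subgroup.mem_map_of_mem _ (k⁻¹).2, Set.mem_iUnion.mpr ⟨QuotientGroup.mk γ, ?_⟩⟩
    rw [Set.mem_preimage, hk, ← mul_assoc, ← map_mul]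
    simpa using hγ

end Pool.Agent.HilH
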