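import Pool.Agent.Lib.MP_d79f69_nt.H4HM
import Pool.Agent.Lib.MP_d79f69_nt.H4HMb
import Pool.Agent.Lib.MP_d79f69_nt.H4Lat
import Pool.Agent.Lib.MP_d79f69_nt.H4Sie
import Pool.Agent.Lib.MP_d79f69_nt.H4Mix
import Pool.Agent.Lib.MP_d79f69_nt.H4Mix2
import Pool.Agent.Lib.MP_d79f69_nt.H4Hk
import Pool.Agent.Lib.MP_d79f69_nt.H4Thk
import Pool.Agent.Lib.MP_d79f69_nt.H4F0
import Pool.Agent.Lib.MP_d79f69_nt.H4G1
import Pool.Agent.Lib.MP_d79f69_nt.H4Unf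
import Pool.Agent.Lib.MP_d79f69_nt.H4FE
import Pool.Agent.Lib.MP_d79f69_nt.H4Low1
import Pool.Agent.Lib.MP_d79f69_nt.H4Low2
import Pool.Agent.Lib.MP_d79f69_nt.H4Ha
import Pool.Agent.Lib.MP_d79f69_nt.H4PsiB
import Pool.Agent.Lib.MP_d79f69_nt.H4NFa
import Pool.Agent.Lib.MP_d79f69_nt.H4NFb
import Pool.Agent.Lib.MP_d79f69_nt.H4NF

namespace Pool.Agent.HilH

universe u

theorem mixing : SMix := sMix (sHM sHM0) sUni sFin (sFD sFin) sSie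

theorem mixing2 : SMix2 := sMix2 sUni sFin (sFD sFin) sSie

theorem hardy4 : SHa.{u} :=
  sHa sF0 (sFE (sG1 sF0) (sUnf sF0)) sLow1 sLow2 sInv (sPsiB sF0 mixing mixing2 (sG1 sF0))

theorem hecke4 : SHk.{u} := sHk sDel sConj

theorem field4 : SNF.{u} := sNF sCo sDel sUn sConj sRep

end Pool.Agent.HilH
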