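import Mathlib

/-!
Definitions and interface statements for Hardy's theorem in degree four (Hilbert cusp forms).
-/

open MeasureTheory Filter Topology NumberField

namespace Pool.Agent.HilH

universe u

/-! ### the group -/

abbrev G : Type := Matrix.SpecialLinearGroup (Fin 2) ℝ

instance : MeasurableSpace G := borel G
instance : BorelSpace G := ⟨rfl⟩
instance : LocallyCompactSpace G :=
  haveI : LocallyCompactSpace (Matrix (Fin 2) (Fin 2) ℝ) :=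
    inferInstanceAs (LocallyCompactSpace (Fin 2 → Fin 2 → ℝ))
  (Matrix.SpecialLinearGroup.isClosedEmbedding_val (n := Fin 2) (R := ℝ)).locallyCompactSpace
instance : SecondCountableTopology G :=
  haveI : SecondCountableTopology (Matrix (Fin 2) (Fin 2) ℝ) :=
    inferInstanceAs (SecondCountableTopology (Fin 2 → Fin 2 → ℝ))
  (Matrix.SpecialLinearGroup.isClosedEmbedding_val (n := Fin 2)
    (R := ℝ)).isEmbedding.secondCountableTopology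
instance : T2Space G :=
  (Matrix.SpecialLinearGroup.isClosedEmbedding_val (n := Fin 2) (R := ℝ)).isEmbedding.t2Space

/-- Haar measure -/
noncomputable def mu : Measure G := Measure.haar

instance : mu.IsHaarMeasure := by unfold mu; infer_instance

noncomputable def Am (t : ℝ) : G :=
  ⟨!![Real.exp (t / 2), 0; 0, Real.exp (-(t / 2))], by
    simp [Matrix.det_fin_two_of, ← Real.exp_add]⟩

def Nm (x : ℝ) : G := ⟨!![1, x; 0, 1], by simp [Matrix.det_fin_two_of]⟩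

def Lm (x : ℝ) : G := ⟨!![1, 0; x, 1], by simp [Matrix.det_fin_two_of]⟩

/-- the principal congruence subgroup inside `SL(2, ℝ)` -/
def GamR (N : ℕ) : Subgroup G :=
  (CongruenceSubgroup.Gamma N).map (Matrix.SpecialLinearGroup.map (Int.castRingHom ℝ))

/-- right uniform continuity -/
def RUC (Ψ : G → ℂ) : Prop :=
  ∀ ε : ℝ, 0 < ε → ∀ᶠ w in 𝓝 (1 : G), ∀ g : G, ‖Ψ (g * w) - Ψ g‖ ≤ ε

noncomputable def jj (g : G) (z : ℂ) : ℂ := g 1 0 * z + g 1 1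

noncomputable def mob (g : G) (z : ℂ) : ℂ := (g 0 0 * z + g 0 1) / jj g z

/-- conjugation by the antidiagonal permutation matrix -/
def hat (g : G) : G :=
  ⟨!![g 1 1, g 1 0; g 0 1, g 0 0], by
    have h := g.det_coe
    rw [Matrix.det_fin_two] at h
    rw [Matrix.det_fin_two_of]
    linarith⟩

/-! ### mixing -/

/-- Howe-Moore in a Hilbert space -/
def SHM0 : Prop := ∀ (H : Type) [NormedAddCommGroup H] [InnerProductSpace ℂ H] [CompleteSpace H]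
  (π : G →* (H →L[ℂ] H)), (∀ g v, ‖π g v‖ = ‖v‖) →
  (∀ v, Tendsto (fun g => π g v) (𝓝 1) (𝓝 v)) →
  ∀ (Φ : H) (κ : G) (c : ℂ), c ≠ 1 → π κ Φ = c • Φ →
  ∀ w : H, Tendsto (fun t => inner ℂ w (π (Am t) Φ)) atBot (𝓝 0)

/-- Howe-Moore for a representation with an invariant Hilbertian seminorm -/
def SHM : Prop := ∀ (B H : Type) [AddCommGroup B] [Module ℂ B] [NormedAddCommGroup H]
  [InnerProductSpace ℂ H] (J : B →ₗ[ℂ] H) (π : G →* Module.End ℂ B),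
  (∀ g v, ‖J (π g v)‖ = ‖J v‖) → (∀ v, Tendsto (fun g => J (π g v)) (𝓝 1) (𝓝 (J v))) →
  ∀ (Φ : B) (κ : G) (c : ℂ), c ≠ 1 → π κ Φ = c • Φ →
  ∀ (l : B →ₗ[ℂ] ℂ) (C : ℝ), (∀ v, ‖l v‖ ≤ C * ‖J v‖) →
  Tendsto (fun t => l (π (Am t) Φ)) atBot (𝓝 0)

def SUni : Prop := mu.IsMulRightInvariant

def SFin : Prop := ∀ (N : ℕ) (W : Set G), IsCompact W → (W ∩ (GamR N : Set G)).Finite

def SFD : Prop := ∀ N : ℕ, ∃ F : Set G, MeasurableSet F ∧ IsFundamentalDomain (GamR N) F mu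

def SSie : Prop := ∀ N : ℕ, N ≠ 0 → ∃ S : Set G, MeasurableSet S ∧ mu S < ⊤ ∧
  ∀ g : G, ∃ γ ∈ GamR N, γ * g ∈ S

/-- mixing on the quotient -/
def SMix : Prop := ∀ (Ψ : G → ℂ) (N : ℕ) (κ : G) (c : ℂ) (C : ℝ), N ≠ 0 → c ≠ 1 →
  (∀ g, ‖Ψ g‖ ≤ C) → RUC Ψ → (∀ γ ∈ GamR N, ∀ g, Ψ (γ * g) = Ψ g) →
  (∀ g, Ψ (g * κ) = c * Ψ g) → ∀ (g₀ : G) (W : Set G), IsCompact W →
  Tendsto (fun t => ∫ w in W, Ψ (g₀ * w * Am t) ∂mu) atBot (𝓝 0)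

/-- `m` is the limit of the averages of the translates of `Ψ` -/
def HasMean (Ψ : G → ℂ) (m : ℂ) : Prop := ∀ (g₀ : G) (W : Set G), IsCompact W →
  Tendsto (fun t => ∫ w in W, Ψ (g₀ * w * Am t) ∂mu) atBot (𝓝 ((mu.real W : ℂ) * m))

/-- mixing with a mean value -/
def SMix2 : Prop := ∀ (Ψ : G → ℂ) (N : ℕ) (C : ℝ), N ≠ 0 → (∀ g, ‖Ψ g‖ ≤ C) → RUC Ψ →
  (∀ γ ∈ GamR N, ∀ g, Ψ (γ * g) = Ψ g) → ∃ m : ℂ, HasMean Ψ m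

/-- thickening -/
def SMX2 : Prop := ∀ (Ψ : G → ℂ) (C l : ℝ), 0 < l → (∀ g, ‖Ψ g‖ ≤ C) → RUC Ψ → HasMean Ψ 0 →
  (∀ g, Ψ (Am l * g) = Ψ g) →
  Tendsto (fun t => ∫ x in (0 : ℝ)..l, Ψ (Am x * Nm 1 * Am t)) atBot (𝓝 0)

/-- equidistribution of the curves equidistant from a closed geodesic -/
def SMX : Prop := ∀ (Ψ : G → ℂ) (T : G) (N : ℕ) (κ : G) (c : ℂ) (C l : ℝ), N ≠ 0 → 0 < l → c ≠ 1 →
  (∀ g, ‖Ψ g‖ ≤ C) → RUC Ψ → (∀ γ ∈ GamR N, ∀ g, Ψ (T * γ * T⁻¹ * g) = Ψ g) →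
  (∀ g, Ψ (g * κ) = c * Ψ g) → (∀ g, Ψ (Am l * g) = Ψ g) →
  Tendsto (fun t => ∫ x in (0 : ℝ)..l, Ψ (Am x * Nm 1 * Am t)) atBot (𝓝 0)

/-! ### the analytic data -/

noncomputable def ee (z : ℂ) : ℂ := Complex.exp (2 * Real.pi * Complex.I * z)

/-- the slash action in both variables -/
noncomputable def slf (p q : ℕ) (f : ℂ → ℂ → ℂ) (g h : G) (z w : ℂ) : ℂ :=
  f (mob g z) (mob h w) / (jj g z ^ (2 * p) * jj h w ^ (2 * q))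

/-- two conjugate Hecke operators with different eigenvalues -/
def Hk (p q : ℕ) (f : ℂ → ℂ → ℂ) : Prop :=
  ∃ (n N : ℕ) (α β T : G) (h h' : ℕ → G) (c c' : ℂ), N ≠ 0 ∧ c ≠ c' ∧
    (∀ γ ∈ GamR N, ∀ z w : ℂ, 0 < z.im → 0 < w.im →
      slf p q f (α * (T * γ * T⁻¹)) (β * hat (T * γ * T⁻¹)) z w = slf p q f α β z w) ∧
    (∀ z w : ℂ, 0 < z.im → 0 < w.im →
      ∑ j ∈ Finset.range n, slf p q f (α * h j) (β * hat (h j)) z w = c * f z w) ∧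
    (∀ z w : ℂ, 0 < z.im → 0 < w.im →
      ∑ j ∈ Finset.range n, slf p q f (α * h' j) (β * hat (h' j)) z w = c' * f z w)

structure HD (J : Type u) where
  p : ℕ
  q : ℕ
  hp : 1 ≤ p
  hq : 1 ≤ q
  x : J → ℝ
  y : J → ℝ
  hx : ∀ j, 0 < x j
  hy : ∀ j, 0 < y j
  a : J → ℝ
  l : ℝ
  hl : 0 < l
  f : ℂ → ℂ → ℂ
  hpq : p ≠ q ∨ Hk p q f
  hsum : ∀ z w : ℂ, 0 < z.im → 0 < w.im → HasSum (fun i : J × ℤ =>
    ((a i.1 * Real.exp (((p : ℝ) - q) * l * i.2) : ℝ) : ℂ) *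
      ee ((x i.1 * Real.exp (l * i.2) : ℝ) * z + (y i.1 * Real.exp (-(l * i.2)) : ℝ) * w)) (f z w)
  hU : ∀ z w : ℂ, 0 < z.im → 0 < w.im →
    f (Real.exp l * z) (Real.exp (-l) * w) * (Real.exp (((p : ℝ) - q) * l) : ℝ) = f z w
  hS : ∀ z w : ℂ, 0 < z.im → 0 < w.im → f (-1 / z) (-1 / w) = z ^ (2 * p) * w ^ (2 * q) * f z w
  C : ℝ
  hB : ∀ z w : ℂ, 0 < z.im → 0 < w.im → ‖f z w‖ * z.im ^ p * w.im ^ q ≤ C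
  Ca : ℝ
  ha : ∀ j, |a j| ≤ Ca * x j ^ p * y j ^ q
  hN : Summable fun j => (x j * y j) ^ (-(3 / 2 : ℝ))
  m : ℕ
  hm : 0 < m
  hint : ∀ j, ∃ n : ℕ, x j * y j * m = n
  T : G
  N : ℕ
  hN0 : N ≠ 0
  hΓ : ∀ γ ∈ GamR N, ∀ z w : ℂ, 0 < z.im → 0 < w.im →
    f (mob (T * γ * T⁻¹) z) (mob (hat (T * γ * T⁻¹)) w) =
      jj (T * γ * T⁻¹) z ^ (2 * p) * jj (hat (T * γ * T⁻¹)) w ^ (2 * q) * f z w

variable {J : Type u}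

/-- the form on the rotated rays -/
noncomputable def HD.g (D : HD J) (φ r x : ℝ) : ℂ :=
  D.f ((r * Real.exp x : ℝ) * Complex.exp (Complex.I * φ))
      ((r * Real.exp (-x) : ℝ) * Complex.exp (Complex.I * φ)) *
    (((r * Real.exp x) ^ D.p * (r * Real.exp (-x)) ^ D.q : ℝ) : ℂ)

noncomputable def HD.GG (D : HD J) (φ r : ℝ) : ℂ := ∫ x in (0 : ℝ)..D.l, D.g φ r x

noncomputable def HD.b (D : HD J) (j : J) : ℝ :=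
  D.a j * D.x j ^ (1 / 2 - (D.p : ℝ)) * D.y j ^ (1 / 2 - (D.q : ℝ))

noncomputable def HD.DS (D : HD J) (s : ℂ) : ℂ :=
  ∑' j, (D.b j : ℂ) * ((D.x j * D.y j : ℝ) : ℂ) ^ (-s)

noncomputable def gam (p q : ℕ) (s : ℂ) : ℂ :=
  1 / 2 * ((2 * Real.pi : ℝ) : ℂ) ^ (-(2 * s + p + q - 1)) *
    Complex.Gamma (s + p - 1 / 2) * Complex.Gamma (s + q - 1 / 2)

noncomputable def HD.Psi (D : HD J) (g : G) : ℂ :=
  D.f (mob g Complex.I) (mob (hat g) Complex.I) /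
    (jj g Complex.I ^ (2 * D.p) * jj (hat g) Complex.I ^ (2 * D.q))

/-- basic facts on the form -/
def SF0 : Prop := ∀ (J : Type u) (D : HD J),
  ContinuousOn (fun z : ℂ × ℂ => D.f z.1 z.2) {z | 0 < z.1.im ∧ 0 < z.2.im} ∧
  (∀ w : ℂ, 0 < w.im → DifferentiableOn ℂ (fun z => D.f z w) {z | 0 < z.im}) ∧
  (∀ z : ℂ, 0 < z.im → DifferentiableOn ℂ (fun w => D.f z w) {w | 0 < w.im}) ∧
  (∀ δ : ℝ, 0 < δ → ∃ C c : ℝ, 0 < c ∧ ∀ (r : ℝ) (z w : ℂ), 1 ≤ r → δ * r ≤ z.im → δ * r ≤ w.im →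
    ‖D.f z w‖ ≤ C * Real.exp (-c * r)) ∧
  (∀ u v : ℝ, 0 < u → 0 < v → (D.f (u * Complex.I) (v * Complex.I)).im = 0) ∧
  (∀ σ : ℝ, 2 ≤ σ → Summable fun j => |D.b j| * (D.x j * D.y j) ^ (-σ))

/-- the averaged form -/
def SG1 : Prop := ∀ (J : Type u) (D : HD J),
  (∀ φ r : ℝ, 0 < φ → φ < Real.pi → 0 < r → Function.Periodic (D.g φ r) D.l) ∧
  (∀ φ : ℝ, 0 < φ → φ < Real.pi → ContinuousOn (D.GG φ) (Set.Ioi 0) ∧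
    (∀ A : ℝ, D.GG φ =O[atTop] fun r : ℝ => r ^ A) ∧
    ∀ r : ℝ, 0 < r → D.GG (Real.pi - φ) (1 / r) =
      Complex.exp (2 * Complex.I * φ * (D.p + D.q)) * D.GG φ r) ∧
  ∀ r : ℝ, 0 < r → (D.GG (Real.pi / 2) r).im = 0

/-- unfolding -/
def SUnf : Prop := ∀ (J : Type u) (D : HD J) (φ : ℝ) (s : ℂ), 0 < φ → φ < Real.pi → 2 < s.re →
  mellin (D.GG φ) (2 * s - 1) =
    Complex.exp (-(Complex.I * (φ - Real.pi / 2) * (2 * s + D.p + D.q - 1))) *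
      gam D.p D.q s * D.DS s

/-- the completed L-function -/
def SFE : Prop := ∀ (J : Type u) (D : HD J), ∃ Λ : ℂ → ℂ, Differentiable ℂ Λ ∧
  (∀ a b : ℝ, ∃ C : ℝ, ∀ s : ℂ, a ≤ s.re → s.re ≤ b → ‖Λ s‖ ≤ C) ∧
  (∀ s : ℂ, 2 < s.re → Λ s = gam D.p D.q s * D.DS s) ∧
  (∀ t : ℝ, (Complex.I ^ (D.p + D.q) * Λ (1 / 2 + t * Complex.I)).im = 0) ∧
  ∀ θ : ℝ, 0 < θ → θ < Real.pi →
    Integrable (fun t : ℝ => Λ (1 / 2 + t * Complex.I) *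
      (Real.exp (2 * t * (Real.pi / 2 - θ)) : ℝ)) ∧
    ‖∫ t : ℝ, Λ (1 / 2 + t * Complex.I) * (Real.exp (2 * t * (Real.pi / 2 - θ)) : ℝ)‖ =
      Real.pi * ‖D.GG θ 1‖

/-- the first nonzero coefficient -/
def SLow1 : Prop := ∀ (J : Type u) (b N : J → ℝ) (m : ℕ), 0 < m → (∀ j, 0 < N j) →
  (∀ j, ∃ n : ℕ, N j * m = n) → Summable (fun j => |b j| * N j ^ (-(3 : ℝ))) →
  (∀ s : ℂ, 3 ≤ s.re → ∑' j, (b j : ℂ) * (N j : ℂ) ^ (-s) = 0) ∨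
  ∃ (β : ℂ) (N₀ U : ℝ), β ≠ 0 ∧ 0 < N₀ ∧ 3 ≤ U ∧ ∀ s : ℂ, s.re = U →
    ‖(∑' j, (b j : ℂ) * (N j : ℂ) ^ (-s)) * (N₀ : ℂ) ^ s / β - 1‖ ≤ 1 / 10

/-- first moment lower bound under exponential growth -/
def SLow2 : Prop := ∀ (L : ℂ → ℂ) (U C A : ℝ), Differentiable ℂ L → 2 ≤ U →
  (∀ s : ℂ, 1 / 2 ≤ s.re → s.re ≤ U → ‖L s‖ ≤ C * Real.exp (A * |s.im|)) →
  (∀ s : ℂ, s.re = U → ‖L s - 1‖ ≤ 1 / 10) →
  ∃ c X₀ : ℝ, 0 < c ∧ ∀ X : ℝ, X₀ ≤ X →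
    c * X ≤ ∫ t in (X / 2)..(3 * X), ‖L (1 / 2 + t * Complex.I)‖

/-- bounds for the Gamma function -/
def SInv : Prop :=
  (∀ a b : ℝ, ∃ C A : ℝ, ∀ w : ℂ, a ≤ w.re → w.re ≤ b →
    ‖(Complex.Gamma w)⁻¹‖ ≤ C * Real.exp (A * |w.im|)) ∧
  ∀ σ : ℝ, ∃ c U : ℝ, 0 < c ∧ 0 < U ∧ ∀ t : ℝ, U ≤ t →
    c * t ^ (σ - 1 / 2) * Real.exp (-Real.pi * t / 2) ≤ ‖Complex.Gamma (σ + t * Complex.I)‖

/-- the lift to the group -/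
def SPsiA : Prop := ∀ (J : Type u) (D : HD J), (∀ g, ‖D.Psi g‖ ≤ D.C) ∧ RUC D.Psi

def SPsiB : Prop := ∀ (J : Type u) (D : HD J),
  Tendsto (fun θ : ℝ => Real.sin θ ^ (D.p + D.q) * ‖D.GG θ 1‖) (𝓝[>] 0) (𝓝 0)

/-- abstract Hardy theorem -/
def SHa : Prop := ∀ (J : Type u) (D : HD J), ∃ L : ℂ → ℂ, Differentiable ℂ L ∧
  (∀ s : ℂ, 2 < s.re → L s = D.DS s) ∧ {t : ℝ | L (1 / 2 + t * Complex.I) = 0}.Infinite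

/-! ### the number field input -/

/-- coefficients of an absolutely convergent trigonometric series -/
def SCo : Prop := ∀ (ι : Type u) (ξ : ι → ℝ) (c : ι → ℂ) (M : ℝ), Function.Injective ξ →
  Summable c → (∀ t : ℝ, ‖∑' i, c i * ee (ξ i * t)‖ ≤ M) → ∀ i, ‖c i‖ ≤ M

/-- totally positive elements of the inverse different -/
def Pos {K : Type u} [Field K] (σ τ : K →+* ℝ) : Set K :=
  {ν | 0 < σ ν ∧ 0 < τ ν ∧ ∀ x : 𝓞 K, ∃ n : ℤ, σ (ν * x) + τ (ν * x) = n}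

/-- a square root of an integer -/
def SDel : Prop := ∀ (K : Type u) [Field K] [NumberField K], Module.finrank ℚ K = 2 →
  ∀ σ τ : K →+* ℝ, σ ≠ τ → ∃ (δ : 𝓞 K) (d : ℕ), 0 < σ δ ∧ τ δ = -σ δ ∧ σ δ ^ 2 = d

/-- the squares of units form an infinite cyclic group -/
def SUn : Prop := ∀ (K : Type u) [Field K] [NumberField K], Module.finrank ℚ K = 2 →
  ∀ σ τ : K →+* ℝ, σ ≠ τ → ∃ (ε : (𝓞 K)ˣ) (l : ℝ), 0 < l ∧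
    σ ((ε : 𝓞 K) : K) ^ 2 = Real.exp l ∧ τ ((ε : 𝓞 K) : K) ^ 2 = Real.exp (-l) ∧
    ∀ v : (𝓞 K)ˣ, ∃ n : ℤ, v ^ 2 = (ε ^ n) ^ 2

/-- the conjugated congruence subgroup lies in the Hilbert modular group -/
def SConj : Prop := ∀ (K : Type u) [Field K] (σ τ : K →+* ℝ) (δ : 𝓞 K) (d : ℕ), 0 < σ δ →
  τ δ = -σ δ → σ δ ^ 2 = d → ∃ T : G, ∀ γ ∈ GamR (2 * d), ∃ α β γ' δ' : 𝓞 K,
    α * δ' - β * γ' = 1 ∧ δ ∣ γ' ∧ (T * γ * T⁻¹) 0 0 = σ α ∧ (T * γ * T⁻¹) 0 1 = σ β ∧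
    (T * γ * T⁻¹) 1 0 = σ γ' ∧ (T * γ * T⁻¹) 1 1 = σ δ' ∧
    (T * γ * T⁻¹) 1 1 = τ α ∧ (T * γ * T⁻¹) 1 0 = τ β ∧
    (T * γ * T⁻¹) 0 1 = τ γ' ∧ (T * γ * T⁻¹) 0 0 = τ δ'

/-- norms of orbit representatives -/
def SRep : Prop := ∀ (K : Type u) [Field K] (σ τ : K →+* ℝ) (δ : 𝓞 K) (d : ℕ) (ε : (𝓞 K)ˣ) (l : ℝ),
  0 < σ δ → τ δ = -σ δ → σ δ ^ 2 = d → 0 < l → σ ((ε : 𝓞 K) : K) ^ 2 = Real.exp l →
  τ ((ε : 𝓞 K) : K) ^ 2 = Real.exp (-l) → ∀ R : Set K, R ⊆ Pos σ τ →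
  (∀ ν ∈ Pos σ τ, ∃! ρ, ρ ∈ R ∧ ∃ v : (𝓞 K)ˣ, ν = ρ * ((v : 𝓞 K) : K) ^ 2) →
  (∀ ν ∈ Pos σ τ, ∃ n : ℕ, σ ν * τ ν * ((4 * d : ℕ) : ℝ) = n) ∧
  Summable fun ρ : R => (σ ρ * τ ρ) ^ (-(3 / 2 : ℝ))

def SNF : Prop := ∀ (K : Type u) [Field K] [NumberField K], Module.finrank ℚ K = 2 →
  ∀ σ τ : K →+* ℝ, σ ≠ τ → ∀ p q : ℕ, 1 ≤ p → 1 ≤ q →
  ∀ (f : ℂ → ℂ → ℂ) (a : K → ℝ), (p ≠ q ∨ Hk p q f) →
  (∀ z w : ℂ, 0 < z.im → 0 < w.im →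
    HasSum (fun ν : Pos σ τ => (a ν : ℂ) * ee (σ ν * z + τ ν * w)) (f z w)) →
  (∀ α β γ δ : 𝓞 K, α * δ - β * γ = 1 → ∀ z w : ℂ, 0 < z.im → 0 < w.im →
    f ((σ α * z + σ β) / (σ γ * z + σ δ)) ((τ α * w + τ β) / (τ γ * w + τ δ)) =
      (σ γ * z + σ δ) ^ (2 * p) * (τ γ * w + τ δ) ^ (2 * q) * f z w) →
  ∀ C : ℝ, (∀ z w : ℂ, 0 < z.im → 0 < w.im → ‖f z w‖ * z.im ^ p * w.im ^ q ≤ C) →
  ∀ R : Set K, R ⊆ Pos σ τ →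
  (∀ ν ∈ Pos σ τ, ∃! ρ, ρ ∈ R ∧ ∃ v : (𝓞 K)ˣ, ν = ρ * ((v : 𝓞 K) : K) ^ 2) →
  ∃ D : HD R, D.p = p ∧ D.q = q ∧ D.x = (fun ρ : R => σ ρ) ∧ D.y = (fun ρ : R => τ ρ) ∧
    D.a = fun ρ : R => a ρ

/-- Hecke operators at a split prime -/
def SHk : Prop := ∀ (K : Type u) [Field K] [NumberField K], Module.finrank ℚ K = 2 →
  ∀ σ τ : K →+* ℝ, σ ≠ τ → ∀ p : ℕ, 1 ≤ p → ∀ f : ℂ → ℂ → ℂ,
  (∀ α β γ δ : 𝓞 K, α * δ - β * γ = 1 → ∀ z w : ℂ, 0 < z.im → 0 < w.im →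
    f ((σ α * z + σ β) / (σ γ * z + σ δ)) ((τ α * w + τ β) / (τ γ * w + τ δ)) =
      (σ γ * z + σ δ) ^ (2 * p) * (τ γ * w + τ δ) ^ (2 * p) * f z w) →
  ∀ (π π' : 𝓞 K) (l : ℕ) (c c' : ℂ), l.Prime → l ≠ 2 → π * π' = l → IsCoprime π π' →
  0 < σ π → 0 < τ π → σ π' = τ π → τ π' = σ π → c ≠ c' →
  (∀ z w : ℂ, 0 < z.im → 0 < w.im → (l : ℂ) ^ (2 * p - 1) * f (σ π * z) (τ π * w) +
    (l : ℂ)⁻¹ * ∑ j ∈ Finset.range l, f ((z + j) / σ π) ((w + j) / τ π) = c * f z w) →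
  (∀ z w : ℂ, 0 < z.im → 0 < w.im → (l : ℂ) ^ (2 * p - 1) * f (σ π' * z) (τ π' * w) +
    (l : ℂ)⁻¹ * ∑ j ∈ Finset.range l, f ((z + j) / σ π') ((w + j) / τ π') = c' * f z w) →
  Hk p p f

end Pool.Agent.HilH
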