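import Pool.Agent.Lib.MP_d79f69_nt.H4Defs

/-!
Decay of matrix coefficients for `SL(2, ℝ)`.
-/

open MeasureTheory Filter Topology

namespace Pool.Agent.HilH

lemma hm_Nm_cont : Continuous Nm := by
  refine Continuous.subtype_mk (continuous_matrix fun i j => ?_) _
  fin_cases i <;> fin_cases j <;> simp <;> fun_prop

lemma hm_Lm_cont : Continuous Lm := by
  refine Continuous.subtype_mk (continuous_matrix fun i j => ?_) _
  fin_cases i <;> fin_cases j <;> simp <;> fun_prop

lemma hm_Nm_zero : Nm 0 = 1 := by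
  ext i j
  fin_cases i <;> fin_cases j <;> simp [Nm]

lemma hm_Lm_zero : Lm 0 = 1 := by
  ext i j
  fin_cases i <;> fin_cases j <;> simp [Lm]

lemma hm_LA (x t : ℝ) : Lm x * Am t = Am t * Lm (x * Real.exp t) := by
  have h : Real.exp (t / 2) = Real.exp (-(t / 2)) * Real.exp t := by
    rw [← Real.exp_add]; congr 1; ring
  ext i j
  fin_cases i <;> fin_cases j <;> simp [Lm, Am, Matrix.mul_apply, Fin.sum_univ_two]
  rw [h]; ring

lemma hm_NA (x t : ℝ) : Nm x * Am t = Am t * Nm (x * Real.exp (-t)) := by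
  have h : Real.exp (-(t / 2)) = Real.exp (t / 2) * Real.exp (-t) := by
    rw [← Real.exp_add]; congr 1; ring
  ext i j
  fin_cases i <;> fin_cases j <;> simp [Nm, Am, Matrix.mul_apply, Fin.sum_univ_two]
  rw [h]; ring

lemma hm_LNL (t e : ℝ) (he : e ≠ 0) :
    Lm ((Real.exp (-(t / 2)) - 1) / e) * Nm e * Lm ((Real.exp (t / 2) - 1) / e) =
      Am t * Nm (e * Real.exp (-(t / 2))) := by
  have ha : Real.exp (t / 2) ≠ 0 := (Real.exp_pos _).ne'
  ext i j
  fin_cases i <;> fin_cases j <;>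
    simp [Nm, Am, Lm, Matrix.mul_apply, Fin.sum_univ_two, Real.exp_neg] <;> field_simp <;> ring

lemma hm_gen (g : G) (hc : g 1 0 ≠ 0) :
    g = Nm ((g 0 0 - 1) / g 1 0) * Lm (g 1 0) * Nm ((g 1 1 - 1) / g 1 0) := by
  have h := g.det_coe
  rw [Matrix.det_fin_two] at h
  ext i j
  fin_cases i <;> fin_cases j <;>
    simp [Nm, Lm, Matrix.mul_apply, Fin.sum_univ_two] <;> field_simp
  · ring
  · linear_combination -h
  · ring

lemma hm_LL : Lm (-1) * Lm 1 = 1 := by
  ext i j
  fin_cases i <;> fin_cases j <;> simp [Lm, Matrix.mul_apply, Fin.sum_univ_two]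

section

variable {H : Type} [NormedAddCommGroup H] [InnerProductSpace ℂ H] (π : G →* (H →L[ℂ] H))

lemma hm_mul (a b : G) (v : H) : π (a * b) v = π a (π b v) := by
  rw [map_mul]; rfl

variable {π}

lemma hm_inner (hπ : ∀ g v, ‖π g v‖ = ‖v‖) (g : G) (a b : H) :
    inner ℂ (π g a) (π g b) = inner ℂ a b :=
  (LinearMap.norm_map_iff_inner_map_map (π g)).mp (hπ g) a b

lemma hm_tend (hc : ∀ v, Tendsto (fun g => π g v) (𝓝 1) (𝓝 v)) {ι : Type} {l : Filter ι}
    {f : ι → G} (hf : Tendsto f l (𝓝 1)) (v : H) :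
    Tendsto (fun i => ‖π (f i) v - v‖) l (𝓝 0) :=
  tendsto_iff_norm_sub_tendsto_zero.mp ((hc v).comp hf)

lemma hm_left (hπ : ∀ g v, ‖π g v‖ = ‖v‖) {a : G} {v : H} (ha : π a v = v) (g : G) :
    ‖π (a * g) v - v‖ = ‖π g v - v‖ := by
  rw [← hπ a (π g v - v), map_sub, ha, hm_mul]

/-- A vector fixed by the lower unipotent group is fixed by the whole group. -/
lemma hm_mautner (hπ : ∀ g v, ‖π g v‖ = ‖v‖) (hc : ∀ v, Tendsto (fun g => π g v) (𝓝 1) (𝓝 v))
    {v : H} (hL : ∀ x, π (Lm x) v = v) (g : G) : π g v = v := by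
  have hN0 : Tendsto Nm (𝓝 0) (𝓝 1) := hm_Nm_zero ▸ hm_Nm_cont.tendsto 0
  have hA : ∀ t, π (Am t) v = v := by
    intro t
    have h1 : Tendsto (fun e : ℝ => ‖π (Nm e) v - v‖ + ‖π (Nm (e * Real.exp (-(t / 2)))) v - v‖)
        (𝓝[≠] 0) (𝓝 (0 + 0)) := by
      refine (hm_tend hc (hN0.mono_left nhdsWithin_le_nhds) v).add (hm_tend hc (hN0.comp ?_) v)
      have : Tendsto (fun e : ℝ => e * Real.exp (-(t / 2))) (𝓝 0) (𝓝 (0 * Real.exp (-(t / 2)))) :=
        tendsto_id.mul_const _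
      rw [zero_mul] at this
      exact this.mono_left nhdsWithin_le_nhds
    have h2 : ‖π (Am t) v - v‖ ≤ 0 + 0 := by
      refine ge_of_tendsto h1 (eventually_nhdsWithin_of_forall fun e he => ?_)
      have h3 : ‖π (Am t * Nm (e * Real.exp (-(t / 2)))) v - v‖ = ‖π (Nm e) v - v‖ := by
        rw [← hm_LNL t e he, mul_assoc, hm_left hπ (hL _), hm_mul, hL]
      rw [← h3, ← hπ (Am t) (π (Nm (e * Real.exp (-(t / 2)))) v - v), map_sub, hm_mul]
      calc ‖π (Am t) v - v‖ = ‖(π (Am t) (π (Nm (e * Real.exp (-(t / 2)))) v) - v) -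
            (π (Am t) (π (Nm (e * Real.exp (-(t / 2)))) v) - π (Am t) v)‖ := by
            congr 1; abel
        _ ≤ _ := norm_sub_le _ _
    rw [add_zero] at h2
    exact sub_eq_zero.mp (norm_le_zero_iff.mp h2)
  have hN : ∀ x, π (Nm x) v = v := by
    intro x
    have h1 : Tendsto (fun t : ℝ => ‖π (Nm (x * Real.exp (-t))) v - v‖) atTop (𝓝 0) := by
      refine hm_tend hc (hN0.comp ?_) v
      have := Real.tendsto_exp_neg_atTop_nhds_zero.const_mul x
      rwa [mul_zero] at this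
    have h2 : ∀ t : ℝ, ‖π (Nm (x * Real.exp (-t))) v - v‖ = ‖π (Nm x) v - v‖ := by
      intro t
      rw [← hm_left hπ (hA t), ← hm_NA, hm_mul, hA]
    simp only [h2] at h1
    exact sub_eq_zero.mp (norm_eq_zero.mp (tendsto_const_nhds_iff.mp h1))
  have hgen : ∀ g : G, g 1 0 ≠ 0 → π g v = v := by
    intro g hg
    rw [hm_gen g hg, hm_mul, hm_mul, hN, hL, hN]
  by_cases h : g 1 0 = 0
  · have h1 : (Lm 1 * g) 1 0 ≠ 0 := by
      have h2 := g.det_coe
      rw [Matrix.det_fin_two, h, mul_zero, sub_zero] at h2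
      have h3 : g 0 0 ≠ 0 := left_ne_zero_of_mul_eq_one h2
      simpa [Lm, Matrix.mul_apply, Fin.sum_univ_two, h] using h3
    have h4 : g = Lm (-1) * (Lm 1 * g) := by rw [← mul_assoc, hm_LL, one_mul]
    rw [h4, hm_mul, hgen _ h1, hL]
  · exact hgen g h

end

/-- Weak limits of bounded families along ultrafilters. -/
lemma hm_weak {H : Type} [NormedAddCommGroup H] [InnerProductSpace ℂ H] [CompleteSpace H]
    {ι : Type} (U : Ultrafilter ι) (f : ι → H) (C : ℝ) (hf : ∀ i, ‖f i‖ ≤ C) :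
    ∃ v : H, ∀ u : H, Tendsto (fun i => inner ℂ (f i) u) U (𝓝 (inner ℂ v u)) := by
  have h1 : ∀ u : H, ∃ z ∈ Metric.closedBall (0 : ℂ) (C * ‖u‖),
      Tendsto (fun i => inner ℂ (f i) u) U (𝓝 z) := by
    intro u
    refine (isCompact_closedBall (0 : ℂ) (C * ‖u‖)).ultrafilter_le_nhds
      (U.map fun i => inner ℂ (f i) u) ?_
    rw [le_principal_iff, Ultrafilter.coe_map, mem_map]
    refine univ_mem' fun i => ?_
    rw [Set.mem_preimage, mem_closedBall_zero_iff]
    exact (norm_inner_le_norm _ _).trans (mul_le_mul_of_nonneg_right (hf i) (norm_nonneg _))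
  choose z hz1 hz2 using h1
  let l : H →ₗ[ℂ] ℂ :=
    { toFun := z
      map_add' := fun a b => tendsto_nhds_unique (hz2 (a + b)) (by
        simpa only [inner_add_right] using (hz2 a).add (hz2 b))
      map_smul' := fun c a => tendsto_nhds_unique (hz2 (c • a)) (by
        simpa only [inner_smul_right, RingHom.id_apply, smul_eq_mul] using (hz2 a).const_mul c) }
  refine ⟨(InnerProductSpace.toDual ℂ H).symm
    (l.mkContinuous C fun u => mem_closedBall_zero_iff.mp (hz1 u)), fun u => ?_⟩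
  rw [InnerProductSpace.toDual_symm_apply]
  exact hz2 u

theorem sHM0 : SHM0 := by
  intro H _ _ _ π hπ hc Φ κ c hc1 hκ w
  rw [tendsto_iff_ultrafilter]
  intro U hU
  obtain ⟨v, hv⟩ := hm_weak U (fun t => π (Am t) Φ) ‖Φ‖ fun t => (hπ _ _).le
  have hL0 : Tendsto Lm (𝓝 0) (𝓝 1) := hm_Lm_zero ▸ hm_Lm_cont.tendsto 0
  have hL : ∀ x, π (Lm x) v = v := by
    intro x
    refine ext_inner_right ℂ fun u => ?_
    have e1 : ∀ a : H, inner ℂ (π (Lm x) a) u = inner ℂ a (π (Lm x)⁻¹ u) := by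
      intro a
      rw [← hm_inner hπ (Lm x) a, ← hm_mul, mul_inv_cancel, map_one]
      rfl
    have h1 : Tendsto (fun t => inner ℂ (π (Lm x) (π (Am t) Φ)) u) U
        (𝓝 (inner ℂ (π (Lm x) v) u)) := by
      simp only [e1]
      exact hv _
    have h2 : Tendsto (fun t => ‖π (Lm (x * Real.exp t)) Φ - Φ‖ * ‖u‖) U (𝓝 (0 * ‖u‖)) := by
      refine Tendsto.mul_const _ (hm_tend hc (hL0.comp ?_) Φ)
      have := Real.tendsto_exp_atBot.const_mul x
      rw [mul_zero] at this
      exact this.mono_left hU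
    rw [zero_mul] at h2
    have h3 : Tendsto (fun t => inner ℂ (π (Lm x) (π (Am t) Φ)) u - inner ℂ (π (Am t) Φ) u) U
        (𝓝 0) := by
      refine squeeze_zero_norm (fun t => ?_) h2
      rw [← inner_sub_left, ← hm_mul, hm_LA, hm_mul, ← map_sub, ← hπ (Am t)]
      exact norm_inner_le_norm _ _
    exact sub_eq_zero.mp (tendsto_nhds_unique (h1.sub (hv u)) h3)
  have hG := hm_mautner hπ hc hL
  have h1 : inner ℂ v Φ = 0 := by
    have h2 := hm_inner hπ κ v Φ
    rw [hG, hκ, inner_smul_right] at h2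
    have h3 : (c - 1) * inner ℂ v Φ = 0 := by linear_combination h2
    exact (mul_eq_zero.mp h3).resolve_left (sub_ne_zero.mpr hc1)
  have h2 : v = 0 := by
    have h3 : ∀ t, inner ℂ (π (Am t) Φ) v = 0 := by
      intro t
      rw [← hG (Am t), hm_inner hπ, inner_eq_zero_symm]
      exact h1
    have h4 := hv v
    simp only [h3] at h4
    exact inner_self_eq_zero.mp (tendsto_const_nhds_iff.mp h4).symm
  have h5 := (hv w).star
  rw [h2, inner_zero_left, star_zero] at h5
  simpa only [← starRingEnd_apply, inner_conj_symm] using h5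

end Pool.Agent.HilH
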