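import Pool.Agent.Lib.MP_d79f69_nt.H4Defs

/-!
The lift of the form to the group is bounded and right uniformly continuous.
-/

open MeasureTheory Filter Topology

namespace Pool.Agent.HilH

universe u

theorem ps_det (g : G) : g 0 0 * g 1 1 - g 0 1 * g 1 0 = 1 := by
  have h := g.det_coe
  rwa [Matrix.det_fin_two] at h

theorem ps_mul (g h : G) (i j : Fin 2) : (g * h) i j = g i 0 * h 0 j + g i 1 * h 1 j := by
  change (g.1 * h.1) i j = _
  rw [Matrix.mul_apply, Fin.sum_univ_two]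

theorem jj_ne (g : G) {z : ℂ} (hz : 0 < z.im) : jj g z ≠ 0 := by
  intro h
  have h1 := congrArg Complex.im h
  have h2 := congrArg Complex.re h
  simp only [jj, Complex.add_im, Complex.mul_im, Complex.ofReal_re, Complex.ofReal_im, zero_mul,
    add_zero, Complex.zero_im, mul_eq_zero, hz.ne', or_false] at h1
  simp only [jj, Complex.add_re, Complex.mul_re, Complex.ofReal_re, Complex.ofReal_im, zero_mul,
    sub_zero, Complex.zero_re, h1, zero_add] at h2
  have h3 := ps_det g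
  rw [h1, h2] at h3
  simp at h3

theorem mob_im (g : G) (z : ℂ) : (mob g z).im = z.im / ‖jj g z‖ ^ 2 := by
  rw [mob, Complex.div_im, Complex.sq_norm, ← sub_div]
  congr 1
  simp only [jj, Complex.add_im, Complex.mul_im, Complex.ofReal_re, Complex.ofReal_im, zero_mul,
    add_zero, Complex.add_re, Complex.mul_re, sub_zero]
  linear_combination z.im * ps_det g

theorem mob_pos (g : G) {z : ℂ} (hz : 0 < z.im) : 0 < (mob g z).im := by
  rw [mob_im]
  exact div_pos hz (pow_pos (norm_pos_iff.2 (jj_ne g hz)) 2)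

theorem jj_mul (g h : G) {z : ℂ} (hz : 0 < z.im) : jj (g * h) z = jj g (mob h z) * jj h z := by
  have h1 := jj_ne h hz
  rw [jj, jj, mob, ps_mul, ps_mul]
  field_simp
  simp only [jj]
  push_cast
  ring

theorem mob_mul (g h : G) {z : ℂ} (hz : 0 < z.im) : mob (g * h) z = mob g (mob h z) := by
  have h1 := jj_ne h hz
  have h2 := jj_ne g (mob_pos h hz)
  have h3 : mob h z * jj h z = h 0 0 * z + h 0 1 := div_mul_cancel₀ _ h1
  have h4 : mob g (mob h z) * jj g (mob h z) = g 0 0 * mob h z + g 0 1 := div_mul_cancel₀ _ h2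
  have h5 : jj h z = h 1 0 * z + h 1 1 := rfl
  rw [mob, jj_mul g h hz, div_eq_iff (mul_ne_zero h2 h1), ps_mul, ps_mul]
  push_cast
  linear_combination (-jj h z) * h4 - g 0 0 * h3 - g 0 1 * h5

theorem hat00 (g : G) : hat g 0 0 = g 1 1 := rfl
theorem hat01 (g : G) : hat g 0 1 = g 1 0 := rfl
theorem hat10 (g : G) : hat g 1 0 = g 0 1 := rfl
theorem hat11 (g : G) : hat g 1 1 = g 0 0 := rfl

theorem hat_mul (g h : G) : hat (g * h) = hat g * hat h := by
  ext i j
  rw [ps_mul]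
  fin_cases i <;> fin_cases j <;>
    simp only [Fin.zero_eta, Fin.mk_one, hat00, hat01, hat10, hat11, ps_mul] <;> ring

theorem ps_cont (i j : Fin 2) : Continuous fun g : G => ((g i j : ℝ) : ℂ) :=
  Complex.continuous_ofReal.comp ((continuous_apply j).comp
    (Matrix.SpecialLinearGroup.continuous_apply id continuous_id i))

theorem ps_I : 0 < Complex.I.im := by simp

variable {J : Type u}

/-- the slash action in both variables -/
noncomputable def HD.sl (D : HD J) (g h : G) (z w : ℂ) : ℂ :=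
  D.f (mob g z) (mob h w) / (jj g z ^ (2 * D.p) * jj h w ^ (2 * D.q))

theorem sl_bound (D : HD J) (g h : G) {z w : ℂ} (hz : 0 < z.im) (hw : 0 < w.im) :
    ‖D.sl g h z w‖ * z.im ^ D.p * w.im ^ D.q ≤ D.C := by
  refine le_of_eq_of_le ?_ (D.hB _ _ (mob_pos g hz) (mob_pos h hw))
  have h1 := norm_pos_iff.2 (jj_ne g hz)
  have h2 := norm_pos_iff.2 (jj_ne h hw)
  rw [HD.sl, norm_div, norm_mul, norm_pow, norm_pow, mob_im, mob_im, div_pow, div_pow, ← pow_mul,
    ← pow_mul]
  field_simp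

theorem sl_mul (D : HD J) (g h g' h' : G) {z w : ℂ} (hz : 0 < z.im) (hw : 0 < w.im) :
    D.sl (g * g') (h * h') z w =
      D.sl g h (mob g' z) (mob h' w) / (jj g' z ^ (2 * D.p) * jj h' w ^ (2 * D.q)) := by
  rw [HD.sl, HD.sl, mob_mul g g' hz, mob_mul h h' hw, jj_mul g g' hz, jj_mul h h' hw, div_div,
    mul_pow, mul_pow]
  congr 1
  ring

theorem psi_eq (D : HD J) (g : G) : D.Psi g = D.sl g (hat g) Complex.I Complex.I := rfl

theorem psi_mul (D : HD J) (g w : G) : D.Psi (g * w) =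
    D.sl g (hat g) (mob w Complex.I) (mob (hat w) Complex.I) /
      (jj w Complex.I ^ (2 * D.p) * jj (hat w) Complex.I ^ (2 * D.q)) := by
  rw [psi_eq, hat_mul, sl_mul D _ _ _ _ ps_I ps_I]

theorem ps_ball {z : ℂ} (hz : z ∈ Metric.ball Complex.I (1 / 2)) : 1 / 2 ≤ z.im := by
  rw [Metric.mem_ball, dist_eq_norm] at hz
  have h := (abs_le.1 ((Complex.abs_im_le_norm (z - Complex.I)).trans hz.le)).1
  simp only [Complex.sub_im, Complex.I_im] at h
  linarith

theorem ps_lip {F : ℂ → ℂ} {M : ℝ} (hF : DifferentiableOn ℂ F {z | 0 < z.im})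
    (hM : ∀ z : ℂ, 1 / 2 ≤ z.im → ‖F z‖ ≤ M) {z : ℂ} (hz : z ∈ Metric.ball Complex.I (1 / 2)) :
    ‖F z - F Complex.I‖ ≤ 4 * M * ‖z - Complex.I‖ := by
  have h := Complex.dist_le_div_mul_dist_of_mapsTo_ball (f := F) (c := Complex.I) (R₁ := 1 / 2)
    (R₂ := 2 * M) (hF.mono fun w hw => lt_of_lt_of_le (by norm_num) (ps_ball hw))
    (fun w hw => by
      rw [Metric.mem_closedBall, dist_eq_norm]
      have h1 := hM w (ps_ball hw)
      have h2 := hM Complex.I (by simp; norm_num)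
      linarith [norm_sub_le (F w) (F Complex.I)]) hz
  rw [dist_eq_norm, dist_eq_norm] at h
  refine h.trans (le_of_eq ?_)
  ring

theorem ps_mob_diff (g : G) : DifferentiableOn ℂ (mob g) {z | 0 < z.im} := by
  unfold mob
  refine DifferentiableOn.div (by fun_prop) (by unfold jj; fun_prop) fun z hz => jj_ne g hz

theorem sl_half (D : HD J) (g h : G) {z w : ℂ} (hz : 1 / 2 ≤ z.im) (hw : 1 / 2 ≤ w.im) :
    ‖D.sl g h z w‖ ≤ 2 ^ D.p * 2 ^ D.q * D.C := by
  have h1 := sl_bound D g h (z := z) (w := w) (by linarith) (by linarith)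
  have h2 : (1 : ℝ) ≤ (2 * z.im) ^ D.p := one_le_pow₀ (by linarith)
  have h3 : (1 : ℝ) ≤ (2 * w.im) ^ D.q := one_le_pow₀ (by linarith)
  calc ‖D.sl g h z w‖ = ‖D.sl g h z w‖ * 1 * 1 := by ring
    _ ≤ ‖D.sl g h z w‖ * (2 * z.im) ^ D.p * (2 * w.im) ^ D.q := by gcongr
    _ = 2 ^ D.p * 2 ^ D.q * (‖D.sl g h z w‖ * z.im ^ D.p * w.im ^ D.q) := by
      rw [mul_pow, mul_pow]; ring
    _ ≤ _ := by gcongr

theorem phi_ruc (h0 : SF0.{u}) (D : HD J) (α β : G) :
    (∀ g, ‖D.sl (α * g) (β * hat g) Complex.I Complex.I‖ ≤ D.C) ∧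
      RUC fun g => D.sl (α * g) (β * hat g) Complex.I Complex.I := by
  obtain ⟨-, hd1, hd2, -⟩ := h0 J D
  have hb : ∀ g, ‖D.sl (α * g) (β * hat g) Complex.I Complex.I‖ ≤ D.C := fun g => by
    simpa using sl_bound D (α * g) (β * hat g) ps_I ps_I
  refine ⟨hb, fun ε hε => ?_⟩
  have hC : 0 ≤ D.C := (norm_nonneg _).trans (hb 1)
  set M : ℝ := 2 ^ D.p * 2 ^ D.q * D.C with hM
  have hM0 : 0 ≤ M := by positivity
  have d1 : ∀ (g h : G) (w : ℂ), 0 < w.im →
      DifferentiableOn ℂ (fun z => D.sl g h z w) {z | 0 < z.im} := fun g h w hw => by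
    unfold HD.sl
    refine DifferentiableOn.div ((hd1 _ (mob_pos h hw)).comp (ps_mob_diff g)
      fun z hz => mob_pos g hz) (by unfold jj; fun_prop) fun z hz => ?_
    exact mul_ne_zero (pow_ne_zero _ (jj_ne g hz)) (pow_ne_zero _ (jj_ne h hw))
  have d2 : ∀ (g h : G) (z : ℂ), 0 < z.im →
      DifferentiableOn ℂ (fun w => D.sl g h z w) {w | 0 < w.im} := fun g h z hz => by
    unfold HD.sl
    refine DifferentiableOn.div ((hd2 _ (mob_pos g hz)).comp (ps_mob_diff h)
      fun w hw => mob_pos h hw) (by unfold jj; fun_prop) fun w hw => ?_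
    exact mul_ne_zero (pow_ne_zero _ (jj_ne g hz)) (pow_ne_zero _ (jj_ne h hw))
  have cj1 : Continuous fun w : G => jj w Complex.I :=
    ((ps_cont 1 0).mul continuous_const).add (ps_cont 1 1)
  have cj2 : Continuous fun w : G => jj (hat w) Complex.I :=
    ((ps_cont 0 1).mul continuous_const).add (ps_cont 0 0)
  have cm1 : Continuous fun w : G => mob w Complex.I :=
    (((ps_cont 0 0).mul continuous_const).add (ps_cont 0 1)).div cj1 fun w => jj_ne w ps_I
  have cm2 : Continuous fun w : G => mob (hat w) Complex.I :=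
    (((ps_cont 1 1).mul continuous_const).add (ps_cont 1 0)).div cj2 fun w => jj_ne (hat w) ps_I
  have e1 : jj 1 Complex.I = 1 := by simp [jj]
  have e2 : jj (hat 1) Complex.I = 1 := by simp [jj, hat10, hat11]
  have e3 : mob 1 Complex.I = Complex.I := by simp [mob, e1]
  have e4 : mob (hat 1) Complex.I = Complex.I := by simp [mob, e2, hat00, hat01]
  let ω : G → ℂ := fun w => (jj w Complex.I ^ (2 * D.p) * jj (hat w) Complex.I ^ (2 * D.q))⁻¹
  have cα : Continuous ω := ((cj1.pow _).mul (cj2.pow _)).inv₀ fun w =>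
    mul_ne_zero (pow_ne_zero _ (jj_ne w ps_I)) (pow_ne_zero _ (jj_ne (hat w) ps_I))
  have cE : Continuous fun w : G => ‖ω w - 1‖ * M + (4 * M * ‖mob w Complex.I - Complex.I‖ +
      4 * M * ‖mob (hat w) Complex.I - Complex.I‖) := by fun_prop
  have v1 : ∀ᶠ w in 𝓝 (1 : G), ‖ω w - 1‖ * M + (4 * M * ‖mob w Complex.I - Complex.I‖ +
      4 * M * ‖mob (hat w) Complex.I - Complex.I‖) < ε :=
    cE.continuousAt.eventually_lt continuousAt_const (by simpa [ω, e1, e2, e3, e4] using hε)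
  have v2 : ∀ᶠ w in 𝓝 (1 : G), mob w Complex.I ∈ Metric.ball Complex.I (1 / 2) :=
    cm1.continuousAt.eventually_mem (Metric.isOpen_ball.mem_nhds (by simp [e3]))
  have v3 : ∀ᶠ w in 𝓝 (1 : G), mob (hat w) Complex.I ∈ Metric.ball Complex.I (1 / 2) :=
    cm2.continuousAt.eventually_mem (Metric.isOpen_ball.mem_nhds (by simp [e4]))
  filter_upwards [v1, v2, v3] with w w1 w2 w3 g
  refine le_trans ?_ w1.le
  have hI : (1 : ℝ) / 2 ≤ Complex.I.im := by simp; norm_num
  have l1 := ps_lip (d1 (α * g) (β * hat g) _ (mob_pos (hat w) ps_I))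
    (fun z hz => sl_half D (α * g) (β * hat g) hz (ps_ball w3)) w2
  have l2 := ps_lip (d2 (α * g) (β * hat g) _ ps_I)
    (fun z hz => sl_half D (α * g) (β * hat g) hI hz) w3
  have l3 := sl_half D (α * g) (β * hat g) (ps_ball w2) (ps_ball w3)
  rw [hat_mul, ← mul_assoc, ← mul_assoc, sl_mul D _ _ _ _ ps_I ps_I, div_eq_mul_inv]
  change ‖_ * ω w - _‖ ≤ _
  generalize D.sl (α * g) (β * hat g) (mob w Complex.I) (mob (hat w) Complex.I) = A at l1 l3 ⊢
  generalize D.sl (α * g) (β * hat g) Complex.I (mob (hat w) Complex.I) = B at l1 l2 ⊢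
  generalize D.sl (α * g) (β * hat g) Complex.I Complex.I = E at l2 ⊢
  rw [show A * ω w - E = (ω w - 1) * A + ((A - B) + (B - E)) by ring]
  refine (norm_add_le _ _).trans (add_le_add ?_ ((norm_add_le _ _).trans (add_le_add l1 l2)))
  rw [norm_mul]
  exact mul_le_mul_of_nonneg_left l3 (norm_nonneg _)

theorem sPsiA (h0 : SF0.{u}) : SPsiA.{u} := fun _ D => by
  have h := phi_ruc h0 D 1 1
  simp only [one_mul] at h
  exact h

end Pool.Agent.HilH
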