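import Pool.Agent.Lib.MP_d79f69_nt.H4Defs
import Pool.Agent.Lib.MP_d79f69_nt.CM
import Pool.Agent.Lib.MP_d79f69_nt.Th2

/-!
Unfolding of the averaged Hilbert form along a closed geodesic.
-/

open MeasureTheory Complex Set

namespace Pool.Agent.HilH

universe u

/-- the one variable integrand -/
noncomputable def Unf_P (w : ℂ) (c θ v : ℝ) : ℂ :=
  cexp (w * v - cexp (((v + c : ℝ) : ℂ) + θ * I))

theorem Unf_P_shift (w : ℂ) (c θ v : ℝ) :
    Unf_P w c θ v = cexp (-(w * c)) * Unf_P w 0 θ (v + c) := by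
  rw [Unf_P, Unf_P, ← exp_add, add_zero]
  congr 1
  push_cast
  ring

theorem Unf_P_int {w : ℂ} (hw : 0 < w.re) (c : ℝ) {θ : ℝ} (hθ : |θ| < Real.pi / 2) :
    ∫ v, Unf_P w c θ v = Gamma w * cexp (-(w * (c + θ * I))) := by
  simp only [Unf_P_shift w c θ]
  rw [integral_const_mul, integral_add_right_eq_self (Unf_P w 0 θ) c, CubH.cmGam w hw θ hθ,
    ← integral_const_mul, ← integral_mul_const]
  congr 1
  funext v
  rw [Unf_P, ← exp_add, ← exp_add, add_zero]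
  congr 1
  ring

theorem Unf_P_integrable {w : ℂ} (hw : 0 < w.re) (c : ℝ) {θ : ℝ} (hθ : |θ| < Real.pi / 2) :
    Integrable (Unf_P w c θ) := by
  refine Integrable.of_integral_ne_zero ?_
  rw [Unf_P_int hw c hθ]
  exact mul_ne_zero (Gamma_ne_zero_of_re_pos hw) (exp_ne_zero _)

theorem Unf_P_norm (w : ℂ) (c θ : ℝ) :
    ∫ v, ‖Unf_P w c θ v‖ = Real.exp (-(w.re * c)) * ∫ v, ‖Unf_P w 0 θ v‖ := by
  simp only [Unf_P_shift w c θ, norm_mul]
  rw [integral_const_mul, integral_add_right_eq_self (fun v => ‖Unf_P w 0 θ v‖) c, norm_exp]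
  simp

theorem Unf_haar : (volume : Measure (ℝ × ℝ)).IsAddHaarMeasure :=
  Measure.prod.instIsAddHaarMeasure _ _

theorem Unf_shear {E : Type} [NormedAddCommGroup E] [NormedSpace ℝ E] {f : ℝ × ℝ → E}
    (hf : Integrable f) : Integrable (fun p : ℝ × ℝ => f (p.1 + p.2, p.1 - p.2)) ∧
      ∫ p : ℝ × ℝ, f (p.1 + p.2, p.1 - p.2) = (1 / 2 : ℝ) • ∫ p, f p := by
  have := Unf_haar
  set L : ℝ × ℝ →ₗ[ℝ] ℝ × ℝ :=
    Matrix.toLin (Module.Basis.finTwoProd ℝ) (Module.Basis.finTwoProd ℝ) !![1, 1; 1, -1] with hL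
  have h1 : ∀ p : ℝ × ℝ, L p = (p.1 + p.2, p.1 - p.2) := fun p => by
    rw [hL, Matrix.toLin_finTwoProd_apply]
    ext <;> simp [sub_eq_add_neg]
  have h2 : LinearMap.det L = -2 := by
    rw [hL, LinearMap.det_toLin, Matrix.det_fin_two_of]
    norm_num
  have h3 := Measure.map_linearMap_addHaar_eq_smul_addHaar (volume : Measure (ℝ × ℝ)) (f := L)
    (by rw [h2]; norm_num)
  have h4 : |(-2 : ℝ)⁻¹| = 1 / 2 := by norm_num [abs_of_neg]
  rw [h2, h4] at h3
  have h5 : Measurable L := L.continuous_of_finiteDimensional.measurable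
  have h6 : Integrable f (Measure.map L volume) := by
    rw [h3]
    exact hf.smul_measure ENNReal.ofReal_ne_top
  simp only [← h1]
  refine ⟨h6.comp_measurable h5, ?_⟩
  rw [← integral_map h5.aemeasurable h6.1, h3, integral_smul_measure,
    ENNReal.toReal_ofReal (by norm_num)]

/-- the fundamental strip -/
noncomputable def Unf_mu (l : ℝ) : Measure (ℝ × ℝ) :=
  (volume : Measure ℝ).prod (volume.restrict (Ioc 0 l))

theorem Unf_unfold {E : Type} [NormedAddCommGroup E] [NormedSpace ℝ E] {f : ℝ × ℝ → E}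
    (hf : Integrable f) {l : ℝ} (hl : 0 < l) :
    (∀ n : ℤ, Integrable (fun p => f (p + (0, l * n))) (Unf_mu l)) ∧
      HasSum (fun n : ℤ => ∫ p, f (p + (0, l * n)) ∂Unf_mu l) (∫ p, f p) := by
  have h1 : Unf_mu l = volume.restrict (univ ×ˢ Ioc 0 l) := by
    rw [Unf_mu, Measure.volume_eq_prod ℝ ℝ, ← Measure.prod_restrict, Measure.restrict_univ]
  have := Unf_haar
  refine ⟨fun k => h1 ▸ (hf.comp_add_right _).integrableOn, ?_⟩
  let φ : ℝ × ℝ → ℤ := fun p => ⌈p.2 / l - 1⌉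
  have hφ : Measurable φ := by
    simp only [φ]
    fun_prop
  have h2 := hasSum_integral_iUnion (μ := volume) (f := f) (s := fun k => φ ⁻¹' {k})
    (fun k => hφ (measurableSet_singleton k)) (pairwise_disjoint_fiber φ) hf.integrableOn
  rw [← preimage_iUnion, iUnion_of_singleton, preimage_univ, Measure.restrict_univ] at h2
  have h3 : ∀ k : ℤ, ∫ p in φ ⁻¹' {k}, f p = ∫ p, f (p + (0, l * k)) ∂Unf_mu l := fun k => by
    rw [h1, ← (measurePreserving_add_right volume ((0, l * k) : ℝ × ℝ)).setIntegral_preimage_emb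
      (measurableEmbedding_addRight _)]
    congr 2
    ext p
    simp only [φ, mem_preimage, mem_singleton_iff, Int.ceil_eq_iff, Prod.snd_add, mem_prod,
      mem_univ, true_and, mem_Ioc, sub_lt_sub_iff_right, sub_le_iff_le_add, lt_div_iff₀ hl,
      div_le_iff₀ hl]
    constructor <;> rintro ⟨h4, h5⟩ <;> refine ⟨?_, ?_⟩ <;> linarith
  simp only [h3] at h2
  exact h2

/-- the two variable integrand -/
noncomputable def Unf_H (w₁ w₂ : ℂ) (c₁ c₂ θ : ℝ) (p : ℝ × ℝ) : ℂ :=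
  Unf_P w₁ c₁ θ (p.1 + p.2) * Unf_P w₂ c₂ θ (p.1 - p.2)

theorem Unf_H_int {w₁ w₂ : ℂ} (h1 : 0 < w₁.re) (h2 : 0 < w₂.re) (c₁ c₂ : ℝ) {θ : ℝ}
    (hθ : |θ| < Real.pi / 2) : Integrable (Unf_H w₁ w₂ c₁ c₂ θ) ∧
      ∫ p, Unf_H w₁ w₂ c₁ c₂ θ p = 1 / 2 * (Gamma w₁ * cexp (-(w₁ * (c₁ + θ * I))) *
        (Gamma w₂ * cexp (-(w₂ * (c₂ + θ * I))))) ∧
      ∫ p, ‖Unf_H w₁ w₂ c₁ c₂ θ p‖ =
        1 / 2 * ((∫ v, ‖Unf_P w₁ 0 θ v‖) * ∫ v, ‖Unf_P w₂ 0 θ v‖) *
          Real.exp (-(w₁.re * c₁) - w₂.re * c₂) := by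
  have h3 : Integrable (fun p : ℝ × ℝ => Unf_P w₁ c₁ θ p.1 * Unf_P w₂ c₂ θ p.2) :=
    (Unf_P_integrable h1 c₁ hθ).mul_prod (Unf_P_integrable h2 c₂ hθ)
  obtain ⟨h4, h5⟩ := Unf_shear h3
  refine ⟨h4, h5.trans ?_, (Unf_shear h3.norm).2.trans ?_⟩
  · rw [Measure.volume_eq_prod ℝ ℝ, integral_prod_mul, Unf_P_int h1 c₁ hθ, Unf_P_int h2 c₂ hθ,
      real_smul]
    push_cast
    ring
  · simp only [norm_mul]
    rw [Measure.volume_eq_prod ℝ ℝ,
      integral_prod_mul (fun v => ‖Unf_P w₁ c₁ θ v‖) (fun v => ‖Unf_P w₂ c₂ θ v‖),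
      Unf_P_norm w₁ c₁, Unf_P_norm w₂ c₂, smul_eq_mul, sub_eq_add_neg, Real.exp_add]
    ring

theorem Unf_ee {x : ℝ} (hx : 0 < x) (φ v : ℝ) :
    2 * Real.pi * I * (x * (cexp v * cexp (I * φ))) =
      -cexp (((v + Real.log (2 * Real.pi * x) : ℝ) : ℂ) + ((φ - Real.pi / 2 : ℝ) : ℂ) * I) := by
  have h1 : cexp (Real.log (2 * Real.pi * x)) = 2 * Real.pi * x := by
    rw [← ofReal_exp, Real.exp_log (by have := Real.pi_pos; positivity)]
    push_cast
    ring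
  have h2 : cexp (((φ - Real.pi / 2 : ℝ) : ℂ) * I) = -I * cexp (I * φ) := by
    rw [← exp_neg_pi_div_two_mul_I, ← exp_add]
    congr 1
    push_cast
    ring
  rw [exp_add, ofReal_add, exp_add, h1, h2]
  ring

variable {J : Type u}

theorem Unf_term (D : HD J) {φ : ℝ} (h0 : 0 < φ) (h1 : φ < Real.pi) (s : ℂ) (p : ℝ × ℝ) :
    HasSum (fun i : J × ℤ => (D.a i.1 : ℂ) * Unf_H (s + D.p - 1 / 2) (s + D.q - 1 / 2)
      (Real.log (2 * Real.pi * D.x i.1)) (Real.log (2 * Real.pi * D.y i.1)) (φ - Real.pi / 2)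
      (p + (0, D.l * i.2))) (cexp ((2 * s - 1) * p.1) * D.g φ (Real.exp p.1) p.2) := by
  have hs : 0 < Real.sin φ := Real.sin_pos_of_pos_of_lt_pi h0 h1
  have him : ∀ r : ℝ, 0 < r → 0 < ((r : ℂ) * cexp (I * φ)).im := fun r hr => by
    rw [im_ofReal_mul, mul_comm I, exp_ofReal_mul_I_im]
    positivity
  have h2 := ((D.hsum _ _ (him (Real.exp p.1 * Real.exp p.2) (by positivity))
    (him (Real.exp p.1 * Real.exp (-p.2)) (by positivity))).mul_right
    ((((Real.exp p.1 * Real.exp p.2) ^ D.p * (Real.exp p.1 * Real.exp (-p.2)) ^ D.q : ℝ)) :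
      ℂ)).mul_left (cexp ((2 * s - 1) * p.1))
  rw [HD.g]
  refine (congrArg (fun F => HasSum F _) (funext fun i => ?_)).mpr h2
  have e1 := Unf_ee (D.hx i.1) φ (p.1 + (p.2 + D.l * i.2))
  have e2 := Unf_ee (D.hy i.1) φ (p.1 - (p.2 + D.l * i.2))
  simp only [Unf_H, Unf_P, Prod.fst_add, Prod.snd_add, add_zero, sub_eq_add_neg (_ * _ : ℂ)]
  rw [← e1, ← e2, ee, ← Real.exp_add, ← Real.exp_add, ← Real.exp_nat_mul, ← Real.exp_nat_mul,
    ← Real.exp_add]
  have e3 : cexp ((p.1 + (p.2 + D.l * i.2) : ℝ) : ℂ) =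
      (Real.exp (D.l * i.2) : ℝ) * (Real.exp (p.1 + p.2) : ℝ) := by
    rw [ofReal_exp, ofReal_exp, ← exp_add]
    congr 1
    push_cast
    ring
  have e4 : cexp ((p.1 - (p.2 + D.l * i.2) : ℝ) : ℂ) =
      (Real.exp (-(D.l * i.2)) : ℝ) * (Real.exp (p.1 + -p.2) : ℝ) := by
    rw [ofReal_exp, ofReal_exp, ← exp_add]
    congr 1
    push_cast
    ring
  rw [e3, e4, ofReal_mul (D.a _), ofReal_mul (D.x _), ofReal_mul (D.y _), ofReal_exp (_ * _ * _),
    ofReal_exp (_ * _ + _ * _), mul_assoc (D.a i.1 : ℂ), mul_assoc (D.a i.1 : ℂ),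
    mul_left_comm (cexp _) (D.a i.1 : ℂ), ← exp_add, ← exp_add, ← exp_add, ← exp_add]
  congr 2
  generalize ((Real.exp (D.l * i.2) : ℝ) : ℂ) = A
  generalize ((Real.exp (-(D.l * i.2)) : ℝ) : ℂ) = B
  generalize ((Real.exp (p.1 + p.2) : ℝ) : ℂ) = A'
  generalize ((Real.exp (p.1 + -p.2) : ℝ) : ℂ) = B'
  push_cast
  ring

theorem Unf_countable (D : HD J) : Countable J := by
  have h := D.hN.countable_support
  have h2 : (Function.support fun j => (D.x j * D.y j) ^ (-(3 / 2 : ℝ))) = univ :=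
    eq_univ_of_forall fun j => (Real.rpow_pos_of_pos (mul_pos (D.hx j) (D.hy j)) _).ne'
  rw [h2] at h
  exact countable_univ_iff.1 h

theorem sUnf (h : SF0.{u}) : SUnf.{u} := by
  intro J D φ s h0 h1 hs
  have := Unf_countable D
  have hθ : |φ - Real.pi / 2| < Real.pi / 2 := abs_lt.2 ⟨by linarith, by linarith⟩
  have hre : ∀ k : ℕ, (s + k - 1 / 2).re = s.re + k - 1 / 2 := fun k => by
    simp
  have hw : ∀ k : ℕ, 0 < (s + k - 1 / 2).re := fun k => by
    rw [hre]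
    have := Nat.cast_nonneg (α := ℝ) k
    linarith
  have h2π : 0 < 2 * Real.pi := by have := Real.pi_pos; positivity
  set H : J → ℝ × ℝ → ℂ := fun j => Unf_H (s + D.p - 1 / 2) (s + D.q - 1 / 2)
    (Real.log (2 * Real.pi * D.x j)) (Real.log (2 * Real.pi * D.y j)) (φ - Real.pi / 2) with hH
  have hI := fun j => Unf_H_int (hw D.p) (hw D.q) (Real.log (2 * Real.pi * D.x j))
    (Real.log (2 * Real.pi * D.y j)) hθ
  set F : J × ℤ → ℝ × ℝ → ℂ := fun i p => (D.a i.1 : ℂ) * H i.1 (p + (0, D.l * i.2)) with hF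
  have hFi : ∀ i, Integrable (F i) (Unf_mu D.l) := fun i =>
    ((Unf_unfold (hI i.1).1 D.hl).1 i.2).const_mul _
  have hFs : Summable fun i => ∫ p, ‖F i p‖ ∂Unf_mu D.l := by
    have hn : ∀ j, HasSum (fun n : ℤ => ∫ p, ‖F (j, n) p‖ ∂Unf_mu D.l)
        (|D.a j| * ∫ p, ‖H j p‖) := fun j => by
      simp only [hF, norm_mul, integral_const_mul, norm_real, Real.norm_eq_abs]
      exact (Unf_unfold (hI j).1.norm D.hl).2.mul_left _
    refine (summable_prod_of_nonneg fun y => integral_nonneg fun p => norm_nonneg _).2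
      ⟨fun j => (hn j).summable, ?_⟩
    simp only [fun j => (hn j).tsum_eq]
    refine (((h J D).2.2.2.2.2 s.re hs.le).mul_left (1 / 2 *
      ((∫ v, ‖Unf_P (s + D.p - 1 / 2) 0 (φ - Real.pi / 2) v‖) *
        ∫ v, ‖Unf_P (s + D.q - 1 / 2) 0 (φ - Real.pi / 2) v‖) *
      Real.exp (-((2 * s.re + D.p + D.q - 1) * Real.log (2 * Real.pi))))).congr fun j => ?_
    have hx := D.hx j
    have hy := D.hy j
    rw [hH]
    simp only []
    rw [(hI j).2.2, HD.b, abs_mul, abs_mul, abs_of_pos (Real.rpow_pos_of_pos hx _),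
      abs_of_pos (Real.rpow_pos_of_pos hy _), Real.rpow_def_of_pos hx, Real.rpow_def_of_pos hy,
      Real.rpow_def_of_pos (mul_pos hx hy), hre, hre, Real.log_mul h2π.ne' hx.ne',
      Real.log_mul h2π.ne' hy.ne', Real.log_mul hx.ne' hy.ne', mul_left_comm |D.a j|,
      mul_assoc _ (Real.exp _), mul_assoc |D.a j|, mul_assoc |D.a j|,
      mul_left_comm (Real.exp _) |D.a j|, ← Real.exp_add, ← Real.exp_add, ← Real.exp_add]
    congr 3
    ring
  have hT : Integrable (fun p => ∑' i, F i p) (Unf_mu D.l) := CubH.Th2_integrable_tsum hFi hFs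
  have h3 : mellin (D.GG φ) (2 * s - 1) = ∑' i, ∫ p, F i p ∂Unf_mu D.l := by
    rw [integral_tsum_of_summable_integral_norm hFi hFs, Unf_mu, integral_prod _ hT, CubH.cmMel]
    congr 1
    funext ρ
    rw [HD.GG, intervalIntegral.integral_of_le D.hl.le, ← integral_const_mul]
    congr 1
    funext x
    exact (Unf_term D h0 h1 s (ρ, x)).tsum_eq.symm
  have h4 : Summable fun i => ∫ p, F i p ∂Unf_mu D.l :=
    hFs.of_norm_bounded fun i => norm_integral_le_integral_norm _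
  rw [h3, h4.tsum_prod, HD.DS, ← tsum_mul_left]
  refine tsum_congr fun j => ?_
  have hx := D.hx j
  have hy := D.hy j
  simp only [hF, integral_const_mul]
  rw [tsum_mul_left, (Unf_unfold (hI j).1 D.hl).2.tsum_eq, (hI j).2.1, gam, HD.b,
    CubH.Th2_cp h2π, CubH.Th2_cp (mul_pos hx hy), Real.rpow_def_of_pos hx,
    Real.rpow_def_of_pos hy, Real.log_mul h2π.ne' hx.ne', Real.log_mul h2π.ne' hy.ne',
    Real.log_mul hx.ne' hy.ne', ofReal_mul, ofReal_mul, ofReal_exp, ofReal_exp]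
  have e : cexp (-((s + D.p - 1 / 2) * (((Real.log (2 * Real.pi) + Real.log (D.x j) : ℝ) : ℂ) +
        ((φ - Real.pi / 2 : ℝ) : ℂ) * I))) *
      cexp (-((s + D.q - 1 / 2) * (((Real.log (2 * Real.pi) + Real.log (D.y j) : ℝ) : ℂ) +
        ((φ - Real.pi / 2 : ℝ) : ℂ) * I))) =
      cexp (-(I * (φ - Real.pi / 2) * (2 * s + D.p + D.q - 1))) *
        cexp (Real.log (2 * Real.pi) * -(2 * s + D.p + D.q - 1)) *
        cexp ((Real.log (D.x j) * (1 / 2 - D.p) : ℝ) : ℂ) *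
        cexp ((Real.log (D.y j) * (1 / 2 - D.q) : ℝ) : ℂ) *
        cexp (((Real.log (D.x j) + Real.log (D.y j) : ℝ) : ℂ) * -s) := by
    simp only [← exp_add]
    congr 1
    push_cast
    ring
  linear_combination (D.a j : ℂ) * (1 / 2) * Gamma (s + D.p - 1 / 2) *
    Gamma (s + D.q - 1 / 2) * e

end Pool.Agent.HilH
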