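import Pool.Agent.Lib.MP_d79f69_nt.Defs

/-!
Interface statements. Every module proves one of these propositions, possibly from others.
-/

open Matrix MeasureTheory NumberField
open scoped nonZeroDivisors

namespace Pool.Agent.CubH

universe u

/-! ### Taylor expansions -/

/-- basic facts on `phc` -/
def SBa : Prop :=
  (∀ p a v w : V3, (∀ i, 0 < p i) → phc (cv p) = ph p ∧ G0c (cv p) (cv a) = G0 p a ∧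
    G1c (cv p) (cv a) (cv v) = G1 p a v ∧ G2c (cv p) (cv a) (cv v) (cv w) = G2 p a v w) ∧
  (∀ (r : ℂ) (p : C3), 0 < r.re → (∀ i, 0 < (p i).re) → phc (r • p) = r ^ 2 * phc p) ∧
  (∀ (p v : C3) (t : ℂ), (∀ i, 0 < (p i + t * v i).re) →
    HasDerivAt (fun z : ℂ => phc (p + z • v)) (G0c (p + t • v) v) t)

/-- complex Taylor estimates -/
def STc : Prop := ∀ Q : ℝ, 1 ≤ Q → ∃ C : ℝ, 0 < C ∧ ∀ p : C3, Dc Q p → ∀ a v w : C3,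
  (‖phc p‖ ≤ C ∧ ‖G0c p a‖ ≤ C * ‖a‖ ∧ ‖G1c p a w‖ ≤ C * ‖a‖ * ‖w‖ ∧
    ‖G2c p a w v‖ ≤ C * ‖a‖ * ‖w‖ * ‖v‖) ∧
  (‖v‖ ≤ 1 / (4 * Q) →
    ‖phc (p + v) - phc p‖ ≤ C * ‖v‖ ∧
    ‖phc (p + v) - phc (p - v) - 2 * G0c p v - G2c p v v v / 3‖ ≤ C * ‖v‖ ^ 5 ∧
    ‖G0c (p + v) a - G0c p a - G1c p a v‖ ≤ C * ‖a‖ * ‖v‖ ^ 2 ∧
    ‖G0c (p + v) a - G0c p a - G1c p a v - G2c p a v v / 2‖ ≤ C * ‖a‖ * ‖v‖ ^ 3 ∧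
    ‖G1c (p + v) a w - G1c p a w - G2c p a w v‖ ≤ C * ‖a‖ * ‖w‖ * ‖v‖ ^ 2 ∧
    ‖G2c (p + v) a a a - G2c p a a a‖ ≤ C * ‖a‖ ^ 3 * ‖v‖)

/-- real Taylor estimates -/
def STr : Prop := ∀ Q : ℝ, 1 ≤ Q → ∃ C : ℝ, 0 < C ∧ ∀ p : V3, Dr Q p → ∀ a v w : V3,
  (|G0 p a| ≤ C * ‖a‖ ∧ |G1 p a w| ≤ C * ‖a‖ * ‖w‖ ∧ |G2 p a w v| ≤ C * ‖a‖ * ‖w‖ * ‖v‖) ∧
  (‖v‖ ≤ 1 / (4 * Q) →
    |G0 (p + v) a - G0 p a - G1 p a v - G2 p a v v / 2| ≤ C * ‖a‖ * ‖v‖ ^ 3 ∧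
    |G1 (p + v) a w - G1 p a w - G2 p a w v| ≤ C * ‖a‖ * ‖w‖ * ‖v‖ ^ 2)

/-- geometry of the phase for `B` close to the identity -/
def SGe : Prop := ∀ Q c : ℝ, 1 ≤ Q → c ≠ 0 → ∃ C : ℝ, 1 ≤ C ∧ ∀ B : M3, NearI Q B →
  (∀ s : ℝ × ℝ, ‖hv B s‖ ≤ 2 * ‖s‖) ∧
  (∀ θ θ' : ℝ × ℝ, Dr Q (pp B θ) → ‖θ' - θ‖ ≤ 1 / C → Dr (2 * Q) (pp B θ')) ∧
  ∀ h θ : ℝ × ℝ, Dr (2 * Q) (pp B θ) →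
    ‖θ‖ ≤ C ∧
    |KK (pp B θ) (hv B h)| ≤ C * |kap B c h θ| ∧
    (Good Q h → ‖h‖ ^ 3 ≤ C * |kap B c h θ|) ∧
    (∀ θ' : ℝ × ℝ, Dr (2 * Q) (pp B θ') →
      |KK (pp B θ) (hv B h) - KK (pp B θ') (hv B h)| ≤ C * ‖h‖ ^ 3 * ‖θ - θ'‖) ∧
    (∀ t : ℝ, 0 ≤ t → Dr (2 * Q) (pp B (θ + t • h)) →
      t * ‖h‖ ^ 4 ≤ C * (KK (pp B θ) (hv B h) - KK (pp B (θ + t • h)) (hv B h))) ∧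
    ‖h‖ ^ 2 ≤ C * |AA B c h θ (1, 0) (1, 0) * AA B c h θ (0, 1) (0, 1) -
      AA B c h θ (1, 0) (0, 1) ^ 2|

/-- linearisation of the differenced phase in a complex box -/
def SEx : Prop := ∀ Q c K : ℝ, 1 ≤ Q → 1 ≤ K → ∃ C : ℝ, 1 ≤ C ∧ ∀ B : M3, NearI Q B →
  ∀ (X H ρ L M r : ℝ) (h θ : ℝ × ℝ), ‖h‖ = H → 1 ≤ H → C ≤ ρ → 0 < L → 0 < M →
    H * ρ ^ 2 * L ^ 2 ≤ X → H ^ 3 * ρ ^ 2 * M ^ 2 ≤ X ^ 3 → H ^ 5 ≤ X ^ 3 →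
    H ^ 3 * ρ * L ≤ X ^ 2 → ρ ^ 2 * L ≤ X → ρ * H ≤ X →
    Dr Q (pp B θ) → X / Q ≤ r → r ≤ Q * X →
    ∀ Y : C3, X / (2 * Q) ≤ (Y 2).re → ‖Y 2‖ ≤ 2 * Q * X → ‖Y 2 - r‖ ≤ K * ρ * M →
      ‖Y 0 - Y 2 * θ.1‖ ≤ K * ρ * L → ‖Y 1 - Y 2 * θ.2‖ ≤ K * ρ * L →
      (∀ i, 0 < ((B.map (↑) *ᵥ Y + (1 / 2 : ℂ) • cv (hv B h)) i).re ∧
        0 < ((B.map (↑) *ᵥ Y - (1 / 2 : ℂ) • cv (hv B h)) i).re) ∧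
      ‖c * (phc (B.map (↑) *ᵥ Y + (1 / 2 : ℂ) • cv (hv B h)) -
          phc (B.map (↑) *ᵥ Y - (1 / 2 : ℂ) • cv (hv B h))) -
        (Y 2 * ((GG B c h θ - kap B c h θ / (24 * r ^ 2) : ℝ) : ℂ) +
          gA B c h θ * (Y 0 - Y 2 * θ.1) + gB B c h θ * (Y 1 - Y 2 * θ.2)) -
        ((kap B c h θ / (12 * r) : ℝ) : ℂ)‖ ≤ C

/-! ### finite differences -/

def SB1 : Prop := ∀ (N : ℕ) (A A' ρ : ℝ) (s t : ℕ → ℂ), 0 < ρ → Dd N A ρ s → Dd N A' ρ t →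
  Dd N (2 ^ N * A * A') ρ (fun j => s j * t j)

def SB2 : Prop := ∀ N : ℕ, ∃ C : ℝ, 1 ≤ C ∧ ∀ (A ρ : ℝ) (E : ℂ → ℂ), C ≤ ρ →
  DifferentiableOn ℂ E (Metric.ball 0 ρ) → (∀ t ∈ Metric.ball (0 : ℂ) ρ, ‖E t‖ ≤ A) →
  Dd N (C * A) ρ (fun j => E j)

def SB3 : Prop :=
  (∀ (W : V3 → ℂ) (x v : V3) (k j : ℕ),
    (fwdDiff 1)^[k] (fun n : ℕ => W (x + (n : ℝ) • v)) j = (fwdDiff v)^[k] W (x + (j : ℝ) • v)) ∧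
  (∀ (W : Z3 → ℂ) (x v : Z3) (k : ℕ),
    (fwdDiff 1)^[k] (fun n : ℕ => W (x + (n : ℤ) • v)) 0 = (fwdDiff v)^[k] W x)

def SB4 : Prop := ∀ W : V3 → ℂ, ContDiff ℝ (⊤ : ℕ∞) W → HasCompactSupport W → ∀ N : ℕ,
  ∃ A : ℝ, 0 < A ∧ ∀ k ≤ N, ∀ x v : V3, ‖(fwdDiff v)^[k] W x‖ ≤ A * ‖v‖ ^ k

def SB5 : Prop := ∀ (F : Z3 → ℂ), (Function.support F).Finite → ∀ (b : Z3) (ξ : V3) (d : ℝ) (N : ℕ),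
  ‖ee (∑ i, ξ i * b i) - 1‖ ^ N * ‖∑' n : Z3, F n * ee (∑ i, ξ i * n i + d)‖ ≤
    ∑' n : Z3, ‖(fwdDiff b)^[N] F n‖

def SB6 : Prop := ∀ (T x : ℝ) (s : Finset ℤ), 0 < T →
  ∑ n ∈ s, Real.exp (-Real.pi * ((n + x) / T) ^ 2) ≤ 4 * (1 + T)

/-- transference -/
def SC : Prop := ∀ (ξ : V3) (θ : ℝ × ℝ) (L0 M0 : ℝ), 1 ≤ L0 → 1 ≤ M0 →
  (∃ b : Z3, |(b 2 : ℝ)| ≤ M0 ∧ |b 0 - θ.1 * b 2| ≤ L0 ∧ |b 1 - θ.2 * b 2| ≤ L0 ∧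
    1 / 2 ≤ ‖ee (∑ i, ξ i * b i) - 1‖) ∨
  ∃ m : Z3, |ξ 0 - m 0| ≤ 1 / L0 ∧ |ξ 1 - m 1| ≤ 1 / L0 ∧
    |(ξ 0 - m 0) * θ.1 + (ξ 1 - m 1) * θ.2 + (ξ 2 - m 2)| ≤ 1 / M0

/-! ### counting -/

/-- lattice points near a nondegenerate quadric patch -/
def SQ : Prop := ∀ C0 : ℝ, 1 ≤ C0 → ∃ C1 : ℝ, 0 < C1 ∧
  ∀ (s a11 a12 a22 b1 b2 d x1 x2 : ℝ), 1 ≤ s →
    |a11| ≤ C0 / s ^ 2 → |a12| ≤ C0 / s ^ 2 → |a22| ≤ C0 / s ^ 2 →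
    (∀ u1 u2 : ℝ, max |u1| |u2| ≤
      C0 * s ^ 2 * max |a11 * u1 + a12 * u2| |a12 * u1 + a22 * u2|) →
    ∀ P : Finset (ℤ × ℤ), (∀ p ∈ P, |p.1 - x1| ≤ C0 * s ∧ |p.2 - x2| ≤ C0 * s ∧
      ∃ n : ℤ, |(a11 * p.1 ^ 2 + 2 * a12 * p.1 * p.2 + a22 * p.2 ^ 2) / 2 + b1 * p.1 + b2 * p.2 +
        d - n| ≤ C0 / s) →
    (P.card : ℝ) ≤ C1 * s * (1 + Real.log s) ^ 2

/-- sum along a monotone sequence -/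
def SS : Prop := ∀ (I : Finset ℤ) (J : ℕ) (K w : ℤ → ℝ) (d T X Y : ℝ), 0 < d → 1 ≤ T → 0 ≤ X →
  0 ≤ Y → (∀ i ∈ I, |i| ≤ J) → (∀ i ∈ I, ∀ i' ∈ I, i < i' → d * (i' - i) ≤ K i - K i') →
  (∀ i ∈ I, w i ≤ X) → (∀ i ∈ I, T * d ≤ |K i| → w i ≤ Y / |K i|) →
  ∑ i ∈ I, w i ≤ (2 * T + 1) * X + 2 * (Y / d) * (1 + Real.log (2 * J + 1))

/-- cap covering -/
def SR1 : Prop := ∀ Q c C0 : ℝ, 1 ≤ Q → c ≠ 0 → 1 ≤ C0 → ∃ C : ℝ, 1 ≤ C ∧ ∀ B : M3, NearI Q B →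
  ∀ (H L0 : ℝ) (h θ0 : ℝ × ℝ), ‖h‖ = H → 1 ≤ H → 1 ≤ L0 → Dr (2 * Q) (pp B θ0) →
    ∃ P : Finset (ℝ × ℝ), (P.card : ℝ) ≤ C * √H * (1 + Real.log H) ^ 2 ∧
      ∀ θ : ℝ × ℝ, Dr (2 * Q) (pp B θ) → ‖θ - θ0‖ ≤ 1 / (C * √H) → Th B c h L0 (C0 / √H) θ →
        ∃ z ∈ P, ‖θ - z‖ ≤ C / (H * L0)

/-- radial measure -/
def SR2 : Prop := ∀ Q c : ℝ, 1 ≤ Q → ∃ C : ℝ, 1 ≤ C ∧ ∀ B : M3, NearI Q B →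
  ∀ (X H L0 M0 : ℝ) (h θ : ℝ × ℝ), ‖h‖ = H → 1 ≤ H → 1 ≤ X → C * H ^ 3 ≤ X ^ 2 →
    H ^ 3 * √H ≤ X ^ 2 → √H ≤ M0 → C ≤ M0 → C ≤ L0 → Dr Q (pp B θ) →
    (∀ r : ℝ, X / Q ≤ r → Res B c h L0 M0 θ r → Th B c h L0 (C / √H) θ) ∧
    (kap B c h θ ≠ 0 → volume {r : ℝ | X / Q ≤ r ∧ r ≤ Q * X ∧ Res B c h L0 M0 θ r} ≤
      ENNReal.ofReal (C * X ^ 3 / (M0 * |kap B c h θ|)))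

open Classical in
/-- measure of the resonant set -/
def SR : Prop := ∀ Q c : ℝ, 1 ≤ Q → c ≠ 0 → ∃ C : ℝ, 1 ≤ C ∧ ∀ B : M3, NearI Q B →
  ∀ (X H L0 M0 : ℝ) (h : ℝ × ℝ), ‖h‖ = H → 1 ≤ H → 1 ≤ X → C * H ^ 3 ≤ X ^ 2 →
    H ^ 3 * √H ≤ X ^ 2 → √H ≤ M0 → C ≤ M0 → C ≤ L0 →
    ∫⁻ κ, (ResSet Q B c h X L0 M0).indicator (fun _ => (1 : ENNReal)) κ ≤
      ENNReal.ofReal (C * (1 + Real.log H) ^ 3 * √H / (H ^ 2 * L0 ^ 2) *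
        ((if Good Q h then 0 else √H * X) + X ^ 3 / (M0 * H ^ 2)))

/-! ### the exponential sum -/

/-- bound for one differenced sum -/
def SH : Prop := ∀ (N : ℕ) (R c : ℝ), 1 ≤ R → ∃ C : ℝ, 1 ≤ C ∧ ∀ B : M3, NearI (4 * R ^ 2) B →
  ∀ (X H ρ L M A V : ℝ) (W : V3 → ℂ) (a : V3) (h : ℤ × ℤ), ‖((h.1 : ℝ), (h.2 : ℝ))‖ = H →
    1 ≤ H → C ≤ ρ → ρ ^ 2 ≤ L → ρ ^ 2 ≤ M →
    H * ρ ^ 2 * L ^ 2 ≤ X → H ^ 3 * ρ ^ 2 * M ^ 2 ≤ X ^ 3 → H ^ 5 ≤ X ^ 3 →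
    H ^ 3 * ρ * L ≤ X ^ 2 → ρ ^ 2 * L ≤ X → ρ * H ≤ X → ρ * M ≤ X →
    Wt N R X A W → 0 ≤ V →
    ∫⁻ κ, (ResSet (4 * R ^ 2) B c ((h.1 : ℝ), (h.2 : ℝ)) X (L / ρ) (M / ρ)).indicator
      (fun _ => (1 : ENNReal)) κ ≤ ENNReal.ofReal V →
    ‖∑' n : Z3, FF B c W a (n + ![h.1, h.2, 0]) * (starRingEnd ℂ) (FF B c W a n)‖ ≤
      C * A ^ 2 * (X ^ 6 / ρ ^ N + X ^ 2 * V)

/-- Weyl differencing in a rectangle -/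
def SA : Prop := ∀ (F : Z3 → ℂ) (x : V3) (T : ℝ) (H0 H1 : ℕ), 1 ≤ H0 → 1 ≤ H1 → (H0 : ℝ) ≤ T →
  (H1 : ℝ) ≤ T → (∀ n, F n ≠ 0 → ∀ i, |n i - x i| ≤ T) →
  ‖∑' n, F n‖ ^ 2 ≤ 125 * T ^ 3 / (H0 * H1) *
    ∑ h ∈ Finset.Icc (-(H0 : ℤ)) H0 ×ˢ Finset.Icc (-(H1 : ℤ)) H1,
      ‖∑' n : Z3, F (n + ![h.1, h.2, 0]) * (starRingEnd ℂ) (F n)‖

/-- core exponential sum bound -/
def SE0 : Prop := ∃ η : ℝ, 0 < η ∧ ∃ N : ℕ, ∀ R c : ℝ, 1 ≤ R → c ≠ 0 → ∃ C : ℝ, 0 < C ∧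
  ∀ B : M3, NearI (4 * R ^ 2) B → ∀ (X A : ℝ) (W : V3 → ℂ) (a : V3), 1 ≤ X → Wt N R X A W →
    ‖∑' n, FF B c W a n‖ ≤ C * A * X ^ (5 / 2 - η)

/-- Theorem E -/
def SE : Prop := ∃ η : ℝ, 0 < η ∧ ∃ N : ℕ, ∀ (R c : ℝ) (B : M3), 1 ≤ R → c ≠ 0 → B.det ≠ 0 →
  ∃ C : ℝ, 0 < C ∧ ∀ (X A : ℝ) (W : V3 → ℂ), 1 ≤ X → Wt N R X A W →
    ‖∑' n, FF B c W 0 n‖ ≤ C * A * X ^ (5 / 2 - η)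

/-! ### the analytic side -/

/-- Stirling on vertical lines -/
def SSt : Prop := ∀ a b : ℝ, ∃ C : ℝ, 1 ≤ C ∧ ∀ σ u : ℝ, a ≤ σ → σ ≤ b → C ≤ u →
  ∃ R : ℂ, ‖R‖ ≤ C / u ∧ Complex.Gamma (σ + u * Complex.I) =
    ((√(2 * Real.pi) * u ^ (σ - 1 / 2) * Real.exp (-Real.pi * u / 2) : ℝ) : ℂ) *
      Complex.exp (Complex.I * ((u * Real.log u - u + (σ - 1 / 2) * Real.pi / 2 : ℝ) : ℂ)) *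
      Complex.exp R

/-- Poisson summation for Gaussians -/
def SP1 : Prop := ∀ C : M3, C.det ≠ 0 →
  Summable (fun n : Z3 => Real.exp (-Real.pi * ∑ j, (C *ᵥ zr n) j ^ 2)) ∧
  ∑' n : Z3, Real.exp (-Real.pi * ∑ j, (C *ᵥ zr n) j ^ 2) =
    |C.det|⁻¹ * ∑' n : Z3, Real.exp (-Real.pi * ∑ j, (C⁻¹ᵀ *ᵥ zr n) j ^ 2)

/-- analytic properties of the averaged theta function -/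
def SF1 : Prop := ∀ (A : Type u) [Fintype A] (B : A → M3) (c : A → ℂ) (ν : V3) (l : Fin 2 → V3),
  (∀ a, |(B a).det| = 1) → (∀ k, l k 0 + l k 1 + l k 2 = 0) →
  ContinuousOn (ff B c ν l) (Set.Ioi 0) ∧
  (∀ r : ℝ, ff B c ν l =O[Filter.atTop] (fun x : ℝ => x ^ r)) ∧
  ((∀ k, ∃ m : ℤ, ∑ j, ν j * l k j = 2 * Real.pi * m) →
    (∑ a, c a = 0 ∨ ∃ k, ∑ j, ν j * l k j ≠ 0) →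
    ∀ x : ℝ, 0 < x → ff B c ν l (1 / x) =
      ((x ^ ((1 : ℝ) / 2) : ℝ) : ℂ) * ff (fun a => (B a)⁻¹ᵀ) c (-ν) l x)

/-- unfolding -/
def SF2 : Prop := ∀ l : Fin 2 → V3, (∀ k, l k 0 + l k 1 + l k 2 = 0) →
  l 0 0 * l 1 1 - l 0 1 * l 1 0 ≠ 0 → ∃ κ0 : ℝ, 0 < κ0 ∧
  ∀ (J A : Type u) [Fintype A] (Nn : J → ℝ) (χ : J → ℂ) (ν : V3) (v : ℝ) (B : A → M3) (c : A → ℂ),
    0 < v → ν 0 + ν 1 + ν 2 = 0 → (∀ k, ∃ m : ℤ, ∑ j, ν j * l k j = 2 * Real.pi * m) →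
    (∀ σ : ℝ, 1 < σ → Summable (fun I => Nn I ^ (-σ))) → Sys Nn χ ν l v B c →
    ∀ s : ℂ, 1 < s.re →
      mellin (ff B c ν l) (s / 2) = κ0 * (v : ℂ) ^ s * gam ν s * DS Nn χ s

/-- Hecke's functional equation -/
def SFE : Prop := ∀ (J A : Type u) [Fintype A] (D : HData J A), ∃ Λ : ℂ → ℂ,
  Differentiable ℂ Λ ∧ (∀ a b : ℝ, ∃ C : ℝ, ∀ s : ℂ, a ≤ s.re → s.re ≤ b → ‖Λ s‖ ≤ C) ∧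
  (∀ s : ℂ, 1 < s.re → Λ s = (D.v : ℂ) ^ s * gam D.ν s * DS D.Nn D.χ s) ∧
  ∀ s : ℂ, Λ s = D.W * (starRingEnd ℂ) (Λ (1 - (starRingEnd ℂ) s))

/-- Phragmen-Lindelof -/
def SPL : Prop := ∀ (ν : V3) (v : ℝ) (Λ : ℂ → ℂ), 0 < v → Differentiable ℂ Λ →
  (∀ a b : ℝ, ∃ C : ℝ, ∀ s : ℂ, a ≤ s.re → s.re ≤ b → ‖Λ s‖ ≤ C) →
  (∀ s : ℂ, ‖Λ s‖ = ‖Λ (1 - (starRingEnd ℂ) s)‖) →
  (∃ C : ℝ, ∀ s : ℂ, 2 ≤ s.re → ‖Λ s * (v : ℂ) ^ (-s) * igam ν s‖ ≤ C) →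
  Poly (fun s => Λ s * (v : ℂ) ^ (-s) * igam ν s)

/-- Cahen-Mellin with contour shift -/
def SCM : Prop := ∀ (J : Type u) (Nn : J → ℝ) (χ : J → ℂ) (L : ℂ → ℂ), (∀ I, 1 ≤ Nn I) →
  (∀ I, ‖χ I‖ ≤ 1) → (∀ σ : ℝ, 1 < σ → Summable (fun I => Nn I ^ (-σ))) →
  Differentiable ℂ L → Poly L → (∀ s : ℂ, 1 < s.re → L s = DS Nn χ s) →
  ∀ k0 ε : ℝ, 0 < k0 → 0 < ε → ε ≤ 1 →
    Integrable (fun t : ℝ => L (1 / 2 + t * Complex.I) *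
      Complex.Gamma (1 / 2 + 3 * t / 2 * Complex.I) *
      Complex.exp (-((1 / 2 + 3 * t / 2 * Complex.I) *
        (Real.log k0 + Complex.I * (Real.pi / 2 - ε))))) ∧
    ∫ t : ℝ, L (1 / 2 + t * Complex.I) * Complex.Gamma (1 / 2 + 3 * t / 2 * Complex.I) *
      Complex.exp (-((1 / 2 + 3 * t / 2 * Complex.I) *
        (Real.log k0 + Complex.I * (Real.pi / 2 - ε)))) = 4 * Real.pi / 3 * TS Nn χ k0 ε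

/-- first moment lower bound -/
def SLB : Prop := ∀ L : ℂ → ℂ, Differentiable ℂ L → Poly L →
  (∃ σ0 : ℝ, 2 ≤ σ0 ∧ ∀ s : ℂ, s.re = σ0 → ‖L s - 1‖ ≤ 1 / 10) →
  ∀ T : ℝ, ∃ c C : ℝ, 0 < c ∧ ∀ ε : ℝ, 0 < ε → ε ≤ 2 →
    c / ε - C ≤ ∫ t in Set.Ioi T, ‖L (1 / 2 + t * Complex.I)‖ * Real.exp (-ε * t)

/-- the phase of the comparison factor -/
def SPh : Prop := ∀ (ν : V3) (v : ℝ), 0 < v → ν 0 + ν 1 + ν 2 = 0 → ∃ T0 : ℝ, ∀ t : ℝ, T0 ≤ t →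
  ∀ z : ℂ, z = Complex.Gamma (1 / 2 + 3 * t / 2 * Complex.I) *
      Complex.exp (-(3 * t / 2 * Complex.I * Real.log (3 * Real.pi * v ^ (-(2 : ℝ) / 3)))) *
      (v : ℂ) ^ (-(1 / 2 + t * Complex.I)) * igam ν (1 / 2 + t * Complex.I) →
    ‖z‖ / 2 ≤ (z * Complex.exp (-(3 * Real.pi / 8 * Complex.I))).re

/-- the twisted sum is `o(1/ε)` -/
def SP4 : Prop := ∀ (J A : Type u) [Fintype A] (D : HData J A) (k0 δ : ℝ), 0 < k0 → 0 < δ →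
  ∃ ε0 : ℝ, 0 < ε0 ∧ ∀ ε : ℝ, 0 < ε → ε < ε0 → ‖TS D.Nn D.χ k0 ε‖ ≤ δ / ε

/-- abstract Hardy theorem -/
def SHa : Prop := ∀ (J A : Type u) [Fintype A] (D : HData J A), ∃ L : ℂ → ℂ,
  Differentiable ℂ L ∧ (∀ s : ℂ, 1 < s.re → L s = DS D.Nn D.χ s) ∧
  {t : ℝ | L (1 / 2 + t * Complex.I) = 0}.Infinite

/-- the number field input -/
def SNF : Prop := ∀ (K : Type u) [Field K] [NumberField K] [IsTotallyReal K],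
  Module.finrank ℚ K = 3 → ∀ (χ : (Ideal (𝓞 K))⁰ →* ℂ) (ν : InfinitePlace K → ℝ),
  ∑ w, ν w = 0 →
  (∀ (α : 𝓞 K) (hα : Ideal.span {α} ∈ (Ideal (𝓞 K))⁰),
    χ ⟨Ideal.span {α}, hα⟩ = ∏ w : InfinitePlace K, ((w α : ℝ) : ℂ) ^ (Complex.I * ν w)) →
  χ ≠ 1 → ∃ D : HData (Ideal (𝓞 K))⁰ (ClassGroup (𝓞 K)),
    D.Nn = (fun I => (Ideal.absNorm I.1 : ℝ)) ∧ D.χ = χ

end Pool.Agent.CubH
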