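import Pool.Agent.Lib.MP_d79f69_nt.NFC

/-!
Number field input: Hecke data of an unramified character of a totally real cubic field.
-/

open Matrix NumberField
open scoped nonZeroDivisors

namespace Pool.Agent.CubH

universe u

lemma nf_class_sum {K : Type u} [Field K] [NumberField K] (χ : (Ideal (𝓞 K))⁰ →* ℂ)
    (hχ : ∀ (α : 𝓞 K) (hα : Ideal.span {α} ∈ (Ideal (𝓞 K))⁰), χ ⟨Ideal.span {α}, hα⟩ = 1)
    (hne : χ ≠ 1) (b : ClassGroup (𝓞 K) → (Ideal (𝓞 K))⁰) (hb : ∀ a, ClassGroup.mk0 (b a) = a) :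
    ∑ a, (χ (b a))⁻¹ = 0 := by
  have hcl : ∀ I J : (Ideal (𝓞 K))⁰, ClassGroup.mk0 I = ClassGroup.mk0 J → χ I = χ J := by
    intro I J h
    obtain ⟨x, y, hx, hy, hxy⟩ := ClassGroup.mk0_eq_mk0_iff.1 h
    have hx' : Ideal.span {x} ∈ (Ideal (𝓞 K))⁰ :=
      mem_nonZeroDivisors_of_ne_zero (by simpa using hx)
    have hy' : Ideal.span {y} ∈ (Ideal (𝓞 K))⁰ :=
      mem_nonZeroDivisors_of_ne_zero (by simpa using hy)
    have e1 : (⟨Ideal.span {x}, hx'⟩ : (Ideal (𝓞 K))⁰) * I = ⟨Ideal.span {y}, hy'⟩ * J :=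
      Subtype.ext hxy
    have e2 := congrArg χ e1
    rwa [map_mul, map_mul, hχ, hχ, one_mul, one_mul] at e2
  obtain ⟨I0, hI0⟩ : ∃ I0, χ I0 ≠ 1 := by
    by_contra h
    push Not at h
    exact hne (MonoidHom.ext h)
  have h1 : ∑ a, (χ (b (ClassGroup.mk0 I0 * a)))⁻¹ = ∑ a, (χ (b a))⁻¹ :=
    (Group.mulLeft_bijective (ClassGroup.mk0 I0)).sum_comp (fun a => (χ (b a))⁻¹)
  have h2 : ∀ a, (χ (b (ClassGroup.mk0 I0 * a)))⁻¹ = (χ I0)⁻¹ * (χ (b a))⁻¹ := by
    intro a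
    rw [hcl _ (I0 * b a) (by rw [map_mul, hb, hb]), map_mul, mul_inv]
  simp only [h2, ← Finset.mul_sum] at h1
  exact eq_zero_of_mul_eq_self_left (by simpa using hI0) h1

theorem sNF : SNF.{u} := by
  classical
  intro K _ _ _ h3 χ ν hν hχ hne
  let e : Fin 3 ≃ InfinitePlace K := (Fintype.equivFinOfCardEq (nf_card h3)).symm
  obtain ⟨σ, hσ, htr⟩ := nf_sigma e
  obtain ⟨ε, U, hU, hld⟩ := nf_units h3 e
  obtain ⟨μ, hμd⟩ : ∃ μ : V3, ∀ j, μ j = ν (e j) := ⟨_, fun _ => rfl⟩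
  obtain ⟨l, hl⟩ : ∃ l : Fin 2 → V3, ∀ k j, l k j = Real.log (e j (ε k)) := ⟨_, fun _ _ => rfl⟩
  simp only [← hl] at hU hld
  have hls : ∀ k, l k 0 + l k 1 + l k 2 = 0 := fun k => by
    simp only [hl]; exact nf_logsum e (ε k)
  have hμ : μ 0 + μ 1 + μ 2 = 0 := by
    rw [← e.sum_comp, Fin.sum_univ_three] at hν
    simpa only [hμd] using hν
  have hχ1 : ∀ (α : 𝓞 K) (hα : Ideal.span {α} ∈ (Ideal (𝓞 K))⁰),
      χ ⟨Ideal.span {α}, hα⟩ = ∏ j, ((e j α : ℝ) : ℂ) ^ (Complex.I * μ j) := by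
    intro α hα
    rw [hχ, ← e.prod_comp]
    simp only [hμd]
  have hn1 := nf_norm_one e χ μ hχ1
  have hχne : ∀ I, χ I ≠ 0 := fun I h => by simpa [h] using hn1 I
  let χ' : (Ideal (𝓞 K))⁰ →* ℂ := ((starRingEnd ℂ : ℂ →+* ℂ) : ℂ →* ℂ).comp χ
  have hχ'd : ∀ I, χ' I = (starRingEnd ℂ) (χ I) := fun _ => rfl
  have hχ2 : ∀ (α : 𝓞 K) (hα : Ideal.span {α} ∈ (Ideal (𝓞 K))⁰),
      χ' ⟨Ideal.span {α}, hα⟩ = ∏ j, ((e j α : ℝ) : ℂ) ^ (Complex.I * ((-μ) j : ℝ)) := by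
    intro α hα
    rw [hχ'd, hχ1, map_prod]
    refine Finset.prod_congr rfl fun j _ => ?_
    have harg : ((e j α : ℝ) : ℂ).arg ≠ Real.pi := by
      rw [Complex.arg_ofReal_of_nonneg (apply_nonneg _ _)]
      exact Real.pi_pos.ne
    have := Complex.cpow_conj _ (Complex.I * μ j) harg
    rw [Complex.conj_ofReal] at this
    rw [← this]
    simp
  choose b hb using (ClassGroup.mk0_surjective (R := 𝓞 K))
  choose β hβ hli using fun a => nf_exists_span h3 (b a).1 (nonZeroDivisors.ne_zero (b a).2)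
  choose δ hδ1 hδ2 hδ3 using fun a => nf_dual h3 (β a) (hli a)
  obtain ⟨y, hy0, hy⟩ := exists_integral_multiples ℤ ℚ
    (Finset.univ.image (fun p : ClassGroup (𝓞 K) × Fin 3 => δ p.1 p.2))
  have hm : 0 < y * y := mul_self_pos.2 hy0
  have hmR : (0 : ℝ) < ((y * y : ℤ) : ℝ) := by exact_mod_cast hm
  obtain ⟨β', hβ'⟩ : ∃ β' : ClassGroup (𝓞 K) → Fin 3 → 𝓞 K,
      ∀ a i, (β' a i : K) = ((y * y : ℤ) : K) * δ a i := by
    have hint : ∀ a i, IsIntegral ℤ (((y * y : ℤ) : K) * δ a i) := by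
      intro a i
      have := (hy _ (Finset.mem_image.2 ⟨(a, i), Finset.mem_univ _, rfl⟩)).zsmul y
      rwa [smul_smul, zsmul_eq_mul] at this
    exact ⟨fun a i => ⟨_, hint a i⟩, fun a i => rfl⟩
  have hcol := fun a => nf_col (b a).1 (β a) (hβ a) (δ a) (hδ1 a) (hδ2 a) (hδ3 a) (y * y) hm.ne'
    (β' a) (hβ' a)
  obtain ⟨ω⟩ := nf_basis h3
  obtain ⟨v, hvd⟩ : ∃ v, v = |(nfM σ (fun i => (ω i : K))).det| := ⟨_, rfl⟩
  have hv : 0 < v := by
    obtain ⟨δ0, h0, -⟩ := nf_dual h3 ω ω.linearIndependent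
    have := congrArg Matrix.det (nf_dual_mat σ htr _ δ0 h0)
    rw [Matrix.det_mul, Matrix.det_one] at this
    rw [hvd, abs_pos]
    exact right_ne_zero_of_mul_eq_one this
  have hNpos : ∀ I : (Ideal (𝓞 K))⁰, 0 < Ideal.absNorm I.1 := fun I =>
    Nat.pos_of_ne_zero fun h => nonZeroDivisors.ne_zero I.2 (Ideal.absNorm_eq_zero_iff.1 h)
  have hNR : ∀ I : (Ideal (𝓞 K))⁰, (0 : ℝ) < Ideal.absNorm I.1 := fun I => by
    exact_mod_cast hNpos I
  obtain ⟨s, hs, hs3⟩ : ∃ s : ClassGroup (𝓞 K) → ℝ, (∀ a, 0 < s a) ∧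
      ∀ a, s a ^ 3 = (v * (Ideal.absNorm (b a).1 : ℝ))⁻¹ := by
    refine ⟨fun a => ((v * (Ideal.absNorm (b a).1 : ℝ))⁻¹) ^ ((3 : ℕ) : ℝ)⁻¹, fun a => ?_,
      fun a => ?_⟩
    · exact Real.rpow_pos_of_pos (inv_pos.2 (mul_pos hv (hNR _))) _
    · exact Real.rpow_inv_natCast_pow (inv_pos.2 (mul_pos hv (hNR _))).le (by norm_num)
  obtain ⟨B, hB⟩ : ∃ B : ClassGroup (𝓞 K) → M3,
      ∀ a, B a = s a • nfM σ (fun i => (β a i : K)) := ⟨_, fun _ => rfl⟩
  have hdet : ∀ a, |(B a).det| = 1 := by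
    intro a
    have := hNR (b a)
    rw [hB, Matrix.det_smul, Fintype.card_fin, abs_mul, nf_det σ ω _ _ (hβ a) (hli a), ← hvd,
      abs_of_pos (pow_pos (hs a) 3), hs3]
    field_simp
  have hsv : ∀ a, s a ^ 3 * (Ideal.absNorm (b a).1 : ℝ) = 1 / v := by
    intro a
    have := hNR (b a)
    rw [hs3]
    field_simp
  have hB' : ∀ a, (B a)⁻¹ᵀ = ((s a)⁻¹ / ((y * y : ℤ) : ℝ)) • nfM σ (fun i => (β' a i : K)) := by
    intro a
    have h1 : (B a)⁻¹ = (s a)⁻¹ • (nfM σ (δ a))ᵀ := by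
      apply Matrix.inv_eq_left_inv
      rw [hB, Matrix.smul_mul, Matrix.mul_smul, nf_dual_mat σ htr _ _ (hδ1 a), smul_smul,
        inv_mul_cancel₀ (hs a).ne', one_smul]
    rw [h1, Matrix.transpose_smul, Matrix.transpose_transpose]
    ext j i
    simp only [Matrix.smul_apply, nfM, Matrix.of_apply, hβ', map_mul, map_intCast, smul_eq_mul]
    field_simp
  have hdet' : ∀ a, |((B a)⁻¹ᵀ).det| = 1 := by
    intro a
    rw [Matrix.det_transpose, Matrix.det_nonsing_inv, Ring.inverse_eq_inv', abs_inv, hdet, inv_one]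
  have hs' : ∀ a, 0 < (s a)⁻¹ / ((y * y : ℤ) : ℝ) := fun a => div_pos (inv_pos.2 (hs a)) hmR
  have hli' : ∀ a, LinearIndependent ℤ (β' a) := by
    intro a
    apply nf_li σ
    intro h
    have := hdet' a
    rw [hB', Matrix.det_smul, h] at this
    simp at this
  obtain ⟨b', hb'⟩ : ∃ b' : ClassGroup (𝓞 K) → (Ideal (𝓞 K))⁰,
      ∀ a, (b' a).1 = nfCol (b a).1 (y * y) := by
    refine ⟨fun a => ⟨nfCol (b a).1 (y * y), mem_nonZeroDivisors_of_ne_zero fun h => ?_⟩,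
      fun _ => rfl⟩
    have h1 : β' a 0 ∈ nfCol (b a).1 (y * y) :=
      ((hcol a).1 _).2 ⟨Pi.single 0 1, by simp [Pi.single_apply]⟩
    rw [h] at h1
    exact (hli' a).ne_zero 0 (by simpa using h1)
  have hβ'S : ∀ a, NFSpan (b' a).1 (β' a) := fun a => by rw [hb']; exact (hcol a).1
  have hsv' : ∀ a, ((s a)⁻¹ / ((y * y : ℤ) : ℝ)) ^ 3 * (Ideal.absNorm (b' a).1 : ℝ) = 1 / v := by
    intro a
    have := hdet' a
    rw [hB', Matrix.det_smul, Fintype.card_fin, abs_mul, nf_det σ ω _ _ (hβ'S a) (hli' a), ← hvd,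
      abs_of_pos (pow_pos (hs' a) 3)] at this
    rw [eq_div_iff hv.ne', ← this]
    ring
  have hd : ∀ a, b a * b' a = b 1 * b' 1 := fun a => Subtype.ext (by
    rw [Submonoid.coe_mul, Submonoid.coe_mul, hb', hb', (hcol a).2, (hcol 1).2])
  have hbij : Function.Bijective (fun a => ClassGroup.mk0 (b a)) := by
    simp only [hb]; exact Function.bijective_id
  have hbij' : Function.Bijective (fun a => ClassGroup.mk0 (b' a)) := by
    have : (fun a => ClassGroup.mk0 (b' a)) =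
        (fun c => c * ClassGroup.mk0 (b 1 * b' 1)) ∘ (fun a => a⁻¹) := by
      funext a
      simp only [Function.comp_apply]
      rw [← hd a, map_mul, hb, inv_mul_cancel_left]
    rw [this]
    exact (Group.mulRight_bijective _).comp inv_involutive.bijective
  have sys1 := nf_sys e σ hσ l U hU χ μ hμ hχ1 b hbij (fun a => hχne _) β hβ hli s hs v hsv B hB
    hdet
  have sys2 := nf_sys e σ hσ l U hU χ' (-μ) (by simp only [Pi.neg_apply]; linarith) hχ2 b' hbij'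
    (fun a => by rw [hχ'd]; simpa using hχne _) β' hβ'S hli' _ hs' v hsv' _ hB' hdet'
  refine ⟨⟨fun I => (Ideal.absNorm I.1 : ℝ), χ, μ, l, v, B, fun a => (χ (b a))⁻¹,
    fun a => (χ' (b' a))⁻¹, (χ (b 1 * b' 1))⁻¹, 1, hv, by simp, map_one χ, ?_,
    fun I => (hn1 I).le, nf_summable, hμ, hls, hld, ?_, ?_, ?_, ?_, sys1, sys2⟩, rfl, rfl⟩
  · intro I hI
    have h1 : Ideal.absNorm I.1 ≠ 1 := fun h =>
      hI (Subtype.ext (by simpa using Ideal.absNorm_eq_one_iff.1 h))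
    have h2 := hNpos I
    have : 2 ≤ Ideal.absNorm I.1 := by omega
    exact_mod_cast this
  · intro k
    have h1 : Ideal.span {(ε k : 𝓞 K)} = 1 := by
      rw [Ideal.one_eq_top, Ideal.span_singleton_eq_top]; exact (ε k).isUnit
    have hm1 : Ideal.span {(ε k : 𝓞 K)} ∈ (Ideal (𝓞 K))⁰ := by rw [h1]; exact one_mem _
    have h2 := hχ1 _ hm1
    rw [show (⟨Ideal.span {(ε k : 𝓞 K)}, hm1⟩ : (Ideal (𝓞 K))⁰) = 1 from Subtype.ext h1,
      map_one] at h2
    have h4 : ∀ j, ((e j (ε k : 𝓞 K) : ℝ) : ℂ) ^ (Complex.I * μ j) =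
        Complex.exp (((μ j * l k j : ℝ) : ℂ) * Complex.I) := by
      intro j
      have hp : 0 < e j (ε k : 𝓞 K) := NumberField.Units.pos_at_place _ _
      rw [Complex.cpow_def_of_ne_zero (by exact_mod_cast hp.ne'), ← Complex.ofReal_log hp.le, hl]
      congr 1
      push_cast
      ring
    simp only [h4] at h2
    rw [← Complex.exp_sum, ← Finset.sum_mul, ← Complex.ofReal_sum, eq_comm,
      Complex.exp_eq_one_iff] at h2
    obtain ⟨m, hm⟩ := h2
    refine ⟨m, ?_⟩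
    have h5 := congrArg Complex.im hm
    simp only [Complex.mul_im, Complex.ofReal_re, Complex.I_im, Complex.ofReal_im, Complex.I_re,
      Complex.mul_re, Complex.intCast_re, Complex.intCast_im, Complex.re_ofNat,
      Complex.im_ofNat] at h5
    linarith
  · refine or_iff_not_imp_right.2 fun h => ?_
    push Not at h
    have a0 := h 0
    have a1 := h 1
    rw [Fin.sum_univ_three] at a0 a1
    have c0 : l 0 2 = -l 0 0 - l 0 1 := by linarith [hls 0]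
    have c1 : l 1 2 = -l 1 0 - l 1 1 := by linarith [hls 1]
    have c2 : μ 2 = -μ 0 - μ 1 := by linarith
    rw [c2] at a0 a1
    rw [c0] at a0
    rw [c1] at a1
    have d0 : (2 * μ 0 + μ 1) * (l 0 0 * l 1 1 - l 0 1 * l 1 0) = 0 := by
      linear_combination l 1 1 * a0 - l 0 1 * a1
    have d1 : (μ 0 + 2 * μ 1) * (l 0 0 * l 1 1 - l 0 1 * l 1 0) = 0 := by
      linear_combination l 0 0 * a1 - l 1 0 * a0
    have f0 := (mul_eq_zero.1 d0).resolve_right hld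
    have f1 := (mul_eq_zero.1 d1).resolve_right hld
    have hμ0 : ∀ j, μ j = 0 := by
      intro j
      fin_cases j
      · simp only [Fin.zero_eta]; linarith
      · simp only [Fin.mk_one]; linarith
      · simp only [Fin.reduceFinMk]; linarith
    refine nf_class_sum χ (fun α hα => ?_) hne b hb
    rw [hχ1]
    simp [hμ0]
  · rw [norm_inv, hn1, inv_one]
  · intro a
    have h1 := hχne (b' a)
    rw [← hd a, map_mul, hχ'd, ← Complex.inv_eq_conj (hn1 _), inv_inv, mul_inv, mul_assoc,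
      inv_mul_cancel₀ h1, mul_one]

end Pool.Agent.CubH
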