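import Pool.Agent.Lib.MP_d79f69_nt.Iface

/-!
Number field input, first part: real embeddings, units, summability.
-/

open Matrix NumberField Filter
open scoped nonZeroDivisors

namespace Pool.Agent.CubH

universe u

variable {K : Type u} [Field K] [NumberField K]

lemma nf_card [IsTotallyReal K] (h3 : Module.finrank ℚ K = 3) :
    Fintype.card (InfinitePlace K) = 3 := by
  rw [InfinitePlace.card_eq_nrRealPlaces_add_nrComplexPlaces,
    IsTotallyReal.nrComplexPlaces_eq_zero, ← IsTotallyReal.finrank, h3]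

lemma nf_sigma [IsTotallyReal K] (e : Fin 3 ≃ InfinitePlace K) :
    ∃ σ : Fin 3 → (K →+* ℝ), (∀ j x, |σ j x| = e j x) ∧
      ∀ x, ((Algebra.trace ℚ K x : ℚ) : ℝ) = ∑ j, σ j x := by
  refine ⟨fun j => InfinitePlace.embedding_of_isReal (IsTotallyReal.isReal (e j)), ?_, ?_⟩
  · intro j x
    rw [← Real.norm_eq_abs, InfinitePlace.norm_embedding_of_isReal]
  · intro x
    have h := trace_eq_sum_embeddings ℂ (K := ℚ) (L := K) (x := x)
    apply Complex.ofReal_injective
    have hb : Function.Bijective (fun j : Fin 3 =>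
        RingHom.equivRatAlgHom K ℂ (InfinitePlace.embedding (e j))) := by
      constructor
      · intro i j hij
        have h1 := (RingHom.equivRatAlgHom K ℂ).injective hij
        have h2 := congrArg InfinitePlace.mk h1
        rw [InfinitePlace.mk_embedding, InfinitePlace.mk_embedding] at h2
        exact e.injective h2
      · intro φ
        refine ⟨e.symm (InfinitePlace.mk ((RingHom.equivRatAlgHom K ℂ).symm φ)), ?_⟩
        simp only [Equiv.apply_symm_apply]
        rw [InfinitePlace.embedding_mk_eq_of_isReal (IsTotallyReal.complexEmbedding_isReal _)]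
        simp
    rw [← hb.sum_comp (fun φ : K →ₐ[ℚ] ℂ => φ x)] at h
    push_cast
    simp only [InfinitePlace.embedding_of_isReal_apply]
    simpa [RingHom.equivRatAlgHom_apply] using h

lemma nf_prod [IsTotallyReal K] (e : Fin 3 ≃ InfinitePlace K) (x : 𝓞 K) :
    e 0 x * e 1 x * e 2 x = (Ideal.absNorm (Ideal.span {x}) : ℝ) := by
  have h := InfinitePlace.prod_eq_abs_norm (x : K)
  simp only [IsTotallyReal.mult_eq, pow_one] at h
  rw [← e.prod_comp, Fin.prod_univ_three] at h
  rw [h, Ideal.absNorm_span_singleton, ← Algebra.coe_norm_int]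
  simp

lemma nf_logsum [IsTotallyReal K] (e : Fin 3 ≃ InfinitePlace K) (x : (𝓞 K)ˣ) :
    Real.log (e 0 x) + Real.log (e 1 x) + Real.log (e 2 x) = 0 := by
  have h := NumberField.Units.sum_mult_mul_log x
  simp only [IsTotallyReal.mult_eq, Nat.cast_one, one_mul] at h
  rwa [← e.sum_comp, Fin.sum_univ_three] at h

lemma nf_units [IsTotallyReal K] (h3 : Module.finrank ℚ K = 3) (e : Fin 3 ≃ InfinitePlace K) :
    ∃ (ε : Fin 2 → (𝓞 K)ˣ) (U : Bool × (Fin 2 → ℤ) ≃ (𝓞 K)ˣ),
      (∀ p j, e j (U p) = Real.exp (∑ k, (p.2 k : ℝ) * Real.log (e j (ε k)))) ∧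
      Real.log (e 0 (ε 0)) * Real.log (e 1 (ε 1)) -
        Real.log (e 1 (ε 0)) * Real.log (e 0 (ε 1)) ≠ 0 := by
  classical
  have hr : 2 = NumberField.Units.rank K := by
    rw [NumberField.Units.rank, nf_card h3]
  let f : Fin 2 ≃ Fin (NumberField.Units.rank K) := finCongr hr
  let ε : Fin 2 → (𝓞 K)ˣ := fun k => NumberField.Units.fundSystem K (f k)
  let U : Bool × (Fin 2 → ℤ) → (𝓞 K)ˣ := fun p => (if p.1 then 1 else -1) * ∏ k, ε k ^ p.2 k
  have hodd : Odd (Module.finrank ℚ K) := by rw [h3]; decide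
  have hprod : ∀ m : Fin 2 → ℤ, ∏ k, ε k ^ m k =
      ∏ i, NumberField.Units.fundSystem K i ^ (m (f.symm i)) := by
    intro m
    rw [← f.prod_comp]
    simp [ε]
  have hne : (1 : (𝓞 K)ˣ) ≠ -1 := by
    intro h
    have h1 : ((1 : (𝓞 K)ˣ) : K) = ((-1 : (𝓞 K)ˣ) : K) := by rw [← h]
    rw [NumberField.Units.coe_one, NumberField.Units.coe_neg_one] at h1
    have : (2 : K) = 0 := by linear_combination h1
    exact two_ne_zero this
  have hU : Function.Bijective U := by
    constructor
    · rintro ⟨b, m⟩ ⟨b', m'⟩ h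
      obtain ⟨z, -, hz⟩ := NumberField.Units.exist_unique_eq_mul_prod K (U (b, m))
      have hm : ∀ c : Bool, (if c then (1 : (𝓞 K)ˣ) else -1) ∈ NumberField.Units.torsion K := by
        intro c
        cases c
        · exact neg_one_mem_torsion
        · exact one_mem _
      have h1 := hz (⟨_, hm b⟩, fun i => m (f.symm i)) (by simp only [U, hprod])
      have h2 := hz (⟨_, hm b'⟩, fun i => m' (f.symm i)) (by rw [h]; simp only [U, hprod])
      have h3 := h1.trans h2.symm
      simp only [Prod.mk.injEq, Subtype.mk.injEq] at h3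
      refine Prod.ext ?_ ?_
      · cases b <;> cases b' <;> simp_all [hne.symm]
      · funext k
        simpa using congrFun h3.2 (f k)
    · intro x
      obtain ⟨z, hz, -⟩ := NumberField.Units.exist_unique_eq_mul_prod K x
      rcases NumberField.Units.torsion_eq_one_or_neg_one_of_odd_finrank hodd z.1 with h | h
      · refine ⟨(true, fun k => z.2 (f k)), ?_⟩
        rw [hz, h]
        simp [U, hprod]
      · refine ⟨(false, fun k => z.2 (f k)), ?_⟩
        rw [hz, h]
        simp [U, hprod]
  refine ⟨ε, Equiv.ofBijective U hU, ?_, ?_⟩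
  · rintro ⟨b, m⟩ j
    have hp : ∀ k, 0 < e j (ε k) := fun k => NumberField.Units.pos_at_place _ _
    have h1 : e j ((if b then 1 else -1 : (𝓞 K)ˣ)) = 1 := by
      cases b
      · simp [← InfinitePlace.norm_embedding_eq]
      · simp
    simp only [Equiv.ofBijective_apply, U, Fin.prod_univ_two, Fin.sum_univ_two,
      NumberField.Units.coe_mul, map_mul, h1, one_mul, NumberField.Units.coe_zpow, map_zpow₀,
      Real.exp_add]
    rw [mul_comm (m 0 : ℝ), mul_comm (m 1 : ℝ), Real.exp_mul, Real.exp_mul,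
      Real.exp_log (hp 0), Real.exp_log (hp 1), Real.rpow_intCast, Real.rpow_intCast]
  · intro hdet
    have hli := (NumberField.Units.isMaxRank_fundSystem K).comp f f.injective
    rw [Fintype.linearIndependent_iff] at hli
    have key : ∀ g : Fin 2 → ℝ, (∀ j, g 0 * Real.log (e j (ε 0)) + g 1 * Real.log (e j (ε 1)) = 0) →
        ∀ k, g k = 0 := by
      intro g hg
      apply hli g
      funext w
      have := hg (e.symm w.1)
      simp only [Equiv.apply_symm_apply] at this
      simp only [Fin.sum_univ_two, Function.comp_apply, Pi.add_apply, Pi.smul_apply,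
        NumberField.Units.dirichletUnitTheorem.logEmbedding_component, IsTotallyReal.mult_eq,
        Nat.cast_one, one_mul, smul_eq_mul, Pi.zero_apply]
      exact this
    have s0 := nf_logsum e (ε 0)
    have s1 := nf_logsum e (ε 1)
    have k1 := key ![Real.log (e 1 (ε 1)), -Real.log (e 1 (ε 0))] (by
      intro j
      fin_cases j
      · simp only [Fin.zero_eta, Matrix.cons_val_zero, Matrix.cons_val_one]; linarith
      · simp only [Fin.mk_one, Matrix.cons_val_zero, Matrix.cons_val_one]; ring
      · simp only [Fin.reduceFinMk, Matrix.cons_val_zero, Matrix.cons_val_one]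
        have a0 : Real.log (e 2 (ε 0)) = -Real.log (e 0 (ε 0)) - Real.log (e 1 (ε 0)) := by linarith
        have a1 : Real.log (e 2 (ε 1)) = -Real.log (e 0 (ε 1)) - Real.log (e 1 (ε 1)) := by linarith
        rw [a0, a1]; linarith)
    have k2 := key ![Real.log (e 0 (ε 1)), -Real.log (e 0 (ε 0))] (by
      intro j
      fin_cases j
      · simp only [Fin.zero_eta, Matrix.cons_val_zero, Matrix.cons_val_one]; ring
      · simp only [Fin.mk_one, Matrix.cons_val_zero, Matrix.cons_val_one]; linarith
      · simp only [Fin.reduceFinMk, Matrix.cons_val_zero, Matrix.cons_val_one]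
        have a0 : Real.log (e 2 (ε 0)) = -Real.log (e 0 (ε 0)) - Real.log (e 1 (ε 0)) := by linarith
        have a1 : Real.log (e 2 (ε 1)) = -Real.log (e 0 (ε 1)) - Real.log (e 1 (ε 1)) := by linarith
        rw [a0, a1]; linarith)
    have b1 : Real.log (e 1 (ε 0)) = 0 := by simpa using k1 1
    have b0 : Real.log (e 0 (ε 0)) = 0 := by simpa using k2 1
    have k3 := key ![1, 0] (by
      intro j
      fin_cases j
      · simp only [Fin.zero_eta, Matrix.cons_val_zero, Matrix.cons_val_one]; linarith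
      · simp only [Fin.mk_one, Matrix.cons_val_zero, Matrix.cons_val_one]; linarith
      · simp only [Fin.reduceFinMk, Matrix.cons_val_zero, Matrix.cons_val_one]; linarith)
    simpa using k3 0

lemma nf_summable (σ : ℝ) (hσ : 1 < σ) :
    Summable (fun I : (Ideal (𝓞 K))⁰ => (Ideal.absNorm I.1 : ℝ) ^ (-σ)) := by
  classical
  let a : ℕ → ℝ := fun n => (Nat.card {I : Ideal (𝓞 K) // Ideal.absNorm I = n} : ℝ)
  obtain ⟨L, h1⟩ : ∃ L : ℝ,
      Tendsto (fun n : ℕ => (∑ k ∈ Finset.Icc 1 n, a k) / (n : ℝ)) atTop (nhds L) := by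
    refine ⟨_, ((Ideal.tendsto_norm_le_div_atTop₀ K).comp tendsto_natCast_atTop_atTop).congr
      fun n ↦ ?_⟩
    simp only [Function.comp_apply, Nat.cast_le, ← Nat.cast_sum, a]
    congr
    rw [← add_left_inj 1, ← Ideal.card_norm_le_eq_card_norm_le_add_one,
      show Finset.Icc 1 n = Finset.Ioc 0 n from Finset.Icc_succ_left_eq_Ioc _ _,
      show 1 = Nat.card {I : Ideal (𝓞 K) // Ideal.absNorm I = 0} by
        simp [Ideal.absNorm_eq_zero_iff],
      Finset.sum_Ioc_add_eq_sum_Icc (n.zero_le),
      ← Finset.card_preimage_eq_sum_card_image_eq (fun k _ ↦ Ideal.finite_setOfPred_absNorm_eq k)]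
    simp [Set.coe_eq_subtype]
  have h2 : (fun n : ℕ => ∑ k ∈ Finset.Icc 1 n, a k) =O[atTop] fun n => (n : ℝ) ^ (1 : ℝ) := by
    simp only [Real.rpow_one]
    refine Asymptotics.isBigO_of_div_tendsto_nhds ?_ _ h1
    filter_upwards [eventually_ne_atTop 0] with n hn h
    exact absurd (by exact_mod_cast h) hn
  have h3 : LSeriesSummable (fun n => (a n : ℂ)) (σ : ℂ) :=
    LSeriesSummable_of_sum_norm_bigO_and_nonneg h2 (fun _ => Nat.cast_nonneg _) zero_le_one
      (by simpa using hσ)
  have h4 : Summable (fun n : ℕ => a n * (n : ℝ) ^ (-σ)) := by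
    have := h3.norm
    refine this.congr fun n => ?_
    rw [LSeries.norm_term_eq]
    split_ifs with hn
    · subst hn
      rw [Nat.cast_zero, Real.zero_rpow (by linarith), mul_zero]
    · have : 0 ≤ a n := Nat.cast_nonneg _
      rw [Complex.norm_real, Real.norm_of_nonneg this, Complex.ofReal_re,
        Real.rpow_neg (Nat.cast_nonneg _), div_eq_mul_inv]
  have h5 : Summable (fun I : Ideal (𝓞 K) => (Ideal.absNorm I : ℝ) ^ (-σ)) := by
    rw [← (Equiv.sigmaFiberEquiv (fun I : Ideal (𝓞 K) => Ideal.absNorm I)).summable_iff,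
      summable_sigma_of_nonneg (fun _ => by
        simp only [Function.comp_apply]; positivity)]
    have hfin : ∀ n, Finite {I : Ideal (𝓞 K) // Ideal.absNorm I = n} := fun n =>
      Ideal.finite_setOfPred_absNorm_eq n
    refine ⟨fun n => Summable.of_finite, h4.congr fun n => ?_⟩
    have : ∀ y : {I : Ideal (𝓞 K) // Ideal.absNorm I = n},
        ((fun I : Ideal (𝓞 K) => (Ideal.absNorm I : ℝ) ^ (-σ)) ∘
          (Equiv.sigmaFiberEquiv (fun I : Ideal (𝓞 K) => Ideal.absNorm I))) ⟨n, y⟩ =
          (n : ℝ) ^ (-σ) := by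
      intro y
      simp [Equiv.sigmaFiberEquiv, y.2]
    simp only [this]
    rw [tsum_const, nsmul_eq_mul]
  exact h5.comp_injective Subtype.val_injective

end Pool.Agent.CubH
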