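import Pool.Agent.Lib.MP_d79f69_nt.NFA

/-!
Number field input, second part: lattices of ideals and the lattice presentation.
-/

open Matrix NumberField
open scoped nonZeroDivisors

namespace Pool.Agent.CubH

universe u

variable {K : Type u} [Field K] [NumberField K]

/-- embedding matrix of a triple -/
noncomputable def nfM (σ : Fin 3 → (K →+* ℝ)) (β : Fin 3 → K) : M3 :=
  Matrix.of fun j i => σ j (β i)

/-- the triple generates the ideal as a group -/
def NFSpan (b : Ideal (𝓞 K)) (β : Fin 3 → 𝓞 K) : Prop :=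
  ∀ x, x ∈ b ↔ ∃ n : Z3, x = ∑ i, n i • β i

omit [NumberField K] in
lemma nf_mulVec (σ : Fin 3 → (K →+* ℝ)) (β : Fin 3 → 𝓞 K) (n : Z3) (j : Fin 3) :
    (nfM σ (fun i => (β i : K)) *ᵥ zr n) j = σ j ((∑ i, n i • β i : 𝓞 K) : K) := by
  simp only [nfM, zr, Matrix.mulVec, dotProduct, Matrix.of_apply, Fin.sum_univ_three,
    zsmul_eq_mul, map_add, map_mul, map_intCast]
  ring

omit [NumberField K] in
lemma nf_li (σ : Fin 3 → (K →+* ℝ)) (β : Fin 3 → 𝓞 K)
    (h : (nfM σ (fun i => (β i : K))).det ≠ 0) : LinearIndependent ℤ β := by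
  rw [Fintype.linearIndependent_iff]
  intro n hn
  have h1 : nfM σ (fun i => (β i : K)) *ᵥ zr n = 0 := by
    funext j
    rw [nf_mulVec, hn]
    simp
  have h2 := Matrix.eq_zero_of_mulVec_eq_zero h h1
  intro i
  have := congrFun h2 i
  simpa [zr] using this

lemma nf_basis (h3 : Module.finrank ℚ K = 3) : Nonempty (Module.Basis (Fin 3) ℤ (𝓞 K)) :=
  ⟨Module.finBasisOfFinrankEq ℤ (𝓞 K) (by rw [RingOfIntegers.rank, h3])⟩

lemma nf_exists_span (h3 : Module.finrank ℚ K = 3) (b : Ideal (𝓞 K)) (hb : b ≠ ⊥) :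
    ∃ β : Fin 3 → 𝓞 K, NFSpan b β ∧ LinearIndependent ℤ β := by
  obtain ⟨ω⟩ := nf_basis h3
  let B := Ideal.selfBasis ω b hb
  refine ⟨fun i => (B i : 𝓞 K), fun x => ⟨fun hx => ?_, ?_⟩, ?_⟩
  · refine ⟨fun i => B.repr ⟨x, hx⟩ i, ?_⟩
    have := congrArg Subtype.val (B.sum_repr ⟨x, hx⟩)
    rw [AddSubmonoidClass.coe_finsetSum] at this
    exact this.symm
  · rintro ⟨n, rfl⟩
    exact b.sum_mem fun i _ => zsmul_mem (B i).2 _
  · exact B.linearIndependent.map' ((Submodule.subtype b).restrictScalars ℤ)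
      (by simp)

lemma nf_det (σ : Fin 3 → (K →+* ℝ)) (ω : Module.Basis (Fin 3) ℤ (𝓞 K)) (b : Ideal (𝓞 K))
    (β : Fin 3 → 𝓞 K) (hβ : NFSpan b β) (hli : LinearIndependent ℤ β) :
    |(nfM σ (fun i => (β i : K))).det| =
      |(nfM σ (fun i => (ω i : K))).det| * (Ideal.absNorm b : ℝ) := by
  classical
  have hm : ∀ i, β i ∈ b := fun i => (hβ _).2 ⟨Pi.single i 1, by simp [Pi.single_apply]⟩
  let B : Module.Basis (Fin 3) ℤ b := Module.Basis.mk (v := fun i => ⟨β i, hm i⟩)
    (LinearIndependent.of_comp ((Submodule.subtype b).restrictScalars ℤ) hli) (by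
      rintro ⟨x, hx⟩ -
      obtain ⟨n, hn⟩ := (hβ x).1 hx
      have : (⟨x, hx⟩ : b) = ∑ i, n i • (⟨β i, hm i⟩ : b) := by
        apply Subtype.ext
        simpa using hn
      rw [this]
      exact Submodule.sum_mem _ fun i _ =>
        Submodule.smul_mem _ _ (Submodule.subset_span ⟨i, rfl⟩))
  have h1 := Ideal.natAbs_det_basis_change ω b B
  have h2 : ((↑) ∘ B : Fin 3 → 𝓞 K) = β := by
    funext i
    simp [B]
  rw [h2, Module.Basis.det_apply] at h1
  have h3 : nfM σ (fun i => (β i : K)) =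
      nfM σ (fun i => (ω i : K)) * (ω.toMatrix β).map (Int.castRingHom ℝ) := by
    ext j i
    have := ω.sum_repr (β i)
    simp only [nfM, Matrix.of_apply, Matrix.mul_apply, Matrix.map_apply,
      Module.Basis.toMatrix_apply, eq_intCast]
    conv_lhs => rw [← this]
    simp only [Fin.sum_univ_three, zsmul_eq_mul, map_add, map_mul, map_intCast]
    ring
  rw [h3, Matrix.det_mul, abs_mul, ← h1, ← RingHom.mapMatrix_apply, ← RingHom.map_det]
  simp

lemma nf_dual (h3 : Module.finrank ℚ K = 3) (β : Fin 3 → 𝓞 K) (hli : LinearIndependent ℤ β) :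
    ∃ δ : Fin 3 → K, (∀ i k, Algebra.trace ℚ K (δ i * β k) = if k = i then 1 else 0) ∧
      (∀ x : K, x = ∑ i, Algebra.trace ℚ K (x * β i) • δ i) ∧
      (∀ x : K, x = ∑ i, Algebra.trace ℚ K (x * δ i) • (β i : K)) := by
  have h1 : LinearIndependent ℤ (fun i => (β i : K)) :=
    hli.map' (IsScalarTower.toAlgHom ℤ (𝓞 K) K).toLinearMap
      (LinearMap.ker_eq_bot.2 (RingOfIntegers.coe_injective))
  have h2 : LinearIndependent ℚ (fun i => (β i : K)) :=
    (LinearIndependent.iff_fractionRing ℤ ℚ).1 h1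
  let B := basisOfLinearIndependentOfCardEqFinrank h2 (by simp [h3])
  have hB : ∀ i, B i = β i := fun i => by simp [B]
  refine ⟨B.traceDual, fun i k => ?_, fun x => ?_, fun x => ?_⟩
  · rw [← hB, Module.Basis.trace_traceDual_mul]
  · conv_lhs => rw [← B.traceDual.sum_repr x]
    simp [hB]
  · conv_lhs => rw [← B.traceDual.traceDual.sum_repr x]
    simp only [Module.Basis.traceDual_repr_apply, Algebra.traceForm_apply]
    simp [hB]

lemma nf_dual_mat (σ : Fin 3 → (K →+* ℝ))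
    (htr : ∀ x, ((Algebra.trace ℚ K x : ℚ) : ℝ) = ∑ j, σ j x) (β δ : Fin 3 → K)
    (h : ∀ i k, Algebra.trace ℚ K (δ i * β k) = if k = i then 1 else 0) :
    (nfM σ δ)ᵀ * nfM σ β = 1 := by
  ext i k
  have := htr (δ i * β k)
  rw [h] at this
  simp only [Matrix.mul_apply, Matrix.transpose_apply, nfM, Matrix.of_apply, ← map_mul, ← this,
    Matrix.one_apply]
  by_cases hik : i = k
  · simp [hik]
  · simp [hik, Ne.symm hik]

/-- the scaled trace dual of an ideal -/
def nfCol (b : Ideal (𝓞 K)) (m : ℤ) : Ideal (𝓞 K) where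
  carrier := {x | ∀ y ∈ b, ∃ z : ℤ, Algebra.trace ℚ K ((x : K) * (y : K)) = m * z}
  add_mem' := by
    intro x x' hx hx' y hy
    obtain ⟨z, hz⟩ := hx y hy
    obtain ⟨z', hz'⟩ := hx' y hy
    refine ⟨z + z', ?_⟩
    simp only [map_add, add_mul, hz, hz']
    push_cast
    ring
  zero_mem' := fun y _ => ⟨0, by simp⟩
  smul_mem' := by
    intro c x hx y hy
    obtain ⟨z, hz⟩ := hx (c * y) (b.mul_mem_left c hy)
    refine ⟨z, ?_⟩
    rw [← hz]
    congr 1
    simp only [smul_eq_mul, map_mul]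
    ring

lemma nf_mem_col (b : Ideal (𝓞 K)) (m : ℤ) (x : 𝓞 K) :
    x ∈ nfCol b m ↔ ∀ y ∈ b, ∃ z : ℤ, Algebra.trace ℚ K ((x : K) * (y : K)) = m * z := Iff.rfl

lemma nf_col (b : Ideal (𝓞 K)) (β : Fin 3 → 𝓞 K) (hβ : NFSpan b β) (δ : Fin 3 → K)
    (h1 : ∀ i k, Algebra.trace ℚ K (δ i * β k) = if k = i then 1 else 0)
    (h2 : ∀ x : K, x = ∑ i, Algebra.trace ℚ K (x * β i) • δ i)
    (h3 : ∀ x : K, x = ∑ i, Algebra.trace ℚ K (x * δ i) • (β i : K))
    (m : ℤ) (hm : m ≠ 0) (β' : Fin 3 → 𝓞 K) (hβ' : ∀ i, (β' i : K) = m * δ i) :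
    NFSpan (nfCol b m) β' ∧ b * nfCol b m = nfCol ⊤ m := by
  classical
  have hmem : ∀ i, β i ∈ b := fun i => (hβ _).2 ⟨Pi.single i 1, by simp [Pi.single_apply]⟩
  have hm' : (m : ℚ) ≠ 0 := by exact_mod_cast hm
  have htr : ∀ x : K, Algebra.trace ℚ K ((m : K) * x) = m * Algebra.trace ℚ K x := by
    intro x
    rw [← zsmul_eq_mul, map_zsmul, zsmul_eq_mul]
  have hS : NFSpan (nfCol b m) β' := by
    intro x
    constructor
    · intro hx
      choose z hz using fun i => hx (β i) (hmem i)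
      refine ⟨z, RingOfIntegers.ext ?_⟩
      rw [h2 (x : K)]
      simp only [hz, Fin.sum_univ_three, RingOfIntegers.coe_eq_algebraMap, map_add,
        map_mul, map_intCast, Algebra.smul_def, eq_intCast] at hβ' ⊢
      simp only [hβ']
      ring
    · rintro ⟨n, rfl⟩
      refine Ideal.sum_mem _ fun i _ => zsmul_mem ?_ _
      intro y hy
      obtain ⟨k, rfl⟩ := (hβ y).1 hy
      refine ⟨k i, ?_⟩
      rw [hβ', mul_assoc, htr]
      congr 1
      have : δ i * ((∑ j, k j • β j : 𝓞 K) : K) = ∑ j, k j • (δ i * β j) := by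
        simp only [Fin.sum_univ_three, zsmul_eq_mul, map_add, map_mul, map_intCast]
        ring
      rw [this, map_sum]
      simp only [map_zsmul, h1]
      simp
  refine ⟨hS, le_antisymm ?_ ?_⟩
  · rw [Ideal.mul_le]
    intro y hy x hx w _
    obtain ⟨z, hz⟩ := hx (y * w) (b.mul_mem_right w hy)
    refine ⟨z, ?_⟩
    rw [← hz]
    congr 1
    simp only [map_mul]
    ring
  · have hle : nfCol ⊤ m ≤ b := by
      intro x hx
      choose z hz using fun i => hx (β' i) Submodule.mem_top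
      refine (hβ x).2 ⟨z, RingOfIntegers.ext ?_⟩
      have hz' : ∀ i, Algebra.trace ℚ K (x * δ i) = z i := by
        intro i
        have := hz i
        rw [hβ', mul_left_comm, htr] at this
        exact mul_left_cancel₀ hm' this
      rw [h3 (x : K)]
      simp only [hz', Fin.sum_univ_three, RingOfIntegers.coe_eq_algebraMap, map_add,
        map_mul, map_intCast, Algebra.smul_def, eq_intCast]
    obtain ⟨q, hq⟩ := Ideal.dvd_iff_le.2 hle
    rw [hq]
    refine Ideal.mul_mono_right ?_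
    intro x hx y hy
    have : y * x ∈ nfCol (⊤ : Ideal (𝓞 K)) m := hq ▸ Ideal.mul_mem_mul hy hx
    obtain ⟨z, hz⟩ := this 1 Submodule.mem_top
    refine ⟨z, ?_⟩
    rw [← hz]
    congr 1
    simp only [map_mul, map_one]
    ring

end Pool.Agent.CubH
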