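import Pool.Agent.Lib.MP_d79f69_nt.NFB

/-!
Number field input, third part: the lattice presentation of a Hecke character.
-/

open Matrix NumberField
open scoped nonZeroDivisors

namespace Pool.Agent.CubH

universe u

variable {K : Type u} [Field K] [NumberField K]

lemma nf_cpow_prod (s : ℝ) (hs : 0 < s) (μ : V3) (hμ : μ 0 + μ 1 + μ 2 = 0) (t : V3)
    (ht : ∀ j, 0 ≤ t j) :
    ∏ j, ((s * t j : ℝ) : ℂ) ^ (Complex.I * μ j) = ∏ j, ((t j : ℝ) : ℂ) ^ (Complex.I * μ j) := by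
  have hs' : (s : ℂ) ≠ 0 := by exact_mod_cast hs.ne'
  have h1 : ∏ j, (s : ℂ) ^ (Complex.I * μ j) = 1 := by
    rw [Fin.prod_univ_three, ← Complex.cpow_add _ _ hs', ← Complex.cpow_add _ _ hs', ← mul_add,
      ← mul_add, ← Complex.ofReal_add, ← Complex.ofReal_add, hμ]
    simp
  simp only [Complex.ofReal_mul, Complex.mul_cpow_ofReal_nonneg hs.le (ht _),
    Finset.prod_mul_distrib, h1, one_mul]

lemma nf_sys [IsTotallyReal K] (e : Fin 3 ≃ InfinitePlace K) (σ : Fin 3 → (K →+* ℝ))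
    (hσ : ∀ j x, |σ j x| = e j x) (l : Fin 2 → V3) (U : Bool × (Fin 2 → ℤ) ≃ (𝓞 K)ˣ)
    (hU : ∀ p j, e j (U p) = Real.exp (∑ k, (p.2 k : ℝ) * l k j))
    (ψ : (Ideal (𝓞 K))⁰ →* ℂ) (μ : V3) (hμ : μ 0 + μ 1 + μ 2 = 0)
    (hψ : ∀ (α : 𝓞 K) (hα : Ideal.span {α} ∈ (Ideal (𝓞 K))⁰),
      ψ ⟨Ideal.span {α}, hα⟩ = ∏ j, ((e j α : ℝ) : ℂ) ^ (Complex.I * μ j))
    (b : ClassGroup (𝓞 K) → (Ideal (𝓞 K))⁰)
    (hb : Function.Bijective (fun a => ClassGroup.mk0 (b a))) (hψb : ∀ a, ψ (b a) ≠ 0)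
    (β : ClassGroup (𝓞 K) → Fin 3 → 𝓞 K) (hβ : ∀ a, NFSpan (b a).1 (β a))
    (hli : ∀ a, LinearIndependent ℤ (β a))
    (s : ClassGroup (𝓞 K) → ℝ) (hs : ∀ a, 0 < s a) (v : ℝ)
    (hsv : ∀ a, s a ^ 3 * (Ideal.absNorm (b a).1 : ℝ) = 1 / v)
    (B : ClassGroup (𝓞 K) → M3) (hB : ∀ a, B a = s a • nfM σ (fun i => (β a i : K)))
    (hdet : ∀ a, |(B a).det| = 1) :
    Sys (fun I : (Ideal (𝓞 K))⁰ => (Ideal.absNorm I.1 : ℝ)) ψ μ l v B (fun a => (ψ (b a))⁻¹) := by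
  classical
  refine ⟨hdet, ?_⟩
  have h1 : ∀ I : (Ideal (𝓞 K))⁰, ∃ a, ∃ γ : 𝓞 K, γ ≠ 0 ∧ I.1 * (b a).1 = Ideal.span {γ} := by
    intro I
    obtain ⟨a, ha⟩ := hb.2 (ClassGroup.mk0 I)⁻¹
    obtain ⟨γ, h0, hγ⟩ := ClassGroup.mk0_eq_mk0_inv_iff.1 ha
    exact ⟨a, γ, h0, by rw [mul_comm]; exact hγ⟩
  choose aI γ hγ0 hγ using h1
  have huniq : ∀ (I : (Ideal (𝓞 K))⁰) a (x : 𝓞 K), x ≠ 0 → I.1 * (b a).1 = Ideal.span {x} →
      a = aI I := by
    intro I a x hx h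
    apply hb.1
    have e1 : ClassGroup.mk0 (b a) = (ClassGroup.mk0 I)⁻¹ :=
      ClassGroup.mk0_eq_mk0_inv_iff.2 ⟨x, hx, by rw [mul_comm]; exact h⟩
    have e2 : ClassGroup.mk0 (b (aI I)) = (ClassGroup.mk0 I)⁻¹ :=
      ClassGroup.mk0_eq_mk0_inv_iff.2 ⟨γ I, hγ0 I, by rw [mul_comm]; exact hγ I⟩
    exact e1.trans e2.symm
  have hγm : ∀ I, γ I ∈ (b (aI I)).1 := fun I => by
    have : γ I ∈ I.1 * (b (aI I)).1 := by rw [hγ]; exact Ideal.mem_span_singleton_self _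
    exact Ideal.mul_le_right this
  have h2 : ∀ (I : (Ideal (𝓞 K))⁰) (p : Bool × (Fin 2 → ℤ)), ∃ n : Z3,
      (U p : 𝓞 K) * γ I = ∑ i, n i • β (aI I) i := fun I p =>
    (hβ _ _).1 (Ideal.mul_mem_left _ _ (hγm I))
  choose n hn using h2
  have hn0 : ∀ I p, n I p ≠ 0 := by
    intro I p h
    have := hn I p
    rw [h] at this
    simp only [Pi.zero_apply, zero_smul, Finset.sum_const_zero, Units.mul_right_eq_zero] at this
    exact hγ0 I this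
  have hinj : ∀ a (m m' : Z3), ∑ i, m i • β a i = ∑ i, m' i • β a i → m = m' := by
    intro a m m' h
    exact funext (Fintype.linearIndependent_iffₛ.1 (hli a) m m' h)
  let F : (Ideal (𝓞 K))⁰ × Bool × (Fin 2 → ℤ) → ClassGroup (𝓞 K) × {n : Z3 // n ≠ 0} :=
    fun y => (aI y.1, ⟨n y.1 y.2, hn0 _ _⟩)
  have hF : Function.Bijective F := by
    constructor
    · rintro ⟨I, p⟩ ⟨I', p'⟩ h
      simp only [F, Prod.mk.injEq, Subtype.mk.injEq] at h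
      have e1 : (U p : 𝓞 K) * γ I = U p' * γ I' := by rw [hn, hn, h.1, h.2]
      have e2 : I.1 * (b (aI I)).1 = I'.1 * (b (aI I)).1 := by
        rw [hγ, h.1, hγ, ← Ideal.span_singleton_mul_left_unit (U p).isUnit, e1,
          Ideal.span_singleton_mul_left_unit (U p').isUnit]
      have e3 : I = I' :=
        Subtype.ext (mul_right_cancel₀ (nonZeroDivisors.ne_zero (b (aI I)).2) e2)
      subst e3
      have e4 : U p = U p' := Units.ext (mul_right_cancel₀ (hγ0 I) e1)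
      rw [U.injective e4]
    · rintro ⟨a, m, hm⟩
      have hx0 : ∑ i, m i • β a i ≠ 0 := by
        intro h
        exact hm (hinj a m 0 (by simpa using h))
      have hxm : ∑ i, m i • β a i ∈ (b a).1 := (hβ _ _).2 ⟨m, rfl⟩
      obtain ⟨q, hq⟩ := Ideal.dvd_iff_le.2 ((Ideal.span_singleton_le_iff_mem _).2 hxm)
      have hq0 : q ≠ 0 := by
        rintro rfl
        rw [mul_zero, Ideal.zero_eq_bot, Ideal.span_singleton_eq_bot] at hq
        exact hx0 hq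
      obtain ⟨I, rfl⟩ : ∃ I : (Ideal (𝓞 K))⁰, I.1 = q :=
        ⟨⟨q, mem_nonZeroDivisors_of_ne_zero hq0⟩, rfl⟩
      have ha := huniq I a _ hx0 (by rw [mul_comm]; exact hq.symm)
      subst ha
      rw [mul_comm, hγ, eq_comm, Ideal.span_singleton_eq_span_singleton] at hq
      obtain ⟨w, hw⟩ := hq
      refine ⟨(I, U.symm w), Prod.ext rfl (Subtype.ext ?_)⟩
      apply hinj (aI I)
      simp only [F]
      rw [← hn, ← hw, Equiv.apply_symm_apply, mul_comm]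
  have hpos : ∀ I j, 0 < e j (γ I) := fun I j =>
    InfinitePlace.pos_iff.2 (by simpa using hγ0 I)
  refine ⟨fun I j => s (aI I) * e j (γ I), (Equiv.ofBijective F hF).symm,
    fun I j => mul_pos (hs _) (hpos I j), fun I => ?_, fun x => ?_⟩
  · have e1 := nf_prod e (γ I)
    rw [← hγ, map_mul, Nat.cast_mul] at e1
    have e2 := hsv (aI I)
    calc _ = s (aI I) ^ 3 * (e 0 (γ I) * e 1 (γ I) * e 2 (γ I)) := by ring
      _ = (Ideal.absNorm I.1 : ℝ) * (s (aI I) ^ 3 * (Ideal.absNorm (b (aI I)).1 : ℝ)) := by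
        rw [e1]; ring
      _ = _ := by rw [e2]; ring
  · obtain ⟨⟨I, p⟩, rfl⟩ := (Equiv.ofBijective F hF).surjective x
    rw [Equiv.symm_apply_apply]
    simp only [Equiv.ofBijective_apply, F]
    constructor
    · intro j
      rw [hB, Matrix.smul_mulVec, Pi.smul_apply, nf_mulVec, ← hn, smul_eq_mul, abs_mul,
        abs_of_pos (hs _), hσ, ← hU]
      simp only [map_mul]
      ring
    · rw [nf_cpow_prod _ (hs _) μ hμ _ (fun j => (hpos I j).le)]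
      have hm : Ideal.span {γ I} ∈ (Ideal (𝓞 K))⁰ := by
        rw [← hγ]; exact (I * b (aI I)).2
      have e1 : I * b (aI I) = ⟨Ideal.span {γ I}, hm⟩ := Subtype.ext (hγ I)
      rw [← hψ _ hm, ← e1, map_mul]
      field_simp [hψb]

lemma nf_norm_one [IsTotallyReal K] (e : Fin 3 ≃ InfinitePlace K)
    (ψ : (Ideal (𝓞 K))⁰ →* ℂ) (μ : V3)
    (hψ : ∀ (α : 𝓞 K) (hα : Ideal.span {α} ∈ (Ideal (𝓞 K))⁰),
      ψ ⟨Ideal.span {α}, hα⟩ = ∏ j, ((e j α : ℝ) : ℂ) ^ (Complex.I * μ j))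
    (I : (Ideal (𝓞 K))⁰) : ‖ψ I‖ = 1 := by
  have hc : 0 < Nat.card (ClassGroup (𝓞 K)) := Nat.card_pos
  have h1 : ClassGroup.mk0 (I ^ Nat.card (ClassGroup (𝓞 K))) = (ClassGroup.mk0 1)⁻¹ := by
    rw [map_pow, pow_card_eq_one', map_one, inv_one]
  obtain ⟨x, hx0, hx⟩ := ClassGroup.mk0_eq_mk0_inv_iff.1 h1
  have hm : Ideal.span {x} ∈ (Ideal (𝓞 K))⁰ := by
    rw [← hx]; exact (I ^ Nat.card (ClassGroup (𝓞 K)) * 1).2
  have e1 : I ^ Nat.card (ClassGroup (𝓞 K)) = ⟨Ideal.span {x}, hm⟩ :=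
    Subtype.ext ((mul_one _).symm.trans hx)
  have h2 := congrArg norm (hψ x hm)
  rw [← e1, map_pow, norm_pow, norm_prod] at h2
  have h3 : ∀ j, ‖((e j x : ℝ) : ℂ) ^ (Complex.I * μ j)‖ = 1 := by
    intro j
    rw [Complex.norm_cpow_eq_rpow_re_of_pos (InfinitePlace.pos_iff.2 (by simpa using hx0))]
    simp
  simp only [h3, Finset.prod_const_one] at h2
  exact (pow_eq_one_iff_of_nonneg (norm_nonneg _) hc.ne').1 h2

end Pool.Agent.CubH
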