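import Pool.Agent.Lib.MP_d79f69_nt.Iface

/-! Partition of unity, unfolding lemma and smooth weights in logarithmic coordinates. -/

open Matrix MeasureTheory Filter Topology

namespace Pool.Agent.CubH

universe u

/-- the bump of the partition of unity -/
noncomputable def partPsi (x : ℝ) : ℝ := Real.smoothTransition (x + 1) - Real.smoothTransition x

theorem partPsi_nonneg (x : ℝ) : 0 ≤ partPsi x :=
  sub_nonneg.2 (Real.smoothTransition.monotone (by linarith))

theorem partPsi_contDiff : ContDiff ℝ (⊤ : ℕ∞) partPsi :=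
  (Real.smoothTransition.contDiff.comp (contDiff_id.add contDiff_const)).sub
    Real.smoothTransition.contDiff

theorem partPsi_zero_of_le {x : ℝ} (h : x ≤ -1) : partPsi x = 0 := by
  rw [partPsi, Real.smoothTransition.zero_of_nonpos (by linarith),
    Real.smoothTransition.zero_of_nonpos (by linarith), sub_zero]

theorem partPsi_zero_of_ge {x : ℝ} (h : 1 ≤ x) : partPsi x = 0 := by
  rw [partPsi, Real.smoothTransition.one_of_one_le (by linarith),
    Real.smoothTransition.one_of_one_le h, sub_self]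

theorem partPsi_abs_le {x : ℝ} (h : partPsi x ≠ 0) : |x| ≤ 1 := by
  rw [abs_le]
  constructor
  · by_contra h1
    exact h (partPsi_zero_of_le (by linarith))
  · by_contra h1
    exact h (partPsi_zero_of_ge (by linarith))

theorem partPsi_add {u : ℝ} (h0 : 0 ≤ u) (h1 : u ≤ 1) : partPsi u + partPsi (u - 1) = 1 := by
  rw [partPsi, partPsi, sub_add_cancel, Real.smoothTransition.one_of_one_le (by linarith),
    Real.smoothTransition.zero_of_nonpos (x := u - 1) (by linarith)]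
  ring

theorem partPsi_hasSum_int (t : ℝ) : HasSum (fun m : ℤ => partPsi (t + m)) 1 := by
  have h0 := Int.floor_le t
  have h1 := Int.lt_floor_add_one t
  have h2 : ∑ m ∈ ({-⌊t⌋, -⌊t⌋ - 1} : Finset ℤ), partPsi (t + m) = 1 := by
    rw [Finset.sum_pair (by omega), ← partPsi_add (u := t - ⌊t⌋) (by linarith) (by linarith)]
    push_cast
    congr 2
    ring
  rw [← h2]
  refine hasSum_sum_of_ne_finset_zero fun m hm => ?_
  simp only [Finset.mem_insert, Finset.mem_singleton, not_or] at hm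
  rcases le_or_gt m (-⌊t⌋ - 2) with h | h
  · have : (m : ℝ) ≤ -⌊t⌋ - 2 := by exact_mod_cast h
    exact partPsi_zero_of_le (by linarith)
  · have h3 : -⌊t⌋ + 1 ≤ m := by omega
    have : -(⌊t⌋ : ℝ) + 1 ≤ m := by exact_mod_cast h3
    exact partPsi_zero_of_ge (by linarith)

theorem partPsi_hasSum_nat {t : ℝ} (ht : 0 ≤ t) : HasSum (fun i : ℕ => partPsi (t - i)) 1 := by
  have h0 := Nat.floor_le ht
  have h1 := Nat.lt_floor_add_one t
  have h2 : ∑ m ∈ ({⌊t⌋₊, ⌊t⌋₊ + 1} : Finset ℕ), partPsi (t - m) = 1 := by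
    rw [Finset.sum_pair (by omega), ← partPsi_add (u := t - ⌊t⌋₊) (by linarith) (by linarith)]
    push_cast
    congr 2
    ring
  rw [← h2]
  refine hasSum_sum_of_ne_finset_zero fun m hm => ?_
  simp only [Finset.mem_insert, Finset.mem_singleton, not_or] at hm
  rcases le_or_gt (m + 1) ⌊t⌋₊ with h | h
  · have : (m : ℝ) + 1 ≤ ⌊t⌋₊ := by exact_mod_cast h
    exact partPsi_zero_of_ge (by linarith)
  · have h3 : ⌊t⌋₊ + 2 ≤ m := by omega
    have : (⌊t⌋₊ : ℝ) + 2 ≤ m := by exact_mod_cast h3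
    exact partPsi_zero_of_le (by linarith)

/-- unfolding a summable family along a family of probability weights -/
theorem part_unfold {J K E : Type*} [NormedAddCommGroup E] [NormedSpace ℝ E] [CompleteSpace E]
    {T : J → E} (hT : Summable fun I => ‖T I‖) {w : J → K → ℝ} (hw : ∀ I k, 0 ≤ w I k)
    (h1 : ∀ I, HasSum (w I) 1) :
    HasSum (fun p : J × K => w p.1 p.2 • T p.1) (∑' I, T I) := by
  have hn : Summable fun p : J × K => ‖w p.1 p.2 • T p.1‖ := by
    have e : ∀ p : J × K, ‖w p.1 p.2 • T p.1‖ = w p.1 p.2 * ‖T p.1‖ := fun p => by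
      rw [norm_smul, Real.norm_of_nonneg (hw _ _)]
    simp only [e]
    refine (summable_prod_of_nonneg fun p => mul_nonneg (hw _ _) (norm_nonneg _)).2
      ⟨fun I => ((h1 I).mul_right ‖T I‖).summable, ?_⟩
    refine hT.congr fun I => ?_
    rw [((h1 I).mul_right ‖T I‖).tsum_eq, one_mul]
  have hs := hn.of_norm.hasSum
  have h2 := hs.prod_fiberwise (g := T) fun I => by
    simpa using (h1 I).smul_const (T I)
  rw [h2.tsum_eq]
  exact hs

theorem part_hasSum_units (s t : ℝ) : HasSum (fun q : Bool × (Fin 2 → ℤ) =>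
    1 / 2 * (partPsi (s + q.2 0) * partPsi (t + q.2 1))) 1 := by
  have h1 : HasSum (fun p : ℤ × ℤ => partPsi (t + p.2) • partPsi (s + p.1)) 1 := by
    have := part_unfold (T := fun m : ℤ => partPsi (s + m)) (w := fun _ (m : ℤ) => partPsi (t + m))
      (partPsi_hasSum_int s).summable.norm (fun _ _ => partPsi_nonneg _)
      (fun _ => partPsi_hasSum_int t)
    rwa [(partPsi_hasSum_int s).tsum_eq] at this
  have h2 : HasSum (fun m : Fin 2 → ℤ => partPsi (s + m 0) * partPsi (t + m 1)) 1 := by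
    have := (finTwoArrowEquiv ℤ).hasSum_iff.2 h1
    convert this using 2 with m
    simp [finTwoArrowEquiv, mul_comm]
  have h3 := part_unfold (T := fun _ : Bool => (1 / 2 : ℝ))
    (w := fun _ (m : Fin 2 → ℤ) => partPsi (s + m 0) * partPsi (t + m 1))
    (Summable.of_finite) (fun _ _ => mul_nonneg (partPsi_nonneg _) (partPsi_nonneg _))
    (fun _ => h2)
  have h4 : ∑' _ : Bool, (1 / 2 : ℝ) = 1 := by
    rw [tsum_fintype]
    simp
  rw [h4] at h3
  simpa only [smul_eq_mul, mul_comm] using h3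

open Classical in
/-- a function of the logarithms, extended by zero -/
noncomputable def partLog (Ψ : V3 → ℂ) (x : V3) : ℂ :=
  if ∀ j, 0 < x j then Ψ (fun j => Real.log (x j)) else 0

theorem partLog_supp {Ψ : V3 → ℂ} {r : ℝ} (h : ∀ y, Ψ y ≠ 0 → ∀ i, |y i| ≤ r) {x : V3}
    (hx : partLog Ψ x ≠ 0) (i : Fin 3) : 1 / Real.exp r ≤ x i ∧ x i ≤ Real.exp r := by
  unfold partLog at hx
  split_ifs at hx with hp
  · have h1 := abs_le.1 (h _ hx i)
    rw [one_div, ← Real.exp_neg, ← Real.exp_log (hp i)]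
    exact ⟨Real.exp_le_exp.2 h1.1, Real.exp_le_exp.2 h1.2⟩
  · exact absurd rfl hx

theorem partLog_contDiff {Ψ : V3 → ℂ} {r : ℝ} (hΨ : ContDiff ℝ (⊤ : ℕ∞) Ψ)
    (h : ∀ y, Ψ y ≠ 0 → ∀ i, |y i| ≤ r) : ContDiff ℝ (⊤ : ℕ∞) (partLog Ψ) := by
  rw [contDiff_iff_contDiffAt]
  intro x0
  by_cases hp : ∀ j, 0 < x0 j
  · have h1 : ContDiffAt ℝ (⊤ : ℕ∞) (fun x : V3 => Ψ fun j => Real.log (x j)) x0 :=
      hΨ.contDiffAt.comp x0 (contDiffAt_pi.2 fun j => (contDiffAt_apply ℝ ℝ j x0).log (hp j).ne')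
    refine h1.congr_of_eventuallyEq ?_
    have h2 : ∀ᶠ x : V3 in 𝓝 x0, ∀ j, 0 < x j :=
      eventually_all.2 fun j => (continuous_apply j).continuousAt.eventually (lt_mem_nhds (hp j))
    filter_upwards [h2] with x hx
    rw [partLog, if_pos hx]
  · push Not at hp
    obtain ⟨j, hj⟩ := hp
    refine (contDiffAt_const (c := (0 : ℂ))).congr_of_eventuallyEq ?_
    have h2 : ∀ᶠ x : V3 in 𝓝 x0, x j < 1 / Real.exp r :=
      (continuous_apply j).continuousAt.eventually (gt_mem_nhds (lt_of_le_of_lt hj (by positivity)))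
    filter_upwards [h2] with x hx
    by_contra h3
    exact absurd (partLog_supp h h3 j).1 (not_le.2 hx)

theorem partLog_compact {Ψ : V3 → ℂ} {r : ℝ} (h : ∀ y, Ψ y ≠ 0 → ∀ i, |y i| ≤ r) :
    HasCompactSupport (partLog Ψ) := by
  refine HasCompactSupport.intro (K := Set.Icc (fun _ => 1 / Real.exp r) fun _ => Real.exp r)
    isCompact_Icc fun x hx => ?_
  by_contra h3
  exact hx ⟨fun i => (partLog_supp h h3 i).1, fun i => (partLog_supp h h3 i).2⟩

/-- coordinates in the basis `(1,1,1), l 0, l 1` -/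
noncomputable def partZ0 (y : V3) : ℝ := (y 0 + y 1 + y 2) / 3

noncomputable def partZ1 (l : Fin 2 → V3) (y : V3) : ℝ :=
  ((y 0 - partZ0 y) * l 1 1 - (y 1 - partZ0 y) * l 1 0) / (l 0 0 * l 1 1 - l 0 1 * l 1 0)

noncomputable def partZ2 (l : Fin 2 → V3) (y : V3) : ℝ :=
  ((y 1 - partZ0 y) * l 0 0 - (y 0 - partZ0 y) * l 0 1) / (l 0 0 * l 1 1 - l 0 1 * l 1 0)

theorem partZ_decomp {l : Fin 2 → V3} (hl : ∀ k, l k 0 + l k 1 + l k 2 = 0)
    (hd : l 0 0 * l 1 1 - l 0 1 * l 1 0 ≠ 0) (y : V3) (i : Fin 3) :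
    y i = partZ0 y + partZ1 l y * l 0 i + partZ2 l y * l 1 i := by
  have hi := mul_inv_cancel₀ hd
  have h0 : y 0 = partZ0 y + partZ1 l y * l 0 0 + partZ2 l y * l 1 0 := by
    unfold partZ1 partZ2
    linear_combination (partZ0 y - y 0) * hi
  have h1 : y 1 = partZ0 y + partZ1 l y * l 0 1 + partZ2 l y * l 1 1 := by
    unfold partZ1 partZ2
    linear_combination (partZ0 y - y 1) * hi
  have h2 : y 2 = partZ0 y + partZ1 l y * l 0 2 + partZ2 l y * l 1 2 := by
    have e0 : l 0 2 = -l 0 0 - l 0 1 := by linarith [hl 0]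
    have e1 : l 1 2 = -l 1 0 - l 1 1 := by linarith [hl 1]
    have e2 : y 2 = 3 * partZ0 y - y 0 - y 1 := by unfold partZ0; ring
    rw [e0, e1]
    linear_combination e2 - h0 - h1
  fin_cases i
  exacts [h0, h1, h2]

theorem partZ_shift {l : Fin 2 → V3} (hl : ∀ k, l k 0 + l k 1 + l k 2 = 0)
    (hd : l 0 0 * l 1 1 - l 0 1 * l 1 0 ≠ 0) (y y' : V3) (a b t : ℝ)
    (h : ∀ j, y' j = y j + (a * l 0 j + b * l 1 j) - t) :
    partZ0 y' = partZ0 y - t ∧ partZ1 l y' = partZ1 l y + a ∧ partZ2 l y' = partZ2 l y + b := by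
  have h0 : partZ0 y' = partZ0 y - t := by
    unfold partZ0
    rw [h 0, h 1, h 2]
    linear_combination a / 3 * hl 0 + b / 3 * hl 1
  have hi := mul_inv_cancel₀ hd
  refine ⟨h0, ?_, ?_⟩
  · unfold partZ1
    rw [h0, h 0, h 1]
    linear_combination a * hi
  · unfold partZ2
    rw [h0, h 0, h 1]
    linear_combination b * hi

/-- the weight in logarithmic coordinates -/
noncomputable def partW (ν : V3) (l : Fin 2 → V3) (j0 : ℝ) (y : V3) : ℂ :=
  ((partPsi (partZ0 y - j0) * partPsi (partZ1 l y) * partPsi (partZ2 l y) : ℝ) : ℂ) *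
    Complex.exp (Complex.I * ((ν 0 * y 0 + ν 1 * y 1 + ν 2 * y 2 : ℝ) : ℂ) -
      ((partZ0 y / 2 : ℝ) : ℂ))

theorem partW_contDiff (ν : V3) (l : Fin 2 → V3) (j0 : ℝ) :
    ContDiff ℝ (⊤ : ℕ∞) (partW ν l j0) := by
  have h0 : ContDiff ℝ (⊤ : ℕ∞) partZ0 := by unfold partZ0; fun_prop
  have h1 : ContDiff ℝ (⊤ : ℕ∞) (partZ1 l) := by unfold partZ1; fun_prop
  have h2 : ContDiff ℝ (⊤ : ℕ∞) (partZ2 l) := by unfold partZ2; fun_prop
  have hc : ContDiff ℝ (⊤ : ℕ∞) (fun x : ℝ => (x : ℂ)) := Complex.ofRealCLM.contDiff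
  have h3 : ContDiff ℝ (⊤ : ℕ∞) (fun y : V3 => ν 0 * y 0 + ν 1 * y 1 + ν 2 * y 2) := by fun_prop
  refine (hc.comp (((partPsi_contDiff.comp (h0.sub contDiff_const)).mul
    (partPsi_contDiff.comp h1)).mul (partPsi_contDiff.comp h2))).mul ?_
  exact ((contDiff_const.mul (hc.comp h3)).sub (hc.comp (h0.div_const 2))).cexp

theorem partW_supp (ν : V3) {l : Fin 2 → V3} (hl : ∀ k, l k 0 + l k 1 + l k 2 = 0)
    (hd : l 0 0 * l 1 1 - l 0 1 * l 1 0 ≠ 0) (j0 : ℝ) (y : V3) (h : partW ν l j0 y ≠ 0)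
    (i : Fin 3) : |y i| ≤ |j0| + 1 + ‖l 0‖ + ‖l 1‖ := by
  have h1 : partPsi (partZ0 y - j0) * partPsi (partZ1 l y) * partPsi (partZ2 l y) ≠ 0 := by
    intro h0
    apply h
    rw [partW, h0, Complex.ofReal_zero, zero_mul]
  have a0 := partPsi_abs_le (mul_ne_zero_iff.1 (mul_ne_zero_iff.1 h1).1).1
  have a1 := partPsi_abs_le (mul_ne_zero_iff.1 (mul_ne_zero_iff.1 h1).1).2
  have a2 := partPsi_abs_le (mul_ne_zero_iff.1 h1).2
  have b0 : |partZ0 y| ≤ |j0| + 1 := by
    have := abs_add_le (partZ0 y - j0) j0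
    rw [sub_add_cancel] at this
    linarith
  have b1 : |partZ1 l y * l 0 i| ≤ ‖l 0‖ := by
    rw [abs_mul]
    exact (mul_le_of_le_one_left (abs_nonneg _) a1).trans (norm_le_pi_norm (l 0) i)
  have b2 : |partZ2 l y * l 1 i| ≤ ‖l 1‖ := by
    rw [abs_mul]
    exact (mul_le_of_le_one_left (abs_nonneg _) a2).trans (norm_le_pi_norm (l 1) i)
  rw [partZ_decomp hl hd y i]
  refine (abs_add_three _ _ _).trans ?_
  linarith

end Pool.Agent.CubH
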