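import Pool.Agent.Lib.MP_d79f69_nt.Iface

/-! The damped weights have controlled finite differences. -/

open Matrix MeasureTheory Filter Topology

namespace Pool.Agent.CubH

theorem part_triv {W : V3 → ℂ} {M : ℝ} (hW : ∀ x, ‖W x‖ ≤ M) (v : V3) (k : ℕ) :
    ∀ x, ‖(fwdDiff v)^[k] W x‖ ≤ 2 ^ k * M := by
  induction k with
  | zero => simpa using hW
  | succ k ih =>
    intro x
    rw [Function.iterate_succ_apply', fwdDiff]
    refine (norm_sub_le _ _).trans ?_
    have h1 := ih (x + v)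
    have h2 := ih x
    rw [pow_succ]
    linarith

theorem part_vanish {W : V3 → ℂ} {x v : V3} {k : ℕ} (h : ∀ j ≤ k, W (x + (j : ℝ) • v) = 0) :
    (fwdDiff v)^[k] W x = 0 := by
  rw [fwdDiff_iter_eq_sum_shift]
  refine Finset.sum_eq_zero fun j hj => ?_
  rw [← Nat.cast_smul_eq_nsmul ℝ, h j (Nat.lt_succ_iff.1 (Finset.mem_range.1 hj)), smul_zero]

theorem part_disc (h5 : SBa) (h6 : STc) {Q : ℝ} (hQ : 1 ≤ Q) : ∃ κ m : ℝ, 0 < κ ∧ κ ≤ 1 ∧ 0 < m ∧
    ∀ (p : V3) (w : C3), Dr Q p → ‖w‖ ≤ κ → (∀ i, 0 < ((cv p + w) i).re) ∧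
      ∀ s : ℂ, ‖s‖ ≤ 2 * s.re → m * s.re ≤ (s * phc (cv p + w)).re := by
  obtain ⟨C, hC, hT⟩ := h6 Q hQ
  have hQ0 : 0 < Q := by linarith
  set m : ℝ := (1 / Q * (1 / Q) * (1 / Q)) ^ ((2 : ℝ) / 3) with hm
  have hm0 : 0 < m := by positivity
  have hq : 1 / (4 * Q) ≤ 1 := by
    rw [div_le_one (by positivity)]
    linarith
  refine ⟨min (1 / (4 * Q)) (m / (4 * C)), m / 2, by positivity, (min_le_left _ _).trans hq,
    by positivity, fun p w hp hw => ?_⟩
  have hw1 : ‖w‖ ≤ 1 / (4 * Q) := hw.trans (min_le_left _ _)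
  have hw2 : ‖w‖ ≤ m / (4 * C) := hw.trans (min_le_right _ _)
  have hp0 : ∀ i, 0 < p i := fun i => lt_of_lt_of_le (by positivity) (hp i).1
  refine ⟨fun i => ?_, fun s hs => ?_⟩
  · have h1 : |(w i).re| ≤ 1 / (4 * Q) :=
      (Complex.abs_re_le_norm _).trans ((norm_le_pi_norm w i).trans hw1)
    have h2 : 1 / (4 * Q) < 1 / Q := one_div_lt_one_div_of_lt hQ0 (by linarith)
    have h3 := (hp i).1
    have h4 := (abs_le.1 h1).1
    simp only [Pi.add_apply, cv, Complex.add_re, Complex.ofReal_re]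
    linarith
  · have hd : Dc Q (cv p) := fun i => by
      simp only [cv, Complex.ofReal_re, Complex.norm_real, Real.norm_of_nonneg (hp0 i).le]
      exact hp i
    have h1 := ((hT (cv p) hd 0 w 0).2 hw1).1
    rw [(h5.1 p 0 0 0 hp0).1] at h1
    have h2 : m ≤ ph p := by
      refine Real.rpow_le_rpow (by positivity) ?_ (by norm_num)
      have := hp0 0
      have := hp0 1
      gcongr
      exacts [(hp 0).1, (hp 1).1, (hp 2).1]
    have hs0 : 0 ≤ s.re := by linarith [norm_nonneg s]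
    have h3 : ‖s * (phc (cv p + w) - ph p)‖ ≤ 2 * s.re * (m / 4) := by
      rw [norm_mul]
      refine mul_le_mul hs (h1.trans ?_) (norm_nonneg _) (by linarith)
      rw [le_div_iff₀ (by positivity)] at hw2
      linarith
    have h4 := (abs_le.1 ((Complex.abs_re_le_norm _).trans h3)).1
    have h7 : (s * phc (cv p + w)).re = s.re * ph p + (s * (phc (cv p + w) - ph p)).re := by
      rw [mul_sub, Complex.sub_re, Complex.re_mul_ofReal]
      ring
    rw [h7]
    nlinarith [mul_le_mul_of_nonneg_left h2 hs0]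

theorem part_Wt (h1 : SB1) (h2 : SB2) (h3 : SB3) (h4 : SB4) (h5 : SBa) (h6 : STc) (N : ℕ)
    {R : ℝ} (hR : 1 ≤ R) {F : V3 → ℂ} (hF : ContDiff ℝ (⊤ : ℕ∞) F) (hFc : HasCompactSupport F)
    (hs : ∀ x, F x ≠ 0 → ∀ i, 1 / R ≤ x i ∧ x i ≤ R) :
    ∃ A m : ℝ, 0 < A ∧ 0 < m ∧ ∀ (ζ : ℂ) (X : ℝ), ‖ζ‖ ≤ 2 * ζ.re → 0 < X →
      Wt N R X (A * Real.exp (-(m * ζ.re * X ^ 2)))
        (fun x => F (X⁻¹ • x) * Complex.exp (-(ζ * phc (cv x)))) := by
  obtain ⟨κ, m, hκ, hκ1, hm, hD⟩ := part_disc h5 h6 (Q := 2 * R) (by linarith)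
  obtain ⟨C, hC, hB2⟩ := h2 N
  obtain ⟨A, hA, hB4⟩ := h4 F hF hFc N
  have hR0 : 0 < R := by linarith
  have hCκ : 1 ≤ C / κ := by
    rw [le_div_iff₀ hκ]
    linarith
  refine ⟨2 ^ N * A * C * (C / κ) ^ N, m, by positivity, hm, fun ζ X hζ hX => ?_⟩
  set e := Real.exp (-(m * ζ.re * X ^ 2)) with he
  have he0 : 0 < e := Real.exp_pos _
  set W : V3 → ℂ := fun x => F (X⁻¹ • x) * Complex.exp (-(ζ * phc (cv x))) with hW
  have hsup : ∀ x, W x ≠ 0 → ∀ i, X / R ≤ x i ∧ x i ≤ R * X := by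
    intro x hx i
    have h7 := hs _ (mul_ne_zero_iff.1 hx).1 i
    simp only [Pi.smul_apply, smul_eq_mul] at h7
    rw [le_inv_mul_iff₀ hX, inv_mul_le_iff₀ hX] at h7
    exact ⟨by rw [div_eq_mul_one_div]; exact h7.1, by rw [mul_comm]; exact h7.2⟩
  have hexp : ∀ (x : V3) (w : C3), Dr (2 * R) (X⁻¹ • x) → ‖w‖ ≤ κ * X →
      (∀ i, 0 < ((cv x + w) i).re) ∧ ‖Complex.exp (-(ζ * phc (cv x + w)))‖ ≤ e := by
    intro x w hx hw
    have hXc : (X : ℂ) ≠ 0 := by exact_mod_cast hX.ne'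
    have hw' : ‖(X : ℂ)⁻¹ • w‖ ≤ κ := by
      rw [norm_smul, norm_inv, Complex.norm_real, Real.norm_of_nonneg hX.le,
        inv_mul_le_iff₀ hX, mul_comm]
      exact hw
    obtain ⟨a1, a2⟩ := hD _ _ hx hw'
    have a3 : cv x + w = (X : ℂ) • (cv (X⁻¹ • x) + (X : ℂ)⁻¹ • w) := by
      ext i
      simp only [cv, Pi.add_apply, Pi.smul_apply, smul_eq_mul]
      push_cast
      field_simp
    refine ⟨fun i => ?_, ?_⟩
    · rw [a3, Pi.smul_apply, smul_eq_mul, Complex.re_ofReal_mul]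
      exact mul_pos hX (a1 i)
    · rw [a3, h5.2.1 _ _ (by simpa using hX) a1, Complex.norm_exp, he]
      refine Real.exp_le_exp.2 ?_
      have a4 : ‖ζ * (X : ℂ) ^ 2‖ ≤ 2 * (ζ * (X : ℂ) ^ 2).re := by
        rw [← Complex.ofReal_pow, Complex.re_mul_ofReal, norm_mul, Complex.norm_real,
          Real.norm_of_nonneg (by positivity)]
        nlinarith [sq_nonneg X]
      have a5 := a2 _ a4
      rw [← Complex.ofReal_pow, Complex.re_mul_ofReal] at a5
      rw [Complex.neg_re, ← mul_assoc, ← Complex.ofReal_pow]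
      linarith
  have hdr : ∀ x y : V3, W y ≠ 0 → ‖y - x‖ ≤ X / (16 * R) → Dr (2 * R) (X⁻¹ • x) := by
    intro x y hy hxy i
    have a1 := hsup y hy i
    have a2 := abs_le.1 ((norm_le_pi_norm (y - x) i).trans hxy)
    simp only [Pi.sub_apply] at a2
    simp only [Pi.smul_apply, smul_eq_mul]
    rw [le_inv_mul_iff₀ hX, inv_mul_le_iff₀ hX]
    have a3 : X / (16 * R) = X / R / 16 := by field_simp
    have a4 : X * (1 / (2 * R)) = X / R / 2 := by field_simp
    have a5 : X / R ≤ X := div_le_self hX.le hR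
    have a6 : X ≤ R * X := le_mul_of_one_le_left hX.le hR
    have a7 : 0 < X / R := by positivity
    constructor <;> nlinarith
  have hbd : ∀ x, ‖W x‖ ≤ A * e := by
    intro x
    by_cases hx : W x = 0
    · rw [hx, norm_zero]
      positivity
    · have a1 := (hexp x 0 (hdr x x hx (by rw [sub_self, norm_zero]; positivity))
        (by rw [norm_zero]; positivity)).2
      rw [add_zero] at a1
      have a2 := hB4 0 (Nat.zero_le _) (X⁻¹ • x) 0
      rw [pow_zero, mul_one] at a2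
      rw [hW, norm_mul]
      exact mul_le_mul a2 a1 (norm_nonneg _) hA.le
  refine ⟨hsup, fun k hk x v hv => ?_⟩
  have hq0 : 0 ≤ ‖v‖ / X := by positivity
  have hp2 : (2 : ℝ) ^ k ≤ 2 ^ N := pow_le_pow_right₀ (by norm_num) hk
  have hpC : (C / κ) ^ k ≤ (C / κ) ^ N := pow_le_pow_right₀ hCκ hk
  by_cases hz : ∀ j ≤ k, W (x + (j : ℝ) • v) = 0
  · rw [part_vanish hz, norm_zero]
    positivity
  push Not at hz
  obtain ⟨j, hj, hj0⟩ := hz
  have hx : Dr (2 * R) (X⁻¹ • x) := by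
    refine hdr x _ hj0 ?_
    rw [add_sub_cancel_left, norm_smul, Real.norm_natCast]
    refine le_trans (mul_le_mul_of_nonneg_right ?_ (norm_nonneg _)) hv
    exact_mod_cast hj.trans hk
  by_cases hbig : 1 ≤ (C / κ * (‖v‖ / X)) ^ k
  · refine (part_triv hbd v k x).trans ?_
    rw [mul_pow] at hbig
    calc 2 ^ k * (A * e) ≤ 2 ^ N * (A * e) * C * ((C / κ) ^ k * (‖v‖ / X) ^ k) := by
          have b1 : 2 ^ k * (A * e) ≤ 2 ^ N * (A * e) := by gcongr
          have b2 : 2 ^ N * (A * e) ≤ 2 ^ N * (A * e) * C :=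
            le_mul_of_one_le_right (by positivity) hC
          exact b1.trans (b2.trans (le_mul_of_one_le_right (by positivity) hbig))
      _ ≤ 2 ^ N * (A * e) * C * ((C / κ) ^ N * (‖v‖ / X) ^ k) := by gcongr
      _ = _ := by ring
  have hsm : C / κ * (‖v‖ / X) ≤ 1 := by
    by_contra h7
    exact hbig (one_le_pow₀ (not_le.1 h7).le)
  by_cases hv0 : v = 0
  · have hk0 : k ≠ 0 := by
      rintro rfl
      exact hbig (by rw [pow_zero])
    obtain ⟨k, rfl⟩ := Nat.exists_eq_succ_of_ne_zero hk0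
    rw [Function.iterate_succ_apply', fwdDiff, hv0, add_zero, sub_self, norm_zero]
    positivity
  have hv1 : 0 < ‖v‖ := norm_pos_iff.2 hv0
  set ρ := κ * X / ‖v‖ with hρ
  have hρ0 : 0 < ρ := by positivity
  have hCρ : C ≤ ρ := by
    rw [hρ, le_div_iff₀ hv1]
    rw [div_mul_div_comm, div_le_one (by positivity)] at hsm
    exact hsm
  have hqρ : ‖v‖ / X = κ / ρ := by
    rw [hρ]
    field_simp
  have hcv : ∀ t : ℂ, t ∈ Metric.ball (0 : ℂ) ρ → ‖t • cv v‖ ≤ κ * X := by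
    intro t ht
    have a1 : ‖cv v‖ ≤ ‖v‖ := (pi_norm_le_iff_of_nonneg hv1.le).2 fun i => by
      rw [cv, Complex.norm_real]
      exact norm_le_pi_norm v i
    rw [mem_ball_zero_iff, hρ, lt_div_iff₀ hv1] at ht
    rw [norm_smul]
    exact (mul_le_mul_of_nonneg_left a1 (norm_nonneg _)).trans ht.le
  have hE := hB2 e ρ (fun t => Complex.exp (-(ζ * phc (cv x + t • cv v)))) hCρ
    (fun t ht => (((h5.2.2 (cv x) (cv v) t (hexp x _ hx (hcv t ht)).1).differentiableAt.const_mul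
      ζ).neg.cexp).differentiableWithinAt)
    (fun t ht => (hexp x _ hx (hcv t ht)).2)
  have hS : Dd N A ρ (fun n : ℕ => F (X⁻¹ • x + (n : ℝ) • (X⁻¹ • v))) := by
    intro k' j' hkj
    rw [h3.1]
    refine (hB4 k' (by omega) _ _).trans ?_
    rw [norm_smul, norm_inv, Real.norm_of_nonneg hX.le, inv_mul_eq_div, hqρ, div_pow,
      ← mul_div_assoc]
    exact div_le_div_of_nonneg_right
      (mul_le_of_le_one_right hA.le (pow_le_one₀ hκ.le hκ1)) (by positivity)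
  have hP := h1 N _ _ ρ _ _ hρ0 hS hE k 0 (by omega)
  have hfun : (fun n : ℕ => F (X⁻¹ • x + (n : ℝ) • (X⁻¹ • v)) *
      Complex.exp (-(ζ * phc (cv x + (n : ℂ) • cv v)))) = fun n : ℕ => W (x + (n : ℝ) • v) := by
    funext n
    have a1 : cv x + (n : ℂ) • cv v = cv (x + (n : ℝ) • v) := by
      ext i
      simp [cv]
    rw [hW, a1, smul_comm (n : ℝ), ← smul_add]
  rw [hfun, h3.1, Nat.cast_zero, zero_smul, add_zero] at hP
  refine hP.trans ?_
  have b1 : 1 / ρ ^ k ≤ (C / κ) ^ N * (‖v‖ / X) ^ k := by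
    refine le_trans ?_ (mul_le_mul_of_nonneg_right hpC (by positivity))
    rw [← mul_pow, hqρ, ← _root_.one_div_pow]
    refine pow_le_pow_left₀ (by positivity) ?_ k
    rw [show C / κ * (κ / ρ) = C / ρ by field_simp]
    exact div_le_div_of_nonneg_right hC hρ0.le
  calc 2 ^ N * A * (C * e) / ρ ^ k = 2 ^ N * A * (C * e) * (1 / ρ ^ k) := by ring
    _ ≤ 2 ^ N * A * (C * e) * ((C / κ) ^ N * (‖v‖ / X) ^ k) := by gcongr
    _ = _ := by ring

end Pool.Agent.CubH
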