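import Pool.Agent.Lib.MP_d79f69_nt.Iface

/-!
Reduction of the exponential sum bound to matrices close to the identity.
-/

open Matrix

namespace Pool.Agent.CubH

private lemma redCoset (E : Matrix (Fin 3) (Fin 3) ℤ) (hE : E.det ≠ 0) :
    ∃ (K : ℕ) (r : Fin K → Z3), Function.Bijective (fun x : Fin K × Z3 => r x.1 + E *ᵥ x.2) := by
  classical
  let H : Submodule ℤ Z3 := LinearMap.range E.mulVecLin
  have htor : Module.IsTorsion ℤ (Z3 ⧸ H) := by
    intro x
    obtain ⟨y, rfl⟩ := Submodule.Quotient.mk_surjective H x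
    refine ⟨⟨E.det, mem_nonZeroDivisors_of_ne_zero hE⟩, ?_⟩
    change E.det • (Submodule.Quotient.mk y : Z3 ⧸ H) = 0
    rw [← Submodule.Quotient.mk_smul, Submodule.Quotient.mk_eq_zero]
    refine ⟨E.adjugate *ᵥ y, ?_⟩
    simp only [mulVecLin_apply, mulVec_mulVec, mul_adjugate, smul_mulVec, one_mulVec]
  have : Finite (Z3 ⧸ H) := Module.finite_of_fg_torsion _ htor
  obtain ⟨K, ⟨e⟩⟩ := Finite.exists_equiv_fin (Z3 ⧸ H)
  choose o ho using Submodule.Quotient.mk_surjective H
  have hinj : ∀ m : Z3, E *ᵥ m = 0 → m = 0 := fun m hm => eq_zero_of_mulVec_eq_zero hE hm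
  have hm0 : ∀ m : Z3, (Submodule.Quotient.mk (E *ᵥ m) : Z3 ⧸ H) = 0 := fun m =>
    (Submodule.Quotient.mk_eq_zero H).2 ⟨m, rfl⟩
  refine ⟨K, fun k => o (e.symm k), ?_, ?_⟩
  · rintro ⟨k, m⟩ ⟨k', m'⟩ h
    dsimp only at h
    have h1 : k = k' := by
      have := congrArg (Submodule.Quotient.mk (p := H)) h
      rw [Submodule.Quotient.mk_add, Submodule.Quotient.mk_add, hm0, hm0, ho, ho, add_zero,
        add_zero] at this
      exact e.symm.injective this
    subst h1
    have h2 : E *ᵥ (m - m') = 0 := by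
      rw [mulVec_sub, add_left_cancel h, sub_self]
    rw [sub_eq_zero.1 (hinj _ h2)]
  · intro n
    have h1 : n - o (Submodule.Quotient.mk n) ∈ H := by
      rw [← Submodule.Quotient.eq, ho]
    obtain ⟨m, hm⟩ := h1
    refine ⟨(e (Submodule.Quotient.mk n), m), ?_⟩
    simp only [Equiv.symm_apply_apply]
    rw [mulVecLin_apply] at hm
    rw [hm]
    abel

private lemma redNearDet (Q : ℝ) (hQ : 1 ≤ Q) (B : M3) (h : NearI Q B) : B.det ≠ 0 := by
  have hd : 1 / (64 * Q ^ 2) ≤ (1 / 64 : ℝ) :=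
    one_div_le_one_div_of_le (by norm_num) (by nlinarith)
  have hh : ∀ i j, |B i j - (if i = j then 1 else 0)| ≤ 1 / 64 := fun i j => (h i j).trans hd
  intro h0
  obtain ⟨v, hv0, hv⟩ := exists_mulVec_eq_zero_iff.2 h0
  apply hv0
  have hn : ∀ i, |v i| ≤ ‖v‖ := fun i => by simpa using norm_le_pi_norm v i
  have key : ∀ i, |v i| ≤ 3 / 64 * ‖v‖ := by
    intro i
    have e1 : v i = -∑ j, (B i j - (if i = j then 1 else 0)) * v j := by
      have := congrFun hv i
      simp only [mulVec, dotProduct, Pi.zero_apply] at this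
      simp only [sub_mul, Finset.sum_sub_distrib, this, ite_mul, one_mul, zero_mul,
        Finset.sum_ite_eq, Finset.mem_univ, if_true, zero_sub, neg_neg]
    rw [e1, abs_neg]
    refine (Finset.abs_sum_le_sum_abs _ _).trans ?_
    have : ∀ j ∈ (Finset.univ : Finset (Fin 3)),
        |(B i j - (if i = j then 1 else 0)) * v j| ≤ 1 / 64 * ‖v‖ := by
      intro j _
      rw [abs_mul]
      exact mul_le_mul (hh i j) (hn j) (abs_nonneg _) (by norm_num)
    refine (Finset.sum_le_sum this).trans ?_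
    simp only [Finset.sum_const, Finset.card_univ, Fintype.card_fin, nsmul_eq_mul]
    push_cast
    linarith
  have h2 : ‖v‖ ≤ 3 / 64 * ‖v‖ :=
    (pi_norm_le_iff_of_nonneg (by positivity)).2 fun i => by simpa using key i
  have h3 : ‖v‖ = 0 := by linarith [norm_nonneg v]
  exact norm_eq_zero.1 h3

private lemma redApprox (Q : ℝ) (hQ : 1 ≤ Q) (B : M3) (hB : B.det ≠ 0) :
    ∃ (T : ℝ) (E : Matrix (Fin 3) (Fin 3) ℤ), 1 ≤ T ∧
      NearI Q (T⁻¹ • (B * E.map (Int.cast : ℤ → ℝ))) := by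
  set S : ℝ := ∑ i, ∑ k, |B i k| with hS
  have hS0 : 0 ≤ S := Finset.sum_nonneg fun i _ => Finset.sum_nonneg fun k _ => abs_nonneg _
  have hQ2 : 0 < 64 * Q ^ 2 := by positivity
  set T : ℝ := 1 + 64 * Q ^ 2 * S with hT
  have hT1 : 1 ≤ T := by rw [hT]; linarith [mul_nonneg hQ2.le hS0]
  have hT0 : 0 < T := by linarith
  refine ⟨T, Matrix.of fun i j => round (T * B⁻¹ i j), hT1, ?_⟩
  intro i j
  have hinv : B * B⁻¹ = 1 := mul_nonsing_inv B (isUnit_iff_ne_zero.2 hB)
  have h1 : ∑ k, B i k * B⁻¹ k j = if i = j then 1 else 0 := by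
    have := congrFun (congrFun hinv i) j
    rwa [mul_apply, one_apply] at this
  have e1 : (T⁻¹ • (B * (Matrix.of fun i j => round (T * B⁻¹ i j)).map (Int.cast : ℤ → ℝ))) i j -
      (if i = j then 1 else 0) =
      -(T⁻¹ * ∑ k, B i k * (T * B⁻¹ k j - round (T * B⁻¹ k j))) := by
    rw [← h1]
    simp only [Matrix.smul_apply, Matrix.mul_apply, map_apply, of_apply, smul_eq_mul, Fin.sum_univ_three]
    field_simp
    ring
  rw [e1, abs_neg, abs_mul, abs_of_pos (inv_pos.2 hT0)]
  have h2 : |∑ k, B i k * (T * B⁻¹ k j - round (T * B⁻¹ k j))| ≤ S := by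
    refine (Finset.abs_sum_le_sum_abs _ _).trans ?_
    have h3 : ∑ k, |B i k| ≤ S :=
      Finset.single_le_sum (f := fun i => ∑ k, |B i k|)
        (fun i _ => Finset.sum_nonneg fun k _ => abs_nonneg _) (Finset.mem_univ i)
    refine le_trans (Finset.sum_le_sum fun k _ => ?_) h3
    rw [abs_mul]
    have := abs_sub_round (T * B⁻¹ k j)
    nlinarith [abs_nonneg (B i k)]
  calc T⁻¹ * |∑ k, B i k * (T * B⁻¹ k j - round (T * B⁻¹ k j))| ≤ T⁻¹ * S :=
        mul_le_mul_of_nonneg_left h2 (inv_pos.2 hT0).le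
    _ ≤ 1 / (64 * Q ^ 2) := by
        rw [inv_mul_eq_div, div_le_div_iff₀ hT0 hQ2]
        linarith

private lemma redFwd (W : V3 → ℂ) (T : ℝ) (v : V3) (k : ℕ) (x : V3) :
    (fwdDiff v)^[k] (fun y => W (T • y)) x = (fwdDiff (T • v))^[k] W (T • x) := by
  induction k generalizing x with
  | zero => rfl
  | succ k ih =>
    rw [Function.iterate_succ_apply', Function.iterate_succ_apply']
    simp only [fwdDiff, ih, smul_add]

private lemma redWt {N : ℕ} {R X A T : ℝ} {W : V3 → ℂ} (hT : 0 < T)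
    (h : Wt N R X A W) : Wt N R (X / T) A (fun y => W (T • y)) := by
  refine ⟨fun x hx i => ?_, fun k hk x v hv => ?_⟩
  · obtain ⟨h1, h2⟩ := h.1 _ hx i
    simp only [Pi.smul_apply, smul_eq_mul] at h1 h2
    constructor
    · rw [div_right_comm, div_le_iff₀ hT]; linarith
    · rw [← mul_div_assoc, le_div_iff₀ hT]; linarith
  · have hn : ‖T • v‖ = T * ‖v‖ := by rw [norm_smul, Real.norm_of_nonneg hT.le]
    have h1 : (N : ℝ) * ‖T • v‖ ≤ X / (16 * R) := by
      rw [hn]
      rw [div_right_comm, le_div_iff₀ hT] at hv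
      linarith
    rw [redFwd]
    have := h.2 k hk (T • x) (T • v) h1
    rwa [hn, show T * ‖v‖ / X = ‖v‖ / (X / T) by rw [div_div_eq_mul_div, mul_comm]] at this

private lemma redPh {T : ℝ} (hT : 0 < T) (y : V3) (hy : ∀ i, 0 ≤ y i) :
    ph (T • y) = T ^ 2 * ph y := by
  simp only [ph, Pi.smul_apply, smul_eq_mul]
  have h1 : T * y 0 * (T * y 1) * (T * y 2) = T ^ 3 * (y 0 * y 1 * y 2) := by ring
  have h2 : (T ^ 3) ^ ((2 : ℝ) / 3) = T ^ 2 := by
    rw [← Real.rpow_natCast T 3, ← Real.rpow_mul hT.le, ← Real.rpow_natCast T 2]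
    norm_num
  rw [h1, Real.mul_rpow (by positivity) (mul_nonneg (mul_nonneg (hy 0) (hy 1)) (hy 2)), h2]

private lemma redFin (B : M3) (hB : B.det ≠ 0) (Y : ℝ) :
    {n : Z3 | ∀ i, |(B *ᵥ zr n) i| ≤ Y}.Finite := by
  set S : ℝ := ∑ i, ∑ k, |B⁻¹ i k| with hS
  obtain ⟨M, hM⟩ := exists_int_gt (S * |Y|)
  refine (Set.finite_Icc (fun _ => -M : Z3) (fun _ => M)).subset fun n hn => ?_
  have hinv : B⁻¹ * B = 1 := nonsing_inv_mul B (isUnit_iff_ne_zero.2 hB)
  have key : ∀ i, |n i| ≤ M := by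
    intro i
    have e1 : (n i : ℝ) = ∑ k, B⁻¹ i k * (B *ᵥ zr n) k := by
      have : B⁻¹ *ᵥ (B *ᵥ zr n) = zr n := by rw [mulVec_mulVec, hinv, one_mulVec]
      exact (congrFun this i).symm
    have h3 : ∑ k, |B⁻¹ i k| ≤ S :=
      Finset.single_le_sum (f := fun i => ∑ k, |B⁻¹ i k|)
        (fun i _ => Finset.sum_nonneg fun k _ => abs_nonneg _) (Finset.mem_univ i)
    have h4 : |(n i : ℝ)| ≤ S * |Y| := by
      rw [e1]
      refine (Finset.abs_sum_le_sum_abs _ _).trans ?_
      refine le_trans ?_ (mul_le_mul_of_nonneg_right h3 (abs_nonneg Y))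
      rw [Finset.sum_mul]
      refine Finset.sum_le_sum fun k _ => ?_
      rw [abs_mul]
      exact mul_le_mul_of_nonneg_left ((hn k).trans (le_abs_self Y)) (abs_nonneg _)
    have h5 : ((|n i| : ℤ) : ℝ) ≤ M := by push_cast; linarith
    exact_mod_cast h5
  exact ⟨fun i => (abs_le.1 (key i)).1, fun i => (abs_le.1 (key i)).2⟩

private lemma redNorm (x : ℝ) : ‖ee x‖ = 1 := by
  have : ee x = Complex.exp (((2 * Real.pi * x : ℝ) : ℂ) * Complex.I) := by
    unfold ee
    congr 1
    push_cast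
    ring
  rw [this, Complex.norm_exp_ofReal_mul_I]

theorem sE (h : SE0) : SE := by
  classical
  obtain ⟨η, hη, N, h⟩ := h
  refine ⟨min η 1, lt_min hη one_pos, N, fun R c B hR hc hB => ?_⟩
  have hQ : (1 : ℝ) ≤ 4 * R ^ 2 := by nlinarith
  obtain ⟨T, E, hT, hnear⟩ := redApprox (4 * R ^ 2) hQ B hB
  have hT0 : 0 < T := by linarith
  have hR0 : 0 < R := by linarith
  set B' : M3 := T⁻¹ • (B * E.map (Int.cast : ℤ → ℝ)) with hB'
  have hdet : B'.det ≠ 0 := redNearDet _ hQ _ hnear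
  have hE : E.det ≠ 0 := by
    intro h0
    apply hdet
    have : (E.map (Int.cast : ℤ → ℝ)).det = 0 := by
      have := (Int.castRingHom ℝ).map_det E
      rw [h0, map_zero] at this
      exact this.symm
    rw [hB', det_smul, det_mul, this, mul_zero, mul_zero]
  obtain ⟨K, r, hr⟩ := redCoset E hE
  obtain ⟨C, hC, hC'⟩ := h R (c * T ^ 2) hR (mul_ne_zero hc (by positivity))
  have hfin := redFin B hB (R * T)
  refine ⟨K * C + hfin.toFinset.card + 1, by positivity, fun X A W hX hW => ?_⟩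
  have hX0 : 0 < X := by linarith
  have hWA : ∀ x, ‖W x‖ ≤ A := by
    intro x
    have := hW.2 0 (Nat.zero_le _) x 0 (by simp only [norm_zero, mul_zero]; positivity)
    simpa using this
  have hA : 0 ≤ A := (norm_nonneg _).trans (hWA 0)
  have hexp : (0 : ℝ) ≤ 5 / 2 - min η 1 := by linarith [min_le_right η 1]
  have hXp : 1 ≤ X ^ (5 / 2 - min η 1) := Real.one_le_rpow hX hexp
  rcases le_or_gt T X with hTX | hTX
  · by_cases hs : Summable (FF B c W 0)
    swap
    · rw [tsum_eq_zero_of_not_summable hs, norm_zero]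
      positivity
    let e := Equiv.ofBijective _ hr
    have hs' : Summable (fun x => FF B c W 0 (e x)) := (e.summable_iff (f := FF B c W 0)).2 hs
    rw [← e.tsum_eq, hs'.tsum_prod, tsum_fintype]
    have hX' : 1 ≤ X / T := by rw [le_div_iff₀ hT0]; linarith
    have hpow : (X / T) ^ (5 / 2 - η) ≤ X ^ (5 / 2 - min η 1) :=
      (Real.rpow_le_rpow_of_exponent_le hX' (by linarith [min_le_left η 1])).trans
        (Real.rpow_le_rpow (by positivity) (div_le_self hX0.le hT) hexp)
    have hk : ∀ k : Fin K, ‖∑' m, FF B c W 0 (e (k, m))‖ ≤ C * A * X ^ (5 / 2 - min η 1) := by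
      intro k
      set a : V3 := B'⁻¹ *ᵥ (T⁻¹ • (B *ᵥ zr (r k))) with ha
      have ha' : B' *ᵥ a = T⁻¹ • (B *ᵥ zr (r k)) := by
        rw [ha, mulVec_mulVec, mul_nonsing_inv B' (isUnit_iff_ne_zero.2 hdet), one_mulVec]
      have hF : ∀ m, FF B c W 0 (e (k, m)) = FF B' (c * T ^ 2) (fun y => W (T • y)) a m := by
        intro m
        have e1 : zr (e (k, m)) = zr (r k) + E.map (Int.cast : ℤ → ℝ) *ᵥ zr m := by
          funext i
          simp [e, zr, mulVec, dotProduct]
        have e2 : B *ᵥ (zr (e (k, m)) + 0) = T • (B' *ᵥ (zr m + a)) := by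
          rw [add_zero, e1, mulVec_add, mulVec_add, ha', hB', smul_mulVec, smul_add, smul_smul,
            smul_smul, mul_inv_cancel₀ hT0.ne', one_smul, one_smul, mulVec_mulVec, add_comm]
        unfold FF
        rw [e2]
        by_cases h0 : W (T • (B' *ᵥ (zr m + a))) = 0
        · simp only [h0, zero_mul]
        · have hpos : ∀ i, 0 ≤ (B' *ᵥ (zr m + a)) i := by
            intro i
            have h1 := ((redWt hT0 hW).1 _ h0 i).1
            exact le_trans (by positivity) h1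
          rw [redPh hT0 _ hpos, mul_assoc c]
      simp only [hF]
      refine (hC' B' hnear (X / T) A _ a hX' (redWt hT0 hW)).trans ?_
      exact mul_le_mul_of_nonneg_left hpow (by positivity)
    refine (norm_sum_le _ _).trans ((Finset.sum_le_sum fun k _ => hk k).trans ?_)
    simp only [Finset.sum_const, Finset.card_univ, Fintype.card_fin, nsmul_eq_mul]
    have : 0 ≤ ((hfin.toFinset.card : ℝ) + 1) * A * X ^ (5 / 2 - min η 1) := by positivity
    nlinarith
  · have hsupp : ∀ n ∉ hfin.toFinset, FF B c W 0 n = 0 := by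
      intro n hn
      by_contra h0
      apply hn
      rw [Set.Finite.mem_toFinset]
      intro i
      have h1 : W (B *ᵥ (zr n + 0)) ≠ 0 := fun h2 => h0 (by unfold FF; rw [h2, zero_mul])
      rw [add_zero] at h1
      obtain ⟨h2, h3⟩ := hW.1 _ h1 i
      rw [abs_of_nonneg (le_trans (by positivity) h2)]
      nlinarith
    rw [tsum_eq_sum hsupp]
    have hn : ∀ n ∈ hfin.toFinset, ‖FF B c W 0 n‖ ≤ A := by
      intro n _
      unfold FF
      rw [norm_mul, redNorm, mul_one]
      exact hWA _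
    refine (norm_sum_le _ _).trans ((Finset.sum_le_sum hn).trans ?_)
    simp only [Finset.sum_const, nsmul_eq_mul]
    have h1 : 0 ≤ ((K : ℝ) * C + 1) * A * X ^ (5 / 2 - min η 1) := by positivity
    have h2 : (hfin.toFinset.card : ℝ) * A * 1 ≤
        (hfin.toFinset.card : ℝ) * A * X ^ (5 / 2 - min η 1) :=
      mul_le_mul_of_nonneg_left hXp (by positivity)
    nlinarith

end Pool.Agent.CubH
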